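import Pool.Agent.J4.H87.CurTrop

/-! The current. -/

set_option autoImplicit false

open scoped Distributions CompactConvergenceCLM Topology ContDiff Manifold
open TopologicalSpace MeasureTheory Set Filter Topology

namespace Pool.Agent.J4.H87.Cur

/-- the real vector `r` in `ℂ²` -/
noncomputable def RR (r : ℝ × ℝ) : C2 := ((r.1 : ℂ), (r.2 : ℂ))

/-- `(s, a, b) ↦ s r + i (a, b)` -/
noncomputable def ptL (r : ℝ × ℝ) : ℝ × ℝ × ℝ →L[ℝ] C2 :=
  (ContinuousLinearMap.fst ℝ ℝ (ℝ × ℝ)).smulRight (RR r) +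
  ((ContinuousLinearMap.fst ℝ ℝ ℝ).comp (ContinuousLinearMap.snd ℝ ℝ (ℝ × ℝ))).smulRight
    ((Complex.I, 0) : C2) +
  ((ContinuousLinearMap.snd ℝ ℝ ℝ).comp (ContinuousLinearMap.snd ℝ ℝ (ℝ × ℝ))).smulRight
    ((0, Complex.I) : C2)

lemma ptL_apply (r : ℝ × ℝ) (p : ℝ × ℝ × ℝ) :
    ptL r p = (((p.1 * r.1 : ℝ) : ℂ) + p.2.1 * Complex.I,
      ((p.1 * r.2 : ℝ) : ℂ) + p.2.2 * Complex.I) := by
  apply Prod.ext <;> simp [ptL, RR]

lemma ptL_injective {r : ℝ × ℝ} (hr : r ≠ 0) : Function.Injective (ptL r) := by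
  intro p q h
  rw [ptL_apply, ptL_apply] at h
  have h1 := (Prod.ext_iff.1 h).1
  have h2 := (Prod.ext_iff.1 h).2
  have a1 := congrArg Complex.re h1
  have a2 := congrArg Complex.im h1
  have b1 := congrArg Complex.re h2
  have b2 := congrArg Complex.im h2
  simp at a1 a2 b1 b2
  have : p.1 = q.1 := by
    rcases a1 with h | h
    · exact h
    · rcases b1 with h' | h'
      · exact h'
      · exact absurd (Prod.ext h h') hr
  exact Prod.ext this (Prod.ext a2 b2)

lemma ptL_emb {r : ℝ × ℝ} (hr : r ≠ 0) : IsClosedEmbedding (ptL r) :=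
  LinearMap.isClosedEmbedding_of_injective (f := (ptL r).toLinearMap)
    (LinearMap.ker_eq_bot.2 (ptL_injective hr))

/-- the parameter domain -/
def Dom : Set (ℝ × ℝ × ℝ) := Ioi 0 ×ˢ univ

/-- the measure carried by the half space over the ray `r` -/
noncomputable def mu (r : ℝ × ℝ) : Measure C2 := Measure.map (ptL r) (volume.restrict Dom)

lemma mu_compact {r : ℝ × ℝ} (hr : r ≠ 0) : IsFiniteMeasureOnCompacts (mu r) := by
  constructor
  intro K hK
  unfold mu
  rw [Measure.map_apply (ptL r).continuous.measurable hK.isClosed.measurableSet]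
  exact lt_of_le_of_lt (Measure.restrict_apply_le _ _)
    ((ptL_emb hr).isCompact_preimage hK).measure_lt_top

/-- the bilinear form `(α, t) ↦ t α(R, i R)` -/
noncomputable def BB (r : ℝ × ℝ) : (C2 [⋀^Fin 2]→L[ℝ] ℝ) →L[ℝ] ℝ →L[ℝ] ℝ :=
  (ContinuousLinearMap.mul ℝ ℝ).comp (wedge (RR r) (Complex.I • RR r))

lemma BB_apply (r : ℝ × ℝ) (α : C2 [⋀^Fin 2]→L[ℝ] ℝ) (t : ℝ) :
    BB r α t = α ![RR r, Complex.I • RR r] * t := rfl

/-- the piece of the current over the ray `r` -/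
noncomputable def piece (r : ℝ × ℝ) : Current 2 (⊤ : Opens C2) :=
  (TestFunction.integralAgainstBilinCLM (BB r) (mu r) (fun _ => (1 : ℝ)) :
    Form 2 (⊤ : Opens C2) →L[ℝ] ℝ)

lemma loc_int {r : ℝ × ℝ} (hr : r ≠ 0) (s : Set C2) :
    LocallyIntegrableOn (fun _ : C2 => (1 : ℝ)) s (mu r) := by
  have := mu_compact hr
  exact (continuous_const.locallyIntegrable (μ := mu r)).locallyIntegrableOn s

lemma piece_apply {r : ℝ × ℝ} (hr : r ≠ 0) (α : Form 2 (⊤ : Opens C2)) :
    piece r α = ∫ x, α x ![RR r, Complex.I • RR r] ∂(mu r) := by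
  have h := TestFunction.integralAgainstBilinCLM_eq_integral (B := BB r) (μ := mu r)
    (φ := fun _ : C2 => (1 : ℝ)) (f := α) (loc_int hr _)
  refine Eq.trans h ?_
  refine integral_congr_ae (Eventually.of_forall fun x => ?_)
  show BB r (α x) 1 = _
  rw [BB_apply, mul_one]

lemma piece_apply' {r : ℝ × ℝ} (hr : r ≠ 0) (α : Form 2 (⊤ : Opens C2)) :
    piece r α = ∫ p in Dom, α (ptL r p) ![RR r, Complex.I • RR r] := by
  rw [piece_apply hr]
  unfold mu
  rw [(ptL_emb hr).measurableEmbedding.integral_map]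

end Pool.Agent.J4.H87.Cur
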