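import Pool.Agent.J4.H87.CurKahler

/-! Pseudoholomorphic curves in `ℂ²`. -/

set_option autoImplicit false

open scoped Distributions CompactConvergenceCLM Topology ContDiff Manifold
open TopologicalSpace MeasureTheory Set Filter

universe u

namespace Pool.Agent.J4.H87.Cur

/-- a real differentiable map with `J`-linear derivative is complex differentiable -/
lemma differentiableAt_of_J {g : ℂ → C2} {z : ℂ} (hg : DifferentiableAt ℝ g z)
    (h : ∀ v : ℂ, fderiv ℝ g z (Complex.I * v) = Complex.I • fderiv ℝ g z v) :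
    DifferentiableAt ℂ g z := by
  rw [differentiableAt_iff_restrictScalars ℝ hg]
  refine ⟨ContinuousLinearMap.toSpanSingleton ℂ (fderiv ℝ g z 1), ?_⟩
  ext1 v
  have hv : v = (v.re : ℝ) • (1 : ℂ) + (v.im : ℝ) • (Complex.I * 1) := by
    apply Complex.ext <;> simp
  show v • fderiv ℝ g z 1 = fderiv ℝ g z v
  conv_rhs => rw [hv, map_add, map_smul, map_smul, h]
  conv_lhs => rw [← Complex.re_add_im v]
  rw [add_smul, mul_smul]
  simp [Complex.coe_smul]

variable {S : Type u} [TopologicalSpace S] [ChartedSpace ℂ S]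

lemma hol_comp {f : S → C2}
    (h1 : ∀ φ ∈ atlas ℂ S, ContDiffOn ℝ ∞ (f ∘ φ.symm) φ.target)
    (h2 : ∀ φ ∈ atlas ℂ S, ∀ z ∈ φ.target, ∀ v : ℂ,
      fderiv ℝ (f ∘ φ.symm) z (Complex.I * v) = J0 (f (φ.symm z)) (fderiv ℝ (f ∘ φ.symm) z v))
    (l : C2 →L[ℂ] ℂ) : Hol (fun p => l (f p)) := by
  intro φ hφ z hz
  have hd : DifferentiableAt ℝ (f ∘ φ.symm) z :=
    ((h1 φ hφ).contDiffAt (φ.open_target.mem_nhds hz)).differentiableAt (by simp)
  have := differentiableAt_of_J hd (fun v => h2 φ hφ z hz v)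
  exact (l.differentiableAt.comp z this).differentiableWithinAt

omit [ChartedSpace ℂ S] in
/-- the density of `χ ω` -/
lemma density_kform {f : S → C2} (χ : C2 → ℝ) {φ : OpenPartialHomeomorph S ℂ} {z : ℂ}
    (h : ∀ v : ℂ,
      fderiv ℝ (f ∘ φ.symm) z (Complex.I * v) = J0 (f (φ.symm z)) (fderiv ℝ (f ∘ φ.symm) z v)) :
    density f (fun x => χ x • kahler) φ z = χ (f (φ.symm z)) *
      kahler ![fderiv ℝ (f ∘ φ.symm) z 1, Complex.I • fderiv ℝ (f ∘ φ.symm) z 1] := by
  unfold density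
  have := h 1
  rw [mul_one, J0_apply] at this
  rw [this]
  rfl

omit [ChartedSpace ℂ S] in
lemma continuousOn_density {f : S → C2}
    (α : C2 → C2 [⋀^Fin 2]→L[ℝ] ℝ) (hα : Continuous α) {φ : OpenPartialHomeomorph S ℂ}
    (h1 : ContDiffOn ℝ ∞ (f ∘ φ.symm) φ.target) :
    ContinuousOn (density f α φ) φ.target := by
  have hd : ContinuousOn (fderiv ℝ (f ∘ φ.symm)) φ.target :=
    (h1.continuousOn_fderiv_of_isOpen φ.open_target (by simp))
  have hc : ContinuousOn (f ∘ φ.symm) φ.target := h1.continuousOn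
  have ha : ContinuousOn (fun z => α (f (φ.symm z))) φ.target := hα.comp_continuousOn hc
  have e : density f α φ = fun z => α (f (φ.symm z))
      ![fderiv ℝ (f ∘ φ.symm) z 1, fderiv ℝ (f ∘ φ.symm) z Complex.I] := rfl
  rw [e]
  have hv : ContinuousOn (fun z => (![fderiv ℝ (f ∘ φ.symm) z 1,
      fderiv ℝ (f ∘ φ.symm) z Complex.I] : Fin 2 → C2)) φ.target := by
    rw [continuousOn_pi]
    intro i
    fin_cases i
    · exact hd.clm_apply continuousOn_const
    · exact hd.clm_apply continuousOn_const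
  have hcont : Continuous (fun q : (C2 [⋀^Fin 2]→L[ℝ] ℝ) × (Fin 2 → C2) => q.1 q.2) := by
    fun_prop
  exact hcont.comp_continuousOn (ha.prodMk hv)


omit [ChartedSpace ℂ S] in
/-- integrability of cut off densities -/
lemma integrableOn_cut {φ : OpenPartialHomeomorph S ℂ} {ρ : S → ℝ} (hρ : Continuous ρ)
    (hc : HasCompactSupport ρ) (hs : tsupport ρ ⊆ φ.source) {D : ℂ → ℝ}
    (hD : ContinuousOn D φ.target) :
    ContinuousOn (fun z => ρ (φ.symm z) * D z) φ.target ∧
      IntegrableOn (fun z => ρ (φ.symm z) * D z) φ.target := by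
  have h1 : ContinuousOn (fun z => ρ (φ.symm z) * D z) φ.target :=
    (hρ.comp_continuousOn φ.continuousOn_symm).mul hD
  refine ⟨h1, ?_⟩
  set K : Set ℂ := φ '' tsupport ρ with hK
  have hKc : IsCompact K := hc.image_of_continuousOn (φ.continuousOn.mono hs)
  have hKt : K ⊆ φ.target := by
    rintro _ ⟨p, hp, rfl⟩
    exact φ.map_source (hs hp)
  have h2 : IntegrableOn (fun z => ρ (φ.symm z) * D z) K := (h1.mono hKt).integrableOn_compact hKc
  have h3 : IntegrableOn (fun z => ρ (φ.symm z) * D z) (φ.target \ K) := by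
    have h0 : IntegrableOn (fun _ : ℂ => (0 : ℝ)) (φ.target \ K) := integrableOn_zero
    refine h0.congr_fun (fun z hz => ?_)
      (φ.open_target.measurableSet.diff hKc.isClosed.measurableSet)
    have : φ.symm z ∉ tsupport ρ := by
      intro hmem
      apply hz.2
      exact ⟨φ.symm z, hmem, φ.right_inv hz.1⟩
    show 0 = ρ (φ.symm z) * D z
    rw [image_eq_zero_of_notMem_tsupport this, zero_mul]
  have h4 : φ.target = (φ.target \ K) ∪ K := by
    rw [sdiff_union_self, union_eq_self_of_subset_right hKt]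
  rw [h4]
  exact h3.union h2

/-- A curve on which the integral of `χ ω` vanishes does not meet `{χ > 0}`. -/
lemma curve_avoid [T2Space S] [ConnectedSpace S] {f : S → C2}
    (h1 : ∀ φ ∈ atlas ℂ S, ContDiffOn ℝ ∞ (f ∘ φ.symm) φ.target)
    (h2 : ∀ φ ∈ atlas ℂ S, ∀ z ∈ φ.target, ∀ v : ℂ,
      fderiv ℝ (f ∘ φ.symm) z (Complex.I * v) = J0 (f (φ.symm z)) (fderiv ℝ (f ∘ φ.symm) z v))
    (h3 : ∃ φ ∈ atlas ℂ S, ∃ z ∈ φ.target, fderiv ℝ (f ∘ φ.symm) z ≠ 0)
    (χ : C2 → ℝ) (hχ : ContDiff ℝ (⊤ : ℕ∞) χ) (hpos : ∀ x, 0 ≤ χ x)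
    (hI : IsIntegral f (fun x => χ x • kahler) 0) (hf : Continuous f) : ∀ p, χ (f p) = 0 := by
  classical
  obtain ⟨n, φ, ρ, hφ, hρc, hρ0, hρk, hρs, hρ1, hsum⟩ := hI
  by_contra hne
  push Not at hne
  obtain ⟨p₀, hp₀⟩ := hne
  have hp₀' : 0 < χ (f p₀) := lt_of_le_of_ne (hpos _) (Ne.symm hp₀)
  -- all the integrands vanish
  have hcont : ∀ i, ContinuousOn (density f (fun x => χ x • kahler) (φ i)) (φ i).target := fun i =>
    continuousOn_density _ (hχ.continuous.smul continuous_const) (h1 _ (hφ i))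
  have hnn : ∀ i, ∀ z ∈ (φ i).target,
      0 ≤ ρ i ((φ i).symm z) * density f (fun x => χ x • kahler) (φ i) z := by
    intro i z hz
    rw [density_kform χ (h2 _ (hφ i) z hz)]
    exact mul_nonneg (hρ0 _ _) (mul_nonneg (hpos _) (kahler_J_nonneg _))
  have hint : ∀ i, 0 ≤ ∫ z in (φ i).target,
      ρ i ((φ i).symm z) * density f (fun x => χ x • kahler) (φ i) z := fun i =>
    setIntegral_nonneg (φ i).open_target.measurableSet (hnn i)
  have hz0 : ∀ i, ∫ z in (φ i).target,
      ρ i ((φ i).symm z) * density f (fun x => χ x • kahler) (φ i) z = 0 := by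
    intro i
    exact (Finset.sum_eq_zero_iff_of_nonneg (fun i _ => hint i)).1 hsum.symm i (Finset.mem_univ i)
  have hall : ∀ i, ∀ z ∈ (φ i).target,
      ρ i ((φ i).symm z) * density f (fun x => χ x • kahler) (φ i) z = 0 := by
    intro i
    obtain ⟨hc, hi⟩ := integrableOn_cut (hρc i) (hρk i) (hρs i) (hcont i)
    have hae : (fun z => ρ i ((φ i).symm z) * density f (fun x => χ x • kahler) (φ i) z)
        =ᵐ[volume.restrict (φ i).target] fun _ => (0 : ℝ) := by
      have := (setIntegral_eq_zero_iff_of_nonneg_ae ?_ hi).1 (hz0 i)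
      · exact this
      · rw [EventuallyLE, ae_restrict_iff' (φ i).open_target.measurableSet]
        exact Eventually.of_forall (fun z hz => hnn i z hz)
    exact Measure.eqOn_open_of_ae_eq hae (φ i).open_target hc continuousOn_const
  -- a chart at `p₀`
  have hmem : f p₀ ∈ tsupport (fun x => χ x • kahler) := by
    apply subset_tsupport
    rw [Function.mem_support]
    intro h
    have h' : χ (f p₀) • kahler ![((1 : ℂ), (0 : ℂ)), Complex.I • ((1 : ℂ), (0 : ℂ))] = 0 := by
      have := congrArg (fun a : C2 [⋀^Fin 2]→L[ℝ] ℝ =>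
        a ![((1 : ℂ), (0 : ℂ)), Complex.I • ((1 : ℂ), (0 : ℂ))]) h
      simpa using this
    rw [kahler_J] at h'
    simp at h'
    exact hp₀ h'
  obtain ⟨i, hi⟩ : ∃ i, 0 < ρ i p₀ := by
    by_contra hcon
    push Not at hcon
    have h0 : ∀ i, ρ i p₀ = 0 := fun i => le_antisymm (hcon i) (hρ0 i p₀)
    have := hρ1 p₀ hmem
    simp [h0] at this
  have hps : p₀ ∈ (φ i).source := hρs i (subset_tsupport _ (by
    rw [Function.mem_support]; exact hi.ne'))
  -- the open set where the derivative vanishes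
  set O : Set S := (φ i).source ∩ ({p | 0 < ρ i p} ∩ {p | 0 < χ (f p)}) with hO
  have hOo : IsOpen O := (φ i).open_source.inter ((isOpen_lt continuous_const (hρc i)).inter
    (isOpen_lt continuous_const (hχ.continuous.comp hf)))
  have hp₀O : p₀ ∈ O := ⟨hps, hi, hp₀'⟩
  have hder : ∀ p ∈ O, fderiv ℝ (f ∘ (φ i).symm) (φ i p) = 0 := by
    rintro p ⟨hp1, hp2, hp3⟩
    have hz := (φ i).map_source hp1
    have h5 := hall i _ hz
    rw [density_kform χ (h2 _ (hφ i) _ hz), (φ i).left_inv hp1] at h5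
    have h6 : kahler ![fderiv ℝ (f ∘ (φ i).symm) (φ i p) 1,
        Complex.I • fderiv ℝ (f ∘ (φ i).symm) (φ i p) 1] = 0 := by
      rcases mul_eq_zero.1 h5 with h | h
      · exact absurd h (ne_of_gt hp2)
      · rcases mul_eq_zero.1 h with h | h
        · exact absurd h (ne_of_gt hp3)
        · exact h
    have h7 := kahler_J_eq_zero h6
    ext1 v
    have hv : v = (v.re : ℝ) • (1 : ℂ) + (v.im : ℝ) • (Complex.I * 1) := by
      apply Complex.ext <;> simp
    rw [hv, map_add, map_smul, map_smul, h2 _ (hφ i) _ hz, J0_apply, h7]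
    simp
  -- `f` is constant near `p₀`
  have hN : (φ i).target ∩ (φ i).symm ⁻¹' O ∈ 𝓝 (φ i p₀) :=
    ((φ i).symm.isOpen_inter_preimage hOo).mem_nhds
      ⟨(φ i).map_source hps, by
        show (φ i).symm (φ i p₀) ∈ O
        rw [(φ i).left_inv hps]; exact hp₀O⟩
  obtain ⟨r, hr, hball⟩ := Metric.mem_nhds_iff.1 hN
  have hconst : ∀ z ∈ Metric.ball (φ i p₀) r, (f ∘ (φ i).symm) z = f p₀ := by
    intro z hz
    have hdiff : DifferentiableOn ℝ (f ∘ (φ i).symm) (Metric.ball (φ i p₀) r) :=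
      ((h1 _ (hφ i)).differentiableOn (by simp)).mono (fun z hz => (hball hz).1)
    have hfd : ∀ z ∈ Metric.ball (φ i p₀) r, fderivWithin ℝ (f ∘ (φ i).symm)
        (Metric.ball (φ i p₀) r) z = 0 := by
      intro z hz
      rw [fderivWithin_of_isOpen Metric.isOpen_ball hz]
      have := hder _ (hball hz).2
      rwa [(φ i).right_inv (hball hz).1] at this
    have := (convex_ball (φ i p₀) r).is_const_of_fderivWithin_eq_zero hdiff hfd hz
      (Metric.mem_ball_self hr)
    rw [this]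
    simp [(φ i).left_inv hps]
  have hev : ∀ᶠ p in 𝓝 p₀, f p = f p₀ := by
    have hmap : map (φ i).symm (𝓝 (φ i p₀)) = 𝓝 p₀ := (φ i).symm_map_nhds_eq hps
    rw [← hmap, eventually_map]
    filter_upwards [Metric.ball_mem_nhds _ hr] with z hz
    exact hconst z hz
  have hc1 : ∀ p, (f p).1 = (f p₀).1 :=
    (hol_comp h1 h2 (ContinuousLinearMap.fst ℂ ℂ ℂ)).const_of_eventually
      (hev.mono fun p hp => by simp [hp])
  have hc2 : ∀ p, (f p).2 = (f p₀).2 :=
    (hol_comp h1 h2 (ContinuousLinearMap.snd ℂ ℂ ℂ)).const_of_eventually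
      (hev.mono fun p hp => by simp [hp])
  obtain ⟨ψ, hψ, z, hz, hne⟩ := h3
  apply hne
  have : f ∘ ψ.symm = fun _ => f p₀ := by
    funext w
    exact Prod.ext (hc1 _) (hc2 _)
  rw [this]
  simp

end Pool.Agent.J4.H87.Cur
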