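import Mathlib

/-!
# Currents, structure cones and pseudoholomorphic curves

Definitions used in the disproof of the local superposition property for `C`-cycles.
-/

set_option autoImplicit false

open scoped Distributions CompactConvergenceCLM Topology ContDiff Manifold
open TopologicalSpace MeasureTheory Set

universe u

namespace Pool.Agent.J4.H87.Cur

/-- The closed convex cone generated by a subset `D` of a topological vector space: the closure of
the set of the finite linear combinations of elements of `D` with nonnegative coefficients. -/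
def closedConeHull {X : Type*} [AddCommGroup X] [Module ℝ X] [TopologicalSpace X] (D : Set X) :
    Set X :=
  closure {x | ∃ (n : ℕ) (a : Fin n → ℝ) (y : Fin n → X),
    (∀ i, 0 ≤ a i) ∧ (∀ i, y i ∈ D) ∧ x = ∑ i, a i • y i}

variable {V : Type} [NormedAddCommGroup V] [NormedSpace ℝ V]

/-- The manifold `V` itself, as an open subset of `V`. -/
abbrev whole (V : Type) [TopologicalSpace V] : Opens V := ⊤

/-- The space `Ω^p_c(U)` of smooth `p`-forms with compact support on the open subset `U` of `V`,
with its canonical (LF) topology. -/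
abbrev Form (p : ℕ) (U : Opens V) : Type := 𝓓(U, V [⋀^Fin p]→L[ℝ] ℝ)

/-- The space of `p`-currents on `U`: the continuous linear functionals on `Ω^p_c(U)`, with the
usual topology of spaces of distributions (uniform convergence on compact sets of forms). -/
abbrev Current (p : ℕ) (U : Opens V) : Type := Form p U →L_c[ℝ] ℝ

/-- The exterior derivative of a smooth form with compact support. -/
noncomputable def dForm {p : ℕ} {U : Opens V} (β : Form p U) : Form (p + 1) U where
  toFun := extDeriv β
  contDiff' := by
    have h1 : ContDiff ℝ (⊤ : ℕ∞) (fderiv ℝ (β : V → V [⋀^Fin p]→L[ℝ] ℝ)) :=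
      β.contDiff.fderiv_right (by exact_mod_cast le_top)
    exact (ContinuousAlternatingMap.alternatizeUncurryFinCLM ℝ V ℝ).contDiff.comp h1
  hasCompactSupport' := by
    have h1 : HasCompactSupport (fderiv ℝ (β : V → V [⋀^Fin p]→L[ℝ] ℝ)) :=
      β.hasCompactSupport.fderiv ℝ
    exact h1.comp_left (g := ContinuousAlternatingMap.alternatizeUncurryFinCLM ℝ V ℝ) (map_zero _)
  tsupport_subset' := by
    refine (tsupport_comp_subset (g := ContinuousAlternatingMap.alternatizeUncurryFinCLM ℝ V ℝ)
      (map_zero _) (fderiv ℝ (β : V → V [⋀^Fin p]→L[ℝ] ℝ))).trans ?_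
    exact (tsupport_fderiv_subset ℝ).trans β.tsupport_subset

/-- A form with compact support in `U`, as a form with compact support in `V`. -/
noncomputable def incl {p : ℕ} {U : Opens V} (α : Form p U) : Form p (whole V) where
  toFun := α
  contDiff' := α.contDiff
  hasCompactSupport' := α.hasCompactSupport
  tsupport_subset' := fun _ _ => trivial

/-- `c` is a cycle: `∂c (β) = c (dβ) = 0` for all `β ∈ Ω^1_c(U)`. -/
def IsCycle {U : Opens V} (c : Current 2 U) : Prop := ∀ β : Form 1 U, c (dForm β) = 0

/-- The space `Λ² V` of 2-vectors of the finite-dimensional space `V`, as the dual of the space of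
alternating bilinear forms. -/
abbrev TwoVector (V : Type) [NormedAddCommGroup V] [NormedSpace ℝ V] : Type :=
  (V [⋀^Fin 2]→L[ℝ] ℝ) →L[ℝ] ℝ

/-- The 2-vector `v ∧ w`. -/
noncomputable def wedge (v w : V) : TwoVector V :=
  ContinuousAlternatingMap.apply ℝ V ℝ ![v, w]

/-- The Dirac current `α ↦ α_y(w)` of the 2-vector `w` at `y`. -/
noncomputable def dirac (U : Opens V) (y : V) (w : TwoVector V) : Current 2 U where
  toFun α := w (α y)
  map_add' α β := w.map_add (α y) (β y)
  map_smul' a α := w.map_smul a (α y)
  cont := w.continuous.comp (continuous_eval_const y)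

/-- The structure cone at `y` of the almost complex structure `J`: the closed convex cone in `Λ² V`
generated by the 2-vectors `v ∧ J v`. -/
def structureCone (J : V → V →L[ℝ] V) (y : V) : Set (TwoVector V) :=
  closedConeHull {w | ∃ v : V, w = wedge v (J y v)}

/-- The `C`-currents on `U`: the closed convex cone in the space of 2-currents on `U` generated by
the Dirac currents of the elements of the structure cone. -/
def CCurrents (J : V → V →L[ℝ] V) (U : Opens V) : Set (Current 2 U) :=
  closedConeHull {T | ∃ y ∈ U, ∃ w ∈ structureCone J y, T = dirac U y w}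

/-- The function `h` with `u^* α = h dx ∧ dy` in the chart `φ` of the surface `S`. -/
noncomputable def density {S : Type u} [TopologicalSpace S] (f : S → V)
    (α : V → V [⋀^Fin 2]→L[ℝ] ℝ) (φ : OpenPartialHomeomorph S ℂ) (z : ℂ) : ℝ :=
  α (f (φ.symm z)) ![fderiv ℝ (f ∘ φ.symm) z 1, fderiv ℝ (f ∘ φ.symm) z Complex.I]

/-- `I = ∫_S f^* α`, for a Riemann surface `S` and a map `f : S → V` such that the preimage of the
support of `α` is compact: the integral is computed with a finite partition of unity on this
preimage, subordinate to charts of `S`. -/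
def IsIntegral {S : Type u} [TopologicalSpace S] [ChartedSpace ℂ S] (f : S → V)
    (α : V → V [⋀^Fin 2]→L[ℝ] ℝ) (I : ℝ) : Prop :=
  ∃ (n : ℕ) (φ : Fin n → OpenPartialHomeomorph S ℂ) (ρ : Fin n → S → ℝ),
    (∀ i, φ i ∈ atlas ℂ S) ∧ (∀ i, Continuous (ρ i)) ∧ (∀ i p, 0 ≤ ρ i p) ∧
    (∀ i, HasCompactSupport (ρ i)) ∧ (∀ i, tsupport (ρ i) ⊆ (φ i).source) ∧
    (∀ p, f p ∈ tsupport α → ∑ i, ρ i p = 1) ∧
    I = ∑ i, ∫ z in (φ i).target, ρ i ((φ i).symm z) * density f α (φ i) z

/-- `T` is the current `α ↦ ∫_S u^* α` of a pseudoholomorphic curve in `U`, for the almost complex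
structure `J`: `u : S → U` is a proper, somewhere injective map from a connected Riemann surface
`S` (not necessarily compact) such that `du ∘ j = J ∘ du`. -/
def IsCurveCurrent (J : V → V →L[ℝ] V) (U : Opens V) (T : Current 2 U) : Prop :=
  ∃ (S : Type u) (_ : TopologicalSpace S) (_ : T2Space S) (_ : ConnectedSpace S)
    (_ : ChartedSpace ℂ S) (_ : IsManifold 𝓘(ℂ) ω S) (f : S → U),
    IsProperMap f ∧
    (∀ φ ∈ atlas ℂ S, ContDiffOn ℝ ∞ ((fun p => (f p : V)) ∘ φ.symm) φ.target) ∧
    (∀ φ ∈ atlas ℂ S, ∀ z ∈ φ.target, ∀ v : ℂ,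
      fderiv ℝ ((fun p => (f p : V)) ∘ φ.symm) z (Complex.I * v) =
        J (f (φ.symm z)) (fderiv ℝ ((fun p => (f p : V)) ∘ φ.symm) z v)) ∧
    (∃ φ ∈ atlas ℂ S, ∃ z ∈ φ.target, fderiv ℝ ((fun p => (f p : V)) ∘ φ.symm) z ≠ 0 ∧
      ∀ q, f q = f (φ.symm z) → q = φ.symm z) ∧
    ∀ α : Form 2 U, IsIntegral (fun p => (f p : V)) α (T α)

/-- On `U` the current `c` is a superposition of pseudoholomorphic curves: there is a measure `ν`
on the set `P_U` of the (currents of) pseudoholomorphic curves in `U` such that
`c α = ∫ T α dν(T)` for all `α ∈ Ω^2_c(U)`. We allow any `σ`-algebra on `P_U`. -/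
def IsSuperposition (J : V → V →L[ℝ] V) (c : Current 2 (whole V)) (U : Opens V) : Prop :=
  ∃ (m : MeasurableSpace {T : Current 2 U // IsCurveCurrent.{u} J U T})
    (ν : @Measure {T : Current 2 U // IsCurveCurrent.{u} J U T} m),
    ∀ α : Form 2 U, Integrable (fun T : {T : Current 2 U // IsCurveCurrent.{u} J U T} => T.1 α) ν ∧
      c (incl α) = ∫ T : {T : Current 2 U // IsCurveCurrent.{u} J U T}, T.1 α ∂ν

/-- The complex plane `ℂ²`. -/
abbrev C2 : Type := ℂ × ℂ

/-- The standard complex structure of `ℂ²`: multiplication by `i` (the same at all points). -/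
noncomputable def J0 : C2 → C2 →L[ℝ] C2 := fun _ => ContinuousLinearMap.lsmul ℝ ℂ Complex.I

end Pool.Agent.J4.H87.Cur
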