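import Pool.Agent.J4.H87.CurHull

/-! The counterexample. -/

set_option autoImplicit false

open scoped Distributions CompactConvergenceCLM Topology ContDiff Manifold BoundedContinuousFunction
open TopologicalSpace MeasureTheory Set Filter Topology

universe u

namespace Pool.Agent.J4.H87.Cur

/-- the rays of the tropical line -/
def ray : Fin 3 → ℝ × ℝ := ![(0, -1), (-1, 0), (1, 1)]

lemma ray_ne (k : Fin 3) : ray k ≠ 0 := by
  fin_cases k <;> simp [ray, Prod.ext_iff]

/-- the current -/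
noncomputable def trop : Current 2 (⊤ : Opens C2) := ∑ k, piece (ray k)

lemma trop_apply (α : Form 2 (⊤ : Opens C2)) : trop α = ∑ k, piece (ray k) α := by
  unfold trop
  rw [sum_apply]

/-- explicit formula -/
lemma trop_eq (α : Form 2 (⊤ : Opens C2)) : trop α =
    ∑ k, ∫ p in Dom, α (ptL (ray k) p) ![RR (ray k), Complex.I • RR (ray k)] := by
  rw [trop_apply]
  exact Finset.sum_congr rfl fun k _ => piece_apply' (ray_ne k) α

lemma one_form_add (a : C2 [⋀^Fin 1]→L[ℝ] ℝ) (v w : C2) : a ![v + w] = a ![v] + a ![w] := by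
  have := a.map_update_add ![v] 0 v w
  have e : ∀ x : C2, Function.update ![v] 0 x = ![x] := by
    intro x; funext i; fin_cases i; simp
  rw [e, e, e] at this
  exact this

lemma one_form_zero (a : C2 [⋀^Fin 1]→L[ℝ] ℝ) : a ![0] = 0 :=
  a.map_coord_zero 0 rfl

lemma trop_cycle : IsCycle trop := by
  intro β
  rw [trop_apply]
  have h : ∀ k, piece (ray k) (dForm β) = - ∫ y : ℝ × ℝ,
      β ((y.1 : ℂ) * Complex.I, (y.2 : ℂ) * Complex.I) ![Complex.I • RR (ray k)] :=
    fun k => piece_dForm (ray_ne k) β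
  simp_rw [h]
  rw [Finset.sum_neg_distrib, neg_eq_zero]
  have hL : IsClosedEmbedding (fun y : ℝ × ℝ =>
      (((y.1 : ℂ) * Complex.I, (y.2 : ℂ) * Complex.I) : C2)) := by
    have h1 := (ptL_emb (ray_ne 0)).comp (ce_right (Y := ℝ × ℝ) (0 : ℝ))
    convert h1 using 1
    funext y
    rw [Function.comp_apply, ptL_apply]
    simp
  have hint : ∀ v : C2, Integrable (fun y : ℝ × ℝ =>
      β ((y.1 : ℂ) * Complex.I, (y.2 : ℂ) * Complex.I) ![v]) := by
    intro v
    have hc : Continuous (fun x => β x ![v]) :=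
      (ContinuousAlternatingMap.apply ℝ C2 ℝ ![v]).continuous.comp β.continuous
    have hs : HasCompactSupport (fun x => β x ![v]) :=
      β.hasCompactSupport.comp_left
        (g := fun a : C2 [⋀^Fin 1]→L[ℝ] ℝ => ContinuousAlternatingMap.apply ℝ C2 ℝ ![v] a)
        (map_zero _)
    exact (hc.comp hL.continuous).integrable_of_hasCompactSupport (hs.comp_isClosedEmbedding hL)
  rw [← integral_finsetSum _ (fun k _ => hint _)]
  have : ∀ y : ℝ × ℝ, ∑ k : Fin 3, β ((y.1 : ℂ) * Complex.I, (y.2 : ℂ) * Complex.I)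
      ![Complex.I • RR (ray k)] = 0 := by
    intro y
    rw [Fin.sum_univ_three, ← one_form_add, ← one_form_add]
    have : Complex.I • RR (ray 0) + Complex.I • RR (ray 1) + Complex.I • RR (ray 2) = 0 := by
      apply Prod.ext <;> simp [RR, ray]
    rw [this, one_form_zero]
  simp [this]

lemma norm_ptL_le (k : Fin 3) (p : ℝ × ℝ × ℝ) : ‖p‖ ≤ ‖ptL (ray k) p‖ := by
  rw [ptL_apply]
  have h1 : ∀ s a : ℝ, |a| ≤ ‖((s : ℝ) : ℂ) + a * Complex.I‖ := by
    intro s a
    have := Complex.abs_im_le_norm (((s : ℝ) : ℂ) + a * Complex.I)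
    simpa using this
  have h2 : ∀ s a : ℝ, |s| ≤ ‖((s : ℝ) : ℂ) + a * Complex.I‖ := by
    intro s a
    have := Complex.abs_re_le_norm (((s : ℝ) : ℂ) + a * Complex.I)
    simpa using this
  obtain ⟨p1, p2, p3⟩ := p
  rw [Prod.norm_mk, Prod.norm_mk, Prod.norm_mk]
  simp only [Real.norm_eq_abs]
  refine max_le ?_ (max_le ?_ ?_)
  · fin_cases k
    · refine le_trans ?_ (le_max_right _ _)
      have := h2 (p1 * (ray 0).2) p3
      simpa [ray] using this
    · refine le_trans ?_ (le_max_left _ _)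
      have := h2 (p1 * (ray 1).1) p2
      simpa [ray] using this
    · refine le_trans ?_ (le_max_left _ _)
      have := h2 (p1 * (ray 2).1) p2
      simpa [ray] using this
  · exact (h1 _ _).trans (le_max_left _ _)
  · exact (h1 _ _).trans (le_max_right _ _)

instance haar3 : (volume : Measure (ℝ × ℝ × ℝ)).IsAddHaarMeasure := by
  have h : (volume : Measure (ℝ × ℝ)).IsAddHaarMeasure := inferInstance
  rw [Measure.volume_eq_prod]
  infer_instance

lemma weight_int (k : Fin 3) : Integrable (fun x => (WW x)⁻¹) (mu (ray k)) := by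
  unfold mu
  rw [(ptL_emb (ray_ne k)).measurableEmbedding.integrable_map_iff]
  refine Integrable.restrict ?_
  have h1 : Integrable (fun p : ℝ × ℝ × ℝ => (1 + ‖p‖) ^ (-(4 : ℝ))) := by
    apply integrable_one_add_norm
    have : Module.finrank ℝ (ℝ × ℝ × ℝ) = 3 := by simp
    rw [this]; norm_num
  refine h1.mono ?_ (Eventually.of_forall fun p => ?_)
  · exact ((WW_cont.comp (ptL (ray k)).continuous).inv₀
      (fun x => (WW_pos _).ne')).aestronglyMeasurable
  · show ‖(WW (ptL (ray k) p))⁻¹‖ ≤ ‖(1 + ‖p‖) ^ (-(4 : ℝ))‖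
    rw [Real.norm_of_nonneg (inv_pos.2 (WW_pos _)).le, Real.norm_of_nonneg (by positivity),
      Real.rpow_neg (by positivity)]
    have e : (1 + ‖p‖) ^ (4 : ℝ) = (1 + ‖p‖) ^ 4 := by
      exact_mod_cast Real.rpow_natCast (1 + ‖p‖) 4
    rw [e]
    unfold WW
    have := norm_ptL_le k p
    gcongr

lemma closedConeHull_add {X : Type*} [AddCommGroup X] [Module ℝ X] [TopologicalSpace X]
    [IsTopologicalAddGroup X] {D : Set X} {x y : X} (hx : x ∈ closedConeHull D)
    (hy : y ∈ closedConeHull D) : x + y ∈ closedConeHull D := by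
  refine map_mem_closure₂ continuous_add hx hy ?_
  rintro _ ⟨n, a, u, ha, hu, rfl⟩ _ ⟨m, b, v, hb, hv, rfl⟩
  refine ⟨n + m, Fin.append a b, Fin.append u v, ?_, ?_, ?_⟩
  · intro i
    refine Fin.addCases (fun i => ?_) (fun i => ?_) i
    · rw [Fin.append_left]; exact ha i
    · rw [Fin.append_right]; exact hb i
  · intro i
    refine Fin.addCases (fun i => ?_) (fun i => ?_) i
    · rw [Fin.append_left]; exact hu i
    · rw [Fin.append_right]; exact hv i
  · rw [Fin.sum_univ_add]
    simp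

lemma wedge_mem (v y : C2) : wedge v (Complex.I • v) ∈ structureCone J0 y := by
  apply subset_closure
  exact ⟨1, fun _ => 1, fun _ => wedge v (Complex.I • v), fun _ => zero_le_one,
    fun _ => ⟨v, rfl⟩, by simp⟩

lemma piece_mem (k : Fin 3) : piece (ray k) ∈ CCurrents J0 (⊤ : Opens C2) := by
  refine mem_hull (mu (ray k)) (weight_int k)
    (wedge (RR (ray k)) (Complex.I • RR (ray k))) _ (fun x => ?_) _ (fun α => ?_)
  · exact ⟨x, trivial, _, wedge_mem _ _, rfl⟩
  · exact piece_apply (ray_ne k) α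

lemma trop_mem : trop ∈ CCurrents J0 (⊤ : Opens C2) := by
  unfold trop
  rw [Fin.sum_univ_three]
  exact closedConeHull_add (closedConeHull_add (piece_mem 0) (piece_mem 1)) (piece_mem 2)

/-- the pieces are supported over the tropical line -/
lemma ptL_mem_Trop (k : Fin 3) {p : ℝ × ℝ × ℝ} (hp : p ∈ Dom) : ptL (ray k) p ∈ Trop := by
  have h : 0 < p.1 := hp.1
  rw [ptL_apply]
  unfold Trop
  fin_cases k
  · left
    simp [ray, h.le]
  · right; left
    simp [ray, h.le]
  · right; right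
    simp [ray, h.le]

lemma trop_zero {α : Form 2 (⊤ : Opens C2)} (h : ∀ x ∈ Trop, α x = 0) : trop α = 0 := by
  rw [trop_eq]
  refine Finset.sum_eq_zero fun k _ => ?_
  have : ∀ p ∈ Dom, α (ptL (ray k) p) ![RR (ray k), Complex.I • RR (ray k)] = 0 := by
    intro p hp
    rw [h _ (ptL_mem_Trop k hp)]; rfl
  have hD : MeasurableSet Dom := measurableSet_Ioi.prod MeasurableSet.univ
  rw [setIntegral_congr_fun hD this]
  simp

/-- positivity near `0` -/
lemma trop_pos {U : Opens C2} {χ : C2 → ℝ} (h1 : ContDiff ℝ (⊤ : ℕ∞) χ)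
    (h2 : HasCompactSupport χ) (h3 : tsupport χ ⊆ U) (hpos : ∀ x, 0 ≤ χ x) (h0 : 0 < χ 0) :
    0 < trop (incl (kform U χ h1 h2 h3)) := by
  have hval : ∀ k p, incl (kform U χ h1 h2 h3) (ptL (ray k) p)
      ![RR (ray k), Complex.I • RR (ray k)] =
      χ (ptL (ray k) p) * kahler ![RR (ray k), Complex.I • RR (ray k)] := fun k p => rfl
  rw [trop_eq]
  simp_rw [hval]
  have hc : ∀ k, Continuous (fun p => χ (ptL (ray k) p) *
      kahler ![RR (ray k), Complex.I • RR (ray k)]) := fun k =>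
    (h1.continuous.comp (ptL (ray k)).continuous).mul continuous_const
  have hs : ∀ k, HasCompactSupport (fun p => χ (ptL (ray k) p) *
      kahler ![RR (ray k), Complex.I • RR (ray k)]) := fun k =>
    (h2.comp_isClosedEmbedding (ptL_emb (ray_ne k))).mul_right
  have hnn : ∀ k p, 0 ≤ χ (ptL (ray k) p) *
      kahler ![RR (ray k), Complex.I • RR (ray k)] := fun k p =>
    mul_nonneg (hpos _) (kahler_J_nonneg _)
  have hint : ∀ k, 0 ≤ ∫ p in Dom, χ (ptL (ray k) p) *
      kahler ![RR (ray k), Complex.I • RR (ray k)] := fun k =>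
    integral_nonneg fun p => hnn k p
  refine lt_of_lt_of_le ?_ (Finset.single_le_sum (fun k _ => hint k) (Finset.mem_univ 2))
  rw [integral_pos_iff_support_of_nonneg (fun p => hnn 2 p)
    ((hc 2).integrable_of_hasCompactSupport (hs 2)).restrict]
  -- an open set
  have hk : 0 < kahler ![RR (ray 2), Complex.I • RR (ray 2)] := by
    rw [kahler_J]; simp [RR, ray]
  have ho : IsOpen ({p : ℝ × ℝ × ℝ | 0 < χ (ptL (ray 2) p)}) :=
    isOpen_lt continuous_const (h1.continuous.comp (ptL (ray 2)).continuous)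
  have hDo : IsOpen Dom := isOpen_Ioi.prod isOpen_univ
  have hsub : {p : ℝ × ℝ × ℝ | 0 < χ (ptL (ray 2) p)} ∩ Dom ⊆
      (Function.support fun p => χ (ptL (ray 2) p) *
        kahler ![RR (ray 2), Complex.I • RR (ray 2)]) ∩ Dom := by
    rintro p ⟨hp, hpD⟩
    refine ⟨?_, hpD⟩
    rw [Function.mem_support]
    exact (mul_pos hp hk).ne'
  rw [Measure.restrict_apply' hDo.measurableSet]
  refine lt_of_lt_of_le ?_ (measure_mono hsub)
  apply (ho.inter hDo).measure_pos (μ := volume)
  -- nonempty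
  have h0' : (0 : ℝ × ℝ × ℝ) ∈ {p : ℝ × ℝ × ℝ | 0 < χ (ptL (ray 2) p)} := by
    show 0 < χ (ptL (ray 2) 0)
    rw [map_zero]; exact h0
  obtain ⟨ε, hε, hb⟩ := Metric.isOpen_iff.1 ho _ h0'
  refine ⟨(ε / 2, 0), hb ?_, ?_, trivial⟩
  · rw [mem_ball_zero_iff, Prod.norm_def]
    simp [abs_of_pos hε, hε]
  · show (0 : ℝ) < ε / 2
    linarith

end Pool.Agent.J4.H87.Cur
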