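import Mathlib

/-! Holomorphic functions on connected spaces with charts in the complex plane. -/

set_option autoImplicit false

open Topology Set Filter

universe u

namespace Pool.Agent.J4.H87.Cur

variable {S : Type u} [TopologicalSpace S] [ChartedSpace ℂ S]

/-- holomorphic in all charts -/
def Hol (f : S → ℂ) : Prop :=
  ∀ φ ∈ atlas ℂ S, DifferentiableOn ℂ (f ∘ φ.symm) φ.target

lemma Hol.analyticAt {f : S → ℂ} (hf : Hol f) {φ : OpenPartialHomeomorph S ℂ}
    (hφ : φ ∈ atlas ℂ S) {z : ℂ} (hz : z ∈ φ.target) : AnalyticAt ℂ (f ∘ φ.symm) z :=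
  (hf φ hφ).analyticAt (φ.open_target.mem_nhds hz)

/-- local dichotomy -/
lemma Hol.const_or_open {f : S → ℂ} (hf : Hol f) (p : S) :
    (∀ᶠ q in 𝓝 p, f q = f p) ∨ 𝓝 (f p) ≤ map f (𝓝 p) := by
  set φ := chartAt ℂ p
  have hp : p ∈ φ.source := mem_chart_source ℂ p
  have hz : φ p ∈ φ.target := φ.map_source hp
  have hmap : map φ.symm (𝓝 (φ p)) = 𝓝 p := φ.symm_map_nhds_eq hp
  have hval : (f ∘ φ.symm) (φ p) = f p := by simp [φ.left_inv hp]
  rcases (hf.analyticAt (chart_mem_atlas ℂ p) hz).eventually_constant_or_nhds_le_map_nhds with h | h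
  · left
    rw [← hmap, eventually_map]
    filter_upwards [h] with z hz
    rw [← hval]; exact hz
  · right
    rw [hval] at h
    refine h.trans ?_
    rw [← Filter.map_map, hmap]

/-- identity principle -/
lemma Hol.clopen {f : S → ℂ} (hf : Hol f) : IsClopen {p | ∀ᶠ q in 𝓝 p, f q = f p} := by
  constructor
  · rw [← closure_subset_iff_isClosed]
    intro p hp
    set φ := chartAt ℂ p with hφ
    have hps : p ∈ φ.source := mem_chart_source ℂ p
    have hz : φ p ∈ φ.target := φ.map_source hps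
    obtain ⟨r, hr, hball⟩ := Metric.isOpen_iff.1 φ.open_target (φ p) hz
    have hO : IsOpen (φ.source ∩ φ ⁻¹' Metric.ball (φ p) r) :=
      φ.isOpen_inter_preimage Metric.isOpen_ball
    have hpO : p ∈ φ.source ∩ φ ⁻¹' Metric.ball (φ p) r := ⟨hps, by simpa using hr⟩
    obtain ⟨q, hqO, hq⟩ := mem_closure_iff.1 hp _ hO hpO
    have hq' : ∀ᶠ x in 𝓝 q, f x = f q := hq
    have hmap : map φ.symm (𝓝 (φ q)) = 𝓝 q := φ.symm_map_nhds_eq hqO.1
    have h1 : (f ∘ φ.symm) =ᶠ[𝓝 (φ q)] fun _ => f q := by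
      rw [← hmap, eventually_map] at hq'
      exact hq'
    have han : AnalyticOnNhd ℂ (f ∘ φ.symm) (Metric.ball (φ p) r) := fun z hz =>
      hf.analyticAt (chart_mem_atlas ℂ p) (hball hz)
    have hEq := han.eqOn_of_preconnected_of_eventuallyEq analyticOnNhd_const
      (convex_ball (φ p) r).isPreconnected hqO.2 h1
    have hall : ∀ x ∈ φ.source ∩ φ ⁻¹' Metric.ball (φ p) r, f x = f q := by
      intro x hx
      have := hEq hx.2
      simpa [φ.left_inv hx.1] using this
    show ∀ᶠ x in 𝓝 p, f x = f p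
    filter_upwards [hO.mem_nhds hpO] with x hx
    rw [hall x hx, hall p hpO]
  · rw [isOpen_iff_mem_nhds]
    intro p hp
    have hp' : ∀ᶠ q in 𝓝 p, f q = f p := hp
    have := eventually_eventually_nhds.2 hp'
    filter_upwards [this, hp'] with q hq hqp
    show ∀ᶠ x in 𝓝 q, f x = f q
    filter_upwards [hq] with x hx
    rw [hx, hqp]

lemma Hol.const_of_eventually [PreconnectedSpace S] {f : S → ℂ} (hf : Hol f) {p : S}
    (h : ∀ᶠ q in 𝓝 p, f q = f p) : ∀ q, f q = f p := by
  have h1 : {p | ∀ᶠ q in 𝓝 p, f q = f p} = univ := hf.clopen.eq_univ ⟨p, h⟩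
  have h2 : IsLocallyConstant f := by
    rw [IsLocallyConstant.iff_eventually_eq]
    intro x
    have : x ∈ {p | ∀ᶠ q in 𝓝 p, f q = f p} := by rw [h1]; trivial
    exact this
  intro q
  exact h2.apply_eq_of_preconnectedSpace q p

lemma Hol.isOpenMap [PreconnectedSpace S] {f : S → ℂ} (hf : Hol f) {p q : S}
    (h : f p ≠ f q) : IsOpenMap f := by
  rw [isOpenMap_iff_nhds_le]
  intro x
  rcases hf.const_or_open x with h1 | h1
  · have := hf.const_of_eventually h1
    exact absurd ((this p).trans (this q).symm) h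
  · exact h1

/-- a holomorphic function with vanishing real part on a nonempty open set is constant -/
lemma Hol.const_of_re [PreconnectedSpace S] {f : S → ℂ} (hf : Hol f) {p : S}
    (h : ∀ᶠ q in 𝓝 p, (f q).re = 0) : ∀ q, f q = f p := by
  rcases hf.const_or_open p with h1 | h1
  · exact hf.const_of_eventually h1
  · exfalso
    have h2 : f '' {q | (f q).re = 0} ∈ map f (𝓝 p) := image_mem_map h
    have h3 := h1 h2
    have hp : (f p).re = 0 := h.self_of_nhds
    have h4 : Tendsto (fun t : ℝ => f p + t) (𝓝 0) (𝓝 (f p)) := by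
      have : Continuous (fun t : ℝ => f p + (t : ℂ)) := by fun_prop
      simpa using this.tendsto 0
    have h5 := h4.eventually h3
    have h6 : ∀ᶠ t : ℝ in 𝓝 0, t = 0 := by
      filter_upwards [h5] with t ht
      obtain ⟨q, hq, hqt⟩ := ht
      have : (f p + (t : ℂ)).re = 0 := by rw [← hqt]; exact hq
      simpa [hp] using this
    have h7 : ∀ᶠ t : ℝ in 𝓝[≠] 0, t = 0 := h6.filter_mono nhdsWithin_le_nhds
    have h8 : ∀ᶠ t : ℝ in 𝓝[≠] 0, t ≠ 0 := eventually_mem_nhdsWithin
    obtain ⟨t, ht1, ht2⟩ := (h7.and h8).exists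
    exact ht2 ht1

end Pool.Agent.J4.H87.Cur
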