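import Pool.Agent.J4.H87.CurWeight

/-! Positive currents of order zero are limits of combinations of Dirac currents. -/

set_option autoImplicit false

open scoped Distributions CompactConvergenceCLM Topology ContDiff Manifold BoundedContinuousFunction
open TopologicalSpace MeasureTheory Set Filter Topology

namespace Pool.Agent.J4.H87.Cur

lemma dirac_apply (U : Opens C2) (y : C2) (w : TwoVector C2) (α : Form 2 U) :
    dirac U y w α = w (α y) := rfl

lemma bound_w (w : TwoVector C2) (α : Form 2 (⊤ : Opens C2)) (x : C2) :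
    |WW x * w (α x)| ≤ ‖w‖ * ‖Psi α‖ := by
  have h1 : WW x * w (α x) = w (WW x • α x) := by rw [map_smul]; rfl
  rw [h1]
  calc |w (WW x • α x)| ≤ ‖w‖ * ‖WW x • α x‖ := w.le_opNorm _
    _ ≤ ‖w‖ * ‖Psi α‖ := mul_le_mul_of_nonneg_left (norm_le_Psi α x) w.opNorm_nonneg

/-- finite sums over a fintype are in the cone -/
lemma cone_of_fintype {X : Type*} [AddCommGroup X] [Module ℝ X] {D : Set X} {ι : Type}
    [Fintype ι] (a : ι → ℝ) (y : ι → X) (ha : ∀ i, 0 ≤ a i) (hy : ∀ i, y i ∈ D) :
    ∑ i, a i • y i ∈ {x | ∃ (n : ℕ) (a : Fin n → ℝ) (y : Fin n → X),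
    (∀ i, 0 ≤ a i) ∧ (∀ i, y i ∈ D) ∧ x = ∑ i, a i • y i} := by
  classical
  refine ⟨Fintype.card ι, fun i => a ((Fintype.equivFin ι).symm i),
    fun i => y ((Fintype.equivFin ι).symm i), fun i => ha _, fun i => hy _, ?_⟩
  exact (Equiv.sum_comp (Fintype.equivFin ι).symm (fun i => a i • y i)).symm

theorem mem_hull (μ : Measure C2) (hW : Integrable (fun x => (WW x)⁻¹) μ) (w : TwoVector C2)
    (D : Set (Current 2 (⊤ : Opens C2))) (hD : ∀ x, dirac ⊤ x w ∈ D)
    (T : Current 2 (⊤ : Opens C2)) (hT : ∀ α, T α = ∫ x, w (α x) ∂μ) : T ∈ closedConeHull D := by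
  classical
  -- the finite measure
  set f : C2 → ENNReal := fun x => ENNReal.ofReal (WW x)⁻¹ with hf
  have hfm : Measurable f := (WW_cont.measurable.inv).ennreal_ofReal
  set m : Measure C2 := μ.withDensity f with hm
  have hfin : m univ ≠ ⊤ := by
    rw [hm, withDensity_apply _ MeasurableSet.univ, Measure.restrict_univ]
    have := hW.hasFiniteIntegral
    rw [hasFiniteIntegral_iff_ofReal (Eventually.of_forall fun x => (inv_pos.2 (WW_pos x)).le)]
      at this
    exact this.ne
  have hTm : ∀ α, T α = ∫ x, WW x * w (α x) ∂m := by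
    intro α
    rw [hT, hm, integral_withDensity_eq_integral_toReal_smul hfm
      (Eventually.of_forall fun x => ENNReal.ofReal_lt_top)]
    refine integral_congr_ae (Eventually.of_forall fun x => ?_)
    show w (α x) = (ENNReal.ofReal (WW x)⁻¹).toReal • (WW x * w (α x))
    rw [ENNReal.toReal_ofReal (inv_pos.2 (WW_pos x)).le, smul_eq_mul, ← mul_assoc,
      inv_mul_cancel₀ (WW_pos x).ne', one_mul]
  by_cases hm0 : m univ = 0
  · have hm1 : m = 0 := Measure.measure_univ_eq_zero.1 hm0
    have hT0 : T = 0 := by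
      ext α
      rw [hTm, hm1, integral_zero_measure]; rfl
    rw [hT0]
    apply subset_closure
    exact ⟨0, Fin.elim0, Fin.elim0, fun i => i.elim0, fun i => i.elim0, by simp⟩
  -- the probability measure
  set M : ℝ := (m univ).toReal with hMdef
  have hM : 0 < M := ENNReal.toReal_pos hm0 hfin
  set P : Measure C2 := (m univ)⁻¹ • m with hP
  have hPp : IsProbabilityMeasure P := by
    constructor
    rw [hP, Measure.smul_apply, smul_eq_mul, ENNReal.inv_mul_cancel hm0 hfin]
  have hTP : ∀ α, T α = ∫ x, M * (WW x * w (α x)) ∂P := by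
    intro α
    rw [hTm, hP, integral_smul_measure, integral_const_mul, ENNReal.toReal_inv, ← hMdef,
      smul_eq_mul, ← mul_assoc, inv_mul_cancel₀ hM.ne', one_mul]
  have hTb : ∀ α, |T α| ≤ M * (‖w‖ * ‖Psi α‖) := by
    intro α
    rw [hTP]
    have h1 : ∀ x, ‖M * (WW x * w (α x))‖ ≤ M * (‖w‖ * ‖Psi α‖) := by
      intro x
      rw [Real.norm_eq_abs, abs_mul, abs_of_pos hM]
      exact mul_le_mul_of_nonneg_left (bound_w w α x) hM.le
    have h2 := norm_integral_le_of_norm_le_const (μ := P) (Eventually.of_forall h1)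
    simpa using h2
  -- approximation
  have key : ∀ (F : Finset (Form 2 (⊤ : Opens C2))) (ε : ℝ), 0 < ε →
      ∃ T' ∈ {x | ∃ (n : ℕ) (a : Fin n → ℝ) (y : Fin n → Current 2 (⊤ : Opens C2)),
        (∀ i, 0 ≤ a i) ∧ (∀ i, y i ∈ D) ∧ x = ∑ i, a i • y i},
        (∀ α, |T' α| ≤ M * (‖w‖ * ‖Psi α‖)) ∧ ∀ α ∈ F, |T' α - T α| < ε := by
    intro F ε hε
    set G : C2 → (F → ℝ) := fun x α => M * (WW x * w ((α : Form 2 (⊤ : Opens C2)) x)) with hG
    have hGc : Continuous G := by
      rw [hG, continuous_pi_iff]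
      intro α
      have h1 := (α : Form 2 (⊤ : Opens C2)).continuous
      have h2 := WW_cont
      exact continuous_const.mul (h2.mul (w.continuous.comp h1))
    have hGb : ∀ x, ‖G x‖ ≤ ∑ α : F, M * (‖w‖ * ‖Psi (α : Form 2 (⊤ : Opens C2))‖) := by
      intro x
      rw [pi_norm_le_iff_of_nonneg (Finset.sum_nonneg fun α _ => by positivity)]
      intro α
      rw [Real.norm_eq_abs]
      have h1 : |G x α| ≤ M * (‖w‖ * ‖Psi (α : Form 2 (⊤ : Opens C2))‖) := by
        show |M * (WW x * w ((α : Form 2 (⊤ : Opens C2)) x))| ≤ _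
        rw [abs_mul, abs_of_pos hM]
        exact mul_le_mul_of_nonneg_left (bound_w w _ x) hM.le
      exact h1.trans (Finset.single_le_sum (f := fun α : F =>
        M * (‖w‖ * ‖Psi (α : Form 2 (⊤ : Opens C2))‖)) (fun α _ => by positivity)
        (Finset.mem_univ α))
    have hGi : Integrable G P := by
      refine Integrable.of_bound hGc.aestronglyMeasurable _ (Eventually.of_forall hGb)
    have hmem : ∫ x, G x ∂P ∈ closure (convexHull ℝ (range G)) := by
      refine (convex_convexHull ℝ (range G)).closure.integral_mem isClosed_closure ?_ hGi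
      exact Eventually.of_forall fun x => subset_closure (subset_convexHull ℝ _ ⟨x, rfl⟩)
    obtain ⟨g, hg, hgd⟩ := Metric.mem_closure_iff.1 hmem ε hε
    rw [mem_convexHull_iff_exists_fintype] at hg
    obtain ⟨ι, hι, lam, z, hlam, hlam1, hz, hsum⟩ := hg
    choose x hx using hz
    refine ⟨∑ i, (lam i * (M * WW (x i))) • dirac ⊤ (x i) w,
      cone_of_fintype _ _ (fun i => mul_nonneg (hlam i) (mul_nonneg hM.le (WW_pos _).le))
        (fun i => hD _), ?_, ?_⟩
    · intro α
      have e : (∑ i, (lam i * (M * WW (x i))) • dirac ⊤ (x i) w : Current 2 (⊤ : Opens C2)) α =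
          ∑ i, lam i * (M * (WW (x i) * w (α (x i)))) := by
        rw [sum_apply]
        refine Finset.sum_congr rfl fun i _ => ?_
        rw [smul_apply, dirac_apply, smul_eq_mul]
        ring
      rw [e]
      calc |∑ i, lam i * (M * (WW (x i) * w (α (x i))))|
          ≤ ∑ i, |lam i * (M * (WW (x i) * w (α (x i))))| := Finset.abs_sum_le_sum_abs _ _
        _ ≤ ∑ i, lam i * (M * (‖w‖ * ‖Psi α‖)) := by
            refine Finset.sum_le_sum fun i _ => ?_
            rw [abs_mul, abs_of_nonneg (hlam i), abs_mul, abs_of_pos hM]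
            exact mul_le_mul_of_nonneg_left
              (mul_le_mul_of_nonneg_left (bound_w w α _) hM.le) (hlam i)
        _ = M * (‖w‖ * ‖Psi α‖) := by rw [← Finset.sum_mul, hlam1, one_mul]
    · intro α hα
      have e : (∑ i, (lam i * (M * WW (x i))) • dirac ⊤ (x i) w : Current 2 (⊤ : Opens C2)) α =
          g ⟨α, hα⟩ := by
        rw [sum_apply, ← hsum, Finset.sum_apply]
        refine Finset.sum_congr rfl fun i _ => ?_
        rw [smul_apply, dirac_apply, Pi.smul_apply, ← hx i, smul_eq_mul,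
          smul_eq_mul]
        show _ = lam i * (M * (WW (x i) * w (α (x i))))
        ring
      have e2 : T α = (∫ x, G x ∂P) ⟨α, hα⟩ := by
        rw [hTP, eval_integral (fun i => hGi.eval i)]
      rw [e, e2, ← Real.dist_eq]
      refine lt_of_le_of_lt (dist_le_pi_dist g (∫ x, G x ∂P) ⟨α, hα⟩) ?_
      rw [dist_comm]
      exact hgd
  -- conclusion
  unfold closedConeHull
  rw [mem_closure_iff_nhds]
  intro t ht
  have ht' : (fun h => T + h) ⁻¹' t ∈ 𝓝 (0 : Current 2 (⊤ : Opens C2)) := by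
    have : Tendsto (fun h : Current 2 (⊤ : Opens C2) => T + h) (𝓝 0) (𝓝 (T + 0)) :=
      (continuous_const.add continuous_id).tendsto 0
    rw [add_zero] at this
    exact this ht
  obtain ⟨⟨K, V⟩, ⟨hK, hV⟩, hKV⟩ :=
    CompactConvergenceCLM.hasBasis_nhds_zero.mem_iff.1 ht'
  obtain ⟨ε, hε, hεV⟩ := Metric.mem_nhds_iff.1 hV
  set δ : ℝ := ε / (4 * (M * ‖w‖ + 1)) with hδ
  have hδ0 : 0 < δ := by positivity
  have hcont : ∀ α : Form 2 (⊤ : Opens C2), {β | ‖Psi (β - α)‖ < δ} ∈ 𝓝 α := by
    intro α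
    have h1 : Continuous (fun β : Form 2 (⊤ : Opens C2) => ‖Psi (β - α)‖) :=
      (Psi.continuous.comp (continuous_id.sub continuous_const)).norm
    refine (isOpen_lt h1 continuous_const).mem_nhds ?_
    show ‖Psi (α - α)‖ < δ
    rw [sub_self, map_zero, norm_zero]; exact hδ0
  obtain ⟨F, hF, hcov⟩ := hK.elim_nhds_subcover _ (fun α _ => hcont α)
  obtain ⟨T', hT', hb, hd⟩ := key F (ε / 2) (by positivity)
  refine ⟨T', ?_, hT'⟩
  have : T' - T ∈ (fun h => T + h) ⁻¹' t := by
    apply hKV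
    intro β hβ
    apply hεV
    obtain ⟨α, hα, hαβ⟩ := mem_iUnion₂.1 (hcov hβ)
    have hαβ' : ‖Psi (β - α)‖ < δ := hαβ
    rw [mem_ball_zero_iff, Real.norm_eq_abs]
    have e : (T' - T) β = T' (β - α) - T (β - α) + (T' α - T α) := by
      rw [map_sub, map_sub]
      show T' β - T β = _
      ring
    rw [e]
    have h1 := hb (β - α)
    have h2 := hTb (β - α)
    have h3 := hd α hα
    have h4 : M * (‖w‖ * ‖Psi (β - α)‖) ≤ ε / 4 := by
      have : M * (‖w‖ * ‖Psi (β - α)‖) ≤ (M * ‖w‖ + 1) * δ := by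
        have : M * ‖w‖ * ‖Psi (β - α)‖ ≤ (M * ‖w‖ + 1) * δ :=
          mul_le_mul (by linarith) hαβ'.le (norm_nonneg _) (by positivity)
        linarith
      have h5 : (M * ‖w‖ + 1) * δ = ε / 4 := by
        rw [hδ]; field_simp
      linarith
    calc |T' (β - α) - T (β - α) + (T' α - T α)|
        ≤ |T' (β - α) - T (β - α)| + |T' α - T α| := abs_add_le _ _
      _ ≤ |T' (β - α)| + |T (β - α)| + |T' α - T α| := by
          have := abs_sub (T' (β - α)) (T (β - α)); linarith
      _ < ε := by linarith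
  have h2 : T + (T' - T) ∈ t := this
  rwa [add_sub_cancel] at h2

end Pool.Agent.J4.H87.Cur
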