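import Pool.Agent.J4.H87.CurDefs
import Pool.Agent.J4.H87.CurHol

/-! The standard complex structure and Kähler form of `ℂ²`. -/

set_option autoImplicit false

open scoped Distributions CompactConvergenceCLM Topology ContDiff Manifold
open TopologicalSpace MeasureTheory Set Filter

universe u

namespace Pool.Agent.J4.H87.Cur

@[simp] lemma J0_apply (x v : C2) : J0 x v = Complex.I • v := rfl

/-- The Kähler form of `ℂ²`. -/
noncomputable def kahler : C2 [⋀^Fin 2]→L[ℝ] ℝ where
  toFun v := ((v 0).1.re * (v 1).1.im - (v 0).1.im * (v 1).1.re) +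
    ((v 0).2.re * (v 1).2.im - (v 0).2.im * (v 1).2.re)
  map_update_add' v i x y := by
    fin_cases i <;> simp [Function.update] <;> ring
  map_update_smul' v i c x := by
    fin_cases i <;> simp [Function.update] <;> ring
  cont := by fun_prop
  map_eq_zero_of_eq' v i j hv hij := by
    fin_cases i <;> fin_cases j <;> simp at hij hv ⊢ <;> rw [hv] <;> ring

lemma kahler_apply (v w : C2) : kahler ![v, w] =
    (v.1.re * w.1.im - v.1.im * w.1.re) + (v.2.re * w.2.im - v.2.im * w.2.re) := rfl

lemma kahler_J (v : C2) : kahler ![v, Complex.I • v] =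
    Complex.normSq v.1 + Complex.normSq v.2 := by
  rw [kahler_apply]
  simp [Complex.normSq_apply]

lemma kahler_J_nonneg (v : C2) : 0 ≤ kahler ![v, Complex.I • v] := by
  rw [kahler_J]
  exact add_nonneg (Complex.normSq_nonneg _) (Complex.normSq_nonneg _)

lemma kahler_J_eq_zero {v : C2} (h : kahler ![v, Complex.I • v] = 0) : v = 0 := by
  rw [kahler_J] at h
  have h1 := Complex.normSq_nonneg v.1
  have h2 := Complex.normSq_nonneg v.2
  have h3 : Complex.normSq v.1 = 0 := by linarith
  have h4 : Complex.normSq v.2 = 0 := by linarith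
  exact Prod.ext (Complex.normSq_eq_zero.1 h3) (Complex.normSq_eq_zero.1 h4)

/-- the form `χ ω` -/
noncomputable def kform (U : Opens C2) (χ : C2 → ℝ) (h1 : ContDiff ℝ (⊤ : ℕ∞) χ)
    (h2 : HasCompactSupport χ) (h3 : tsupport χ ⊆ U) : Form 2 U where
  toFun x := χ x • kahler
  contDiff' := h1.smul contDiff_const
  hasCompactSupport' := h2.smul_right
  tsupport_subset' := (tsupport_smul_subset_left χ (fun _ => kahler)).trans h3

end Pool.Agent.J4.H87.Cur
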