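import Pool.Agent.J4.H87.CurFinal

/-! The current is not a local superposition of curves. -/

set_option autoImplicit false

open scoped Distributions CompactConvergenceCLM Topology ContDiff Manifold BoundedContinuousFunction
open TopologicalSpace MeasureTheory Set Filter Topology

universe u

namespace Pool.Agent.J4.H87.Cur

lemma integral_nonneg_kform {S : Type u} [TopologicalSpace S] [ChartedSpace ℂ S] {f : S → C2}
    (h2 : ∀ φ ∈ atlas ℂ S, ∀ z ∈ φ.target, ∀ v : ℂ,
      fderiv ℝ (f ∘ φ.symm) z (Complex.I * v) = J0 (f (φ.symm z)) (fderiv ℝ (f ∘ φ.symm) z v))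
    (χ : C2 → ℝ) (hpos : ∀ x, 0 ≤ χ x) {I : ℝ} (hI : IsIntegral f (fun x => χ x • kahler) I) :
    0 ≤ I := by
  obtain ⟨n, φ, ρ, hφ, hρc, hρ0, hρk, hρs, hρ1, hsum⟩ := hI
  rw [hsum]
  refine Finset.sum_nonneg fun i _ => ?_
  refine setIntegral_nonneg (φ i).open_target.measurableSet fun z hz => ?_
  rw [density_kform χ (h2 _ (hφ i) z hz)]
  exact mul_nonneg (hρ0 _ _) (mul_nonneg (hpos _) (kahler_J_nonneg _))

lemma integral_zero_kform {S : Type u} [TopologicalSpace S] [ChartedSpace ℂ S] {f : S → C2}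
    (χ : C2 → ℝ) (h0 : ∀ p, χ (f p) = 0) {I : ℝ}
    (hI : IsIntegral f (fun x => χ x • kahler) I) : I = 0 := by
  obtain ⟨n, φ, ρ, hφ, hρc, hρ0, hρk, hρs, hρ1, hsum⟩ := hI
  rw [hsum]
  refine Finset.sum_eq_zero fun i _ => ?_
  have : ∀ z, ρ i ((φ i).symm z) * density f (fun x => χ x • kahler) (φ i) z = 0 := by
    intro z
    have : density f (fun x => χ x • kahler) (φ i) z = χ (f ((φ i).symm z)) *
      kahler ![fderiv ℝ (f ∘ (φ i).symm) z 1, fderiv ℝ (f ∘ (φ i).symm) z Complex.I] := rfl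
    rw [this, h0, zero_mul, mul_zero]
  simp [this]

theorem not_superposition (U : Opens C2) (hU : (0 : C2) ∈ U) :
    ¬ IsSuperposition.{u} J0 trop U := by
  rintro ⟨m, ν, h⟩
  obtain ⟨r, hr, hball⟩ := Metric.isOpen_iff.1 U.isOpen 0 hU
  -- bump functions off the support
  set O : Set C2 := (U : Set C2) ∩ Tropᶜ with hO
  have hOo : IsOpen O := U.isOpen.inter isClosed_Trop.isOpen_compl
  have hb : ∀ x ∈ O, ∃ f : C2 → ℝ, tsupport f ⊆ O ∧ HasCompactSupport f ∧
      ContDiff ℝ (⊤ : ℕ∞) f ∧ range f ⊆ Icc 0 1 ∧ f x = 1 := fun x hx =>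
    exists_contDiff_tsupport_subset (hOo.mem_nhds hx)
  choose! g hg1 hg2 hg3 hg4 hg5 using hb
  have hN : ∀ x ∈ O, {y | 0 < g x y} ∈ 𝓝[O] x := by
    intro x hx
    refine mem_nhdsWithin_of_mem_nhds ?_
    refine (isOpen_lt continuous_const (hg3 x hx).continuous).mem_nhds ?_
    show 0 < g x x
    rw [hg5 x hx]; norm_num
  obtain ⟨t, htO, htc, hcov⟩ := countable_cover_nhdsWithin hN
  have hg0 : ∀ x ∈ O, ∀ y, 0 ≤ g x y := fun x hx y => (hg4 x hx ⟨y, rfl⟩).1
  -- almost all curves avoid `O`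
  have hae : ∀ x ∈ t, ∀ᵐ T ∂ν, ∀ f : Form 2 U, (f : C2 → A2) = (fun y => g x y • kahler) →
      T.1 f = 0 := by
    intro x hx
    have hxO := htO hx
    set α : Form 2 U := kform U (g x) (hg3 x hxO) (hg2 x hxO)
      ((hg1 x hxO).trans inter_subset_left) with hα
    obtain ⟨hi, he⟩ := h α
    have h0 : trop (incl α) = 0 := by
      apply trop_zero
      intro y hy
      show g x y • kahler = 0
      have : g x y = 0 := by
        apply image_eq_zero_of_notMem_tsupport
        intro hmem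
        exact (hg1 x hxO hmem).2 hy
      rw [this, zero_smul]
    rw [h0] at he
    have hnn : 0 ≤ᵐ[ν] fun T : {T : Current 2 U // IsCurveCurrent.{u} J0 U T} => T.1 α := by
      refine Eventually.of_forall fun T => ?_
      obtain ⟨S, i1, i2, i3, i4, i5, f, hp, hs, hJ, hsi, hI⟩ := T.2
      exact integral_nonneg_kform hJ (g x) (hg0 x hxO) (hI α)
    have := (integral_eq_zero_iff_of_nonneg_ae hnn hi).1 he.symm
    filter_upwards [this] with T hT f hf
    have e : f = α := by
      ext1 y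
      rw [hf]; rfl
    rw [e]; exact hT
  have hall : ∀ᵐ T ∂ν, ∀ x ∈ t, ∀ f : Form 2 U, (f : C2 → A2) = (fun y => g x y • kahler) →
      T.1 f = 0 := (ae_ball_iff htc).2 hae
  -- a bump function near `0`
  obtain ⟨χ, k1, k2, k3, k4, k5⟩ := exists_contDiff_tsupport_subset (n := (⊤ : ℕ∞))
    (Metric.ball_mem_nhds (0 : C2) hr)
  have kpos : ∀ x, 0 ≤ χ x := fun x => (k4 ⟨x, rfl⟩).1
  have kU : tsupport χ ⊆ U := k1.trans hball
  obtain ⟨hi, he⟩ := h (kform U χ k3 k2 kU)
  have hpos : 0 < trop (incl (kform U χ k3 k2 kU)) :=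
    trop_pos k3 k2 kU kpos (by rw [k5]; norm_num)
  rw [he] at hpos
  have hz : (fun T : {T : Current 2 U // IsCurveCurrent.{u} J0 U T} =>
      T.1 (kform U χ k3 k2 kU)) =ᵐ[ν] 0 := by
    filter_upwards [hall] with T hT
    obtain ⟨S, i1, i2, i3, i4, i5, f, hp, hs, hJ, hsi, hI⟩ := T.2
    have hfc : Continuous (fun p => (f p : C2)) := continuous_subtype_val.comp hp.continuous
    obtain ⟨ψ, hψ, z₀, hz₀, hd, -⟩ := hsi
    have hav : ∀ x ∈ t, ∀ p, g x (f p) = 0 := by
      intro x hx
      have hxO := htO hx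
      set α : Form 2 U := kform U (g x) (hg3 x hxO) (hg2 x hxO)
        ((hg1 x hxO).trans inter_subset_left) with hα
      have h0 : T.1 α = 0 := hT x hx α rfl
      have hI0 : IsIntegral (fun p => (f p : C2)) (fun y => g x y • kahler) 0 := by
        have := hI α
        rw [h0] at this
        exact this
      exact curve_avoid hs hJ ⟨ψ, hψ, z₀, hz₀, hd⟩ (g x) (hg3 x hxO) (hg0 x hxO) hI0 hfc
    have hTrop : ∀ p, (f p : C2) ∈ Trop := by
      intro p
      by_contra hcon
      have hpO : (f p : C2) ∈ O := ⟨(f p).2, hcon⟩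
      obtain ⟨x, hx, hxp⟩ := mem_iUnion₂.1 (hcov hpO)
      exact absurd (hav x hx p) (ne_of_gt hxp)
    have hab : ∃ a b : S, (f a : C2) ≠ f b := by
      by_contra hcon
      push Not at hcon
      apply hd
      have : ((fun p => (f p : C2)) ∘ ψ.symm) = fun _ => (f (ψ.symm z₀) : C2) := by
        funext w
        exact hcon _ _
      rw [this]
      simp
    obtain ⟨a, b, hab⟩ := hab
    have hclosed : ∀ x ∈ Metric.ball (0 : C2) r, x ∈ closure (range fun p => (f p : C2)) →
        x ∈ range fun p => (f p : C2) := by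
      intro x hx hxc
      have hcl : IsClosed (range f) := hp.isClosed_range
      obtain ⟨C, hC, hCe⟩ := isClosed_induced_iff.1 hcl
      have hsub : range (fun p => (f p : C2)) ⊆ C := by
        rintro _ ⟨p, rfl⟩
        have : f p ∈ (Subtype.val ⁻¹' C : Set U) := by rw [hCe]; exact ⟨p, rfl⟩
        exact this
      have hxC : x ∈ C := closure_minimal hsub hC hxc
      have hxU : x ∈ U := hball hx
      have : (⟨x, hxU⟩ : U) ∈ range f := by
        rw [← hCe]; exact hxC
      obtain ⟨p, hp'⟩ := this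
      exact ⟨p, by simp [hp']⟩
    have hno := no_curve hfc (fun l => hol_comp hs hJ l) hab hTrop hr hclosed
    have hχ0 : ∀ p, χ (f p) = 0 := by
      intro p
      apply image_eq_zero_of_notMem_tsupport
      intro hmem
      exact hno p (k1 hmem)
    exact integral_zero_kform χ hχ0 (hI (kform U χ k3 k2 kU))
  rw [integral_congr_ae hz] at hpos
  simp at hpos

end Pool.Agent.J4.H87.Cur
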