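import Pool.Agent.J4.H87.CurCurrent

/-! The current is closed. -/

set_option autoImplicit false

open scoped Distributions CompactConvergenceCLM Topology ContDiff Manifold
open TopologicalSpace MeasureTheory Set Filter Topology

namespace Pool.Agent.J4.H87.Cur

lemma ce_left {X Y : Type*} [TopologicalSpace X] [TopologicalSpace Y] [T1Space Y] (y : Y) :
    IsClosedEmbedding (fun x : X => (x, y)) := by
  refine ⟨isEmbedding_prodMkLeft y, ?_⟩
  have : range (fun x : X => (x, y)) = univ ×ˢ {y} := by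
    ext ⟨a, b⟩; simp [eq_comm]
  rw [this]
  exact isClosed_univ.prod isClosed_singleton

lemma ce_right {X Y : Type*} [TopologicalSpace X] [TopologicalSpace Y] [T1Space X] (x : X) :
    IsClosedEmbedding (fun y : Y => (x, y)) := by
  refine ⟨isEmbedding_prodMkRight x, ?_⟩
  have : range (fun y : Y => (x, y)) = {x} ×ˢ univ := by
    ext ⟨a, b⟩; simp [eq_comm]
  rw [this]
  exact isClosed_singleton.prod isClosed_univ

lemma Dom_measure : (volume.restrict Dom : Measure (ℝ × ℝ × ℝ)) =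
    (volume.restrict (Ioi (0 : ℝ))).prod (volume : Measure (ℝ × ℝ)) := by
  unfold Dom
  rw [Measure.volume_eq_prod, ← Measure.prod_restrict, Measure.restrict_univ]

lemma deriv_integrable {k : ℝ × ℝ × ℝ → ℝ} (hk : ContDiff ℝ 1 k) (hc : HasCompactSupport k)
    (v : ℝ × ℝ × ℝ) : Integrable (fun p => fderiv ℝ k p v) (volume.restrict Dom) := by
  have h1 : Continuous (fun p => fderiv ℝ k p v) := by
    have := hk.continuous_fderiv (by norm_num)
    fun_prop
  have h2 : HasCompactSupport (fun p => fderiv ℝ k p v) :=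
    (hc.fderiv ℝ).comp_left (g := fun L : (ℝ × ℝ × ℝ) →L[ℝ] ℝ => L v) (by simp)
  exact (h1.integrable_of_hasCompactSupport h2).restrict

lemma stokes_normal {k : ℝ × ℝ × ℝ → ℝ} (hk : ContDiff ℝ 1 k) (hc : HasCompactSupport k) :
    ∫ p in Dom, fderiv ℝ k p (1, 0) = - ∫ y : ℝ × ℝ, k (0, y) := by
  have hint := deriv_integrable hk hc (1, 0)
  rw [Dom_measure] at hint ⊢
  rw [integral_prod_symm _ hint, ← integral_neg]
  refine integral_congr_ae (Eventually.of_forall fun y => ?_)
  show ∫ s in Ioi (0 : ℝ), fderiv ℝ k (s, y) (1, 0) = - k (0, y)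
  have hcd : ContDiff ℝ 1 (fun s : ℝ => k (s, y)) := hk.comp (by fun_prop)
  have hcs : HasCompactSupport (fun s : ℝ => k (s, y)) := by
    have : IsClosedEmbedding (fun s : ℝ => (s, y)) :=
      ce_left y
    exact hc.comp_isClosedEmbedding this
  rw [← hcs.integral_Ioi_deriv_eq hcd 0]
  refine integral_congr_ae (Eventually.of_forall fun s => ?_)
  show fderiv ℝ k (s, y) (1, 0) = deriv (fun s : ℝ => k (s, y)) s
  have h1 : HasDerivAt (fun s : ℝ => (s, y)) ((1 : ℝ), (0 : ℝ × ℝ)) s :=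
    (hasDerivAt_id s).prodMk (hasDerivAt_const s y)
  have h2 : HasFDerivAt k (fderiv ℝ k (s, y)) (s, y) :=
    (hk.differentiable (by norm_num) _).hasFDerivAt
  exact (h2.comp_hasDerivAt s h1).deriv.symm

lemma stokes_tangential {k : ℝ × ℝ × ℝ → ℝ} (hk : ContDiff ℝ 1 k) (hc : HasCompactSupport k)
    (w : ℝ × ℝ) : ∫ p in Dom, fderiv ℝ k p (0, w) = 0 := by
  have hint := deriv_integrable hk hc (0, w)
  rw [Dom_measure] at hint ⊢
  rw [integral_prod _ hint]
  have : ∀ s : ℝ, ∫ y : ℝ × ℝ, fderiv ℝ k (s, y) (0, w) = 0 := by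
    intro s
    have hcd : ContDiff ℝ 1 (fun y : ℝ × ℝ => k (s, y)) := hk.comp (by fun_prop)
    have hcs : HasCompactSupport (fun y : ℝ × ℝ => k (s, y)) :=
      hc.comp_isClosedEmbedding (ce_right s)
    have e : ∀ y : ℝ × ℝ, fderiv ℝ k (s, y) (0, w) = fderiv ℝ (fun y : ℝ × ℝ => k (s, y)) y w := by
      intro y
      have h1 : HasFDerivAt (fun y : ℝ × ℝ => (s, y))
          (ContinuousLinearMap.inr ℝ ℝ (ℝ × ℝ)) y := hasFDerivAt_prodMk_right s y
      have h2 : HasFDerivAt k (fderiv ℝ k (s, y)) (s, y) :=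
        (hk.differentiable (by norm_num) _).hasFDerivAt
      have h3 : HasFDerivAt (fun y : ℝ × ℝ => k (s, y))
          ((fderiv ℝ k (s, y)).comp (ContinuousLinearMap.inr ℝ ℝ (ℝ × ℝ))) y := h2.comp y h1
      rw [h3.fderiv]
      simp
    simp_rw [e]
    have hd : Continuous (fun y => fderiv ℝ (fun y : ℝ × ℝ => k (s, y)) y w) := by
      have := hcd.continuous_fderiv (by norm_num)
      fun_prop
    have hd2 : HasCompactSupport (fun y => fderiv ℝ (fun y : ℝ × ℝ => k (s, y)) y w) :=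
      (hcs.fderiv ℝ).comp_left (g := fun L : (ℝ × ℝ) →L[ℝ] ℝ => L w) (by simp)
    have key := integral_bilinear_fderiv_right_eq_neg_left_of_integrable
      (μ := (volume : Measure (ℝ × ℝ))) (f := fun _ : ℝ × ℝ => (1 : ℝ))
      (g := fun y : ℝ × ℝ => k (s, y)) (v := w) (B := ContinuousLinearMap.mul ℝ ℝ)
      (by simp) (by simpa using hd.integrable_of_hasCompactSupport hd2)
      (by simpa using hcd.continuous.integrable_of_hasCompactSupport hcs)
      (fun x _ => differentiableAt_const _)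
      (fun x _ => (hcd.differentiable (by norm_num)) x)
    simpa using key
  simp [this]

/-- the exterior derivative of a 1-form -/
lemma dForm_apply (β : Form 1 (⊤ : Opens C2)) (x v w : C2) :
    dForm β x ![v, w] = fderiv ℝ (fun y => β y ![w]) x v - fderiv ℝ (fun y => β y ![v]) x w := by
  have hd : DifferentiableAt ℝ (β : C2 → C2 [⋀^Fin 1]→L[ℝ] ℝ) x :=
    (β.contDiff.differentiable (by simp)) x
  show extDeriv β x ![v, w] = _
  rw [extDeriv_apply hd, Fin.sum_univ_two]
  have e0 : (0 : Fin 2).removeNth ![v, w] = ![w] := by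
    funext i; fin_cases i; rfl
  have e1 : (1 : Fin 2).removeNth ![v, w] = ![v] := by
    funext i; fin_cases i; rfl
  rw [e0, e1]
  simp
  ring

lemma piece_dForm {r : ℝ × ℝ} (hr : r ≠ 0) (β : Form 1 (⊤ : Opens C2)) :
    piece r (dForm β) = - ∫ y : ℝ × ℝ, β ((y.1 : ℂ) * Complex.I, (y.2 : ℂ) * Complex.I)
      ![Complex.I • RR r] := by
  rw [piece_apply' hr]
  set f : C2 → ℝ := fun x => β x ![Complex.I • RR r] with hf
  set g : C2 → ℝ := fun x => β x ![RR r] with hg
  have happ : ∀ v : C2, ContDiff ℝ (⊤ : ℕ∞) (fun x => β x ![v]) ∧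
      HasCompactSupport (fun x => β x ![v]) := by
    intro v
    have e : (fun x => β x ![v]) =
        (fun a : C2 [⋀^Fin 1]→L[ℝ] ℝ => ContinuousAlternatingMap.apply ℝ C2 ℝ ![v] a) ∘ β := rfl
    refine ⟨?_, ?_⟩
    · rw [e]
      exact (ContinuousLinearMap.contDiff _).comp β.contDiff
    · rw [e]
      exact β.hasCompactSupport.comp_left (map_zero _)
  have hfc : ContDiff ℝ 1 (f ∘ ptL r) :=
    ((happ _).1.of_le (by exact_mod_cast le_top)).comp (ptL r).contDiff
  have hgc : ContDiff ℝ 1 (g ∘ ptL r) :=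
    ((happ _).1.of_le (by exact_mod_cast le_top)).comp (ptL r).contDiff
  have hfs : HasCompactSupport (f ∘ ptL r) := (happ _).2.comp_isClosedEmbedding (ptL_emb hr)
  have hgs : HasCompactSupport (g ∘ ptL r) := (happ _).2.comp_isClosedEmbedding (ptL_emb hr)
  have e1 : ptL r (1, 0) = RR r := by
    rw [ptL_apply]; simp [RR]
  have e2 : ptL r (0, r) = Complex.I • RR r := by
    rw [ptL_apply]; simp [RR, mul_comm]
  have hder : ∀ (k : C2 → ℝ) (hk : ContDiff ℝ (⊤ : ℕ∞) k) (p v : ℝ × ℝ × ℝ),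
      fderiv ℝ k (ptL r p) (ptL r v) = fderiv ℝ (k ∘ ptL r) p v := by
    intro k hk p v
    have h1 : HasFDerivAt k (fderiv ℝ k (ptL r p)) (ptL r p) :=
      (hk.differentiable (by simp) _).hasFDerivAt
    rw [(h1.comp p (ptL r).hasFDerivAt).fderiv]
    rfl
  have e3 : ∀ p, dForm β (ptL r p) ![RR r, Complex.I • RR r] =
      fderiv ℝ (f ∘ ptL r) p (1, 0) - fderiv ℝ (g ∘ ptL r) p (0, r) := by
    intro p
    rw [dForm_apply, ← hder f (happ _).1, ← hder g (happ _).1, e1, e2]
  simp_rw [e3]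
  rw [integral_sub (deriv_integrable hfc hfs _) (deriv_integrable hgc hgs _),
    stokes_normal hfc hfs, stokes_tangential hgc hgs, sub_zero]
  congr 2
  funext y
  show f (ptL r (0, y)) = _
  rw [ptL_apply]
  simp [hf]

end Pool.Agent.J4.H87.Cur
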