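import Pool.Agent.J4.H87.CurCurve

/-! Curves in the support of the current. -/

set_option autoImplicit false

open scoped Distributions CompactConvergenceCLM Topology ContDiff Manifold
open TopologicalSpace MeasureTheory Set Filter

universe u

namespace Pool.Agent.J4.H87.Cur

/-- The support of the current: the points over the tropical line. -/
def Trop : Set C2 := {x | (x.1.re = 0 ∧ x.2.re ≤ 0) ∨ (x.2.re = 0 ∧ x.1.re ≤ 0) ∨
  (x.1.re = x.2.re ∧ 0 ≤ x.1.re)}

lemma isClosed_Trop : IsClosed Trop := by
  have e : Trop = ({x : C2 | x.1.re = 0} ∩ {x | x.2.re ≤ 0}) ∪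
      (({x : C2 | x.2.re = 0} ∩ {x | x.1.re ≤ 0}) ∪
        ({x : C2 | x.1.re = x.2.re} ∩ {x | 0 ≤ x.1.re})) := by
    ext x
    rfl
  rw [e]
  have h1 : Continuous (fun x : C2 => x.1.re) := by fun_prop
  have h2 : Continuous (fun x : C2 => x.2.re) := by fun_prop
  refine IsClosed.union ?_ (IsClosed.union ?_ ?_)
  · exact (isClosed_eq h1 continuous_const).inter (isClosed_le h2 continuous_const)
  · exact (isClosed_eq h2 continuous_const).inter (isClosed_le h1 continuous_const)
  · exact (isClosed_eq h1 h2).inter (isClosed_le continuous_const h1)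

variable {S : Type u} [TopologicalSpace S] [ChartedSpace ℂ S]

omit [TopologicalSpace S] [ChartedSpace ℂ S] in
lemma fill {f : S → C2} {g : S → ℂ} {L : ℂ → C2} (hf : ∀ p, f p = L (g p)) (hL : Continuous L)
    (hLi : Function.Injective L) (ho : IsOpen (range g)) {B : Set C2}
    (hc : ∀ x ∈ B, x ∈ closure (range f) → x ∈ range f) (hD : IsPreconnected (L ⁻¹' B)) {p : S}
    (hp : f p ∈ B) : ∀ v, L v ∈ B → ∃ q, g q = v := by
  have h1 : L ⁻¹' B ⊆ range g := by
    refine hD.subset_of_closure_inter_subset ho ⟨g p, ?_, mem_range_self p⟩ ?_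
    · show L (g p) ∈ B
      rw [← hf]; exact hp
    · rintro v ⟨hv, hvB⟩
      have h2 : L v ∈ closure (range f) := by
        have h3 : L '' closure (range g) ⊆ closure (L '' range g) := image_closure_subset_closure_image hL
        have h4 : L '' range g = range f := by
          ext x
          constructor
          · rintro ⟨_, ⟨q, rfl⟩, rfl⟩
            exact ⟨q, hf q⟩
          · rintro ⟨q, rfl⟩
            exact ⟨g q, ⟨q, rfl⟩, (hf q).symm⟩
        rw [h4] at h3
        exact h3 ⟨v, hv, rfl⟩
      obtain ⟨q, hq⟩ := hc _ hvB h2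
      exact ⟨q, hLi ((hf q).symm.trans hq)⟩
  intro v hv
  exact h1 hv

/-- A curve in the support which is closed near `0` does not come close to `0`. -/
lemma no_curve [ConnectedSpace S] {f : S → C2} (hf : Continuous f)
    (hl : ∀ l : C2 →L[ℂ] ℂ, Hol (fun p => l (f p))) {a b : S} (hab : f a ≠ f b)
    (hT : ∀ p, f p ∈ Trop) {r : ℝ} (hr : 0 < r)
    (hc : ∀ x ∈ Metric.ball (0 : C2) r, x ∈ closure (range f) → x ∈ range f) :
    ∀ p, f p ∉ Metric.ball (0 : C2) r := by
  intro p hp
  have hball : ∀ x : C2, x ∈ Metric.ball (0 : C2) r ↔ ‖x.1‖ < r ∧ ‖x.2‖ < r := by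
    intro x
    rw [mem_ball_zero_iff, Prod.norm_def, max_lt_iff]
  have hf1 : Hol (fun p => (f p).1) := hl (ContinuousLinearMap.fst ℂ ℂ ℂ)
  have hf2 : Hol (fun p => (f p).2) := hl (ContinuousLinearMap.snd ℂ ℂ ℂ)
  have hf3 : Hol (fun p => (f p).1 - (f p).2) :=
    hl (ContinuousLinearMap.fst ℂ ℂ ℂ - ContinuousLinearMap.snd ℂ ℂ ℂ)
  have c1 : Continuous (fun p => (f p).1.re) := by fun_prop
  have c2 : Continuous (fun p => (f p).2.re) := by fun_prop
  -- one of the three linear forms has constant vanishing real part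
  have key : (∃ q, ∀ᶠ x in 𝓝 q, ((f x).1).re = 0) ∨ (∃ q, ∀ᶠ x in 𝓝 q, ((f x).2).re = 0) ∨
      (∃ q, ∀ᶠ x in 𝓝 q, ((f x).1 - (f x).2).re = 0) := by
    by_contra hcon
    push Not at hcon
    obtain ⟨n1, n2, n3⟩ := hcon
    have d1 : Dense {x : S | ((f x).1).re ≠ 0} := by
      rw [dense_iff_inter_open]
      rintro O hO ⟨q, hq⟩
      obtain ⟨x, hx, hxO⟩ := ((n1 q).and_eventually (hO.mem_nhds hq)).exists
      exact ⟨x, hxO, hx⟩
    have d2 : Dense {x : S | ((f x).2).re ≠ 0} := by
      rw [dense_iff_inter_open]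
      rintro O hO ⟨q, hq⟩
      obtain ⟨x, hx, hxO⟩ := ((n2 q).and_eventually (hO.mem_nhds hq)).exists
      exact ⟨x, hxO, hx⟩
    have d3 : Dense {x : S | ((f x).1 - (f x).2).re ≠ 0} := by
      rw [dense_iff_inter_open]
      rintro O hO ⟨q, hq⟩
      obtain ⟨x, hx, hxO⟩ := ((n3 q).and_eventually (hO.mem_nhds hq)).exists
      exact ⟨x, hxO, hx⟩
    have o1 : IsOpen {x : S | ((f x).1).re ≠ 0} := isOpen_ne_fun c1 continuous_const
    have o2 : IsOpen {x : S | ((f x).2).re ≠ 0} := isOpen_ne_fun c2 continuous_const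
    have d12 := d1.inter_of_isOpen_left d2 o1
    have d123 := d12.inter_of_isOpen_left d3 (o1.inter o2)
    obtain ⟨x, ⟨hx1, hx2⟩, hx3⟩ := d123.nonempty
    rcases hT x with h | h | h
    · exact hx1 h.1
    · exact hx2 h.1
    · apply hx3
      show ((f x).1 - (f x).2).re = 0
      rw [Complex.sub_re, h.1, sub_self]
  rw [hball] at hp
  rcases key with ⟨q, hq⟩ | ⟨q, hq⟩ | ⟨q, hq⟩
  · -- first coordinate constant
    have hconst := hf1.const_of_re hq
    have hq0 : ((f q).1).re = 0 := hq.self_of_nhds
    have hne : (f a).2 ≠ (f b).2 := fun h => hab (Prod.ext ((hconst a).trans (hconst b).symm) h)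
    have ho := hf2.isOpenMap hne
    have hq1 : ‖(f q).1‖ < r := by
      have := hconst p
      rw [← this]; exact hp.1
    have hfill := fill (f := f) (g := fun p => (f p).2) (L := fun v => ((f q).1, v))
      (fun p => Prod.ext (hconst p) rfl) (by fun_prop) (fun x y h => (Prod.ext_iff.1 h).2)
      ho.isOpen_range hc (by
        have : (fun v : ℂ => ((f q).1, v)) ⁻¹' Metric.ball (0 : C2) r = Metric.ball 0 r := by
          ext v
          rw [mem_preimage, hball, mem_ball_zero_iff]
          exact ⟨fun h => h.2, fun h => ⟨hq1, h⟩⟩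
        rw [this]
        exact (convex_ball _ _).isPreconnected) (p := p) ((hball _).2 hp)
    obtain ⟨x, hx⟩ := hfill ((r / 2 : ℝ) : ℂ) (by
      rw [hball]
      refine ⟨hq1, ?_⟩
      show ‖((r / 2 : ℝ) : ℂ)‖ < r
      rw [Complex.norm_real, Real.norm_eq_abs, abs_of_pos (by linarith)]
      linarith)
    have hx1 : (f x).1.re = 0 := by
      have := hconst x
      rw [this]; exact hq0
    have hx2 : (f x).2.re = r / 2 := by
      rw [hx]; exact Complex.ofReal_re _
    rcases hT x with h | h | h
    · have := h.2; linarith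
    · have := h.1; linarith
    · have := h.1; linarith
  · -- second coordinate constant
    have hconst := hf2.const_of_re hq
    have hq0 : ((f q).2).re = 0 := hq.self_of_nhds
    have hne : (f a).1 ≠ (f b).1 := fun h => hab (Prod.ext h ((hconst a).trans (hconst b).symm))
    have ho := hf1.isOpenMap hne
    have hq1 : ‖(f q).2‖ < r := by
      have := hconst p
      rw [← this]; exact hp.2
    have hfill := fill (f := f) (g := fun p => (f p).1) (L := fun v => (v, (f q).2))
      (fun p => Prod.ext rfl (hconst p)) (by fun_prop) (fun x y h => (Prod.ext_iff.1 h).1)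
      ho.isOpen_range hc (by
        have : (fun v : ℂ => (v, (f q).2)) ⁻¹' Metric.ball (0 : C2) r = Metric.ball 0 r := by
          ext v
          rw [mem_preimage, hball, mem_ball_zero_iff]
          exact ⟨fun h => h.1, fun h => ⟨h, hq1⟩⟩
        rw [this]
        exact (convex_ball _ _).isPreconnected) (p := p) ((hball _).2 hp)
    obtain ⟨x, hx⟩ := hfill ((r / 2 : ℝ) : ℂ) (by
      rw [hball]
      refine ⟨?_, hq1⟩
      show ‖((r / 2 : ℝ) : ℂ)‖ < r
      rw [Complex.norm_real, Real.norm_eq_abs, abs_of_pos (by linarith)]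
      linarith)
    have hx1 : (f x).2.re = 0 := by
      have := hconst x
      rw [this]; exact hq0
    have hx2 : (f x).1.re = r / 2 := by
      rw [hx]; exact Complex.ofReal_re _
    rcases hT x with h | h | h
    · have := h.1; linarith
    · have := h.2; linarith
    · have := h.1; linarith
  · -- the difference is constant
    have hconst : ∀ x, (f x).1 - (f x).2 = (f q).1 - (f q).2 := hf3.const_of_re hq
    have hq0 : ((f q).1 - (f q).2).re = 0 := hq.self_of_nhds
    set c := (f q).1 - (f q).2 with hcdef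
    have hfe : ∀ x, f x = ((f x).2 + c, (f x).2) := by
      intro x
      refine Prod.ext ?_ rfl
      show (f x).1 = (f x).2 + c
      rw [← hconst x]; ring
    have hne : (f a).2 ≠ (f b).2 := by
      intro h
      apply hab
      rw [hfe a, hfe b, h]
    have ho := hf2.isOpenMap hne
    have hpre : (fun v : ℂ => (v + c, v)) ⁻¹' Metric.ball (0 : C2) r =
        Metric.ball (-c) r ∩ Metric.ball 0 r := by
      ext v
      rw [mem_preimage, hball, mem_inter_iff, mem_ball_iff_norm, mem_ball_zero_iff, sub_neg_eq_add]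
    have hfill := fill (f := f) (g := fun p => (f p).2) (L := fun v => (v + c, v))
      hfe (by fun_prop) (fun x y h => (Prod.ext_iff.1 h).2)
      ho.isOpen_range hc (by
        rw [hpre]
        exact ((convex_ball _ _).inter (convex_ball _ _)).isPreconnected) (p := p) ((hball _).2 hp)
    -- the point with vanishing real parts
    set v0 : ℂ := ((f p).2.im : ℂ) * Complex.I with hv0
    have hv0D : v0 ∈ (fun v : ℂ => (v + c, v)) ⁻¹' Metric.ball (0 : C2) r := by
      rw [mem_preimage, hball]
      constructor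
      · have e : v0 + c = ((f p).1.im : ℂ) * Complex.I := by
          apply Complex.ext
          · simp [hv0, hq0]
          · have := congrArg Complex.im (hconst p)
            simp only [Complex.sub_im] at this
            simp [hv0, ← this]
        show ‖v0 + c‖ < r
        rw [e, norm_mul, Complex.norm_I, mul_one, Complex.norm_real]
        exact (Complex.abs_im_le_norm _).trans_lt hp.1
      · show ‖v0‖ < r
        rw [hv0, norm_mul, Complex.norm_I, mul_one, Complex.norm_real]
        exact (Complex.abs_im_le_norm _).trans_lt hp.2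
    have hDo : IsOpen ((fun v : ℂ => (v + c, v)) ⁻¹' Metric.ball (0 : C2) r) :=
      Metric.isOpen_ball.preimage (by fun_prop)
    obtain ⟨ε, hε, hεb⟩ := Metric.isOpen_iff.1 hDo v0 hv0D
    have hmem : v0 - ((ε / 2 : ℝ) : ℂ) ∈ (fun v : ℂ => (v + c, v)) ⁻¹' Metric.ball (0 : C2) r := by
      apply hεb
      rw [mem_ball_iff_norm]
      have : v0 - ((ε / 2 : ℝ) : ℂ) - v0 = -((ε / 2 : ℝ) : ℂ) := by ring
      rw [this, norm_neg, Complex.norm_real, Real.norm_eq_abs, abs_of_pos (by linarith)]
      linarith
    obtain ⟨x, hx⟩ := hfill _ hmem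
    have hx2 : (f x).2.re = -(ε / 2) := by
      rw [hx]; simp [hv0]
    have hx1 : (f x).1.re = -(ε / 2) := by
      have := congrArg Complex.re (hconst x)
      rw [Complex.sub_re, hq0] at this
      linarith
    rcases hT x with h | h | h
    · have := h.1; linarith
    · have := h.1; linarith
    · have := h.2; linarith

end Pool.Agent.J4.H87.Cur
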