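import Pool.Agent.J4.H87.CurStokes

/-! Weighted sup norms of test forms, and approximation of positive currents. -/

set_option autoImplicit false

open scoped Distributions CompactConvergenceCLM Topology ContDiff Manifold BoundedContinuousFunction
open TopologicalSpace MeasureTheory Set Filter Topology

namespace Pool.Agent.J4.H87.Cur

/-- the weight -/
noncomputable def WW (x : C2) : ℝ := (1 + ‖x‖) ^ 4

lemma WW_cont : Continuous WW := by unfold WW; fun_prop

lemma WW_pos (x : C2) : 0 < WW x := by unfold WW; positivity

abbrev A2 : Type := C2 [⋀^Fin 2]→L[ℝ] ℝ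

lemma weighted_bound (α : Form 2 (⊤ : Opens C2)) : ∃ C, ∀ x, ‖WW x • α x‖ ≤ C :=
  (WW_cont.smul α.continuous).bounded_above_of_compact_support α.hasCompactSupport.smul_left

/-- the form multiplied by the weight, as a bounded continuous function -/
noncomputable def weighted (α : Form 2 (⊤ : Opens C2)) : C2 →ᵇ A2 :=
  BoundedContinuousFunction.ofNormedAddCommGroup (fun x => WW x • α x)
    (WW_cont.smul α.continuous) (weighted_bound α).choose (weighted_bound α).choose_spec

lemma weighted_apply (α : Form 2 (⊤ : Opens C2)) (x : C2) : weighted α x = WW x • α x := rfl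

/-- the weight, truncated -/
noncomputable def WT (C : ℝ) : C2 →ᵇ ℝ :=
  BoundedContinuousFunction.ofNormedAddCommGroup (fun x => max 0 (min (WW x) C))
    (by have := WW_cont; fun_prop) |C| (by
      intro x
      rw [Real.norm_eq_abs, abs_of_nonneg (le_max_left _ _)]
      exact max_le (abs_nonneg C) ((min_le_right _ _).trans (le_abs_self C)))

/-- multiplication by the truncated weight -/
noncomputable def mulWT (C : ℝ) : (C2 →ᵇ A2) →L[ℝ] (C2 →ᵇ A2) :=
  LinearMap.mkContinuous
    { toFun := fun g => WT C • g
      map_add' := fun f g => by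
        ext1 x
        show WT C x • (f x + g x) = WT C x • f x + WT C x • g x
        rw [smul_add]
      map_smul' := fun c g => by
        ext1 x
        show WT C x • (c • g x) = c • (WT C x • g x)
        rw [smul_comm] } ‖WT C‖ (fun g => by
      rw [BoundedContinuousFunction.norm_le (by positivity)]
      intro x
      show ‖WT C x • g x‖ ≤ ‖WT C‖ * ‖g‖
      rw [norm_smul]
      exact mul_le_mul ((WT C).norm_coe_le_norm x) (g.norm_coe_le_norm x) (norm_nonneg _)
        (norm_nonneg _))

lemma mulWT_apply (C : ℝ) (g : C2 →ᵇ A2) (x : C2) : mulWT C g x = WT C x • g x := rfl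

/-- the weighted sup norm is continuous -/
noncomputable def Psi : Form 2 (⊤ : Opens C2) →L[ℝ] (C2 →ᵇ A2) :=
  TestFunction.mkCLM ℝ weighted
    (fun f g => by
      ext1 x
      show WW x • (f x + g x) = WW x • f x + WW x • g x
      rw [smul_add])
    (fun c f => by
      ext1 x
      show WW x • (c • f x) = c • (WW x • f x)
      rw [smul_comm])
    (fun K hK => by
      obtain ⟨C, hC⟩ := K.isCompact.exists_bound_of_continuousOn WW_cont.continuousOn
      have h1 : Continuous (fun f : 𝓓^{⊤}_{K}(C2, A2) =>
          mulWT C (ContDiffMapSupportedIn.toBoundedContinuousFunctionCLM ℝ f)) := by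
        have h2 := (ContDiffMapSupportedIn.toBoundedContinuousFunctionCLM (𝕜 := ℝ) (E := C2)
          (F := A2) (n := ⊤) (K := K)).continuous
        exact (mulWT C).continuous.comp h2
      refine h1.congr fun f => ?_
      ext1 x
      rw [mulWT_apply]
      show WT C x • f x = WW x • f x
      by_cases hx : x ∈ (K : Set C2)
      · have h3 : WW x ≤ C := (le_abs_self _).trans (hC x hx)
        have : WT C x = WW x := by
          show max 0 (min (WW x) C) = WW x
          rw [min_eq_left h3, max_eq_right (WW_pos x).le]
        rw [this]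
      · have : f x = 0 := f.zero_on_compl hx
        rw [this, smul_zero, smul_zero])

lemma Psi_apply (α : Form 2 (⊤ : Opens C2)) (x : C2) : Psi α x = WW x • α x := rfl

lemma norm_le_Psi (α : Form 2 (⊤ : Opens C2)) (x : C2) : ‖WW x • α x‖ ≤ ‖Psi α‖ := by
  rw [← Psi_apply]
  exact (Psi α).norm_coe_le_norm x

end Pool.Agent.J4.H87.Cur
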