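import Mathlib
import Pool.Agent.R412.RT.Z
set_option autoImplicit false

/-! Cylinders: the differences of two points of the paraboloid. -/

namespace Pool.Agent.J4.H87.Cy

open MeasureTheory Complex Set Filter Topology
open scoped ENNReal RealInnerProductSpace ComplexConjugate
open Pool.Agent.R412.RT (E ee ee_norm ee_add ee_conj ee_meas Phi Nn Ex Ex_meas inner_eq)

theorem lin_sub (a c : ℝ) (ha : a ≠ 0) (G : ℝ → ℝ≥0∞) (hG : Measurable G) :
    ∫⁻ x, G (a * x + c) = ENNReal.ofReal (|a|⁻¹) * ∫⁻ x, G x := by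
  have h5 := Measure.map_addHaar_smul (volume : Measure ℝ) ha
  have h6 : ∫⁻ x, G (x + c) ∂(Measure.map (a • ·) (volume : Measure ℝ)) = ∫⁻ x, G (a * x + c) :=
    lintegral_map (hG.comp (measurable_id.add_const c)) (measurable_const_smul a)
  rw [← h6, h5, lintegral_smul_measure, smul_eq_mul, Module.finrank_self, pow_one, abs_inv,
    lintegral_add_right_eq_self G c]

theorem fib (a b c : ℝ) (ha : a ≠ 0) (ψ : ℝ → ℝ≥0∞) (hψ : Measurable ψ) :
    ∫⁻ p : ℝ × ℝ, (Icc (-1 : ℝ) 1).indicator (fun y => ψ (2 * a * p.1 + (2 * b * y - c))) p.2 =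
      ENNReal.ofReal (|a|⁻¹) * ∫⁻ q, ψ q := by
  have hm : Measurable fun p : ℝ × ℝ =>
      (Icc (-1 : ℝ) 1).indicator (fun y => ψ (2 * a * p.1 + (2 * b * y - c))) p.2 := by
    have h1 : (fun p : ℝ × ℝ =>
        (Icc (-1 : ℝ) 1).indicator (fun y => ψ (2 * a * p.1 + (2 * b * y - c))) p.2) =
        (Prod.snd ⁻¹' (Icc (-1 : ℝ) 1)).indicator
          (fun p : ℝ × ℝ => ψ (2 * a * p.1 + (2 * b * p.2 - c))) := by
      ext p
      rfl
    rw [h1]
    exact (hψ.comp (by fun_prop)).indicator (measurable_snd measurableSet_Icc)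
  rw [Measure.volume_eq_prod, lintegral_prod_symm _ hm.aemeasurable]
  have h2 : ∀ y : ℝ, ∫⁻ x : ℝ, (Icc (-1 : ℝ) 1).indicator
      (fun y => ψ (2 * a * x + (2 * b * y - c))) y =
      (Icc (-1 : ℝ) 1).indicator (fun _ => ENNReal.ofReal (|2 * a|⁻¹) * ∫⁻ q, ψ q) y := by
    intro y
    by_cases hy : y ∈ Icc (-1 : ℝ) 1
    · simp only [indicator_of_mem hy]
      exact lin_sub (2 * a) (2 * b * y - c) (by simpa using ha) ψ hψ
    · simp only [indicator_of_notMem hy, lintegral_zero]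
  simp only [h2]
  rw [lintegral_indicator measurableSet_Icc, setLIntegral_const, Real.volume_Icc, mul_comm,
    ← mul_assoc, ← ENNReal.ofReal_mul (by norm_num)]
  congr 2
  rw [abs_mul, mul_inv]
  norm_num
  ring

/-- the plane -/
noncomputable def qe : (ℝ × ℝ) ≃ᵐ E 2 :=
  (MeasurableEquiv.finTwoArrow (α := ℝ)).symm.trans (MeasurableEquiv.toLp 2 (Fin 2 → ℝ))

theorem qe_mp : MeasurePreserving qe volume volume :=
  (PiLp.volume_preserving_toLp (Fin 2)).comp (volume_preserving_finTwoArrow ℝ).symm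

theorem qe_zero (p : ℝ × ℝ) : qe p 0 = p.1 := rfl

theorem qe_one (p : ℝ × ℝ) : qe p 1 = p.2 := rfl

theorem qe_int (F : E 2 → ℝ≥0∞) : ∫⁻ x, F x = ∫⁻ p : ℝ × ℝ, F (qe p) :=
  (qe_mp.lintegral_comp_emb qe.measurableEmbedding F).symm

/-- the space -/
noncomputable def t3 : E 3 ≃ᵐ ℝ × (ℝ × ℝ) :=
  ((MeasurableEquiv.toLp 2 (Fin 3 → ℝ)).symm.trans
    (MeasurableEquiv.piFinSuccAbove (fun _ : Fin 3 => ℝ) 2)).trans
    (MeasurableEquiv.prodCongr (MeasurableEquiv.refl ℝ) (MeasurableEquiv.finTwoArrow (α := ℝ)))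

theorem t3_mp : MeasurePreserving t3 volume volume := by
  have h1 : MeasurePreserving (MeasurableEquiv.toLp 2 (Fin 3 → ℝ)).symm volume volume :=
    (PiLp.volume_preserving_toLp (Fin 3)).symm
  have h2 := volume_preserving_piFinSuccAbove (fun _ : Fin 3 => ℝ) 2
  exact ((MeasurePreserving.id (volume : Measure ℝ)).prod
    (volume_preserving_finTwoArrow ℝ)).comp (h2.comp h1)

theorem t3_apply (P : E 3) : t3 P = (P 2, (P 0, P 1)) := rfl

/-- the point with the coordinates `a, b, q` -/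
noncomputable def p3 (a b q : ℝ) : E 3 := !₂[a, b, q]

theorem t3_p3 (a b q : ℝ) : t3.symm (q, (a, b)) = p3 a b q := by
  rw [MeasurableEquiv.symm_apply_eq, t3_apply]
  rfl

theorem p3_meas : Measurable fun r : ℝ × (ℝ × ℝ) => p3 r.2.1 r.2.2 r.1 := by
  have : (fun r : ℝ × (ℝ × ℝ) => p3 r.2.1 r.2.2 r.1) = t3.symm := by
    ext1 r
    obtain ⟨q, a, b⟩ := r
    rw [t3_p3]
  rw [this]
  exact t3.symm.measurable

theorem t3_int (F : E 3 → ℝ≥0∞) (hF : Measurable F) :
    ∫⁻ P, F P = ∫⁻ h : E 2, ∫⁻ q : ℝ, F (p3 (h 0) (h 1) q) := by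
  have hFm : AEMeasurable (fun z : ℝ × (ℝ × ℝ) => F (t3.symm z)) (volume.prod volume) :=
    (hF.comp t3.symm.measurable).aemeasurable
  rw [qe_int, ← t3_mp.symm.lintegral_comp_emb t3.symm.measurableEmbedding, Measure.volume_eq_prod,
    lintegral_prod_symm _ hFm]
  refine lintegral_congr fun p => lintegral_congr fun q => ?_
  show F (t3.symm (q, (p.1, p.2))) = _
  rw [t3_p3]
  rfl

theorem diff_eq (x h : E 2) : Phi x - Phi (x - h) =
    p3 (h 0) (h 1) (2 * h 0 * x 0 + (2 * h 1 * x 1 - (h 0 ^ 2 + h 1 ^ 2))) := by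
  ext i
  fin_cases i
  · show Phi x (Fin.castSucc 0) - Phi (x - h) (Fin.castSucc 0) = h 0
    rw [Pool.Agent.R412.RT.Phi_cast, Pool.Agent.R412.RT.Phi_cast]
    show x 0 - (x 0 - h 0) = h 0
    ring
  · show Phi x (Fin.castSucc 1) - Phi (x - h) (Fin.castSucc 1) = h 1
    rw [Pool.Agent.R412.RT.Phi_cast, Pool.Agent.R412.RT.Phi_cast]
    show x 1 - (x 1 - h 1) = h 1
    ring
  · show Phi x (Fin.last 2) - Phi (x - h) (Fin.last 2) = _
    rw [Pool.Agent.R412.RT.Phi_last, Pool.Agent.R412.RT.Phi_last, Fin.sum_univ_two,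
      Fin.sum_univ_two]
    show x 0 ^ 2 + x 1 ^ 2 - ((x 0 - h 0) ^ 2 + (x 1 - h 1) ^ 2) =
      2 * h 0 * x 0 + (2 * h 1 * x 1 - (h 0 ^ 2 + h 1 ^ 2))
    ring

theorem p3_norm (a b q : ℝ) : ‖p3 a b q‖ ^ 2 = a ^ 2 + b ^ 2 + q ^ 2 := by
  rw [EuclideanSpace.norm_sq_eq, Fin.sum_univ_three]
  simp only [Real.norm_eq_abs, sq_abs]
  rfl

/-- the weight on the right hand side -/
noncomputable def Gh (H : E 3 → ℝ≥0∞) (P : E 3) : ℝ≥0∞ :=
  (Metric.closedBall (0 : E 3) 10).indicator (fun P => H P * (ENNReal.ofReal ‖P‖)⁻¹) P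

theorem Gh_meas {H : E 3 → ℝ≥0∞} (hH : Measurable H) : Measurable (Gh H) := by
  unfold Gh
  exact (hH.mul (measurable_norm.ennreal_ofReal.inv)).indicator Metric.isClosed_closedBall.measurableSet

/-- `m` is the larger one of `|a|`, `|b|` -/
theorem Gh_ge {H : E 3 → ℝ≥0∞} {a b q m : ℝ} (hm : 0 < m) (hm2 : m ≤ 2) (ha : |a| ≤ m)
    (hb : |b| ≤ m) (hq : |q| ≤ 4 * m) :
    ENNReal.ofReal (m⁻¹) * H (p3 a b q) ≤ 5 * Gh H (p3 a b q) := by
  have h1 := p3_norm a b q
  have h2 : ‖p3 a b q‖ ≤ 5 * m := by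
    refine abs_le_of_sq_le_sq' ?_ (by positivity) |>.2
    rw [h1]
    have h3 := sq_le_sq' (abs_le.1 ha).1 (abs_le.1 ha).2
    have h4 := sq_le_sq' (abs_le.1 hb).1 (abs_le.1 hb).2
    have h5 := sq_le_sq' (abs_le.1 hq).1 (abs_le.1 hq).2
    nlinarith
  have h3 : p3 a b q ∈ Metric.closedBall (0 : E 3) 10 := by
    rw [Metric.mem_closedBall, dist_zero_right]
    linarith
  unfold Gh
  rw [indicator_of_mem h3]
  have h4 : ENNReal.ofReal (m⁻¹) ≤ 5 * (ENNReal.ofReal ‖p3 a b q‖)⁻¹ := by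
    rw [ENNReal.ofReal_inv_of_pos hm, ← div_eq_mul_inv, ENNReal.le_div_iff_mul_le
      (Or.inr (by norm_num)) (Or.inl ENNReal.ofReal_ne_top)]
    calc (ENNReal.ofReal m)⁻¹ * ENNReal.ofReal ‖p3 a b q‖ ≤
        (ENNReal.ofReal m)⁻¹ * ENNReal.ofReal (5 * m) := by gcongr
      _ = 5 := by
          rw [ENNReal.ofReal_mul (by norm_num), mul_comm, mul_assoc,
            ENNReal.mul_inv_cancel (by simpa using hm) ENNReal.ofReal_ne_top, mul_one]
          norm_num
  calc ENNReal.ofReal (m⁻¹) * H (p3 a b q) ≤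
      5 * (ENNReal.ofReal ‖p3 a b q‖)⁻¹ * H (p3 a b q) := by gcongr
    _ = _ := by ring

/-- the unit ball -/
def Bx : Set (E 2) := {x | ‖x‖ < 1}

theorem Bx_meas : MeasurableSet Bx := measurableSet_lt measurable_norm measurable_const

theorem Bx_co {x : E 2} (hx : x ∈ Bx) (i : Fin 2) : |x i| ≤ 1 := by
  have h1 : ‖x i‖ ≤ ‖x‖ := PiLp.norm_apply_le x i
  rw [Real.norm_eq_abs] at h1
  exact h1.trans (le_of_lt hx)

theorem fib_le {H : E 3 → ℝ≥0∞} (hH : Measurable H) {h : E 2} (hh : h 0 ≠ 0 ∨ h 1 ≠ 0) :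
    ∫⁻ x : E 2, Bx.indicator 1 x * Bx.indicator 1 (x - h) * H (Phi x - Phi (x - h)) ≤
      5 * ∫⁻ q : ℝ, Gh H (p3 (h 0) (h 1) q) := by
  have hHm : Measurable fun q : ℝ => H (p3 (h 0) (h 1) q) :=
    hH.comp (p3_meas.comp (measurable_id.prodMk
      (measurable_const (a := ((h 0, h 1) : ℝ × ℝ)))))
  have hco : ∀ x : E 2, x ∈ Bx → x - h ∈ Bx → ∀ i, |x i| ≤ 1 ∧ |x i - h i| ≤ 1 := by
    intro x hx hxh i
    exact ⟨Bx_co hx i, Bx_co hxh i⟩
  set m : ℝ := max |h 0| |h 1| with hm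
  have hm0 : 0 < m := by
    rcases hh with h0 | h1
    · exact lt_of_lt_of_le (abs_pos.2 h0) (le_max_left _ _)
    · exact lt_of_lt_of_le (abs_pos.2 h1) (le_max_right _ _)
  set ψ : ℝ → ℝ≥0∞ := (Icc (-(4 * m)) (4 * m)).indicator
    (fun q => if m ≤ 2 then H (p3 (h 0) (h 1) q) else 0) with hψ
  have hψm : Measurable ψ := by
    refine Measurable.indicator ?_ measurableSet_Icc
    split_ifs
    · exact hHm
    · exact measurable_const
  have hkey : ∀ x : E 2, Bx.indicator 1 x * Bx.indicator 1 (x - h) * H (Phi x - Phi (x - h)) ≤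
      ψ (2 * h 0 * x 0 + (2 * h 1 * x 1 - (h 0 ^ 2 + h 1 ^ 2))) := by
    intro x
    by_cases hx : x ∈ Bx
    · by_cases hxh : x - h ∈ Bx
      · rw [indicator_of_mem hx, indicator_of_mem hxh, Pi.one_apply, Pi.one_apply, one_mul, one_mul,
          diff_eq]
        have h1 := hco x hx hxh
        have h2 : ∀ i, |h i| ≤ 2 := by
          intro i
          have h3 := abs_le.1 (h1 i).1
          have h4 := abs_le.1 (h1 i).2
          rw [abs_le]
          constructor <;> linarith [h3.1, h3.2, h4.1, h4.2]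
        have hm2 : m ≤ 2 := max_le (h2 0) (h2 1)
        have hq : |2 * h 0 * x 0 + (2 * h 1 * x 1 - (h 0 ^ 2 + h 1 ^ 2))| ≤ 4 * m := by
          have e1 : 2 * h 0 * x 0 + (2 * h 1 * x 1 - (h 0 ^ 2 + h 1 ^ 2)) =
            h 0 * (x 0 + (x 0 - h 0)) + h 1 * (x 1 + (x 1 - h 1)) := by ring
          rw [e1]
          have h3 : ∀ i, |h i * (x i + (x i - h i))| ≤ m * 2 := by
            intro i
            rw [abs_mul]
            have h4 : |h i| ≤ m := by
              fin_cases i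
              · exact le_max_left _ _
              · exact le_max_right _ _
            have h5 : |x i + (x i - h i)| ≤ 2 := by
              have := abs_add_le (x i) (x i - h i)
              linarith [(h1 i).1, (h1 i).2]
            exact mul_le_mul h4 h5 (abs_nonneg _) hm0.le
          have h6 := abs_add_le (h 0 * (x 0 + (x 0 - h 0))) (h 1 * (x 1 + (x 1 - h 1)))
          linarith [h3 0, h3 1]
        have hq' : 2 * h 0 * x 0 + (2 * h 1 * x 1 - (h 0 ^ 2 + h 1 ^ 2)) ∈ Icc (-(4 * m)) (4 * m) :=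
          abs_le.1 hq
        rw [hψ, indicator_of_mem hq', if_pos hm2]
      · rw [indicator_of_notMem hxh, mul_zero, zero_mul]
        exact zero_le
    · rw [indicator_of_notMem hx, zero_mul, zero_mul]
      exact zero_le
  have hψG : ∀ q, ENNReal.ofReal (m⁻¹) * ψ q ≤ 5 * Gh H (p3 (h 0) (h 1) q) := by
    intro q
    by_cases hq : q ∈ Icc (-(4 * m)) (4 * m)
    · rw [hψ, indicator_of_mem hq]
      split_ifs with hm2
      · exact Gh_ge hm0 hm2 (le_max_left _ _) (le_max_right _ _) (abs_le.2 hq)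
      · rw [mul_zero]; exact zero_le
    · rw [hψ, indicator_of_notMem hq, mul_zero]
      exact zero_le
  have hfin : ENNReal.ofReal (m⁻¹) * ∫⁻ q, ψ q ≤ 5 * ∫⁻ q : ℝ, Gh H (p3 (h 0) (h 1) q) := by
    rw [← lintegral_const_mul' _ _ ENNReal.ofReal_ne_top,
      ← lintegral_const_mul' _ _ (by norm_num)]
    exact lintegral_mono hψG
  refine le_trans ?_ hfin
  set G : E 2 → ℝ≥0∞ := fun x =>
    Bx.indicator 1 x * Bx.indicator 1 (x - h) * H (Phi x - Phi (x - h)) with hG
  have hzero : ∀ (x : E 2) (i : Fin 2), x i ∉ Icc (-1 : ℝ) 1 → G x = 0 := by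
    intro x i hx
    have : x ∉ Bx := fun hx1 => hx (abs_le.1 (Bx_co hx1 i))
    rw [hG]
    simp only
    rw [indicator_of_notMem this, zero_mul, zero_mul]
  rcases le_total |h 1| |h 0| with hc | hc
  · have hmeq : m = |h 0| := max_eq_left hc
    have h00 : h 0 ≠ 0 := by
      rw [hmeq] at hm0
      exact abs_pos.1 hm0
    rw [qe_int, hmeq, ← fib (h 0) (h 1) (h 0 ^ 2 + h 1 ^ 2) h00 ψ hψm]
    refine lintegral_mono fun p => ?_
    by_cases hp : p.2 ∈ Icc (-1 : ℝ) 1
    · rw [indicator_of_mem hp]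
      exact hkey (qe p)
    · have h7 := hzero (qe p) 1 hp
      rw [hG] at h7
      simp only at h7
      rw [h7]
      exact zero_le
  · have hmeq : m = |h 1| := max_eq_right hc
    have h00 : h 1 ≠ 0 := by
      rw [hmeq] at hm0
      exact abs_pos.1 hm0
    rw [qe_int, hmeq, ← fib (h 1) (h 0) (h 0 ^ 2 + h 1 ^ 2) h00 ψ hψm]
    have hsw := Measure.measurePreserving_swap (μ := (volume : Measure ℝ)) (ν := (volume : Measure ℝ))
    rw [Measure.volume_eq_prod, ← hsw.lintegral_comp_emb MeasurableEquiv.prodComm.measurableEmbedding]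
    refine lintegral_mono fun p => ?_
    by_cases hp : p.2 ∈ Icc (-1 : ℝ) 1
    · rw [indicator_of_mem hp]
      refine (hkey (qe p.swap)).trans (le_of_eq ?_)
      congr 1
      show 2 * h 0 * p.2 + (2 * h 1 * p.1 - (h 0 ^ 2 + h 1 ^ 2)) = _
      ring
    · have h7 := hzero (qe p.swap) 0 hp
      rw [hG] at h7
      simp only at h7
      rw [h7]
      exact zero_le

/-- **the differences of two points of the paraboloid** have the density `≤ 5 / |P|` -/
theorem kern {H : E 3 → ℝ≥0∞} (hH : Measurable H) :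
    ∫⁻ x in Bx, ∫⁻ x' in Bx, H (Phi x - Phi x') ≤ 5 * ∫⁻ P, Gh H P := by
  have hPhi : Measurable (Phi : E 2 → E 3) :=
    (Pool.Agent.R412.RS.Phi_cont (n := 2)).measurable
  have hF : Measurable fun p : E 2 × E 2 =>
      Bx.indicator 1 p.1 * Bx.indicator 1 p.2 * H (Phi p.1 - Phi p.2) := by
    refine Measurable.mul (Measurable.mul ?_ ?_) ?_
    · exact (measurable_one.indicator Bx_meas).comp measurable_fst
    · exact (measurable_one.indicator Bx_meas).comp measurable_snd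
    · exact hH.comp ((hPhi.comp measurable_fst).sub (hPhi.comp measurable_snd))
  have h1 : ∫⁻ x in Bx, ∫⁻ x' in Bx, H (Phi x - Phi x') =
      ∫⁻ x, ∫⁻ x', Bx.indicator 1 x * Bx.indicator 1 x' * H (Phi x - Phi x') := by
    rw [← lintegral_indicator Bx_meas]
    refine lintegral_congr fun x => ?_
    by_cases hx : x ∈ Bx
    · rw [indicator_of_mem hx, ← lintegral_indicator Bx_meas]
      refine lintegral_congr fun x' => ?_
      by_cases hx' : x' ∈ Bx
      · simp [hx, hx']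
      · simp [hx']
    · rw [indicator_of_notMem hx]
      simp [hx]
  have h2 : ∀ x : E 2, ∫⁻ x', Bx.indicator 1 x * Bx.indicator 1 x' * H (Phi x - Phi x') =
      ∫⁻ h, Bx.indicator 1 x * Bx.indicator 1 (x - h) * H (Phi x - Phi (x - h)) := by
    intro x
    exact (lintegral_sub_left_eq_self
      (fun x' => Bx.indicator (1 : E 2 → ℝ≥0∞) x * Bx.indicator (1 : E 2 → ℝ≥0∞) x' *
        H (Phi x - Phi x')) x).symm
  rw [h1]
  simp_rw [h2]
  have hF2 : Measurable (Function.uncurry fun (x h : E 2) =>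
      Bx.indicator (1 : E 2 → ℝ≥0∞) x * Bx.indicator (1 : E 2 → ℝ≥0∞) (x - h) *
        H (Phi x - Phi (x - h))) :=
    hF.comp (measurable_fst.prodMk (measurable_fst.sub measurable_snd))
  rw [lintegral_lintegral_swap hF2.aemeasurable, t3_int _ (Gh_meas hH),
    ← lintegral_const_mul' _ _ (by norm_num)]
  refine lintegral_mono_ae ?_
  have hne : ∀ᵐ h : E 2, h ≠ 0 := by
    rw [ae_iff]
    have : {a : E 2 | ¬a ≠ 0} = {0} := by
      ext a
      simp
    rw [this]
    exact measure_singleton _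
  filter_upwards [hne] with h hh
  refine fib_le hH ?_
  by_contra hcon
  push Not at hcon
  refine hh ?_
  ext i
  fin_cases i
  · exact hcon.1
  · exact hcon.2

end Pool.Agent.J4.H87.Cy
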