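import Mathlib
import Pool.Agent.J4.H87.CyA
set_option autoImplicit false

/-! Cylinders: the estimate for weights depending on a planar projection. -/

namespace Pool.Agent.J4.H87.Cy

open MeasureTheory Complex Set Filter Topology
open scoped ENNReal RealInnerProductSpace ComplexConjugate
open Pool.Agent.R412.RT (E ee ee_norm ee_add ee_conj ee_meas Phi Nn Ex Ex_meas inner_eq Kg Kg_int
  Kg_cont Kg_nonneg gauss_ft gexp_int planch)
open Pool.Agent.R412.RH (Nice)

/-- the regularised identity, for general weights -/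
theorem regW {m n : ℕ} (P : E m → E n) (hP : Measurable P) (g : E m → ℂ) (hg : Integrable g)
    (ω : E n → ℝ) (hω : Integrable ω) (hω0 : ∀ t, 0 ≤ ω t) (κ : E n → ℂ) (hκ : Measurable κ)
    (hκω : ∀ v, ∫ t : E n, (ω t : ℂ) * ee ⟪v, t⟫ = κ v) :
    ∫⁻ t : E n, ‖∫ x, ee ⟪P x, t⟫ * g x‖ₑ ^ 2 * ENNReal.ofReal (ω t) ≤
      ∫⁻ x, ∫⁻ y, ‖g x‖ₑ * ‖g y‖ₑ * ‖κ (P x - P y)‖ₑ := by
  set F : E n → ℂ := fun t => ∫ x, ee ⟪P x, t⟫ * g x with hF
  set h : E n → (E m × E m) → ℂ := fun t z =>
    (ω t : ℂ) * (ee ⟪P z.1 - P z.2, t⟫ * (g z.1 * conj (g z.2))) with hh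
  have hgm := hg.aestronglyMeasurable
  have hgg : Integrable (fun z : E m × E m => g z.1 * conj (g z.2)) (volume.prod volume) :=
    hg.mul_prod ((Complex.conjLIE.toContinuousLinearEquiv.integrable_comp_iff).2 hg)
  have hprod : Integrable (fun p : E n × (E m × E m) =>
      (ω p.1 : ℂ) * (g p.2.1 * conj (g p.2.2)))
      (volume.prod (volume.prod volume)) :=
    hω.ofReal.mul_prod hgg
  have hem : Measurable fun p : E n × (E m × E m) => ee ⟪P p.2.1 - P p.2.2, p.1⟫ :=
    ee_meas.comp (Measurable.inner ((hP.comp (measurable_fst.comp measurable_snd)).sub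
      (hP.comp (measurable_snd.comp measurable_snd))) measurable_fst)
  have hint : Integrable (fun p : E n × (E m × E m) => h p.1 p.2)
      (volume.prod (volume.prod volume)) := by
    have h1 := hprod.bdd_mul (c := 1) hem.aestronglyMeasurable
      (Filter.Eventually.of_forall fun p => (ee_norm _).le)
    refine h1.congr (Filter.Eventually.of_forall fun p => ?_)
    simp only [hh]
    ring
  have hsq : ∀ t, (F t * conj (F t)) = ∫ z : E m × E m, ee ⟪P z.1 - P z.2, t⟫ *
      (g z.1 * conj (g z.2)) ∂(volume.prod volume) := by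
    intro t
    have e1 : conj (F t) = ∫ y, conj (ee ⟪P y, t⟫ * g y) := by
      simp only [hF]
      rw [← integral_conj]
    rw [e1]
    simp only [hF]
    rw [← integral_prod_mul]
    refine integral_congr_ae (Filter.Eventually.of_forall fun z => ?_)
    simp only
    rw [map_mul, ee_conj, inner_sub_left, sub_eq_add_neg, ee_add]
    ring
  have hkey : ∫ t, (ω t : ℂ) * (F t * conj (F t)) =
      ∫ z : E m × E m, (g z.1 * conj (g z.2)) * κ (P z.1 - P z.2)
        ∂(volume.prod volume) := by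
    have e1 : ∀ t, (ω t : ℂ) * (F t * conj (F t)) =
        ∫ z : E m × E m, h t z ∂(volume.prod volume) := by
      intro t
      rw [hsq, ← integral_const_mul]
    simp_rw [e1]
    rw [integral_integral_swap hint]
    refine integral_congr_ae (Filter.Eventually.of_forall fun z => ?_)
    simp only [hh]
    rw [← hκω, ← integral_const_mul]
    refine integral_congr_ae (Filter.Eventually.of_forall fun t => ?_)
    simp only
    ring
  have hFm : AEStronglyMeasurable F volume := by
    have : AEStronglyMeasurable (fun p : E n × E m => ee ⟪P p.2, p.1⟫ * g p.2)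
        (volume.prod volume) :=
      (ee_meas.comp (Measurable.inner (hP.comp measurable_snd) measurable_fst)).aestronglyMeasurable.mul
        hgm.comp_snd
    exact this.integral_prod_right'
  have hFb : ∀ t, ‖F t‖ ≤ ∫ x, ‖g x‖ := by
    intro t
    refine (norm_integral_le_integral_norm _).trans (le_of_eq ?_)
    refine integral_congr_ae (Filter.Eventually.of_forall fun x => ?_)
    simp only
    rw [norm_mul, ee_norm, one_mul]
  have hint2 : Integrable (fun t : E n => ω t * ‖F t‖ ^ 2) := by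
    have := hω.bdd_mul (c := (∫ x, ‖g x‖) ^ 2) (hFm.norm.pow 2)
      (Filter.Eventually.of_forall fun t => by
        have h0 : 0 ≤ (‖F t‖) ^ 2 := by positivity
        show ‖(‖F t‖) ^ 2‖ ≤ _
        rw [Real.norm_of_nonneg h0]
        exact pow_le_pow_left₀ (norm_nonneg _) (hFb t) 2)
    refine this.congr (Filter.Eventually.of_forall fun t => ?_)
    simp only [Pi.pow_apply]
    ring
  have hre : ∫ t, (ω t : ℂ) * (F t * conj (F t)) =
      ((∫ t, ω t * ‖F t‖ ^ 2 : ℝ) : ℂ) := by
    rw [← integral_complex_ofReal]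
    refine integral_congr_ae (Filter.Eventually.of_forall fun t => ?_)
    simp only
    rw [Complex.mul_conj, Complex.normSq_eq_norm_sq]
    push_cast
    ring
  have hle : ENNReal.ofReal (∫ t, ω t * ‖F t‖ ^ 2) ≤
      ∫⁻ z : E m × E m, ‖(g z.1 * conj (g z.2)) * κ (P z.1 - P z.2)‖ₑ
        ∂(volume.prod volume) := by
    have h1 : ENNReal.ofReal (∫ t, ω t * ‖F t‖ ^ 2) =
        ‖((∫ t, ω t * ‖F t‖ ^ 2 : ℝ) : ℂ)‖ₑ := by
      have h0 : 0 ≤ ∫ t, ω t * ‖F t‖ ^ 2 :=
        integral_nonneg fun t => mul_nonneg (hω0 t) (by positivity)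
      rw [← ofReal_norm, Complex.norm_real, Real.norm_of_nonneg h0]
    rw [h1, ← hre, hkey]
    exact enorm_integral_le_lintegral_enorm _
  have hlhs : ∫⁻ t : E n, ‖F t‖ₑ ^ 2 * ENNReal.ofReal (ω t) =
      ENNReal.ofReal (∫ t, ω t * ‖F t‖ ^ 2) := by
    rw [ofReal_integral_eq_lintegral_ofReal hint2
      (Filter.Eventually.of_forall fun t => mul_nonneg (hω0 t) (by positivity))]
    refine lintegral_congr fun t => ?_
    rw [ENNReal.ofReal_mul (hω0 t), mul_comm, ENNReal.ofReal_pow (norm_nonneg _), ofReal_norm]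
  rw [hlhs]
  refine hle.trans (le_of_eq ?_)
  have hm : AEMeasurable (fun z : E m × E m => ‖g z.1‖ₑ * ‖g z.2‖ₑ *
      ‖κ (P z.1 - P z.2)‖ₑ) (volume.prod volume) := by
    refine ((hgm.comp_fst.enorm.mul hgm.comp_snd.enorm)).mul ?_
    exact (hκ.comp ((hP.comp measurable_fst).sub (hP.comp measurable_snd))).enorm.aemeasurable
  rw [← lintegral_prod _ hm]
  refine lintegral_congr fun z => ?_
  rw [enorm_mul, enorm_mul]
  congr 1
  congr 1
  rw [← ofReal_norm, Complex.norm_conj, ofReal_norm]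

/-! ### the Fourier transform of an indicator function of the plane -/

noncomputable def hat (A : Set (E 2)) (v : E 2) : ℂ := ∫ t : E 2, ee ⟪v, t⟫ * A.indicator 1 t

theorem ind_int {A : Set (E 2)} (hA : MeasurableSet A) (hAf : volume A ≠ ∞) :
    Integrable (A.indicator (1 : E 2 → ℂ)) := by
  rw [integrable_indicator_iff hA]
  exact integrableOn_const hAf

theorem hat_meas {A : Set (E 2)} (hA : MeasurableSet A) : Measurable (hat A) := by
  unfold hat
  have : StronglyMeasurable (Function.uncurry fun (v t : E 2) =>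
      ee ⟪v, t⟫ * A.indicator (1 : E 2 → ℂ) t) := by
    refine Measurable.stronglyMeasurable ((ee_meas.comp (measurable_fst.inner measurable_snd)).mul ?_)
    exact (measurable_one.indicator hA).comp measurable_snd
  exact this.integral_prod_right.measurable

theorem ind_enorm (A : Set (E 2)) (t : E 2) :
    ‖A.indicator (1 : E 2 → ℂ) t‖ₑ = A.indicator (1 : E 2 → ℝ≥0∞) t := by
  by_cases ht : t ∈ A
  · rw [indicator_of_mem ht, indicator_of_mem ht]
    simp
  · rw [indicator_of_notMem ht, indicator_of_notMem ht, enorm_zero]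

theorem hat_le {A : Set (E 2)} (hA : MeasurableSet A) (v : E 2) : ‖hat A v‖ₑ ≤ volume A := by
  unfold hat
  refine (enorm_integral_le_lintegral_enorm _).trans (le_of_eq ?_)
  rw [← lintegral_indicator_one hA]
  refine lintegral_congr fun t => ?_
  rw [enorm_mul, ← ofReal_norm (ee _), ee_norm, ENNReal.ofReal_one, one_mul, ind_enorm]

theorem det_id2 : (ContinuousLinearMap.id ℝ (E 2)).det = 1 := by
  unfold ContinuousLinearMap.det
  exact LinearMap.det_id

theorem hat_l2 {A : Set (E 2)} (hA : MeasurableSet A) (hAf : volume A ≠ ∞) :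
    ∫⁻ v, ‖hat A v‖ₑ ^ 2 ≤ volume A := by
  have h1 := planch (n := 2) id measurable_id (fun _ => ContinuousLinearMap.id ℝ (E 2)) univ
    MeasurableSet.univ (fun x _ => hasFDerivWithinAt_id x univ) (injOn_id _)
    (fun x _ => by rw [det_id2]; norm_num) (by simp)
    (A.indicator 1) (ind_int hA hAf) (fun x hx => absurd (mem_univ x) hx)
  have h2 : ∀ v : E 2, (∫ x, ee ⟪id x, v⟫ * A.indicator (1 : E 2 → ℂ) x) = hat A v := by
    intro v
    unfold hat
    refine integral_congr_ae (Eventually.of_forall fun t => ?_)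
    simp only [id]
    rw [real_inner_comm]
  simp_rw [h2] at h1
  refine h1.trans (le_of_eq ?_)
  rw [← lintegral_indicator_one hA]
  refine lintegral_congr fun t => ?_
  rw [ind_enorm]
  by_cases ht : t ∈ A
  · rw [indicator_of_mem ht, det_id2]
    simp
  · rw [indicator_of_notMem ht]
    simp

/-- the constant -/
noncomputable def Cθ (θ : ℝ) : ℝ≥0∞ :=
  (∫⁻ v in Metric.ball (0 : E 2) 11, ENNReal.ofReal (‖v‖ ^ (-(2 / (1 + θ))))) ^ ((1 + θ) / 2)

theorem Cθ_fin {θ : ℝ} (hθ : 0 < θ) : Cθ θ ≠ ∞ := by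
  unfold Cθ
  refine ENNReal.rpow_ne_top_of_nonneg (by positivity) ?_
  have h2 : 2 / (1 + θ) < 2 := by
    rw [div_lt_iff₀ (by linarith)]
    linarith
  have h1 := integrableOn_ball_of_norm_le_rpow (E := E 2) (μ := volume) (F := ℝ) (C := 1)
    (α := 2 / (1 + θ)) (r := 11) (f := fun v => ‖v‖ ^ (-(2 / (1 + θ)))) (by simp)
    (by simpa using h2) (Eventually.of_forall fun v => by
      rw [one_mul, Real.norm_of_nonneg (by positivity)])
    (Measurable.aestronglyMeasurable (by fun_prop))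
  have h3 : ∫⁻ v in Metric.ball (0 : E 2) 11, ENNReal.ofReal (‖v‖ ^ (-(2 / (1 + θ)))) =
      ENNReal.ofReal (∫ v in Metric.ball (0 : E 2) 11, ‖v‖ ^ (-(2 / (1 + θ)))) :=
    (ofReal_integral_eq_lintegral_ofReal h1 (Eventually.of_forall fun v => by positivity)).symm
  rw [h3]
  exact ENNReal.ofReal_ne_top

/-- the bound for the integral of the Fourier transform against `1 / |v|` -/
theorem hat_int {θ : ℝ} (hθ : 0 < θ) (hθ1 : θ < 1) {A : Set (E 2)} (hA : MeasurableSet A)
    (hAf : volume A ≠ ∞) :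
    ∫⁻ v in Metric.closedBall (0 : E 2) 10, ‖hat A v‖ₑ * (ENNReal.ofReal ‖v‖)⁻¹ ≤
      Cθ θ * volume A ^ ((1 + θ) / 2) := by
  have hpq : Real.HolderConjugate (2 / (1 - θ)) (2 / (1 + θ)) := by
    rw [Real.holderConjugate_iff]
    constructor
    · rw [lt_div_iff₀ (by linarith)]
      linarith
    · rw [inv_div, inv_div]
      ring
  have hm1 : Measurable fun v => ‖hat A v‖ₑ ^ (1 - θ) := (hat_meas hA).enorm.pow_const _
  have hm2 : Measurable fun v : E 2 => (ENNReal.ofReal ‖v‖)⁻¹ := measurable_norm.ennreal_ofReal.inv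
  have hpt : ∀ v, ‖hat A v‖ₑ * (ENNReal.ofReal ‖v‖)⁻¹ ≤
      volume A ^ θ * (‖hat A v‖ₑ ^ (1 - θ) * (ENNReal.ofReal ‖v‖)⁻¹) := by
    intro v
    have h1 : ‖hat A v‖ₑ ≤ volume A ^ θ * ‖hat A v‖ₑ ^ (1 - θ) := by
      calc ‖hat A v‖ₑ = ‖hat A v‖ₑ ^ θ * ‖hat A v‖ₑ ^ (1 - θ) := by
            rw [← ENNReal.rpow_add_of_nonneg _ _ hθ.le (by linarith)]
            simp
        _ ≤ _ := by
            gcongr
            exact hat_le hA v
    calc ‖hat A v‖ₑ * (ENNReal.ofReal ‖v‖)⁻¹ ≤
          (volume A ^ θ * ‖hat A v‖ₑ ^ (1 - θ)) * (ENNReal.ofReal ‖v‖)⁻¹ := by gcongr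
      _ = _ := by ring
  have hH := ENNReal.lintegral_mul_le_Lp_mul_Lq
    (volume.restrict (Metric.closedBall (0 : E 2) 10)) hpq hm1.aemeasurable hm2.aemeasurable
  simp only [Pi.mul_apply] at hH
  have hA1 : ∫⁻ v in Metric.closedBall (0 : E 2) 10, (‖hat A v‖ₑ ^ (1 - θ)) ^ (2 / (1 - θ)) ≤
      volume A := by
    refine (setLIntegral_le_lintegral _ _).trans (le_trans (le_of_eq ?_) (hat_l2 hA hAf))
    refine lintegral_congr fun v => ?_
    rw [← ENNReal.rpow_mul, ← ENNReal.rpow_natCast]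
    congr 1
    have : 1 - θ ≠ 0 := by linarith
    field_simp
    norm_num
  have hB1 : ∫⁻ v in Metric.closedBall (0 : E 2) 10, (ENNReal.ofReal ‖v‖)⁻¹ ^ (2 / (1 + θ)) ≤
      ∫⁻ v in Metric.ball (0 : E 2) 11, ENNReal.ofReal (‖v‖ ^ (-(2 / (1 + θ)))) := by
    refine (lintegral_mono_set (Metric.closedBall_subset_ball
      (by norm_num : (10 : ℝ) < 11))).trans ?_
    refine lintegral_mono_ae ?_
    have hne : ∀ᵐ v : E 2 ∂(volume.restrict (Metric.ball 0 11)), v ≠ 0 := by
      refine ae_restrict_of_ae ?_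
      rw [ae_iff]
      have : {a : E 2 | ¬a ≠ 0} = {0} := by
        ext a
        simp
      rw [this]
      exact measure_singleton _
    filter_upwards [hne] with v hv
    have hv0 : 0 < ‖v‖ := norm_pos_iff.2 hv
    rw [← ENNReal.ofReal_inv_of_pos hv0, ENNReal.ofReal_rpow_of_nonneg (by positivity)
      (by positivity), Real.rpow_neg hv0.le, Real.inv_rpow hv0.le]
  calc ∫⁻ v in Metric.closedBall (0 : E 2) 10, ‖hat A v‖ₑ * (ENNReal.ofReal ‖v‖)⁻¹
      ≤ ∫⁻ v in Metric.closedBall (0 : E 2) 10,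
          volume A ^ θ * (‖hat A v‖ₑ ^ (1 - θ) * (ENNReal.ofReal ‖v‖)⁻¹) := lintegral_mono hpt
    _ = volume A ^ θ * ∫⁻ v in Metric.closedBall (0 : E 2) 10,
          ‖hat A v‖ₑ ^ (1 - θ) * (ENNReal.ofReal ‖v‖)⁻¹ := by
        exact lintegral_const_mul _ (hm1.mul hm2)
    _ ≤ volume A ^ θ * (volume A ^ ((1 - θ) / 2) * Cθ θ) := by
        refine mul_le_mul_right (hH.trans ?_) _
        unfold Cθ
        rw [one_div_div, one_div_div]
        gcongr
    _ = _ := by
        rw [← mul_assoc, ← ENNReal.rpow_add_of_nonneg _ _ hθ.le (by linarith), mul_comm]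
        congr 2
        ring

end Pool.Agent.J4.H87.Cy
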