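import Mathlib
import Pool.Agent.J4.H87.CyB
set_option autoImplicit false

/-! Cylinders: the estimate for weights depending on a planar projection. -/

namespace Pool.Agent.J4.H87.Cy

open MeasureTheory Complex Set Filter Topology
open scoped ENNReal RealInnerProductSpace ComplexConjugate
open Pool.Agent.R412.RT (E ee ee_norm ee_add ee_conj ee_meas Phi Nn Ex Ex_meas inner_eq Kg Kg_int
  Kg_cont Kg_nonneg gauss_ft gexp_int planch)
open Pool.Agent.R412.RH (Nice)

/-- the line -/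
noncomputable def q1 : ℝ ≃ᵐ E 1 :=
  (MeasurableEquiv.funUnique (Fin 1) ℝ).symm.trans (MeasurableEquiv.toLp 2 (Fin 1 → ℝ))

theorem q1_mp : MeasurePreserving q1 volume volume :=
  (PiLp.volume_preserving_toLp (Fin 1)).comp (volume_preserving_funUnique (Fin 1) ℝ).symm

theorem q1_apply (s : ℝ) : q1 s 0 = s := rfl

variable (e : OrthonormalBasis (Fin 3) ℝ (E 3))

/-- the coordinates `⟪e 2, ξ⟫` and `(⟪e 0, ξ⟫, ⟪e 1, ξ⟫)` -/
noncomputable def se : E 3 ≃ᵐ E 1 × E 2 :=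
  (e.measurableEquiv.trans t3).trans (MeasurableEquiv.prodCongr q1 qe)

theorem se_mp : MeasurePreserving (se e) volume volume :=
  (q1_mp.prod qe_mp).comp (t3_mp.comp e.measurePreserving_measurableEquiv)

theorem se_fst (ξ : E 3) : (se e ξ).1 0 = ⟪e 2, ξ⟫ := by
  rw [← e.repr_apply_apply]
  rfl

theorem se_snd0 (ξ : E 3) : (se e ξ).2 0 = ⟪e 0, ξ⟫ := by
  rw [← e.repr_apply_apply]
  rfl

theorem se_snd1 (ξ : E 3) : (se e ξ).2 1 = ⟪e 1, ξ⟫ := by
  rw [← e.repr_apply_apply]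
  rfl

theorem se_inner (P ξ : E 3) :
    ⟪P, ξ⟫ = ⟪(se e P).1, (se e ξ).1⟫ + ⟪(se e P).2, (se e ξ).2⟫ := by
  have h1 : ⟪(se e P).1, (se e ξ).1⟫ = ⟪e 2, P⟫ * ⟪e 2, ξ⟫ := by
    rw [inner_eq, Fin.sum_univ_one, se_fst, se_fst]
  have h2 : ⟪(se e P).2, (se e ξ).2⟫ = ⟪e 0, P⟫ * ⟪e 0, ξ⟫ + ⟪e 1, P⟫ * ⟪e 1, ξ⟫ := by
    rw [inner_eq, Fin.sum_univ_two, se_snd0, se_snd0, se_snd1, se_snd1]
  rw [h1, h2, ← e.sum_inner_mul_inner, Fin.sum_univ_three, real_inner_comm (e 0) P,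
    real_inner_comm (e 1) P, real_inner_comm (e 2) P]
  ring

theorem se_norm (P : E 3) : ‖(se e P).2‖ ≤ ‖P‖ := by
  have h1 := se_inner e P P
  rw [real_inner_self_eq_norm_sq, real_inner_self_eq_norm_sq, real_inner_self_eq_norm_sq] at h1
  refine (abs_le_of_sq_le_sq' ?_ (norm_nonneg _)).2
  rw [h1]
  nlinarith [sq_nonneg ‖(se e P).1‖]

/-- the regularised weight -/
noncomputable def om (A : Set (E 2)) (ε : ℝ) (ξ : E 3) : ℝ :=
  Real.exp (-ε * ‖(se e ξ).1‖ ^ 2) * A.indicator 1 ((se e ξ).2)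

theorem om_int {A : Set (E 2)} (hA : MeasurableSet A) (hAf : volume A ≠ ∞) {ε : ℝ} (hε : 0 < ε) :
    Integrable (om e A ε) := by
  have h1 : Integrable (A.indicator (1 : E 2 → ℝ)) := by
    rw [integrable_indicator_iff hA]
    exact integrableOn_const hAf
  have h2 : Integrable (fun p : E 1 × E 2 => Real.exp (-ε * ‖p.1‖ ^ 2) * A.indicator 1 p.2)
      (volume.prod volume) := (gexp_int 1 ε hε).mul_prod h1
  exact ((se_mp e).integrable_comp_emb (se e).measurableEmbedding).2 h2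

theorem om_nonneg (A : Set (E 2)) (ε : ℝ) (ξ : E 3) : 0 ≤ om e A ε ξ := by
  unfold om
  refine mul_nonneg (Real.exp_pos _).le (indicator_nonneg (fun _ _ => ?_) _)
  exact zero_le_one

/-- its Fourier transform -/
noncomputable def ka (A : Set (E 2)) (ε : ℝ) (P : E 3) : ℂ :=
  (Kg 1 ε (se e P).1 : ℂ) * hat A (se e P).2

theorem ka_meas {A : Set (E 2)} (hA : MeasurableSet A) (ε : ℝ) : Measurable (ka e A ε) := by
  unfold ka
  refine Measurable.mul ?_ ((hat_meas hA).comp (measurable_snd.comp (se e).measurable))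
  exact Complex.measurable_ofReal.comp ((Kg_cont 1 ε).measurable.comp
    (measurable_fst.comp (se e).measurable))

theorem om_ft {A : Set (E 2)} {ε : ℝ} (hε : 0 < ε) (P : E 3) :
    ∫ ξ : E 3, (om e A ε ξ : ℂ) * ee ⟪P, ξ⟫ = ka e A ε P := by
  unfold ka
  rw [← gauss_ft 1 ε hε]
  unfold hat
  rw [← integral_prod_mul]
  have h1 := (se_mp e).integral_comp (se e).measurableEmbedding (fun p : E 1 × E 2 =>
    (((Real.exp (-ε * ‖p.1‖ ^ 2) : ℝ) : ℂ) * ee ⟪(se e P).1, p.1⟫) *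
      (ee ⟪(se e P).2, p.2⟫ * A.indicator 1 p.2))
  rw [Measure.volume_eq_prod] at h1
  rw [← h1]
  refine integral_congr_ae (Eventually.of_forall fun ξ => ?_)
  simp only
  rw [se_inner e P ξ, ee_add]
  unfold om
  by_cases hξ : (se e ξ).2 ∈ A
  · rw [indicator_of_mem hξ, indicator_of_mem hξ]
    push_cast
    simp only [Pi.one_apply, Complex.ofReal_one]
    ring
  · rw [indicator_of_notMem hξ, indicator_of_notMem hξ]
    simp

theorem Gh_int {A : Set (E 2)} (hA : MeasurableSet A) {ε : ℝ} (hε : 0 < ε) :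
    ∫⁻ P, Gh (fun P => ‖ka e A ε P‖ₑ) P ≤
      ∫⁻ v in Metric.closedBall (0 : E 2) 10, ‖hat A v‖ₑ * (ENNReal.ofReal ‖v‖)⁻¹ := by
  set B : Set (E 2) := Metric.closedBall (0 : E 2) 10 with hB
  have hBm : MeasurableSet B := Metric.isClosed_closedBall.measurableSet
  set G2 : E 2 → ℝ≥0∞ := B.indicator fun v => ‖hat A v‖ₑ * (ENNReal.ofReal ‖v‖)⁻¹ with hG2
  have hG2m : Measurable G2 :=
    ((hat_meas hA).enorm.mul measurable_norm.ennreal_ofReal.inv).indicator hBm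
  have hKm : Measurable fun a : E 1 => ENNReal.ofReal (Kg 1 ε a) :=
    (Kg_cont 1 ε).measurable.ennreal_ofReal
  have h1 : ∀ P : E 3, Gh (fun P => ‖ka e A ε P‖ₑ) P ≤
      ENNReal.ofReal (Kg 1 ε (se e P).1) * G2 (se e P).2 := by
    intro P
    unfold Gh
    by_cases hP : P ∈ Metric.closedBall (0 : E 3) 10
    · have h2 : (se e P).2 ∈ B := by
        rw [Metric.mem_closedBall, dist_zero_right] at hP ⊢
        exact (se_norm e P).trans hP
      rw [indicator_of_mem hP, hG2, indicator_of_mem h2]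
      show ‖ka e A ε P‖ₑ * (ENNReal.ofReal ‖P‖)⁻¹ ≤ _
      unfold ka
      rw [enorm_mul, ← ofReal_norm ((Kg 1 ε (se e P).1 : ℝ) : ℂ), Complex.norm_real,
        Real.norm_of_nonneg (Kg_nonneg 1 ε hε _), mul_assoc]
      gcongr
      exact se_norm e P
    · rw [indicator_of_notMem hP]
      exact zero_le
  calc ∫⁻ P, Gh (fun P => ‖ka e A ε P‖ₑ) P
      ≤ ∫⁻ P, ENNReal.ofReal (Kg 1 ε (se e P).1) * G2 (se e P).2 := lintegral_mono h1
    _ = ∫⁻ p : E 1 × E 2, ENNReal.ofReal (Kg 1 ε p.1) * G2 p.2 :=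
        (se_mp e).lintegral_comp_emb (se e).measurableEmbedding
          (fun p : E 1 × E 2 => ENNReal.ofReal (Kg 1 ε p.1) * G2 p.2)
    _ = (∫⁻ a : E 1, ENNReal.ofReal (Kg 1 ε a)) * ∫⁻ b, G2 b := by
        rw [Measure.volume_eq_prod, lintegral_prod_mul hKm.aemeasurable hG2m.aemeasurable]
    _ = _ := by
        rw [Kg_int 1 ε hε, one_mul, hG2, lintegral_indicator hBm]

theorem xray_eps {M : ℝ} (hM : 0 ≤ M) {f : E 2 → ℂ} (hf : Nice M f) {A : Set (E 2)}
    (hA : MeasurableSet A) (hAf : volume A ≠ ∞) {ε : ℝ} (hε : 0 < ε) :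
    ∫⁻ ξ, ‖Ex f ξ‖ₑ ^ 2 * ENNReal.ofReal (om e A ε ξ) ≤
      ENNReal.ofReal (M ^ 2) * (5 *
        ∫⁻ v in Metric.closedBall (0 : E 2) 10, ‖hat A v‖ₑ * (ENNReal.ofReal ‖v‖)⁻¹) := by
  have hPhi : Measurable (Phi : E 2 → E 3) := (Pool.Agent.R412.RS.Phi_cont (n := 2)).measurable
  have h1 := regW (m := 2) (n := 3) Phi hPhi f hf.integrable (om e A ε) (om_int e hA hAf hε)
    (om_nonneg e A ε) (ka e A ε) (ka_meas e hA ε) (om_ft e hε)
  refine h1.trans ?_
  have hfb : ∀ x, ‖f x‖ₑ ≤ ENNReal.ofReal M * Bx.indicator 1 x := by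
    intro x
    by_cases hx : x ∈ Bx
    · rw [indicator_of_mem hx, Pi.one_apply, mul_one, ← ofReal_norm]
      exact ENNReal.ofReal_le_ofReal (hf.bd x)
    · have : f x = 0 := hf.supp x (not_lt.1 hx)
      rw [this, enorm_zero]
      exact zero_le
  have hpt : ∀ x, ∫⁻ y, ‖f x‖ₑ * ‖f y‖ₑ * ‖ka e A ε (Phi x - Phi y)‖ₑ ≤
      ENNReal.ofReal (M ^ 2) * (Bx.indicator 1 x * ∫⁻ y in Bx, ‖ka e A ε (Phi x - Phi y)‖ₑ) := by
    intro x
    have e1 : ∫⁻ y in Bx, ‖ka e A ε (Phi x - Phi y)‖ₑ =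
        ∫⁻ y, Bx.indicator 1 y * ‖ka e A ε (Phi x - Phi y)‖ₑ := by
      rw [← lintegral_indicator Bx_meas]
      refine lintegral_congr fun y => ?_
      by_cases hy : y ∈ Bx
      · rw [indicator_of_mem hy, indicator_of_mem hy, Pi.one_apply, one_mul]
      · rw [indicator_of_notMem hy, indicator_of_notMem hy, zero_mul]
    have hi : Bx.indicator (1 : E 2 → ℝ≥0∞) x ≠ ∞ := by
      by_cases hx : x ∈ Bx
      · rw [indicator_of_mem hx]; simp
      · rw [indicator_of_notMem hx]; simp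
    rw [e1, ← lintegral_const_mul' _ _ hi, ← lintegral_const_mul' _ _ ENNReal.ofReal_ne_top]
    refine lintegral_mono fun y => ?_
    calc ‖f x‖ₑ * ‖f y‖ₑ * ‖ka e A ε (Phi x - Phi y)‖ₑ
        ≤ (ENNReal.ofReal M * Bx.indicator 1 x) * (ENNReal.ofReal M * Bx.indicator 1 y) *
          ‖ka e A ε (Phi x - Phi y)‖ₑ := by
          gcongr
          · exact hfb x
          · exact hfb y
      _ = _ := by
          rw [ENNReal.ofReal_pow hM]
          ring
  calc ∫⁻ x, ∫⁻ y, ‖f x‖ₑ * ‖f y‖ₑ * ‖ka e A ε (Phi x - Phi y)‖ₑ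
      ≤ ∫⁻ x, ENNReal.ofReal (M ^ 2) *
          (Bx.indicator 1 x * ∫⁻ y in Bx, ‖ka e A ε (Phi x - Phi y)‖ₑ) := lintegral_mono hpt
    _ = ENNReal.ofReal (M ^ 2) * ∫⁻ x in Bx, ∫⁻ y in Bx, ‖ka e A ε (Phi x - Phi y)‖ₑ := by
        rw [lintegral_const_mul' _ _ ENNReal.ofReal_ne_top, ← lintegral_indicator Bx_meas]
        congr 1
        refine lintegral_congr fun x => ?_
        by_cases hx : x ∈ Bx
        · rw [indicator_of_mem hx, indicator_of_mem hx, Pi.one_apply, one_mul]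
        · rw [indicator_of_notMem hx, indicator_of_notMem hx, zero_mul]
    _ ≤ ENNReal.ofReal (M ^ 2) * (5 * ∫⁻ P, Gh (fun P => ‖ka e A ε P‖ₑ) P) :=
        mul_le_mul_right (kern (ka_meas e hA ε).enorm) _
    _ ≤ _ := by
        gcongr
        exact Gh_int e hA hε

/-- **the estimate for cylinders** over planar sets -/
theorem xray {θ : ℝ} (hθ : 0 < θ) (hθ1 : θ < 1) {M : ℝ} (hM : 0 ≤ M) {f : E 2 → ℂ}
    (hf : Nice M f) {A : Set (E 2)} (hA : MeasurableSet A) :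
    ∫⁻ ξ, A.indicator 1 (se e ξ).2 * ‖Ex f ξ‖ₑ ^ 2 ≤
      ENNReal.ofReal (M ^ 2) * (5 * Cθ θ * volume A ^ ((1 + θ) / 2)) := by
  by_cases hAf : volume A = ∞
  · have hC0 : Cθ θ ≠ 0 := by
      unfold Cθ
      intro h0
      rw [ENNReal.rpow_eq_zero_iff] at h0
      rcases h0 with h0 | h0
      · have h1 := h0.1
        rw [lintegral_eq_zero_iff (by fun_prop)] at h1
        have h2 : ∀ᵐ v : E 2 ∂(volume.restrict (Metric.ball 0 11)), v ≠ 0 := by
          refine ae_restrict_of_ae ?_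
          rw [ae_iff]
          have : {a : E 2 | ¬a ≠ 0} = {0} := by
            ext a
            simp
          rw [this]
          exact measure_singleton _
        have h3 : ∀ᵐ v : E 2 ∂(volume.restrict (Metric.ball 0 11)), False := by
          filter_upwards [h1, h2] with v h4 h5
          have h6 : (0 : ℝ) < ‖v‖ ^ (-(2 / (1 + θ))) := by
            have := norm_pos_iff.2 h5
            positivity
          simp only [Pi.zero_apply, ENNReal.ofReal_eq_zero] at h4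
          linarith
        rw [ae_iff] at h3
        simp at h3
        linarith [Real.pi_pos]
      · linarith [h0.2]
    rcases eq_or_ne M 0 with hM0 | hM0
    · have hf0 : ∀ ξ, Ex f ξ = 0 := fun ξ => Pool.Agent.R412.RH.zero_fun hf hM0.le ξ
      simp [hf0]
    · rw [hAf, ENNReal.top_rpow_of_pos (by linarith), ENNReal.mul_top (by simp [hC0]),
        ENNReal.mul_top]
      · exact le_top
      · have : 0 < M := lt_of_le_of_ne hM (Ne.symm hM0)
        simp only [ne_eq, ENNReal.ofReal_eq_zero, not_le]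
        positivity
  have hEm : Measurable (Ex f) := Ex_meas f hf.integrable.1
  have hbound : ∀ k : ℕ, ∫⁻ ξ, ‖Ex f ξ‖ₑ ^ 2 * ENNReal.ofReal (om e A (1 / ((k : ℝ) + 1)) ξ) ≤
      ENNReal.ofReal (M ^ 2) * (5 * Cθ θ * volume A ^ ((1 + θ) / 2)) := by
    intro k
    refine (xray_eps e hM hf hA hAf (ε := 1 / ((k : ℝ) + 1)) (by positivity)).trans ?_
    rw [mul_assoc 5]
    gcongr
    exact hat_int hθ hθ1 hA hAf
  have hlim : ∀ ξ : E 3, Tendsto (fun k : ℕ => ‖Ex f ξ‖ₑ ^ 2 *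
      ENNReal.ofReal (om e A (1 / ((k : ℝ) + 1)) ξ)) atTop
      (𝓝 (A.indicator 1 (se e ξ).2 * ‖Ex f ξ‖ₑ ^ 2)) := by
    intro ξ
    by_cases hξ : (se e ξ).2 ∈ A
    · have h0 : ∀ k : ℕ, om e A (1 / ((k : ℝ) + 1)) ξ =
          Real.exp (-(1 / ((k : ℝ) + 1)) * ‖(se e ξ).1‖ ^ 2) := by
        intro k
        unfold om
        rw [indicator_of_mem hξ, Pi.one_apply, mul_one]
      simp only [h0]
      rw [indicator_of_mem hξ, Pi.one_apply, one_mul]
      have h1 : Tendsto (fun k : ℕ => Real.exp (-(1 / ((k : ℝ) + 1)) * ‖(se e ξ).1‖ ^ 2)) atTop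
          (𝓝 1) := by
        have h2 : Tendsto (fun k : ℕ => -(1 / ((k : ℝ) + 1)) * ‖(se e ξ).1‖ ^ 2) atTop (𝓝 0) := by
          have := (tendsto_one_div_add_atTop_nhds_zero_nat (𝕜 := ℝ)).neg.mul_const
            (‖(se e ξ).1‖ ^ 2)
          simpa using this
        have := (Real.continuous_exp.tendsto 0).comp h2
        rwa [Real.exp_zero] at this
      have h3 : Tendsto (fun k : ℕ => ENNReal.ofReal
          (Real.exp (-(1 / ((k : ℝ) + 1)) * ‖(se e ξ).1‖ ^ 2))) atTop (𝓝 1) := by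
        have := ENNReal.tendsto_ofReal h1
        rwa [ENNReal.ofReal_one] at this
      have h4 := ENNReal.Tendsto.const_mul (a := ‖Ex f ξ‖ₑ ^ 2) h3 (Or.inl one_ne_zero)
      rwa [mul_one] at h4
    · have h0 : ∀ k : ℕ, om e A (1 / ((k : ℝ) + 1)) ξ = 0 := by
        intro k
        unfold om
        rw [indicator_of_notMem hξ, mul_zero]
      simp only [h0, ENNReal.ofReal_zero, mul_zero]
      rw [indicator_of_notMem hξ, zero_mul]
      exact tendsto_const_nhds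
  calc ∫⁻ ξ, A.indicator 1 (se e ξ).2 * ‖Ex f ξ‖ₑ ^ 2
      = ∫⁻ ξ, liminf (fun k : ℕ => ‖Ex f ξ‖ₑ ^ 2 *
          ENNReal.ofReal (om e A (1 / ((k : ℝ) + 1)) ξ)) atTop := by
        refine lintegral_congr fun ξ => ?_
        rw [(hlim ξ).liminf_eq]
    _ ≤ liminf (fun k : ℕ => ∫⁻ ξ, ‖Ex f ξ‖ₑ ^ 2 *
          ENNReal.ofReal (om e A (1 / ((k : ℝ) + 1)) ξ)) atTop := by
        refine lintegral_liminf_le fun k => ?_
        refine (hEm.enorm.pow_const 2).mul (Measurable.ennreal_ofReal ?_)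
        unfold om
        refine Measurable.mul ?_ ((measurable_one.indicator hA).comp
          (measurable_snd.comp (se e).measurable))
        have : Measurable fun ξ => ‖(se e ξ).1‖ :=
          measurable_norm.comp (measurable_fst.comp (se e).measurable)
        fun_prop
    _ ≤ _ := liminf_le_of_frequently_le' (Frequently.of_forall fun k => hbound k)

end Pool.Agent.J4.H87.Cy
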