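import Mathlib
import Pool.Agent.J4.H87.CyC
set_option autoImplicit false

/-! Cylinders: slabs in arbitrary directions. -/

namespace Pool.Agent.J4.H87.Cy

open MeasureTheory Complex Set Filter Topology
open scoped ENNReal RealInnerProductSpace ComplexConjugate
open Pool.Agent.R412.RT (E ee ee_norm ee_add ee_conj ee_meas Phi Nn Ex Ex_meas inner_eq)
open Pool.Agent.R412.RH (Nice Gs Gs_meas Gs_int ker_le Ex_add3 sq3)
open Pool.Agent.R412.RS (slabE Vd)

/-- the normal component -/
noncomputable def Jd (n : E 3) (x : E 2) : ℝ := ⟪n, Nn x⟫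

theorem Jd_eq (n : E 3) (x : E 2) : Jd n x = n 2 - 2 * (n 0 * x 0 + n 1 * x 1) := by
  unfold Jd
  rw [inner_eq, Fin.sum_univ_castSucc, Fin.sum_univ_two]
  simp only [Pool.Agent.R412.RT.Nn_cast, Pool.Agent.R412.RT.Nn_last]
  show n 0 * (-2 * x 0) + n 1 * (-2 * x 1) + n 2 * 1 = _
  ring

theorem Jd_meas (n : E 3) : Measurable (Jd n) := by
  have : Jd n = fun x => n 2 - 2 * (n 0 * x 0 + n 1 * x 1) := by
    ext x; exact Jd_eq n x
  rw [this]
  fun_prop

theorem cases_n {n : E 3} (hn : ‖n‖ = 1) : (1 / 8 ≤ |n 0| ∨ 1 / 8 ≤ |n 1|) ∨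
    ∀ x ∈ Bx, 1 / 4 ≤ |Jd n x| := by
  by_cases h : 1 / 8 ≤ |n 0| ∨ 1 / 8 ≤ |n 1|
  · exact Or.inl h
  · right
    push Not at h
    intro x hx
    have h0 := Bx_co hx 0
    have h1 := Bx_co hx 1
    have h2 : n 0 ^ 2 + n 1 ^ 2 + n 2 ^ 2 = 1 := by
      have := EuclideanSpace.norm_sq_eq n
      rw [hn, Fin.sum_univ_three] at this
      simp only [Real.norm_eq_abs, sq_abs] at this
      linarith
    have h3 : n 0 ^ 2 < 1 / 64 := by
      rw [← sq_abs]
      nlinarith [h.1, abs_nonneg (n 0)]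
    have h4 : n 1 ^ 2 < 1 / 64 := by
      rw [← sq_abs]
      nlinarith [h.2, abs_nonneg (n 1)]
    have h5 : 3 / 4 ≤ |n 2| := by
      by_contra hc
      push Not at hc
      have : n 2 ^ 2 < 9 / 16 := by
        rw [← sq_abs]
        nlinarith [abs_nonneg (n 2)]
      linarith
    have h6 : |2 * (n 0 * x 0 + n 1 * x 1)| ≤ 1 / 2 := by
      have h7 := abs_add_le (n 0 * x 0) (n 1 * x 1)
      rw [abs_mul, abs_mul] at h7
      have h8 : |n 0| * |x 0| ≤ 1 / 8 * 1 := mul_le_mul h.1.le h0 (abs_nonneg _) (by norm_num)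
      have h9 : |n 1| * |x 1| ≤ 1 / 8 * 1 := mul_le_mul h.2.le h1 (abs_nonneg _) (by norm_num)
      rw [abs_mul, abs_of_pos (by norm_num : (0 : ℝ) < 2)]
      linarith
    rw [Jd_eq]
    have := abs_sub_abs_le_abs_sub (n 2) (2 * (n 0 * x 0 + n 1 * x 1))
    linarith

theorem Bx_icc {x : E 2} (hx : x ∈ Bx) (i : Fin 2) : x i ∈ Icc (-1 : ℝ) 1 :=
  abs_le.1 (Bx_co hx i)

theorem Bx_vol : volume Bx ≤ 4 := by
  have h1 : volume Bx ≤ ∫⁻ x : E 2, (Icc (-1 : ℝ) 1).indicator 1 (x 0) *
      (Icc (-1 : ℝ) 1).indicator 1 (x 1) := by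
    rw [← lintegral_indicator_one Bx_meas]
    refine lintegral_mono fun x => ?_
    by_cases hx : x ∈ Bx
    · rw [indicator_of_mem hx, indicator_of_mem (Bx_icc hx 0),
        indicator_of_mem (Bx_icc hx 1)]
      simp
    · rw [indicator_of_notMem hx]
      exact zero_le
  refine h1.trans ?_
  have hm : Measurable ((Icc (-1 : ℝ) 1).indicator (1 : ℝ → ℝ≥0∞)) :=
    measurable_one.indicator measurableSet_Icc
  rw [qe_int]
  simp only [qe_zero, qe_one]
  rw [Measure.volume_eq_prod, lintegral_prod_mul hm.aemeasurable hm.aemeasurable,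
    lintegral_indicator_one measurableSet_Icc, Real.volume_Icc, ← ENNReal.ofReal_mul (by norm_num)]
  norm_num

/-- integrals of functions of `Jd n` over the unit ball -/
theorem J_int {n : E 3} (hn : ‖n‖ = 1) {σ : ℝ} (hσ : |σ| = 1) (ψ : ℝ → ℝ≥0∞) (hψ : Measurable ψ)
    {c : ℝ≥0∞} (hc : ∀ w, 1 / 4 ≤ |w| → ψ w ≤ c) :
    ∫⁻ x in Bx, ψ (σ * Jd n x) ≤ 8 * (∫⁻ w, ψ w) + 4 * c := by
  have hσ0 : σ ≠ 0 := by
    intro h
    rw [h, abs_zero] at hσ
    norm_num at hσ
  rcases cases_n hn with h | h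
  · refine le_trans ?_ le_self_add
    have hinv : ∀ a : ℝ, 1 / 8 ≤ |a| → ENNReal.ofReal (|-(σ * a)|⁻¹) ≤ 8 := by
      intro a ha
      have h1 : |-(σ * a)|⁻¹ ≤ 8 := by
        rw [abs_neg, abs_mul, hσ, one_mul]
        exact inv_le_of_inv_le₀ (by norm_num) (by linarith)
      refine (ENNReal.ofReal_le_ofReal h1).trans ?_
      norm_num
    rcases h with h | h
    · have hne : -(σ * n 0) ≠ 0 := by
        have : n 0 ≠ 0 := by
          intro h0
          rw [h0, abs_zero] at h
          norm_num at h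
        exact neg_ne_zero.2 (mul_ne_zero hσ0 this)
      have h2 := fib (-(σ * n 0)) (-(σ * n 1)) (-(σ * n 2)) hne ψ hψ
      calc ∫⁻ x in Bx, ψ (σ * Jd n x)
          ≤ ∫⁻ p : ℝ × ℝ, (Icc (-1 : ℝ) 1).indicator (fun y =>
              ψ (2 * -(σ * n 0) * p.1 + (2 * -(σ * n 1) * y - -(σ * n 2)))) p.2 := by
            rw [← lintegral_indicator Bx_meas, qe_int]
            refine lintegral_mono fun p => ?_
            by_cases hp : qe p ∈ Bx
            · have hp2 : p.2 ∈ Icc (-1 : ℝ) 1 := Bx_icc hp 1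
              rw [indicator_of_mem hp, indicator_of_mem hp2, Jd_eq, qe_zero, qe_one]
              refine le_of_eq (congrArg ψ ?_)
              ring
            · rw [indicator_of_notMem hp]
              exact zero_le
        _ = _ := h2
        _ ≤ _ := by
            gcongr
            exact hinv _ h
    · have hne : -(σ * n 1) ≠ 0 := by
        have : n 1 ≠ 0 := by
          intro h0
          rw [h0, abs_zero] at h
          norm_num at h
        exact neg_ne_zero.2 (mul_ne_zero hσ0 this)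
      have h2 := fib (-(σ * n 1)) (-(σ * n 0)) (-(σ * n 2)) hne ψ hψ
      have hsw := Measure.measurePreserving_swap (μ := (volume : Measure ℝ))
        (ν := (volume : Measure ℝ))
      calc ∫⁻ x in Bx, ψ (σ * Jd n x)
          ≤ ∫⁻ p : ℝ × ℝ, (Icc (-1 : ℝ) 1).indicator (fun y =>
              ψ (2 * -(σ * n 1) * p.1 + (2 * -(σ * n 0) * y - -(σ * n 2)))) p.2 := by
            rw [← lintegral_indicator Bx_meas, qe_int, Measure.volume_eq_prod,
              ← hsw.lintegral_comp_emb MeasurableEquiv.prodComm.measurableEmbedding]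
            refine lintegral_mono fun p => ?_
            by_cases hp : qe p.swap ∈ Bx
            · have hp2 : p.2 ∈ Icc (-1 : ℝ) 1 := Bx_icc hp 0
              rw [indicator_of_mem hp, indicator_of_mem hp2, Jd_eq, qe_zero, qe_one]
              refine le_of_eq (congrArg ψ ?_)
              show σ * (n 2 - 2 * (n 0 * p.2 + n 1 * p.1)) = _
              ring
            · rw [indicator_of_notMem hp]
              exact zero_le
        _ = _ := h2
        _ ≤ _ := by
            gcongr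
            exact hinv _ h
  · refine le_trans ?_ le_add_self
    calc ∫⁻ x in Bx, ψ (σ * Jd n x) ≤ ∫⁻ x in Bx, c := by
          refine setLIntegral_mono' Bx_meas fun x hx => hc _ ?_
          rw [abs_mul, hσ, one_mul]
          exact h x hx
      _ = c * volume Bx := setLIntegral_const _ _
      _ ≤ c * 4 := by
          gcongr
          exact Bx_vol
      _ = _ := mul_comm _ _

theorem J_small {n : E 3} (hn : ‖n‖ = 1) {lam : ℝ} (hl : 0 < lam) :
    volume (Bx ∩ {x | |Jd n x| ≤ lam}) ≤ ENNReal.ofReal (32 * lam) := by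
  set ψ : ℝ → ℝ≥0∞ := (Icc (-lam) lam).indicator 1 with hψ
  have hψm : Measurable ψ := measurable_one.indicator measurableSet_Icc
  set c : ℝ≥0∞ := ENNReal.ofReal (4 * lam) with hc
  have h1 := J_int hn (σ := 1) (by norm_num) ψ hψm (c := c) (by
    intro w hw
    by_cases hw1 : w ∈ Icc (-lam) lam
    · rw [hψ, indicator_of_mem hw1, Pi.one_apply, hc, ENNReal.one_le_ofReal]
      have := abs_le.2 hw1
      linarith
    · rw [hψ, indicator_of_notMem hw1]
      exact zero_le)
  have h2 : volume (Bx ∩ {x | |Jd n x| ≤ lam}) ≤ ∫⁻ x in Bx, ψ (1 * Jd n x) := by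
    have hm : MeasurableSet {x | |Jd n x| ≤ lam} :=
      measurableSet_le (Jd_meas n).abs measurable_const
    rw [inter_comm, ← Measure.restrict_apply hm, ← lintegral_indicator_one hm]
    refine lintegral_mono fun x => ?_
    rw [one_mul]
    by_cases hx : |Jd n x| ≤ lam
    · rw [indicator_of_mem (show x ∈ {x | |Jd n x| ≤ lam} from hx), hψ,
        indicator_of_mem (show Jd n x ∈ Icc (-lam) lam from abs_le.1 hx)]
      exact le_rfl
    · rw [indicator_of_notMem (show x ∉ {x | |Jd n x| ≤ lam} from hx)]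
      exact zero_le
  refine h2.trans (h1.trans (le_of_eq ?_))
  rw [hψ, lintegral_indicator_one measurableSet_Icc, Real.volume_Icc, hc]
  rw [show (8 : ℝ≥0∞) = ENNReal.ofReal 8 by norm_num, show (4 : ℝ≥0∞) = ENNReal.ofReal 4 by norm_num,
    ← ENNReal.ofReal_mul (by norm_num), ← ENNReal.ofReal_mul (by norm_num),
    ← ENNReal.ofReal_add (by linarith) (by linarith)]
  congr 1
  ring

/-! ### the pieces -/

/-- the piece of `f` where the normal component is large and has a fixed sign -/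
noncomputable def gs (f : E 2 → ℂ) (n : E 3) (lam σ : ℝ) (x : E 2) : ℂ :=
  {x | lam < σ * Jd n x}.indicator f x

/-- the piece of `f` where the normal component is small -/
noncomputable def g0 (f : E 2 → ℂ) (n : E 3) (lam : ℝ) (x : E 2) : ℂ :=
  {x | |Jd n x| ≤ lam}.indicator f x

theorem gs_set (n : E 3) (lam σ : ℝ) : MeasurableSet {x : E 2 | lam < σ * Jd n x} :=
  measurableSet_lt measurable_const ((Jd_meas n).const_mul _)

theorem g0_set (n : E 3) (lam : ℝ) : MeasurableSet {x : E 2 | |Jd n x| ≤ lam} :=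
  measurableSet_le (Jd_meas n).abs measurable_const

theorem gs_nice {M : ℝ} {f : E 2 → ℂ} (h : Nice M f) (n : E 3) (lam σ : ℝ) :
    Nice M (gs f n lam σ) where
  meas := h.meas.indicator (gs_set n lam σ)
  bd x := (norm_indicator_le_norm_self _ _).trans (h.bd x)
  supp x hx := by
    unfold gs
    by_cases hx1 : x ∈ {x | lam < σ * Jd n x}
    · rw [indicator_of_mem hx1]
      exact h.supp x hx
    · rw [indicator_of_notMem hx1]

theorem g0_nice {M : ℝ} {f : E 2 → ℂ} (h : Nice M f) (n : E 3) (lam : ℝ) :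
    Nice M (g0 f n lam) where
  meas := h.meas.indicator (g0_set n lam)
  bd x := (norm_indicator_le_norm_self _ _).trans (h.bd x)
  supp x hx := by
    unfold g0
    by_cases hx1 : x ∈ {x | |Jd n x| ≤ lam}
    · rw [indicator_of_mem hx1]
      exact h.supp x hx
    · rw [indicator_of_notMem hx1]

theorem g_sum (f : E 2 → ℂ) (n : E 3) (lam : ℝ) (hlam : 0 < lam) (x : E 2) :
    f x = g0 f n lam x + gs f n lam 1 x + gs f n lam (-1) x := by
  unfold g0 gs
  set J := Jd n x with hJ
  rcases le_or_gt |J| lam with h | h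
  · have h1 : x ∈ {x | |Jd n x| ≤ lam} := h
    have h2 : x ∉ {x | lam < 1 * Jd n x} := fun h3 => by
      have h4 : lam < 1 * J := h3
      rw [one_mul] at h4
      linarith [le_abs_self J]
    have h3 : x ∉ {x | lam < -1 * Jd n x} := fun h3 => by
      have h4 : lam < -1 * J := h3
      linarith [neg_le_abs J]
    rw [indicator_of_mem h1, indicator_of_notMem h2, indicator_of_notMem h3]
    ring
  · have h1 : x ∉ {x | |Jd n x| ≤ lam} := fun h3 => by
      have h4 : |J| ≤ lam := h3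
      linarith
    rcases le_or_gt 0 J with h0 | h0
    · rw [abs_of_nonneg h0] at h
      have h2 : x ∈ {x | lam < 1 * Jd n x} := by
        show lam < 1 * J
        linarith
      have h3 : x ∉ {x | lam < -1 * Jd n x} := fun h3 => by
        have h4 : lam < -1 * J := h3
        linarith
      rw [indicator_of_notMem h1, indicator_of_mem h2, indicator_of_notMem h3]
      ring
    · rw [abs_of_neg h0] at h
      have h2 : x ∉ {x | lam < 1 * Jd n x} := fun h3 => by
        have h4 : lam < 1 * J := h3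
        linarith
      have h3 : x ∈ {x | lam < -1 * Jd n x} := by
        show lam < -1 * J
        linarith
      rw [indicator_of_notMem h1, indicator_of_notMem h2, indicator_of_mem h3]
      ring

theorem slab_piece {n : E 3} (hn : ‖n‖ = 1) {η : ℝ} (hη : 0 < η) (hη1 : η < 1) {M : ℝ}
    {f : E 2 → ℂ} (h : Nice M f) {lam σ : ℝ} (hlam : 0 < lam) (hσ : |σ| = 1) {B : Set ℝ}
    (hB : MeasurableSet B) :
    ∫⁻ ξ : E 3, B.indicator 1 ⟪n, ξ⟫ * ‖Ex (gs f n lam σ) ξ‖ₑ ^ 2 ≤
      volume B * ENNReal.ofReal (M ^ 2 * lam ^ (-η) * (8 / η + 20)) := by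
  have hn0 : n ≠ 0 := by
    intro h0
    rw [h0, norm_zero] at hn
    norm_num at hn
  have hN := gs_nice h n lam σ
  have h1 := slabE n hn0 σ (B.indicator 1) (measurable_one.indicator hB)
    (gs f n lam σ) hN.integrable (fun x hx => by
      unfold gs
      rw [indicator_of_notMem]
      intro h2
      refine hx ?_
      show 0 < σ * ⟪n, Nn x⟫
      exact hlam.trans h2)
  rw [lintegral_indicator_one hB] at h1
  refine h1.trans ?_
  refine mul_le_mul_right ?_ _
  have h2 : ∀ x : E 2, ‖gs f n lam σ x‖ₑ ^ 2 / ENNReal.ofReal |⟪n, Nn x⟫| ≤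
      ENNReal.ofReal (M ^ 2 * lam ^ (-η)) *
        Bx.indicator (fun x => Gs η (σ * Jd n x) + 1) x := by
    intro x
    by_cases hx : gs f n lam σ x = 0
    · rw [hx]
      simp
    · have hmem : lam < σ * Jd n x := by
        by_contra h3
        refine hx ?_
        unfold gs
        rw [indicator_of_notMem]
        exact fun h4 => h3 h4
      have h5 : x ∈ Bx := by
        by_contra h6
        exact hx (hN.supp x (not_lt.1 h6))
      have h9 : |⟪n, Nn x⟫| = σ * Jd n x := by
        rw [← abs_of_pos (hlam.trans hmem), abs_mul, hσ, one_mul]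
        rfl
      rw [h9, indicator_of_mem h5]
      have h10 : ‖gs f n lam σ x‖ₑ ^ 2 ≤ ENNReal.ofReal (M ^ 2) := by
        rw [← ofReal_norm, ← ENNReal.ofReal_pow (norm_nonneg _)]
        exact ENNReal.ofReal_le_ofReal (pow_le_pow_left₀ (norm_nonneg _) (hN.bd x) 2)
      calc ‖gs f n lam σ x‖ₑ ^ 2 / ENNReal.ofReal (σ * Jd n x)
          = ‖gs f n lam σ x‖ₑ ^ 2 * (1 / ENNReal.ofReal (σ * Jd n x)) := by
            rw [div_eq_mul_inv, one_div]
        _ ≤ ENNReal.ofReal (M ^ 2) * (ENNReal.ofReal (lam ^ (-η)) *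
            (Gs η (σ * Jd n x) + 1)) :=
            mul_le_mul' h10 (ker_le η lam _ hη hη1 hlam hmem)
        _ = _ := by
            rw [ENNReal.ofReal_mul (by positivity), mul_assoc]
  refine (lintegral_mono h2).trans ?_
  rw [lintegral_const_mul' _ _ ENNReal.ofReal_ne_top, lintegral_indicator Bx_meas,
    ENNReal.ofReal_mul (by positivity) (p := M ^ 2 * lam ^ (-η))]
  refine mul_le_mul_right ?_ _
  have h3 := J_int hn hσ (Gs η) (Gs_meas η) (c := 4) (by
    intro w hw
    unfold Gs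
    by_cases hw1 : w ∈ Ioc (0 : ℝ) 1
    · rw [indicator_of_mem hw1]
      rw [abs_of_pos hw1.1] at hw
      have h4 : w ^ (η - 1) ≤ 4 := by
        calc w ^ (η - 1) ≤ (1 / 4 : ℝ) ^ (η - 1) :=
              Real.rpow_le_rpow_of_nonpos (by norm_num) hw (by linarith)
          _ = 4 ^ (1 - η) := by
              rw [one_div, Real.inv_rpow (by norm_num), ← Real.rpow_neg (by norm_num)]
              congr 1
              ring
          _ ≤ 4 ^ (1 : ℝ) := Real.rpow_le_rpow_of_exponent_le (by norm_num) (by linarith)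
          _ = 4 := Real.rpow_one 4
      refine (ENNReal.ofReal_le_ofReal h4).trans ?_
      norm_num
    · rw [indicator_of_notMem hw1]
      exact zero_le)
  calc ∫⁻ x in Bx, (Gs η (σ * Jd n x) + 1)
      = (∫⁻ x in Bx, Gs η (σ * Jd n x)) + volume Bx := by
        rw [lintegral_add_right _ measurable_const, setLIntegral_const, one_mul]
    _ ≤ (8 * (∫⁻ w, Gs η w) + 4 * 4) + 4 := add_le_add h3 Bx_vol
    _ = ENNReal.ofReal (8 / η + 20) := by
        rw [Gs_int η hη, show (8 : ℝ≥0∞) = ENNReal.ofReal 8 by norm_num,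
          show (4 : ℝ≥0∞) = ENNReal.ofReal 4 by norm_num, ← ENNReal.ofReal_mul (by norm_num),
          ← ENNReal.ofReal_mul (by norm_num), ← ENNReal.ofReal_add (by positivity) (by norm_num),
          ← ENNReal.ofReal_add (by positivity) (by norm_num)]
        congr 1
        ring

theorem g0_sup {n : E 3} (hn : ‖n‖ = 1) {M : ℝ} (hM : 0 ≤ M) {f : E 2 → ℂ} (h : Nice M f)
    {lam : ℝ} (hlam : 0 < lam) (ξ : E 3) :
    ‖Ex (g0 f n lam) ξ‖ₑ ≤ ENNReal.ofReal (M * (32 * lam)) := by
  have hN := g0_nice h n lam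
  unfold Ex
  refine (enorm_integral_le_lintegral_enorm _).trans ?_
  have h1 : ∀ x, ‖ee ⟪Phi x, ξ⟫ * g0 f n lam x‖ₑ ≤
      (Bx ∩ {x | |Jd n x| ≤ lam}).indicator (fun _ => ENNReal.ofReal M) x := by
    intro x
    rw [enorm_mul, ← ofReal_norm (ee _), ee_norm, ENNReal.ofReal_one, one_mul]
    by_cases hx : x ∈ Bx ∩ {x | |Jd n x| ≤ lam}
    · rw [indicator_of_mem hx, ← ofReal_norm]
      exact ENNReal.ofReal_le_ofReal (hN.bd x)
    · have : g0 f n lam x = 0 := by
        by_cases hx1 : x ∈ Bx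
        · unfold g0
          rw [indicator_of_notMem]
          exact fun h2 => hx ⟨hx1, h2⟩
        · exact hN.supp x (not_lt.1 hx1)
      rw [this, enorm_zero]
      exact zero_le
  refine (lintegral_mono h1).trans ?_
  rw [lintegral_indicator (Bx_meas.inter (g0_set n lam)), setLIntegral_const,
    ENNReal.ofReal_mul hM]
  gcongr
  exact J_small hn hlam

/-- **the slab estimate** for sets -/
theorem slabS {n : E 3} (hn : ‖n‖ = 1) {η : ℝ} (hη : 0 < η) (hη1 : η < 1) {M : ℝ} (hM : 0 ≤ M)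
    {f : E 2 → ℂ} (h : Nice M f) {lam : ℝ} (hlam : 0 < lam) {B : Set ℝ} (hB : MeasurableSet B)
    {G : Set (E 3)} (hG : MeasurableSet G) (hGB : ∀ ξ ∈ G, ⟪n, ξ⟫ ∈ B) :
    ∫⁻ ξ in G, ‖Ex f ξ‖ₑ ^ 2 ≤
      3 * (volume G * ENNReal.ofReal ((M * (32 * lam)) ^ 2) +
        volume B * ENNReal.ofReal (M ^ 2 * lam ^ (-η) * (8 / η + 20)) +
        volume B * ENNReal.ofReal (M ^ 2 * lam ^ (-η) * (8 / η + 20))) := by
  have hN0 := g0_nice h n lam
  have hN1 := gs_nice h n lam 1
  have hN2 := gs_nice h n lam (-1)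
  have hm0 : Measurable (Ex (g0 f n lam)) := Ex_meas _ hN0.integrable.1
  have hm1 : Measurable (Ex (gs f n lam 1)) := Ex_meas _ hN1.integrable.1
  have hm2 : Measurable (Ex (gs f n lam (-1))) := Ex_meas _ hN2.integrable.1
  have hpt : ∀ ξ, ‖Ex f ξ‖ₑ ^ 2 ≤ 3 * (‖Ex (g0 f n lam) ξ‖ₑ ^ 2 + ‖Ex (gs f n lam 1) ξ‖ₑ ^ 2 +
      ‖Ex (gs f n lam (-1)) ξ‖ₑ ^ 2) := by
    intro ξ
    rw [Ex_add3 f _ _ _ hN0.integrable hN1.integrable hN2.integrable (g_sum f n lam hlam) ξ]
    refine le_trans ?_ (sq3 _ _ _)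
    gcongr
    exact (enorm_add_le _ _).trans (by gcongr; exact enorm_add_le _ _)
  have hs : ∀ g : E 2 → ℂ, ∫⁻ ξ in G, ‖Ex g ξ‖ₑ ^ 2 ≤
      ∫⁻ ξ : E 3, B.indicator 1 ⟪n, ξ⟫ * ‖Ex g ξ‖ₑ ^ 2 := by
    intro g
    rw [← lintegral_indicator hG]
    refine lintegral_mono fun ξ => ?_
    by_cases hξ : ξ ∈ G
    · rw [indicator_of_mem hξ, indicator_of_mem (hGB ξ hξ), Pi.one_apply, one_mul]
    · rw [indicator_of_notMem hξ]
      exact zero_le
  calc ∫⁻ ξ in G, ‖Ex f ξ‖ₑ ^ 2
      ≤ ∫⁻ ξ in G, 3 * (‖Ex (g0 f n lam) ξ‖ₑ ^ 2 + ‖Ex (gs f n lam 1) ξ‖ₑ ^ 2 +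
        ‖Ex (gs f n lam (-1)) ξ‖ₑ ^ 2) := lintegral_mono hpt
    _ = 3 * ((∫⁻ ξ in G, ‖Ex (g0 f n lam) ξ‖ₑ ^ 2) + (∫⁻ ξ in G, ‖Ex (gs f n lam 1) ξ‖ₑ ^ 2) +
        ∫⁻ ξ in G, ‖Ex (gs f n lam (-1)) ξ‖ₑ ^ 2) := by
        rw [lintegral_const_mul' _ _ (by norm_num), lintegral_add_right _ (hm2.enorm.pow_const 2),
          lintegral_add_right _ (hm1.enorm.pow_const 2)]
    _ ≤ _ := by
        refine mul_le_mul_right (add_le_add (add_le_add ?_ ?_) ?_) _
        · calc ∫⁻ ξ in G, ‖Ex (g0 f n lam) ξ‖ₑ ^ 2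
              ≤ ∫⁻ _ in G, ENNReal.ofReal (M * (32 * lam)) ^ 2 := by
                refine lintegral_mono fun ξ => ?_
                gcongr
                exact g0_sup hn hM h hlam ξ
            _ = _ := by
                rw [setLIntegral_const, ENNReal.ofReal_pow (by positivity), mul_comm]
        · exact (hs _).trans (slab_piece hn hη hη1 h hlam (by norm_num) hB)
        · exact (hs _).trans (slab_piece hn hη hη1 h hlam (by norm_num) hB)

end Pool.Agent.J4.H87.Cy
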