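import Mathlib
import Pool.Agent.J4.H87.CyD
set_option autoImplicit false

/-! Cylinders: the double integral over the level sets. -/

namespace Pool.Agent.J4.H87.Cy

open MeasureTheory Complex Set Filter Topology
open scoped ENNReal RealInnerProductSpace ComplexConjugate
open Pool.Agent.R412.RT (E ee ee_norm ee_add ee_conj ee_meas Phi Nn Ex Ex_meas inner_eq)
open Pool.Agent.R412.RH (Nice layer2)

/-- the power `s^(-p)` on `(1, ∞)` -/
noncomputable def Lg (p s : ℝ) : ℝ≥0∞ := (Ioi (1 : ℝ)).indicator (fun s => ENNReal.ofReal (s ^ (-p))) s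

/-- the power `s^(-p)` on `(0, 1]` -/
noncomputable def Sm (p s : ℝ) : ℝ≥0∞ :=
  (Ioc (0 : ℝ) 1).indicator (fun s => ENNReal.ofReal (s ^ (-p))) s

theorem Lg_meas (p : ℝ) : Measurable (Lg p) := Measurable.indicator (by fun_prop) measurableSet_Ioi

theorem Sm_meas (p : ℝ) : Measurable (Sm p) := Measurable.indicator (by fun_prop) measurableSet_Ioc

theorem Lg_int {p : ℝ} (hp : 1 < p) : ∫⁻ s, Lg p s ≠ ∞ := by
  unfold Lg
  rw [lintegral_indicator measurableSet_Ioi]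
  have h1 : IntegrableOn (fun s : ℝ => s ^ (-p)) (Ioi 1) :=
    integrableOn_Ioi_rpow_of_lt (by linarith) zero_lt_one
  rw [← ofReal_integral_eq_lintegral_ofReal h1
    ((ae_restrict_mem measurableSet_Ioi).mono fun s hs => by
      have : (0 : ℝ) < s := lt_trans zero_lt_one hs
      show (0 : ℝ) ≤ s ^ (-p)
      positivity)]
  exact ENNReal.ofReal_ne_top

theorem Sm_int {p : ℝ} (hp : p < 1) : ∫⁻ s, Sm p s ≠ ∞ := by
  unfold Sm
  rw [lintegral_indicator measurableSet_Ioc]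
  have h1 : IntervalIntegrable (fun t : ℝ => t ^ (-p)) volume 0 1 :=
    intervalIntegral.intervalIntegrable_rpow' (by linarith)
  rw [intervalIntegrable_iff_integrableOn_Ioc_of_le zero_le_one] at h1
  rw [← ofReal_integral_eq_lintegral_ofReal h1
    ((ae_restrict_mem measurableSet_Ioc).mono fun s hs => by
      have : (0 : ℝ) < s := hs.1
      show (0 : ℝ) ≤ s ^ (-p)
      positivity)]
  exact ENNReal.ofReal_ne_top

/-- the geometric mean -/
theorem gmean {z D x y : ℝ≥0∞} (h1 : z ≤ D * x) (h2 : z ≤ D * y) {φ : ℝ} (h0 : 0 ≤ φ)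
    (h3 : φ ≤ 1) : z ≤ D * (x ^ φ * y ^ (1 - φ)) := by
  have e1 : ∀ a : ℝ≥0∞, a = a ^ φ * a ^ (1 - φ) := by
    intro a
    rw [← ENNReal.rpow_add_of_nonneg _ _ h0 (by linarith)]
    simp
  calc z = z ^ φ * z ^ (1 - φ) := e1 z
    _ ≤ (D * x) ^ φ * (D * y) ^ (1 - φ) := by
        gcongr
    _ = (D ^ φ * D ^ (1 - φ)) * (x ^ φ * y ^ (1 - φ)) := by
        rw [ENNReal.mul_rpow_of_nonneg _ _ h0, ENNReal.mul_rpow_of_nonneg _ _ (by linarith)]
        ring
    _ = _ := by rw [← e1 D]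

theorem rp {s a b : ℝ} (hs : 0 < s) (hb : 0 ≤ b) :
    ENNReal.ofReal (s ^ (-a)) ^ b = ENNReal.ofReal (s ^ (-(a * b))) := by
  rw [ENNReal.ofReal_rpow_of_nonneg (by positivity) hb, ← Real.rpow_mul hs.le]
  congr 2
  ring

theorem rpa {s a b : ℝ} (hs : 0 < s) :
    ENNReal.ofReal (s ^ (-a)) * ENNReal.ofReal (s ^ (-b)) = ENNReal.ofReal (s ^ (-(a + b))) := by
  rw [← ENNReal.ofReal_mul (by positivity), ← Real.rpow_add hs]
  congr 2
  ring

/-- **the double integral** -/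
theorem dbl {r : ℝ} (hr : 1 < r) (hr3 : r < 3) : ∃ C : ℝ≥0∞, C ≠ ∞ ∧ ∀ (Λ : ℝ → ℝ → ℝ≥0∞)
    (D : ℝ≥0∞),
    (∀ s t, 0 < s → 0 < t →
      Λ s t ≤ D * ENNReal.ofReal (s ^ (-(r * (1 / 2 + (3 - r) / 32))))) →
    (∀ s t, 0 < s → 0 < t → Λ s t ≤ D * (ENNReal.ofReal (s ^ (-r)) * ENNReal.ofReal (t ^ (-r)))) →
    (∀ s t, 0 < s → s ≤ 1 → 0 < t → Λ s t ≤
      D * (ENNReal.ofReal (s ^ (-(r * ((3 - r) / 16)))) * ENNReal.ofReal (t ^ (-r)))) →
    ∫⁻ s in Ioi (0 : ℝ), ∫⁻ t in Ioi (0 : ℝ), Λ s t ≤ D * C := by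
  set γ : ℝ := (3 - r) / 2 with hγ
  have hγ0 : 0 < γ := by rw [hγ]; linarith
  have hγ1 : γ < 1 := by rw [hγ]; linarith
  have hrγ : r = 3 - 2 * γ := by rw [hγ]; ring
  set ρ : ℝ := 1 / 2 + (3 - r) / 32 with hρ
  have hργ : ρ = 1 / 2 + γ / 16 := by rw [hρ, hγ]; ring
  set η : ℝ := (3 - r) / 16 with hη
  have hηγ : η = γ / 8 := by rw [hη, hγ]; ring
  have hr0 : 0 < r := by linarith
  -- the exponents
  set φ2 : ℝ := 3 / 2 * (1 - 1 / r) with hφ2
  have e2 : r * φ2 = 3 / 2 * (r - 1) := by rw [hφ2]; field_simp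
  have h20 : 0 ≤ φ2 := by
    have : 1 / r ≤ 1 := by rw [div_le_one hr0]; exact hr.le
    rw [hφ2]; linarith
  have h21 : φ2 ≤ 1 := by
    have h1 : r * φ2 ≤ r * 1 := by rw [e2]; linarith
    exact le_of_mul_le_mul_left h1 hr0
  set φ4 : ℝ := 1 - 1 / r + γ / (8 * r) with hφ4
  have e4 : r * φ4 = r - 1 + γ / 8 := by rw [hφ4]; field_simp
  have h40 : 0 ≤ φ4 := by
    have h1 : 0 ≤ r * φ4 := by rw [e4]; linarith
    exact (mul_nonneg_iff_of_pos_left hr0).1 h1
  have h41 : φ4 ≤ 1 := by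
    have h1 : r * φ4 ≤ r * 1 := by rw [e4]; linarith
    exact le_of_mul_le_mul_left h1 hr0
  set p2 : ℝ := r * ρ * φ2 + r * (1 - φ2) with hp2
  have p2gt : 1 < p2 := by
    have h1 : p2 = r - (1 - ρ) * (r * φ2) := by rw [hp2]; ring
    rw [h1, e2, hργ, hrγ]
    nlinarith
  set q2 : ℝ := r * (1 - φ2) with hq2
  have q2lt : q2 < 1 := by
    have h1 : q2 = r - r * φ2 := by rw [hq2]; ring
    rw [h1, e2]
    linarith
  set p4 : ℝ := r * ρ * φ4 + r * η * (1 - φ4) with hp4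
  have p4lt : p4 < 1 := by
    have h1 : p4 = ρ * (r * φ4) + η * (r - r * φ4) := by rw [hp4]; ring
    rw [h1, e4, hργ, hηγ, hrγ]
    nlinarith
  set q4 : ℝ := r * (1 - φ4) with hq4
  have q4lt : q4 < 1 := by
    have h1 : q4 = r - r * φ4 := by rw [hq4]; ring
    rw [h1, e4]
    linarith
  have hrη : r * η < 1 := by rw [hηγ, hrγ]; nlinarith
  set C : ℝ≥0∞ := (∫⁻ s, Lg r s) * (∫⁻ s, Lg r s) + (∫⁻ s, Lg p2 s) * (∫⁻ s, Sm q2 s) +
    (∫⁻ s, Sm (r * η) s) * (∫⁻ s, Lg r s) + (∫⁻ s, Sm p4 s) * (∫⁻ s, Sm q4 s) with hC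
  refine ⟨C, ?_, fun Λ D h1 h2 h3 => ?_⟩
  · rw [hC]
    refine ENNReal.add_ne_top.2 ⟨ENNReal.add_ne_top.2 ⟨ENNReal.add_ne_top.2 ⟨?_, ?_⟩, ?_⟩, ?_⟩
    · exact ENNReal.mul_ne_top (Lg_int hr) (Lg_int hr)
    · exact ENNReal.mul_ne_top (Lg_int p2gt) (Sm_int q2lt)
    · exact ENNReal.mul_ne_top (Sm_int hrη) (Lg_int hr)
    · exact ENNReal.mul_ne_top (Sm_int p4lt) (Sm_int q4lt)
  have key : ∀ s t : ℝ, 0 < s → 0 < t → Λ s t ≤ D * (Lg r s * Lg r t + Lg p2 s * Sm q2 t +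
      Sm (r * η) s * Lg r t + Sm p4 s * Sm q4 t) := by
    intro s t hs ht
    have hA := h1 s t hs ht
    have hB := h2 s t hs ht
    rcases le_or_gt s 1 with hs1 | hs1
    · have hC3 := h3 s t hs hs1 ht
      rcases le_or_gt t 1 with ht1 | ht1
      · have h5 := gmean hA hC3 h40 h41
        rw [ENNReal.mul_rpow_of_nonneg _ _ (by linarith : (0 : ℝ) ≤ 1 - φ4), rp hs h40,
          rp hs (by linarith : (0 : ℝ) ≤ 1 - φ4), rp ht (by linarith : (0 : ℝ) ≤ 1 - φ4),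
          ← mul_assoc (ENNReal.ofReal (s ^ (-(r * ρ * φ4)))), rpa hs] at h5
        refine h5.trans (mul_le_mul_right ?_ _)
        refine le_trans (le_of_eq ?_) le_add_self
        unfold Sm
        rw [indicator_of_mem (show s ∈ Ioc (0 : ℝ) 1 from ⟨hs, hs1⟩),
          indicator_of_mem (show t ∈ Ioc (0 : ℝ) 1 from ⟨ht, ht1⟩)]
      · refine hC3.trans (mul_le_mul_right ?_ _)
        refine le_trans (le_of_eq ?_) (le_add_self.trans le_self_add)
        unfold Sm Lg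
        rw [indicator_of_mem (show s ∈ Ioc (0 : ℝ) 1 from ⟨hs, hs1⟩),
          indicator_of_mem (show t ∈ Ioi (1 : ℝ) from ht1)]
    · rcases le_or_gt t 1 with ht1 | ht1
      · have h5 := gmean hA hB h20 h21
        rw [ENNReal.mul_rpow_of_nonneg _ _ (by linarith : (0 : ℝ) ≤ 1 - φ2), rp hs h20,
          rp hs (by linarith : (0 : ℝ) ≤ 1 - φ2), rp ht (by linarith : (0 : ℝ) ≤ 1 - φ2),
          ← mul_assoc (ENNReal.ofReal (s ^ (-(r * ρ * φ2)))), rpa hs] at h5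
        refine h5.trans (mul_le_mul_right ?_ _)
        refine le_trans (le_of_eq ?_) ((le_add_self.trans le_self_add).trans le_self_add)
        unfold Sm Lg
        rw [indicator_of_mem (show s ∈ Ioi (1 : ℝ) from hs1),
          indicator_of_mem (show t ∈ Ioc (0 : ℝ) 1 from ⟨ht, ht1⟩)]
      · refine hB.trans (mul_le_mul_right ?_ _)
        refine le_trans (le_of_eq ?_) ((le_self_add.trans le_self_add).trans le_self_add)
        unfold Lg
        rw [indicator_of_mem (show s ∈ Ioi (1 : ℝ) from hs1),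
          indicator_of_mem (show t ∈ Ioi (1 : ℝ) from ht1)]
  have hprod : ∀ a b : ℝ → ℝ≥0∞, Measurable a → Measurable b →
      ∫⁻ s, ∫⁻ t, a s * b t = (∫⁻ s, a s) * ∫⁻ t, b t := by
    intro a b ha hb
    have : ∀ s, ∫⁻ t, a s * b t = a s * ∫⁻ t, b t := fun s => lintegral_const_mul _ hb
    simp_rw [this]
    rw [lintegral_mul_const _ ha]
  have hm2 : ∀ a b : ℝ → ℝ≥0∞, Measurable a → Measurable b →
      Measurable fun s => ∫⁻ t, a s * b t := by
    intro a b ha hb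
    have : ∀ s, ∫⁻ t, a s * b t = a s * ∫⁻ t, b t := fun s => lintegral_const_mul _ hb
    simp_rw [this]
    exact ha.mul_const _
  calc ∫⁻ s in Ioi (0 : ℝ), ∫⁻ t in Ioi (0 : ℝ), Λ s t
      ≤ ∫⁻ s in Ioi (0 : ℝ), ∫⁻ t in Ioi (0 : ℝ), D * (Lg r s * Lg r t + Lg p2 s * Sm q2 t +
          Sm (r * η) s * Lg r t + Sm p4 s * Sm q4 t) := by
        refine setLIntegral_mono' measurableSet_Ioi fun s hs => ?_
        exact setLIntegral_mono' measurableSet_Ioi fun t ht => key s t hs ht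
    _ ≤ ∫⁻ s, ∫⁻ t, D * (Lg r s * Lg r t + Lg p2 s * Sm q2 t +
          Sm (r * η) s * Lg r t + Sm p4 s * Sm q4 t) := by
        refine (setLIntegral_le_lintegral _ _).trans (lintegral_mono fun s => ?_)
        exact setLIntegral_le_lintegral _ _
    _ = D * C := by
        have hin : ∀ s, ∫⁻ t, D * (Lg r s * Lg r t + Lg p2 s * Sm q2 t +
            Sm (r * η) s * Lg r t + Sm p4 s * Sm q4 t) = D * ((∫⁻ t, Lg r s * Lg r t) +
            (∫⁻ t, Lg p2 s * Sm q2 t) + (∫⁻ t, Sm (r * η) s * Lg r t) +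
            ∫⁻ t, Sm p4 s * Sm q4 t) := by
          intro s
          have m1 : Measurable fun t => Lg r s * Lg r t := (Lg_meas r).const_mul _
          have m2 : Measurable fun t => Lg p2 s * Sm q2 t := (Sm_meas q2).const_mul _
          have m3 : Measurable fun t => Sm (r * η) s * Lg r t := (Lg_meas r).const_mul _
          have m4 : Measurable fun t => Sm p4 s * Sm q4 t := (Sm_meas q4).const_mul _
          have h6 := lintegral_const_mul (μ := (volume : Measure ℝ)) D (((m1.add m2).add m3).add m4)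
          simp only [Pi.add_apply] at h6
          rw [h6]
          congr 1
          rw [lintegral_add_right _ m4, lintegral_add_right _ m3, lintegral_add_right _ m2]
        simp_rw [hin]
        have n1 := hm2 (Lg r) (Lg r) (Lg_meas r) (Lg_meas r)
        have n2 := hm2 (Lg p2) (Sm q2) (Lg_meas p2) (Sm_meas q2)
        have n3 := hm2 (Sm (r * η)) (Lg r) (Sm_meas _) (Lg_meas r)
        have n4 := hm2 (Sm p4) (Sm q4) (Sm_meas p4) (Sm_meas q4)
        have h6 := lintegral_const_mul (μ := (volume : Measure ℝ)) D (((n1.add n2).add n3).add n4)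
        simp only [Pi.add_apply] at h6
        rw [h6, lintegral_add_right _ n4, lintegral_add_right _ n3, lintegral_add_right _ n2,
          hprod _ _ (Lg_meas r) (Lg_meas r), hprod _ _ (Lg_meas p2) (Sm_meas q2),
          hprod _ _ (Sm_meas (r * η)) (Lg_meas r), hprod _ _ (Sm_meas p4) (Sm_meas q4)]

end Pool.Agent.J4.H87.Cy
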