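import Mathlib
import Pool.Agent.J4.H87.CyE
set_option autoImplicit false

/-! Cylinders: the theorems in orthonormal frames. -/

namespace Pool.Agent.J4.H87.Cy

open MeasureTheory Complex Set Filter Topology
open scoped ENNReal RealInnerProductSpace ComplexConjugate
open Pool.Agent.R412.RT (E ee ee_norm ee_add ee_conj ee_meas Phi Nn Ex Ex_meas inner_eq layer)
open Pool.Agent.R412.RH (Nice layer2)

variable (e : OrthonormalBasis (Fin 3) ℝ (E 3))

/-- the integral of a product weight -/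
theorem prod_int {n : E 3} (hn : ⟪e 2, n⟫ ≠ 0) (a : E 2 → ℝ≥0∞) (b : ℝ → ℝ≥0∞)
    (ha : Measurable a) (hb : Measurable b) :
    ∫⁻ ξ, a (se e ξ).2 * b ⟪n, ξ⟫ =
      ENNReal.ofReal (|⟪e 2, n⟫|⁻¹) * ((∫⁻ v, a v) * ∫⁻ t, b t) := by
  set κ : ℝ := ⟪e 2, n⟫ with hκ
  have h1 : ∀ ξ : E 3, a (se e ξ).2 * b ⟪n, ξ⟫ =
      (fun p : E 1 × E 2 => a p.2 * b (κ * p.1 0 + ⟪(se e n).2, p.2⟫)) (se e ξ) := by
    intro ξ
    simp only
    rw [se_inner e n ξ, inner_eq, Fin.sum_univ_one, se_fst e n]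
  have hm : Measurable fun p : E 1 × E 2 => a p.2 * b (κ * p.1 0 + ⟪(se e n).2, p.2⟫) := by
    refine (ha.comp measurable_snd).mul (hb.comp ?_)
    have h0 : Measurable fun p : E 1 × E 2 => p.1 0 := by fun_prop
    exact (h0.const_mul κ).add (measurable_const.inner measurable_snd)
  rw [lintegral_congr h1, (se_mp e).lintegral_comp_emb (se e).measurableEmbedding
    (fun p : E 1 × E 2 => a p.2 * b (κ * p.1 0 + ⟪(se e n).2, p.2⟫)), Measure.volume_eq_prod,
    lintegral_prod_symm _ hm.aemeasurable]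
  have h2 : ∀ v : E 2, ∫⁻ x : E 1, a v * b (κ * x 0 + ⟪(se e n).2, v⟫) =
      a v * (ENNReal.ofReal (|κ|⁻¹) * ∫⁻ t, b t) := by
    intro v
    have hbm : Measurable fun x : E 1 => b (κ * x 0 + ⟪(se e n).2, v⟫) := by
      refine hb.comp ?_
      have h0 : Measurable fun x : E 1 => x 0 := by fun_prop
      exact (h0.const_mul κ).add measurable_const
    rw [lintegral_const_mul _ hbm, ← lin_sub κ ⟪(se e n).2, v⟫ hn b hb]
    congr 1
    exact (q1_mp.lintegral_comp_emb q1.measurableEmbedding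
      (fun x : E 1 => b (κ * x 0 + ⟪(se e n).2, v⟫))).symm
  simp only [h2]
  rw [lintegral_mul_const _ ha]
  ring

theorem cheb {X : Type} [MeasurableSpace X] (μ : Measure X) {u : X → ℝ≥0∞} (hu : Measurable u)
    {r : ℝ} (hr : 0 < r) {c : ℝ} (h : ∫⁻ x, u x ^ r ∂μ ≤ ENNReal.ofReal c) {s : ℝ}
    (hs : 0 < s) : μ {x | ENNReal.ofReal s < u x} ≤ ENNReal.ofReal (c * s ^ (-r)) := by
  have h1 : {x | ENNReal.ofReal s < u x} ⊆ {x | ENNReal.ofReal (s ^ r) ≤ u x ^ r} := by
    intro x hx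
    show ENNReal.ofReal (s ^ r) ≤ u x ^ r
    rw [← ENNReal.ofReal_rpow_of_pos hs]
    exact ENNReal.rpow_le_rpow (le_of_lt hx) hr.le
  have hs0 : ENNReal.ofReal (s ^ r) ≠ 0 := by
    simp only [ne_eq, ENNReal.ofReal_eq_zero, not_le]
    positivity
  have h2 := meas_ge_le_lintegral_div (μ := μ) (hu.pow_const r).aemeasurable hs0
    ENNReal.ofReal_ne_top
  refine (measure_mono h1).trans (h2.trans ?_)
  rw [Real.rpow_neg hs.le, ← div_eq_mul_inv, ENNReal.ofReal_div_of_pos (by positivity)]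
  gcongr

theorem Ex_sup {M : ℝ} (hM : 0 ≤ M) {f : E 2 → ℂ} (h : Nice M f) (ξ : E 3) :
    ‖Ex f ξ‖ₑ ^ 2 ≤ ENNReal.ofReal (16 * M ^ 2) := by
  have h1 : ‖Ex f ξ‖ₑ ≤ ENNReal.ofReal (M * 4) := by
    unfold Ex
    refine (enorm_integral_le_lintegral_enorm _).trans ?_
    have h1 : ∀ x, ‖ee ⟪Phi x, ξ⟫ * f x‖ₑ ≤ Bx.indicator (fun _ => ENNReal.ofReal M) x := by
      intro x
      rw [enorm_mul, ← ofReal_norm (ee _), ee_norm, ENNReal.ofReal_one, one_mul]
      by_cases hx : x ∈ Bx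
      · rw [indicator_of_mem hx, ← ofReal_norm]
        exact ENNReal.ofReal_le_ofReal (h.bd x)
      · rw [h.supp x (not_lt.1 hx), enorm_zero]
        exact zero_le
    refine (lintegral_mono h1).trans ?_
    rw [lintegral_indicator Bx_meas, setLIntegral_const, ENNReal.ofReal_mul hM]
    gcongr
    refine Bx_vol.trans (le_of_eq ?_)
    norm_num
  calc ‖Ex f ξ‖ₑ ^ 2 ≤ ENNReal.ofReal (M * 4) ^ 2 := by gcongr
    _ = _ := by
        rw [← ENNReal.ofReal_pow (by positivity)]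
        congr 1
        ring

/-- the normalised theorem for products -/
theorem main0 {r : ℝ} (hr : 1 < r) (hr3 : r < 3) : ∃ C : ℝ≥0∞, C ≠ ∞ ∧
    ∀ (e : OrthonormalBasis (Fin 3) ℝ (E 3)) (n : E 3) (M : ℝ) (f : E 2 → ℂ) (u : E 2 → ℝ≥0∞)
      (w : ℝ → ℝ≥0∞), ‖n‖ = 1 → ⟪e 2, n⟫ ≠ 0 → 0 ≤ M → Nice M f → Measurable u → Measurable w →
      ∫⁻ v, u v ^ r ≤ ENNReal.ofReal |⟪e 2, n⟫| → ∫⁻ t, w t ^ r ≤ 1 →
      ∫⁻ ξ, u (se e ξ).2 * w ⟪n, ξ⟫ * ‖Ex f ξ‖ₑ ^ 2 ≤ C * ENNReal.ofReal (M ^ 2) := by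
  obtain ⟨C, hC, hdbl⟩ := dbl hr hr3
  have hr0 : 0 < r := by linarith
  set θ : ℝ := (3 - r) / 16 with hθ
  have hθ0 : 0 < θ := by rw [hθ]; linarith
  have hθ1 : θ < 1 := by rw [hθ]; linarith
  set η : ℝ := (3 - r) / 8 with hη
  have hη0 : 0 < η := by rw [hη]; linarith
  have hη1 : η < 1 := by rw [hη]; linarith
  set C0 : ℝ≥0∞ := 5 * Cθ θ + 16 + ENNReal.ofReal (3 * (1024 + 2 * (8 / η + 20))) with hC0
  have hC0t : C0 ≠ ∞ := by
    rw [hC0]
    refine ENNReal.add_ne_top.2 ⟨ENNReal.add_ne_top.2 ⟨?_, by norm_num⟩, ENNReal.ofReal_ne_top⟩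
    exact ENNReal.mul_ne_top (by norm_num) (Cθ_fin hθ0)
  refine ⟨C0 * C, ENNReal.mul_ne_top hC0t hC, fun e n M f u w hn hne hM hf hu hw hu1 hw1 => ?_⟩
  set κ : ℝ := |⟪e 2, n⟫| with hκ
  have hκ0 : 0 < κ := abs_pos.2 hne
  have hκ1 : κ ≤ 1 := by
    have h1 := abs_real_inner_le_norm (e 2) n
    rw [e.orthonormal.1 2, hn, one_mul] at h1
    exact h1
  have hEm : Measurable (Ex f) := Ex_meas f hf.integrable.1
  set U : E 3 → ℝ≥0∞ := fun ξ => u (se e ξ).2 with hU
  set V : E 3 → ℝ≥0∞ := fun ξ => w ⟪n, ξ⟫ with hV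
  have hUm : Measurable U := hu.comp (measurable_snd.comp (se e).measurable)
  have hVm : Measurable V := hw.comp (measurable_const.inner measurable_id)
  have hlay := layer2 (volume : Measure (E 3)) U V (fun ξ => ‖Ex f ξ‖ₑ ^ 2) hUm hVm
    (hEm.enorm.pow_const 2)
  show ∫⁻ ξ, U ξ * V ξ * ‖Ex f ξ‖ₑ ^ 2 ≤ _
  rw [hlay]
  set Λ : ℝ → ℝ → ℝ≥0∞ := fun s t =>
    ∫⁻ ξ in {ξ | ENNReal.ofReal s < U ξ ∧ ENNReal.ofReal t < V ξ}, ‖Ex f ξ‖ₑ ^ 2 with hΛ
  set D : ℝ≥0∞ := C0 * ENNReal.ofReal (M ^ 2) with hD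
  have hAm : ∀ s : ℝ, MeasurableSet {v | ENNReal.ofReal s < u v} := fun s =>
    measurableSet_lt measurable_const hu
  have hBm : ∀ t : ℝ, MeasurableSet {b | ENNReal.ofReal t < w b} := fun t =>
    measurableSet_lt measurable_const hw
  have hGm : ∀ s t : ℝ, MeasurableSet {ξ | ENNReal.ofReal s < U ξ ∧ ENNReal.ofReal t < V ξ} :=
    fun s t => (measurableSet_lt measurable_const hUm).inter (measurableSet_lt measurable_const hVm)
  have hA : ∀ s : ℝ, 0 < s → volume {v | ENNReal.ofReal s < u v} ≤ ENNReal.ofReal (κ * s ^ (-r)) :=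
    fun s hs => cheb volume hu hr0 hu1 hs
  have hB : ∀ t : ℝ, 0 < t → volume {b | ENNReal.ofReal t < w b} ≤ ENNReal.ofReal (t ^ (-r)) := by
    intro t ht
    have := cheb volume hw hr0 (c := 1) (by simpa using hw1) ht
    rwa [one_mul] at this
  have hG : ∀ s t : ℝ, 0 < s → 0 < t →
      volume {ξ | ENNReal.ofReal s < U ξ ∧ ENNReal.ofReal t < V ξ} ≤
        ENNReal.ofReal (s ^ (-r)) * ENNReal.ofReal (t ^ (-r)) := by
    intro s t hs ht
    have h1 : volume {ξ | ENNReal.ofReal s < U ξ ∧ ENNReal.ofReal t < V ξ} =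
        ∫⁻ ξ, {v | ENNReal.ofReal s < u v}.indicator 1 (se e ξ).2 *
          {b | ENNReal.ofReal t < w b}.indicator 1 ⟪n, ξ⟫ := by
      rw [← lintegral_indicator_one (hGm s t)]
      refine lintegral_congr fun ξ => ?_
      by_cases h1 : ENNReal.ofReal s < U ξ <;> by_cases h2 : ENNReal.ofReal t < V ξ
      · rw [indicator_of_mem (show ξ ∈ {ξ | ENNReal.ofReal s < U ξ ∧ ENNReal.ofReal t < V ξ}
          from ⟨h1, h2⟩), indicator_of_mem (show (se e ξ).2 ∈ {v | ENNReal.ofReal s < u v} from h1),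
          indicator_of_mem (show ⟪n, ξ⟫ ∈ {b | ENNReal.ofReal t < w b} from h2)]
        simp
      · rw [indicator_of_notMem (show ξ ∉ {ξ | ENNReal.ofReal s < U ξ ∧ ENNReal.ofReal t < V ξ}
          from fun h => h2 h.2),
          indicator_of_notMem (show ⟪n, ξ⟫ ∉ {b | ENNReal.ofReal t < w b} from h2), mul_zero]
      · rw [indicator_of_notMem (show ξ ∉ {ξ | ENNReal.ofReal s < U ξ ∧ ENNReal.ofReal t < V ξ}
          from fun h => h1 h.1),
          indicator_of_notMem (show (se e ξ).2 ∉ {v | ENNReal.ofReal s < u v} from h1), zero_mul]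
      · rw [indicator_of_notMem (show ξ ∉ {ξ | ENNReal.ofReal s < U ξ ∧ ENNReal.ofReal t < V ξ}
          from fun h => h1 h.1),
          indicator_of_notMem (show (se e ξ).2 ∉ {v | ENNReal.ofReal s < u v} from h1), zero_mul]
    rw [h1, prod_int e hne _ _ (measurable_one.indicator (hAm s)) (measurable_one.indicator (hBm t)),
      lintegral_indicator_one (hAm s), lintegral_indicator_one (hBm t)]
    calc ENNReal.ofReal (κ⁻¹) * (volume {v | ENNReal.ofReal s < u v} *
          volume {b | ENNReal.ofReal t < w b})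
        ≤ ENNReal.ofReal (κ⁻¹) * (ENNReal.ofReal (κ * s ^ (-r)) * ENNReal.ofReal (t ^ (-r))) := by
          gcongr
          · exact hA s hs
          · exact hB t ht
      _ = _ := by
          rw [← mul_assoc, ← ENNReal.ofReal_mul (by positivity), ← mul_assoc,
            inv_mul_cancel₀ hκ0.ne', one_mul]
  have hCle1 : 5 * Cθ θ ≤ C0 := by
    rw [hC0, add_assoc]
    exact le_self_add
  have hCle2 : (16 : ℝ≥0∞) ≤ C0 := by
    rw [hC0]
    exact le_add_self.trans le_self_add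
  have hCle3 : ENNReal.ofReal (3 * (1024 + 2 * (8 / η + 20))) ≤ C0 := by
    rw [hC0]
    exact le_add_self
  have b1 : ∀ s t, 0 < s → 0 < t →
      Λ s t ≤ D * ENNReal.ofReal (s ^ (-(r * (1 / 2 + (3 - r) / 32)))) := by
    intro s t hs ht
    have h1 := xray e hθ0 hθ1 hM hf (hAm s)
    calc Λ s t ≤ ∫⁻ ξ, {v | ENNReal.ofReal s < u v}.indicator 1 (se e ξ).2 * ‖Ex f ξ‖ₑ ^ 2 := by
          rw [hΛ]
          simp only
          rw [← lintegral_indicator (hGm s t)]
          refine lintegral_mono fun ξ => ?_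
          by_cases hξ : ξ ∈ {ξ | ENNReal.ofReal s < U ξ ∧ ENNReal.ofReal t < V ξ}
          · rw [indicator_of_mem hξ,
              indicator_of_mem (show (se e ξ).2 ∈ {v | ENNReal.ofReal s < u v} from hξ.1),
              Pi.one_apply, one_mul]
          · rw [indicator_of_notMem hξ]
            exact zero_le
      _ ≤ ENNReal.ofReal (M ^ 2) * (5 * Cθ θ * volume {v | ENNReal.ofReal s < u v} ^
          ((1 + θ) / 2)) := h1
      _ ≤ ENNReal.ofReal (M ^ 2) * (C0 * ENNReal.ofReal (s ^ (-r)) ^ ((1 + θ) / 2)) := by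
          gcongr
          refine (hA s hs).trans (ENNReal.ofReal_le_ofReal ?_)
          have : 0 ≤ s ^ (-r) := by positivity
          nlinarith
      _ = _ := by
          rw [rp hs (by positivity), hD]
          have : r * ((1 + θ) / 2) = r * (1 / 2 + (3 - r) / 32) := by rw [hθ]; ring
          rw [this]
          ring
  have b2 : ∀ s t, 0 < s → 0 < t →
      Λ s t ≤ D * (ENNReal.ofReal (s ^ (-r)) * ENNReal.ofReal (t ^ (-r))) := by
    intro s t hs ht
    calc Λ s t ≤ ∫⁻ _ in {ξ | ENNReal.ofReal s < U ξ ∧ ENNReal.ofReal t < V ξ},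
          ENNReal.ofReal (16 * M ^ 2) := lintegral_mono fun ξ => Ex_sup hM hf ξ
      _ = ENNReal.ofReal (16 * M ^ 2) *
          volume {ξ | ENNReal.ofReal s < U ξ ∧ ENNReal.ofReal t < V ξ} := setLIntegral_const _ _
      _ ≤ ENNReal.ofReal (16 * M ^ 2) *
          (ENNReal.ofReal (s ^ (-r)) * ENNReal.ofReal (t ^ (-r))) := by
          gcongr
          exact hG s t hs ht
      _ ≤ _ := by
          rw [hD]
          gcongr
          rw [ENNReal.ofReal_mul (by norm_num)]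
          gcongr
          refine le_trans (le_of_eq ?_) hCle2
          norm_num
  have b3 : ∀ s t, 0 < s → s ≤ 1 → 0 < t → Λ s t ≤
      D * (ENNReal.ofReal (s ^ (-(r * ((3 - r) / 16)))) * ENNReal.ofReal (t ^ (-r))) := by
    intro s t hs hs1 ht
    have hlam : 0 < s ^ (r / 2) := by positivity
    have h1 := slabS hn hη0 hη1 hM hf hlam (hBm t) (hGm s t) (fun ξ hξ => hξ.2)
    refine h1.trans ?_
    have e1 : (s ^ (r / 2)) ^ (-η) = s ^ (-(r * ((3 - r) / 16))) := by
      rw [← Real.rpow_mul hs.le]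
      congr 1
      rw [hη]; ring
    have e2 : (s ^ (r / 2)) ^ 2 = s ^ r := by
      rw [← Real.rpow_natCast, ← Real.rpow_mul hs.le]
      congr 1
      push_cast
      ring
    rw [e1]
    set σ : ℝ := s ^ (-(r * ((3 - r) / 16))) with hσ
    have hσ1 : 1 ≤ σ := Real.one_le_rpow_of_pos_of_le_one_of_nonpos hs hs1 (by nlinarith)
    have hsr : 0 < s ^ (-r) := by positivity
    have htr : 0 < t ^ (-r) := by positivity
    have f1 : volume {ξ | ENNReal.ofReal s < U ξ ∧ ENNReal.ofReal t < V ξ} *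
        ENNReal.ofReal ((M * (32 * s ^ (r / 2))) ^ 2) ≤
        ENNReal.ofReal (1024 * M ^ 2 * σ * t ^ (-r)) := by
      calc volume {ξ | ENNReal.ofReal s < U ξ ∧ ENNReal.ofReal t < V ξ} *
          ENNReal.ofReal ((M * (32 * s ^ (r / 2))) ^ 2)
          ≤ (ENNReal.ofReal (s ^ (-r)) * ENNReal.ofReal (t ^ (-r))) *
            ENNReal.ofReal ((M * (32 * s ^ (r / 2))) ^ 2) := by
            gcongr
            exact hG s t hs ht
        _ = ENNReal.ofReal (1024 * M ^ 2 * t ^ (-r)) := by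
            rw [← ENNReal.ofReal_mul (by positivity), ← ENNReal.ofReal_mul (by positivity)]
            congr 1
            rw [mul_pow, mul_pow, e2]
            have : s ^ (-r) * s ^ r = 1 := by
              rw [← Real.rpow_add hs]
              simp
            linear_combination (1024 * M ^ 2 * t ^ (-r)) * this
        _ ≤ _ := by
            refine ENNReal.ofReal_le_ofReal ?_
            have : 0 ≤ 1024 * M ^ 2 * t ^ (-r) := by positivity
            nlinarith
    have f2 : volume {b | ENNReal.ofReal t < w b} *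
        ENNReal.ofReal (M ^ 2 * σ * (8 / η + 20)) ≤
        ENNReal.ofReal ((8 / η + 20) * M ^ 2 * σ * t ^ (-r)) := by
      calc volume {b | ENNReal.ofReal t < w b} * ENNReal.ofReal (M ^ 2 * σ * (8 / η + 20))
          ≤ ENNReal.ofReal (t ^ (-r)) * ENNReal.ofReal (M ^ 2 * σ * (8 / η + 20)) := by
            gcongr
            exact hB t ht
        _ = _ := by
            rw [← ENNReal.ofReal_mul (by positivity)]
            congr 1
            ring
    calc 3 * (volume {ξ | ENNReal.ofReal s < U ξ ∧ ENNReal.ofReal t < V ξ} *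
          ENNReal.ofReal ((M * (32 * s ^ (r / 2))) ^ 2) +
          volume {b | ENNReal.ofReal t < w b} * ENNReal.ofReal (M ^ 2 * σ * (8 / η + 20)) +
          volume {b | ENNReal.ofReal t < w b} * ENNReal.ofReal (M ^ 2 * σ * (8 / η + 20)))
        ≤ 3 * (ENNReal.ofReal (1024 * M ^ 2 * σ * t ^ (-r)) +
          ENNReal.ofReal ((8 / η + 20) * M ^ 2 * σ * t ^ (-r)) +
          ENNReal.ofReal ((8 / η + 20) * M ^ 2 * σ * t ^ (-r))) := by gcongr
      _ = ENNReal.ofReal (3 * (1024 + 2 * (8 / η + 20))) * ENNReal.ofReal (M ^ 2) *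
          (ENNReal.ofReal σ * ENNReal.ofReal (t ^ (-r))) := by
          rw [show (3 : ℝ≥0∞) = ENNReal.ofReal 3 by norm_num,
            ← ENNReal.ofReal_add (by positivity) (by positivity),
            ← ENNReal.ofReal_add (by positivity) (by positivity),
            ← ENNReal.ofReal_mul (by positivity), ← ENNReal.ofReal_mul (by positivity),
            ← ENNReal.ofReal_mul (by positivity), ← ENNReal.ofReal_mul (by positivity)]
          congr 1
          ring
      _ ≤ _ := by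
          rw [hD]
          gcongr
  refine (hdbl Λ D b1 b2 b3).trans (le_of_eq ?_)
  rw [hD]
  ring

end Pool.Agent.J4.H87.Cy
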