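import Mathlib
import Pool.Agent.J4.H87.CyF
set_option autoImplicit false

/-! Cylinders: weights in orthonormal frames. -/

namespace Pool.Agent.J4.H87.Cy

open MeasureTheory Complex Set Filter Topology
open scoped ENNReal RealInnerProductSpace ComplexConjugate
open Pool.Agent.R412.RT (E ee ee_norm ee_add ee_conj ee_meas Phi Nn Ex Ex_meas inner_eq layer)
open Pool.Agent.R412.RH (Nice layer2 zero_fun)

theorem rpow_root {a r : ℝ} (ha : 0 < a) (hr : 0 < r) : ((a ^ (1 / r))⁻¹) ^ r = a⁻¹ := by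
  rw [Real.inv_rpow (by positivity), ← Real.rpow_mul ha.le, one_div_mul_cancel hr.ne',
    Real.rpow_one]

/-- the theorem for products, orthonormal frames and a unit vector -/
theorem main1 {r : ℝ} (hr : 1 < r) (hr3 : r < 3) : ∃ C : ℝ≥0∞, C ≠ ∞ ∧ C ≠ 0 ∧
    ∀ (e : OrthonormalBasis (Fin 3) ℝ (E 3)) (n : E 3) (M : ℝ) (f : E 2 → ℂ) (u : E 2 → ℝ≥0∞)
      (w : ℝ → ℝ≥0∞), ‖n‖ = 1 → ⟪e 2, n⟫ ≠ 0 → 0 ≤ M → Nice M f → Measurable u → Measurable w →
      ∫⁻ ξ, u (se e ξ).2 * w ⟪n, ξ⟫ * ‖Ex f ξ‖ₑ ^ 2 ≤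
        C * (∫⁻ ξ, (u (se e ξ).2 * w ⟪n, ξ⟫) ^ r) ^ (1 / r) * ENNReal.ofReal (M ^ 2) := by
  obtain ⟨C, hC, h⟩ := main0 hr hr3
  have hr0 : 0 < r := by linarith
  refine ⟨C + 1, ENNReal.add_ne_top.2 ⟨hC, ENNReal.one_ne_top⟩, by simp,
    fun e n M f u w hn hne hM hf hu hw => ?_⟩
  set κ : ℝ := |⟪e 2, n⟫| with hκ
  have hκ0 : 0 < κ := abs_pos.2 hne
  have hUm : Measurable fun ξ => u (se e ξ).2 := hu.comp (measurable_snd.comp (se e).measurable)
  have hVm : Measurable fun ξ : E 3 => w ⟪n, ξ⟫ := hw.comp (measurable_const.inner measurable_id)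
  have hEm : Measurable fun ξ => ‖Ex f ξ‖ₑ ^ 2 := (Ex_meas f hf.integrable.1).enorm.pow_const 2
  set a : ℝ≥0∞ := ∫⁻ v, u v ^ r with ha
  set b : ℝ≥0∞ := ∫⁻ t, w t ^ r with hb
  set N : ℝ≥0∞ := ∫⁻ ξ, (u (se e ξ).2 * w ⟪n, ξ⟫) ^ r with hN
  have hNab : N = ENNReal.ofReal (κ⁻¹) * (a * b) := by
    rw [hN, ← prod_int e hne (fun v => u v ^ r) (fun t => w t ^ r) (hu.pow_const r)
      (hw.pow_const r)]
    refine lintegral_congr fun ξ => ?_
    rw [ENNReal.mul_rpow_of_nonneg _ _ hr0.le]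
  have hκ1 : ENNReal.ofReal (κ⁻¹) ≠ 0 := by
    simp only [ne_eq, ENNReal.ofReal_eq_zero, not_le]
    positivity
  rcases eq_or_ne N 0 with hN0 | hN0
  · have hm1 : Measurable fun ξ => (u (se e ξ).2 * w ⟪n, ξ⟫) ^ r := (hUm.mul hVm).pow_const r
    have hm2 : Measurable fun ξ => u (se e ξ).2 * w ⟪n, ξ⟫ * ‖Ex f ξ‖ₑ ^ 2 :=
      (hUm.mul hVm).mul hEm
    have h1 : (fun ξ => (u (se e ξ).2 * w ⟪n, ξ⟫) ^ r) =ᵐ[volume] 0 := by
      rw [hN, lintegral_eq_zero_iff hm1] at hN0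
      exact hN0
    have h2 : ∫⁻ ξ, u (se e ξ).2 * w ⟪n, ξ⟫ * ‖Ex f ξ‖ₑ ^ 2 = 0 := by
      rw [lintegral_eq_zero_iff hm2]
      filter_upwards [h1] with ξ hξ
      simp only [Pi.zero_apply] at hξ ⊢
      rw [ENNReal.rpow_eq_zero_iff] at hξ
      rcases hξ with hξ | hξ
      · rw [hξ.1, zero_mul]
      · linarith [hξ.2]
    rw [h2]
    exact zero_le
  rcases eq_or_ne N ∞ with hNt | hNt
  · rcases eq_or_ne M 0 with hM0 | hM0
    · have hf0 : ∀ ξ, Ex f ξ = 0 := fun ξ => zero_fun hf hM0.le ξ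
      simp [hf0]
    · have hMp : ENNReal.ofReal (M ^ 2) ≠ 0 := by
        have : 0 < M := lt_of_le_of_ne hM (Ne.symm hM0)
        simp only [ne_eq, ENNReal.ofReal_eq_zero, not_le]
        positivity
      rw [hNt, ENNReal.top_rpow_of_pos (by positivity), ENNReal.mul_top (by simp),
        ENNReal.top_mul hMp]
      exact le_top
  have hab0 : a * b ≠ 0 := by
    intro h0
    rw [hNab, h0, mul_zero] at hN0
    exact hN0 rfl
  have habt : a * b ≠ ∞ := by
    intro h0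
    rw [hNab, h0, ENNReal.mul_top hκ1] at hNt
    exact hNt rfl
  have ha0 : a ≠ 0 := fun h0 => hab0 (by rw [h0, zero_mul])
  have hb0 : b ≠ 0 := fun h0 => hab0 (by rw [h0, mul_zero])
  have hat : a ≠ ∞ := fun h0 => habt (by rw [h0, ENNReal.top_mul hb0])
  have hbt : b ≠ ∞ := fun h0 => habt (by rw [h0, ENNReal.mul_top ha0])
  set a' : ℝ := a.toReal with ha'
  set b' : ℝ := b.toReal with hb'
  have ha'0 : 0 < a' := ENNReal.toReal_pos ha0 hat
  have hb'0 : 0 < b' := ENNReal.toReal_pos hb0 hbt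
  have haa : a = ENNReal.ofReal a' := (ENNReal.ofReal_toReal hat).symm
  have hbb : b = ENNReal.ofReal b' := (ENNReal.ofReal_toReal hbt).symm
  set s0 : ℝ := (a' / κ) ^ (1 / r) with hs0
  set t0 : ℝ := b' ^ (1 / r) with ht0
  have hs00 : 0 < s0 := by positivity
  have ht00 : 0 < t0 := by positivity
  set u' : E 2 → ℝ≥0∞ := fun v => ENNReal.ofReal (s0⁻¹) * u v with hu'
  set w' : ℝ → ℝ≥0∞ := fun t => ENNReal.ofReal (t0⁻¹) * w t with hw'
  have hu'i : ∫⁻ v, u' v ^ r ≤ ENNReal.ofReal κ := by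
    have e1 : ∀ v, u' v ^ r = ENNReal.ofReal (κ / a') * u v ^ r := by
      intro v
      rw [hu']
      simp only
      rw [ENNReal.mul_rpow_of_nonneg _ _ hr0.le, ENNReal.ofReal_rpow_of_nonneg (by positivity)
        hr0.le, hs0, rpow_root (by positivity) hr0, inv_div]
    simp_rw [e1]
    rw [lintegral_const_mul' _ _ ENNReal.ofReal_ne_top, ← ha, haa,
      ← ENNReal.ofReal_mul (by positivity), div_mul_cancel₀ _ ha'0.ne']
  have hw'i : ∫⁻ t, w' t ^ r ≤ 1 := by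
    have e1 : ∀ v, w' v ^ r = ENNReal.ofReal (b'⁻¹) * w v ^ r := by
      intro v
      rw [hw']
      simp only
      rw [ENNReal.mul_rpow_of_nonneg _ _ hr0.le, ENNReal.ofReal_rpow_of_nonneg (by positivity)
        hr0.le, ht0, rpow_root (by positivity) hr0]
    simp_rw [e1]
    rw [lintegral_const_mul' _ _ ENNReal.ofReal_ne_top, ← hb, hbb,
      ← ENNReal.ofReal_mul (by positivity), inv_mul_cancel₀ hb'0.ne', ENNReal.ofReal_one]
  have h1 := h e n M f u' w' hn hne hM hf (hu.const_mul _) (hw.const_mul _) hu'i hw'i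
  have e2 : ∀ ξ, u (se e ξ).2 * w ⟪n, ξ⟫ * ‖Ex f ξ‖ₑ ^ 2 =
      ENNReal.ofReal (s0 * t0) * (u' (se e ξ).2 * w' ⟪n, ξ⟫ * ‖Ex f ξ‖ₑ ^ 2) := by
    intro ξ
    rw [hu', hw']
    simp only
    have : ENNReal.ofReal (s0 * t0) * (ENNReal.ofReal (s0⁻¹) * ENNReal.ofReal (t0⁻¹)) = 1 := by
      rw [← ENNReal.ofReal_mul (by positivity), ← ENNReal.ofReal_mul (by positivity)]
      have : s0 * t0 * (s0⁻¹ * t0⁻¹) = 1 := by field_simp
      rw [this, ENNReal.ofReal_one]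
    calc u (se e ξ).2 * w ⟪n, ξ⟫ * ‖Ex f ξ‖ₑ ^ 2
        = 1 * (u (se e ξ).2 * w ⟪n, ξ⟫ * ‖Ex f ξ‖ₑ ^ 2) := (one_mul _).symm
      _ = _ := by
          rw [← this]
          ring
  have e3 : N ^ (1 / r) = ENNReal.ofReal (s0 * t0) := by
    rw [hNab, haa, hbb, ← ENNReal.ofReal_mul (by positivity), ← ENNReal.ofReal_mul (by positivity),
      ENNReal.ofReal_rpow_of_nonneg (by positivity) (by positivity), hs0, ht0,
      ← Real.mul_rpow (by positivity) (by positivity)]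
    congr 2
    field_simp
  rw [lintegral_congr e2, lintegral_const_mul' _ _ ENNReal.ofReal_ne_top, e3]
  calc ENNReal.ofReal (s0 * t0) * ∫⁻ ξ, u' (se e ξ).2 * w' ⟪n, ξ⟫ * ‖Ex f ξ‖ₑ ^ 2
      ≤ ENNReal.ofReal (s0 * t0) * (C * ENNReal.ofReal (M ^ 2)) := by gcongr
    _ ≤ ENNReal.ofReal (s0 * t0) * ((C + 1) * ENNReal.ofReal (M ^ 2)) := by
        gcongr
        exact le_self_add
    _ = _ := by ring

theorem layer1 {X : Type} [MeasurableSpace X] (μ : Measure X) [SFinite μ] (U G : X → ℝ≥0∞)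
    (hU : Measurable U) (hG : Measurable G) :
    ∫⁻ ξ, U ξ * G ξ ∂μ = ∫⁻ s in Ioi (0 : ℝ), ∫⁻ ξ,
      (if ENNReal.ofReal s < U ξ then 1 else 0) * G ξ ∂μ := by
  have hUm : Measurable fun q : ℝ × X => if ENNReal.ofReal q.1 < U q.2 then (1 : ℝ≥0∞) else 0 :=
    Measurable.ite (measurableSet_lt measurable_fst.ennreal_ofReal (hU.comp measurable_snd))
      measurable_const measurable_const
  have h1 : ∀ ξ, U ξ * G ξ = ∫⁻ s in Ioi (0 : ℝ), (if ENNReal.ofReal s < U ξ then 1 else 0) *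
      G ξ := by
    intro ξ
    have hm : Measurable fun s : ℝ => if ENNReal.ofReal s < U ξ then (1 : ℝ≥0∞) else 0 :=
      Measurable.ite (measurableSet_lt ENNReal.measurable_ofReal measurable_const)
        measurable_const measurable_const
    rw [lintegral_mul_const _ hm, ← layer]
  rw [lintegral_congr h1]
  refine lintegral_lintegral_swap ?_
  exact ((hUm.comp measurable_swap).mul (hG.comp measurable_fst)).aemeasurable

/-- the theorem for weights which depend on a planar projection -/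
theorem xw {r : ℝ} (hr : 1 < r) (hr2 : r < 2) : ∃ C : ℝ≥0∞, C ≠ ∞ ∧ C ≠ 0 ∧
    ∀ (e : OrthonormalBasis (Fin 3) ℝ (E 3)) (M : ℝ) (f : E 2 → ℂ) (u : E 2 → ℝ≥0∞),
      0 ≤ M → Nice M f → Measurable u →
      ∫⁻ ξ, u (se e ξ).2 * ‖Ex f ξ‖ₑ ^ 2 ≤
        C * (∫⁻ v, u v ^ r) ^ (1 / r) * ENNReal.ofReal (M ^ 2) := by
  have hr0 : 0 < r := by linarith
  set θ1 : ℝ := 1 / r with hθ1
  set θ2 : ℝ := 1 / r - 1 / 2 with hθ2
  have h10 : 0 < θ1 := by positivity
  have h11 : θ1 < 1 := by rw [hθ1, div_lt_one hr0]; exact hr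
  have h20 : 0 < θ2 := by
    have : 1 / 2 < 1 / r := by
      rw [div_lt_div_iff₀ (by norm_num) hr0]
      linarith
    rw [hθ2]; linarith
  have h21 : θ2 < 1 := by rw [hθ2]; linarith
  set p1 : ℝ := r * ((1 + θ1) / 2) with hp1
  have p1gt : 1 < p1 := by
    have : p1 = (r + 1) / 2 := by rw [hp1, hθ1]; field_simp
    rw [this]; linarith
  set p2 : ℝ := r * ((1 + θ2) / 2) with hp2
  have p2lt : p2 < 1 := by
    have : p2 = r / 4 + 1 / 2 := by rw [hp2, hθ2]; field_simp; ring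
    rw [this]; linarith
  set C : ℝ≥0∞ := 5 * Cθ θ1 * (∫⁻ s, Lg p1 s) + 5 * Cθ θ2 * (∫⁻ s, Sm p2 s) + 1 with hC
  have hCt : C ≠ ∞ := by
    rw [hC]
    refine ENNReal.add_ne_top.2 ⟨ENNReal.add_ne_top.2 ⟨?_, ?_⟩, ENNReal.one_ne_top⟩
    · exact ENNReal.mul_ne_top (ENNReal.mul_ne_top (by norm_num) (Cθ_fin h10)) (Lg_int p1gt)
    · exact ENNReal.mul_ne_top (ENNReal.mul_ne_top (by norm_num) (Cθ_fin h20)) (Sm_int p2lt)
  -- the normalised case
  have key : ∀ (e : OrthonormalBasis (Fin 3) ℝ (E 3)) (M : ℝ) (f : E 2 → ℂ) (u : E 2 → ℝ≥0∞),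
      0 ≤ M → Nice M f → Measurable u → ∫⁻ v, u v ^ r ≤ 1 →
      ∫⁻ ξ, u (se e ξ).2 * ‖Ex f ξ‖ₑ ^ 2 ≤ C * ENNReal.ofReal (M ^ 2) := by
    intro e M f u hM hf hu hu1
    have hEm : Measurable fun ξ => ‖Ex f ξ‖ₑ ^ 2 := (Ex_meas f hf.integrable.1).enorm.pow_const 2
    have hUm : Measurable fun ξ => u (se e ξ).2 := hu.comp (measurable_snd.comp (se e).measurable)
    have hA : ∀ s : ℝ, 0 < s → volume {v | ENNReal.ofReal s < u v} ≤ ENNReal.ofReal (s ^ (-r)) := by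
      intro s hs
      have := cheb volume hu hr0 (c := 1) (by simpa using hu1) hs
      rwa [one_mul] at this
    have hAm : ∀ s : ℝ, MeasurableSet {v | ENNReal.ofReal s < u v} := fun s =>
      measurableSet_lt measurable_const hu
    have hx : ∀ (θ : ℝ), 0 < θ → θ < 1 → ∀ s : ℝ, 0 < s →
        ∫⁻ ξ, (if ENNReal.ofReal s < u (se e ξ).2 then 1 else 0) * ‖Ex f ξ‖ₑ ^ 2 ≤
          ENNReal.ofReal (M ^ 2) * (5 * Cθ θ) * ENNReal.ofReal (s ^ (-(r * ((1 + θ) / 2)))) := by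
      intro θ hθ0 hθ1 s hs
      have h1 := xray e hθ0 hθ1 hM hf (hAm s)
      calc ∫⁻ ξ, (if ENNReal.ofReal s < u (se e ξ).2 then 1 else 0) * ‖Ex f ξ‖ₑ ^ 2
          = ∫⁻ ξ, {v | ENNReal.ofReal s < u v}.indicator 1 (se e ξ).2 * ‖Ex f ξ‖ₑ ^ 2 := by
            refine lintegral_congr fun ξ => ?_
            by_cases h : ENNReal.ofReal s < u (se e ξ).2
            · rw [if_pos h,
                indicator_of_mem (show (se e ξ).2 ∈ {v | ENNReal.ofReal s < u v} from h)]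
              rfl
            · rw [if_neg h,
                indicator_of_notMem (show (se e ξ).2 ∉ {v | ENNReal.ofReal s < u v} from h)]
        _ ≤ _ := h1
        _ ≤ ENNReal.ofReal (M ^ 2) * (5 * Cθ θ * ENNReal.ofReal (s ^ (-r)) ^ ((1 + θ) / 2)) := by
            gcongr
            exact hA s hs
        _ = _ := by
            rw [rp hs (by positivity)]
            ring
    calc ∫⁻ ξ, u (se e ξ).2 * ‖Ex f ξ‖ₑ ^ 2
        = ∫⁻ s in Ioi (0 : ℝ), ∫⁻ ξ, (if ENNReal.ofReal s < u (se e ξ).2 then 1 else 0) *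
            ‖Ex f ξ‖ₑ ^ 2 := layer1 volume _ _ hUm hEm
      _ ≤ ∫⁻ s in Ioi (0 : ℝ), ENNReal.ofReal (M ^ 2) * (5 * Cθ θ1 * Lg p1 s +
            5 * Cθ θ2 * Sm p2 s) := by
          refine setLIntegral_mono' measurableSet_Ioi fun s hs => ?_
          rcases le_or_gt s 1 with hs1 | hs1
          · refine (hx θ2 h20 h21 s hs).trans ?_
            rw [mul_assoc]
            refine mul_le_mul_right (le_trans (le_of_eq ?_) le_add_self) _
            unfold Sm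
            rw [indicator_of_mem (show s ∈ Ioc (0 : ℝ) 1 from ⟨hs, hs1⟩)]
          · refine (hx θ1 h10 h11 s hs).trans ?_
            rw [mul_assoc]
            refine mul_le_mul_right (le_trans (le_of_eq ?_) le_self_add) _
            unfold Lg
            rw [indicator_of_mem (show s ∈ Ioi (1 : ℝ) from hs1)]
      _ ≤ ∫⁻ s, ENNReal.ofReal (M ^ 2) * (5 * Cθ θ1 * Lg p1 s + 5 * Cθ θ2 * Sm p2 s) :=
          setLIntegral_le_lintegral _ _
      _ = ENNReal.ofReal (M ^ 2) * (5 * Cθ θ1 * (∫⁻ s, Lg p1 s) + 5 * Cθ θ2 * ∫⁻ s, Sm p2 s) := by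
          rw [lintegral_const_mul' _ _ ENNReal.ofReal_ne_top,
            lintegral_add_right _ ((Sm_meas p2).const_mul _), lintegral_const_mul _ (Lg_meas p1),
            lintegral_const_mul _ (Sm_meas p2)]
      _ ≤ _ := by
          rw [mul_comm, hC]
          exact mul_le_mul_left le_self_add _
  refine ⟨C, hCt, by rw [hC]; simp, fun e M f u hM hf hu => ?_⟩
  set a : ℝ≥0∞ := ∫⁻ v, u v ^ r with ha
  have hEm : Measurable fun ξ => ‖Ex f ξ‖ₑ ^ 2 := (Ex_meas f hf.integrable.1).enorm.pow_const 2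
  have hUm : Measurable fun ξ => u (se e ξ).2 := hu.comp (measurable_snd.comp (se e).measurable)
  rcases eq_or_ne a ∞ with hat | hat
  · rcases eq_or_ne M 0 with hM0 | hM0
    · have hf0 : ∀ ξ, Ex f ξ = 0 := fun ξ => zero_fun hf hM0.le ξ
      simp [hf0]
    · have hMp : ENNReal.ofReal (M ^ 2) ≠ 0 := by
        have : 0 < M := lt_of_le_of_ne hM (Ne.symm hM0)
        simp only [ne_eq, ENNReal.ofReal_eq_zero, not_le]
        positivity
      rw [hat, ENNReal.top_rpow_of_pos (by positivity), ENNReal.mul_top (by rw [hC]; simp),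
        ENNReal.top_mul hMp]
      exact le_top
  rcases eq_or_ne a 0 with ha0 | ha0
  · have h1 : ∀ᵐ v : E 2, u v = 0 := by
      rw [ha, lintegral_eq_zero_iff (hu.pow_const r)] at ha0
      filter_upwards [ha0] with v hv
      simp only [Pi.zero_apply] at hv
      rw [ENNReal.rpow_eq_zero_iff] at hv
      rcases hv with hv | hv
      · exact hv.1
      · linarith [hv.2]
    have h2 : ∀ᵐ ξ : E 3, u (se e ξ).2 = 0 := by
      have h3 : ∀ᵐ p : E 1 × E 2 ∂((volume : Measure (E 1)).prod (volume : Measure (E 2))),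
          u p.2 = 0 := Measure.quasiMeasurePreserving_snd.ae h1
      exact (se_mp e).quasiMeasurePreserving.ae h3
    have hm1 : Measurable fun ξ => u (se e ξ).2 * ‖Ex f ξ‖ₑ ^ 2 := hUm.mul hEm
    have h4 : ∫⁻ ξ, u (se e ξ).2 * ‖Ex f ξ‖ₑ ^ 2 = 0 := by
      rw [lintegral_eq_zero_iff hm1]
      filter_upwards [h2] with ξ hξ
      rw [Pi.zero_apply, hξ, zero_mul]
    rw [h4]
    exact zero_le
  set a' : ℝ := a.toReal with ha'
  have ha'0 : 0 < a' := ENNReal.toReal_pos ha0 hat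
  have haa : a = ENNReal.ofReal a' := (ENNReal.ofReal_toReal hat).symm
  set s0 : ℝ := a' ^ (1 / r) with hs0
  have hs00 : 0 < s0 := by positivity
  set u' : E 2 → ℝ≥0∞ := fun v => ENNReal.ofReal (s0⁻¹) * u v with hu'
  have hu'i : ∫⁻ v, u' v ^ r ≤ 1 := by
    have e1 : ∀ v, u' v ^ r = ENNReal.ofReal (a'⁻¹) * u v ^ r := by
      intro v
      rw [hu']
      simp only
      rw [ENNReal.mul_rpow_of_nonneg _ _ hr0.le, ENNReal.ofReal_rpow_of_nonneg (by positivity)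
        hr0.le, hs0, rpow_root ha'0 hr0]
    simp_rw [e1]
    rw [lintegral_const_mul' _ _ ENNReal.ofReal_ne_top, ← ha, haa,
      ← ENNReal.ofReal_mul (by positivity), inv_mul_cancel₀ ha'0.ne', ENNReal.ofReal_one]
  have h1 := key e M f u' hM hf (hu.const_mul _) hu'i
  have e2 : ∀ ξ, u (se e ξ).2 * ‖Ex f ξ‖ₑ ^ 2 =
      ENNReal.ofReal s0 * (u' (se e ξ).2 * ‖Ex f ξ‖ₑ ^ 2) := by
    intro ξ
    rw [hu']
    simp only
    have : ENNReal.ofReal s0 * ENNReal.ofReal (s0⁻¹) = 1 := by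
      rw [← ENNReal.ofReal_mul (by positivity), mul_inv_cancel₀ hs00.ne', ENNReal.ofReal_one]
    calc u (se e ξ).2 * ‖Ex f ξ‖ₑ ^ 2 = 1 * (u (se e ξ).2 * ‖Ex f ξ‖ₑ ^ 2) := (one_mul _).symm
      _ = _ := by
          rw [← this]
          ring
  have e3 : a ^ (1 / r) = ENNReal.ofReal s0 := by
    rw [haa, ENNReal.ofReal_rpow_of_nonneg (by positivity) (by positivity)]
  rw [lintegral_congr e2, lintegral_const_mul' _ _ ENNReal.ofReal_ne_top, e3]
  calc ENNReal.ofReal s0 * ∫⁻ ξ, u' (se e ξ).2 * ‖Ex f ξ‖ₑ ^ 2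
      ≤ ENNReal.ofReal s0 * (C * ENNReal.ofReal (M ^ 2)) := by gcongr
    _ = _ := by ring

end Pool.Agent.J4.H87.Cy
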