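import Mathlib
import Pool.Agent.J4.H87.CyG
set_option autoImplicit false

/-! Cylinders: arbitrary linear frames. -/

namespace Pool.Agent.J4.H87.Cy

open MeasureTheory Complex Set Filter Topology
open scoped ENNReal NNReal RealInnerProductSpace ComplexConjugate
open Pool.Agent.R412.RT (E ee ee_norm ee_add ee_conj ee_meas Phi Nn Ex Ex_meas inner_eq layer)
open Pool.Agent.R412.RH (Nice layer2 zero_fun)
open Pool.Agent.R412.RZ (ext cs cs_ne cs_abs scaleV ext_lint rep K0 K0_ne)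

theorem exists_e (v : Fin 3 → E 3) (hv : LinearIndependent ℝ v) :
    ∃ e : OrthonormalBasis (Fin 3) ℝ (E 3), ⟪v 0, e 2⟫ = 0 ∧ ⟪v 1, e 2⟫ = 0 ∧ ⟪e 2, v 2⟫ ≠ 0 := by
  set S : Submodule ℝ (E 3) := Submodule.span ℝ (Set.range ![v 0, v 1]) with hS
  have h1 : Module.finrank ℝ S ≤ 2 := by
    have := finrank_range_le_card (R := ℝ) ![v 0, v 1]
    simpa [Set.finrank] using this
  have h2 := S.finrank_add_finrank_orthogonal
  rw [finrank_euclideanSpace, Fintype.card_fin] at h2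
  have h3 : Sᗮ ≠ ⊥ := by
    intro h
    rw [h, finrank_bot] at h2
    omega
  obtain ⟨k, hk, hk0⟩ := Submodule.exists_mem_ne_zero_of_ne_bot h3
  obtain ⟨e0, he0⟩ := Pool.Agent.R412.RS.exists_frame k hk0
  have hnk : ‖k‖ ≠ 0 := norm_ne_zero_iff.2 hk0
  refine ⟨e0.reindex (Equiv.swap 0 2), ?_⟩
  have he2 : (e0.reindex (Equiv.swap 0 2)) 2 = e0 0 := by
    rw [OrthonormalBasis.reindex_apply]
    rfl
  have hin : ∀ x : E 3, ⟪x, k⟫ = 0 → ⟪x, e0 0⟫ = 0 := by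
    intro x hx
    rw [he0, real_inner_smul_right] at hx
    exact (mul_eq_zero.1 hx).resolve_left hnk
  have hmem : ∀ x ∈ S, ⟪x, k⟫ = 0 := fun x hx => (Submodule.mem_orthogonal S k).1 hk x hx
  have hv0 : v 0 ∈ S := Submodule.subset_span ⟨0, rfl⟩
  have hv1 : v 1 ∈ S := Submodule.subset_span ⟨1, rfl⟩
  rw [he2]
  refine ⟨hin _ (hmem _ hv0), hin _ (hmem _ hv1), fun h => ?_⟩
  refine hk0 (Pool.Agent.R412.RS.spans_of_li (n := 2) v hv k fun i => ?_)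
  fin_cases i
  · exact hmem _ hv0
  · exact hmem _ hv1
  · show ⟪v 2, k⟫ = 0
    rw [he0, real_inner_smul_right, real_inner_comm]
    rw [real_inner_comm] at h
    rw [real_inner_comm] at h
    rw [h, mul_zero]

/-- the product weight -/
noncomputable def Wt (v : Fin 3 → E 3) (u : ℝ × ℝ → ℝ≥0∞) (w : ℝ → ℝ≥0∞) (ξ : E 3) : ℝ≥0∞ :=
  u (⟪v 0, ξ⟫, ⟪v 1, ξ⟫) * w ⟪v 2, ξ⟫

theorem Wt_meas (v : Fin 3 → E 3) {u : ℝ × ℝ → ℝ≥0∞} {w : ℝ → ℝ≥0∞} (hu : Measurable u)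
    (hw : Measurable w) : Measurable (Wt v u w) := by
  unfold Wt
  have h0 : Measurable fun ξ : E 3 => (⟪v 0, ξ⟫, ⟪v 1, ξ⟫) := by fun_prop
  have h1 : Measurable fun ξ : E 3 => ⟪v 2, ξ⟫ := by fun_prop
  exact (hu.comp h0).mul (hw.comp h1)

theorem main2 {r : ℝ} (hr : 1 ≤ r) (hr3 : r < 3) : ∃ C : ℝ≥0∞, C ≠ ∞ ∧
    ∀ (v : Fin 3 → E 3) (M : ℝ) (f : E 2 → ℂ) (u : ℝ × ℝ → ℝ≥0∞)
      (w : ℝ → ℝ≥0∞), LinearIndependent ℝ v → 0 ≤ M → Nice M f → Measurable u → Measurable w →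
      ∫⁻ ξ, Wt v u w ξ * ‖Ex f ξ‖ₑ ^ 2 ≤
        C * (∫⁻ ξ, Wt v u w ξ ^ r) ^ (1 / r) * ENNReal.ofReal (M ^ 2) := by
  rcases eq_or_lt_of_le hr with hr1 | hr1
  · refine ⟨16, by norm_num, fun v M f u w hv hM hf hu hw => ?_⟩
    rw [← hr1]
    simp only [ENNReal.rpow_one, div_one]
    calc ∫⁻ ξ, Wt v u w ξ * ‖Ex f ξ‖ₑ ^ 2
        ≤ ∫⁻ ξ, Wt v u w ξ * ENNReal.ofReal (16 * M ^ 2) :=
          lintegral_mono fun ξ => mul_le_mul_right (Ex_sup hM hf ξ) _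
      _ = _ := by
          rw [lintegral_mul_const _ (Wt_meas v hu hw), ENNReal.ofReal_mul (by norm_num)]
          norm_num
          ring
  · obtain ⟨C, hC, -, h⟩ := main1 hr1 hr3
    refine ⟨C, hC, fun v M f u w hv hM hf hu hw => ?_⟩
    obtain ⟨e, he0, he1, he2⟩ := exists_e v hv
    have hv2 : v 2 ≠ 0 := by
      intro h0
      rw [h0, inner_zero_right] at he2
      exact he2 rfl
    have hnv : 0 < ‖v 2‖ := norm_pos_iff.2 hv2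
    set n : E 3 := ‖v 2‖⁻¹ • v 2 with hn
    have hn1 : ‖n‖ = 1 := by
      rw [hn, norm_smul, norm_inv, norm_norm, inv_mul_cancel₀ hnv.ne']
    have hne : ⟪e 2, n⟫ ≠ 0 := by
      rw [hn, real_inner_smul_right]
      exact mul_ne_zero (inv_ne_zero hnv.ne') he2
    set u' : E 2 → ℝ≥0∞ := fun x => u (⟪v 0, e 0⟫ * x 0 + ⟪v 0, e 1⟫ * x 1,
      ⟪v 1, e 0⟫ * x 0 + ⟪v 1, e 1⟫ * x 1) with hu'
    set w' : ℝ → ℝ≥0∞ := fun s => w (‖v 2‖ * s) with hw'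
    have hu'm : Measurable u' := hu.comp (by fun_prop)
    have hw'm : Measurable w' := hw.comp (measurable_const.mul measurable_id)
    have hW : ∀ ξ, Wt v u w ξ = u' (se e ξ).2 * w' ⟪n, ξ⟫ := by
      intro ξ
      unfold Wt
      rw [hu', hw']
      simp only
      rw [se_snd0, se_snd1]
      have e1 : ∀ x : E 3, ⟪x, e 2⟫ = 0 → ⟪x, ξ⟫ = ⟪x, e 0⟫ * ⟪e 0, ξ⟫ + ⟪x, e 1⟫ * ⟪e 1, ξ⟫ := by
        intro x hx
        rw [← e.sum_inner_mul_inner x ξ, Fin.sum_univ_three, hx, zero_mul, add_zero]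
      have e2 : ⟪v 2, ξ⟫ = ‖v 2‖ * ⟪n, ξ⟫ := by
        rw [hn, real_inner_smul_left, ← mul_assoc, mul_inv_cancel₀ hnv.ne', one_mul]
      rw [e1 _ he0, e1 _ he1, e2]
    have h1 := h e n M f u' w' hn1 hne hM hf hu'm hw'm
    simp only [← hW] at h1
    exact h1

/-- the product weight after scaling -/
theorem Wt_scale (v : Fin 3 → E 3) (u : ℝ × ℝ → ℝ≥0∞) (w : ℝ → ℝ≥0∞) (ξ : E 3) :
    Wt v u w (cs • ξ) = Wt v (fun p => u (cs • p)) (fun t => w (cs • t)) ξ := by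
  unfold Wt
  simp only [inner_smul_right, Prod.smul_mk, smul_eq_mul]

theorem finP {r : ℝ} (hr : 1 ≤ r) (hr3 : r < 3) : ∃ C : ℝ≥0, ∀ (U : Set (E 2)) (f : E 2 → ℂ)
    (v : Fin 3 → E 3) (u : ℝ × ℝ → ℝ≥0∞) (w : ℝ → ℝ≥0∞), MeasurableSet U →
    U ⊆ Metric.ball 0 (1 / 2) → MemLp f ∞ (volume.restrict U) → LinearIndependent ℝ v →
    Measurable u → Measurable w →
    ∫⁻ ξ, Wt v u w ξ * ‖ext U f ξ‖ₑ ^ 2 ≤
      C * (∫⁻ ξ, Wt v u w ξ ^ r) ^ (1 / r) * eLpNorm f ∞ (volume.restrict U) ^ 2 := by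
  obtain ⟨C, hC, h⟩ := main2 hr hr3
  refine ⟨(K0 * C).toNNReal, ?_⟩
  rw [ENNReal.coe_toNNReal (ENNReal.mul_ne_top K0_ne hC)]
  intro U f v u w hU hUb hf hv hu hw
  obtain ⟨g, hg, hgE⟩ := rep U hU hUb f hf
  set M : ℝ := (eLpNorm f ∞ (volume.restrict U)).toReal with hM
  have hMe : ENNReal.ofReal M = eLpNorm f ∞ (volume.restrict U) :=
    ENNReal.ofReal_toReal hf.2.ne
  rw [ext_lint U hU, hgE]
  have hum : Measurable fun p : ℝ × ℝ => u (cs • p) := hu.comp (measurable_const_smul cs)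
  have hwm : Measurable fun t : ℝ => w (cs • t) := hw.comp (measurable_const_smul cs)
  have h1 := h v M g (fun p => u (cs • p)) (fun t => w (cs • t)) hv ENNReal.toReal_nonneg hg hum hwm
  simp_rw [← Wt_scale] at h1
  have h2 : ∫⁻ ξ, Wt v u w (cs • ξ) ^ r ≤ ∫⁻ ξ, Wt v u w ξ ^ r :=
    scaleV (volume : Measure (E 3)) (fun ξ => Wt v u w ξ ^ r) ((Wt_meas v hu hw).pow_const r)
  have hr0 : 0 < r := by linarith
  calc ENNReal.ofReal ((2 * Real.pi) ^ 3) * ∫⁻ ξ, Wt v u w (cs • ξ) * ‖Ex g ξ‖ₑ ^ 2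
      ≤ K0 * (C * (∫⁻ ξ, Wt v u w (cs • ξ) ^ r) ^ (1 / r) * ENNReal.ofReal (M ^ 2)) :=
        mul_le_mul_right h1 _
    _ ≤ K0 * (C * (∫⁻ ξ, Wt v u w ξ ^ r) ^ (1 / r) * ENNReal.ofReal (M ^ 2)) := by
        gcongr
    _ = _ := by
        rw [ENNReal.ofReal_pow ENNReal.toReal_nonneg, hMe]
        ring

theorem finX {r : ℝ} (hr : 1 < r) (hr2 : r < 2) : ∃ C : ℝ≥0, ∀ (U : Set (E 2)) (f : E 2 → ℂ)
    (e : OrthonormalBasis (Fin 3) ℝ (E 3)) (u : ℝ × ℝ → ℝ≥0∞), MeasurableSet U →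
    U ⊆ Metric.ball 0 (1 / 2) → MemLp f ∞ (volume.restrict U) → Measurable u →
    ∫⁻ ξ, u (⟪e 0, ξ⟫, ⟪e 1, ξ⟫) * ‖ext U f ξ‖ₑ ^ 2 ≤
      C * (∫⁻ p, u p ^ r) ^ (1 / r) * eLpNorm f ∞ (volume.restrict U) ^ 2 := by
  obtain ⟨C, hC, -, h⟩ := xw hr hr2
  refine ⟨(K0 * C).toNNReal, ?_⟩
  rw [ENNReal.coe_toNNReal (ENNReal.mul_ne_top K0_ne hC)]
  intro U f e u hU hUb hf hu
  obtain ⟨g, hg, hgE⟩ := rep U hU hUb f hf
  set M : ℝ := (eLpNorm f ∞ (volume.restrict U)).toReal with hM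
  have hMe : ENNReal.ofReal M = eLpNorm f ∞ (volume.restrict U) :=
    ENNReal.ofReal_toReal hf.2.ne
  rw [ext_lint U hU, hgE]
  have hum : Measurable fun p : ℝ × ℝ => u (cs • p) := hu.comp (measurable_const_smul cs)
  have hr0 : 0 < r := by linarith
  have h1 := h e M g (fun x => u (cs • qe.symm x)) ENNReal.toReal_nonneg hg
    (hum.comp qe.symm.measurable)
  have e1 : ∀ ξ : E 3, u (⟪e 0, cs • ξ⟫, ⟪e 1, cs • ξ⟫) = u (cs • qe.symm (se e ξ).2) := by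
    intro ξ
    have : qe.symm (se e ξ).2 = (⟪e 0, ξ⟫, ⟪e 1, ξ⟫) := by
      rw [MeasurableEquiv.symm_apply_eq]
      ext i
      fin_cases i
      · exact se_snd0 e ξ
      · exact se_snd1 e ξ
    rw [this, inner_smul_right, inner_smul_right, Prod.smul_mk, smul_eq_mul, smul_eq_mul]
  have e2 : ∫⁻ x : E 2, u (cs • qe.symm x) ^ r = ∫⁻ p : ℝ × ℝ, u (cs • p) ^ r := by
    rw [qe_int]
    simp only [MeasurableEquiv.symm_apply_apply]
  have e3 : ∫⁻ p : ℝ × ℝ, u (cs • p) ^ r ≤ ∫⁻ p, u p ^ r :=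
    scaleV (volume : Measure (ℝ × ℝ)) (fun p => u p ^ r) (hu.pow_const r)
  simp_rw [e1]
  calc ENNReal.ofReal ((2 * Real.pi) ^ 3) * ∫⁻ ξ, u (cs • qe.symm (se e ξ).2) * ‖Ex g ξ‖ₑ ^ 2
      ≤ K0 * (C * (∫⁻ x : E 2, u (cs • qe.symm x) ^ r) ^ (1 / r) * ENNReal.ofReal (M ^ 2)) :=
        mul_le_mul_right h1 _
    _ ≤ K0 * (C * (∫⁻ p, u p ^ r) ^ (1 / r) * ENNReal.ofReal (M ^ 2)) := by
        rw [e2]
        gcongr
    _ = _ := by
        rw [ENNReal.ofReal_pow ENNReal.toReal_nonneg, hMe]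
        ring

/-- sets with a small shadow -/
theorem finS {q : ℝ} (hq : 3 < q) (hq4 : q < 4) (K : ℝ≥0) : ∃ C : ℝ≥0, ∀ (U : Set (E 2))
    (f : E 2 → ℂ) (e : OrthonormalBasis (Fin 3) ℝ (E 3)) (A : Set (ℝ × ℝ)) (G : Set (E 3)),
    MeasurableSet U → U ⊆ Metric.ball 0 (1 / 2) → MemLp f ∞ (volume.restrict U) →
    MeasurableSet A → MeasurableSet G → (∀ ξ ∈ G, (⟪e 0, ξ⟫, ⟪e 1, ξ⟫) ∈ A) →
    volume A ≤ K * volume G ^ (2 / 3 : ℝ) →
    ∫⁻ ξ in G, ‖ext U f ξ‖ₑ ^ 2 ≤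
      C * volume G ^ (1 - 2 / q) * eLpNorm f ∞ (volume.restrict U) ^ 2 := by
  set r : ℝ := 2 * q / (3 * (q - 2)) with hr
  have hq0 : 0 < q := by linarith
  have hq2 : 0 < 3 * (q - 2) := by linarith
  have hr1 : 1 < r := by
    rw [hr, lt_div_iff₀ hq2]
    linarith
  have hr2 : r < 2 := by
    rw [hr, div_lt_iff₀ hq2]
    linarith
  have hr0 : 0 < r := by linarith
  have hrq : 2 / 3 * (1 / r) = 1 - 2 / q := by
    rw [hr]
    field_simp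
  obtain ⟨C, h⟩ := finX hr1 hr2
  refine ⟨C * K ^ (1 / r), fun U f e A G hU hUb hf hA hG hGA hK => ?_⟩
  have h1 := h U f e (A.indicator 1) hU hUb hf (measurable_one.indicator hA)
  have h2 : ∫⁻ p, A.indicator (1 : ℝ × ℝ → ℝ≥0∞) p ^ r = volume A := by
    rw [← lintegral_indicator_one hA]
    refine lintegral_congr fun p => ?_
    by_cases hp : p ∈ A
    · rw [indicator_of_mem hp, Pi.one_apply, ENNReal.one_rpow]
    · rw [indicator_of_notMem hp, ENNReal.zero_rpow_of_pos hr0]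
  rw [h2] at h1
  calc ∫⁻ ξ in G, ‖ext U f ξ‖ₑ ^ 2
      ≤ ∫⁻ ξ, A.indicator 1 (⟪e 0, ξ⟫, ⟪e 1, ξ⟫) * ‖ext U f ξ‖ₑ ^ 2 := by
        rw [← lintegral_indicator hG]
        refine lintegral_mono fun ξ => ?_
        by_cases hξ : ξ ∈ G
        · rw [indicator_of_mem hξ, indicator_of_mem (hGA ξ hξ), Pi.one_apply, one_mul]
        · rw [indicator_of_notMem hξ]
          exact zero_le
    _ ≤ _ := h1
    _ ≤ C * (K * volume G ^ (2 / 3 : ℝ)) ^ (1 / r) * eLpNorm f ∞ (volume.restrict U) ^ 2 := by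
        gcongr
    _ = _ := by
        rw [ENNReal.mul_rpow_of_nonneg _ _ (by positivity), ← ENNReal.rpow_mul, hrq,
          ← ENNReal.coe_rpow_of_nonneg _ (by positivity), ENNReal.coe_mul]
        ring

end Pool.Agent.J4.H87.Cy
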