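import Pool.Agent.N526.CP.NULag

set_option autoImplicit false

/-! Hölder translates: identities for Jacobian determinants. -/

open MeasureTheory Set Filter Topology Metric
open scoped ENNReal NNReal ContDiff

namespace Pool.Agent.J4.H87.Hol

open H248.ID (pd jac)

variable {d : ℕ}

/-- the space of directions, with the maximum norm -/
abbrev V (d : ℕ) : Type := Fin d → ℝ

/-- The Jacobian determinant of `g` with row `i` replaced by the gradient of `h`. -/
noncomputable def dr (g : V d → V d) (i : Fin d) (h : V d → ℝ) (x : V d) : ℝ :=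
  ((jac g x).updateRow i (fun j => pd h j x)).det

/-- The Jacobian determinant. -/
noncomputable def dj (g : V d → V d) (x : V d) : ℝ := (jac g x).det

theorem pd_mul {u v : V d → ℝ} (hu : ContDiff ℝ ∞ u) (hv : ContDiff ℝ ∞ v) (j : Fin d) (x : V d) :
    pd (fun y => u y * v y) j x = u x * pd v j x + v x * pd u j x := by
  unfold pd
  have h1 := (hu.differentiable (by simp) x)
  have h2 := (hv.differentiable (by simp) x)
  have h3 : fderiv ℝ (fun y => u y * v y) x = u x • fderiv ℝ v x + v x • fderiv ℝ u x :=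
    fderiv_fun_mul h1 h2
  rw [h3]
  simp

theorem pd_comp {Ψ : V d → ℝ} (hΨ : ContDiff ℝ ∞ Ψ) {g : V d → V d} (hg : ContDiff ℝ ∞ g) (j : Fin d)
    (x : V d) : pd (fun y => Ψ (g y)) j x = ∑ k, pd Ψ k (g x) * jac g x k j := by
  have h1 := (hΨ.differentiable (by simp) (g x)).hasFDerivAt
  have h2 := (hg.differentiable (by simp) x).hasFDerivAt
  have h3 : fderiv ℝ (fun y => Ψ (g y)) x = (fderiv ℝ Ψ (g x)).comp (fderiv ℝ g x) := (h1.comp x h2).fderiv
  unfold pd
  rw [h3, ContinuousLinearMap.comp_apply]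
  set w : V d := fderiv ℝ g x (Pi.single j 1) with hw
  have h4 : w = ∑ k, w k • (Pi.single k (1 : ℝ) : V d) := by
    funext l
    simp [Finset.sum_apply, Pi.single_apply]
  have h5 : ∀ k, w k = jac g x k j := by
    intro k
    have h6 : HasFDerivAt (fun y => g y k) ((ContinuousLinearMap.proj k).comp (fderiv ℝ g x)) x :=
      (hasFDerivAt_pi'.1 h2) k
    show (fderiv ℝ g x (Pi.single j 1)) k = fderiv ℝ (fun y => g y k) x (Pi.single j 1)
    rw [h6.fderiv]
    rfl
  conv_lhs => rw [h4]
  rw [map_sum]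
  refine Finset.sum_congr rfl fun k _ => ?_
  rw [map_smul, smul_eq_mul, h5 k, mul_comm]

/-- product rule -/
theorem dr_mul (g : V d → V d) (i : Fin d) {u v : V d → ℝ} (hu : ContDiff ℝ ∞ u) (hv : ContDiff ℝ ∞ v)
    (x : V d) : dr g i (fun y => u y * v y) x = u x * dr g i v x + v x * dr g i u x := by
  unfold dr
  have h1 : (fun j => pd (fun y => u y * v y) j x) =
      u x • (fun j => pd v j x) + v x • (fun j => pd u j x) := by
    funext j
    rw [pd_mul hu hv]
    simp
  rw [h1, Matrix.det_updateRow_add, Matrix.det_updateRow_smul, Matrix.det_updateRow_smul]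

/-- chain rule -/
theorem dr_comp {g : V d → V d} (hg : ContDiff ℝ ∞ g) (i : Fin d) {Ψ : V d → ℝ} (hΨ : ContDiff ℝ ∞ Ψ)
    (x : V d) : dr g i (fun y => Ψ (g y)) x = pd Ψ i (g x) * dj g x := by
  unfold dr dj
  have h1 : (fun j => pd (fun y => Ψ (g y)) j x) =
      ∑ k, pd Ψ k (g x) • (jac g x) k := by
    funext j
    rw [pd_comp hΨ hg]
    simp [Finset.sum_apply]
  rw [h1, Matrix.det_updateRow_sum (jac g x) i (fun k => pd Ψ k (g x))]
  simp

theorem jac_entry_contDiff {g : V d → V d} (hg : ContDiff ℝ ∞ g) (i j : Fin d) :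
    ContDiff ℝ ∞ (fun x => jac g x i j) :=
  H248.ID.J01.pd_contDiff ((contDiff_pi.1 hg) i) j

theorem contDiff_det {A : V d → Matrix (Fin d) (Fin d) ℝ} (hA : ∀ i j, ContDiff ℝ ∞ fun x => A x i j) :
    ContDiff ℝ ∞ (fun x => (A x).det) := by
  simp only [Matrix.det_apply']
  refine ContDiff.sum fun σ _ => ContDiff.mul contDiff_const ?_
  exact contDiff_prod fun i _ => hA _ _

theorem dj_contDiff {g : V d → V d} (hg : ContDiff ℝ ∞ g) : ContDiff ℝ ∞ (dj g) :=
  contDiff_det fun i j => jac_entry_contDiff hg i j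

theorem dr_contDiff {g : V d → V d} (hg : ContDiff ℝ ∞ g) (i : Fin d) {h : V d → ℝ}
    (hh : ContDiff ℝ ∞ h) : ContDiff ℝ ∞ (dr g i h) := by
  refine contDiff_det fun k j => ?_
  by_cases hk : k = i
  · subst hk
    simp only [Matrix.updateRow_self]
    exact H248.ID.J01.pd_contDiff hh j
  · simp only [Matrix.updateRow_ne hk]
    exact jac_entry_contDiff hg k j

theorem pd_zero_of_nmem {h : V d → ℝ} {x : V d} (hx : x ∉ tsupport h) (j : Fin d) : pd h j x = 0 := by
  unfold pd
  rw [fderiv_of_notMem_tsupport (𝕜 := ℝ) hx]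
  rfl

/-- `dr g i h` vanishes off the support of `h`. -/
theorem dr_zero (g : V d → V d) (i : Fin d) {h : V d → ℝ} {x : V d} (hx : x ∉ tsupport h) :
    dr g i h x = 0 := by
  unfold dr
  refine Matrix.det_eq_zero_of_row_eq_zero i fun j => ?_
  rw [Matrix.updateRow_self, pd_zero_of_nmem hx]

theorem dr_compact {g : V d → V d} (i : Fin d) {h : V d → ℝ} (hc : HasCompactSupport h) :
    HasCompactSupport (dr g i h) :=
  HasCompactSupport.intro hc fun _ hx => dr_zero g i hx

theorem integrable_of {F : V d → ℝ} (h1 : Continuous F) (h2 : HasCompactSupport F) : Integrable F :=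
  h1.integrable_of_hasCompactSupport h2

/-- Integration by parts for Jacobian determinants. -/
theorem ibp {g : V d → V d} (hg : ContDiff ℝ ∞ g) (i : Fin d) {η F : V d → ℝ} (hη : ContDiff ℝ ∞ η)
    (hc : HasCompactSupport η) (hF : ContDiff ℝ ∞ F) :
    ∫ x, η x * dr g i F x = - ∫ x, F x * dr g i η x := by
  have h0 := H248.ID.J01.null_lagrangian hg (h := fun y => η y * F y) (hη.mul hF) hc.mul_right i
  have h1 : ∀ x, ((jac g x).updateRow i (fun j => pd (fun y => η y * F y) j x)).det =
      η x * dr g i F x + F x * dr g i η x := fun x => dr_mul g i hη hF x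
  simp only [h1] at h0
  have i1 : Integrable (fun x => η x * dr g i F x) :=
    integrable_of (hη.continuous.mul (dr_contDiff hg i hF).continuous) hc.mul_right
  have i2 : Integrable (fun x => F x * dr g i η x) :=
    integrable_of (hF.continuous.mul (dr_contDiff hg i hη).continuous) (dr_compact i hc).mul_left
  rw [integral_add i1 i2] at h0
  linarith

/-- Bound of a determinant by bounds of its rows. -/
theorem abs_det_le (A : Matrix (Fin d) (Fin d) ℝ) (r : Fin d → ℝ) (h : ∀ i j, |A i j| ≤ r i) :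
    |A.det| ≤ (d.factorial : ℝ) * ∏ i, r i := by
  rw [Matrix.det_apply']
  refine (Finset.abs_sum_le_sum_abs _ _).trans ?_
  have h1 : ∀ σ : Equiv.Perm (Fin d), |((Equiv.Perm.sign σ : ℤ) : ℝ) * ∏ i, A (σ i) i| ≤ ∏ i, r i := by
    intro σ
    rw [abs_mul]
    have h2 : |((Equiv.Perm.sign σ : ℤ) : ℝ)| = 1 := by
      rcases Int.units_eq_one_or (Equiv.Perm.sign σ) with h | h <;> rw [h] <;> simp
    rw [h2, one_mul, Finset.abs_prod]
    calc ∏ i, |A (σ i) i| ≤ ∏ i, r (σ i) :=
          Finset.prod_le_prod (fun i _ => abs_nonneg _) fun i _ => h _ _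
      _ = ∏ i, r i := Equiv.prod_comp σ r
  refine (Finset.sum_le_sum fun σ _ => h1 σ).trans (le_of_eq ?_)
  rw [Finset.sum_const, Finset.card_univ, Fintype.card_perm, Fintype.card_fin, nsmul_eq_mul]

theorem dr_le (g : V d → V d) (i : Fin d) (h : V d → ℝ) (x : V d) {L B : ℝ}
    (hL : ∀ k j, |jac g x k j| ≤ L) (hB : ∀ j, |pd h j x| ≤ B) :
    |dr g i h x| ≤ (d.factorial : ℝ) * (B * L ^ (d - 1)) := by
  have h1 := abs_det_le ((jac g x).updateRow i (fun j => pd h j x)) (fun k => if k = i then B else L) (by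
    intro k j
    by_cases hk : k = i
    · subst hk
      simp only [Matrix.updateRow_self, if_true]
      exact hB j
    · simp only [Matrix.updateRow_ne hk, if_neg hk]
      exact hL k j)
  refine h1.trans (le_of_eq ?_)
  congr 1
  rw [Finset.prod_ite, Finset.prod_const, Finset.prod_const]
  congr 1
  · have : (Finset.univ.filter fun k : Fin d => k = i) = {i} := by
      ext k; simp
    rw [this, Finset.card_singleton, pow_one]
  · have : (Finset.univ.filter fun k : Fin d => ¬ k = i) = Finset.univ.erase i := by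
      ext k; simp
    rw [this, Finset.card_erase_of_mem (Finset.mem_univ _), Finset.card_univ, Fintype.card_fin]

end Pool.Agent.J4.H87.Hol
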