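import Pool.Agent.J4.H87.HolA

set_option autoImplicit false

/-! Hölder translates: the Jacobian integral is small if the image is small. -/

open MeasureTheory Set Filter Topology Metric
open scoped ENNReal NNReal ContDiff

namespace Pool.Agent.J4.H87.Hol

open H248.ID (pd jac)

variable {d : ℕ}

/-- the sum of the boundary densities -/
noncomputable def Ds (g : V d → V d) (η : V d → ℝ) (x : V d) : ℝ := ∑ i, |dr g i η x|

theorem Ds_nonneg (g : V d → V d) (η : V d → ℝ) (x : V d) : 0 ≤ Ds g η x :=
  Finset.sum_nonneg fun _ _ => abs_nonneg _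

theorem Ds_cont {g : V d → V d} (hg : ContDiff ℝ ∞ g) {η : V d → ℝ} (hη : ContDiff ℝ ∞ η) :
    Continuous (Ds g η) :=
  continuous_finsetSum _ fun i _ => (dr_contDiff hg i hη).continuous.abs

theorem Ds_zero (g : V d → V d) {η : V d → ℝ} {x : V d} (hx : x ∉ tsupport η) : Ds g η x = 0 := by
  unfold Ds
  exact Finset.sum_eq_zero fun i _ => by rw [dr_zero g i hx, abs_zero]

theorem Ds_int {g : V d → V d} (hg : ContDiff ℝ ∞ g) {η : V d → ℝ} (hη : ContDiff ℝ ∞ η)
    (hc : HasCompactSupport η) : Integrable (Ds g η) :=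
  integrable_of (Ds_cont hg hη) (HasCompactSupport.intro hc fun _ hx => Ds_zero g hx)

theorem shift_contDiff {χ : V d → ℝ} (hχ : ContDiff ℝ ∞ χ) (w : V d) :
    ContDiff ℝ ∞ (fun y => χ (y - w)) := hχ.comp (contDiff_id.sub contDiff_const)

theorem pd_shift (χ : V d → ℝ) (w : V d) (i : Fin d) (y : V d) :
    pd (fun y => χ (y - w)) i y = pd χ i (y - w) := by
  unfold pd
  simp only [sub_eq_add_neg]
  rw [fderiv_comp_add_right]

/-- one direction -/
theorem one_dir {g : V d → V d} (hg : ContDiff ℝ ∞ g) {η χ : V d → ℝ} (hη : ContDiff ℝ ∞ η)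
    (hc : HasCompactSupport η) (hχ : ContDiff ℝ ∞ χ) (hχ0 : ∀ y, 0 ≤ χ y) {M : ℝ} (hM : 0 ≤ M)
    (u : V d) (hu : ‖u‖ ≤ 1) (hM0 : ∀ x ∈ tsupport η, χ (g x - M • u) = 0) :
    |∫ x, η x * (χ (g x) * dj g x)| ≤ ∫ s in (0 : ℝ)..M, ∫ x, Ds g η x * χ (g x - s • u) := by
  set K := tsupport η with hK
  have hKc : IsCompact K := hc
  -- the derivative along `u`
  have hder : ∀ (y : V d) (s : ℝ), HasDerivAt (fun s : ℝ => - χ (y - s • u))
      (∑ i, u i * pd χ i (y - s • u)) s := by
    intro y s
    have h1 : HasFDerivAt χ (fderiv ℝ χ (y - s • u)) (y - s • u) :=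
      (hχ.differentiable (by simp) _).hasFDerivAt
    have h2 : HasDerivAt (fun s : ℝ => y - s • u) (-u) s := by
      have := ((hasDerivAt_id s).smul_const u).const_sub y
      simpa using this
    have h3 := (h1.comp_hasDerivAt s h2).neg
    have h4 : u = ∑ i, u i • (Pi.single i (1 : ℝ) : V d) := by
      funext l
      simp [Finset.sum_apply, Pi.single_apply]
    refine h3.congr_deriv ?_
    rw [map_neg, neg_neg]
    conv_lhs => rw [h4]
    rw [map_sum]
    refine Finset.sum_congr rfl fun i _ => ?_
    rw [map_smul, smul_eq_mul]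
    rw [← h4]
    rfl
  have hpdc : ∀ i, Continuous (pd χ i) := fun i => (H248.ID.J01.pd_contDiff hχ i).continuous
  have hgc : Continuous g := hg.continuous
  have hcont : ∀ y : V d, Continuous fun s : ℝ => ∑ i, u i * pd χ i (y - s • u) := fun y =>
    continuous_finsetSum _ fun i _ => continuous_const.mul ((hpdc i).comp (by fun_prop))
  have hFTC : ∀ x ∈ K, χ (g x) = ∫ s in (0 : ℝ)..M, ∑ i, u i * pd χ i (g x - s • u) := by
    intro x hx
    rw [intervalIntegral.integral_eq_sub_of_hasDerivAt (fun s _ => hder (g x) s)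
      ((hcont (g x)).intervalIntegrable _ _), hM0 x hx]
    simp
  -- first form
  have e1 : ∫ x, η x * (χ (g x) * dj g x) =
      ∫ x in K, ∫ s in (0 : ℝ)..M, ∑ i, u i * (η x * (pd χ i (g x - s • u) * dj g x)) := by
    rw [← setIntegral_eq_integral_of_forall_compl_eq_zero (s := K)]
    · refine setIntegral_congr_fun hKc.isClosed.measurableSet fun x hx => ?_
      show η x * (χ (g x) * dj g x) = _
      have h2 : (fun s : ℝ => ∑ i, u i * (η x * (pd χ i (g x - s • u) * dj g x))) =
          fun s : ℝ => (η x * dj g x) * ∑ i, u i * pd χ i (g x - s • u) := by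
        funext s
        rw [Finset.mul_sum]
        exact Finset.sum_congr rfl fun i _ => by ring
      rw [h2, intervalIntegral.integral_const_mul, ← hFTC x hx]
      ring
    · intro x hx
      have : η x = 0 := image_eq_zero_of_notMem_tsupport hx
      rw [this, zero_mul]
  -- swap
  have hF : Continuous (Function.uncurry fun (x : V d) (s : ℝ) =>
      ∑ i, u i * (η x * (pd χ i (g x - s • u) * dj g x))) := by
    refine continuous_finsetSum _ fun i _ => continuous_const.mul ?_
    refine (hη.continuous.comp continuous_fst).mul (Continuous.mul ?_ ?_)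
    · exact (hpdc i).comp ((hgc.comp continuous_fst).sub (continuous_snd.smul continuous_const))
    · exact (dj_contDiff hg).continuous.comp continuous_fst
  have hswap : ∫ x in K, ∫ s in (0 : ℝ)..M, ∑ i, u i * (η x * (pd χ i (g x - s • u) * dj g x)) =
      ∫ s in (0 : ℝ)..M, ∫ x in K, ∑ i, u i * (η x * (pd χ i (g x - s • u) * dj g x)) := by
    simp only [intervalIntegral.integral_of_le hM]
    refine integral_integral_swap ?_
    rw [Measure.prod_restrict]
    refine (hF.continuousOn.integrableOn_compact
      (hKc.prod (isCompact_Icc (a := (0 : ℝ)) (b := M)))).mono_set ?_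
    exact prod_mono_right Ioc_subset_Icc_self
  have hin : ∀ s : ℝ, ∫ x in K, ∑ i, u i * (η x * (pd χ i (g x - s • u) * dj g x)) =
      - ∫ x, (∑ i, u i * dr g i η x) * χ (g x - s • u) := by
    intro s
    have hχs := shift_contDiff hχ (s • u)
    rw [setIntegral_eq_integral_of_forall_compl_eq_zero (fun x hx => by
      have : η x = 0 := image_eq_zero_of_notMem_tsupport hx
      refine Finset.sum_eq_zero fun i _ => ?_
      rw [this]; ring)]
    have h3 : ∀ i, ∫ x, η x * (pd χ i (g x - s • u) * dj g x) = - ∫ x, χ (g x - s • u) * dr g i η x := by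
      intro i
      have h4 := ibp hg i hη hc (F := fun x => χ (g x - s • u)) (hχs.comp hg)
      rw [← h4]
      refine integral_congr_ae (Eventually.of_forall fun x => ?_)
      show η x * (pd χ i (g x - s • u) * dj g x) = η x * dr g i (fun x => χ (g x - s • u)) x
      rw [dr_comp hg i (Ψ := fun y => χ (y - s • u)) hχs, pd_shift]
    have i1 : ∀ i, Integrable (fun x => η x * (pd χ i (g x - s • u) * dj g x)) := fun i =>
      integrable_of (hη.continuous.mul (((hpdc i).comp (by fun_prop)).mul
        (dj_contDiff hg).continuous)) hc.mul_right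
    have i2 : ∀ i, Integrable (fun x => χ (g x - s • u) * dr g i η x) := fun i =>
      integrable_of ((hχs.continuous.comp hgc).mul (dr_contDiff hg i hη).continuous)
        (dr_compact i hc).mul_left
    rw [integral_finsetSum _ fun i _ => (i1 i).const_mul (u i)]
    simp only [integral_const_mul, h3]
    have h5 : ∀ x, (∑ i, u i * dr g i η x) * χ (g x - s • u) =
        ∑ i, u i * (χ (g x - s • u) * dr g i η x) := by
      intro x
      rw [Finset.sum_mul]
      exact Finset.sum_congr rfl fun i _ => by ring
    simp only [h5]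
    rw [integral_finsetSum _ fun i _ => (i2 i).const_mul (u i)]
    simp only [integral_const_mul]
    rw [← Finset.sum_neg_distrib]
    exact Finset.sum_congr rfl fun i _ => by ring
  rw [e1, hswap]
  simp only [hin]
  -- bound
  have hb : ∀ s : ℝ, ‖- ∫ x, (∑ i, u i * dr g i η x) * χ (g x - s • u)‖ ≤
      ∫ x, Ds g η x * χ (g x - s • u) := by
    intro s
    rw [norm_neg]
    have hχs := shift_contDiff hχ (s • u)
    refine norm_integral_le_of_norm_le (integrable_of ((Ds_cont hg hη).mul (hχs.continuous.comp hgc))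
      (HasCompactSupport.intro hc fun x hx => by rw [Ds_zero g hx, zero_mul]))
      (Eventually.of_forall fun x => ?_)
    rw [norm_mul, Real.norm_of_nonneg (hχ0 _)]
    refine mul_le_mul_of_nonneg_right ?_ (hχ0 _)
    refine (norm_sum_le _ _).trans (Finset.sum_le_sum fun i _ => ?_)
    rw [norm_mul]
    have : ‖u i‖ ≤ 1 := (norm_le_pi_norm u i).trans hu
    calc ‖u i‖ * ‖dr g i η x‖ ≤ 1 * ‖dr g i η x‖ := by gcongr
      _ = |dr g i η x| := by rw [one_mul, Real.norm_eq_abs]
  have hcc : Continuous fun s : ℝ => ∫ x, Ds g η x * χ (g x - s • u) := by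
    have h6 : ∀ s : ℝ, ∫ x, Ds g η x * χ (g x - s • u) = ∫ x in K, Ds g η x * χ (g x - s • u) :=
      fun s => (setIntegral_eq_integral_of_forall_compl_eq_zero fun x hx => by
        rw [Ds_zero g hx, zero_mul]).symm
    simp only [h6]
    refine continuous_parametric_integral_of_continuous ?_ hKc
    refine Continuous.mul ((Ds_cont hg hη).comp continuous_snd) (hχ.continuous.comp ?_)
    exact (hgc.comp continuous_snd).sub (continuous_fst.smul continuous_const)
  rw [← Real.norm_eq_abs]
  exact intervalIntegral.norm_integral_le_of_norm_le hM (Eventually.of_forall fun s _ => hb s)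
    (hcc.intervalIntegrable _ _)

end Pool.Agent.J4.H87.Hol
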