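import Pool.Agent.J4.H87.HolB

set_option autoImplicit false

/-! Hölder translates: the average over the directions. -/

open MeasureTheory Set Filter Topology Metric
open scoped ENNReal NNReal ContDiff

namespace Pool.Agent.J4.H87.Hol

open H248.ID (pd jac)

variable {d : ℕ}

/-- the set of directions -/
def An (d : ℕ) : Set (V d) := closedBall 0 1 \ ball 0 (1 / 2)

theorem An_meas : MeasurableSet (An d) := measurableSet_closedBall.diff measurableSet_ball

theorem vol_An_le : volume (An d) ≤ ENNReal.ofReal (2 ^ d) := by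
  refine (measure_mono sdiff_subset).trans ?_
  rw [Real.volume_pi_closedBall _ (by norm_num : (0 : ℝ) ≤ 1)]
  simp

theorem one_le_vol_An (hd : 1 ≤ d) : 1 ≤ volume (An d) := by
  have h1 : volume (closedBall (0 : V d) 1) = ENNReal.ofReal (2 ^ d) := by
    rw [Real.volume_pi_closedBall _ (by norm_num : (0 : ℝ) ≤ 1)]
    simp
  have h2 : volume (ball (0 : V d) (1 / 2)) = 1 := by
    rw [Real.volume_pi_ball _ (by norm_num : (0 : ℝ) < 1 / 2)]
    simp
  unfold An
  rw [measure_sdiff (ball_subset_closedBall.trans (closedBall_subset_closedBall (by norm_num)))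
    measurableSet_ball.nullMeasurableSet (by rw [h2]; simp), h1, h2]
  have h3 : (2 : ℝ≥0∞) ≤ ENNReal.ofReal (2 ^ d) := by
    rw [ENNReal.ofReal_pow (by norm_num)]
    calc (2 : ℝ≥0∞) = ENNReal.ofReal 2 ^ 1 := by simp
      _ ≤ ENNReal.ofReal 2 ^ d := pow_le_pow_right₀ (by simp) hd
  calc (1 : ℝ≥0∞) = 2 - 1 := by
        rw [← one_add_one_eq_two, ENNReal.add_sub_cancel_right ENNReal.one_ne_top]
    _ ≤ _ := tsub_le_tsub_right h3 1

theorem inner_small {F : V d → ℝ≥0∞} (hF : ∀ y, F y ≤ 1) (y : V d) (s : ℝ) :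
    ∫⁻ u in An d, F (y - s • u) ≤ ENNReal.ofReal (2 ^ d) := by
  calc ∫⁻ u in An d, F (y - s • u) ≤ ∫⁻ _u in An d, 1 := lintegral_mono fun u => hF _
    _ = volume (An d) := by simp
    _ ≤ _ := vol_An_le

theorem inner_large {F : V d → ℝ≥0∞} {U : Set (V d)} (hU : MeasurableSet U)
    (hF : ∀ y, F y ≤ U.indicator (fun _ => (1 : ℝ≥0∞)) y) (y : V d) {s : ℝ} (hs : 0 < s) :
    ∫⁻ u in An d, F (y - s • u) ≤ ENNReal.ofReal ((s ^ d)⁻¹) * volume U := by
  have h1 : ∫⁻ u in An d, F (y - s • u) ≤ ∫⁻ u, U.indicator (fun _ => (1 : ℝ≥0∞)) (y - s • u) :=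
    (setLIntegral_le_lintegral _ _).trans (lintegral_mono fun u => hF _)
  refine h1.trans ?_
  have h2 : (fun u : V d => U.indicator (fun _ => (1 : ℝ≥0∞)) (y - s • u)) =
      ((fun u : V d => s • u) ⁻¹' ((fun w => y - w) ⁻¹' U)).indicator (fun _ => (1 : ℝ≥0∞)) := by
    funext u
    rfl
  have hm : MeasurableSet ((fun w : V d => y - w) ⁻¹' U) := (measurable_const.sub measurable_id) hU
  rw [h2, lintegral_indicator ((measurable_const_smul s) hm), setLIntegral_const, one_mul,
    Measure.addHaar_preimage_smul _ hs.ne']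
  have h3 : volume ((fun w : V d => y - w) ⁻¹' U) = volume U :=
    (Measure.measurePreserving_sub_left volume y).measure_preimage hU.nullMeasurableSet
  rw [h3]
  simp only [Module.finrank_fin_fun]
  rw [abs_of_pos (by positivity)]

/-- the field of the average -/
theorem field_le (hd : 2 ≤ d) {F : V d → ℝ≥0∞} {U : Set (V d)} (hU : MeasurableSet U)
    (hF : ∀ y, F y ≤ U.indicator (fun _ => (1 : ℝ≥0∞)) y) {R : ℝ} (hR : 0 < R)
    (hUR : volume U ≤ ENNReal.ofReal (R ^ d)) (y : V d) :
    ∫⁻ s in Ioi (0 : ℝ), ∫⁻ u in An d, F (y - s • u) ≤ ENNReal.ofReal ((2 ^ d + 1) * R) := by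
  have hF1 : ∀ y, F y ≤ 1 := fun y => (hF y).trans (indicator_le_self' (by simp) y |>.trans le_rfl)
  have hsplit : Ioi (0 : ℝ) = Ioc 0 R ∪ Ioi R := (Ioc_union_Ioi_eq_Ioi hR.le).symm
  rw [hsplit]
  refine (lintegral_union_le _ _ _).trans ?_
  have h1 : ∫⁻ s in Ioc (0 : ℝ) R, ∫⁻ u in An d, F (y - s • u) ≤ ENNReal.ofReal (2 ^ d * R) := by
    calc ∫⁻ s in Ioc (0 : ℝ) R, ∫⁻ u in An d, F (y - s • u)
        ≤ ∫⁻ _s in Ioc (0 : ℝ) R, ENNReal.ofReal (2 ^ d) := lintegral_mono fun s => inner_small hF1 y s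
      _ = ENNReal.ofReal (2 ^ d * R) := by
          rw [setLIntegral_const, Real.volume_Ioc, sub_zero, ← ENNReal.ofReal_mul (by positivity)]
  have h2 : ∫⁻ s in Ioi R, ∫⁻ u in An d, F (y - s • u) ≤ ENNReal.ofReal R := by
    have h3 : ∀ s ∈ Ioi R, ∫⁻ u in An d, F (y - s • u) ≤
        ENNReal.ofReal (s ^ (-(d : ℝ))) * ENNReal.ofReal (R ^ d) := by
      intro s hs
      have hs0 : 0 < s := hR.trans hs
      refine (inner_large hU hF y hs0).trans ?_
      rw [Real.rpow_neg hs0.le, Real.rpow_natCast]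
      gcongr
    have hd2 : -(d : ℝ) < -1 := by
      have : (2 : ℝ) ≤ d := by exact_mod_cast hd
      linarith
    calc ∫⁻ s in Ioi R, ∫⁻ u in An d, F (y - s • u)
        ≤ ∫⁻ s in Ioi R, ENNReal.ofReal (s ^ (-(d : ℝ))) * ENNReal.ofReal (R ^ d) :=
          setLIntegral_mono' measurableSet_Ioi h3
      _ = (∫⁻ s in Ioi R, ENNReal.ofReal (s ^ (-(d : ℝ)))) * ENNReal.ofReal (R ^ d) :=
          lintegral_mul_const' _ _ ENNReal.ofReal_ne_top
      _ = ENNReal.ofReal (∫ s in Ioi R, s ^ (-(d : ℝ))) * ENNReal.ofReal (R ^ d) := by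
          rw [ofReal_integral_eq_lintegral_ofReal (integrableOn_Ioi_rpow_of_lt hd2 hR)
            ((ae_restrict_iff' measurableSet_Ioi).2 (Eventually.of_forall fun s hs =>
              Real.rpow_nonneg (hR.trans hs).le _))]
      _ ≤ ENNReal.ofReal R := by
          rw [integral_Ioi_rpow_of_lt hd2 hR, ← ENNReal.ofReal_mul']
          · apply ENNReal.ofReal_le_ofReal
            have hd0 : (2 : ℝ) ≤ d := by exact_mod_cast hd
            have e1 : R ^ (-(d : ℝ) + 1) * R ^ d = R := by
              rw [← Real.rpow_natCast R d, ← Real.rpow_add hR]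
              have : -(d : ℝ) + 1 + d = 1 := by ring
              rw [this, Real.rpow_one]
            have e2 : -R ^ (-(d : ℝ) + 1) / (-(d : ℝ) + 1) * R ^ d = R / (d - 1) := by
              have : -R ^ (-(d : ℝ) + 1) / (-(d : ℝ) + 1) * R ^ d =
                  -(R ^ (-(d : ℝ) + 1) * R ^ d) / (-(d : ℝ) + 1) := by ring
              rw [this, e1]
              rw [← neg_div_neg_eq]
              congr 1 <;> ring
            rw [e2]
            exact div_le_self hR.le (by linarith)
          · positivity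
  calc _ ≤ ENNReal.ofReal (2 ^ d * R) + ENNReal.ofReal R := add_le_add h1 h2
    _ = ENNReal.ofReal ((2 ^ d + 1) * R) := by
        rw [← ENNReal.ofReal_add (by positivity) hR.le]
        congr 1
        ring

/-- **The Jacobian integral is small if the image is small.** -/
theorem key (hd : 2 ≤ d) {g : V d → V d} (hg : ContDiff ℝ ∞ g) {η χ : V d → ℝ} (hη : ContDiff ℝ ∞ η)
    (hc : HasCompactSupport η) (hχ : ContDiff ℝ ∞ χ) (hχ0 : ∀ y, 0 ≤ χ y)
    (hχc : HasCompactSupport χ) {U : Set (V d)} (hU : MeasurableSet U)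
    (hχU : ∀ y, χ y ≤ U.indicator (fun _ => (1 : ℝ)) y) {R : ℝ} (hR : 0 < R)
    (hUR : volume U ≤ ENNReal.ofReal (R ^ d)) :
    |∫ x, η x * (χ (g x) * dj g x)| ≤ (2 ^ d + 1) * R * ∫ x, Ds g η x := by
  set X : ℝ := |∫ x, η x * (χ (g x) * dj g x)| with hX
  -- bounds of the supports
  obtain ⟨M0, hM0⟩ := hχc.isBounded.exists_norm_le
  have hgb : ∃ M1, ∀ x ∈ tsupport η, ‖g x‖ ≤ M1 :=
    (IsCompact.image hc hg.continuous).isBounded.exists_norm_le.imp fun M hM x hx =>
      hM _ (mem_image_of_mem g hx)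
  obtain ⟨M1, hM1⟩ := hgb
  set M : ℝ := 2 * (|M0| + |M1| + 1) with hMd
  have hMpos : 0 < M := by positivity
  set F : V d → ℝ≥0∞ := fun y => ENNReal.ofReal (χ y) with hF
  have hFm : Measurable F := hχ.continuous.measurable.ennreal_ofReal
  have hFU : ∀ y, F y ≤ U.indicator (fun _ => (1 : ℝ≥0∞)) y := by
    intro y
    have := hχU y
    by_cases hy : y ∈ U
    · rw [indicator_of_mem hy] at this ⊢
      rw [hF, ← ENNReal.ofReal_one]
      exact ENNReal.ofReal_le_ofReal this
    · rw [indicator_of_notMem hy] at this ⊢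
      rw [hF]
      simp [this]
  set D : V d → ℝ≥0∞ := fun x => ENNReal.ofReal (Ds g η x) with hD
  have hDm : Measurable D := (Ds_cont hg hη).measurable.ennreal_ofReal
  have hone : ∀ u ∈ An d, ENNReal.ofReal X ≤ ∫⁻ x, D x * ∫⁻ s in Ioi (0 : ℝ), F (g x - s • u) := by
    intro u hu
    have hu1 : ‖u‖ ≤ 1 := by simpa using hu.1
    have hu2 : 1 / 2 ≤ ‖u‖ := by
      have := hu.2
      rw [mem_ball_zero_iff, not_lt] at this
      exact this
    have h0 : ∀ x ∈ tsupport η, χ (g x - M • u) = 0 := by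
      intro x hx
      by_contra hne
      have h1 := hM0 _ (subset_tsupport _ hne)
      have h2 : ‖M • u‖ ≤ ‖g x‖ + ‖g x - M • u‖ := by
        have := norm_sub_le (g x) (g x - M • u)
        rwa [sub_sub_cancel] at this
      rw [norm_smul, Real.norm_of_nonneg hMpos.le] at h2
      have h3 := hM1 x hx
      have h4 : M * (1 / 2) ≤ M * ‖u‖ := by gcongr
      have h5 := le_abs_self M0
      have h6 := le_abs_self M1
      have h7 : M * (1 / 2) = |M0| + |M1| + 1 := by rw [hMd]; ring
      linarith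
    have h1 := one_dir hg hη hc hχ hχ0 hMpos.le u hu1 h0
    have hcont2 : ∀ s : ℝ, Continuous fun x => Ds g η x * χ (g x - s • u) := fun s =>
      (Ds_cont hg hη).mul ((shift_contDiff hχ (s • u)).continuous.comp hg.continuous)
    have h2 : ∀ s : ℝ, ENNReal.ofReal (∫ x, Ds g η x * χ (g x - s • u)) =
        ∫⁻ x, D x * F (g x - s • u) := by
      intro s
      rw [ofReal_integral_eq_lintegral_ofReal]
      · refine lintegral_congr fun x => ?_
        rw [ENNReal.ofReal_mul (Ds_nonneg g η x)]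
      · exact integrable_of (hcont2 s) (HasCompactSupport.intro hc fun x hx => by
          rw [Ds_zero g hx, zero_mul])
      · exact Eventually.of_forall fun x => mul_nonneg (Ds_nonneg g η x) (hχ0 _)
    have hnn : ∀ s : ℝ, 0 ≤ ∫ x, Ds g η x * χ (g x - s • u) := fun s =>
      integral_nonneg fun x => mul_nonneg (Ds_nonneg g η x) (hχ0 _)
    calc ENNReal.ofReal X ≤ ENNReal.ofReal (∫ s in (0 : ℝ)..M, ∫ x, Ds g η x * χ (g x - s • u)) :=
          ENNReal.ofReal_le_ofReal h1
      _ ≤ ∫⁻ s in Ioc (0 : ℝ) M, ENNReal.ofReal (∫ x, Ds g η x * χ (g x - s • u)) := by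
          rw [intervalIntegral.integral_of_le hMpos.le]
          refine (ENNReal.ofReal_le_ofReal (le_abs_self _)).trans ?_
          rw [← Real.norm_eq_abs, ofReal_norm]
          refine (enorm_integral_le_lintegral_enorm _).trans (le_of_eq ?_)
          refine lintegral_congr fun s => ?_
          rw [Real.enorm_of_nonneg (hnn s)]
      _ ≤ ∫⁻ s in Ioi (0 : ℝ), ∫⁻ x, D x * F (g x - s • u) := by
          simp only [h2]
          exact lintegral_mono_set Ioc_subset_Ioi_self
      _ = ∫⁻ x, ∫⁻ s in Ioi (0 : ℝ), D x * F (g x - s • u) := by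
          refine lintegral_lintegral_swap (AEMeasurable.mono' ?_ (Measure.AbsolutelyContinuous.refl _))
          refine (Measurable.mul (hDm.comp measurable_snd) (hFm.comp ?_)).aemeasurable
          exact (hg.continuous.measurable.comp measurable_snd).sub
            (measurable_fst.smul measurable_const)
      _ = ∫⁻ x, D x * ∫⁻ s in Ioi (0 : ℝ), F (g x - s • u) := by
          refine lintegral_congr fun x => ?_
          rw [lintegral_const_mul]
          exact hFm.comp (measurable_const.sub (measurable_id.smul measurable_const))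
  -- average
  have hmeas3 : Measurable (Function.uncurry fun (u : V d) (x : V d) =>
      D x * ∫⁻ s in Ioi (0 : ℝ), F (g x - s • u)) := by
    refine Measurable.mul (hDm.comp measurable_snd) ?_
    refine Measurable.lintegral_prod_right' (f := fun q : (V d × V d) × ℝ => F (g q.1.2 - q.2 • q.1.1)) ?_
    refine hFm.comp ?_
    exact (hg.continuous.measurable.comp (measurable_snd.comp measurable_fst)).sub
      (measurable_snd.smul (measurable_fst.comp measurable_fst))
  have havg : ENNReal.ofReal X ≤ ∫⁻ x, D x * ENNReal.ofReal ((2 ^ d + 1) * R) := by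
    calc ENNReal.ofReal X ≤ ENNReal.ofReal X * volume (An d) := by
          calc ENNReal.ofReal X = ENNReal.ofReal X * 1 := (mul_one _).symm
            _ ≤ _ := by gcongr; exact one_le_vol_An (by omega)
      _ = ∫⁻ _u in An d, ENNReal.ofReal X := by rw [setLIntegral_const]
      _ ≤ ∫⁻ u in An d, ∫⁻ x, D x * ∫⁻ s in Ioi (0 : ℝ), F (g x - s • u) :=
          setLIntegral_mono' An_meas hone
      _ = ∫⁻ x, ∫⁻ u in An d, D x * ∫⁻ s in Ioi (0 : ℝ), F (g x - s • u) :=
          lintegral_lintegral_swap hmeas3.aemeasurable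
      _ = ∫⁻ x, D x * ∫⁻ u in An d, ∫⁻ s in Ioi (0 : ℝ), F (g x - s • u) := by
          refine lintegral_congr fun x => ?_
          rw [lintegral_const_mul' _ _ ENNReal.ofReal_ne_top]
      _ = ∫⁻ x, D x * ∫⁻ s in Ioi (0 : ℝ), ∫⁻ u in An d, F (g x - s • u) := by
          refine lintegral_congr fun x => ?_
          congr 1
          refine lintegral_lintegral_swap ?_
          refine (hFm.comp ?_).aemeasurable
          exact measurable_const.sub (measurable_snd.smul measurable_fst)
      _ ≤ _ := by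
          refine lintegral_mono fun x => ?_
          gcongr
          exact field_le hd hU hFU hR hUR (g x)
  rw [lintegral_mul_const' _ _ ENNReal.ofReal_ne_top] at havg
  have h5 : ∫⁻ x, D x = ENNReal.ofReal (∫ x, Ds g η x) := by
    rw [ofReal_integral_eq_lintegral_ofReal (Ds_int hg hη hc)
      (Eventually.of_forall fun x => Ds_nonneg g η x)]
  have h6 : 0 ≤ ∫ x, Ds g η x := integral_nonneg fun x => Ds_nonneg g η x
  rw [h5, ← ENNReal.ofReal_mul h6, ENNReal.ofReal_le_ofReal_iff (by positivity)] at havg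
  linarith

end Pool.Agent.J4.H87.Hol
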