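import Pool.Agent.J4.H87.HolC

set_option autoImplicit false

/-! Hölder translates: the Jacobian integral of two close maps. -/

open MeasureTheory Set Filter Topology Metric
open scoped ENNReal NNReal ContDiff

namespace Pool.Agent.J4.H87.Hol

open H248.ID (pd jac)

variable {d : ℕ}

/-- determinant as a continuous multilinear map of the rows -/
noncomputable def DD (m : ℕ) : ContinuousMultilinearMap ℝ (fun _ : Fin m => Fin m → ℝ) ℝ :=
  ⟨(Matrix.detRowAlternating (n := Fin m) (R := ℝ)).toMultilinearMap, by
    exact (continuous_id.matrix_det : Continuous fun v : Matrix (Fin m) (Fin m) ℝ => v.det)⟩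

theorem DD_eq {m : ℕ} (A : Matrix (Fin m) (Fin m) ℝ) : DD m A = A.det := rfl

theorem DD_der (A B : Fin d → Fin d → ℝ) (s : ℝ) :
    HasDerivAt (fun s : ℝ => DD d (A + s • B)) (∑ i, DD d (Function.update (A + s • B) i (B i))) s := by
  have h1 : HasDerivAt (fun s : ℝ => A + s • B) B s := by
    have := ((hasDerivAt_id s).smul_const B).const_add A
    simpa using this
  have h2 := ((DD d).hasFDerivAt (A + s • B)).comp_hasDerivAt s h1
  refine h2.congr_deriv ?_
  rw [ContinuousMultilinearMap.linearDeriv_apply]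

theorem det_der (A B : Matrix (Fin d) (Fin d) ℝ) (s : ℝ) :
    HasDerivAt (fun s : ℝ => (A + s • B).det) (∑ i, ((A + s • B).updateRow i (B i)).det) s :=
  DD_der A B s

/-- the segment -/
noncomputable def sg (g v : V d → V d) (s : ℝ) (x : V d) : V d := g x + s • v x

theorem sg_smooth {g v : V d → V d} (hg : ContDiff ℝ ∞ g) (hv : ContDiff ℝ ∞ v) (s : ℝ) :
    ContDiff ℝ ∞ (sg g v s) := hg.add (hv.const_smul s)

theorem jac_sg {g v : V d → V d} (hg : ContDiff ℝ ∞ g) (hv : ContDiff ℝ ∞ v) (s : ℝ) (x : V d) :
    jac (sg g v s) x = jac g x + s • jac v x := by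
  ext i j
  show fderiv ℝ (fun y => g y i + s * v y i) x (Pi.single j 1) = _
  have h1 : DifferentiableAt ℝ (fun y => g y i) x :=
    ((contDiff_pi.1 hg i).differentiable (by simp)) x
  have h2 : DifferentiableAt ℝ (fun y => v y i) x :=
    ((contDiff_pi.1 hv i).differentiable (by simp)) x
  rw [fderiv_fun_add h1 (h2.const_mul s), fderiv_const_mul h2]
  rfl

/-- the derivative of the integrand -/
noncomputable def Hs (g v : V d → V d) (χ : V d → ℝ) (x : V d) (s : ℝ) : ℝ :=
  (∑ i, v x i * pd χ i (sg g v s x)) * (jac g x + s • jac v x).det +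
    χ (sg g v s x) * ∑ i, ((jac g x + s • jac v x).updateRow i (jac v x i)).det

theorem der_integrand {g v : V d → V d} (hg : ContDiff ℝ ∞ g) (hv : ContDiff ℝ ∞ v) {χ : V d → ℝ}
    (hχ : ContDiff ℝ ∞ χ) (x : V d) (s : ℝ) :
    HasDerivAt (fun s => χ (sg g v s x) * dj (sg g v s) x) (Hs g v χ x s) s := by
  have h1 : HasDerivAt (fun s : ℝ => sg g v s x) (v x) s := by
    have := ((hasDerivAt_id s).smul_const (v x)).const_add (g x)
    simpa [sg] using this
  have h2 : HasFDerivAt χ (fderiv ℝ χ (sg g v s x)) (sg g v s x) :=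
    (hχ.differentiable (by simp) _).hasFDerivAt
  have h3 : HasDerivAt (fun s : ℝ => χ (sg g v s x)) (∑ i, v x i * pd χ i (sg g v s x)) s := by
    refine (h2.comp_hasDerivAt s h1).congr_deriv ?_
    have h4 : v x = ∑ i, v x i • (Pi.single i (1 : ℝ) : V d) := by
      funext l
      simp [Finset.sum_apply, Pi.single_apply]
    conv_lhs => rw [h4]
    rw [map_sum]
    refine Finset.sum_congr rfl fun i _ => ?_
    rw [map_smul, smul_eq_mul]
    rfl
  have h5 : (fun s => dj (sg g v s) x) = fun s : ℝ => (jac g x + s • jac v x).det := by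
    funext s
    unfold dj
    rw [jac_sg hg hv]
  have h6 : HasDerivAt (fun s => dj (sg g v s) x)
      (∑ i, ((jac g x + s • jac v x).updateRow i (jac v x i)).det) s := by
    rw [h5]
    exact det_der _ _ s
  have h7 := h3.mul h6
  refine h7.congr_deriv ?_
  unfold Hs
  have h8 : dj (sg g v s) x = (jac g x + s • jac v x).det := congrFun h5 s
  rw [h8]

theorem Hs_eq {g v : V d → V d} (hg : ContDiff ℝ ∞ g) (hv : ContDiff ℝ ∞ v) {χ : V d → ℝ}
    (hχ : ContDiff ℝ ∞ χ) (x : V d) (s : ℝ) :
    Hs g v χ x s = ∑ i, dr (sg g v s) i (fun y => χ (sg g v s y) * v y i) x := by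
  have hs := sg_smooth hg hv s
  have h1 : ∀ i, dr (sg g v s) i (fun y => χ (sg g v s y) * v y i) x =
      χ (sg g v s x) * ((jac g x + s • jac v x).updateRow i (jac v x i)).det +
        v x i * pd χ i (sg g v s x) * (jac g x + s • jac v x).det := by
    intro i
    rw [dr_mul (sg g v s) i (u := fun y => χ (sg g v s y)) (v := fun y => v y i) (hχ.comp hs)
      (contDiff_pi.1 hv i), dr_comp hs i hχ]
    unfold dr dj
    rw [jac_sg hg hv]
    have : (fun j => pd (fun y => v y i) j x) = jac v x i := rfl
    rw [this]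
    ring
  simp only [h1]
  rw [Finset.sum_add_distrib]
  unfold Hs
  rw [← Finset.mul_sum, Finset.sum_mul]
  ring

theorem Hs_cont {g v : V d → V d} (hg : ContDiff ℝ ∞ g) (hv : ContDiff ℝ ∞ v) {χ : V d → ℝ}
    (hχ : ContDiff ℝ ∞ χ) : Continuous (Function.uncurry (Hs g v χ)) := by
  have hsg : Continuous fun q : V d × ℝ => sg g v q.2 q.1 := by
    unfold sg
    exact (hg.continuous.comp continuous_fst).add
      (continuous_snd.smul (hv.continuous.comp continuous_fst))
  have hj : ∀ {w : V d → V d}, ContDiff ℝ ∞ w → Continuous fun x => jac w x := fun hw =>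
    continuous_pi fun i => continuous_pi fun j => (jac_entry_contDiff hw i j).continuous
  have hmat : Continuous fun q : V d × ℝ => jac g q.1 + q.2 • jac v q.1 :=
    ((hj hg).comp continuous_fst).add (continuous_snd.smul ((hj hv).comp continuous_fst))
  unfold Function.uncurry Hs
  refine Continuous.add (Continuous.mul ?_ hmat.matrix_det) (Continuous.mul (hχ.continuous.comp hsg) ?_)
  · refine continuous_finsetSum _ fun i _ => Continuous.mul ?_ ?_
    · exact (continuous_apply i).comp (hv.continuous.comp continuous_fst)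
    · exact (H248.ID.J01.pd_contDiff hχ i).continuous.comp hsg
  · refine continuous_finsetSum _ fun i _ => Continuous.matrix_det ?_
    exact hmat.matrix_updateRow i ((continuous_apply i).comp ((hj hv).comp continuous_fst))

/-- **The Jacobian integral of two close maps.** -/
theorem homot {g v : V d → V d} (hg : ContDiff ℝ ∞ g) (hv : ContDiff ℝ ∞ v) {η χ : V d → ℝ}
    (hη : ContDiff ℝ ∞ η) (hc : HasCompactSupport η) (hχ : ContDiff ℝ ∞ χ) (hχ0 : ∀ y, 0 ≤ χ y)
    (hχ1 : ∀ y, χ y ≤ 1) {ε B : ℝ} (hε : ∀ x ∈ tsupport η, ∀ i, |v x i| ≤ ε) (hε0 : 0 ≤ ε)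
    (hB : ∀ s ∈ Icc (0 : ℝ) 1, ∫ x, Ds (sg g v s) η x ≤ B) :
    |(∫ x, η x * (χ (sg g v 1 x) * dj (sg g v 1) x)) - ∫ x, η x * (χ (g x) * dj g x)| ≤ ε * B := by
  set K := tsupport η with hK
  have hKc : IsCompact K := hc
  have hsg0 : sg g v 0 = g := by
    funext x
    simp [sg]
  have hHc := Hs_cont hg hv hχ
  have hFTC : ∀ x, χ (sg g v 1 x) * dj (sg g v 1) x - χ (g x) * dj g x =
      ∫ s in (0 : ℝ)..1, Hs g v χ x s := by
    intro x
    have := intervalIntegral.integral_eq_sub_of_hasDerivAt (a := 0) (b := 1)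
      (fun s _ => der_integrand hg hv hχ x s)
      ((hHc.comp (Continuous.prodMk_right x)).intervalIntegrable _ _)
    rw [this, hsg0]
  have hs1 := sg_smooth hg hv 1
  have i1 : Integrable fun x => η x * (χ (sg g v 1 x) * dj (sg g v 1) x) :=
    integrable_of (hη.continuous.mul ((hχ.continuous.comp hs1.continuous).mul
      (dj_contDiff hs1).continuous)) hc.mul_right
  have i0 : Integrable fun x => η x * (χ (g x) * dj g x) :=
    integrable_of (hη.continuous.mul ((hχ.continuous.comp hg.continuous).mul
      (dj_contDiff hg).continuous)) hc.mul_right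
  rw [← integral_sub i1 i0]
  have e1 : ∫ x, (η x * (χ (sg g v 1 x) * dj (sg g v 1) x) - η x * (χ (g x) * dj g x)) =
      ∫ x in K, ∫ s in (0 : ℝ)..1, η x * Hs g v χ x s := by
    rw [← setIntegral_eq_integral_of_forall_compl_eq_zero (s := K)]
    · refine setIntegral_congr_fun hKc.isClosed.measurableSet fun x hx => ?_
      show η x * (χ (sg g v 1 x) * dj (sg g v 1) x) - η x * (χ (g x) * dj g x) = _
      rw [intervalIntegral.integral_const_mul, ← hFTC x]
      ring
    · intro x hx
      have : η x = 0 := image_eq_zero_of_notMem_tsupport hx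
      rw [this]; ring
  have hswap : ∫ x in K, ∫ s in (0 : ℝ)..1, η x * Hs g v χ x s =
      ∫ s in (0 : ℝ)..1, ∫ x in K, η x * Hs g v χ x s := by
    simp only [intervalIntegral.integral_of_le zero_le_one]
    refine integral_integral_swap ?_
    rw [Measure.prod_restrict]
    have hcc : Continuous (Function.uncurry fun (x : V d) (s : ℝ) => η x * Hs g v χ x s) :=
      (hη.continuous.comp continuous_fst).mul hHc
    refine (hcc.continuousOn.integrableOn_compact
      (hKc.prod (isCompact_Icc (a := (0 : ℝ)) (b := 1)))).mono_set ?_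
    exact prod_mono_right Ioc_subset_Icc_self
  rw [e1, hswap]
  have hb : ∀ s ∈ Ioc (0 : ℝ) 1, ‖∫ x in K, η x * Hs g v χ x s‖ ≤ ε * B := by
    intro s hs
    have hss := sg_smooth hg hv s
    have e2 : ∫ x in K, η x * Hs g v χ x s =
        - ∑ i, ∫ x, (χ (sg g v s x) * v x i) * dr (sg g v s) i η x := by
      rw [setIntegral_eq_integral_of_forall_compl_eq_zero (fun x hx => by
        have : η x = 0 := image_eq_zero_of_notMem_tsupport hx
        rw [this, zero_mul])]
      have hF : ∀ i, ContDiff ℝ ∞ fun y => χ (sg g v s y) * v y i := fun i =>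
        (hχ.comp hss).mul (contDiff_pi.1 hv i)
      have e3 : ∀ x, η x * Hs g v χ x s =
          ∑ i, η x * dr (sg g v s) i (fun y => χ (sg g v s y) * v y i) x := by
        intro x
        rw [Hs_eq hg hv hχ, Finset.mul_sum]
      simp only [e3]
      have i4 : ∀ i, Integrable fun x => η x * dr (sg g v s) i (fun y => χ (sg g v s y) * v y i) x :=
        fun i => integrable_of (hη.continuous.mul (dr_contDiff hss i (hF i)).continuous) hc.mul_right
      rw [integral_finsetSum _ fun i _ => i4 i]
      rw [← Finset.sum_neg_distrib]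
      exact Finset.sum_congr rfl fun i _ => ibp hss i hη hc (hF i)
    rw [e2, norm_neg]
    have i3 : ∀ i, Integrable fun x => (χ (sg g v s x) * v x i) * dr (sg g v s) i η x := fun i =>
      integrable_of (((hχ.continuous.comp hss.continuous).mul (contDiff_pi.1 hv i).continuous).mul
        (dr_contDiff hss i hη).continuous) (dr_compact i hc).mul_left
    rw [← integral_finsetSum _ fun i _ => i3 i]
    calc ‖∫ x, ∑ i, (χ (sg g v s x) * v x i) * dr (sg g v s) i η x‖
        ≤ ∫ x, ε * Ds (sg g v s) η x := by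
          refine norm_integral_le_of_norm_le ((Ds_int hss hη hc).const_mul ε)
            (Eventually.of_forall fun x => ?_)
          by_cases hx : x ∈ K
          · unfold Ds
            rw [Finset.mul_sum]
            refine (norm_sum_le _ _).trans (Finset.sum_le_sum fun i _ => ?_)
            rw [norm_mul, norm_mul, Real.norm_of_nonneg (hχ0 _), Real.norm_eq_abs, Real.norm_eq_abs]
            have h1 := hε x hx i
            have h2 := hχ1 (sg g v s x)
            have h3 := hχ0 (sg g v s x)
            have h4 : χ (sg g v s x) * |v x i| ≤ 1 * ε := mul_le_mul h2 h1 (abs_nonneg _) zero_le_one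
            rw [one_mul] at h4
            exact mul_le_mul_of_nonneg_right h4 (abs_nonneg _)
          · have h1 : ∀ i, dr (sg g v s) i η x = 0 := fun i => dr_zero _ i hx
            simp only [h1, mul_zero, Finset.sum_const_zero, norm_zero]
            exact mul_nonneg hε0 (Ds_nonneg _ _ _)
      _ = ε * ∫ x, Ds (sg g v s) η x := integral_const_mul _ _
      _ ≤ ε * B := by
          gcongr
          exact hB s ⟨hs.1.le, hs.2⟩
  rw [← Real.norm_eq_abs]
  have := intervalIntegral.norm_integral_le_of_norm_le_const (a := 0) (b := 1) (C := ε * B)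
    (f := fun s => ∫ x in K, η x * Hs g v χ x s) (by
      rw [uIoc_of_le zero_le_one]
      exact hb)
  simpa using this

end Pool.Agent.J4.H87.Hol
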