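import Pool.Agent.J4.H87.HolD

set_option autoImplicit false

/-! Hölder translates: mollification. -/

open MeasureTheory Set Filter Topology Metric
open scoped ENNReal NNReal ContDiff

namespace Pool.Agent.J4.H87.Hol

open H248.ID (pd jac)
open Pool.Agent.N526.CP.NUL (mol mol_eq mol_smooth moll_deriv)

variable {d : ℕ}

/-- a mollifier -/
structure Mo (d : ℕ) where
  φ : V d → ℝ
  L : ℝ
  smooth : ContDiff ℝ ∞ φ
  nonneg : ∀ y, 0 ≤ φ y
  supp : ∀ y, 1 < ‖y‖ → φ y = 0
  compact : HasCompactSupport φ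
  int : ∫ y, φ y = 1
  L1 : 1 ≤ L
  hL : ∀ j y, |pd φ j y| ≤ L

theorem exists_bound {φ : V d → ℝ} (hφ : ContDiff ℝ ∞ φ) (hc : HasCompactSupport φ) :
    ∃ L : ℝ, 1 ≤ L ∧ ∀ j y, |pd φ j y| ≤ L := by
  have h1 : ∀ j, ∃ C : ℝ, ∀ y, ‖pd φ j y‖ ≤ C := fun j =>
    (H248.ID.J01.pd_supp hc j).exists_bound_of_continuous (H248.ID.J01.pd_contDiff hφ j).continuous
  choose C hC using h1
  refine ⟨1 + ∑ j, |C j|, by
    have : 0 ≤ ∑ j, |C j| := Finset.sum_nonneg fun _ _ => abs_nonneg _
    linarith, fun j y => ?_⟩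
  have h2 : |C j| ≤ ∑ j, |C j| := Finset.single_le_sum (f := fun j => |C j|)
    (fun _ _ => abs_nonneg _) (Finset.mem_univ j)
  have h3 := hC j y
  rw [Real.norm_eq_abs] at h3
  have h4 := le_abs_self (C j)
  linarith

theorem mo_nonempty (d : ℕ) : Nonempty (Mo d) := by
  let B : ContDiffBump (0 : V d) := { rIn := 1 / 2, rOut := 1, rIn_pos := by norm_num, rIn_lt_rOut := by norm_num }
  have hs : ContDiff ℝ ∞ (B.normed volume) := B.contDiff_normed
  have hc : HasCompactSupport (B.normed volume) := B.hasCompactSupport_normed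
  obtain ⟨L, hL1, hL⟩ := exists_bound hs hc
  refine ⟨⟨B.normed volume, L, hs, B.nonneg_normed, ?_, hc, B.integral_normed, hL1, hL⟩⟩
  intro y hy
  have h1 : Function.support (B.normed volume) = ball 0 1 := B.support_normed_eq
  by_contra hne
  have h2 : y ∈ Function.support (B.normed volume) := hne
  rw [h1, mem_ball_zero_iff] at h2
  linarith

variable (m : Mo d)

/-- the mollifier at scale `r` -/
noncomputable def Mo.ph (r : ℝ) (y : V d) : ℝ := (r ^ d)⁻¹ * m.φ (r⁻¹ • y)

theorem Mo.ph_smooth (r : ℝ) : ContDiff ℝ ∞ (m.ph r) :=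
  contDiff_const.mul (m.smooth.comp (contDiff_id.const_smul r⁻¹))

theorem Mo.ph_nonneg {r : ℝ} (hr : 0 < r) (y : V d) : 0 ≤ m.ph r y :=
  mul_nonneg (by positivity) (m.nonneg _)

theorem Mo.ph_supp {r : ℝ} (hr : 0 < r) {y : V d} (hy : r < ‖y‖) : m.ph r y = 0 := by
  unfold Mo.ph
  rw [m.supp, mul_zero]
  rw [norm_smul, norm_inv, Real.norm_of_nonneg hr.le]
  rwa [← div_eq_inv_mul, one_lt_div hr]

theorem Mo.ph_compact {r : ℝ} (hr : 0 < r) : HasCompactSupport (m.ph r) := by
  refine HasCompactSupport.of_support_subset_isCompact (isCompact_closedBall (0 : V d) r) ?_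
  intro y hy
  by_contra h
  rw [mem_closedBall_zero_iff, not_le] at h
  exact hy (m.ph_supp hr h)

theorem Mo.ph_int {r : ℝ} (hr : 0 < r) : ∫ y, m.ph r y = 1 := by
  unfold Mo.ph
  rw [integral_const_mul, Measure.integral_comp_smul]
  simp only [Module.finrank_fin_fun, smul_eq_mul, m.int, mul_one]
  rw [abs_of_pos (by positivity), inv_pow, inv_inv]
  exact inv_mul_cancel₀ (by positivity)

theorem Mo.pd_ph {r : ℝ} (j : Fin d) (y : V d) :
    pd (m.ph r) j y = (r ^ d)⁻¹ * (r⁻¹ * pd m.φ j (r⁻¹ • y)) := by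
  unfold pd
  have h1 : HasFDerivAt m.φ (fderiv ℝ m.φ (r⁻¹ • y)) (r⁻¹ • y) :=
    (m.smooth.differentiable (by simp) _).hasFDerivAt
  have h2 : HasFDerivAt (fun y : V d => r⁻¹ • y) (r⁻¹ • ContinuousLinearMap.id ℝ (V d)) y :=
    (hasFDerivAt_id y).const_smul r⁻¹
  have h3 := (h1.comp y h2).const_mul (r ^ d)⁻¹
  have h4 : fderiv ℝ (m.ph r) y = (r ^ d)⁻¹ •
      (fderiv ℝ m.φ (r⁻¹ • y)).comp (r⁻¹ • ContinuousLinearMap.id ℝ (V d)) := h3.fderiv
  rw [h4]
  simp

/-- the mollified function -/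
noncomputable def Mo.mo (r : ℝ) (g : V d → ℝ) : V d → ℝ := mol (m.ph r) g

theorem Mo.mo_smooth {g : V d → ℝ} (hg : LocallyIntegrable g) {r : ℝ} (hr : 0 < r) :
    ContDiff ℝ ∞ (m.mo r g) := mol_smooth hg (m.ph_smooth r) (m.ph_compact hr)

theorem Mo.ph_shift_integrable {r : ℝ} (hr : 0 < r) (x : V d) : Integrable fun y => m.ph r (x - y) :=
  ((m.ph_smooth r).continuous.integrable_of_hasCompactSupport (m.ph_compact hr)).comp_sub_left x

theorem Mo.ph_shift_int {r : ℝ} (hr : 0 < r) (x : V d) : ∫ y, m.ph r (x - y) = 1 := by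
  rw [integral_sub_left_eq_self (m.ph r) volume x, m.ph_int hr]

theorem mul_integrable {g ψ : V d → ℝ} (hg : LocallyIntegrable g) (hψ : Continuous ψ)
    (hc : HasCompactSupport ψ) : Integrable fun y => g y * ψ y := by
  have h1 := hg.integrable_smul_left_of_hasCompactSupport hψ hc
  refine h1.congr (Eventually.of_forall fun y => ?_)
  simp [mul_comm]

theorem shift_compact {ψ : V d → ℝ} (hc : HasCompactSupport ψ) (x : V d) :
    HasCompactSupport fun y => ψ (x - y) := hc.comp_homeomorph (Homeomorph.subLeft x)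

theorem Mo.mo_sub {g : V d → ℝ} (hg : LocallyIntegrable g) {r : ℝ} (hr : 0 < r) (c : ℝ) (x : V d) :
    m.mo r g x - c = ∫ y, (g y - c) * m.ph r (x - y) := by
  unfold Mo.mo mol
  have h1 : Integrable fun y => g y * m.ph r (x - y) :=
    mul_integrable hg ((m.ph_smooth r).continuous.comp (by fun_prop)) (shift_compact (m.ph_compact hr) x)
  have h2 := (m.ph_shift_integrable hr x).const_mul c
  have h3 : ∀ y, (g y - c) * m.ph r (x - y) = g y * m.ph r (x - y) - c * m.ph r (x - y) := fun y => by ring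
  simp only [h3]
  rw [integral_sub h1 h2, integral_const_mul, m.ph_shift_int hr, mul_one]

/-- mollification does not change much -/
theorem Mo.mo_close {g : V d → ℝ} (hg : LocallyIntegrable g) {r : ℝ} (hr : 0 < r) {c w : ℝ} {x : V d}
    (hw : ∀ y, ‖y - x‖ ≤ r → |g y - c| ≤ w) : |m.mo r g x - c| ≤ w := by
  rw [m.mo_sub hg hr]
  have h2 := (m.ph_shift_integrable hr x).const_mul w
  have h1 : ‖∫ y, (g y - c) * m.ph r (x - y)‖ ≤ ∫ y, w * m.ph r (x - y) := by
    refine norm_integral_le_of_norm_le h2 (Eventually.of_forall fun y => ?_)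
    rw [norm_mul, Real.norm_eq_abs, Real.norm_of_nonneg (m.ph_nonneg hr _)]
    by_cases hy : ‖y - x‖ ≤ r
    · exact mul_le_mul_of_nonneg_right (hw y hy) (m.ph_nonneg hr _)
    · rw [m.ph_supp hr (by rw [norm_sub_rev]; exact not_le.1 hy), mul_zero, mul_zero]
  rwa [integral_const_mul, m.ph_shift_int hr, mul_one, Real.norm_eq_abs] at h1

theorem Mo.pd_mo {g : V d → ℝ} (hg : LocallyIntegrable g) {r : ℝ} (hr : 0 < r) (c : ℝ) (j : Fin d)
    (x : V d) : pd (m.mo r g) j x = ∫ y, (g y - c) * pd (m.ph r) j (x - y) := by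
  have hgc : LocallyIntegrable fun y => g y - c := hg.sub (locallyIntegrable_const c)
  have h1 : m.mo r g = fun x => m.mo r (fun y => g y - c) x + c := by
    funext z
    have := m.mo_sub hg hr c z
    show m.mo r g z = mol (m.ph r) (fun y => g y - c) z + c
    unfold mol
    linarith
  have h2 : pd (m.mo r g) j x = pd (m.mo r (fun y => g y - c)) j x := by
    rw [h1]
    unfold pd
    rw [fderiv_add_const]
  rw [h2]
  exact moll_deriv hgc (m.ph_smooth r) (m.ph_compact hr) j x

/-- the derivative of a mollified function -/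
theorem Mo.pd_mo_le {g : V d → ℝ} (hg : LocallyIntegrable g) {r : ℝ} (hr : 0 < r) {c w : ℝ} (hw0 : 0 ≤ w)
    {x : V d} (hw : ∀ y, ‖y - x‖ ≤ r → |g y - c| ≤ w) (j : Fin d) :
    |pd (m.mo r g) j x| ≤ 2 ^ d * m.L * w / r := by
  rw [m.pd_mo hg hr c]
  have hL0 : 0 ≤ m.L := by linarith [m.L1]
  set I : V d → ℝ := (closedBall x r).indicator fun _ => w * ((r ^ d)⁻¹ * (r⁻¹ * m.L)) with hI
  have hIi : Integrable I := by
    rw [hI, integrable_indicator_iff measurableSet_closedBall]
    exact integrableOn_const measure_closedBall_lt_top.ne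
  have h1 : ‖∫ y, (g y - c) * pd (m.ph r) j (x - y)‖ ≤ ∫ y, I y := by
    refine norm_integral_le_of_norm_le hIi (Eventually.of_forall fun y => ?_)
    rw [hI, norm_mul, Real.norm_eq_abs, Real.norm_eq_abs, m.pd_ph]
    by_cases hy : ‖y - x‖ ≤ r
    · rw [indicator_of_mem (by rw [mem_closedBall, dist_eq_norm]; exact hy)]
      have h2 : |(r ^ d)⁻¹ * (r⁻¹ * pd m.φ j (r⁻¹ • (x - y)))| ≤ (r ^ d)⁻¹ * (r⁻¹ * m.L) := by
        rw [abs_mul, abs_mul, abs_of_pos (by positivity : 0 < (r ^ d)⁻¹), abs_of_pos (by positivity : 0 < r⁻¹)]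
        have := m.hL j (r⁻¹ • (x - y))
        gcongr
      exact mul_le_mul (hw y hy) h2 (abs_nonneg _) hw0
    · rw [indicator_of_notMem (by rw [mem_closedBall, dist_eq_norm]; exact hy)]
      have h3 : r⁻¹ • (x - y) ∉ tsupport m.φ := by
        intro hmem
        have h4 : tsupport m.φ ⊆ closedBall 0 1 := by
          refine closure_minimal ?_ isClosed_closedBall
          intro z hz
          by_contra hzn
          rw [mem_closedBall_zero_iff, not_le] at hzn
          exact hz (m.supp z hzn)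
        have h5 := h4 hmem
        rw [mem_closedBall_zero_iff, norm_smul, norm_inv, Real.norm_of_nonneg hr.le,
          ← div_eq_inv_mul, div_le_one hr, norm_sub_rev] at h5
        exact hy h5
      rw [pd_zero_of_nmem h3]
      simp
  have h6 : ∫ y, I y = 2 ^ d * m.L * w / r := by
    rw [hI, integral_indicator_const _ measurableSet_closedBall, measureReal_def,
      Real.volume_pi_closedBall _ hr.le, ENNReal.toReal_ofReal (by positivity), smul_eq_mul,
      Fintype.card_fin, mul_pow]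
    have : r ^ d ≠ 0 := by positivity
    field_simp
  rw [h6] at h1
  exact h1

end Pool.Agent.J4.H87.Hol
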