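import Mathlib

set_option autoImplicit false

/-! Hölder translates: finite differences of the characteristic polynomial, choice of a scale. -/

open Finset Polynomial

namespace Pool.Agent.J4.H87.Hol

/-- The `d`-th difference of the characteristic polynomial. -/
theorem fin_diff {d : ℕ} (M : Matrix (Fin d) (Fin d) ℝ) (t h : ℝ) (hh : 0 < h) :
    ∑ k ∈ range (d + 1), ((-1 : ℝ) ^ (d - k) * (d.choose k : ℝ)) *
      (M - (2 * (t + k * h)) • (1 : Matrix (Fin d) (Fin d) ℝ)).det = (-(2 * h)) ^ d * (d.factorial : ℝ) := by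
  classical
  set P : ℝ[X] := M.charpoly with hP
  set L : ℝ[X] := C (2 * h) * X + C (2 * t) with hL
  have hh2 : (2 * h : ℝ) ≠ 0 := by positivity
  have hLd : L.natDegree = 1 := natDegree_linear hh2
  have hLl : L.leadingCoeff = 2 * h := leadingCoeff_linear hh2
  have hPd : P.natDegree = d := by
    rw [hP, Matrix.charpoly_natDegree_eq_dim, Fintype.card_fin]
  have hPm : P.leadingCoeff = 1 := M.charpoly_monic
  set Q : ℝ[X] := P.comp L with hQ
  have hQd : Q.natDegree = d := by rw [hQ, natDegree_comp, hPd, hLd, mul_one]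
  have hQl : Q.leadingCoeff = (2 * h) ^ d := by
    rw [hQ, leadingCoeff_comp (by rw [hLd]; exact one_ne_zero), hPm, hLl, hPd, one_mul]
  have h1 := congrFun (Polynomial.fwdDiff_iter_degree_eq_factorial Q) 0
  rw [hQd, hQl, fwdDiff_iter_eq_sum_shift] at h1
  have h2 : ∀ k : ℕ, Q.eval (0 + k • (1 : ℝ)) =
      (-1 : ℝ) ^ d * (M - (2 * (t + k * h)) • (1 : Matrix (Fin d) (Fin d) ℝ)).det := by
    intro k
    rw [hQ, eval_comp]
    have h3 : L.eval (0 + k • (1 : ℝ)) = 2 * (t + k * h) := by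
      rw [hL]
      simp
      ring
    rw [h3, hP, Matrix.eval_charpoly]
    have h4 : Matrix.scalar (Fin d) (2 * (t + k * h)) - M =
        -(M - (2 * (t + k * h)) • (1 : Matrix (Fin d) (Fin d) ℝ)) := by
      rw [neg_sub, Matrix.smul_one_eq_diagonal]
      rfl
    rw [h4, Matrix.det_neg, Fintype.card_fin]
  simp only [h2] at h1
  have h5 : (-1 : ℝ) ^ d * ∑ k ∈ range (d + 1), ((-1 : ℝ) ^ (d - k) * (d.choose k : ℝ)) *
      (M - (2 * (t + k * h)) • (1 : Matrix (Fin d) (Fin d) ℝ)).det = (2 * h) ^ d * (d.factorial : ℝ) := by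
    have h6 : ((2 * h) ^ d • ((d.factorial : ℕ) : ℝ → ℝ)) 0 = (2 * h) ^ d * (d.factorial : ℝ) := by
      simp
    rw [← h6, ← h1, mul_sum]
    refine sum_congr rfl fun k _ => ?_
    rw [zsmul_eq_mul]
    push_cast
    ring
  have h7 : (-1 : ℝ) ^ d * (-1 : ℝ) ^ d = 1 := by
    rw [← mul_pow]; norm_num
  calc _ = ((-1 : ℝ) ^ d * (-1 : ℝ) ^ d) * ∑ k ∈ range (d + 1), ((-1 : ℝ) ^ (d - k) * (d.choose k : ℝ)) *
      (M - (2 * (t + k * h)) • (1 : Matrix (Fin d) (Fin d) ℝ)).det := by rw [h7, one_mul]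
    _ = (-1 : ℝ) ^ d * ((2 * h) ^ d * (d.factorial : ℝ)) := by rw [mul_assoc, h5]
    _ = _ := by
        rw [← mul_assoc, ← mul_pow]
        congr 2
        ring

/-- The sum of the coefficients. -/
theorem coef_sum (d : ℕ) : ∑ k ∈ range (d + 1), |((-1 : ℝ) ^ (d - k) * (d.choose k : ℝ))| = 2 ^ d := by
  have h1 : ∀ k ∈ range (d + 1), |((-1 : ℝ) ^ (d - k) * (d.choose k : ℝ))| = (d.choose k : ℝ) := by
    intro k _
    rw [abs_mul, abs_pow, abs_neg, abs_one, one_pow, one_mul, Nat.abs_cast]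
  rw [sum_congr rfl h1]
  exact_mod_cast Nat.sum_range_choose d

/-- choice of a scale -/
theorem choose_scale {Y κ : ℝ} (hY : 1 ≤ Y) (hκ : 0 < κ) :
    ∃ m : ℕ, (2 : ℝ) ^ m ≤ 2 * Y ^ (1 / κ) ∧ Y * ((1 / 2 : ℝ) ^ κ) ^ m ≤ 1 := by
  have hY0 : 0 < Y := by linarith
  set x : ℝ := Real.logb 2 Y / κ with hx
  have hx0 : 0 ≤ x := div_nonneg (Real.logb_nonneg (by norm_num) hY) hκ.le
  refine ⟨⌈x⌉₊, ?_, ?_⟩
  · have h1 : (⌈x⌉₊ : ℝ) ≤ x + 1 := (Nat.ceil_lt_add_one hx0).le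
    calc (2 : ℝ) ^ ⌈x⌉₊ = (2 : ℝ) ^ ((⌈x⌉₊ : ℕ) : ℝ) := (Real.rpow_natCast _ _).symm
      _ ≤ (2 : ℝ) ^ (x + 1) := Real.rpow_le_rpow_of_exponent_le (by norm_num) h1
      _ = 2 * Y ^ (1 / κ) := by
          rw [Real.rpow_add (by norm_num), Real.rpow_one, mul_comm, hx, div_eq_mul_one_div,
            Real.rpow_mul (by norm_num), Real.rpow_logb (by norm_num) (by norm_num) hY0]
  · have h2 : x ≤ (⌈x⌉₊ : ℝ) := Nat.le_ceil x
    have h3 : ((1 / 2 : ℝ) ^ κ) ^ ⌈x⌉₊ = (2 : ℝ) ^ (-(κ * ⌈x⌉₊)) := by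
      rw [← Real.rpow_natCast, ← Real.rpow_mul (by norm_num), one_div, Real.inv_rpow (by norm_num),
        Real.rpow_neg (by norm_num)]
    rw [h3]
    have h4 : (2 : ℝ) ^ (-(κ * ⌈x⌉₊)) ≤ Y⁻¹ := by
      calc (2 : ℝ) ^ (-(κ * ⌈x⌉₊)) ≤ (2 : ℝ) ^ (-(κ * x)) :=
            Real.rpow_le_rpow_of_exponent_le (by norm_num) (by gcongr)
        _ = Y⁻¹ := by
            have : κ * x = Real.logb 2 Y := by rw [hx]; field_simp
            rw [this, Real.rpow_neg (by norm_num), Real.rpow_logb (by norm_num) (by norm_num) hY0]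
    calc Y * (2 : ℝ) ^ (-(κ * ⌈x⌉₊)) ≤ Y * Y⁻¹ := by gcongr
      _ = 1 := mul_inv_cancel₀ hY0.ne'

end Pool.Agent.J4.H87.Hol
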