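import Pool.Agent.J4.H87.HolE
import Pool.Agent.J4.H87.HolF

set_option autoImplicit false

/-! Hölder translates: the estimates at one scale. -/

open MeasureTheory Set Filter Topology Metric
open scoped ENNReal NNReal ContDiff

namespace Pool.Agent.J4.H87.Hol

open H248.ID (pd jac)

variable {d : ℕ}

/-- a cut-off function -/
structure Et (d : ℕ) where
  η : V d → ℝ
  L : ℝ
  smooth : ContDiff ℝ ∞ η
  nonneg : ∀ y, 0 ≤ η y
  one : ∀ y, ‖y‖ ≤ 1 / 2 → η y = 1
  supp : tsupport η ⊆ closedBall 0 1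
  compact : HasCompactSupport η
  L1 : 1 ≤ L
  hL : ∀ j y, |pd η j y| ≤ L

theorem et_nonempty (d : ℕ) : Nonempty (Et d) := by
  let B : ContDiffBump (0 : V d) := { rIn := 1 / 2, rOut := 1, rIn_pos := by norm_num, rIn_lt_rOut := by norm_num }
  have hs : ContDiff ℝ ∞ (B : V d → ℝ) := B.contDiff
  have hc : HasCompactSupport (B : V d → ℝ) := B.hasCompactSupport
  obtain ⟨L, hL1, hL⟩ := exists_bound hs hc
  refine ⟨⟨B, L, hs, fun y => B.nonneg, fun y hy => ?_, ?_, hc, hL1, hL⟩⟩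
  · exact B.one_of_mem_closedBall (by rw [mem_closedBall_zero_iff]; exact hy)
  · rw [B.tsupport_eq]

theorem Et.int_ge (e : Et d) : 1 ≤ ∫ x, e.η x := by
  have h1 : ∫ x, (closedBall (0 : V d) (1 / 2)).indicator (fun _ => (1 : ℝ)) x = 1 := by
    rw [integral_indicator_const _ measurableSet_closedBall, measureReal_def,
      Real.volume_pi_closedBall _ (by norm_num)]
    simp
  rw [← h1]
  refine integral_mono ?_ (integrable_of e.smooth.continuous e.compact) fun x => ?_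
  · rw [integrable_indicator_iff measurableSet_closedBall]
    exact integrableOn_const measure_closedBall_lt_top.ne
  · by_cases hx : x ∈ closedBall (0 : V d) (1 / 2)
    · rw [indicator_of_mem hx, e.one x (by rwa [mem_closedBall_zero_iff] at hx)]
    · rw [indicator_of_notMem hx]
      exact e.nonneg x

theorem Ds_int_le (e : Et d) {g : V d → V d} (hg : ContDiff ℝ ∞ g) {Λ : ℝ} (hΛ : 0 ≤ Λ)
    (h : ∀ x, ‖x‖ ≤ 1 → ∀ i j, |jac g x i j| ≤ Λ) :
    ∫ x, Ds g e.η x ≤ d * ((d.factorial : ℝ) * (e.L * Λ ^ (d - 1))) * 2 ^ d := by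
  have hL0 : 0 ≤ e.L := by linarith [e.L1]
  set c : ℝ := d * ((d.factorial : ℝ) * (e.L * Λ ^ (d - 1))) with hc
  have hc0 : 0 ≤ c := by positivity
  have h1 : ∫ x, (closedBall (0 : V d) 1).indicator (fun _ => c) x = c * 2 ^ d := by
    rw [integral_indicator_const _ measurableSet_closedBall, measureReal_def,
      Real.volume_pi_closedBall _ zero_le_one, ENNReal.toReal_ofReal (by positivity), smul_eq_mul,
      Fintype.card_fin]
    ring
  rw [← h1]
  refine integral_mono (Ds_int hg e.smooth e.compact) ?_ fun x => ?_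
  · rw [integrable_indicator_iff measurableSet_closedBall]
    exact integrableOn_const measure_closedBall_lt_top.ne
  · by_cases hx : x ∈ closedBall (0 : V d) 1
    · rw [indicator_of_mem hx]
      have hx1 : ‖x‖ ≤ 1 := by rwa [mem_closedBall_zero_iff] at hx
      unfold Ds
      calc ∑ i, |dr g i e.η x| ≤ ∑ _i : Fin d, (d.factorial : ℝ) * (e.L * Λ ^ (d - 1)) :=
            Finset.sum_le_sum fun i _ => dr_le g i e.η x (h x hx1) fun j => e.hL j x
        _ = c := by rw [Finset.sum_const, Finset.card_univ, Fintype.card_fin, nsmul_eq_mul]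
    · rw [indicator_of_notMem hx, Ds_zero g fun hmem => hx (e.supp hmem)]

/-- The hypothesis on the positions. -/
structure Hd (b : V d → V d) (A α δ : ℝ) : Prop where
  A1 : 1 ≤ A
  α0 : 0 < α
  α1 : α ≤ 1
  δ0 : 0 < δ
  δ1 : δ ≤ 1
  li : ∀ i, LocallyIntegrable fun y => b y i
  hb : ∀ x y, ‖x‖ ≤ 2 → ‖y‖ ≤ 2 → ∀ i, |b y i - b x i| ≤ A * (max ‖y - x‖ δ) ^ α

variable (m : Mo d) {b : V d → V d} {A α δ : ℝ}

/-- the mollified section map at height `τ` -/
noncomputable def gk (b : V d → V d) (r τ : ℝ) : V d → V d :=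
  fun x i => m.mo r (fun y => b y i) x - 2 * τ * x i

theorem gk_smooth (H : Hd b A α δ) {r : ℝ} (hr : 0 < r) (τ : ℝ) : ContDiff ℝ ∞ (gk m b r τ) := by
  rw [contDiff_pi]
  intro i
  exact (m.mo_smooth (H.li i) hr).sub (contDiff_const.mul (contDiff_apply ℝ ℝ i))

theorem hb_ball (H : Hd b A α δ) {r : ℝ} (hr : δ ≤ r) (hr1 : r ≤ 1) {x : V d} (hx : ‖x‖ ≤ 1) (i : Fin d)
    (y : V d) (hy : ‖y - x‖ ≤ r) : |b y i - b x i| ≤ A * r ^ α := by
  have h1 : ‖y‖ ≤ 2 := by
    have := norm_le_norm_add_norm_sub' y x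
    linarith
  refine (H.hb x y (by linarith) h1 i).trans ?_
  have h2 : 0 ≤ max ‖y - x‖ δ := le_max_of_le_left (norm_nonneg _)
  have := H.A1
  gcongr
  · exact H.α0.le
  · exact max_le hy hr

theorem close (H : Hd b A α δ) {r : ℝ} (hr : δ ≤ r) (hr1 : r ≤ 1) {x : V d} (hx : ‖x‖ ≤ 1) (i : Fin d) :
    |m.mo r (fun y => b y i) x - b x i| ≤ A * r ^ α :=
  m.mo_close (H.li i) (lt_of_lt_of_le H.δ0 hr) fun y hy => hb_ball H hr hr1 hx i y hy

theorem pd_mo_bound (H : Hd b A α δ) {r : ℝ} (hr : δ ≤ r) (hr1 : r ≤ 1) {x : V d} (hx : ‖x‖ ≤ 1)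
    (i j : Fin d) : |pd (m.mo r (fun y => b y i)) j x| ≤ 2 ^ d * m.L * (A * r ^ (α - 1)) := by
  have hr0 : 0 < r := lt_of_lt_of_le H.δ0 hr
  have hA := H.A1
  have h1 := m.pd_mo_le (H.li i) hr0 (c := b x i) (w := A * r ^ α) (by positivity)
    (fun y hy => hb_ball H hr hr1 hx i y hy) j
  refine h1.trans (le_of_eq ?_)
  rw [Real.rpow_sub hr0, Real.rpow_one]
  ring

theorem jac_gk (H : Hd b A α δ) {r : ℝ} (hr : 0 < r) (τ : ℝ) (x : V d) :
    jac (gk m b r τ) x = jac (gk m b r 0) x - (2 * τ) • (1 : Matrix (Fin d) (Fin d) ℝ) := by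
  ext i j
  have hd1 : DifferentiableAt ℝ (m.mo r fun y => b y i) x :=
    ((m.mo_smooth (H.li i) hr).differentiable (by simp)) x
  have hd2 : HasFDerivAt (fun y : V d => y i) (ContinuousLinearMap.proj i : V d →L[ℝ] ℝ) x :=
    (ContinuousLinearMap.proj i : V d →L[ℝ] ℝ).hasFDerivAt
  have key : ∀ τ : ℝ, jac (gk m b r τ) x i j =
      pd (m.mo r fun y => b y i) j x - 2 * τ * (1 : Matrix (Fin d) (Fin d) ℝ) i j := by
    intro τ
    have h1 : HasFDerivAt (fun y : V d => m.mo r (fun y => b y i) y - 2 * τ * y i)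
        (fderiv ℝ (m.mo r fun y => b y i) x - (2 * τ) • (ContinuousLinearMap.proj i : V d →L[ℝ] ℝ)) x :=
      hd1.hasFDerivAt.sub (hd2.const_mul (2 * τ))
    show fderiv ℝ (fun y : V d => m.mo r (fun y => b y i) y - 2 * τ * y i) x (Pi.single j 1) = _
    rw [h1.fderiv]
    show pd (m.mo r fun y => b y i) j x - 2 * τ * (Pi.single j (1 : ℝ) : V d) i = _
    rw [Matrix.one_apply, Pi.single_apply]
  rw [key τ, Matrix.sub_apply, key 0, Matrix.smul_apply, smul_eq_mul]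
  ring

/-- the constant of the entries -/
noncomputable def Mo.lam (m : Mo d) : ℝ := 2 ^ d * m.L + 2

theorem Mo.one_le_lam (m : Mo d) : 1 ≤ m.lam := by
  have := m.L1
  unfold Mo.lam
  have h : 0 ≤ (2 : ℝ) ^ d * m.L := by positivity
  linarith

theorem one_le_Ar (H : Hd b A α δ) {r : ℝ} (hr0 : 0 < r) (hr1 : r ≤ 1) : 1 ≤ A * r ^ (α - 1) := by
  have h1 : 1 ≤ r ^ (α - 1) := Real.one_le_rpow_of_pos_of_le_one_of_nonpos hr0 hr1 (by linarith [H.α1])
  have := H.A1
  nlinarith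

theorem jac_bound (H : Hd b A α δ) {r : ℝ} (hr : δ ≤ r) (hr1 : r ≤ 1) {τ : ℝ} (hτ : |τ| ≤ 1) {x : V d}
    (hx : ‖x‖ ≤ 1) (i j : Fin d) : |jac (gk m b r τ) x i j| ≤ m.lam * (A * r ^ (α - 1)) := by
  have hr0 : 0 < r := lt_of_lt_of_le H.δ0 hr
  have h1 : jac (gk m b r τ) x i j =
      pd (m.mo r fun y => b y i) j x - 2 * τ * (1 : Matrix (Fin d) (Fin d) ℝ) i j := by
    have e0 : jac (gk m b r 0) x i j = pd (m.mo r fun y => b y i) j x := by
      show pd (fun y => gk m b r 0 y i) j x = _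
      congr 1
      funext y
      unfold gk
      ring
    rw [jac_gk m H hr0 τ, Matrix.sub_apply, e0, Matrix.smul_apply, smul_eq_mul]
  rw [h1]
  have h2 := pd_mo_bound m H hr hr1 hx i j
  have h3 : |2 * τ * (1 : Matrix (Fin d) (Fin d) ℝ) i j| ≤ 2 := by
    rw [abs_mul, abs_mul, abs_of_pos (by norm_num : (0 : ℝ) < 2)]
    have h4 : |(1 : Matrix (Fin d) (Fin d) ℝ) i j| ≤ 1 := by
      rw [Matrix.one_apply]
      split_ifs <;> simp
    calc 2 * |τ| * |(1 : Matrix (Fin d) (Fin d) ℝ) i j| ≤ 2 * 1 * 1 := by gcongr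
      _ = 2 := by norm_num
  have h5 := one_le_Ar H hr0 hr1
  calc |pd (m.mo r fun y => b y i) j x - 2 * τ * (1 : Matrix (Fin d) (Fin d) ℝ) i j|
      ≤ |pd (m.mo r fun y => b y i) j x| + |2 * τ * (1 : Matrix (Fin d) (Fin d) ℝ) i j| := abs_sub _ _
    _ ≤ 2 ^ d * m.L * (A * r ^ (α - 1)) + 2 := add_le_add h2 h3
    _ ≤ m.lam * (A * r ^ (α - 1)) := by
        unfold Mo.lam
        nlinarith

/-- the constant of the boundary integral -/
noncomputable def C1 (m : Mo d) (e : Et d) : ℝ :=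
  d * ((d.factorial : ℝ) * (e.L * m.lam ^ (d - 1))) * 2 ^ d

theorem Ds_gk_le (e : Et d) {g : V d → V d} (hg : ContDiff ℝ ∞ g) {Y : ℝ} (hY : 0 ≤ Y)
    (h : ∀ x, ‖x‖ ≤ 1 → ∀ i j, |jac g x i j| ≤ m.lam * Y) :
    ∫ x, Ds g e.η x ≤ C1 m e * Y ^ (d - 1) := by
  have hl : 0 ≤ m.lam := by linarith [m.one_le_lam]
  refine (Ds_int_le e hg (by positivity) h).trans (le_of_eq ?_)
  unfold C1
  rw [mul_pow]
  ring

/-- the integral -/
noncomputable def Tt (e : Et d) (χ : V d → ℝ) (b : V d → V d) (r τ : ℝ) : ℝ :=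
  ∫ x, e.η x * (χ (gk m b r τ x) * dj (gk m b r τ) x)

theorem step (e : Et d) {χ : V d → ℝ} (hχ : ContDiff ℝ ∞ χ) (hχ0 : ∀ y, 0 ≤ χ y) (hχ1 : ∀ y, χ y ≤ 1)
    (hd : 1 ≤ d) (H : Hd b A α δ) {r : ℝ} (hr : δ ≤ r / 2) (hr1 : r ≤ 1) {τ : ℝ} (hτ : |τ| ≤ 1) :
    |Tt m e χ b (r / 2) τ - Tt m e χ b r τ| ≤
      2 * (C1 m e * 2 ^ (d - 1)) * A ^ d * r ^ (d * α - (d - 1)) := by
  have hr20 : 0 < r / 2 := lt_of_lt_of_le H.δ0 hr
  have hr0 : 0 < r := by linarith
  have hrr : δ ≤ r := by linarith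
  have hA := H.A1
  have hα := H.α0
  have hα1 := H.α1
  set v : V d → V d := fun x i => m.mo (r / 2) (fun y => b y i) x - m.mo r (fun y => b y i) x with hv
  have hvs : ContDiff ℝ ∞ v := by
    rw [contDiff_pi]
    intro i
    exact (m.mo_smooth (H.li i) hr20).sub (m.mo_smooth (H.li i) hr0)
  have hg := gk_smooth m H hr0 τ
  have hg2 := gk_smooth m H hr20 τ
  have hsg1 : sg (gk m b r τ) v 1 = gk m b (r / 2) τ := by
    funext x i
    simp only [sg, gk, hv, Pi.add_apply, Pi.smul_apply, smul_eq_mul]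
    ring
  have hε : ∀ x ∈ tsupport e.η, ∀ i, |v x i| ≤ 2 * (A * r ^ α) := by
    intro x hx i
    have hx1 : ‖x‖ ≤ 1 := by
      have := e.supp hx
      rwa [mem_closedBall_zero_iff] at this
    have h1 := close m H hrr hr1 hx1 i
    have h2 := close m H hr (by linarith) hx1 i
    have h3 : A * (r / 2) ^ α ≤ A * r ^ α := by
      gcongr
      linarith
    calc |v x i| = |(m.mo (r / 2) (fun y => b y i) x - b x i) - (m.mo r (fun y => b y i) x - b x i)| := by
          rw [hv]; congr 1; ring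
      _ ≤ |m.mo (r / 2) (fun y => b y i) x - b x i| + |m.mo r (fun y => b y i) x - b x i| := abs_sub _ _
      _ ≤ 2 * (A * r ^ α) := by linarith
  have h2r : (r / 2) ^ (α - 1) ≤ 2 * r ^ (α - 1) := by
    rw [Real.div_rpow hr0.le (by norm_num), div_eq_mul_inv, ← Real.rpow_neg (by norm_num), mul_comm]
    have : (2 : ℝ) ^ (-(α - 1)) ≤ 2 ^ (1 : ℝ) := Real.rpow_le_rpow_of_exponent_le (by norm_num) (by linarith)
    rw [Real.rpow_one] at this
    gcongr
  have hB : ∀ s ∈ Icc (0 : ℝ) 1, ∫ x, Ds (sg (gk m b r τ) v s) e.η x ≤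
      C1 m e * (A * (2 * r ^ (α - 1))) ^ (d - 1) := by
    intro s hs
    refine Ds_gk_le m e (sg_smooth hg hvs s) (by positivity) fun x hx i j => ?_
    have e1 : jac (sg (gk m b r τ) v s) x i j =
        (1 - s) * jac (gk m b r τ) x i j + s * jac (gk m b (r / 2) τ) x i j := by
      have h4 : jac (gk m b (r / 2) τ) x = jac (gk m b r τ) x + (1 : ℝ) • jac v x := by
        rw [← hsg1, jac_sg hg hvs]
      rw [jac_sg hg hvs, h4]
      simp only [Matrix.add_apply, Matrix.smul_apply, smul_eq_mul]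
      ring
    have h5 := jac_bound m H hrr hr1 hτ hx i j
    have h6 := jac_bound m H hr (by linarith) hτ hx i j
    have hl := m.one_le_lam
    have hrp : 0 < r ^ (α - 1) := Real.rpow_pos_of_pos hr0 _
    have h7 : m.lam * (A * r ^ (α - 1)) ≤ m.lam * (A * (2 * r ^ (α - 1))) := by
      gcongr
      linarith
    have h8 : m.lam * (A * (r / 2) ^ (α - 1)) ≤ m.lam * (A * (2 * r ^ (α - 1))) := by gcongr
    rw [e1]
    calc |(1 - s) * jac (gk m b r τ) x i j + s * jac (gk m b (r / 2) τ) x i j|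
        ≤ |(1 - s) * jac (gk m b r τ) x i j| + |s * jac (gk m b (r / 2) τ) x i j| := abs_add_le _ _
      _ = (1 - s) * |jac (gk m b r τ) x i j| + s * |jac (gk m b (r / 2) τ) x i j| := by
          rw [abs_mul, abs_mul, abs_of_nonneg (by linarith [hs.2] : 0 ≤ 1 - s), abs_of_nonneg hs.1]
      _ ≤ (1 - s) * (m.lam * (A * (2 * r ^ (α - 1)))) + s * (m.lam * (A * (2 * r ^ (α - 1)))) := by
          have h9 : 0 ≤ 1 - s := by linarith [hs.2]
          have h10 := hs.1
          gcongr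
          · exact h5.trans h7
          · exact h6.trans h8
      _ = m.lam * (A * (2 * r ^ (α - 1))) := by ring
  have h := homot hg hvs e.smooth e.compact hχ hχ0 hχ1 hε (by positivity) hB
  rw [hsg1] at h
  refine h.trans (le_of_eq ?_)
  have e2 : r ^ (d * α - (d - 1)) = r ^ α * (r ^ (α - 1)) ^ (d - 1) := by
    rw [← Real.rpow_natCast (r ^ (α - 1)), ← Real.rpow_mul hr0.le, ← Real.rpow_add hr0]
    congr 1
    rw [Nat.cast_sub hd]
    push_cast
    ring
  have e3 : A ^ d = A * A ^ (d - 1) := by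
    rw [← pow_succ']
    congr 1
    omega
  rw [e2, e3, mul_pow, mul_pow]
  ring

end Pool.Agent.J4.H87.Hol
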