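import Pool.Agent.J4.H87.HolG

set_option autoImplicit false

/-! Hölder translates: large sections. -/

open MeasureTheory Set Filter Topology Metric
open scoped ENNReal NNReal ContDiff

namespace Pool.Agent.J4.H87.Hol

open H248.ID (pd jac)

variable {d : ℕ} (m : Mo d) {b : V d → V d} {A α δ : ℝ}

/-- `(1/2)^κ` -/
noncomputable def qq (κ : ℝ) : ℝ := (1 / 2 : ℝ) ^ κ

theorem qq_pos (κ : ℝ) : 0 < qq κ := Real.rpow_pos_of_pos (by norm_num) _

theorem qq_lt {κ : ℝ} (hκ : 0 < κ) : qq κ < 1 := Real.rpow_lt_one (by norm_num) (by norm_num) hκ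

theorem half_rpow (k : ℕ) (κ : ℝ) : ((1 / 2 : ℝ) ^ k) ^ κ = qq κ ^ k := by
  unfold qq
  rw [← Real.rpow_natCast, ← Real.rpow_natCast, ← Real.rpow_mul (by norm_num),
    ← Real.rpow_mul (by norm_num), mul_comm]

/-- the constant of the steps -/
noncomputable def C2 (m : Mo d) (e : Et d) : ℝ := 2 * (C1 m e * 2 ^ (d - 1))

theorem one_le_C1 (hd : 1 ≤ d) (e : Et d) : 1 ≤ C1 m e := by
  unfold C1
  have h1 : (1 : ℝ) ≤ d := by exact_mod_cast hd
  have h2 : (1 : ℝ) ≤ d.factorial := by exact_mod_cast d.factorial_pos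
  have h3 : (1 : ℝ) ≤ m.lam ^ (d - 1) := one_le_pow₀ m.one_le_lam
  have h4 : (1 : ℝ) ≤ 2 ^ d := one_le_pow₀ (by norm_num)
  have h5 := e.L1
  have h6 : 1 ≤ e.L * m.lam ^ (d - 1) := one_le_mul_of_one_le_of_one_le h5 h3
  have h7 : 1 ≤ (d.factorial : ℝ) * (e.L * m.lam ^ (d - 1)) := one_le_mul_of_one_le_of_one_le h2 h6
  exact one_le_mul_of_one_le_of_one_le (one_le_mul_of_one_le_of_one_le h1 h7) h4

theorem one_le_C2 (hd : 1 ≤ d) (e : Et d) : 1 ≤ C2 m e := by
  unfold C2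
  have h1 := one_le_C1 m hd e
  have h4 : (1 : ℝ) ≤ 2 ^ (d - 1) := one_le_pow₀ (by norm_num)
  have := one_le_mul_of_one_le_of_one_le h1 h4
  linarith

theorem telescope (e : Et d) {χ : V d → ℝ} (hχ : ContDiff ℝ ∞ χ) (hχ0 : ∀ y, 0 ≤ χ y)
    (hχ1 : ∀ y, χ y ≤ 1) (hd : 1 ≤ d) (H : Hd b A α δ) (hκ : 0 < d * α - (d - 1)) {τ : ℝ} (hτ : |τ| ≤ 1)
    (j K : ℕ) (hjK : j ≤ K) (hK : δ ≤ (1 / 2 : ℝ) ^ K) :
    |Tt m e χ b ((1 / 2 : ℝ) ^ K) τ - Tt m e χ b ((1 / 2 : ℝ) ^ j) τ| ≤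
      C2 m e * A ^ d / (1 - qq (d * α - (d - 1))) *
        (qq (d * α - (d - 1)) ^ j - qq (d * α - (d - 1)) ^ K) := by
  set κ : ℝ := d * α - (d - 1) with hκd
  have hq1 := qq_lt hκ
  induction K, hjK using Nat.le_induction with
  | base => simp
  | succ K hjK ih =>
    have hK' : δ ≤ (1 / 2 : ℝ) ^ K / 2 := by
      rw [pow_succ] at hK
      linarith
    have hK'' : δ ≤ (1 / 2 : ℝ) ^ K := by
      have : 0 < (1 / 2 : ℝ) ^ K := by positivity
      linarith
    have h1 := ih hK''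
    have h2 := step m e hχ hχ0 hχ1 hd H hK' (pow_le_one₀ (by norm_num) (by norm_num)) hτ
    rw [← hκd, half_rpow] at h2
    have e1 : (1 / 2 : ℝ) ^ (K + 1) = (1 / 2 : ℝ) ^ K / 2 := by rw [pow_succ]; ring
    rw [e1]
    have e2 : 2 * (C1 m e * 2 ^ (d - 1)) * A ^ d * qq κ ^ K =
        C2 m e * A ^ d / (1 - qq κ) * (qq κ ^ K - qq κ ^ (K + 1)) := by
      unfold C2
      have : (1 - qq κ) ≠ 0 := by linarith
      rw [pow_succ]
      field_simp
    rw [e2] at h2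
    calc |Tt m e χ b ((1 / 2 : ℝ) ^ K / 2) τ - Tt m e χ b ((1 / 2 : ℝ) ^ j) τ|
        ≤ |Tt m e χ b ((1 / 2 : ℝ) ^ K / 2) τ - Tt m e χ b ((1 / 2 : ℝ) ^ K) τ| +
          |Tt m e χ b ((1 / 2 : ℝ) ^ K) τ - Tt m e χ b ((1 / 2 : ℝ) ^ j) τ| := abs_sub_le _ _ _
      _ ≤ C2 m e * A ^ d / (1 - qq κ) * (qq κ ^ K - qq κ ^ (K + 1)) +
          C2 m e * A ^ d / (1 - qq κ) * (qq κ ^ j - qq κ ^ K) := add_le_add h2 h1
      _ = _ := by ring

/-- the section at height `τ` -/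
def img (b : V d → V d) (τ : ℝ) : Set (V d) := {z | ∃ x, ‖x‖ ≤ 1 ∧ z = fun i => b x i - 2 * τ * x i}

theorem img_bdd (H : Hd b A α δ) (τ : ℝ) : ∃ R : ℝ, ∀ z ∈ img b τ, ‖z‖ ≤ R := by
  refine ⟨‖b 0‖ + A * 2 ^ α + 2 * |τ|, ?_⟩
  rintro z ⟨x, hx, rfl⟩
  have hA := H.A1
  have hα := H.α0
  have h0 : 0 ≤ ‖b 0‖ + A * 2 ^ α + 2 * |τ| := by positivity
  rw [pi_norm_le_iff_of_nonneg h0]
  intro i
  rw [Real.norm_eq_abs]
  have h1 := H.hb 0 x (by simp) (by linarith) i
  rw [sub_zero] at h1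
  have h2 : A * max ‖x‖ δ ^ α ≤ A * 2 ^ α := by
    have : 0 ≤ max ‖x‖ δ := le_max_of_le_left (norm_nonneg _)
    gcongr
    exact max_le (by linarith) (by linarith [H.δ1])
  have h3 : |b 0 i| ≤ ‖b 0‖ := norm_le_pi_norm (b 0) i
  have h4 : |2 * τ * x i| ≤ 2 * |τ| := by
    rw [abs_mul, abs_mul, abs_of_pos (by norm_num : (0 : ℝ) < 2)]
    have : |x i| ≤ 1 := (norm_le_pi_norm x i).trans hx
    calc 2 * |τ| * |x i| ≤ 2 * |τ| * 1 := by gcongr
      _ = _ := mul_one _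
  calc |b x i - 2 * τ * x i| = |b 0 i + (b x i - b 0 i) - 2 * τ * x i| := by congr 1; ring
    _ ≤ |b 0 i + (b x i - b 0 i)| + |2 * τ * x i| := abs_sub _ _
    _ ≤ |b 0 i| + |b x i - b 0 i| + |2 * τ * x i| := by gcongr; exact abs_add_le _ _
    _ ≤ _ := by linarith

/-- a smooth function which is `1` near the section and `0` far from it -/
theorem exists_chi {S : Set (V d)} {R ρ : ℝ} (hS : ∀ z ∈ S, ‖z‖ ≤ R) (hρ : 0 < ρ) :
    ∃ χ : V d → ℝ, ContDiff ℝ ∞ χ ∧ (∀ y, 0 ≤ χ y) ∧ (∀ y, χ y ≤ 1) ∧ HasCompactSupport χ ∧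
      (∀ y, χ y ≤ (thickening (4 * ρ) S).indicator (fun _ => (1 : ℝ)) y) ∧
      ∀ y, ∀ z ∈ S, ‖y - z‖ ≤ ρ → χ y = 1 := by
  obtain ⟨m⟩ := mo_nonempty d
  set W : Set (V d) := thickening (3 * ρ) S with hW
  set g : V d → ℝ := W.indicator fun _ => (1 : ℝ) with hg
  have hWm : MeasurableSet W := isOpen_thickening.measurableSet
  have hli : LocallyIntegrable g := (locallyIntegrable_const (1 : ℝ)).indicator hWm
  have h01 : ∀ y, |g y - 1 / 2| ≤ 1 / 2 := by
    intro y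
    by_cases hy : y ∈ W
    · rw [hg, indicator_of_mem hy]; norm_num
    · rw [hg, indicator_of_notMem hy]; norm_num
  have hb : ∀ y, |m.mo ρ g y - 1 / 2| ≤ 1 / 2 := fun y => m.mo_close hli hρ fun z _ => h01 z
  have hz : ∀ y, y ∉ thickening (4 * ρ) S → m.mo ρ g y = 0 := by
    intro y hy
    have h1 : |m.mo ρ g y - 0| ≤ 0 := m.mo_close hli hρ fun z hz => by
      have : z ∉ W := by
        intro hzW
        rw [hW, mem_thickening_iff] at hzW
        obtain ⟨s, hs, hzs⟩ := hzW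
        apply hy
        rw [mem_thickening_iff]
        refine ⟨s, hs, ?_⟩
        calc dist y s ≤ dist y z + dist z s := dist_triangle _ _ _
          _ < ρ + 3 * ρ := by
              rw [dist_comm y z, dist_eq_norm z y]
              exact add_lt_add_of_le_of_lt hz hzs
          _ = 4 * ρ := by ring
      rw [hg, indicator_of_notMem this]
      simp
    rw [sub_zero] at h1
    exact abs_nonpos_iff.1 h1
  refine ⟨m.mo ρ g, m.mo_smooth hli hρ, fun y => ?_, fun y => ?_, ?_, fun y => ?_, ?_⟩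
  · have := abs_le.1 (hb y); linarith [this.1]
  · have := abs_le.1 (hb y); linarith [this.2]
  · refine HasCompactSupport.of_support_subset_isCompact (isCompact_closedBall (0 : V d) (R + 4 * ρ)) ?_
    intro y hy
    by_contra hn
    apply hy
    apply hz
    intro hmem
    rw [mem_thickening_iff] at hmem
    obtain ⟨s, hs, hys⟩ := hmem
    apply hn
    rw [mem_closedBall_zero_iff]
    have h1 := hS s hs
    rw [dist_eq_norm] at hys
    have h2 := norm_le_norm_add_norm_sub' y s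
    linarith
  · by_cases hy : y ∈ thickening (4 * ρ) S
    · rw [indicator_of_mem hy]
      have := abs_le.1 (hb y); linarith [this.2]
    · rw [indicator_of_notMem hy, hz y hy]
  · intro y z hz hyz
    have h1 : |m.mo ρ g y - 1| ≤ 0 := m.mo_close hli hρ fun w hw => by
      have : w ∈ W := by
        rw [hW, mem_thickening_iff]
        refine ⟨z, hz, ?_⟩
        calc dist w z ≤ dist w y + dist y z := dist_triangle _ _ _
          _ ≤ ρ + ρ := by rw [dist_eq_norm, dist_eq_norm]; exact add_le_add hw hyz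
          _ < 3 * ρ := by linarith
      rw [hg, indicator_of_mem this]
      simp
    have h2 := abs_nonpos_iff.1 h1
    linarith

/-- the Jacobian integral without the cut-off in the image -/
noncomputable def Pt (e : Et d) (b : V d → V d) (r τ : ℝ) : ℝ := ∫ x, e.η x * dj (gk m b r τ) x

/-- one height -/
theorem one_height (e : Et d) (hd : 2 ≤ d) (H : Hd b A α δ) (hκ : 0 < d * α - (d - 1)) {τ : ℝ}
    (hτ : |τ| ≤ 1) (j K : ℕ) (hjK : j ≤ K) (hK : δ ≤ (1 / 2 : ℝ) ^ K) (hK2 : (1 / 2 : ℝ) ^ K ≤ 2 * δ)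
    {R : ℝ} (hR : 0 < R) (hU : volume (thickening (8 * A * δ ^ α) (img b τ)) ≤ ENNReal.ofReal (R ^ d)) :
    |Pt m e b ((1 / 2 : ℝ) ^ K) τ| ≤
      (2 ^ d + 1) * R * (C1 m e * (A * 2 ^ j) ^ (d - 1)) +
      C2 m e * A ^ d / (1 - qq (d * α - (d - 1))) * qq (d * α - (d - 1)) ^ j := by
  have hA := H.A1
  have hα := H.α0
  have hα1 := H.α1
  have hδ := H.δ0
  set r : ℝ := (1 / 2 : ℝ) ^ K with hr
  have hr0 : 0 < r := by positivity
  have hr1 : r ≤ 1 := pow_le_one₀ (by norm_num) (by norm_num)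
  set ρ : ℝ := 2 * A * δ ^ α with hρ
  have hρ0 : 0 < ρ := by positivity
  have h4ρ : 8 * A * δ ^ α = 4 * ρ := by rw [hρ]; ring
  rw [h4ρ] at hU
  obtain ⟨R0, hR0⟩ := img_bdd H τ
  obtain ⟨χ, hχ, hχ0, hχ1, hχc, hχU, hχ2⟩ := exists_chi hR0 hρ0
  have harρ : A * r ^ α ≤ ρ := by
    have h1 : r ^ α ≤ (2 * δ) ^ α := by gcongr
    have h2 : (2 * δ) ^ α = 2 ^ α * δ ^ α := Real.mul_rpow (by norm_num) hδ.le
    have h3 : (2 : ℝ) ^ α ≤ 2 := by
      calc (2 : ℝ) ^ α ≤ 2 ^ (1 : ℝ) := Real.rpow_le_rpow_of_exponent_le (by norm_num) hα1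
        _ = 2 := Real.rpow_one 2
    rw [hρ]
    calc A * r ^ α ≤ A * (2 ^ α * δ ^ α) := by rw [← h2]; gcongr
      _ ≤ A * (2 * δ ^ α) := by gcongr
      _ = _ := by ring
  -- the cut-off in the image does nothing
  have e1 : Pt m e b r τ = Tt m e χ b r τ := by
    unfold Pt Tt
    refine integral_congr_ae (Eventually.of_forall fun x => ?_)
    show e.η x * dj (gk m b r τ) x = e.η x * (χ (gk m b r τ x) * dj (gk m b r τ) x)
    by_cases hx : x ∈ tsupport e.η
    · have hx1 : ‖x‖ ≤ 1 := by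
        have := e.supp hx
        rwa [mem_closedBall_zero_iff] at this
      have h1 : χ (gk m b r τ x) = 1 := by
        refine hχ2 _ (fun i => b x i - 2 * τ * x i) ⟨x, hx1, rfl⟩ ?_
        rw [pi_norm_le_iff_of_nonneg hρ0.le]
        intro i
        have h2 := close m H hK hr1 hx1 i
        show ‖gk m b r τ x i - (b x i - 2 * τ * x i)‖ ≤ ρ
        rw [Real.norm_eq_abs]
        unfold gk
        have e2 : m.mo r (fun y => b y i) x - 2 * τ * x i - (b x i - 2 * τ * x i) =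
            m.mo r (fun y => b y i) x - b x i := by ring
        rw [e2]
        exact h2.trans harρ
      rw [h1, one_mul]
    · have : e.η x = 0 := image_eq_zero_of_notMem_tsupport hx
      rw [this, zero_mul, zero_mul]
  rw [e1]
  set rj : ℝ := (1 / 2 : ℝ) ^ j with hrj
  have hrj0 : 0 < rj := by positivity
  have hrj1 : rj ≤ 1 := pow_le_one₀ (by norm_num) (by norm_num)
  have hδj : δ ≤ rj := by
    refine hK.trans ?_
    exact pow_le_pow_of_le_one (by norm_num) (by norm_num) hjK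
  have ht := telescope m e hχ hχ0 hχ1 (by omega) H hκ hτ j K hjK hK
  have hk : |Tt m e χ b rj τ| ≤ (2 ^ d + 1) * R * (C1 m e * (A * 2 ^ j) ^ (d - 1)) := by
    have h1 := key hd (gk_smooth m H hrj0 τ) e.smooth e.compact hχ hχ0 hχc
      isOpen_thickening.measurableSet hχU hR hU
    refine h1.trans ?_
    have h2 := Ds_gk_le m e (gk_smooth m H hrj0 τ) (Y := A * rj ^ (α - 1)) (by positivity)
      fun x hx i k => jac_bound m H hδj hrj1 hτ hx i k
    have h3 : rj ^ (α - 1) ≤ 2 ^ j := by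
      rw [hrj, ← Real.rpow_natCast, ← Real.rpow_mul (by norm_num), one_div, Real.inv_rpow (by norm_num),
        ← Real.rpow_neg (by norm_num), ← Real.rpow_natCast]
      refine Real.rpow_le_rpow_of_exponent_le (by norm_num) ?_
      have : (0 : ℝ) ≤ j := Nat.cast_nonneg _
      nlinarith
    have hC1 : 0 ≤ C1 m e := by linarith [one_le_C1 m (by omega : 1 ≤ d) e]
    have h4 : C1 m e * (A * rj ^ (α - 1)) ^ (d - 1) ≤ C1 m e * (A * 2 ^ j) ^ (d - 1) := by gcongr
    have h5 := h2.trans h4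
    gcongr
  have hc0 : 0 ≤ C2 m e * A ^ d / (1 - qq (d * α - (d - 1))) := by
    have h1 := one_le_C2 m (by omega : 1 ≤ d) e
    have h2 := qq_lt hκ
    exact div_nonneg (by positivity) (by linarith)
  have h6 : C2 m e * A ^ d / (1 - qq (d * α - (d - 1))) *
      (qq (d * α - (d - 1)) ^ j - qq (d * α - (d - 1)) ^ K) ≤
      C2 m e * A ^ d / (1 - qq (d * α - (d - 1))) * qq (d * α - (d - 1)) ^ j := by
    gcongr
    have : 0 < qq (d * α - (d - 1)) ^ K := pow_pos (qq_pos _) _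
    linarith
  calc |Tt m e χ b r τ| = |Tt m e χ b rj τ + (Tt m e χ b r τ - Tt m e χ b rj τ)| := by congr 1; ring
    _ ≤ |Tt m e χ b rj τ| + |Tt m e χ b r τ - Tt m e χ b rj τ| := abs_add_le _ _
    _ ≤ _ := add_le_add hk (ht.trans h6)

/-- The difference of order `d` of the Jacobian integral. -/
theorem Pt_diff (e : Et d) (H : Hd b A α δ) {r : ℝ} (hr : 0 < r) (t h : ℝ) (hh : 0 < h) :
    ∑ k ∈ Finset.range (d + 1), ((-1 : ℝ) ^ (d - k) * (d.choose k : ℝ)) * Pt m e b r (t + k * h) =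
      (-(2 * h)) ^ d * (d.factorial : ℝ) * ∫ x, e.η x := by
  have h1 : ∀ k : ℕ, Integrable fun x => e.η x * dj (gk m b r (t + k * h)) x := fun k =>
    integrable_of (e.smooth.continuous.mul (dj_contDiff (gk_smooth m H hr _)).continuous)
      e.compact.mul_right
  unfold Pt
  simp only [← integral_const_mul]
  rw [← integral_finsetSum _ fun k _ => (h1 k).const_mul _]
  refine integral_congr_ae (Eventually.of_forall fun x => ?_)
  show ∑ k ∈ Finset.range (d + 1), ((-1 : ℝ) ^ (d - k) * (d.choose k : ℝ)) *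
    (e.η x * dj (gk m b r (t + k * h)) x) = (-(2 * h)) ^ d * (d.factorial : ℝ) * e.η x
  rw [← fin_diff (jac (gk m b r 0) x) t h hh, Finset.sum_mul]
  refine Finset.sum_congr rfl fun k _ => ?_
  unfold dj
  rw [jac_gk m H hr (t + k * h)]
  ring

end Pool.Agent.J4.H87.Hol
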