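import Pool.Agent.J4.H87.HolH

set_option autoImplicit false

/-! Hölder translates: one of `d + 1` sections is large. -/

open MeasureTheory Set Filter Topology Metric
open scoped ENNReal NNReal ContDiff

namespace Pool.Agent.J4.H87.Hol

open H248.ID (pd jac)

variable {d : ℕ}

/-- **One of `d + 1` equidistant sections is large.** -/
theorem core (hd : 2 ≤ d) {α : ℝ} (hκ : 0 < d * α - (d - 1)) {h : ℝ} (hh : 0 < h) (hh1 : h ≤ 1) :
    ∃ C p : ℝ, 1 ≤ C ∧ 0 ≤ p ∧ ∀ (A δ : ℝ) (b : V d → V d), Hd b A α δ → C * A ^ p * δ ≤ 1 →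
      ∀ t : ℝ, (∀ k ∈ Finset.range (d + 1), |t + k * h| ≤ 1) →
      ∃ k ∈ Finset.range (d + 1),
        ENNReal.ofReal ((C * A ^ p)⁻¹) ≤ volume (thickening (8 * A * δ ^ α) (img b (t + k * h))) := by
  obtain ⟨m⟩ := mo_nonempty d
  obtain ⟨e⟩ := et_nonempty d
  have hd1 : 1 ≤ d := by omega
  have hC1 := one_le_C1 m hd1 e
  have hC2 := one_le_C2 m hd1 e
  set κ : ℝ := d * α - (d - 1) with hκd
  have hq0 := qq_pos κ
  have hq1 := qq_lt hκ
  set q := qq κ with hq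
  have hhd0 : 0 < h ^ d := by positivity
  have hhd1 : h ^ d ≤ 1 := pow_le_one₀ hh.le hh1
  set Y0 : ℝ := 4 * C2 m e / ((1 - q) * h ^ d) with hY0
  have hden0 : 0 < (1 - q) * h ^ d := mul_pos (by linarith) hhd0
  have hden1 : (1 - q) * h ^ d ≤ 1 := by
    have : 0 ≤ 1 - q := by linarith
    nlinarith
  have hY01 : 1 ≤ Y0 := by
    rw [hY0, le_div_iff₀ hden0]
    linarith
  set Z0 : ℝ := 2 * Y0 ^ (1 / κ) with hZ0
  have hZ01 : 1 ≤ Z0 := by
    have : 1 ≤ Y0 ^ (1 / κ) := Real.one_le_rpow hY01 (by positivity)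
    rw [hZ0]
    linarith
  set D : ℝ := 4 * (2 ^ d + 1) * C1 m e * Z0 ^ (d - 1) / h ^ d with hD
  have hD1 : 1 ≤ D := by
    rw [hD, le_div_iff₀ hhd0]
    have h1 : 1 ≤ Z0 ^ (d - 1) := one_le_pow₀ hZ01
    have h2 : (1 : ℝ) ≤ 4 * (2 ^ d + 1) := by
      have : (0 : ℝ) < 2 ^ d := by positivity
      linarith
    have h3 := one_le_mul_of_one_le_of_one_le (one_le_mul_of_one_le_of_one_le h2 hC1) h1
    linarith
  have hd0 : (0 : ℝ) < d := by exact_mod_cast hd1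
  have hdm : (0 : ℝ) ≤ (d : ℝ) - 1 := by
    have : (1 : ℝ) ≤ d := by exact_mod_cast hd1
    linarith
  set p1 : ℝ := (1 + d / κ) * (d - 1) with hp1
  have hp10 : 0 ≤ p1 := by positivity
  refine ⟨D ^ d * Z0, p1 * d + d / κ, ?_, by positivity, ?_⟩
  · exact one_le_mul_of_one_le_of_one_le (one_le_pow₀ hD1) hZ01
  intro A δ b H hδ t ht
  have hA := H.A1
  have hA0 : 0 < A := by linarith
  have hδ0 := H.δ0
  set Y : ℝ := Y0 * A ^ d with hY
  have hY1 : 1 ≤ Y := one_le_mul_of_one_le_of_one_le hY01 (one_le_pow₀ hA)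
  obtain ⟨j, hj1, hj2⟩ := choose_scale hY1 hκ
  have hqj : ((1 / 2 : ℝ) ^ κ) = q := rfl
  rw [hqj] at hj2
  have hAk1 : 1 ≤ A ^ (d / κ) := Real.one_le_rpow hA (by positivity)
  have hApd1 : 1 ≤ A ^ (p1 * d) := Real.one_le_rpow hA (by positivity)
  have hj3 : (2 : ℝ) ^ j ≤ Z0 * A ^ (d / κ) := by
    refine hj1.trans (le_of_eq ?_)
    rw [hY, Real.mul_rpow (by linarith) (by positivity), hZ0, ← Real.rpow_natCast A d,
      ← Real.rpow_mul hA0.le]
    have : (d : ℝ) * (1 / κ) = d / κ := by ring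
    rw [this]
    ring
  have hAp : A ^ (p1 * d + d / κ) = A ^ (p1 * d) * A ^ (d / κ) := Real.rpow_add hA0 _ _
  -- the scale of the net
  obtain ⟨K, hK1, hK2⟩ := exists_nat_pow_near_of_lt_one H.δ0 H.δ1 (by norm_num : (0 : ℝ) < 1 / 2)
    (by norm_num : (1 / 2 : ℝ) < 1)
  have hKδ : (1 / 2 : ℝ) ^ K ≤ 2 * δ := by
    rw [pow_succ] at hK1
    linarith
  have hjK : j ≤ K := by
    by_contra hcon
    rw [not_le] at hcon
    have h1 : (1 / 2 : ℝ) ^ j ≤ (1 / 2 : ℝ) ^ (K + 1) :=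
      pow_le_pow_of_le_one (by norm_num) (by norm_num) hcon
    have h2 : (1 / 2 : ℝ) ^ j < δ := lt_of_le_of_lt h1 hK1
    have h3 : (2 : ℝ) ^ j * (1 / 2 : ℝ) ^ j = 1 := by rw [← mul_pow]; norm_num
    have h4 : (2 : ℝ) ^ j ≤ D ^ d * Z0 * A ^ (p1 * d + d / κ) := by
      refine hj3.trans ?_
      rw [hAp]
      have h5 : 1 ≤ D ^ d := one_le_pow₀ hD1
      have h6 : 0 < Z0 * A ^ (d / κ) := by positivity
      have h7 : 1 ≤ D ^ d * A ^ (p1 * d) := one_le_mul_of_one_le_of_one_le h5 hApd1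
      calc Z0 * A ^ (d / κ) = 1 * (Z0 * A ^ (d / κ)) := (one_mul _).symm
        _ ≤ (D ^ d * A ^ (p1 * d)) * (Z0 * A ^ (d / κ)) := by gcongr
        _ = _ := by ring
    have h5 : (2 : ℝ) ^ j * (1 / 2 : ℝ) ^ j < 1 := by
      calc (2 : ℝ) ^ j * (1 / 2 : ℝ) ^ j < (2 : ℝ) ^ j * δ := by gcongr
        _ ≤ (D ^ d * Z0 * A ^ (p1 * d + d / κ)) * δ := by gcongr
        _ ≤ 1 := hδ
    linarith
  by_contra hcon
  push Not at hcon
  -- the radius
  set R : ℝ := (D * A ^ p1)⁻¹ with hR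
  have hR0 : 0 < R := by positivity
  have hRd : ENNReal.ofReal ((D ^ d * Z0 * A ^ (p1 * d + d / κ))⁻¹) ≤ ENNReal.ofReal (R ^ d) := by
    apply ENNReal.ofReal_le_ofReal
    rw [hR, inv_pow, mul_pow, ← Real.rpow_natCast (A ^ p1), ← Real.rpow_mul hA0.le, hAp]
    apply inv_anti₀ (by positivity)
    have h6 : 1 ≤ Z0 * A ^ (d / κ) := one_le_mul_of_one_le_of_one_le hZ01 hAk1
    calc D ^ d * A ^ (p1 * ↑d) = D ^ d * A ^ (p1 * ↑d) * 1 := (mul_one _).symm
      _ ≤ D ^ d * A ^ (p1 * ↑d) * (Z0 * A ^ (d / κ)) := by gcongr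
      _ = _ := by ring
  have hbound : ∀ k ∈ Finset.range (d + 1), |Pt m e b ((1 / 2 : ℝ) ^ K) (t + k * h)| ≤ h ^ d / 2 := by
    intro k hk
    have h1 := one_height m e hd H hκ (ht k hk) j K hjK hK2 hKδ hR0 ((hcon k hk).le.trans hRd)
    rw [← hκd, ← hq] at h1
    refine h1.trans ?_
    have h2 : (2 ^ d + 1) * R * (C1 m e * (A * 2 ^ j) ^ (d - 1)) ≤ h ^ d / 4 := by
      have h3 : (A * 2 ^ j) ^ (d - 1) ≤ Z0 ^ (d - 1) * A ^ p1 := by
        calc (A * 2 ^ j) ^ (d - 1) ≤ (A * (Z0 * A ^ (d / κ))) ^ (d - 1) := by gcongr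
          _ = Z0 ^ (d - 1) * (A * A ^ (d / κ)) ^ (d - 1) := by rw [← mul_pow]; congr 1; ring
          _ = Z0 ^ (d - 1) * A ^ p1 := by
              congr 1
              have e1 : A * A ^ (d / κ) = A ^ (1 + d / κ) := by
                rw [Real.rpow_add hA0, Real.rpow_one]
              rw [e1, ← Real.rpow_natCast (A ^ (1 + d / κ)), ← Real.rpow_mul hA0.le, hp1,
                Nat.cast_sub hd1, Nat.cast_one]
      have hC10 : 0 ≤ C1 m e := by linarith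
      calc (2 ^ d + 1) * R * (C1 m e * (A * 2 ^ j) ^ (d - 1))
          ≤ (2 ^ d + 1) * R * (C1 m e * (Z0 ^ (d - 1) * A ^ p1)) := by gcongr
        _ = h ^ d / 4 := by
            rw [hR, hD]
            have h5 : A ^ p1 ≠ 0 := by positivity
            have h6 : Z0 ^ (d - 1) ≠ 0 := by positivity
            have h7 : C1 m e ≠ 0 := by positivity
            field_simp
    have h3 : C2 m e * A ^ d / (1 - q) * q ^ j ≤ h ^ d / 4 := by
      have e2 : C2 m e * A ^ d / (1 - q) * q ^ j = h ^ d / 4 * (Y * q ^ j) := by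
        rw [hY, hY0]
        have : (1 - q) ≠ 0 := by linarith
        field_simp
      rw [e2]
      calc h ^ d / 4 * (Y * q ^ j) ≤ h ^ d / 4 * 1 := by gcongr
        _ = h ^ d / 4 := mul_one _
    linarith
  have hdiff := Pt_diff m e H (r := (1 / 2 : ℝ) ^ K) (by positivity) t h hh
  have h8 : |(-(2 * h)) ^ d * (d.factorial : ℝ) * ∫ x, e.η x| ≤ 2 ^ d * (h ^ d / 2) := by
    rw [← hdiff]
    refine (Finset.abs_sum_le_sum_abs _ _).trans ?_
    rw [← coef_sum d, Finset.sum_mul]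
    refine Finset.sum_le_sum fun k hk => ?_
    rw [abs_mul]
    exact mul_le_mul_of_nonneg_left (hbound k hk) (abs_nonneg _)
  have h9 : (2 * h) ^ d ≤ |(-(2 * h)) ^ d * (d.factorial : ℝ) * ∫ x, e.η x| := by
    have h10 := e.int_ge
    have h11 : (1 : ℝ) ≤ d.factorial := by exact_mod_cast d.factorial_pos
    rw [abs_mul, abs_mul, abs_pow, abs_neg, abs_of_pos (by positivity : (0 : ℝ) < 2 * h), Nat.abs_cast,
      abs_of_nonneg (by linarith)]
    have h12 : 1 ≤ (d.factorial : ℝ) * ∫ x, e.η x := one_le_mul_of_one_le_of_one_le h11 h10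
    calc (2 * h) ^ d = (2 * h) ^ d * 1 := (mul_one _).symm
      _ ≤ (2 * h) ^ d * ((d.factorial : ℝ) * ∫ x, e.η x) := by gcongr
      _ = _ := by ring
  have h13 : (2 * h) ^ d = 2 ^ d * h ^ d := mul_pow _ _ _
  have h14 : 0 < (2 : ℝ) ^ d * h ^ d := by positivity
  linarith

end Pool.Agent.J4.H87.Hol
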