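import Pool.Agent.J4.H87.HolA

set_option autoImplicit false

/-! Hölder translates: neighbourhoods of different radii. -/

open MeasureTheory Set Filter Topology Metric
open scoped ENNReal NNReal ContDiff

namespace Pool.Agent.J4.H87.Hol

variable {d : ℕ}

/-- Neighbourhoods of different radii of a set. -/
theorem vol_thickening_le (F : Set (V d)) {ε ρ : ℝ} (hε : 0 < ε) (hερ : ε ≤ ρ) :
    volume (thickening ρ F) ≤ ENNReal.ofReal ((5 * ρ / ε) ^ d) * volume (thickening ε F) := by
  classical
  have hρ : 0 < ρ := hε.trans_le hερ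
  set n : ℕ := ⌈ρ / ε⌉₊ with hn
  set Λ : Finset (Fin d → ℤ) := Fintype.piFinset fun _ => Finset.Icc (-(n : ℤ)) n with hΛ
  have hcov : thickening ρ F ⊆ ⋃ z ∈ Λ, (fun y : V d => y + fun i => ε * (z i : ℝ)) '' thickening ε F := by
    intro y hy
    rw [mem_thickening_iff] at hy
    obtain ⟨x, hx, hyx⟩ := hy
    set w : V d := y - x with hw
    have hwn : ‖w‖ < ρ := by rw [hw, ← dist_eq_norm]; exact hyx
    have hwi : ∀ i, |w i| < ρ := fun i => (norm_le_pi_norm w i).trans_lt hwn
    set z : Fin d → ℤ := fun i => round (w i / ε) with hz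
    have hzr : ∀ i, |w i - ε * (z i : ℝ)| ≤ ε / 2 := by
      intro i
      have h1 := abs_sub_round (w i / ε)
      have h2 : w i - ε * (z i : ℝ) = ε * (w i / ε - round (w i / ε)) := by
        rw [hz]; field_simp
      rw [h2, abs_mul, abs_of_pos hε]
      nlinarith
    have hzΛ : z ∈ Λ := by
      rw [hΛ, Fintype.mem_piFinset]
      intro i
      rw [Finset.mem_Icc]
      have h1 : |w i / ε| < ρ / ε := by
        rw [abs_div, abs_of_pos hε]
        exact div_lt_div_of_pos_right (hwi i) hε
      have h2 : ρ / ε ≤ n := Nat.le_ceil _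
      have h3 := abs_lt.1 h1
      have h4 := abs_le.1 (abs_sub_round (w i / ε))
      have h5 : (z i : ℝ) < n + 1 := by
        show ((round (w i / ε) : ℤ) : ℝ) < n + 1
        linarith [h4.1]
      have h6 : -((n : ℝ) + 1) < (z i : ℝ) := by
        show -((n : ℝ) + 1) < ((round (w i / ε) : ℤ) : ℝ)
        linarith [h4.2]
      have h7 : z i < (n : ℤ) + 1 := by exact_mod_cast h5
      have h8 : -((n : ℤ) + 1) < z i := by exact_mod_cast h6
      constructor <;> omega
    rw [mem_iUnion₂]
    refine ⟨z, hzΛ, y - (fun i => ε * (z i : ℝ)), ?_, by simp⟩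
    rw [mem_thickening_iff]
    refine ⟨x, hx, ?_⟩
    rw [dist_eq_norm]
    have h9 : y - (fun i => ε * (z i : ℝ)) - x = fun i => w i - ε * (z i : ℝ) := by
      funext i
      simp only [hw, Pi.sub_apply]
      ring
    rw [h9]
    refine lt_of_le_of_lt ((pi_norm_le_iff_of_nonneg (by positivity : 0 ≤ ε / 2)).2 fun i => ?_)
      (by linarith)
    rw [Real.norm_eq_abs]
    exact hzr i
  have hcard : (Λ.card : ℝ) ≤ (5 * ρ / ε) ^ d := by
    rw [hΛ, Fintype.card_piFinset_const, Int.card_Icc]
    have h1 : ((n : ℤ) + 1 - -(n : ℤ)).toNat = 2 * n + 1 := by omega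
    rw [h1]
    push_cast
    have h2 : (n : ℝ) < ρ / ε + 1 := Nat.ceil_lt_add_one (by positivity)
    have h3 : 1 ≤ ρ / ε := by rwa [le_div_iff₀ hε, one_mul]
    have h4 : 2 * (n : ℝ) + 1 ≤ 5 * ρ / ε := by
      have : 5 * ρ / ε = 5 * (ρ / ε) := by ring
      rw [this]
      linarith
    gcongr
  calc volume (thickening ρ F)
      ≤ volume (⋃ z ∈ Λ, (fun y : V d => y + fun i => ε * (z i : ℝ)) '' thickening ε F) :=
        measure_mono hcov
    _ ≤ ∑ z ∈ Λ, volume ((fun y : V d => y + fun i => ε * (z i : ℝ)) '' thickening ε F) :=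
        measure_biUnion_finset_le _ _
    _ = ∑ _z ∈ Λ, volume (thickening ε F) := by
        refine Finset.sum_congr rfl fun z _ => ?_
        rw [image_add_right, measure_preimage_add_right]
    _ = (Λ.card : ℝ≥0∞) * volume (thickening ε F) := by
        rw [Finset.sum_const, nsmul_eq_mul]
    _ ≤ ENNReal.ofReal ((5 * ρ / ε) ^ d) * volume (thickening ε F) := by
        gcongr
        rw [← ENNReal.ofReal_natCast]
        exact ENNReal.ofReal_le_ofReal hcard

end Pool.Agent.J4.H87.Hol
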