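import Pool.Agent.J4.H87.HolI
import Pool.Agent.J4.H87.HolJ

set_option autoImplicit false

/-! Hölder translates: the sections of a discrete family. -/

open MeasureTheory Set Filter Topology Metric
open scoped ENNReal NNReal ContDiff

namespace Pool.Agent.J4.H87.Hol

variable {d : ℕ} {ι : Type}

/-- the section of the discrete family at height `τ` -/
def Qs (c : ℝ) (x P : ι → V d) (τ : ℝ) : Set (V d) := {z | ∃ i, ‖x i‖ ≤ 3 + c ∧ z = P i - (2 * τ) • x i}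

/-- A discrete family with Hölder positions. -/
structure Fa (c A α δ : ℝ) (x P : ι → V d) : Prop where
  c1 : 1 ≤ c
  A1 : 1 ≤ A
  α0 : 0 < α
  α1 : α ≤ 1
  δ0 : 0 < δ
  δ1 : δ ≤ 1
  cov : ∀ y : V d, ‖y‖ ≤ 3 → ∃ i, ‖y - x i‖ ≤ c * δ
  hol : ∀ i j, ‖x i‖ ≤ 3 + c → ‖x j‖ ≤ 3 + c → ‖P i - P j‖ ≤ A * (‖x i - x j‖ + δ) ^ α

/-- the cell of a point -/
noncomputable def cell (δ : ℝ) (y : V d) : Fin d → ℤ := fun j => ⌊y j / δ⌋

theorem cell_meas (δ : ℝ) : Measurable (cell (d := d) δ) :=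
  measurable_pi_lambda _ fun j =>
    Int.measurable_floor.comp (by fun_prop : Measurable fun y : V d => y j / δ)

/-- the corner of a cell -/
noncomputable def corner (δ : ℝ) (z : Fin d → ℤ) : V d := fun j => δ * (z j : ℝ)

theorem corner_close {δ : ℝ} (hδ : 0 < δ) (y : V d) : ‖y - corner δ (cell δ y)‖ ≤ δ := by
  rw [pi_norm_le_iff_of_nonneg hδ.le]
  intro j
  have h1 := Int.floor_le (y j / δ)
  have h2 := Int.lt_floor_add_one (y j / δ)
  have e : (y - corner δ (cell δ y)) j = δ * (y j / δ - ⌊y j / δ⌋) := by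
    simp only [Pi.sub_apply, corner, cell]
    field_simp
  rw [e, Real.norm_eq_abs, abs_mul, abs_of_pos hδ, abs_of_nonneg (by linarith)]
  nlinarith

open Classical in
/-- the index of a cell -/
noncomputable def idx (c δ : ℝ) (x : ι → V d) (i0 : ι) (z : Fin d → ℤ) : ι :=
  if h : ∃ i, ‖corner δ z - x i‖ ≤ c * δ then h.choose else i0

/-- the positions as a function of the direction -/
noncomputable def bb (c δ : ℝ) (x P : ι → V d) (i0 : ι) (y : V d) : V d := P (idx c δ x i0 (cell δ y))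

theorem idx_close {c A α δ : ℝ} {x P : ι → V d} (H : Fa c A α δ x P) (i0 : ι) {y : V d} (hy : ‖y‖ ≤ 2) :
    ‖y - x (idx c δ x i0 (cell δ y))‖ ≤ (c + 1) * δ := by
  have h1 := corner_close H.δ0 y
  have h2 : ‖corner δ (cell δ y)‖ ≤ 3 := by
    have := norm_le_norm_add_norm_sub' (corner δ (cell δ y)) y
    rw [norm_sub_rev] at this
    linarith [H.δ1]
  have h3 : ∃ i, ‖corner δ (cell δ y) - x i‖ ≤ c * δ := H.cov _ h2
  have h4 : ‖corner δ (cell δ y) - x (idx c δ x i0 (cell δ y))‖ ≤ c * δ := by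
    unfold idx
    rw [dif_pos h3]
    exact h3.choose_spec
  calc ‖y - x (idx c δ x i0 (cell δ y))‖
      ≤ ‖y - corner δ (cell δ y)‖ + ‖corner δ (cell δ y) - x (idx c δ x i0 (cell δ y))‖ :=
        norm_sub_le_norm_sub_add_norm_sub _ _ _
    _ ≤ (c + 1) * δ := by linarith

theorem idx_near {c A α δ : ℝ} {x P : ι → V d} (H : Fa c A α δ x P) (i0 : ι) {y : V d} (hy : ‖y‖ ≤ 2) :
    ‖x (idx c δ x i0 (cell δ y))‖ ≤ 3 + c := by
  have h1 := idx_close H i0 hy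
  have h2 := norm_le_norm_add_norm_sub' (x (idx c δ x i0 (cell δ y))) y
  rw [norm_sub_rev] at h2
  have h3 : (c + 1) * δ ≤ c + 1 := by
    have := H.c1
    have := H.δ1
    nlinarith
  linarith

theorem bb_Hd [Finite ι] {c A α δ : ℝ} {x P : ι → V d} (H : Fa c A α δ x P) (i0 : ι) :
    Hd (bb c δ x P i0) (A * (2 * c + 4)) α δ := by
  have hc := H.c1
  have hA := H.A1
  refine ⟨?_, H.α0, H.α1, H.δ0, H.δ1, fun k => ?_, ?_⟩
  · nlinarith
  · obtain ⟨M, hM⟩ : ∃ M : ℝ, ∀ i, ‖P i‖ ≤ M := by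
      obtain ⟨M, hM⟩ := (Set.finite_range fun i => ‖P i‖).bddAbove
      exact ⟨M, fun i => hM ⟨i, rfl⟩⟩
    have hm : Measurable fun y => bb c δ x P i0 y k :=
      (measurable_of_countable fun z : Fin d → ℤ => P (idx c δ x i0 z) k).comp (cell_meas δ)
    refine (locallyIntegrable_const M).mono hm.aestronglyMeasurable (Eventually.of_forall fun y => ?_)
    have h1 : ‖bb c δ x P i0 y k‖ ≤ M := (norm_le_pi_norm _ k).trans (hM _)
    exact h1.trans (le_abs_self M)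
  · intro y z hy hz k
    have h1 := idx_close H i0 hy
    have h2 := idx_close H i0 hz
    have h3 := H.hol _ _ (idx_near H i0 hz) (idx_near H i0 hy)
    have h4 : |bb c δ x P i0 z k - bb c δ x P i0 y k| ≤ ‖bb c δ x P i0 z - bb c δ x P i0 y‖ :=
      norm_le_pi_norm (bb c δ x P i0 z - bb c δ x P i0 y) k
    refine h4.trans (h3.trans ?_)
    set u := x (idx c δ x i0 (cell δ y)) with hu
    set w := x (idx c δ x i0 (cell δ z)) with hw
    have h5 : ‖w - u‖ ≤ ‖z - y‖ + 2 * ((c + 1) * δ) := by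
      have e : w - u = (z - y) - (z - w) + (y - u) := by abel
      calc ‖w - u‖ = ‖(z - y) - (z - w) + (y - u)‖ := by rw [← e]
        _ ≤ ‖(z - y) - (z - w)‖ + ‖y - u‖ := norm_add_le _ _
        _ ≤ ‖z - y‖ + ‖z - w‖ + ‖y - u‖ := by gcongr; exact norm_sub_le _ _
        _ ≤ _ := by linarith
    set mx : ℝ := max ‖z - y‖ δ with hmx
    have h6 : ‖z - y‖ ≤ mx := le_max_left _ _
    have h7 : δ ≤ mx := le_max_right _ _
    have hδ := H.δ0
    have h8 : ‖w - u‖ + δ ≤ (2 * c + 4) * mx := by nlinarith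
    have hmx0 : 0 < mx := lt_of_lt_of_le hδ h7
    have h9 : (2 * c + 4 : ℝ) ^ α ≤ 2 * c + 4 := by
      calc (2 * c + 4 : ℝ) ^ α ≤ (2 * c + 4) ^ (1 : ℝ) :=
            Real.rpow_le_rpow_of_exponent_le (by linarith) H.α1
        _ = 2 * c + 4 := Real.rpow_one _
    have h10 := H.α0
    calc A * (‖w - u‖ + δ) ^ α ≤ A * ((2 * c + 4) * mx) ^ α := by gcongr
      _ = A * ((2 * c + 4) ^ α * mx ^ α) := by rw [Real.mul_rpow (by linarith) hmx0.le]
      _ ≤ A * ((2 * c + 4) * mx ^ α) := by gcongr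
      _ = _ := by ring

theorem img_sub {c A α δ : ℝ} {x P : ι → V d} (H : Fa c A α δ x P) (i0 : ι) {τ : ℝ} (hτ : |τ| ≤ 1)
    {r : ℝ} : thickening r (img (bb c δ x P i0) τ) ⊆ thickening (r + 2 * ((c + 1) * δ)) (Qs c x P τ) := by
  intro y hy
  rw [mem_thickening_iff] at hy ⊢
  obtain ⟨z, ⟨w, hw, rfl⟩, hyz⟩ := hy
  have hw2 : ‖w‖ ≤ 2 := by linarith
  refine ⟨P (idx c δ x i0 (cell δ w)) - (2 * τ) • x (idx c δ x i0 (cell δ w)),
    ⟨_, idx_near H i0 hw2, rfl⟩, ?_⟩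
  have h1 := idx_close H i0 hw2
  have h2 : dist (fun i => bb c δ x P i0 w i - 2 * τ * w i)
      (P (idx c δ x i0 (cell δ w)) - (2 * τ) • x (idx c δ x i0 (cell δ w))) ≤ 2 * ((c + 1) * δ) := by
    rw [dist_eq_norm]
    have e : (fun i => bb c δ x P i0 w i - 2 * τ * w i) -
        (P (idx c δ x i0 (cell δ w)) - (2 * τ) • x (idx c δ x i0 (cell δ w))) =
        -((2 * τ) • (w - x (idx c δ x i0 (cell δ w)))) := by
      funext i
      simp only [bb, Pi.sub_apply, Pi.neg_apply, Pi.smul_apply, smul_eq_mul]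
      ring
    rw [e, norm_neg, norm_smul, Real.norm_eq_abs, abs_mul, abs_of_pos (by norm_num : (0 : ℝ) < 2)]
    calc 2 * |τ| * ‖w - x (idx c δ x i0 (cell δ w))‖ ≤ 2 * 1 * ((c + 1) * δ) := by gcongr
      _ = _ := by ring
  calc dist y _ ≤ dist y (fun i => bb c δ x P i0 w i - 2 * τ * w i) + _ := dist_triangle _ _ _
    _ < r + 2 * ((c + 1) * δ) := add_lt_add_of_lt_of_le hyz h2

/-- One of `d + 1` sections of the discrete family is large. -/
theorem one_section (hd : 2 ≤ d) {α : ℝ} (hκ : 0 < d * α - (d - 1)) {h : ℝ} (hh : 0 < h) (hh1 : h ≤ 1)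
    {c e0 : ℝ} (hc : 1 ≤ c) (he0 : 0 < e0) (he1 : e0 ≤ 1) :
    ∃ C p : ℝ, 1 ≤ C ∧ 0 ≤ p ∧ ∀ (A δ : ℝ) (ι : Type) [Finite ι] (x P : ι → V d), Fa c A α δ x P →
      C * A ^ p * δ ≤ 1 → ∀ t : ℝ, (∀ k ∈ Finset.range (d + 1), |t + k * h| ≤ 1) →
      ∃ k ∈ Finset.range (d + 1), ENNReal.ofReal ((C * A ^ p)⁻¹ * δ ^ (d * (1 - α))) ≤
        volume (thickening (e0 * δ) (Qs c x P (t + k * h))) := by
  obtain ⟨C, p, hC, hp, hcore⟩ := core hd hκ hh hh1
  set G : ℝ := 2 * c + 4 with hG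
  have hG1 : 1 ≤ G := by rw [hG]; linarith
  set B0 : ℝ := 8 * G + 2 * (c + 1) with hB0
  have hB01 : 1 ≤ B0 := by rw [hB0]; linarith
  set E : ℝ := (5 * B0 / e0) ^ d with hE
  have hE1 : 1 ≤ E := by
    refine one_le_pow₀ ?_
    rw [le_div_iff₀ he0]
    linarith
  have hGp : 1 ≤ G ^ p := Real.one_le_rpow hG1 hp
  refine ⟨C * G ^ p * E, p + d, ?_, by positivity, ?_⟩
  · exact one_le_mul_of_one_le_of_one_le (one_le_mul_of_one_le_of_one_le hC hGp) hE1
  intro A δ ι _ x P H hδ t ht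
  have hA := H.A1
  have hA0 : 0 < A := by linarith
  have hδ0 := H.δ0
  have hi0 : Nonempty ι := by
    obtain ⟨i, _⟩ := H.cov 0 (by simp)
    exact ⟨i⟩
  obtain ⟨i0⟩ := hi0
  have hAd : 1 ≤ A ^ (d : ℝ) := Real.one_le_rpow hA (by positivity)
  have hApd : A ^ (p + d) = A ^ p * A ^ (d : ℝ) := Real.rpow_add hA0 _ _
  have hAGp : (A * G) ^ p = A ^ p * G ^ p := Real.mul_rpow hA0.le (by linarith)
  have h1 : C * (A * G) ^ p * δ ≤ 1 := by
    refine le_trans ?_ hδ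
    rw [hAGp, hApd]
    have h2 : 1 ≤ E * A ^ (d : ℝ) := one_le_mul_of_one_le_of_one_le hE1 hAd
    calc C * (A ^ p * G ^ p) * δ = (C * (A ^ p * G ^ p) * δ) * 1 := (mul_one _).symm
      _ ≤ (C * (A ^ p * G ^ p) * δ) * (E * A ^ (d : ℝ)) := by gcongr
      _ = _ := by ring
  obtain ⟨k, hk, hk1⟩ := hcore (A * G) δ (bb c δ x P i0) (bb_Hd H i0) h1 t ht
  refine ⟨k, hk, ?_⟩
  set τ : ℝ := t + k * h with hτ
  have hδα : δ ≤ δ ^ α := by
    calc δ = δ ^ (1 : ℝ) := (Real.rpow_one δ).symm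
      _ ≤ δ ^ α := Real.rpow_le_rpow_of_exponent_ge hδ0 H.δ1 H.α1
  have hδα0 : 0 < δ ^ α := Real.rpow_pos_of_pos hδ0 _
  have hr : 8 * (A * G) * δ ^ α + 2 * ((c + 1) * δ) ≤ B0 * A * δ ^ α := by
    have h3 : 2 * ((c + 1) * δ) ≤ 2 * (c + 1) * A * δ ^ α := by
      have : (c + 1) * δ ≤ (c + 1) * (A * δ ^ α) := by
        have : δ ≤ A * δ ^ α := by nlinarith
        gcongr
      nlinarith
    rw [hB0]
    nlinarith
  have hsub := (img_sub H i0 (ht k hk) (r := 8 * (A * G) * δ ^ α)).trans (thickening_mono hr _)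
  have hvol := hk1.trans (measure_mono hsub)
  have he : e0 * δ ≤ B0 * A * δ ^ α := by
    calc e0 * δ ≤ 1 * δ ^ α := by gcongr
      _ ≤ (B0 * A) * δ ^ α := by
          gcongr
          exact one_le_mul_of_one_le_of_one_le hB01 hA
  have h5 := hvol.trans (vol_thickening_le (Qs c x P τ) (by positivity : 0 < e0 * δ) he)
  -- divide
  set X : ℝ := (5 * (B0 * A * δ ^ α) / (e0 * δ)) ^ d with hX
  have hX0 : 0 < X := by positivity
  have hXe : X = E * A ^ (d : ℝ) * δ ^ (-(d * (1 - α))) := by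
    rw [hX, hE, Real.rpow_natCast, ← mul_pow]
    have e1 : δ ^ (-((d : ℝ) * (1 - α))) = (δ ^ (α - 1)) ^ d := by
      rw [← Real.rpow_natCast, ← Real.rpow_mul hδ0.le]
      congr 1
      ring
    rw [e1, ← mul_pow]
    congr 1
    rw [Real.rpow_sub hδ0, Real.rpow_one]
    field_simp
  have h6 : ENNReal.ofReal (X⁻¹) * ENNReal.ofReal ((C * (A * G) ^ p)⁻¹) ≤
      volume (thickening (e0 * δ) (Qs c x P τ)) := by
    calc ENNReal.ofReal (X⁻¹) * ENNReal.ofReal ((C * (A * G) ^ p)⁻¹)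
        ≤ ENNReal.ofReal (X⁻¹) * (ENNReal.ofReal X * volume (thickening (e0 * δ) (Qs c x P τ))) := by gcongr
      _ = volume (thickening (e0 * δ) (Qs c x P τ)) := by
          rw [← mul_assoc, ← ENNReal.ofReal_mul (by positivity), inv_mul_cancel₀ hX0.ne',
            ENNReal.ofReal_one, one_mul]
  refine le_trans (le_of_eq ?_) h6
  rw [← ENNReal.ofReal_mul (by positivity)]
  congr 1
  rw [hXe, hAGp, hApd, Real.rpow_neg hδ0.le]
  have h8 : δ ^ ((d : ℝ) * (1 - α)) ≠ 0 := (Real.rpow_pos_of_pos hδ0 _).ne'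
  have h9 : A ^ p ≠ 0 := (Real.rpow_pos_of_pos hA0 _).ne'
  have h10 : A ^ (d : ℝ) ≠ 0 := (Real.rpow_pos_of_pos hA0 _).ne'
  have h11 : G ^ p ≠ 0 := by positivity
  have h12 : E ≠ 0 := by positivity
  field_simp

end Pool.Agent.J4.H87.Hol
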