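import Pool.Agent.J4.H87.HolK

set_option autoImplicit false

/-! Hölder translates: the integral of the sections. -/

open MeasureTheory Set Filter Topology Metric
open scoped ENNReal NNReal ContDiff

namespace Pool.Agent.J4.H87.Hol

variable {d : ℕ} {ι : Type}

/-- the union of the sections in `ℝ × ℝ^d` -/
def Un (c r : ℝ) (x P : ι → V d) : Set (ℝ × V d) := {q | q.2 ∈ thickening r (Qs c x P q.1)}

theorem Un_open (c r : ℝ) (x P : ι → V d) : IsOpen (Un c r x P) := by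
  have h1 : Un c r x P = ⋃ i : {i : ι // ‖x i‖ ≤ 3 + c},
      {q : ℝ × V d | dist q.2 (P i.1 - (2 * q.1) • x i.1) < r} := by
    ext q
    simp only [Un, mem_ofPred_eq, mem_thickening_iff, mem_iUnion, Qs]
    constructor
    · rintro ⟨z, ⟨i, hi, rfl⟩, hz⟩
      exact ⟨⟨i, hi⟩, hz⟩
    · rintro ⟨⟨i, hi⟩, hz⟩
      exact ⟨_, ⟨i, hi, rfl⟩, hz⟩
  rw [h1]
  refine isOpen_iUnion fun i => isOpen_lt ?_ continuous_const
  exact continuous_snd.dist (by fun_prop)

theorem sec_meas (c r : ℝ) (x P : ι → V d) :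
    Measurable fun τ : ℝ => volume (thickening r (Qs c x P τ)) :=
  measurable_measure_prodMk_left (ν := (volume : Measure (V d))) (Un_open c r x P).measurableSet

/-- The integral of the sections is large. -/
theorem int_sections (hd : 2 ≤ d) {α : ℝ} (hκ : 0 < d * α - (d - 1)) {h : ℝ} (hh : 0 < h)
    (hh1 : (d + 1) * h ≤ 1) {c e0 : ℝ} (hc : 1 ≤ c) (he0 : 0 < e0) (he1 : e0 ≤ 1) :
    ∃ C p : ℝ, 1 ≤ C ∧ 0 ≤ p ∧ ∀ (A δ : ℝ) (ι : Type) [Finite ι] (x P : ι → V d), Fa c A α δ x P →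
      C * A ^ p * δ ≤ 1 → ENNReal.ofReal ((C * A ^ p)⁻¹ * δ ^ (d * (1 - α))) ≤
        ∫⁻ τ in Ioc 0 ((d + 1) * h), volume (thickening (e0 * δ) (Qs c x P τ)) := by
  have hd0 : (0 : ℝ) ≤ d := Nat.cast_nonneg d
  have hh2 : h ≤ 1 := by nlinarith
  obtain ⟨C, p, hC, hp, hs⟩ := one_section hd hκ hh hh2 hc he0 he1
  set E : ℝ := (d + 1) / h with hE
  have hE0 : 0 < E := by positivity
  have hE1 : 1 ≤ E := by
    rw [hE, le_div_iff₀ hh]
    nlinarith
  refine ⟨C * E, p, one_le_mul_of_one_le_of_one_le hC hE1, hp, ?_⟩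
  intro A δ ι _ x P H hδ
  have hA := H.A1
  have hA0 : 0 < A := by linarith
  have hδ0 := H.δ0
  have h1 : C * A ^ p * δ ≤ 1 := by
    refine le_trans ?_ hδ
    have : 0 ≤ C * A ^ p * δ := by positivity
    calc C * A ^ p * δ = C * A ^ p * δ * 1 := (mul_one _).symm
      _ ≤ C * A ^ p * δ * E := by gcongr
      _ = _ := by ring
  set f : ℝ → ℝ≥0∞ := fun τ => volume (thickening (e0 * δ) (Qs c x P τ)) with hf
  have hfm : Measurable f := sec_meas c (e0 * δ) x P
  set v : ℝ≥0∞ := ENNReal.ofReal ((C * A ^ p)⁻¹ * δ ^ ((d : ℝ) * (1 - α))) with hv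
  have h2 : ∀ t ∈ Ioc (0 : ℝ) h, v ≤ ∑ k ∈ Finset.range (d + 1), f (t + k * h) := by
    intro t ht
    have h3 : ∀ k ∈ Finset.range (d + 1), |t + k * h| ≤ 1 := by
      intro k hk
      have hk1 : (k : ℝ) ≤ d := by
        have := Finset.mem_range_succ_iff.1 hk
        exact_mod_cast this
      rw [abs_of_nonneg (by have := ht.1; positivity)]
      have := ht.2
      nlinarith
    obtain ⟨k, hk, hk2⟩ := hs A δ ι x P H h1 t h3
    exact hk2.trans (Finset.single_le_sum (f := fun k : ℕ => f (t + k * h)) (fun _ _ => zero_le) hk)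
  have h4 : ∀ k ∈ Finset.range (d + 1), ∫⁻ t in Ioc (0 : ℝ) h, f (t + k * h) ≤
      ∫⁻ t in Ioc 0 ((d + 1) * h), f t := by
    intro k hk
    have hk1 : (k : ℝ) ≤ d := by
      have := Finset.mem_range_succ_iff.1 hk
      exact_mod_cast this
    rw [← lintegral_indicator measurableSet_Ioc, ← lintegral_indicator measurableSet_Ioc,
      ← lintegral_add_right_eq_self ((Ioc 0 (((d : ℝ) + 1) * h)).indicator fun t => f t) (k * h)]
    refine lintegral_mono fun t => ?_
    by_cases ht : t ∈ Ioc (0 : ℝ) h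
    · rw [indicator_of_mem ht, indicator_of_mem]
      constructor
      · have := ht.1; positivity
      · have := ht.2; nlinarith
    · rw [indicator_of_notMem ht]
      exact zero_le
  have h5 : v * ENNReal.ofReal h ≤ ((d : ℝ≥0∞) + 1) * ∫⁻ t in Ioc 0 ((d + 1) * h), f t := by
    calc v * ENNReal.ofReal h = ∫⁻ _t in Ioc (0 : ℝ) h, v := by
          rw [setLIntegral_const, Real.volume_Ioc, sub_zero]
      _ ≤ ∫⁻ t in Ioc (0 : ℝ) h, ∑ k ∈ Finset.range (d + 1), f (t + k * h) :=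
          setLIntegral_mono' measurableSet_Ioc h2
      _ = ∑ k ∈ Finset.range (d + 1), ∫⁻ t in Ioc (0 : ℝ) h, f (t + k * h) :=
          lintegral_finsetSum _ fun k _ => hfm.comp (measurable_id.add_const _)
      _ ≤ ∑ _k ∈ Finset.range (d + 1), ∫⁻ t in Ioc 0 ((d + 1) * h), f t := Finset.sum_le_sum h4
      _ = _ := by
          rw [Finset.sum_const, Finset.card_range, nsmul_eq_mul]
          push_cast
          rfl
  have h6 : ENNReal.ofReal (E⁻¹) * (((d : ℝ≥0∞) + 1) * ∫⁻ t in Ioc 0 ((d + 1) * h), f t) =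
      ENNReal.ofReal h * ∫⁻ t in Ioc 0 ((d + 1) * h), f t := by
    rw [← mul_assoc]
    congr 1
    have : ((d : ℝ≥0∞) + 1) = ENNReal.ofReal ((d : ℝ) + 1) := by
      rw [ENNReal.ofReal_add hd0 zero_le_one, ENNReal.ofReal_natCast, ENNReal.ofReal_one]
    rw [this, ← ENNReal.ofReal_mul (by positivity), hE]
    congr 1
    field_simp
  have h7 : ENNReal.ofReal (E⁻¹) * (v * ENNReal.ofReal h) ≤
      ENNReal.ofReal h * ∫⁻ t in Ioc 0 ((d + 1) * h), f t := by
    rw [← h6]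
    gcongr
  have hhne : ENNReal.ofReal h ≠ 0 := by
    rw [ne_eq, ENNReal.ofReal_eq_zero, not_le]
    exact hh
  have h8 : ENNReal.ofReal h * (ENNReal.ofReal (E⁻¹) * v) ≤
      ENNReal.ofReal h * ∫⁻ t in Ioc 0 ((d + 1) * h), f t := by
    refine le_trans (le_of_eq ?_) h7
    ring
  have h9 := (ENNReal.mul_le_mul_iff_right hhne ENNReal.ofReal_ne_top).1 h8
  refine le_trans (le_of_eq ?_) h9
  rw [hv, ← ENNReal.ofReal_mul (by positivity)]
  congr 1
  rw [mul_inv, mul_inv, mul_inv]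
  ring

end Pool.Agent.J4.H87.Hol
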