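import Pool.Agent.J4.H87.HolL
import Pool.Agent.H810R3.Tub.Box

set_option autoImplicit false

/-! Hölder translates: volume from sections; the sections of a box. -/

open MeasureTheory Set Filter Topology Metric
open scoped ENNReal NNReal Pointwise

namespace Pool.Agent.J4.H87.Hol

open Pool.Agent.H810R3.Tub (Space Vec box nor dir norm_dir norm_e norm_space_sq)

variable {d : ℕ}

/-- the point with coordinates `(z, σ)` -/
noncomputable def pt2 (z : V d) (σ : ℝ) : Space d := WithLp.toLp 2 (WithLp.toLp 2 z, σ)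

theorem pt2_mp : MeasurePreserving (fun q : V d × ℝ => pt2 q.1 q.2) := by
  have h1 : MeasurePreserving (fun z : V d => (WithLp.toLp 2 z : Vec d)) := PiLp.volume_preserving_toLp (Fin d)
  have h2 := h1.prod (MeasurePreserving.id (volume : Measure ℝ))
  exact (WithLp.volume_preserving_toLp (Vec d) ℝ).comp h2

theorem lintegral_affine {F : ℝ → ℝ≥0∞} (hF : Measurable F) {M : ℝ} (hM : 0 < M) (s : ℝ) :
    ∫⁻ σ, F σ = ENNReal.ofReal M * ∫⁻ τ, F (s + M * τ) := by
  have h1 : ∫⁻ σ, F σ = ∫⁻ σ, F (s + σ) := (lintegral_add_left_eq_self F s).symm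
  rw [h1]
  have h2 := Real.smul_map_volume_mul_left hM.ne'
  have hFs : Measurable fun σ => F (s + σ) := hF.comp (measurable_const_add s)
  conv_lhs => rw [← h2]
  rw [lintegral_smul_measure, lintegral_map hFs (measurable_const_mul M), abs_of_pos hM]
  rfl

/-- volume from sections -/
theorem vol_lower {S : Set (Space d)} (hS : MeasurableSet S) {W : ℝ → Set (V d)} {J : Set ℝ}
    (hJ : MeasurableSet J) {L M : ℝ} (hL : 0 < L) (hM : 0 < M) (s : ℝ) (w : ℝ → V d)
    (h : ∀ τ ∈ J, ∀ z ∈ W τ, pt2 (L • z + w τ) (s + M * τ) ∈ S) :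
    ENNReal.ofReal (L ^ d * M) * ∫⁻ τ in J, volume (W τ) ≤ volume S := by
  have e1 : volume S = volume ((fun q : V d × ℝ => pt2 q.1 q.2) ⁻¹' S) :=
    (pt2_mp.measure_preimage hS.nullMeasurableSet).symm
  have hS' : MeasurableSet ((fun q : V d × ℝ => pt2 q.1 q.2) ⁻¹' S) := pt2_mp.measurable hS
  set S' := (fun q : V d × ℝ => pt2 q.1 q.2) ⁻¹' S with hS'd
  have e2 : volume S' = ∫⁻ σ : ℝ, volume ((fun z : V d => (z, σ)) ⁻¹' S') :=
    Measure.prod_apply_symm hS'
  have hFm : Measurable fun σ : ℝ => volume ((fun z : V d => (z, σ)) ⁻¹' S') :=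
    measurable_measure_prodMk_right hS'
  rw [e1, e2, lintegral_affine hFm hM s]
  have h3 : ∀ τ ∈ J, ENNReal.ofReal (L ^ d) * volume (W τ) ≤
      volume ((fun z : V d => (z, s + M * τ)) ⁻¹' S') := by
    intro τ hτ
    have h4 : (fun y : V d => y + w τ) '' (L • W τ) ⊆ (fun z : V d => (z, s + M * τ)) ⁻¹' S' := by
      rintro y ⟨_, ⟨z, hz, rfl⟩, rfl⟩
      exact h τ hτ z hz
    refine le_trans (le_of_eq ?_) (measure_mono h4)
    rw [image_add_right, measure_preimage_add_right, Measure.addHaar_smul, Module.finrank_fin_fun,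
      abs_of_pos (by positivity)]
  calc ENNReal.ofReal (L ^ d * M) * ∫⁻ τ in J, volume (W τ)
      = ENNReal.ofReal M * (ENNReal.ofReal (L ^ d) * ∫⁻ τ in J, volume (W τ)) := by
        rw [ENNReal.ofReal_mul (by positivity)]
        ring
    _ = ENNReal.ofReal M * ∫⁻ τ in J, ENNReal.ofReal (L ^ d) * volume (W τ) := by
        rw [lintegral_const_mul' _ _ ENNReal.ofReal_ne_top]
    _ ≤ ENNReal.ofReal M * ∫⁻ τ in J, volume ((fun z : V d => (z, s + M * τ)) ⁻¹' S') := by
        gcongr ENNReal.ofReal M * ?_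
        exact setLIntegral_mono' hJ h3
    _ ≤ _ := by
        gcongr
        exact Measure.restrict_le_self

/-- The points near the axis of a box are in the box. -/
theorem mem_box {N : ℝ} (hN : 1 ≤ N) {ω : Vec d} (hω : ‖ω‖ ≤ 1) {f : Fin d → Space d}
    (h : Orthonormal ℝ (Fin.cons (nor ω) f : Fin (d + 1) → Space d)) (a : Space d) {ρ : ℝ}
    (hρ : |ρ| ≤ N ^ 2 / 10) {w : Vec d} (hw : ‖w‖ ≤ N / 4) :
    a + (WithLp.toLp 2 (-(2 * ρ) • ω + w, ρ) : Space d) ∈ box N (nor ω) f a := by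
  set c : ℝ := √(1 + ‖-(2 : ℝ) • ω‖ ^ 2) with hc
  have hc0 : 0 < c := by positivity
  have hc5 : c ≤ 9 / 4 := by
    rw [hc, Real.sqrt_le_left (by norm_num)]
    have : ‖-(2 : ℝ) • ω‖ ≤ 2 := by
      rw [norm_smul, norm_neg, Real.norm_eq_abs, abs_of_pos (by norm_num : (0 : ℝ) < 2)]
      linarith
    nlinarith [norm_nonneg (-(2 : ℝ) • ω)]
  have e0 : nor ω = c⁻¹ • (WithLp.toLp 2 (-(2 : ℝ) • ω, 1) : Space d) := by
    unfold nor dir
    rfl
  set W : Space d := WithLp.toLp 2 (w, 0) with hW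
  have e1 : (WithLp.toLp 2 (-(2 * ρ) • ω + w, ρ) : Space d) = (ρ * c) • nor ω + W := by
    rw [e0, smul_smul, mul_assoc, mul_inv_cancel₀ hc0.ne', mul_one, hW, ← WithLp.toLp_smul, ← WithLp.toLp_add]
    congr 1
    refine Prod.ext ?_ ?_
    · show -(2 * ρ) • ω + w = ρ • (-(2 : ℝ) • ω) + w
      rw [smul_smul]
      congr 2
      ring
    · show ρ = ρ • (1 : ℝ) + 0
      simp
  have hWn : ‖W‖ ≤ N / 4 := by
    have h1 : ‖W‖ ^ 2 = ‖w‖ ^ 2 := by
      rw [norm_space_sq]
      show ‖w‖ ^ 2 + (0 : ℝ) ^ 2 = _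
      ring
    have h2 : ‖W‖ = ‖w‖ := by
      have := abs_eq_abs.2 (sq_eq_sq_iff_eq_or_eq_neg.1 h1)
      rwa [abs_norm, abs_norm] at this
    rw [h2]
    exact hw
  have hen := norm_e h
  have hfn : ∀ j, ‖f j‖ = 1 := fun j => by
    have := h.1 j.succ
    simpa using this
  have hort : ∀ j, inner ℝ (f j) (nor ω) = (0 : ℝ) := fun j => by
    have := h.2 (Fin.succ_ne_zero j)
    simpa using this
  have hsub : a + (WithLp.toLp 2 (-(2 * ρ) • ω + w, ρ) : Space d) - a = (ρ * c) • nor ω + W := by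
    rw [e1]; abel
  refine ⟨?_, fun j => ?_⟩
  · rw [hsub, inner_add_right, inner_smul_right, real_inner_self_eq_norm_sq, hen]
    have h3 : |inner ℝ (nor ω) W| ≤ N / 4 := by
      refine (abs_real_inner_le_norm _ _).trans ?_
      rw [hen, one_mul]
      exact hWn
    calc |ρ * c * 1 ^ 2 + inner ℝ (nor ω) W| ≤ |ρ * c * 1 ^ 2| + |inner ℝ (nor ω) W| := abs_add_le _ _
      _ ≤ N ^ 2 / 10 * (9 / 4) + N / 4 := by
          have : |ρ * c * 1 ^ 2| = |ρ| * c := by
            rw [one_pow, mul_one, abs_mul, abs_of_pos hc0]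
          rw [this]
          gcongr
      _ ≤ N ^ 2 / 2 := by nlinarith
  · rw [hsub, inner_add_right, inner_smul_right, hort, mul_zero, zero_add]
    refine (abs_real_inner_le_norm _ _).trans ?_
    rw [hfn, one_mul]
    linarith

end Pool.Agent.J4.H87.Hol
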