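import Pool.Agent.J4.H87.HolM

set_option autoImplicit false

/-! Hölder translates: from the boxes to the discrete family. -/

open MeasureTheory Set Filter Topology Metric
open scoped ENNReal NNReal

namespace Pool.Agent.J4.H87.Hol

open Pool.Agent.H810R3.Tub (Space Vec box nor dir norm_dir norm_e norm_space_sq vol_box box_closed)

variable {d : ℕ}

theorem norm_toLp_le (u : V d) : ‖(WithLp.toLp 2 u : Vec d)‖ ≤ d * ‖u‖ := by
  rcases Nat.eq_zero_or_pos d with h0 | h0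
  · subst h0
    have : (WithLp.toLp 2 u : Vec 0) = 0 := Subsingleton.elim _ _
    rw [this]
    simp
  have hd1 : (1 : ℝ) ≤ d := by exact_mod_cast h0
  apply le_of_sq_le_sq _ (by positivity)
  rw [EuclideanSpace.norm_sq_eq]
  calc ∑ i, ‖(WithLp.toLp 2 u : Vec d) i‖ ^ 2 ≤ ∑ _i : Fin d, ‖u‖ ^ 2 := by
        refine Finset.sum_le_sum fun i _ => ?_
        exact pow_le_pow_left₀ (norm_nonneg _) (norm_le_pi_norm u i) 2
    _ = d * ‖u‖ ^ 2 := by rw [Finset.sum_const, Finset.card_univ, Fintype.card_fin, nsmul_eq_mul]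
    _ ≤ (d * ‖u‖) ^ 2 := by
        rw [mul_pow]
        gcongr
        nlinarith

theorem norm_ofLp_le (x : Vec d) : ‖(WithLp.ofLp x : V d)‖ ≤ ‖x‖ := by
  rw [pi_norm_le_iff_of_nonneg (norm_nonneg _)]
  exact fun i => PiLp.norm_apply_le x i

theorem norm_fst_le (y : Space d) : ‖y.fst‖ ≤ ‖y‖ := by
  apply le_of_sq_le_sq _ (norm_nonneg _)
  rw [norm_space_sq]
  nlinarith [sq_nonneg y.snd]

theorem abs_snd_le (y : Space d) : |y.snd| ≤ ‖y‖ := by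
  apply le_of_sq_le_sq _ (norm_nonneg _)
  rw [norm_space_sq, sq_abs]
  nlinarith [sq_nonneg ‖y.fst‖]

/-- the data of a family of boxes -/
structure Bx (d : ℕ) (ι : Type) where
  α : ℝ
  R : ℝ
  A : ℝ
  N : ℝ
  s : ℝ
  v : Vec d
  ω : ι → Vec d
  f : ι → Fin d → Space d
  a : ι → Space d
  d2 : 2 ≤ d
  hα : 1 / 2 ≤ α
  hα1 : α ≤ 1
  hR : 0 < R
  hA : 1 ≤ A
  hN : 1 ≤ N
  hs : 0 < s
  hs1 : s ≤ 1
  hω : ∀ i, ‖ω i‖ ≤ 1
  cov : ∀ u, ‖u - v‖ ≤ s → ∃ i, ‖u - ω i‖ ≤ R / N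
  hf : ∀ i, Orthonormal ℝ (Fin.cons (nor (ω i)) (f i) : Fin (d + 1) → Space d)
  hol : ∀ i j, ‖a i - a j‖ ≤ A * N ^ 2 * (‖ω i - ω j‖ + 1 / N) ^ α

namespace Bx

variable {ι : Type} (B : Bx d ι)

/-- the constant of the covering -/
noncomputable def c : ℝ := max B.R 1

/-- a constant -/
noncomputable def G : ℝ := d * (3 + B.c) + B.c + 1

/-- the side of the cube of directions -/
noncomputable def ℓ : ℝ := B.s / (B.G * (32 * B.A) ^ 2)

/-- the scale -/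
noncomputable def δ : ℝ := 1 / (B.N * B.ℓ)

theorem c1 : 1 ≤ B.c := le_max_right _ _

theorem d1 (B : Bx d ι) : (2 : ℝ) ≤ d := by exact_mod_cast B.d2

theorem G1 : 1 ≤ B.G := by
  have := B.c1
  have := B.d1
  unfold G
  nlinarith

theorem GA1 : 1 ≤ B.G * (32 * B.A) ^ 2 := by
  have h1 := B.G1
  have h2 := B.hA
  exact one_le_mul_of_one_le_of_one_le h1 (one_le_pow₀ (by linarith))

theorem ℓ0 : 0 < B.ℓ := by
  have := B.GA1
  exact div_pos B.hs (by linarith)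

theorem ℓs : B.ℓ ≤ B.s := div_le_self B.hs.le B.GA1

theorem ℓ1 : B.ℓ ≤ 1 := B.ℓs.trans B.hs1

theorem N0 : 0 < B.N := by linarith [B.hN]

theorem δ0 : 0 < B.δ := by
  have := B.ℓ0
  have := B.N0
  unfold δ
  positivity

theorem ℓδ : B.ℓ * B.δ = 1 / B.N := by
  have h1 := B.ℓ0
  have h2 := B.N0
  unfold δ
  field_simp

theorem ℓG : B.ℓ * B.G ≤ 1 / (32 * B.A) ^ 2 := by
  have h1 := B.G1
  have h2 := B.hA
  have h3 := B.hs1
  unfold ℓ
  have e : B.s / (B.G * (32 * B.A) ^ 2) * B.G = B.s / (32 * B.A) ^ 2 := by field_simp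
  rw [e]
  gcongr

theorem ℓG1 : B.ℓ * B.G ≤ 1 / 4 := by
  have h1 := B.ℓG
  have h2 := B.hA
  refine h1.trans ?_
  rw [div_le_div_iff₀ (by positivity) (by norm_num)]
  nlinarith

/-- scaled directions -/
noncomputable def x (i : ι) : V d := WithLp.ofLp (B.ℓ⁻¹ • (B.ω i - B.v))

/-- scaled positions at the height `s₀` -/
noncomputable def P (s0 : ℝ) (i : ι) : V d :=
  WithLp.ofLp (B.ℓ⁻¹ • ((B.N ^ 2)⁻¹ • ((B.a i).fst + (2 * ((B.a i).snd - s0)) • B.ω i)))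

theorem cov_x (y : V d) (hy : ‖y‖ ≤ 3) : ∃ i, ‖y - B.x i‖ ≤ B.c * B.δ := by
  have hℓ := B.ℓ0
  have h1 : ‖(B.v + B.ℓ • (WithLp.toLp 2 y : Vec d)) - B.v‖ ≤ B.s := by
    rw [add_sub_cancel_left, norm_smul, Real.norm_of_nonneg hℓ.le]
    have h2 := norm_toLp_le y
    have h3 := B.GA1
    have hc := B.c1
    have hd := B.d1
    have hA := B.hA
    have h4 : (d : ℝ) * 3 ≤ B.G * (32 * B.A) ^ 2 := by
      have h5 : (d : ℝ) * 3 ≤ B.G := by unfold G; nlinarith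
      have h6 : (1 : ℝ) ≤ (32 * B.A) ^ 2 := one_le_pow₀ (by linarith)
      nlinarith [B.G1]
    calc B.ℓ * ‖(WithLp.toLp 2 y : Vec d)‖ ≤ B.ℓ * (d * 3) := by
          gcongr
          exact h2.trans (by gcongr)
      _ ≤ B.ℓ * (B.G * (32 * B.A) ^ 2) := by gcongr
      _ = B.s := by
          have : B.G * (32 * B.A) ^ 2 ≠ 0 := by linarith
          exact div_mul_cancel₀ _ this
  obtain ⟨i, hi⟩ := B.cov _ h1
  refine ⟨i, ?_⟩
  have h2 : y - B.x i = WithLp.ofLp (B.ℓ⁻¹ • ((B.v + B.ℓ • (WithLp.toLp 2 y : Vec d)) - B.ω i)) := by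
    funext j
    unfold x
    simp only [Pi.sub_apply, WithLp.ofLp_smul, WithLp.ofLp_sub, WithLp.ofLp_add, Pi.smul_apply,
      Pi.add_apply, smul_eq_mul]
    field_simp
    ring
  rw [h2]
  refine (norm_ofLp_le _).trans ?_
  rw [norm_smul, norm_inv, Real.norm_of_nonneg hℓ.le]
  have hN := B.N0
  have hc : B.R ≤ B.c := le_max_left _ _
  calc B.ℓ⁻¹ * ‖B.v + B.ℓ • (WithLp.toLp 2 y : Vec d) - B.ω i‖ ≤ B.ℓ⁻¹ * (B.R / B.N) := by gcongr
    _ ≤ B.ℓ⁻¹ * (B.c / B.N) := by gcongr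
    _ = B.c * B.δ := by unfold δ; field_simp

theorem near_ω {i : ι} (hi : ‖B.x i‖ ≤ 3 + B.c) : ‖B.ω i - B.v‖ ≤ B.ℓ * (d * (3 + B.c)) := by
  have hℓ := B.ℓ0
  have h1 : B.ω i - B.v = B.ℓ • (WithLp.toLp 2 (B.x i) : Vec d) := by
    unfold x
    rw [WithLp.toLp_ofLp, smul_smul, mul_inv_cancel₀ hℓ.ne', one_smul]
  rw [h1, norm_smul, Real.norm_of_nonneg hℓ.le]
  gcongr
  exact (norm_toLp_le _).trans (by gcongr)

theorem ω_sub (i j : ι) : ‖B.ω i - B.ω j‖ ≤ B.ℓ * (d * ‖B.x i - B.x j‖) := by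
  have hℓ := B.ℓ0
  have h1 : B.ω i - B.ω j = B.ℓ • (WithLp.toLp 2 (B.x i - B.x j) : Vec d) := by
    unfold x
    rw [WithLp.toLp_sub, WithLp.toLp_ofLp, WithLp.toLp_ofLp, ← smul_sub, smul_smul,
      mul_inv_cancel₀ hℓ.ne', one_smul]
    abel
  rw [h1, norm_smul, Real.norm_of_nonneg hℓ.le]
  gcongr
  exact norm_toLp_le _

/-- the heights of the near boxes -/
theorem exists_height (hδ : B.δ ≤ 1) :
    ∃ s0 : ℝ, ∀ i, ‖B.x i‖ ≤ 3 + B.c → |(B.a i).snd - s0| ≤ B.N ^ 2 / 32 := by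
  obtain ⟨i0, hi0⟩ := B.cov B.v (by rw [sub_self, norm_zero]; exact B.hs.le)
  refine ⟨(B.a i0).snd, fun i hi => ?_⟩
  have hℓ := B.ℓ0
  have hN := B.N0
  have hA := B.hA
  have hc := B.c1
  have hα := B.hα
  have hα1 := B.hα1
  have h1 := B.hol i i0
  have h2 : |(B.a i).snd - (B.a i0).snd| ≤ ‖B.a i - B.a i0‖ := abs_snd_le (B.a i - B.a i0)
  have h3 : ‖B.ω i - B.ω i0‖ + 1 / B.N ≤ B.ℓ * B.G := by
    have h4 := B.near_ω hi
    have hR : B.R ≤ B.c := le_max_left _ _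
    have h5 : B.R / B.N ≤ B.ℓ * B.c := by
      have h6 : B.R / B.N = B.R * (B.ℓ * B.δ) := by rw [B.ℓδ]; ring
      rw [h6]
      have h7 := B.δ0
      have h8 := B.hR
      calc B.R * (B.ℓ * B.δ) ≤ B.c * (B.ℓ * 1) := by gcongr
        _ = _ := by ring
    have h6 : 1 / B.N ≤ B.ℓ := by
      rw [← B.ℓδ]
      calc B.ℓ * B.δ ≤ B.ℓ * 1 := by gcongr
        _ = _ := mul_one _
    calc ‖B.ω i - B.ω i0‖ + 1 / B.N ≤ (‖B.ω i - B.v‖ + ‖B.v - B.ω i0‖) + 1 / B.N := by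
          gcongr
          exact norm_sub_le_norm_sub_add_norm_sub _ _ _
      _ ≤ (B.ℓ * (d * (3 + B.c)) + B.ℓ * B.c) + B.ℓ := by
          gcongr
          exact hi0.trans h5
      _ = B.ℓ * B.G := by unfold G; ring
  have h4 : (‖B.ω i - B.ω i0‖ + 1 / B.N) ^ B.α ≤ 1 / (32 * B.A) := by
    calc (‖B.ω i - B.ω i0‖ + 1 / B.N) ^ B.α ≤ (1 / (32 * B.A) ^ 2) ^ B.α := by
          gcongr
          exact h3.trans B.ℓG
      _ ≤ (1 / (32 * B.A) ^ 2) ^ (1 / 2 : ℝ) := by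
          apply Real.rpow_le_rpow_of_exponent_ge (by positivity) _ hα
          rw [div_le_one (by positivity)]
          exact one_le_pow₀ (by linarith)
      _ = 1 / (32 * B.A) := by
          rw [← Real.sqrt_eq_rpow, Real.sqrt_div zero_le_one, Real.sqrt_one,
            Real.sqrt_sq (by positivity)]
  calc |(B.a i).snd - (B.a i0).snd| ≤ ‖B.a i - B.a i0‖ := h2
    _ ≤ B.A * B.N ^ 2 * (‖B.ω i - B.ω i0‖ + 1 / B.N) ^ B.α := h1
    _ ≤ B.A * B.N ^ 2 * (1 / (32 * B.A)) := by gcongr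
    _ = B.N ^ 2 / 32 := by field_simp

/-- the constant of the scaled family -/
noncomputable def A' : ℝ := 4 * d * B.A / B.ℓ

theorem A'1 : 1 ≤ B.A' := by
  unfold A'
  rw [le_div_iff₀ B.ℓ0]
  have := B.ℓ1
  have := B.d1
  have := B.hA
  nlinarith

theorem hol_P {s0 : ℝ} (h0 : ∀ i, ‖B.x i‖ ≤ 3 + B.c → |(B.a i).snd - s0| ≤ B.N ^ 2 / 32)
    (i j : ι) (hi : ‖B.x i‖ ≤ 3 + B.c) (hj : ‖B.x j‖ ≤ 3 + B.c) :
    ‖B.P s0 i - B.P s0 j‖ ≤ B.A' * (‖B.x i - B.x j‖ + B.δ) ^ B.α := by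
  have hℓ := B.ℓ0
  have hℓ1 := B.ℓ1
  have hN := B.N0
  have hA := B.hA
  have hc := B.c1
  have hα := B.hα
  have hα1 := B.hα1
  have hd := B.d1
  have hδ0 := B.δ0
  set u : ℝ := ‖B.ω i - B.ω j‖ with hu
  set M : ℝ := ‖B.a i - B.a j‖ with hM
  have h1 : M ≤ B.A * B.N ^ 2 * (u + 1 / B.N) ^ B.α := B.hol i j
  set D : Vec d := ((B.a i).fst + (2 * ((B.a i).snd - s0)) • B.ω i) -
    ((B.a j).fst + (2 * ((B.a j).snd - s0)) • B.ω j) with hD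
  have e1 : B.P s0 i - B.P s0 j = WithLp.ofLp (B.ℓ⁻¹ • ((B.N ^ 2)⁻¹ • D)) := by
    unfold P
    rw [← WithLp.ofLp_sub, ← smul_sub, ← smul_sub]
  have e2 : D = ((B.a i - B.a j).fst + (2 * ((B.a i).snd - s0)) • (B.ω i - B.ω j)) +
      (2 * (B.a i - B.a j).snd) • B.ω j := by
    rw [hD, WithLp.sub_fst, WithLp.sub_snd]
    module
  have h2 : ‖D‖ ≤ 3 * M + B.N ^ 2 / 16 * u := by
    rw [e2]
    have k1 : ‖(B.a i - B.a j).fst‖ ≤ M := norm_fst_le _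
    have k2 : |(B.a i - B.a j).snd| ≤ M := abs_snd_le _
    have k3 := h0 i hi
    have k4 := B.hω j
    calc ‖((B.a i - B.a j).fst + (2 * ((B.a i).snd - s0)) • (B.ω i - B.ω j)) +
          (2 * (B.a i - B.a j).snd) • B.ω j‖
        ≤ ‖(B.a i - B.a j).fst‖ + ‖(2 * ((B.a i).snd - s0)) • (B.ω i - B.ω j)‖ +
          ‖(2 * (B.a i - B.a j).snd) • B.ω j‖ := norm_add₃_le
      _ = ‖(B.a i - B.a j).fst‖ + 2 * |(B.a i).snd - s0| * u +
          2 * |(B.a i - B.a j).snd| * ‖B.ω j‖ := by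
          rw [norm_smul, norm_smul, Real.norm_eq_abs, Real.norm_eq_abs, abs_mul, abs_mul,
            abs_of_pos (by norm_num : (0 : ℝ) < 2)]
      _ ≤ M + 2 * (B.N ^ 2 / 32) * u + 2 * M * 1 := by gcongr
      _ = _ := by ring
  have hu0 : 0 ≤ u := norm_nonneg _
  have hu1 : u ≤ 1 := by
    have k1 := B.near_ω hi
    have k2 := B.near_ω hj
    have k3 := B.ℓG1
    have k4 : B.ℓ * (d * (3 + B.c)) ≤ B.ℓ * B.G := by
      gcongr
      unfold G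
      linarith
    calc u ≤ ‖B.ω i - B.v‖ + ‖B.v - B.ω j‖ := norm_sub_le_norm_sub_add_norm_sub _ _ _
      _ ≤ 1 := by rw [norm_sub_rev B.v]; linarith
  have h1N : 0 < 1 / B.N := by positivity
  have hu2 : u ≤ (u + 1 / B.N) ^ B.α := by
    rcases eq_or_lt_of_le hu0 with h | h
    · rw [← h]; positivity
    · calc u = u ^ (1 : ℝ) := (Real.rpow_one u).symm
        _ ≤ u ^ B.α := Real.rpow_le_rpow_of_exponent_ge h hu1 hα1
        _ ≤ (u + 1 / B.N) ^ B.α := by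
            gcongr
            linarith
  have h3 : ‖D‖ ≤ B.N ^ 2 * (4 * B.A * (u + 1 / B.N) ^ B.α) := by
    set z := (u + 1 / B.N) ^ B.α with hz
    have hz0 : 0 ≤ z := by positivity
    have hNN : 0 < B.N ^ 2 := by positivity
    calc ‖D‖ ≤ 3 * M + B.N ^ 2 / 16 * u := h2
      _ ≤ 3 * (B.A * B.N ^ 2 * z) + B.N ^ 2 / 16 * z := by gcongr
      _ ≤ B.N ^ 2 * (4 * B.A * z) := by
          have : B.N ^ 2 * z ≤ B.A * (B.N ^ 2 * z) := by
            have : 0 ≤ B.N ^ 2 * z := by positivity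
            nlinarith
          nlinarith
  have h4 : (u + 1 / B.N) ^ B.α ≤ d * (‖B.x i - B.x j‖ + B.δ) ^ B.α := by
    have k1 := B.ω_sub i j
    have k2 : u + 1 / B.N ≤ d * (‖B.x i - B.x j‖ + B.δ) := by
      rw [← B.ℓδ]
      calc u + B.ℓ * B.δ ≤ B.ℓ * (d * ‖B.x i - B.x j‖) + B.ℓ * (d * B.δ) := by
            gcongr
            nlinarith
        _ = B.ℓ * (d * (‖B.x i - B.x j‖ + B.δ)) := by ring
        _ ≤ 1 * (d * (‖B.x i - B.x j‖ + B.δ)) := by gcongr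
        _ = _ := one_mul _
    calc (u + 1 / B.N) ^ B.α ≤ (d * (‖B.x i - B.x j‖ + B.δ)) ^ B.α := by gcongr
      _ = (d : ℝ) ^ B.α * (‖B.x i - B.x j‖ + B.δ) ^ B.α := Real.mul_rpow (by positivity) (by positivity)
      _ ≤ d * (‖B.x i - B.x j‖ + B.δ) ^ B.α := by
          gcongr
          calc (d : ℝ) ^ B.α ≤ (d : ℝ) ^ (1 : ℝ) :=
                Real.rpow_le_rpow_of_exponent_le (by linarith) hα1
            _ = d := Real.rpow_one _
  rw [e1]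
  refine (norm_ofLp_le _).trans ?_
  rw [norm_smul, norm_smul, norm_inv, norm_inv, Real.norm_of_nonneg hℓ.le,
    Real.norm_of_nonneg (by positivity : 0 ≤ B.N ^ 2)]
  calc B.ℓ⁻¹ * ((B.N ^ 2)⁻¹ * ‖D‖)
      ≤ B.ℓ⁻¹ * ((B.N ^ 2)⁻¹ * (B.N ^ 2 * (4 * B.A * (d * (‖B.x i - B.x j‖ + B.δ) ^ B.α)))) := by
        gcongr
        exact h3.trans (by gcongr)
    _ = B.A' * (‖B.x i - B.x j‖ + B.δ) ^ B.α := by
        unfold A'
        field_simp

theorem fa {s0 : ℝ} (h0 : ∀ i, ‖B.x i‖ ≤ 3 + B.c → |(B.a i).snd - s0| ≤ B.N ^ 2 / 32) (hδ : B.δ ≤ 1) :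
    Fa B.c B.A' B.α B.δ B.x (B.P s0) where
  c1 := B.c1
  A1 := B.A'1
  α0 := by linarith [B.hα]
  α1 := B.hα1
  δ0 := B.δ0
  δ1 := hδ
  cov := B.cov_x
  hol := B.hol_P h0

/-- the points near the axes are in the union of the boxes -/
theorem mem_union {s0 : ℝ} (h0 : ∀ i, ‖B.x i‖ ≤ 3 + B.c → |(B.a i).snd - s0| ≤ B.N ^ 2 / 32)
    {τ : ℝ} (hτ : |τ| ≤ 1 / 32) (z : V d)
    (hz : z ∈ thickening (1 / (4 * d) * B.δ) (Qs B.c B.x (B.P s0) τ)) :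
    pt2 ((B.N ^ 2 * B.ℓ) • z + (-(2 * τ * B.N ^ 2)) • (WithLp.ofLp B.v : V d)) (s0 + B.N ^ 2 * τ) ∈
      ⋃ i, box B.N (nor (B.ω i)) (B.f i) (B.a i) := by
  rw [mem_thickening_iff] at hz
  obtain ⟨_, ⟨i, hi, rfl⟩, hzi⟩ := hz
  rw [mem_iUnion]
  refine ⟨i, ?_⟩
  have hℓ := B.ℓ0
  have hN := B.N0
  have hd := B.d1
  set ρ : ℝ := s0 - (B.a i).snd + B.N ^ 2 * τ with hρ
  set u : V d := z - (B.P s0 i - (2 * τ) • B.x i) with hu
  set w : Vec d := (B.N ^ 2 * B.ℓ) • (WithLp.toLp 2 u : Vec d) with hw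
  have hρ1 : |ρ| ≤ B.N ^ 2 / 10 := by
    have k1 := h0 i hi
    have k2 : |B.N ^ 2 * τ| ≤ B.N ^ 2 / 32 := by
      rw [abs_mul, abs_of_pos (by positivity : 0 < B.N ^ 2)]
      calc B.N ^ 2 * |τ| ≤ B.N ^ 2 * (1 / 32) := by gcongr
        _ = _ := by ring
    have k3 : |s0 - (B.a i).snd| ≤ B.N ^ 2 / 32 := by rw [abs_sub_comm]; exact k1
    have k4 : 0 < B.N ^ 2 := by positivity
    calc |ρ| ≤ |s0 - (B.a i).snd| + |B.N ^ 2 * τ| := abs_add_le _ _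
      _ ≤ B.N ^ 2 / 10 := by linarith
  have hw1 : ‖w‖ ≤ B.N / 4 := by
    rw [hw, norm_smul, Real.norm_of_nonneg (by positivity)]
    have k1 : ‖u‖ ≤ 1 / (4 * d) * B.δ := by rw [hu, ← dist_eq_norm]; exact hzi.le
    have k2 := norm_toLp_le u
    calc B.N ^ 2 * B.ℓ * ‖(WithLp.toLp 2 u : Vec d)‖
        ≤ B.N ^ 2 * B.ℓ * (d * (1 / (4 * d) * B.δ)) := by
          gcongr
          exact k2.trans (by gcongr)
      _ = B.N ^ 2 * (B.ℓ * B.δ) / 4 := by field_simp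
      _ = B.N / 4 := by rw [B.ℓδ]; field_simp
  have h1 := mem_box B.hN (B.hω i) (B.hf i) (B.a i) hρ1 hw1
  have h2 : pt2 ((B.N ^ 2 * B.ℓ) • z + (-(2 * τ * B.N ^ 2)) • (WithLp.ofLp B.v : V d)) (s0 + B.N ^ 2 * τ) =
      B.a i + (WithLp.toLp 2 (-(2 * ρ) • B.ω i + w, ρ) : Space d) := by
    have e1 : (B.a i) = WithLp.toLp 2 ((B.a i).fst, (B.a i).snd) := rfl
    rw [e1, ← WithLp.toLp_add]
    unfold pt2
    congr 1
    refine Prod.ext ?_ ?_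
    · show (WithLp.toLp 2 ((B.N ^ 2 * B.ℓ) • z + (-(2 * τ * B.N ^ 2)) • (WithLp.ofLp B.v : V d)) : Vec d) =
        (B.a i).fst + (-(2 * ρ) • B.ω i + w)
      rw [hw, hu, hρ]
      unfold P x
      ext k
      simp only [WithLp.toLp_sub, WithLp.toLp_smul, WithLp.toLp_ofLp, PiLp.add_apply,
        PiLp.sub_apply, PiLp.smul_apply, smul_eq_mul, Pi.add_apply, Pi.smul_apply]
      field_simp
      ring
    · show s0 + B.N ^ 2 * τ = (B.a i).snd + ρ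
      rw [hρ]
      ring
  rw [h2]
  exact h1

end Bx

end Pool.Agent.J4.H87.Hol
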