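import Pool.Agent.J4.H87.HolN

set_option autoImplicit false

/-! Hölder translates: the theorem for boxes. -/

open MeasureTheory Set Filter Topology Metric
open scoped ENNReal NNReal

namespace Pool.Agent.J4.H87.Hol

open Pool.Agent.H810R3.Tub (Space Vec box nor dir norm_dir norm_e norm_space_sq vol_box box_closed)

variable {d : ℕ}

/-- the lower bound for one family -/
theorem Bx.lower {ι : Type} [Fintype ι] (B : Bx d ι) {C p : ℝ} (hC : 1 ≤ C) (hp : 0 ≤ p)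
    (hint : ∀ (A δ : ℝ) (x P : ι → V d), Fa B.c A B.α δ x P →
      C * A ^ p * δ ≤ 1 → ENNReal.ofReal ((C * A ^ p)⁻¹ * δ ^ (d * (1 - B.α))) ≤
        ∫⁻ τ in Ioc 0 ((d + 1) * (1 / (32 * ((d : ℝ) + 1)))),
          volume (thickening (1 / (4 * (d : ℝ)) * δ) (Qs B.c x P τ)))
    (hδ : C * B.A' ^ p * B.δ ≤ 1) :
    ENNReal.ofReal ((B.N ^ 2 * B.ℓ) ^ d * B.N ^ 2 * ((C * B.A' ^ p)⁻¹ * B.δ ^ (d * (1 - B.α)))) ≤
      volume (⋃ i, box B.N (nor (B.ω i)) (B.f i) (B.a i)) := by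
  have hA' := B.A'1
  have hδ0 := B.δ0
  have hN := B.N0
  have hℓ := B.ℓ0
  have hδ1 : B.δ ≤ 1 := by
    have h1 : 1 ≤ C * B.A' ^ p := one_le_mul_of_one_le_of_one_le hC (Real.one_le_rpow hA' hp)
    nlinarith
  obtain ⟨s0, hs0⟩ := B.exists_height hδ1
  have h1 := hint B.A' B.δ B.x (B.P s0) (B.fa hs0 hδ1) hδ
  have hS : MeasurableSet (⋃ i, box B.N (nor (B.ω i)) (B.f i) (B.a i)) :=
    MeasurableSet.iUnion fun i => (box_closed _ _ _ _).measurableSet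
  have hJ : ((d : ℝ) + 1) * (1 / (32 * ((d : ℝ) + 1))) = 1 / 32 := by
    have : (0 : ℝ) < (d : ℝ) + 1 := by positivity
    field_simp
  rw [hJ] at h1
  have h2 := vol_lower hS (W := fun τ => thickening (1 / (4 * (d : ℝ)) * B.δ) (Qs B.c B.x (B.P s0) τ))
    (J := Ioc 0 (1 / 32)) measurableSet_Ioc (L := B.N ^ 2 * B.ℓ) (M := B.N ^ 2) (by positivity)
    (by positivity) s0 (fun τ => (-(2 * τ * B.N ^ 2)) • (WithLp.ofLp B.v : V d))
    (fun τ hτ z hz => B.mem_union hs0 (by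
      rw [abs_of_pos hτ.1]
      exact hτ.2) z hz)
  refine le_trans ?_ h2
  rw [ENNReal.ofReal_mul (by positivity)]
  gcongr

/-- **The volume form of the Kakeya inequality for Hölder translates.** -/
theorem boxes (hd : 2 ≤ d) {α : ℝ} (hα : ((d : ℝ) - 1) / d < α) (hα1 : α ≤ 1) {R K : ℝ} (hR : 0 < R)
    (hK : 0 < K) :
    ∃ C p : ℝ, 0 < C ∧ 0 ≤ p ∧ ∀ (A s N : ℝ) (ι : Type) [Fintype ι] (v : Vec d) (ω : ι → Vec d)
      (f : ι → Fin d → Space d) (a : ι → Space d), 1 ≤ A → 0 < s → s ≤ 1 → 1 ≤ N →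
      (∀ i, ‖ω i‖ ≤ 1) → (∀ u, ‖u - v‖ ≤ s → ∃ i, ‖u - ω i‖ ≤ R / N) →
      (Fintype.card ι : ℝ) ≤ K * N ^ d →
      (∀ i, Orthonormal ℝ (Fin.cons (nor (ω i)) (f i) : Fin (d + 1) → Space d)) →
      (∀ i j, ‖a i - a j‖ ≤ A * N ^ 2 * (‖ω i - ω j‖ + 1 / N) ^ α) →
      ENNReal.ofReal ((C * (A / s) ^ p * N ^ (d * (1 - α)))⁻¹) *
        ∑ i, volume (box N (nor (ω i)) (f i) (a i)) ≤ volume (⋃ i, box N (nor (ω i)) (f i) (a i)) := by
  have hd2 : (2 : ℝ) ≤ d := by exact_mod_cast hd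
  have hd0 : (0 : ℝ) < d := by linarith
  have hκ : 0 < d * α - (d - 1) := by
    rw [div_lt_iff₀ hd0] at hα
    linarith
  have hα2 : 1 / 2 ≤ α := by
    have : (1 : ℝ) / 2 ≤ ((d : ℝ) - 1) / d := by
      rw [div_le_div_iff₀ (by norm_num) hd0]
      linarith
    linarith
  set c : ℝ := max R 1 with hc
  have hc1 : 1 ≤ c := le_max_right _ _
  obtain ⟨C, p, hC, hp, hint⟩ := int_sections hd hκ (h := 1 / (32 * ((d : ℝ) + 1))) (by positivity)
    (by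
      have : (0 : ℝ) < (d : ℝ) + 1 := by positivity
      have e : ((d : ℝ) + 1) * (1 / (32 * ((d : ℝ) + 1))) = 1 / 32 := by field_simp
      rw [e]
      norm_num) hc1 (e0 := 1 / (4 * (d : ℝ))) (by positivity) (by
      rw [div_le_one (by positivity)]
      linarith)
  set G : ℝ := d * (3 + c) + c + 1 with hG
  have hG1 : 1 ≤ G := by rw [hG]; nlinarith
  set Q1 : ℝ := 4096 * d * G with hQ1
  set Q2 : ℝ := 1024 * G with hQ2
  have hQ11 : 1 ≤ Q1 := by rw [hQ1]; nlinarith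
  have hQ21 : 1 ≤ Q2 := by rw [hQ2]; nlinarith
  refine ⟨K * (C * Q1 ^ p * Q2) ^ d, (3 * p + 2) * d, by positivity, by positivity, ?_⟩
  intro A s N ι _ v ω f a hA hs hs1 hN hω hcov hcard hf hhol
  set B : Bx d ι := ⟨α, R, A, N, s, v, ω, f, a, hd, hα2, hα1, hR, hA, hN, hs, hs1, hω, hcov, hf, hhol⟩ with hB
  have hN0 : 0 < N := by linarith
  set X : ℝ := A / s with hX
  have hX1 : 1 ≤ X := by
    rw [hX, le_div_iff₀ hs]
    linarith
  have hX0 : 0 < X := by linarith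
  have hℓ0 := B.ℓ0
  have hℓe : B.ℓ = s / (G * (32 * A) ^ 2) := rfl
  have hA'e : B.A' = 4 * d * A / B.ℓ := rfl
  have hδe : B.δ = 1 / (N * B.ℓ) := rfl
  have hA'1 := B.A'1
  have hA0 : 0 < A := by linarith
  -- bounds
  have f1 : B.ℓ⁻¹ ≤ Q2 * X ^ (2 : ℝ) := by
    have e : B.ℓ⁻¹ = Q2 * (A ^ 2 / s) := by
      rw [hℓe, hQ2]
      field_simp
      norm_num
    rw [e]
    gcongr
    rw [hX, Real.rpow_two, div_pow]
    gcongr
    nlinarith
  have f2 : B.A' ≤ Q1 * X ^ (3 : ℝ) := by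
    have e : B.A' = Q1 * (A ^ 3 / s) := by
      rw [hA'e, hℓe, hQ1]
      field_simp
      norm_num
    rw [e]
    gcongr
    have : X ^ (3 : ℝ) = X ^ 3 := by
      rw [← Real.rpow_natCast]; norm_num
    rw [this, hX, div_pow]
    gcongr
    nlinarith [mul_pos hs hs]
  set Z : ℝ := C * Q1 ^ p * Q2 * X ^ (3 * p + 2) with hZ
  have hZ1 : 1 ≤ Z := by
    have h1 : 1 ≤ Q1 ^ p := Real.one_le_rpow hQ11 hp
    have h2 : 1 ≤ X ^ (3 * p + 2) := Real.one_le_rpow hX1 (by positivity)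
    exact one_le_mul_of_one_le_of_one_le (one_le_mul_of_one_le_of_one_le
      (one_le_mul_of_one_le_of_one_le hC h1) hQ21) h2
  have f3 : C * B.A' ^ p * B.ℓ⁻¹ ≤ Z := by
    calc C * B.A' ^ p * B.ℓ⁻¹ ≤ C * (Q1 * X ^ (3 : ℝ)) ^ p * (Q2 * X ^ (2 : ℝ)) := by gcongr
      _ = Z := by
          rw [Real.mul_rpow (by linarith) (by positivity), ← Real.rpow_mul hX0.le, hZ,
            Real.rpow_add hX0]
          ring
  have hCA : 1 ≤ C * B.A' ^ p := one_le_mul_of_one_le_of_one_le hC (Real.one_le_rpow hA'1 hp)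
  have f4 : B.ℓ⁻¹ ≤ Z := by
    have : 0 < B.ℓ⁻¹ := by positivity
    nlinarith
  have f5 : C * B.A' ^ p * B.ℓ⁻¹ ^ d ≤ Z ^ d := by
    obtain ⟨k, rfl⟩ : ∃ k, d = k + 1 := ⟨d - 1, by omega⟩
    have : 0 < B.ℓ⁻¹ := by positivity
    calc C * B.A' ^ p * B.ℓ⁻¹ ^ (k + 1) = (C * B.A' ^ p * B.ℓ⁻¹) * B.ℓ⁻¹ ^ k := by ring
      _ ≤ Z * Z ^ k := by gcongr
      _ = Z ^ (k + 1) := by ring
  have f6 : K * (C * Q1 ^ p * Q2) ^ d * X ^ ((3 * p + 2) * d) = K * Z ^ d := by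
    rw [hZ, mul_pow (C * Q1 ^ p * Q2), Real.rpow_mul hX0.le, Real.rpow_natCast]
    ring
  rw [f6]
  set E : ℝ := N ^ ((d : ℝ) * (1 - α)) with hE
  have hE1 : 1 ≤ E := Real.one_le_rpow hN (by
    have : 0 ≤ 1 - α := by linarith
    positivity)
  have hsum : ∑ i, volume (box N (nor (ω i)) (f i) (a i)) ≤ ENNReal.ofReal (K * N ^ d * N ^ (d + 2)) := by
    calc ∑ i, volume (box N (nor (ω i)) (f i) (a i)) = ∑ _i : ι, ENNReal.ofReal (N ^ (d + 2)) :=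
          Finset.sum_congr rfl fun i _ => vol_box hN (hf i) _
      _ = ENNReal.ofReal (Fintype.card ι) * ENNReal.ofReal (N ^ (d + 2)) := by
          rw [Finset.sum_const, Finset.card_univ, nsmul_eq_mul, ENNReal.ofReal_natCast]
      _ ≤ ENNReal.ofReal (K * N ^ d) * ENNReal.ofReal (N ^ (d + 2)) := by gcongr
      _ = _ := by rw [← ENNReal.ofReal_mul (by positivity)]
  have hleft : ENNReal.ofReal ((K * Z ^ d * E)⁻¹) * ∑ i, volume (box N (nor (ω i)) (f i) (a i)) ≤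
      ENNReal.ofReal ((Z ^ d)⁻¹ * E⁻¹ * N ^ (2 * d + 2)) := by
    calc _ ≤ ENNReal.ofReal ((K * Z ^ d * E)⁻¹) * ENNReal.ofReal (K * N ^ d * N ^ (d + 2)) := by gcongr
      _ = ENNReal.ofReal ((Z ^ d)⁻¹ * E⁻¹ * N ^ (2 * d + 2)) := by
          rw [← ENNReal.ofReal_mul (by positivity)]
          congr 1
          have : N ^ (2 * d + 2) = N ^ d * N ^ (d + 2) := by rw [← pow_add]; congr 1; ring
          rw [this]
          field_simp
  refine hleft.trans ?_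
  by_cases hcase : C * B.A' ^ p * B.δ ≤ 1
  · have hlow := B.lower hC hp (fun A δ x P H h => hint A δ ι x P H h) hcase
    refine le_trans (ENNReal.ofReal_le_ofReal ?_) hlow
    have e1 : (B.N ^ 2 * B.ℓ) ^ d * B.N ^ 2 * ((C * B.A' ^ p)⁻¹ * B.δ ^ (d * (1 - B.α))) =
        N ^ (2 * d + 2) * (B.ℓ ^ d * (C * B.A' ^ p)⁻¹) * B.δ ^ (d * (1 - α)) := by
      have e2 : B.N = N := rfl
      have e3 : B.α = α := rfl
      rw [e2, e3, mul_pow, ← pow_mul]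
      ring
    rw [e1]
    have e4 : E⁻¹ ≤ B.δ ^ ((d : ℝ) * (1 - α)) := by
      rw [hE, ← Real.inv_rpow hN0.le]
      have : 0 ≤ (d : ℝ) * (1 - α) := by
        have : 0 ≤ 1 - α := by linarith
        positivity
      gcongr
      rw [hδe, ← one_div]
      have hℓ1 := B.ℓ1
      gcongr
      nlinarith
    have e5 : (Z ^ d)⁻¹ ≤ B.ℓ ^ d * (C * B.A' ^ p)⁻¹ := by
      have h0 : 0 < C * B.A' ^ p * B.ℓ⁻¹ ^ d := by positivity
      calc (Z ^ d)⁻¹ ≤ (C * B.A' ^ p * B.ℓ⁻¹ ^ d)⁻¹ := by gcongr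
        _ = B.ℓ ^ d * (C * B.A' ^ p)⁻¹ := by
            rw [mul_inv, inv_pow, inv_inv]
            ring
    calc (Z ^ d)⁻¹ * E⁻¹ * N ^ (2 * d + 2) = N ^ (2 * d + 2) * (Z ^ d)⁻¹ * E⁻¹ := by ring
      _ ≤ N ^ (2 * d + 2) * (B.ℓ ^ d * (C * B.A' ^ p)⁻¹) * B.δ ^ ((d : ℝ) * (1 - α)) :=
          mul_le_mul (mul_le_mul_of_nonneg_left e5 (by positivity)) e4 (inv_nonneg.2 (by linarith))
            (mul_nonneg (by positivity) (mul_nonneg (pow_nonneg hℓ0.le _) (inv_nonneg.2 (by linarith))))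
  · rw [not_le] at hcase
    obtain ⟨i0, _⟩ := hcov v (by rw [sub_self, norm_zero]; exact hs.le)
    have h1 : N ≤ Z := by
      have h2 : 1 < C * B.A' ^ p * (1 / (N * B.ℓ)) := hcase
      have h3 : C * B.A' ^ p * (1 / (N * B.ℓ)) = (C * B.A' ^ p * B.ℓ⁻¹) / N := by field_simp
      rw [h3, one_lt_div hN0] at h2
      linarith
    have h2 : ENNReal.ofReal (N ^ (d + 2)) ≤ volume (⋃ i, box N (nor (ω i)) (f i) (a i)) := by
      rw [← vol_box hN (hf i0) (a i0)]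
      exact measure_mono (subset_iUnion (fun i => box N (nor (ω i)) (f i) (a i)) i0)
    refine le_trans (ENNReal.ofReal_le_ofReal ?_) h2
    have h3 : N ^ (2 * d + 2) = N ^ d * N ^ (d + 2) := by rw [← pow_add]; congr 1; ring
    rw [h3]
    have h4 : (Z ^ d)⁻¹ * N ^ d ≤ 1 := by
      rw [inv_mul_le_iff₀ (by positivity), mul_one]
      gcongr
    have h5 : E⁻¹ ≤ 1 := inv_le_one_of_one_le₀ hE1
    calc (Z ^ d)⁻¹ * E⁻¹ * (N ^ d * N ^ (d + 2)) = ((Z ^ d)⁻¹ * N ^ d) * E⁻¹ * N ^ (d + 2) := by ring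
      _ ≤ 1 * 1 * N ^ (d + 2) := by gcongr
      _ = N ^ (d + 2) := by ring

end Pool.Agent.J4.H87.Hol
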