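import Pool.Agent.J4.H87.HolO

set_option autoImplicit false

/-! Hölder translates: continuous families of segments. -/

open MeasureTheory Set Filter Topology Metric
open scoped ENNReal NNReal Pointwise

namespace Pool.Agent.J4.H87.Hol

open Pool.Agent.H810R3.Tub (Space Vec)

variable {d : ℕ}

theorem img_eq (b : V d → V d) (τ : ℝ) :
    img b τ = (fun x : V d => (fun i => b x i - 2 * τ * x i : V d)) '' closedBall 0 1 := by
  ext z
  simp only [img, mem_ofPred_eq, mem_image, mem_closedBall_zero_iff]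
  constructor
  · rintro ⟨x, hx, rfl⟩
    exact ⟨x, hx, rfl⟩
  · rintro ⟨x, hx, rfl⟩
    exact ⟨x, hx, rfl⟩

theorem img_compact {b : V d → V d} (hb : Continuous b) (τ : ℝ) : IsCompact (img b τ) := by
  rw [img_eq]
  refine (isCompact_closedBall (0 : V d) 1).image ?_
  exact continuous_pi fun i => ((continuous_apply i).comp hb).sub
    (continuous_const.mul (continuous_apply i))

/-- One of `d + 1` sections of a continuous family is large. -/
theorem img_large (hd : 2 ≤ d) {α : ℝ} (hα0 : 0 < α) (hα1 : α ≤ 1) (hκ : 0 < d * α - (d - 1)) {h : ℝ}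
    (hh : 0 < h) (hh1 : h ≤ 1) :
    ∃ C p : ℝ, 1 ≤ C ∧ 0 ≤ p ∧ ∀ (A : ℝ) (b : V d → V d), 1 ≤ A → Continuous b →
      (∀ x y, ‖x‖ ≤ 2 → ‖y‖ ≤ 2 → ∀ i, |b y i - b x i| ≤ A * ‖y - x‖ ^ α) →
      ∀ t : ℝ, (∀ k ∈ Finset.range (d + 1), |t + k * h| ≤ 1) →
      ∃ k ∈ Finset.range (d + 1), ENNReal.ofReal ((C * A ^ p)⁻¹) ≤ volume (img b (t + k * h)) := by
  obtain ⟨C, p, hC, hp, hcore⟩ := core hd hκ hh hh1
  refine ⟨C, p, hC, hp, ?_⟩
  intro A b hA hbc hb t ht
  by_contra hcon
  push Not at hcon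
  have hA0 : 0 < A := by linarith
  set c : ℝ≥0∞ := ENNReal.ofReal ((C * A ^ p)⁻¹) with hc
  have h1 : ∀ k ∈ Finset.range (d + 1), ∀ᶠ r in 𝓝 (0 : ℝ), volume (cthickening r (img b (t + k * h))) < c := by
    intro k hk
    have h2 := tendsto_measure_cthickening_of_isCompact (μ := (volume : Measure (V d)))
      (img_compact hbc (t + k * h))
    exact h2.eventually_lt_const (hcon k hk)
  have h2 : ∀ᶠ r in 𝓝 (0 : ℝ), ∀ k ∈ Finset.range (d + 1),
      volume (cthickening r (img b (t + k * h))) < c := (Finset.eventually_all _).2 h1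
  have h3 : Tendsto (fun δ : ℝ => 8 * A * δ ^ α) (𝓝[>] 0) (𝓝 0) := by
    have h4 : ContinuousAt (fun δ : ℝ => 8 * A * δ ^ α) 0 :=
      continuousAt_const.mul (Real.continuousAt_rpow_const _ _ (Or.inr hα0.le))
    have h5 := h4.tendsto
    rw [Real.zero_rpow hα0.ne', mul_zero] at h5
    exact h5.mono_left nhdsWithin_le_nhds
  have h4 : ∀ᶠ δ in 𝓝[>] (0 : ℝ), C * A ^ p * δ ≤ 1 := by
    have h5 : Tendsto (fun δ : ℝ => C * A ^ p * δ) (𝓝[>] 0) (𝓝 (C * A ^ p * 0)) :=
      (tendsto_id.mono_left nhdsWithin_le_nhds).const_mul _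
    rw [mul_zero] at h5
    exact (h5.eventually_lt_const zero_lt_one).mono fun _ h => h.le
  have h5 : ∀ᶠ δ in 𝓝[>] (0 : ℝ), δ ≤ 1 :=
    eventually_nhdsWithin_of_eventually_nhds (eventually_le_nhds (by norm_num))
  have h6 : ∀ᶠ δ in 𝓝[>] (0 : ℝ), (0 : ℝ) < δ := eventually_mem_nhdsWithin
  obtain ⟨δ, hδ1, hδ2, hδ3, hδ4⟩ := ((h3.eventually h2).and (h4.and (h5.and h6))).exists
  have H : Hd b A α δ := ⟨hA, hα0, hα1, hδ4, hδ3,
    fun i => ((continuous_apply i).comp hbc).locallyIntegrable, fun x y hx hy i => by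
      refine (hb x y hx hy i).trans ?_
      gcongr
      exact le_max_left _ _⟩
  obtain ⟨k, hk, hk2⟩ := hcore A δ b H hδ2 t ht
  have h7 := hδ1 k hk
  have h8 : volume (thickening (8 * A * δ ^ α) (img b (t + k * h))) ≤
      volume (cthickening (8 * A * δ ^ α) (img b (t + k * h))) :=
    measure_mono (thickening_subset_cthickening _ _)
  exact absurd (hk2.trans h8) (not_le.2 h7)

/-- integration over the heights -/
theorem integrate {f : ℝ → ℝ≥0∞} (hf : Measurable f) {h : ℝ} (hh : 0 < h) {v : ℝ≥0∞}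
    (hv : ∀ t ∈ Ioc (0 : ℝ) h, ∃ k ∈ Finset.range (d + 1), v ≤ f (t + k * h)) :
    v * ENNReal.ofReal h ≤ ((d : ℝ≥0∞) + 1) * ∫⁻ t in Ioc 0 ((d + 1) * h), f t := by
  have h2 : ∀ t ∈ Ioc (0 : ℝ) h, v ≤ ∑ k ∈ Finset.range (d + 1), f (t + k * h) := by
    intro t ht
    obtain ⟨k, hk, hk2⟩ := hv t ht
    exact hk2.trans (Finset.single_le_sum (f := fun k : ℕ => f (t + k * h)) (fun _ _ => zero_le) hk)
  have h4 : ∀ k ∈ Finset.range (d + 1), ∫⁻ t in Ioc (0 : ℝ) h, f (t + k * h) ≤
      ∫⁻ t in Ioc 0 ((d + 1) * h), f t := by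
    intro k hk
    have hk1 : (k : ℝ) ≤ d := by
      have := Finset.mem_range_succ_iff.1 hk
      exact_mod_cast this
    rw [← lintegral_indicator measurableSet_Ioc, ← lintegral_indicator measurableSet_Ioc,
      ← lintegral_add_right_eq_self ((Ioc 0 (((d : ℝ) + 1) * h)).indicator fun t => f t) (k * h)]
    refine lintegral_mono fun t => ?_
    by_cases ht : t ∈ Ioc (0 : ℝ) h
    · rw [indicator_of_mem ht, indicator_of_mem]
      constructor
      · have := ht.1; positivity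
      · have := ht.2; nlinarith
    · rw [indicator_of_notMem ht]
      exact zero_le
  calc v * ENNReal.ofReal h = ∫⁻ _t in Ioc (0 : ℝ) h, v := by
        rw [setLIntegral_const, Real.volume_Ioc, sub_zero]
    _ ≤ ∫⁻ t in Ioc (0 : ℝ) h, ∑ k ∈ Finset.range (d + 1), f (t + k * h) :=
        setLIntegral_mono' measurableSet_Ioc h2
    _ = ∑ k ∈ Finset.range (d + 1), ∫⁻ t in Ioc (0 : ℝ) h, f (t + k * h) :=
        lintegral_finsetSum _ fun k _ => hf.comp (measurable_id.add_const _)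
    _ ≤ ∑ _k ∈ Finset.range (d + 1), ∫⁻ t in Ioc 0 ((d + 1) * h), f t := Finset.sum_le_sum h4
    _ = _ := by
        rw [Finset.sum_const, Finset.card_range, nsmul_eq_mul]
        push_cast
        rfl

/-- the clamping map -/
noncomputable def clamp (x : V d) : V d := fun i => max (-2) (min 2 (x i))

theorem clamp_cont : Continuous (clamp (d := d)) :=
  continuous_pi fun i => continuous_const.max (continuous_const.min (continuous_apply i))

theorem clamp_norm (x : V d) : ‖clamp x‖ ≤ 2 := by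
  rw [pi_norm_le_iff_of_nonneg (by norm_num)]
  intro i
  rw [Real.norm_eq_abs, abs_le]
  unfold clamp
  exact ⟨le_max_left _ _, max_le (by norm_num) (min_le_left _ _)⟩

theorem clamp_eq {x : V d} (hx : ‖x‖ ≤ 2) : clamp x = x := by
  funext i
  have h1 := abs_le.1 ((norm_le_pi_norm x i).trans hx)
  unfold clamp
  rw [min_eq_right h1.2, max_eq_right h1.1]

/-- the union of the segments `{(b u + t u, t) : 0 ≤ t ≤ 1}`, `‖u - v‖ ≤ s` -/
def segs (b : Vec d → Vec d) (v : Vec d) (s : ℝ) : Set (Space d) :=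
  {q | ∃ u, ‖u - v‖ ≤ s ∧ ∃ t ∈ Icc (0 : ℝ) 1, q = WithLp.toLp 2 (b u + t • u, t)}

theorem segs_closed {b : Vec d → Vec d} {v : Vec d} {s : ℝ} (hb : ContinuousOn b (closedBall v s)) :
    IsClosed (segs b v s) := by
  have h1 : segs b v s = (fun q : Vec d × ℝ => (WithLp.toLp 2 (b q.1 + q.2 • q.1, q.2) : Space d)) ''
      (closedBall v s ×ˢ Icc (0 : ℝ) 1) := by
    ext z
    simp only [segs, mem_ofPred_eq, mem_image, mem_prod, mem_closedBall, dist_eq_norm]
    constructor
    · rintro ⟨u, hu, t, ht, rfl⟩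
      exact ⟨(u, t), ⟨hu, ht⟩, rfl⟩
    · rintro ⟨⟨u, t⟩, ⟨hu, ht⟩, rfl⟩
      exact ⟨u, hu, t, ht, rfl⟩
  rw [h1]
  refine (IsCompact.image_of_continuousOn ((isCompact_closedBall v s).prod isCompact_Icc) ?_).isClosed
  refine (WithLp.prod_continuous_toLp 2 (Vec d) ℝ).comp_continuousOn ?_
  refine ContinuousOn.prodMk (ContinuousOn.add ?_ ?_) continuousOn_snd
  · exact hb.comp continuousOn_fst fun q hq => hq.1
  · exact continuousOn_snd.smul continuousOn_fst

/-- **Continuous families of segments.** -/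
theorem segments (hd : 2 ≤ d) {α : ℝ} (hα : ((d : ℝ) - 1) / d < α) (hα1 : α ≤ 1) :
    ∃ C p : ℝ, 0 < C ∧ 0 ≤ p ∧ ∀ (A s : ℝ) (v : Vec d) (b : Vec d → Vec d), 1 ≤ A → 0 < s → s ≤ 1 →
      (∀ u w, ‖u - v‖ ≤ s → ‖w - v‖ ≤ s → ‖b u - b w‖ ≤ A * ‖u - w‖ ^ α) →
      ENNReal.ofReal ((C * (A / s) ^ p)⁻¹) ≤ volume (segs b v s) := by
  have hd2 : (2 : ℝ) ≤ d := by exact_mod_cast hd
  have hd0 : (0 : ℝ) < d := by linarith
  have hκ : 0 < d * α - (d - 1) := by
    rw [div_lt_iff₀ hd0] at hα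
    linarith
  have hα0 : 0 < α := by
    have : (0 : ℝ) ≤ ((d : ℝ) - 1) / d := div_nonneg (by linarith) hd0.le
    linarith
  set h : ℝ := 1 / (2 * ((d : ℝ) + 1)) with hh
  have hh0 : 0 < h := by positivity
  have hdh : ((d : ℝ) + 1) * h = 1 / 2 := by rw [hh]; field_simp
  have hh1 : h ≤ 1 := by nlinarith
  obtain ⟨C, p, hC, hp, himg⟩ := img_large hd hα0 hα1 hκ hh0 hh1
  set E : ℝ := ((d : ℝ) + 1) / h with hE
  have hE0 : 0 < E := by positivity
  set Q : ℝ := 2 * (d : ℝ) ^ 2 with hQ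
  have hQ0 : 0 < Q := by positivity
  refine ⟨C * Q ^ p * E * (2 * (d : ℝ)) ^ d, p + d, by positivity, by positivity, ?_⟩
  intro A s v b hA hs hs1 hb
  have hA0 : 0 < A := by linarith
  set ℓ : ℝ := s / (2 * d) with hℓ
  have hℓ0 : 0 < ℓ := by positivity
  have hℓ1 : ℓ ≤ 1 := by
    rw [hℓ, div_le_one (by positivity)]
    linarith
  have hbc : ContinuousOn b (closedBall v s) := by
    intro u hu
    rw [ContinuousWithinAt, tendsto_iff_norm_sub_tendsto_zero]
    have h1 : Tendsto (fun w : Vec d => A * ‖w - u‖ ^ α) (𝓝[closedBall v s] u) (𝓝 0) := by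
      have h2 : ContinuousAt (fun w : Vec d => A * ‖w - u‖ ^ α) u := by
        refine continuousAt_const.mul ?_
        refine ContinuousAt.rpow_const ?_ (Or.inr hα0.le)
        exact (continuous_norm.comp (continuous_id.sub continuous_const)).continuousAt
      have h3 := h2.tendsto
      simp only [sub_self, norm_zero, Real.zero_rpow hα0.ne', mul_zero] at h3
      exact h3.mono_left nhdsWithin_le_nhds
    refine squeeze_zero' (Eventually.of_forall fun _ => norm_nonneg _) ?_ h1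
    filter_upwards [self_mem_nhdsWithin] with w hw
    rw [mem_closedBall, dist_eq_norm] at hw hu
    exact hb w u hw hu
  -- the scaled function
  set g : V d → Vec d := fun x => v - ℓ • (WithLp.toLp 2 x : Vec d) with hg
  have hgm : ∀ x, ‖x‖ ≤ 2 → ‖g x - v‖ ≤ s := by
    intro x hx
    rw [hg]
    simp only [sub_sub_cancel_left, norm_neg, norm_smul, Real.norm_of_nonneg hℓ0.le]
    calc ℓ * ‖(WithLp.toLp 2 x : Vec d)‖ ≤ ℓ * (d * 2) := by
          gcongr
          exact (norm_toLp_le x).trans (by gcongr)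
      _ = s := by rw [hℓ]; field_simp
  have hgc : Continuous g := by
    exact continuous_const.sub ((PiLp.continuous_toLp 2 (fun _ : Fin d => ℝ)).const_smul ℓ)
  set b' : V d → V d := fun x => WithLp.ofLp (ℓ⁻¹ • b (g (clamp x))) with hb'
  have hb'c : Continuous b' := by
    refine (PiLp.continuous_ofLp 2 (fun _ : Fin d => ℝ)).comp ?_
    refine Continuous.const_smul ?_ ℓ⁻¹
    refine hbc.comp_continuous (hgc.comp clamp_cont) fun x => ?_
    rw [mem_closedBall, dist_eq_norm]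
    exact hgm _ (clamp_norm x)
  set A' : ℝ := Q * (A / s) with hA'
  have hX1 : 1 ≤ A / s := by
    rw [le_div_iff₀ hs]
    linarith
  have hA'1 : 1 ≤ A' := by
    have : 1 ≤ Q := by rw [hQ]; nlinarith
    exact one_le_mul_of_one_le_of_one_le this hX1
  have hb'h : ∀ x y, ‖x‖ ≤ 2 → ‖y‖ ≤ 2 → ∀ i, |b' y i - b' x i| ≤ A' * ‖y - x‖ ^ α := by
    intro x y hx hy i
    have e1 : b' y i - b' x i = (WithLp.ofLp (ℓ⁻¹ • (b (g y) - b (g x))) : V d) i := by
      rw [hb']
      simp only [clamp_eq hx, clamp_eq hy, WithLp.ofLp_smul, WithLp.ofLp_sub, Pi.smul_apply,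
        Pi.sub_apply, smul_eq_mul]
      ring
    rw [e1]
    have h1 := hb (g y) (g x) (hgm y hy) (hgm x hx)
    have h2 : ‖g y - g x‖ ≤ ℓ * (d * ‖y - x‖) := by
      have e2 : g y - g x = ℓ • (WithLp.toLp 2 (x - y) : Vec d) := by
        rw [hg, WithLp.toLp_sub, smul_sub]
        simp only
        abel
      rw [e2, norm_smul, Real.norm_of_nonneg hℓ0.le, norm_sub_rev y x]
      gcongr
      exact norm_toLp_le _
    have h3 : ‖g y - g x‖ ^ α ≤ d * ‖y - x‖ ^ α := by
      calc ‖g y - g x‖ ^ α ≤ (1 * (d * ‖y - x‖)) ^ α := by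
            gcongr
            exact h2.trans (by gcongr)
        _ = (d : ℝ) ^ α * ‖y - x‖ ^ α := by
            rw [one_mul, Real.mul_rpow (by positivity) (by positivity)]
        _ ≤ d * ‖y - x‖ ^ α := by
            gcongr
            calc (d : ℝ) ^ α ≤ (d : ℝ) ^ (1 : ℝ) :=
                  Real.rpow_le_rpow_of_exponent_le (by linarith) hα1
              _ = d := Real.rpow_one _
    calc |(WithLp.ofLp (ℓ⁻¹ • (b (g y) - b (g x))) : V d) i| ≤ ‖ℓ⁻¹ • (b (g y) - b (g x))‖ :=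
          (norm_le_pi_norm _ i).trans (norm_ofLp_le _)
      _ = ℓ⁻¹ * ‖b (g y) - b (g x)‖ := by rw [norm_smul, norm_inv, Real.norm_of_nonneg hℓ0.le]
      _ ≤ ℓ⁻¹ * (A * (d * ‖y - x‖ ^ α)) := by
          gcongr
          exact h1.trans (by gcongr)
      _ = A' * ‖y - x‖ ^ α := by
          rw [hA', hQ, hℓ]
          field_simp
  -- the sections
  set c : ℝ≥0∞ := ENNReal.ofReal ((C * A' ^ p)⁻¹) with hc
  have hsec : ∀ t ∈ Ioc (0 : ℝ) h, ∃ k ∈ Finset.range (d + 1), c ≤ volume (img b' (t + k * h)) := by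
    intro t ht
    refine himg A' b' hA'1 hb'c hb'h t fun k hk => ?_
    have hk1 : (k : ℝ) ≤ d := by
      have := Finset.mem_range_succ_iff.1 hk
      exact_mod_cast this
    rw [abs_of_nonneg (by have := ht.1; positivity)]
    have := ht.2
    nlinarith
  have hclosed : IsClosed {q : ℝ × V d | q.2 ∈ img b' q.1} := by
    have e1 : {q : ℝ × V d | q.2 ∈ img b' q.1} = Prod.snd ''
        {w : (closedBall (0 : V d) 1) × (ℝ × V d) | w.2.2 = fun i => b' w.1 i - 2 * w.2.1 * w.1.1 i} := by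
      ext q
      simp only [mem_ofPred_eq, mem_image, img, Prod.exists]
      constructor
      · rintro ⟨x, hx, hq⟩
        exact ⟨⟨x, by rwa [mem_closedBall_zero_iff]⟩, q.1, q.2, hq, rfl⟩
      · rintro ⟨⟨x, hx⟩, t, z, hz, rfl⟩
        exact ⟨x, by rwa [mem_closedBall_zero_iff] at hx, hz⟩
    rw [e1]
    have : CompactSpace (closedBall (0 : V d) 1) := isCompact_iff_compactSpace.1 (isCompact_closedBall _ _)
    refine isClosedMap_snd_of_compactSpace _ (isClosed_eq (by fun_prop) ?_)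
    refine continuous_pi fun i => ?_
    exact ((continuous_apply i).comp (hb'c.comp (continuous_subtype_val.comp continuous_fst))).sub
      ((continuous_const.mul (continuous_fst.comp continuous_snd)).mul
        ((continuous_apply i).comp (continuous_subtype_val.comp continuous_fst)))
  have hmeas : Measurable fun τ : ℝ => volume (img b' τ) :=
    measurable_measure_prodMk_left (ν := (volume : Measure (V d))) hclosed.measurableSet
  have hint := integrate hmeas hh0 hsec
  rw [hdh] at hint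
  have hvol := vol_lower (segs_closed hbc).measurableSet (W := fun τ => img b' τ)
    (J := Ioc 0 (1 / 2)) measurableSet_Ioc (L := ℓ) (M := 2) hℓ0 (by norm_num) 0
    (fun τ => (2 * τ) • (WithLp.ofLp v : V d)) (by
      rintro τ hτ z ⟨x, hx, rfl⟩
      refine ⟨g x, hgm x (by linarith), 2 * τ, ⟨by linarith [hτ.1], by linarith [hτ.2]⟩, ?_⟩
      unfold pt2
      congr 1
      refine Prod.ext ?_ (by simp)
      show (WithLp.toLp 2 (ℓ • (fun i => b' x i - 2 * τ * x i) + (2 * τ) • (WithLp.ofLp v : V d)) : Vec d) =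
        b (g x) + (2 * τ) • g x
      ext i
      rw [hb', hg]
      simp only [clamp_eq (by linarith : ‖x‖ ≤ 2), WithLp.ofLp_smul, PiLp.add_apply,
        PiLp.sub_apply, PiLp.smul_apply, smul_eq_mul, Pi.add_apply, Pi.smul_apply]
      field_simp
      ring)
  refine le_trans ?_ hvol
  -- the constants
  set I : ℝ≥0∞ := ∫⁻ τ in Ioc (0 : ℝ) (1 / 2), volume (img b' τ) with hI
  have h9 : ENNReal.ofReal (E⁻¹) * c ≤ I := by
    have hdd : ((d : ℝ≥0∞) + 1) = ENNReal.ofReal ((d : ℝ) + 1) := by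
      rw [ENNReal.ofReal_add hd0.le zero_le_one, ENNReal.ofReal_natCast, ENNReal.ofReal_one]
    rw [hdd] at hint
    have hne : ENNReal.ofReal ((d : ℝ) + 1) ≠ 0 := by
      rw [ne_eq, ENNReal.ofReal_eq_zero, not_le]
      positivity
    refine (ENNReal.mul_le_mul_iff_right hne ENNReal.ofReal_ne_top).1 ?_
    refine le_trans (le_of_eq ?_) hint
    rw [← mul_assoc, ← ENNReal.ofReal_mul (by positivity), hE, inv_div]
    have : ((d : ℝ) + 1) * (h / ((d : ℝ) + 1)) = h := by field_simp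
    rw [this, mul_comm]
  calc ENNReal.ofReal ((C * Q ^ p * E * (2 * (d : ℝ)) ^ d * (A / s) ^ (p + d))⁻¹)
      ≤ ENNReal.ofReal (ℓ ^ d * 2) * (ENNReal.ofReal (E⁻¹) * c) := by
        rw [hc, ← ENNReal.ofReal_mul (by positivity), ← ENNReal.ofReal_mul (by positivity)]
        apply ENNReal.ofReal_le_ofReal
        have hX0 : 0 < A / s := by positivity
        have e1 : A' ^ p = Q ^ p * (A / s) ^ p := Real.mul_rpow hQ0.le hX0.le
        have e2 : (A / s) ^ (p + d) = (A / s) ^ p * (A / s) ^ d := by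
          rw [Real.rpow_add hX0, Real.rpow_natCast]
        have e3 : ℓ ^ d = ((2 * (d : ℝ)) ^ d)⁻¹ * s ^ d := by rw [hℓ, div_pow]; field_simp
        have e4 : (s ^ d)⁻¹ ≤ (A / s) ^ d := by
          rw [div_pow, ← one_div]
          gcongr
          exact one_le_pow₀ hA
        rw [e1, e2, e3]
        have hsd : 0 < s ^ d := by positivity
        calc (C * Q ^ p * E * (2 * (d : ℝ)) ^ d * ((A / s) ^ p * (A / s) ^ d))⁻¹
            ≤ (C * Q ^ p * E * (2 * (d : ℝ)) ^ d * ((A / s) ^ p * (s ^ d)⁻¹))⁻¹ := by gcongr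
          _ = ((2 * (d : ℝ)) ^ d)⁻¹ * s ^ d * 1 * (E⁻¹ * (C * (Q ^ p * (A / s) ^ p))⁻¹) := by
              rw [mul_one]
              simp only [mul_inv, inv_inv]
              ring
          _ ≤ _ := by
              gcongr
              norm_num
    _ ≤ ENNReal.ofReal (ℓ ^ d * 2) * I := by gcongr

end Pool.Agent.J4.H87.Hol
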