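import Pool.Agent.R251.End.Cmp
import Pool.Agent.R134.Kak.Large

set_option autoImplicit false

/-! Families of boxes in hyperplanes: geometry. -/

open MeasureTheory Set Filter Topology ENNReal NNReal Metric

namespace Pool.Agent.J4.H87.Hyp

open Pool.Agent.H810R3.Tub (Space box nor dir norm_dir radial frame frame_coe norm_sq_frame norm_e
  finrank_space box_closed vol_box box_perp norm_space_sq)
open Pool.Agent.R251.End (pc vol_pc)

/-- Euclidean space. -/
abbrev Vec (d : ℕ) : Type := EuclideanSpace ℝ (Fin d)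

variable {d : ℕ}

/-- The directions are separated. -/
theorem dir_sub_ge {v w : Vec d} (hv : ‖v‖ ≤ 2) (hw : ‖w‖ ≤ 2) : ‖v - w‖ ≤ 8 * ‖dir v - dir w‖ := by
  set p : ℝ := √(1 + ‖v‖ ^ 2) with hp
  set p' : ℝ := √(1 + ‖w‖ ^ 2) with hp'
  have hp0 : 0 < p := by positivity
  have hp0' : 0 < p' := by positivity
  have hb : ∀ u : Vec d, ‖u‖ ≤ 2 → √(1 + ‖u‖ ^ 2) ≤ 9 / 4 := by
    intro u hu
    rw [Real.sqrt_le_left (by norm_num)]
    nlinarith [norm_nonneg u]
  have h1 : p ≤ 9 / 4 := hb v hv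
  have h2 : p' ≤ 9 / 4 := hb w hw
  set D : Space d := dir v - dir w with hD
  have hn := norm_space_sq D
  have hf : ‖D.fst‖ ≤ ‖D‖ := by
    apply le_of_sq_le_sq _ (norm_nonneg _)
    nlinarith [sq_nonneg D.snd]
  have hs : |D.snd| ≤ ‖D‖ := by
    apply le_of_sq_le_sq _ (norm_nonneg _)
    rw [sq_abs]
    nlinarith [sq_nonneg ‖D.fst‖]
  have e1 : D.fst = p⁻¹ • v - p'⁻¹ • w := rfl
  have e2 : D.snd = p⁻¹ * 1 - p'⁻¹ * 1 := rfl
  have hwp : ‖w‖ ≤ p' := by
    rw [hp']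
    apply Real.le_sqrt_of_sq_le
    linarith
  have e3 : v - w = p • D.fst - (p * D.snd) • w := by
    rw [e1, e2, smul_sub, smul_smul, smul_smul, mul_inv_cancel₀ hp0.ne', one_smul]
    have : p * (p⁻¹ * 1 - p'⁻¹ * 1) = 1 - p * p'⁻¹ := by
      rw [mul_one, mul_one, mul_sub, mul_inv_cancel₀ hp0.ne']
    rw [this, sub_smul, one_smul]
    abel
  calc ‖v - w‖ = ‖p • D.fst - (p * D.snd) • w‖ := by rw [← e3]
    _ ≤ ‖p • D.fst‖ + ‖(p * D.snd) • w‖ := norm_sub_le _ _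
    _ = p * ‖D.fst‖ + p * |D.snd| * ‖w‖ := by
        rw [norm_smul, norm_smul, Real.norm_eq_abs, Real.norm_eq_abs, abs_mul, abs_of_pos hp0]
    _ ≤ 9 / 4 * ‖D‖ + 9 / 4 * ‖D‖ * (9 / 4) := by
        have h3 : ‖w‖ ≤ 9 / 4 := hwp.trans h2
        gcongr
    _ ≤ 8 * ‖D‖ := by nlinarith [norm_nonneg D]

theorem nor_sub_ge {v w : Vec d} (hv : ‖v‖ ≤ 1) (hw : ‖w‖ ≤ 1) : ‖v - w‖ ≤ 4 * ‖nor v - nor w‖ := by
  have h1 : ∀ u : Vec d, ‖u‖ ≤ 1 → ‖-(2 : ℝ) • u‖ ≤ 2 := by
    intro u hu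
    rw [norm_smul, norm_neg, Real.norm_eq_abs, abs_of_pos (by norm_num : (0:ℝ) < 2)]
    linarith
  have h2 := dir_sub_ge (h1 v hv) (h1 w hw)
  have h3 : -(2 : ℝ) • v - -(2 : ℝ) • w = -(2 : ℝ) • (v - w) := by rw [smul_sub]
  rw [h3, norm_smul, norm_neg, Real.norm_eq_abs, abs_of_pos (by norm_num : (0:ℝ) < 2)] at h2
  unfold nor
  linarith

/-- The part of a point of a piece orthogonal to the axis. -/
theorem pc_perp {ρ : ℝ} (hρ : 0 ≤ ρ) {e : Space d} {f : Fin d → Space d}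
    (h : Orthonormal ℝ (Fin.cons e f : Fin (d + 1) → Space d)) {x y : ℝ} {z : Space d}
    (hz : z ∈ pc (2 * ρ) e f x y) : ‖z - (inner ℝ e z : ℝ) • e‖ ≤ d * ρ := by
  have he := norm_e h
  have hd0 : (0 : ℝ) ≤ d := Nat.cast_nonneg d
  have h1 : ‖z - (inner ℝ e z : ℝ) • e‖ ^ 2 = ∑ j, (inner ℝ (f j) z) ^ 2 := by
    have e1 : ‖z - (inner ℝ e z : ℝ) • e‖ ^ 2 = ‖z‖ ^ 2 - (inner ℝ e z) ^ 2 := by
      rw [@norm_sub_sq_real, norm_smul, inner_smul_right, real_inner_comm e z, he, Real.norm_eq_abs, mul_one,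
        sq_abs]
      ring
    rw [e1, norm_sq_frame h z]
    ring
  have h2 : ∑ j, (inner ℝ (f j) z) ^ 2 ≤ ∑ _j : Fin d, ρ ^ 2 := by
    refine Finset.sum_le_sum fun j _ => ?_
    have := hz.2 j
    rw [← sq_abs]
    refine pow_le_pow_left₀ (abs_nonneg _) (this.trans (le_of_eq ?_)) 2
    ring
  rw [Finset.sum_const, Finset.card_univ, Fintype.card_fin, nsmul_eq_mul] at h2
  apply le_of_sq_le_sq _ (by positivity)
  rw [h1]
  refine h2.trans ?_
  rcases Nat.eq_zero_or_pos d with h0 | h0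
  · subst h0; simp
  · have : (1 : ℝ) ≤ d := by exact_mod_cast h0
    nlinarith [mul_nonneg (mul_nonneg (sub_nonneg.2 this) hd0) (sq_nonneg ρ)]

/-- The pieces of the boxes of two separated caps are disjoint. -/
theorem pc_disj {ρ : ℝ} (hρ : 0 ≤ ρ) {v w : Vec d} (hv : ‖v‖ ≤ 1) (hw : ‖w‖ ≤ 1)
    (hsep : 16 * (d + 1) * ρ ≤ ‖v - w‖) (hvw : 0 < ‖v - w‖) {f g : Fin d → Space d}
    (hf : Orthonormal ℝ (Fin.cons (nor v) f : Fin (d + 1) → Space d))
    (hg : Orthonormal ℝ (Fin.cons (nor w) g : Fin (d + 1) → Space d)) :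
    Disjoint (pc (2 * ρ) (nor v) f 1 2) (pc (2 * ρ) (nor w) g 1 2) := by
  rw [Set.disjoint_left]
  intro z hz hz'
  have h1 := pc_perp hρ hf hz
  have h2 := pc_perp hρ hg hz'
  set s : ℝ := inner ℝ (nor v) z with hs
  set t : ℝ := inner ℝ (nor w) z with ht
  have hs1 : 1 ≤ s := hz.1.1
  have ht1 : 1 ≤ t := hz'.1.1
  have hnv : ‖nor v‖ = 1 := norm_dir _
  have hnw : ‖nor w‖ = 1 := norm_dir _
  have h3 : ‖s • nor v - t • nor w‖ ≤ 2 * (d * ρ) := by
    have : s • nor v - t • nor w = (z - t • nor w) - (z - s • nor v) := by abel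
    rw [this]
    exact (norm_sub_le _ _).trans (by linarith)
  have h4 : ‖s • nor v‖ = s := by rw [norm_smul, hnv, mul_one, Real.norm_eq_abs, abs_of_pos (by linarith)]
  have h5 : ‖t • nor w‖ = t := by rw [norm_smul, hnw, mul_one, Real.norm_eq_abs, abs_of_pos (by linarith)]
  have h6 := radial (x := s • nor v) (y := t • nor w) (by rw [h4]; exact hs1) (by rw [h5]; exact ht1)
  rw [h4, h5, smul_smul, smul_smul, inv_mul_cancel₀ (by linarith), inv_mul_cancel₀ (by linarith),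
    one_smul, one_smul] at h6
  have h7 := nor_sub_ge hv hw
  have hd0 : (0 : ℝ) ≤ d := Nat.cast_nonneg d
  nlinarith [mul_nonneg hd0 hρ]

/-- A slab. -/
def Slab (R : ℝ) (ν : Space d) (c : ℝ) : Set (Space d) := {y | |inner ℝ ν y - c| ≤ R}

theorem Slab_closed (R : ℝ) (ν : Space d) (c : ℝ) : IsClosed (Slab R ν c) :=
  isClosed_le (by fun_prop) continuous_const

/-- The volume of the part of a box in a slab. -/
theorem vol_slab {N : ℝ} (hN : 1 ≤ N) {e ν : Space d} {f : Fin d → Space d} {R c : ℝ} (hR : 0 ≤ R)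
    (hν : ‖ν‖ = 1) (h : Orthonormal ℝ (Fin.cons e f : Fin (d + 1) → Space d)) (a : Space d)
    (hg : 0 < |(inner ℝ ν e : ℝ)|) :
    volume (box N e f a ∩ Slab R ν c) ≤
      ENNReal.ofReal (2 * (R + d * N / 2) / |(inner ℝ ν e : ℝ)| * N ^ d) := by
  have hN0 : 0 < N := by linarith
  have hd0 : (0 : ℝ) ≤ d := Nat.cast_nonneg d
  set g : ℝ := inner ℝ ν e with hgd
  have hg0 : g ≠ 0 := abs_pos.1 hg
  set c' : ℝ := c - inner ℝ ν a with hc'
  set H : ℝ := (R + d * N / 2) / |g| with hH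
  have hH0 : 0 ≤ H := by positivity
  have hsub : box N e f a ∩ Slab R ν c ⊆ (fun y => y + (-a)) ⁻¹' pc N e f (c' / g - H) (c' / g + H) := by
    intro y hy
    obtain ⟨hy1, hy2⟩ := hy
    have hp := box_perp hN h hy1
    set z := y - a with hz
    set s : ℝ := inner ℝ e z with hs
    have h1 : |inner ℝ ν (z - s • e)| ≤ d * N / 2 := by
      have := abs_real_inner_le_norm ν (z - s • e)
      rw [hν, one_mul] at this
      exact this.trans hp
    have h2 : inner ℝ ν (z - s • e) = (inner ℝ ν y - c) + c' - s * g := by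
      rw [inner_sub_right, inner_smul_right, hz, inner_sub_right, hc']
      ring
    have h3 : |s * g - c'| ≤ R + d * N / 2 := by
      have h4 : s * g - c' = (inner ℝ ν y - c) - inner ℝ ν (z - s • e) := by rw [h2]; ring
      rw [h4]
      exact (abs_sub _ _).trans (add_le_add hy2 h1)
    have h5 : |s - c' / g| ≤ H := by
      have h6 : s - c' / g = (s * g - c') / g := by field_simp
      rw [h6, abs_div, hH]
      gcongr
    rw [abs_le] at h5
    show y + (-a) ∈ pc N e f (c' / g - H) (c' / g + H)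
    rw [← sub_eq_add_neg]
    refine ⟨?_, fun j => hy1.2 j⟩
    rw [← hz]
    constructor <;> linarith [h5.1, h5.2]
  refine (measure_mono hsub).trans (le_of_eq ?_)
  rw [measure_preimage_add_right, vol_pc hN0.le (by linarith) h]
  congr 2
  rw [hH]
  ring

end Pool.Agent.J4.H87.Hyp
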