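import Pool.Agent.J4.H87.HypA

set_option autoImplicit false

/-! Families of boxes in hyperplanes: counting caps. -/

open MeasureTheory Set Filter Topology ENNReal NNReal Metric

namespace Pool.Agent.J4.H87.Hyp

open Pool.Agent.H810R3.Tub (Space box nor dir norm_dir radial frame frame_coe norm_sq_frame norm_e
  finrank_space box_closed vol_box box_perp norm_space_sq)
open Pool.Agent.R251.End (pc vol_pc)

variable {d : ℕ}

theorem prod_lt (r : ℕ) (hr : r ≤ d + 1) (a : ℝ) :
    ∏ i : Fin (d + 1), (if (i : ℕ) < r then a else 1) = a ^ r := by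
  rw [Fin.prod_univ_eq_prod_range (fun i => if i < r then a else 1) (d + 1), Finset.prod_ite]
  have : (Finset.range (d + 1)).filter (fun i => i < r) = Finset.range r := by
    ext i
    simp only [Finset.mem_filter, Finset.mem_range]
    omega
  rw [this]
  simp

theorem prod_eq (r : ℕ) (hr : r < d + 1) (a : ℝ) :
    ∏ i : Fin (d + 1), (if (i : ℕ) = r then a else 1) = a := by
  rw [Fin.prod_univ_eq_prod_range (fun i => if i = r then a else 1) (d + 1), Finset.prod_ite_eq']
  simp [hr]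

/-- The volume of a product region in orthonormal coordinates. -/
theorem vol_region (b : OrthonormalBasis (Fin (d + 1)) ℝ (Space d)) (w : Fin (d + 1) → ℝ)
    (hw : ∀ i, 0 ≤ w i) :
    volume {z : Space d | ∀ i, |(inner ℝ (b i) z : ℝ)| ≤ w i} = ENNReal.ofReal (∏ i, (2 * w i)) := by
  have e2 : {z : Space d | ∀ i, |(inner ℝ (b i) z : ℝ)| ≤ w i} = (fun y => WithLp.ofLp (b.repr y)) ⁻¹'
      (Set.univ.pi fun i => Icc (-(w i)) (w i)) := by
    ext z
    rw [mem_preimage, Set.mem_univ_pi]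
    simp only [OrthonormalBasis.repr_apply_apply, mem_Icc, ← abs_le]
    rfl
  have hmp : MeasurePreserving (fun y => WithLp.ofLp (b.repr y)) volume volume :=
    (PiLp.volume_preserving_ofLp (Fin (d + 1))).comp b.measurePreserving_repr
  rw [e2, hmp.measure_preimage (MeasurableSet.univ_pi fun i => measurableSet_Icc).nullMeasurableSet,
    volume_pi_pi]
  simp only [Real.volume_Icc]
  rw [ENNReal.ofReal_prod_of_nonneg (fun i _ => by have := hw i; positivity)]
  refine Finset.prod_congr rfl fun i _ => ?_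
  congr 1
  ring

/-- The constant of the counting lemma. -/
noncomputable def cK (d : ℕ) : ℝ := 6 ^ (d + 1) * (8 * ((d : ℝ) + 1)) ^ d

theorem cK_pos (d : ℕ) : 0 < cK d := by unfold cK; positivity

/-- Counting the caps with normals near a linear subspace. -/
theorem count {ι : Type} (S : Finset ι) {N σ κ ρ : ℝ} (hN : 1 ≤ N) (hσ : 0 < σ) (hσ1 : σ ≤ 1)
    (hκ : 1 ≤ κ) (hρ : 1 / N ≤ ρ) (ω : ι → Vec d) (f : ι → Fin d → Space d)
    (hω : ∀ i ∈ S, ‖ω i‖ ≤ 1) (hsep : ∀ i ∈ S, ∀ j ∈ S, i ≠ j → σ / N ≤ ‖ω i - ω j‖)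
    (hf : ∀ i ∈ S, Orthonormal ℝ (Fin.cons (nor (ω i)) (f i) : Fin (d + 1) → Space d))
    {r : ℕ} (hr : r ≤ d) (E : Fin (r + 1) → Space d) (hE : Orthonormal ℝ E)
    (h1 : ∀ i ∈ S, ∀ l : Fin r, |(inner ℝ (E l.castSucc) (nor (ω i)) : ℝ)| ≤ κ / N)
    (h2 : ∀ i ∈ S, |(inner ℝ (E (Fin.last r)) (nor (ω i)) : ℝ)| ≤ ρ) :
    (S.card : ℝ) ≤ cK d * (σ ^ d)⁻¹ * κ ^ r * (N ^ d / N ^ r) * ρ := by
  have hN0 : 0 < N := by linarith
  have hd0 : (0 : ℝ) ≤ d := Nat.cast_nonneg d
  have hρ0 : 0 < ρ := lt_of_lt_of_le (by positivity) hρ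
  set δ : ℝ := σ / (16 * (d + 1) * N) with hδ
  have hδ0 : 0 < δ := by positivity
  have hdδ : d * δ ≤ 1 / N := by
    rw [hδ, le_div_iff₀ hN0]
    have e : d * (σ / (16 * (d + 1) * N)) * N = (d / (d + 1)) * (σ / 16) := by field_simp
    rw [e]
    have h3 : (d : ℝ) / (d + 1) ≤ 1 := by rw [div_le_one (by positivity)]; linarith
    calc (d : ℝ) / (d + 1) * (σ / 16) ≤ 1 * (1 / 16) := by gcongr
      _ ≤ 1 := by norm_num
  have hN1 : 1 / N ≤ 1 := by rw [div_le_one hN0]; exact hN
  -- the orthonormal basis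
  set v : Fin (d + 1) → Space d := fun i => if h : (i : ℕ) < r + 1 then E ⟨i, h⟩ else 0 with hv
  obtain ⟨b, hb⟩ := Orthonormal.exists_orthonormalBasis_extension_of_card_eq (𝕜 := ℝ) (ι := Fin (d + 1))
    (by rw [finrank_space, Fintype.card_fin]) (v := v) (s := {i | (i : ℕ) < r + 1}) (by
      have e : (Set.domRestrict {i : Fin (d + 1) | (i : ℕ) < r + 1} v) =
          E ∘ (fun i : ({i : Fin (d + 1) | (i : ℕ) < r + 1} : Set (Fin (d + 1))) => (⟨(i.1 : ℕ), i.2⟩ : Fin (r + 1))) := by
        funext i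
        show (if h : ((i : Fin (d + 1)) : ℕ) < r + 1 then E ⟨(i : Fin (d + 1)), h⟩ else 0) = E ⟨(i.1 : ℕ), i.2⟩
        exact dif_pos i.2
      rw [e]
      apply hE.comp
      intro i j hij
      simp only [Fin.mk.injEq] at hij
      exact Subtype.ext (Fin.ext hij))
  have hbv : ∀ (l : Fin (r + 1)) (h : (l : ℕ) < d + 1), b ⟨l, h⟩ = E l := by
    intro l h
    rw [hb ⟨l, h⟩ l.2]
    exact dif_pos l.2
  set w : Fin (d + 1) → ℝ := fun i => 3 * ((if (i : ℕ) < r then κ / N else 1) * (if (i : ℕ) = r then ρ else 1)) with hw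
  have hw0 : ∀ i, 0 ≤ w i := by
    intro i
    rw [hw]
    simp only
    split_ifs <;> positivity
  -- the pieces are in the region
  have hin : ∀ i ∈ S, pc (2 * δ) (nor (ω i)) (f i) 1 2 ⊆ {z : Space d | ∀ i, |(inner ℝ (b i) z : ℝ)| ≤ w i} := by
    intro i hi z hz m
    have hp := (pc_perp hδ0.le (hf i hi) hz).trans hdδ
    set s : ℝ := inner ℝ (nor (ω i)) z with hs
    have hs1 : 1 ≤ s := hz.1.1
    have hs2 : s ≤ 2 := hz.1.2
    have hnv : ‖nor (ω i)‖ = 1 := norm_dir _
    have key : ∀ u : Space d, ‖u‖ = 1 → |(inner ℝ u z : ℝ)| ≤ 2 * |(inner ℝ u (nor (ω i)) : ℝ)| + 1 / N := by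
      intro u hu
      have e1 : (inner ℝ u z : ℝ) = s * inner ℝ u (nor (ω i)) + inner ℝ u (z - s • nor (ω i)) := by
        rw [inner_sub_right, inner_smul_right]
        ring
      have h3 : |(inner ℝ u (z - s • nor (ω i)) : ℝ)| ≤ 1 / N := by
        have := abs_real_inner_le_norm u (z - s • nor (ω i))
        rw [hu, one_mul] at this
        exact this.trans hp
      rw [e1]
      refine (abs_add_le _ _).trans (add_le_add ?_ h3)
      rw [abs_mul, abs_of_pos (by linarith : 0 < s)]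
      exact mul_le_mul_of_nonneg_right hs2 (abs_nonneg _)
    have hbm : ‖b m‖ = 1 := b.orthonormal.1 m
    have hk := key (b m) hbm
    rw [hw]
    simp only
    rcases lt_trichotomy (m : ℕ) r with hm | hm | hm
    · rw [if_pos hm, if_neg (by omega), mul_one]
      have e2 : b m = E (Fin.castSucc ⟨m, hm⟩) := hbv (Fin.castSucc ⟨m, hm⟩) m.2
      rw [e2] at hk ⊢
      have h3 := h1 i hi ⟨m, hm⟩
      have h4 : 1 / N ≤ κ / N := by gcongr
      linarith
    · rw [if_neg (by omega), if_pos hm, one_mul]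
      have e2 : b m = E (Fin.last r) := by
        have := hbv (Fin.last r) (by rw [Fin.val_last]; omega)
        rw [← this]
        congr 1
        exact Fin.ext (by simpa using hm)
      rw [e2] at hk ⊢
      have h3 := h2 i hi
      linarith
    · rw [if_neg (by omega), if_neg (by omega), mul_one, mul_one]
      have h3 := abs_real_inner_le_norm (b m) (nor (ω i))
      rw [hbm, hnv, mul_one] at h3
      linarith
  have hmeas : ∀ i, MeasurableSet (pc (2 * δ) (nor (ω i)) (f i) 1 2) := by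
    intro i
    have h1 : IsClosed {z : Space d | inner ℝ (nor (ω i)) z ∈ Icc (1 : ℝ) 2} :=
      isClosed_Icc.preimage (by fun_prop)
    have h2 : IsClosed {z : Space d | ∀ j, |inner ℝ (f i j) z| ≤ 2 * δ / 2} := by
      have : {z : Space d | ∀ j, |inner ℝ (f i j) z| ≤ 2 * δ / 2} = ⋂ j, {z | |inner ℝ (f i j) z| ≤ 2 * δ / 2} := by
        ext y; simp
      rw [this]
      exact isClosed_iInter fun j => isClosed_le (by fun_prop) continuous_const
    exact (h1.inter h2).measurableSet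
  have hvol : (S.card : ℝ≥0∞) * ENNReal.ofReal ((2 * δ) ^ d) ≤ ENNReal.ofReal (∏ i, (2 * w i)) := by
    rw [← vol_region b w hw0]
    calc (S.card : ℝ≥0∞) * ENNReal.ofReal ((2 * δ) ^ d)
        = ∑ i ∈ S, volume (pc (2 * δ) (nor (ω i)) (f i) 1 2) := by
          rw [Finset.sum_congr rfl (fun i hi => vol_pc (by positivity) (by norm_num) (hf i hi)),
            Finset.sum_const, nsmul_eq_mul]
          norm_num
      _ = volume (⋃ i ∈ S, pc (2 * δ) (nor (ω i)) (f i) 1 2) := by
          rw [measure_biUnion_finset _ (fun i _ => hmeas i)]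
          intro i hi j hj hij
          have h3 := hsep i hi j hj hij
          refine pc_disj hδ0.le (hω i hi) (hω j hj) ?_ (lt_of_lt_of_le (by positivity) h3) (hf i hi) (hf j hj)
          refine le_trans (le_of_eq ?_) h3
          rw [hδ]
          field_simp
      _ ≤ _ := measure_mono (iUnion₂_subset hin)
  have hprod : ∏ i, (2 * w i) = 6 ^ (d + 1) * (κ / N) ^ r * ρ := by
    have e1 : ∀ i, 2 * w i = 6 * ((if (i : ℕ) < r then κ / N else 1) * (if (i : ℕ) = r then ρ else 1)) := by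
      intro i
      rw [hw]
      ring
    rw [Finset.prod_congr rfl (fun i _ => e1 i), Finset.prod_mul_distrib, Finset.prod_mul_distrib,
      prod_lt r (by omega), prod_eq r (by omega), Finset.prod_const, Finset.card_univ, Fintype.card_fin]
    ring
  rw [hprod, ← ENNReal.ofReal_natCast, ← ENNReal.ofReal_mul (Nat.cast_nonneg _),
    ENNReal.ofReal_le_ofReal_iff (by positivity)] at hvol
  have hδd : 0 < (2 * δ) ^ d := by positivity
  calc (S.card : ℝ) = S.card * (2 * δ) ^ d / (2 * δ) ^ d := by field_simp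
    _ ≤ 6 ^ (d + 1) * (κ / N) ^ r * ρ / (2 * δ) ^ d := by gcongr
    _ = cK d * (σ ^ d)⁻¹ * κ ^ r * (N ^ d / N ^ r) * ρ := by
        have e1 : (2 * δ) = σ / (8 * (d + 1) * N) := by rw [hδ]; field_simp; ring
        rw [e1, cK, div_pow, div_pow, mul_pow (8 * ((d : ℝ) + 1)) N d]
        field_simp

end Pool.Agent.J4.H87.Hyp
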