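import Mathlib
set_option autoImplicit false

/-! Rays: a mollifier with its Fourier transform. -/

namespace Pool.Agent.J4.H87.Ray

open MeasureTheory Complex Set
open scoped ENNReal ComplexConjugate FourierTransform SchwartzMap ContDiff

/-- a mollifier and its Fourier transform -/
structure Moll where
  φ : ℝ → ℝ
  ψ : ℝ → ℂ
  C : ℝ
  hC : 0 < C
  hφc : Continuous φ
  hφ0 : ∀ x, 0 ≤ φ x
  hφs : ∀ x, 1 < |x| → φ x = 0
  hφi : Integrable φ
  hφ1 : ∫ x, φ x = 1
  hψc : Continuous ψ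
  hψi : Integrable ψ
  hψ : ∀ ξ, ‖ψ ξ‖ ≤ C * ((1 + |ξ|) ^ 8)⁻¹
  hinv : ∀ x, (φ x : ℂ) = ∫ ξ, ψ ξ * cexp (((2 * Real.pi * (ξ * x) : ℝ) : ℂ) * I)

theorem exists_moll : Nonempty Moll := by
  let b : ContDiffBump (0 : ℝ) := ⟨1 / 2, 1, by norm_num, by norm_num⟩
  have hb1 : b.rOut = 1 := rfl
  let g : ℝ → ℝ := b.normed volume
  have hgs : ∀ x, 1 < |x| → g x = 0 := by
    intro x hx
    by_contra hne
    have h1 : x ∈ Function.support g := hne
    have h2 : Function.support g = Metric.ball 0 b.rOut := b.support_normed_eq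
    rw [h2, hb1, Metric.mem_ball, dist_zero_right, Real.norm_eq_abs] at h1
    linarith
  have hgc : ContDiff ℝ ∞ g := b.contDiff_normed
  have hcs : HasCompactSupport g := b.hasCompactSupport_normed
  have hGs : HasCompactSupport (fun x => (g x : ℂ)) := by
    refine HasCompactSupport.comp_left (g := fun x : ℝ => (x : ℂ)) hcs (by simp)
  have hGc : ContDiff ℝ ∞ (fun x => (g x : ℂ)) := Complex.ofRealCLM.contDiff.comp hgc
  let F : 𝓢(ℝ, ℂ) := hGs.toSchwartzMap hGc
  have hF : ∀ x, F x = (g x : ℂ) := fun x => rfl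
  let P : 𝓢(ℝ, ℂ) := 𝓕 F
  have hP : ∀ k : ℕ, ∃ C : ℝ, 0 < C ∧ ∀ ξ : ℝ, (1 + |ξ|) ^ k * ‖P ξ‖ ≤ C := by
    intro k
    have h := P.one_add_le_sup_seminorm_apply (𝕜 := ℂ) (m := (k, 0)) (k := k) (n := 0) le_rfl le_rfl
    refine ⟨2 ^ k * (Finset.Iic (k, 0)).sup (fun m => SchwartzMap.seminorm ℂ m.1 m.2) P + 1,
      ?_, fun ξ => ?_⟩
    · have h0 := h 0
      have : 0 ≤ (1 + ‖(0 : ℝ)‖) ^ k * ‖iteratedFDeriv ℝ 0 P 0‖ := by positivity
      have h2 := this.trans h0
      simp only at h2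
      linarith
    · have h0 := h ξ
      rw [norm_iteratedFDeriv_zero, Real.norm_eq_abs] at h0
      simp only at h0
      linarith
  obtain ⟨C, hC, hCb⟩ := hP 8
  have hinv : ∀ x, (g x : ℂ) = ∫ ξ, P ξ * cexp (((2 * Real.pi * (ξ * x) : ℝ) : ℂ) * I) := by
    intro x
    have h1 : (𝓕⁻ P : 𝓢(ℝ, ℂ)) = F := FourierTransform.fourierInv_fourier_eq F
    have h2 : (𝓕⁻ P : 𝓢(ℝ, ℂ)) x = F x := by rw [h1]
    rw [← hF x, ← h2, SchwartzMap.fourierInv_coe, Real.fourierInv_eq']
    refine integral_congr_ae (Filter.Eventually.of_forall fun ξ => ?_)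
    simp only [smul_eq_mul]
    rw [mul_comm]
    congr 2
    simp only [RCLike.inner_apply, conj_trivial]
    push_cast
    ring
  exact ⟨{ φ := g, ψ := P, C := C, hC := hC, hφc := hgc.continuous, hφ0 := b.nonneg_normed,
           hφs := hgs, hφi := hgc.continuous.integrable_of_hasCompactSupport hcs,
           hφ1 := b.integral_normed, hψc := P.continuous, hψi := P.integrable,
           hψ := fun ξ => by
            rw [← div_eq_mul_inv, le_div_iff₀ (by positivity), mul_comm]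
            exact hCb ξ
           hinv := hinv }⟩

end Pool.Agent.J4.H87.Ray
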