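import Mathlib
import Pool.Agent.J4.H87.RayH
set_option autoImplicit false

/-! Rays: functions of bounded variation of one variable, their mollification and transform. -/

namespace Pool.Agent.J4.H87.Ray

open MeasureTheory Complex Set Filter Topology
open scoped ENNReal ComplexConjugate

/-- the unimodular exponential -/
noncomputable def ex (s : ℝ) : ℂ := cexp ((s : ℂ) * I)

theorem ex_norm (s : ℝ) : ‖ex s‖ = 1 := Complex.norm_exp_ofReal_mul_I s

theorem ex_enorm (s : ℝ) : ‖ex s‖ₑ = 1 := by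
  rw [← ofReal_norm, ex_norm, ENNReal.ofReal_one]

theorem ex_cont : Continuous ex := by unfold ex; fun_prop

theorem ex_meas : Measurable ex := ex_cont.measurable

theorem ex_add (s t : ℝ) : ex (s + t) = ex s * ex t := by
  unfold ex
  rw [← Complex.exp_add]
  congr 1
  push_cast
  ring

theorem ex_conj (s : ℝ) : conj (ex s) = ex (-s) := by
  unfold ex
  rw [← Complex.exp_conj]
  congr 1
  simp only [map_mul, conj_ofReal, conj_I]
  push_cast
  ring

theorem ex_zero : ex 0 = 1 := by unfold ex; simp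

theorem ex_neg_pi : ex (-Real.pi) = -1 := by
  unfold ex
  rw [Complex.ofReal_neg, neg_mul, Complex.exp_neg, Complex.exp_pi_mul_I]
  norm_num

/-- functions of bounded variation on `[1/2, 1]` -/
structure BVf (f : ℝ → ℂ) : Prop where
  m : Measurable f
  s : ∀ r, r ∉ Icc (1 / 2 : ℝ) 1 → f r = 0
  b : ∀ r, ‖f r‖ ≤ 1
  v : ∀ τ, ∫⁻ r, ‖f (r + τ) - f r‖ₑ ≤ ENNReal.ofReal |τ|

theorem BVf.le_ind {f : ℝ → ℂ} (hf : BVf f) (r : ℝ) :
    ‖f r‖ ≤ (Icc (1 / 2 : ℝ) 1).indicator (fun _ => (1 : ℝ)) r := by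
  by_cases h : r ∈ Icc (1 / 2 : ℝ) 1
  · rw [indicator_of_mem h]; exact hf.b r
  · rw [indicator_of_notMem h, hf.s r h, norm_zero]

theorem BVf.int {f : ℝ → ℂ} (hf : BVf f) : Integrable f := by
  have h1 : Integrable ((Icc (1 / 2 : ℝ) 1).indicator fun _ => (1 : ℝ)) := by
    rw [integrable_indicator_iff measurableSet_Icc]
    exact integrableOn_const measure_Icc_lt_top.ne
  exact h1.mono' hf.m.aestronglyMeasurable (Filter.Eventually.of_forall hf.le_ind)

theorem BVf.int_le {f : ℝ → ℂ} (hf : BVf f) : ∫⁻ r, ‖f r‖ₑ ≤ ENNReal.ofReal (1 / 2) := by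
  calc ∫⁻ r, ‖f r‖ₑ ≤ ∫⁻ r, (Icc (1 / 2 : ℝ) 1).indicator (fun _ => (1 : ℝ≥0∞)) r := by
        refine lintegral_mono fun r => ?_
        by_cases h : r ∈ Icc (1 / 2 : ℝ) 1
        · rw [indicator_of_mem h, ← ofReal_norm, ← ENNReal.ofReal_one]
          exact ENNReal.ofReal_le_ofReal (hf.b r)
        · rw [hf.s r h]; simp
    _ = ENNReal.ofReal (1 / 2) := by
        rw [lintegral_indicator measurableSet_Icc, setLIntegral_const, one_mul, Real.volume_Icc]
        norm_num

/-- the Fourier transform -/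
noncomputable def hat (f : ℝ → ℂ) (η : ℝ) : ℂ := ∫ ρ, f ρ * ex (-(2 * Real.pi * (η * ρ)))

theorem hat_le_half {f : ℝ → ℂ} (hf : BVf f) (η : ℝ) : ‖hat f η‖ₑ ≤ ENNReal.ofReal (1 / 2) := by
  unfold hat
  refine (enorm_integral_le_lintegral_enorm _).trans ?_
  simp_rw [enorm_mul, ex_enorm, mul_one]
  exact hf.int_le

theorem hat_shift {f : ℝ → ℂ} (hf : BVf f) {η : ℝ} (hη : η ≠ 0) :
    ‖(2 : ℂ) * hat f η‖ₑ ≤ ENNReal.ofReal |1 / (2 * η)| := by
  have hm : ∀ g : ℝ → ℂ, Integrable g → Integrable fun ρ => g ρ * ex (-(2 * Real.pi * (η * ρ))) := by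
    intro g hg
    exact hg.mul_bdd (c := 1) (by
      have : Continuous fun ρ : ℝ => ex (-(2 * Real.pi * (η * ρ))) := ex_cont.comp (by fun_prop)
      exact this.aestronglyMeasurable) (Filter.Eventually.of_forall fun ρ => (ex_norm _).le)
  have h1 : hat f η = -∫ ρ, f (ρ + 1 / (2 * η)) * ex (-(2 * Real.pi * (η * ρ))) := by
    unfold hat
    rw [← integral_neg, ← integral_add_right_eq_self (μ := (volume : Measure ℝ))
      (fun ρ => f ρ * ex (-(2 * Real.pi * (η * ρ)))) (1 / (2 * η))]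
    refine integral_congr_ae (Filter.Eventually.of_forall fun ρ => ?_)
    simp only
    have : -(2 * Real.pi * (η * (ρ + 1 / (2 * η)))) = -(2 * Real.pi * (η * ρ)) + -Real.pi := by
      field_simp
      ring
    rw [this, ex_add, ex_neg_pi]
    ring
  have h2 : (2 : ℂ) * hat f η = ∫ ρ, (f ρ - f (ρ + 1 / (2 * η))) * ex (-(2 * Real.pi * (η * ρ))) := by
    rw [two_mul]
    nth_rewrite 2 [h1]
    unfold hat
    rw [← sub_eq_add_neg, ← integral_sub (hm f hf.int) (hm _ (hf.int.comp_add_right _))]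
    refine integral_congr_ae (Filter.Eventually.of_forall fun ρ => ?_)
    simp only
    ring
  rw [h2]
  refine (enorm_integral_le_lintegral_enorm _).trans ?_
  simp_rw [enorm_mul, ex_enorm, mul_one]
  have h3 := hf.v (1 / (2 * η))
  refine le_trans (le_of_eq ?_) h3
  refine lintegral_congr fun ρ => ?_
  rw [← enorm_neg, neg_sub]

theorem hat_le {f : ℝ → ℂ} (hf : BVf f) (η : ℝ) : ‖hat f η‖ ≤ (1 + |η|)⁻¹ := by
  have h1 := hat_le_half hf η
  rw [← ofReal_norm, ENNReal.ofReal_le_ofReal_iff (by norm_num)] at h1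
  rcases le_or_gt |η| 1 with h | h
  · refine h1.trans ?_
    rw [one_div]
    exact inv_anti₀ (by positivity) (by linarith)
  · have hη : η ≠ 0 := by
      rintro rfl
      simp at h
      linarith
    have h2 := hat_shift hf hη
    rw [← ofReal_norm, ENNReal.ofReal_le_ofReal_iff (abs_nonneg _), norm_mul] at h2
    have h3 : |1 / (2 * η)| = 1 / (2 * |η|) := by
      rw [abs_div, abs_one, abs_mul, abs_two]
    rw [h3, Complex.norm_ofNat] at h2
    have hpos : 0 < |η| := by linarith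
    have h4 : ‖hat f η‖ ≤ 1 / (4 * |η|) := by
      have : 1 / (2 * |η|) = 2 * (1 / (4 * |η|)) := by field_simp; norm_num
      linarith
    refine h4.trans ?_
    rw [one_div]
    exact inv_anti₀ (by positivity) (by linarith)

/-- the mollification -/
noncomputable def mol (M : Moll) (δ : ℝ) (f : ℝ → ℂ) (r : ℝ) : ℂ := ∫ x, (M.φ x : ℂ) * f (r - δ * x)

theorem phi_lint (M : Moll) : ∫⁻ x, ENNReal.ofReal (M.φ x) = 1 := by
  rw [← ofReal_integral_eq_lintegral_ofReal M.hφi (Filter.Eventually.of_forall M.hφ0), M.hφ1,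
    ENNReal.ofReal_one]

theorem mol_b (M : Moll) (δ : ℝ) {f : ℝ → ℂ} (hf : BVf f) (r : ℝ) : ‖mol M δ f r‖ ≤ 1 := by
  unfold mol
  refine (norm_integral_le_integral_norm _).trans ?_
  rw [← M.hφ1]
  refine integral_mono_of_nonneg (Filter.Eventually.of_forall fun x => norm_nonneg _) M.hφi
    (Filter.Eventually.of_forall fun x => ?_)
  simp only
  rw [norm_mul, Complex.norm_real, Real.norm_of_nonneg (M.hφ0 x)]
  exact mul_le_of_le_one_right (M.hφ0 x) (hf.b _)

theorem mol_s (M : Moll) {δ : ℝ} (h0 : 0 < δ) (h1 : δ ≤ 1 / 4) {f : ℝ → ℂ} (hf : BVf f) {r : ℝ}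
    (hr : r ∉ Icc (1 / 4 : ℝ) (5 / 4)) : mol M δ f r = 0 := by
  unfold mol
  rw [← integral_zero ℝ ℂ (μ := volume)]
  refine integral_congr_ae (Filter.Eventually.of_forall fun x => ?_)
  simp only
  rcases lt_or_ge 1 |x| with hx | hx
  · rw [M.hφs x hx]; simp
  · rw [hf.s, mul_zero]
    intro h
    apply hr
    have h2 : |δ * x| ≤ 1 / 4 := by
      rw [abs_mul, abs_of_pos h0]
      calc δ * |x| ≤ 1 / 4 * 1 := mul_le_mul h1 hx (abs_nonneg _) (by norm_num)
        _ = 1 / 4 := by norm_num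
    have h3 := abs_le.1 h2
    constructor <;> linarith [h.1, h.2, h3.1, h3.2]

theorem mol_err (M : Moll) {δ : ℝ} (h0 : 0 < δ) {f : ℝ → ℂ} (hf : BVf f) :
    ∫⁻ r, ‖f r - mol M δ f r‖ₑ ≤ ENNReal.ofReal δ := by
  have hmp : Measurable fun p : ℝ × ℝ => ‖f (p.1 + -(δ * p.2)) - f p.1‖ₑ := by
    have g1 : Measurable fun p : ℝ × ℝ => p.1 + -(δ * p.2) := by fun_prop
    exact ((hf.m.comp g1).sub (hf.m.comp measurable_fst)).enorm
  have hφm : Measurable fun x => ENNReal.ofReal (M.φ x) := M.hφc.measurable.ennreal_ofReal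
  have hpt : ∀ r, ‖f r - mol M δ f r‖ₑ ≤
      ∫⁻ x, ENNReal.ofReal (M.φ x) * ‖f (r + -(δ * x)) - f r‖ₑ := by
    intro r
    have e1 : f r = ∫ x, (M.φ x : ℂ) * f r := by
      rw [integral_mul_const, integral_complex_ofReal, M.hφ1]
      simp
    have i1 : Integrable fun x => (M.φ x : ℂ) * f r := M.hφi.ofReal.mul_const _
    have i2 : Integrable fun x => (M.φ x : ℂ) * f (r - δ * x) := by
      refine M.hφi.ofReal.mul_bdd (c := 1) ?_ (Filter.Eventually.of_forall fun x => hf.b _)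
      have g1 : Measurable fun x : ℝ => r - δ * x := by fun_prop
      exact (hf.m.comp g1).aestronglyMeasurable
    have e2 : f r - mol M δ f r = ∫ x, (M.φ x : ℂ) * (f r - f (r + -(δ * x))) := by
      unfold mol
      nth_rewrite 1 [e1]
      rw [← integral_sub i1 i2]
      refine integral_congr_ae (Filter.Eventually.of_forall fun x => ?_)
      simp only
      rw [← sub_eq_add_neg]
      ring
    rw [e2]
    refine (enorm_integral_le_lintegral_enorm _).trans (lintegral_mono fun x => ?_)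
    rw [enorm_mul, ← ofReal_norm (M.φ x : ℂ), Complex.norm_real, Real.norm_of_nonneg (M.hφ0 x),
      ← enorm_neg (f r - _), neg_sub]
  calc ∫⁻ r, ‖f r - mol M δ f r‖ₑ
      ≤ ∫⁻ r, ∫⁻ x, ENNReal.ofReal (M.φ x) * ‖f (r + -(δ * x)) - f r‖ₑ := lintegral_mono hpt
    _ = ∫⁻ x, ∫⁻ r, ENNReal.ofReal (M.φ x) * ‖f (r + -(δ * x)) - f r‖ₑ := by
        refine lintegral_lintegral_swap ?_
        exact ((hφm.comp measurable_snd).mul hmp).aemeasurable
    _ ≤ ∫⁻ x, ENNReal.ofReal (M.φ x) * ENNReal.ofReal δ := by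
        refine lintegral_mono fun x => ?_
        have g2 : Measurable fun r : ℝ => ‖f (r + -(δ * x)) - f r‖ₑ := by
          have g1 : Measurable fun r : ℝ => r + -(δ * x) := by fun_prop
          exact ((hf.m.comp g1).sub hf.m).enorm
        simp only
        rw [lintegral_const_mul _ g2]
        rcases lt_or_ge 1 |x| with hx | hx
        · rw [M.hφs x hx]; simp
        · refine mul_le_mul_right ((hf.v _).trans (ENNReal.ofReal_le_ofReal ?_)) _
          rw [abs_neg, abs_mul, abs_of_pos h0]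
          nlinarith
    _ = ENNReal.ofReal δ := by
        rw [lintegral_mul_const _ hφm, phi_lint, one_mul]

/-- the coefficient -/
noncomputable def cf (M : Moll) (δ : ℝ) (f : ℝ → ℂ) (η : ℝ) : ℂ := M.ψ (δ * η) * hat f η

theorem mol_inv (M : Moll) {δ : ℝ} (h0 : 0 < δ) {f : ℝ → ℂ} (hf : BVf f) (r : ℝ) :
    mol M δ f r = ∫ η, cf M δ f η * ex (2 * Real.pi * (η * r)) := by
  have e1 : mol M δ f r = ∫ x, ∫ ξ, f (r - δ * x) * (M.ψ ξ * ex (2 * Real.pi * (ξ * x))) := by
    unfold mol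
    refine integral_congr_ae (Filter.Eventually.of_forall fun x => ?_)
    simp only
    rw [integral_const_mul, M.hinv x, mul_comm]
    rfl
  have g1 : Measurable fun x : ℝ => r - δ * x := by fun_prop
  have hfi : Integrable fun x : ℝ => f (r - δ * x) := by
    have h2 : Integrable fun x : ℝ => f (r - x) := hf.int.comp_sub_left r
    exact h2.comp_mul_left' h0.ne'
  have hprod : Integrable (Function.uncurry fun (x ξ : ℝ) =>
      f (r - δ * x) * (M.ψ ξ * ex (2 * Real.pi * (ξ * x)))) (volume.prod volume) := by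
    have h1 : Integrable (fun p : ℝ × ℝ => f (r - δ * p.1) * M.ψ p.2) (volume.prod volume) :=
      hfi.mul_prod M.hψi
    have h2 := h1.mul_bdd (c := 1) (g := fun p : ℝ × ℝ => ex (2 * Real.pi * (p.2 * p.1))) (by
      have : Continuous fun p : ℝ × ℝ => ex (2 * Real.pi * (p.2 * p.1)) :=
        ex_cont.comp (by fun_prop)
      exact this.aestronglyMeasurable) (Filter.Eventually.of_forall fun p => (ex_norm _).le)
    refine h2.congr (Filter.Eventually.of_forall fun p => ?_)
    simp only [Function.uncurry]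
    ring
  rw [e1, integral_integral_swap hprod]
  have e2 : ∀ ξ, ∫ x, f (r - δ * x) * (M.ψ ξ * ex (2 * Real.pi * (ξ * x))) =
      (δ⁻¹ : ℝ) • (M.ψ ξ * hat f (δ⁻¹ * ξ) * ex (2 * Real.pi * (δ⁻¹ * ξ * r))) := by
    intro ξ
    set G : ℝ → ℂ := fun ρ => f ρ * (M.ψ ξ * ex (2 * Real.pi * (ξ * ((r - ρ) / δ)))) with hG
    have a1 : ∀ x, f (r - δ * x) * (M.ψ ξ * ex (2 * Real.pi * (ξ * x))) = (fun y => G (r - y)) (δ * x) := by
      intro x
      simp only [hG]
      have : (r - (r - δ * x)) / δ = x := by field_simp; ring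
      rw [this]
    simp_rw [a1]
    rw [Measure.integral_comp_mul_left (fun y => G (r - y)) δ, abs_of_pos (by positivity),
      integral_sub_left_eq_self]
    congr 1
    simp only [hG]
    have a2 : ∀ ρ, f ρ * (M.ψ ξ * ex (2 * Real.pi * (ξ * ((r - ρ) / δ)))) =
        (f ρ * ex (-(2 * Real.pi * (δ⁻¹ * ξ * ρ)))) * (M.ψ ξ * ex (2 * Real.pi * (δ⁻¹ * ξ * r))) := by
      intro ρ
      have : 2 * Real.pi * (ξ * ((r - ρ) / δ)) =
          -(2 * Real.pi * (δ⁻¹ * ξ * ρ)) + 2 * Real.pi * (δ⁻¹ * ξ * r) := by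
        field_simp
        ring
      rw [this, ex_add]
      ring
    simp_rw [a2]
    rw [integral_mul_const]
    unfold hat
    ring
  simp_rw [e2]
  rw [integral_smul]
  set K : ℝ → ℂ := fun η => cf M δ f η * ex (2 * Real.pi * (η * r)) with hK
  have e3 : ∀ ξ, M.ψ ξ * hat f (δ⁻¹ * ξ) * ex (2 * Real.pi * (δ⁻¹ * ξ * r)) = K (δ⁻¹ * ξ) := by
    intro ξ
    simp only [hK]
    unfold cf
    rw [mul_inv_cancel_left₀ h0.ne']
  simp_rw [e3]
  rw [Measure.integral_comp_mul_left K δ⁻¹, inv_inv, abs_of_pos h0, smul_smul,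
    inv_mul_cancel₀ h0.ne', one_smul]

end Pool.Agent.J4.H87.Ray
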