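import Mathlib
import Pool.Agent.J4.H87.RayI
set_option autoImplicit false

/-! Rays: the Fresnel representation. -/

namespace Pool.Agent.J4.H87.Ray

open MeasureTheory Complex Set Filter Topology
open scoped ENNReal ComplexConjugate

/-- the Fresnel constant -/
noncomputable def Fr (t : ℝ) : ℂ := ((Real.pi : ℂ) / (I * t)) ^ (1 / 2 : ℂ)

theorem Fr_norm (t : ℝ) (ht : 0 < t) : ‖Fr t‖ ^ 2 = Real.pi / t := by
  unfold Fr
  have h1 : ‖((Real.pi : ℂ) / (I * t)) ^ (1 / 2 : ℂ)‖ = ‖(Real.pi : ℂ) / (I * t)‖ ^ (1 / 2 : ℝ) := by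
    have hne : (Real.pi : ℂ) / (I * t) ≠ 0 := by
      have : (t : ℂ) ≠ 0 := by exact_mod_cast ht.ne'
      have hpi : (Real.pi : ℂ) ≠ 0 := by exact_mod_cast Real.pi_ne_zero
      exact div_ne_zero hpi (mul_ne_zero I_ne_zero this)
    rw [Complex.norm_cpow_of_ne_zero hne]
    have h2 : (1 / 2 : ℂ).re = 1 / 2 := by norm_num
    have h3 : (1 / 2 : ℂ).im = 0 := by norm_num
    rw [h2, h3, mul_zero, Real.exp_zero, div_one]
  rw [h1, ← Real.rpow_natCast, ← Real.rpow_mul (norm_nonneg _)]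
  norm_num
  rw [abs_of_pos Real.pi_pos, abs_of_pos ht]

theorem quad_arg (ε t w : ℝ) (hε : 0 < ε) :
    ‖cexp (-((w : ℂ) ^ 2) / (4 * ((ε : ℂ) + I * t)))‖ ≤ 1 := by
  rw [Complex.norm_exp, Real.exp_le_one_iff]
  have h1 : (-((w : ℂ) ^ 2) / (4 * ((ε : ℂ) + I * t))) =
      ((-(w ^ 2) / (4 * (ε ^ 2 + t ^ 2)) : ℝ) : ℂ) * (ε - I * t) := by
    have hne : ((ε : ℂ) + I * t) ≠ 0 := by
      intro h
      have := congrArg Complex.re h
      simp at this
      linarith
    have hne2 : ((ε : ℂ) ^ 2 + (t : ℂ) ^ 2) ≠ 0 := by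
      have : (0 : ℝ) < ε ^ 2 + t ^ 2 := by positivity
      exact_mod_cast this.ne'
    have h2 : ((ε : ℂ) + I * t) * (ε - I * t) = (ε : ℂ) ^ 2 + (t : ℂ) ^ 2 := by
      ring_nf
      rw [I_sq]
      ring
    push_cast
    rw [div_mul_eq_mul_div, div_eq_div_iff (mul_ne_zero (by norm_num) hne)
      (mul_ne_zero (by norm_num) hne2), ← h2]
    ring
  rw [h1, Complex.re_ofReal_mul]
  have h3 : ((ε : ℂ) - I * t).re = ε := by simp
  rw [h3]
  have : 0 ≤ w ^ 2 / (4 * (ε ^ 2 + t ^ 2)) * ε := by positivity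
  have e : -(w ^ 2) / (4 * (ε ^ 2 + t ^ 2)) * ε = -(w ^ 2 / (4 * (ε ^ 2 + t ^ 2)) * ε) := by ring
  rw [e]
  linarith

theorem gexp1 (ε : ℝ) (hε : 0 < ε) : Integrable fun r : ℝ => Real.exp (-ε * r ^ 2) :=
  integrable_exp_neg_mul_sq hε

theorem reg_rep (c : ℝ → ℂ) (hc : Integrable c) (K : ℝ → ℂ)
    (hK : ∀ r, K r = ∫ η, c η * ex (2 * Real.pi * (η * r))) (t u ε : ℝ) (hε : 0 < ε) :
    ∫ r, K r * ex (-(r * u + t * r ^ 2)) * ((Real.exp (-ε * r ^ 2) : ℝ) : ℂ) =
      ((Real.pi : ℂ) / ((ε : ℂ) + I * t)) ^ (1 / 2 : ℂ) *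
        ∫ η, c η * cexp (-(((u - 2 * Real.pi * η : ℝ) : ℂ) ^ 2) / (4 * ((ε : ℂ) + I * t))) := by
  set Q : ℝ → ℝ → ℂ := fun r η => c η * (ex (2 * Real.pi * (η * r)) * ex (-(r * u + t * r ^ 2)) *
    ((Real.exp (-ε * r ^ 2) : ℝ) : ℂ)) with hQ
  have e1 : ∀ r, K r * ex (-(r * u + t * r ^ 2)) * ((Real.exp (-ε * r ^ 2) : ℝ) : ℂ) =
      ∫ η, Q r η := by
    intro r
    rw [hK, ← integral_mul_const, ← integral_mul_const]
    refine integral_congr_ae (Filter.Eventually.of_forall fun η => ?_)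
    simp only [hQ]
    ring
  rw [integral_congr_ae (Filter.Eventually.of_forall e1)]
  have hprod : Integrable (Function.uncurry Q) (volume.prod volume) := by
    have h1 : Integrable (fun p : ℝ × ℝ => ((Real.exp (-ε * p.1 ^ 2) : ℝ) : ℂ) * c p.2)
      (volume.prod volume) := (gexp1 ε hε).ofReal.mul_prod hc
    have h2 := h1.mul_bdd (c := 1)
      (g := fun p : ℝ × ℝ => ex (2 * Real.pi * (p.2 * p.1)) * ex (-(p.1 * u + t * p.1 ^ 2))) (by
      have c1 : Continuous fun p : ℝ × ℝ => ex (2 * Real.pi * (p.2 * p.1)) :=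
        ex_cont.comp (by fun_prop)
      have c2 : Continuous fun p : ℝ × ℝ => ex (-(p.1 * u + t * p.1 ^ 2)) :=
        ex_cont.comp (by fun_prop)
      exact (c1.mul c2).aestronglyMeasurable) (Filter.Eventually.of_forall fun p => by
        rw [norm_mul, ex_norm, ex_norm, one_mul])
    refine h2.congr (Filter.Eventually.of_forall fun p => ?_)
    simp only [Function.uncurry, hQ]
    ring
  rw [integral_integral_swap hprod]
  have hb : (-((ε : ℂ) + I * t)).re < 0 := by simp; exact hε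
  have hne : ((ε : ℂ) + I * t) ≠ 0 := by
    intro h
    have := congrArg Complex.re h
    simp at this
    linarith
  have e2 : ∀ η, ∫ r, Q r η = ((Real.pi : ℂ) / ((ε : ℂ) + I * t)) ^ (1 / 2 : ℂ) *
      (c η * cexp (-(((u - 2 * Real.pi * η : ℝ) : ℂ) ^ 2) / (4 * ((ε : ℂ) + I * t)))) := by
    intro η
    simp only [hQ]
    rw [integral_const_mul]
    have e3 : ∀ r : ℝ, ex (2 * Real.pi * (η * r)) * ex (-(r * u + t * r ^ 2)) *
        ((Real.exp (-ε * r ^ 2) : ℝ) : ℂ) =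
        cexp (-((ε : ℂ) + I * t) * (r : ℂ) ^ 2 + (-I * ((u - 2 * Real.pi * η : ℝ) : ℂ)) * r + 0) := by
      intro r
      unfold ex
      rw [Complex.ofReal_exp, ← Complex.exp_add, ← Complex.exp_add]
      congr 1
      push_cast
      ring
    simp_rw [e3]
    rw [integral_cexp_quadratic hb, neg_neg]
    have e4 : (0 : ℂ) - (-I * ((u - 2 * Real.pi * η : ℝ) : ℂ)) ^ 2 / (4 * -((ε : ℂ) + I * t)) =
        -(((u - 2 * Real.pi * η : ℝ) : ℂ) ^ 2) / (4 * ((ε : ℂ) + I * t)) := by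
      have h5 : (-I * ((u - 2 * Real.pi * η : ℝ) : ℂ)) ^ 2 = -(((u - 2 * Real.pi * η : ℝ) : ℂ) ^ 2) := by
        rw [mul_pow, neg_sq, I_sq]
        ring
      rw [h5, mul_neg, div_neg, sub_neg_eq_add, zero_add]
    rw [e4]
    ring
  rw [integral_congr_ae (Filter.Eventually.of_forall e2), integral_const_mul]

theorem eps_tendsto : Tendsto (fun n : ℕ => (1 : ℝ) / ((n : ℝ) + 1)) atTop (𝓝 0) :=
  tendsto_one_div_add_atTop_nhds_zero_nat

theorem rep1 (c : ℝ → ℂ) (hc : Integrable c) (K : ℝ → ℂ)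
    (hK : ∀ r, K r = ∫ η, c η * ex (2 * Real.pi * (η * r))) (hKi : Integrable K) (t u : ℝ)
    (ht : 0 < t) :
    ∫ r, K r * ex (-(r * u + t * r ^ 2)) =
      Fr t * ∫ η, c η * ex ((u - 2 * Real.pi * η) ^ 2 / (4 * t)) := by
  have htc : (t : ℂ) ≠ 0 := by exact_mod_cast ht.ne'
  have hpos : ∀ n : ℕ, (0 : ℝ) < 1 / ((n : ℝ) + 1) := fun n => by positivity
  have L1 : Tendsto (fun n : ℕ => ∫ r, K r * ex (-(r * u + t * r ^ 2)) *
      ((Real.exp (-(1 / ((n : ℝ) + 1)) * r ^ 2) : ℝ) : ℂ)) atTop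
      (𝓝 (∫ r, K r * ex (-(r * u + t * r ^ 2)))) := by
    refine tendsto_integral_of_dominated_convergence (fun r => ‖K r‖) (fun n => ?_) hKi.norm
      (fun n => Filter.Eventually.of_forall fun r => ?_) (Filter.Eventually.of_forall fun r => ?_)
    · have c2 : Continuous fun r : ℝ => ex (-(r * u + t * r ^ 2)) := ex_cont.comp (by fun_prop)
      have c3 : Continuous fun r : ℝ => ((Real.exp (-(1 / ((n : ℝ) + 1)) * r ^ 2) : ℝ) : ℂ) := by
        fun_prop
      exact (hKi.aestronglyMeasurable.mul c2.aestronglyMeasurable).mul c3.aestronglyMeasurable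
    · rw [norm_mul, norm_mul, ex_norm, mul_one, Complex.norm_real, Real.norm_of_nonneg (Real.exp_pos _).le]
      refine mul_le_of_le_one_right (norm_nonneg _) ?_
      rw [Real.exp_le_one_iff]
      have : 0 ≤ 1 / ((n : ℝ) + 1) * r ^ 2 := by positivity
      linarith
    · have h2 : Tendsto (fun n : ℕ => ((Real.exp (-(1 / ((n : ℝ) + 1)) * r ^ 2) : ℝ) : ℂ)) atTop
          (𝓝 1) := by
        have h3 : Tendsto (fun n : ℕ => -(1 / ((n : ℝ) + 1)) * r ^ 2) atTop (𝓝 0) := by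
          have := eps_tendsto.neg.mul_const (r ^ 2)
          simpa using this
        have h4 := (Complex.continuous_ofReal.tendsto _).comp ((Real.continuous_exp.tendsto 0).comp h3)
        rw [Real.exp_zero, Complex.ofReal_one] at h4
        exact h4
      have := h2.const_mul (K r * ex (-(r * u + t * r ^ 2)))
      rwa [mul_one] at this
  have L2 : Tendsto (fun n : ℕ => ((Real.pi : ℂ) / (((1 / ((n : ℝ) + 1) : ℝ) : ℂ) + I * t)) ^ (1 / 2 : ℂ) *
      ∫ η, c η * cexp (-(((u - 2 * Real.pi * η : ℝ) : ℂ) ^ 2) /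
        (4 * (((1 / ((n : ℝ) + 1) : ℝ) : ℂ) + I * t)))) atTop
      (𝓝 (Fr t * ∫ η, c η * ex ((u - 2 * Real.pi * η) ^ 2 / (4 * t)))) := by
    have hden : Tendsto (fun n : ℕ => (((1 / ((n : ℝ) + 1) : ℝ) : ℂ) + I * t)) atTop (𝓝 (I * t)) := by
      have h1 := (Complex.continuous_ofReal.tendsto _).comp eps_tendsto
      have h2 := h1.add_const (I * t)
      rw [Complex.ofReal_zero, zero_add] at h2
      exact h2
    have hIt : (I * (t : ℂ)) ≠ 0 := mul_ne_zero I_ne_zero htc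
    refine Tendsto.mul ?_ ?_
    · unfold Fr
      have h3 : Tendsto (fun n : ℕ => (Real.pi : ℂ) / (((1 / ((n : ℝ) + 1) : ℝ) : ℂ) + I * t)) atTop
          (𝓝 ((Real.pi : ℂ) / (I * t))) := tendsto_const_nhds.div hden hIt
      have hslit : ((Real.pi : ℂ) / (I * t)) ∈ slitPlane := by
        right
        have : (Real.pi : ℂ) / (I * t) = ((Real.pi / t : ℝ) : ℂ) * (-I) := by
          push_cast
          field_simp
          rw [I_sq]
          ring
        rw [this, Complex.im_ofReal_mul]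
        simp only [neg_im, I_im, mul_neg, mul_one, ne_eq, neg_eq_zero]
        exact (div_pos Real.pi_pos ht).ne'
      exact (continuousAt_cpow_const hslit).tendsto.comp h3
    · refine tendsto_integral_of_dominated_convergence (fun η => ‖c η‖) (fun n => ?_) hc.norm
        (fun n => Filter.Eventually.of_forall fun η => ?_) (Filter.Eventually.of_forall fun η => ?_)
      · have c3 : Continuous fun η : ℝ => cexp (-(((u - 2 * Real.pi * η : ℝ) : ℂ) ^ 2) /
          (4 * (((1 / ((n : ℝ) + 1) : ℝ) : ℂ) + I * t))) := by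
          fun_prop
        exact hc.aestronglyMeasurable.mul c3.aestronglyMeasurable
      · rw [norm_mul]
        exact mul_le_of_le_one_right (norm_nonneg _) (quad_arg _ _ _ (hpos n))
      · have h5 : Tendsto (fun n : ℕ => (-(((u - 2 * Real.pi * η : ℝ) : ℂ) ^ 2) /
            (4 * (((1 / ((n : ℝ) + 1) : ℝ) : ℂ) + I * t)))) atTop
            (𝓝 (-(((u - 2 * Real.pi * η : ℝ) : ℂ) ^ 2) / (4 * (I * t)))) :=
          tendsto_const_nhds.div (hden.const_mul 4) (mul_ne_zero (by norm_num) hIt)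
        have h6 := ((Complex.continuous_exp.tendsto _).comp h5).const_mul (c η)
        have h7 : cexp (-(((u - 2 * Real.pi * η : ℝ) : ℂ) ^ 2) / (4 * (I * t))) =
            ex ((u - 2 * Real.pi * η) ^ 2 / (4 * t)) := by
          unfold ex
          congr 1
          push_cast
          field_simp
          rw [I_sq]
          ring
        rw [h7] at h6
        exact h6
  refine tendsto_nhds_unique L1 (L2.congr fun n => ?_)
  exact (reg_rep c hc K hK t u _ (hpos n)).symm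

end Pool.Agent.J4.H87.Ray
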