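import Mathlib
set_option autoImplicit false

/-! Rays: oscillatory Gaussian integrals over the plane. -/

namespace Pool.Agent.J4.H87.Ray

open MeasureTheory Complex Set
open scoped ENNReal ComplexConjugate

/-- product of the two square roots -/
theorem sqrt_prod (b v : ℝ) (hb : 0 < b) :
    ((Real.pi : ℂ) / (b - I * v)) ^ (1 / 2 : ℂ) * ((Real.pi : ℂ) / (b + I * v)) ^ (1 / 2 : ℂ) =
      ((Real.pi / Real.sqrt (b ^ 2 + v ^ 2) : ℝ) : ℂ) := by
  set x : ℂ := (Real.pi : ℂ) / (b + I * v) with hx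
  have hne : ((b : ℂ) + I * v) ≠ 0 := by
    intro h
    have := congrArg Complex.re h
    simp at this
    linarith
  have hcx : (Real.pi : ℂ) / (b - I * v) = conj x := by
    rw [hx, map_div₀, Complex.conj_ofReal, map_add, Complex.conj_ofReal, map_mul, Complex.conj_I,
      Complex.conj_ofReal]
    congr 1
    ring
  have hre : 0 < x.re := by
    rw [hx, Complex.div_re]
    have h1 : ((Real.pi : ℂ)).im = 0 := Complex.ofReal_im _
    have h2 : ((b : ℂ) + I * v).re = b := by simp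
    rw [h1, h2, zero_mul, zero_div, add_zero, Complex.ofReal_re]
    have h3 : 0 < Complex.normSq ((b : ℂ) + I * v) := Complex.normSq_pos.2 hne
    have := Real.pi_pos
    positivity
  have harg : x.arg ≠ Real.pi := by
    intro h
    rw [Complex.arg_eq_pi_iff] at h
    linarith [h.1]
  have h4 : (conj x) ^ (1 / 2 : ℂ) = conj (x ^ (1 / 2 : ℂ)) := by
    have h5 := Complex.cpow_conj x (1 / 2 : ℂ) harg
    have h6 : (starRingEnd ℂ) (1 / 2 : ℂ) = 1 / 2 := by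
      rw [map_div₀, map_one]
      congr 1
      exact Complex.conj_ofNat 2
    rw [h6] at h5
    rw [h5, Complex.conj_conj]
  rw [hcx, h4, mul_comm, Complex.mul_conj, Complex.normSq_eq_norm_sq]
  congr 1
  have hx0 : x ≠ 0 := by
    intro h
    rw [h] at hre
    simp at hre
  have h7 : ‖x ^ (1 / 2 : ℂ)‖ = ‖x‖ ^ (1 / 2 : ℝ) := by
    rw [show (1 / 2 : ℂ) = ((1 / 2 : ℝ) : ℂ) by push_cast; rfl]
    exact Complex.norm_cpow_real x (1 / 2)
  rw [h7, ← Real.rpow_natCast, ← Real.rpow_mul (norm_nonneg _)]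
  norm_num
  rw [hx, norm_div, Complex.norm_real, Real.norm_of_nonneg Real.pi_pos.le]
  congr 1
  rw [Complex.norm_def, Complex.normSq_apply]
  congr 1
  simp
  ring

/-- the oscillatory Gaussian integral in normal form -/
theorem gauss_diag (b v p q : ℝ) (hb : 0 < b) :
    ∫ z : ℂ, cexp (-(b : ℂ) * ((‖z‖ ^ 2 : ℝ) : ℂ) +
        I * ((v * (z.re ^ 2 - z.im ^ 2) + (z.re * p + z.im * q) : ℝ) : ℂ)) =
      ((Real.pi / Real.sqrt (b ^ 2 + v ^ 2) : ℝ) : ℂ) *
        cexp (-(((p ^ 2 / 4 : ℝ) : ℂ) / (b - I * v) + ((q ^ 2 / 4 : ℝ) : ℂ) / (b + I * v))) := by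
  have h1 : ∫ z : ℂ, cexp (-(b : ℂ) * ((‖z‖ ^ 2 : ℝ) : ℂ) +
        I * ((v * (z.re ^ 2 - z.im ^ 2) + (z.re * p + z.im * q) : ℝ) : ℂ)) =
      ∫ w : ℝ × ℝ, cexp (-(b - I * v) * (w.1 : ℂ) ^ 2 + I * p * w.1 + 0) *
        cexp (-(b + I * v) * (w.2 : ℂ) ^ 2 + I * q * w.2 + 0) := by
    rw [← Complex.volume_preserving_equiv_real_prod.integral_comp
      Complex.measurableEquivRealProd.measurableEmbedding]
    refine integral_congr_ae (Filter.Eventually.of_forall fun z => ?_)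
    simp only [Complex.measurableEquivRealProd_apply]
    rw [← Complex.exp_add]
    congr 1
    have : ‖z‖ ^ 2 = z.re ^ 2 + z.im ^ 2 := by
      rw [← Complex.normSq_eq_norm_sq, Complex.normSq_apply]; ring
    rw [this]
    push_cast
    ring
  rw [h1, Measure.volume_eq_prod, integral_prod_mul
    (f := fun x : ℝ => cexp (-(b - I * v) * (x : ℂ) ^ 2 + I * p * x + 0))
    (g := fun x : ℝ => cexp (-(b + I * v) * (x : ℂ) ^ 2 + I * q * x + 0))]
  rw [integral_cexp_quadratic (by simp [hb]), integral_cexp_quadratic (by simp [hb])]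
  rw [neg_neg, neg_neg, ← sqrt_prod b v hb]
  have hne : ((b : ℂ) + I * v) ≠ 0 := by
    intro h
    have := congrArg Complex.re h
    simp at this
    linarith
  have hne' : ((b : ℂ) - I * v) ≠ 0 := by
    intro h
    have := congrArg Complex.re h
    simp at this
    linarith
  have e1 : ∀ (s : ℝ) (d : ℂ), d ≠ 0 → (0 : ℂ) - (I * (s : ℂ)) ^ 2 / (4 * -d) =
      -(((s ^ 2 / 4 : ℝ) : ℂ) / d) := by
    intro s d hd
    have : (I * (s : ℂ)) ^ 2 = -(s : ℂ) ^ 2 := by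
      rw [mul_pow, Complex.I_sq]; ring
    rw [this]
    push_cast
    field_simp
    ring
  rw [e1 p _ hne', e1 q _ hne, neg_add, Complex.exp_add]
  ring

/-- the oscillatory Gaussian integral -/
theorem gauss_gen (v q : ℂ) : ∃ α β : ℝ, 0 ≤ α ∧ 0 ≤ β ∧ α + β = ‖q‖ ^ 2 / 4 ∧ ∀ b : ℝ, 0 < b →
    ∫ z : ℂ, cexp (-(b : ℂ) * ((‖z‖ ^ 2 : ℝ) : ℂ) + I * ((((z ^ 2 * v).re + (z * q).re : ℝ)) : ℂ)) =
      ((Real.pi / Real.sqrt (b ^ 2 + ‖v‖ ^ 2) : ℝ) : ℂ) *
        cexp (-((α : ℂ) / (b - I * (‖v‖ : ℝ)) + (β : ℂ) / (b + I * (‖v‖ : ℝ)))) := by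
  -- the rotation
  obtain ⟨ω, hω1, hω⟩ : ∃ ω : Circle, True ∧ (ω : ℂ) ^ 2 * v = (‖v‖ : ℂ) := by
    refine ⟨Circle.exp (-(v.arg / 2)), trivial, ?_⟩
    rw [Circle.coe_exp, ← Complex.exp_nat_mul]
    have h1 : cexp (((2 : ℕ) : ℂ) * (((-(v.arg / 2) : ℝ) : ℂ) * I)) = cexp (-(v.arg * I)) := by
      congr 1
      push_cast
      ring
    rw [h1]
    have h2 := Complex.norm_mul_exp_arg_mul_I v
    calc cexp (-(v.arg * I)) * v = cexp (-(v.arg * I)) * (‖v‖ * cexp (v.arg * I)) := by rw [h2]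
      _ = (cexp (-(v.arg * I)) * cexp (v.arg * I)) * ‖v‖ := by ring
      _ = ‖v‖ := by rw [← Complex.exp_add, neg_add_cancel, Complex.exp_zero, one_mul]
  set q' : ℂ := (ω : ℂ) * q with hq'
  have hnq : ‖q'‖ = ‖q‖ := by rw [hq', norm_mul, Circle.norm_coe, one_mul]
  refine ⟨q'.re ^ 2 / 4, q'.im ^ 2 / 4, by positivity, by positivity, ?_, ?_⟩
  · rw [← hnq, ← Complex.normSq_eq_norm_sq, Complex.normSq_apply]
    ring
  intro b hb
  have h1 := (rotation ω).measurePreserving.integral_comp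
    (rotation ω).toHomeomorph.measurableEmbedding
    (fun z : ℂ => cexp (-(b : ℂ) * ((‖z‖ ^ 2 : ℝ) : ℂ) + I * ((((z ^ 2 * v).re + (z * q).re : ℝ)) : ℂ)))
  rw [← h1]
  have h2 := gauss_diag b ‖v‖ q'.re (-q'.im) hb
  rw [neg_sq] at h2
  rw [← h2]
  refine integral_congr_ae (Filter.Eventually.of_forall fun z => ?_)
  have e0 : rotation ω z = (ω : ℂ) * z := rotation_apply ω z
  have en : ‖(ω : ℂ) * z‖ = ‖z‖ := by rw [norm_mul, Circle.norm_coe, one_mul]
  have e1 : ((ω : ℂ) * z) ^ 2 * v = z ^ 2 * (‖v‖ : ℂ) := by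
    rw [← hω]; ring
  have e2 : (ω : ℂ) * z * q = z * q' := by rw [hq']; ring
  simp only [e0, en, e1, e2]
  congr 3
  norm_cast
  have e3 : (z ^ 2 * (‖v‖ : ℂ)).re = ‖v‖ * (z.re ^ 2 - z.im ^ 2) := by
    rw [sq, Complex.mul_re, Complex.mul_re, Complex.ofReal_re, Complex.ofReal_im]
    ring
  rw [e3, Complex.mul_re]
  ring

end Pool.Agent.J4.H87.Ray
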