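import Mathlib
set_option autoImplicit false

/-! Rays: the second difference in the parameter of the oscillatory Gaussian integral. -/

namespace Pool.Agent.J4.H87.Ray

open MeasureTheory Complex Set
open scoped ENNReal ComplexConjugate

section
variable (w α β : ℝ)

/-- the exponent -/
noncomputable def Xf (l : ℝ) : ℂ := -((α : ℂ) / ((l : ℂ) - I * w) + (β : ℂ) / ((l : ℂ) + I * w))

/-- its derivative -/
noncomputable def Xf1 (l : ℝ) : ℂ :=
  (α : ℂ) / ((l : ℂ) - I * w) ^ 2 + (β : ℂ) / ((l : ℂ) + I * w) ^ 2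

/-- its second derivative -/
noncomputable def Xf2 (l : ℝ) : ℂ :=
  -2 * ((α : ℂ) / ((l : ℂ) - I * w) ^ 3 + (β : ℂ) / ((l : ℂ) + I * w) ^ 3)

/-- the amplitude -/
noncomputable def gf (l : ℝ) : ℝ := (Real.sqrt (l ^ 2 + w ^ 2))⁻¹

/-- its derivative -/
noncomputable def gf1 (l : ℝ) : ℝ := -(l * gf w l ^ 3)

/-- its second derivative -/
noncomputable def gf2 (l : ℝ) : ℝ := -(gf w l ^ 3) + 3 * l ^ 2 * gf w l ^ 5

/-- the function -/
noncomputable def Ff (l : ℝ) : ℂ := (gf w l : ℂ) * cexp (Xf w α β l)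

/-- its derivative -/
noncomputable def Ff1 (l : ℝ) : ℂ :=
  ((gf1 w l : ℂ) + (gf w l : ℂ) * Xf1 w α β l) * cexp (Xf w α β l)

/-- its second derivative -/
noncomputable def Ff2 (l : ℝ) : ℂ :=
  ((gf2 w l : ℂ) + 2 * (gf1 w l : ℂ) * Xf1 w α β l +
    (gf w l : ℂ) * (Xf2 w α β l + Xf1 w α β l ^ 2)) * cexp (Xf w α β l)

theorem cm_ne {l : ℝ} (hl : 0 < l) : ((l : ℂ) - I * w) ≠ 0 := by
  intro h
  have := congrArg Complex.re h
  simp at this
  linarith

theorem cp_ne {l : ℝ} (hl : 0 < l) : ((l : ℂ) + I * w) ≠ 0 := by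
  intro h
  have := congrArg Complex.re h
  simp at this
  linarith

theorem cm_norm (l : ℝ) : ‖((l : ℂ) - I * w)‖ = Real.sqrt (l ^ 2 + w ^ 2) := by
  rw [Complex.norm_def, Complex.normSq_apply]
  congr 1
  simp
  ring

theorem cp_norm (l : ℝ) : ‖((l : ℂ) + I * w)‖ = Real.sqrt (l ^ 2 + w ^ 2) := by
  rw [Complex.norm_def, Complex.normSq_apply]
  congr 1
  simp
  ring

theorem X_deriv {l : ℝ} (hl : 0 < l) : HasDerivAt (Xf w α β) (Xf1 w α β l) l := by
  unfold Xf Xf1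
  have h1 : HasDerivAt (fun l : ℝ => (l : ℂ) - I * w) 1 l := (Complex.ofRealCLM.hasDerivAt).sub_const _
  have h2 : HasDerivAt (fun l : ℝ => (l : ℂ) + I * w) 1 l := (Complex.ofRealCLM.hasDerivAt).add_const _
  have h3 := ((hasDerivAt_const l (α : ℂ)).div h1 (cm_ne w hl)).add
    ((hasDerivAt_const l (β : ℂ)).div h2 (cp_ne w hl))
  refine h3.neg.congr_deriv ?_
  ring

theorem X1_deriv {l : ℝ} (hl : 0 < l) : HasDerivAt (Xf1 w α β) (Xf2 w α β l) l := by
  unfold Xf1 Xf2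
  have h1 : HasDerivAt (fun l : ℝ => (l : ℂ) - I * w) 1 l := (Complex.ofRealCLM.hasDerivAt).sub_const _
  have h2 : HasDerivAt (fun l : ℝ => (l : ℂ) + I * w) 1 l := (Complex.ofRealCLM.hasDerivAt).add_const _
  have h3 := ((hasDerivAt_const l (α : ℂ)).div (h1.pow 2) (pow_ne_zero 2 (cm_ne w hl))).add
    ((hasDerivAt_const l (β : ℂ)).div (h2.pow 2) (pow_ne_zero 2 (cp_ne w hl)))
  refine h3.congr_deriv ?_
  have ha := cm_ne w hl
  have hb := cp_ne w hl
  simp only [Pi.pow_apply]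
  field_simp
  ring

theorem s_pos {l : ℝ} (hl : 0 < l) : 0 < l ^ 2 + w ^ 2 := by positivity

theorem g_pos {l : ℝ} (hl : 0 < l) : 0 < gf w l := by
  unfold gf
  have := s_pos w hl
  positivity

theorem g_sq {l : ℝ} (hl : 0 < l) : gf w l ^ 2 = (l ^ 2 + w ^ 2)⁻¹ := by
  unfold gf
  rw [inv_pow, Real.sq_sqrt (s_pos w hl).le]

theorem g_deriv {l : ℝ} (hl : 0 < l) : HasDerivAt (gf w) (gf1 w l) l := by
  have hs := s_pos w hl
  have h1 : HasDerivAt (fun l : ℝ => l ^ 2 + w ^ 2) (2 * l) l := by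
    simpa using (hasDerivAt_pow 2 l).add_const (w ^ 2)
  have h2 := (h1.sqrt hs.ne').inv (Real.sqrt_ne_zero'.2 hs)
  unfold gf1
  refine HasDerivAt.congr_deriv (f' := -(2 * l / (2 * √(l ^ 2 + w ^ 2))) / √(l ^ 2 + w ^ 2) ^ 2) ?_ ?_
  · exact h2
  · unfold gf
    have : √(l ^ 2 + w ^ 2) ≠ 0 := Real.sqrt_ne_zero'.2 hs
    field_simp

theorem g1_deriv {l : ℝ} (hl : 0 < l) : HasDerivAt (gf1 w) (gf2 w l) l := by
  have h1 := ((hasDerivAt_id l).mul ((g_deriv w hl).pow 3)).neg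
  refine HasDerivAt.congr_deriv (f' := -(1 * (gf w l) ^ 3 + l * (((3 : ℕ) : ℝ) * gf w l ^ (3 - 1) * gf1 w l))) ?_ ?_
  · exact h1
  · unfold gf1 gf2
    push_cast
    ring

theorem F_deriv {l : ℝ} (hl : 0 < l) : HasDerivAt (Ff w α β) (Ff1 w α β l) l := by
  have h1 := (g_deriv w hl).ofReal_comp.mul (X_deriv w α β hl).cexp
  refine h1.congr_deriv ?_
  unfold Ff1
  ring

theorem F1_deriv {l : ℝ} (hl : 0 < l) : HasDerivAt (Ff1 w α β) (Ff2 w α β l) l := by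
  have h1 := (((g1_deriv w hl).ofReal_comp).add ((g_deriv w hl).ofReal_comp.mul
    (X1_deriv w α β hl))).mul (X_deriv w α β hl).cexp
  refine h1.congr_deriv ?_
  unfold Ff2
  simp only [Pi.add_apply, Pi.mul_apply]
  ring

variable {κ : ℝ} (hα : 0 ≤ α) (hβ : 0 ≤ β) (hκ : 0 ≤ κ) (hab : α + β ≤ κ * w ^ 2)
include hα hβ

theorem X_re {l : ℝ} (hl : 0 < l) : (Xf w α β l).re ≤ 0 := by
  unfold Xf
  rw [Complex.neg_re, Complex.add_re, neg_nonpos]
  have e1 : ((α : ℂ) / ((l : ℂ) - I * w)).re = α * l / (l ^ 2 + w ^ 2) := by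
    rw [Complex.div_re]
    have : Complex.normSq ((l : ℂ) - I * w) = l ^ 2 + w ^ 2 := by
      rw [Complex.normSq_apply]; simp; ring
    rw [this]
    simp
  have e2 : ((β : ℂ) / ((l : ℂ) + I * w)).re = β * l / (l ^ 2 + w ^ 2) := by
    rw [Complex.div_re]
    have : Complex.normSq ((l : ℂ) + I * w) = l ^ 2 + w ^ 2 := by
      rw [Complex.normSq_apply]; simp; ring
    rw [this]
    simp
  rw [e1, e2]
  positivity

theorem expX {l : ℝ} (hl : 0 < l) : ‖cexp (Xf w α β l)‖ ≤ 1 := by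
  rw [Complex.norm_exp, Real.exp_le_one_iff]
  exact X_re w α β hα hβ hl

include hκ hab

theorem X1_le {l : ℝ} (hl : 0 < l) : ‖Xf1 w α β l‖ ≤ κ := by
  unfold Xf1
  have hs := s_pos w hl
  refine (norm_add_le _ _).trans ?_
  rw [norm_div, norm_div, norm_pow, norm_pow, cm_norm, cp_norm, Real.sq_sqrt hs.le,
    Complex.norm_real, Complex.norm_real, Real.norm_of_nonneg hα, Real.norm_of_nonneg hβ,
    ← add_div, div_le_iff₀ hs]
  nlinarith [sq_nonneg l]

theorem X2_le {l : ℝ} (hl : 0 < l) : ‖Xf2 w α β l‖ ≤ 2 * κ * gf w l := by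
  unfold Xf2
  have hs := s_pos w hl
  have hr : 0 < Real.sqrt (l ^ 2 + w ^ 2) := Real.sqrt_pos.2 hs
  rw [norm_mul, norm_neg, Complex.norm_two, mul_assoc]
  refine mul_le_mul_of_nonneg_left ?_ zero_le_two
  refine (norm_add_le _ _).trans ?_
  rw [norm_div, norm_div, norm_pow, norm_pow, cm_norm, cp_norm,
    Complex.norm_real, Complex.norm_real, Real.norm_of_nonneg hα, Real.norm_of_nonneg hβ,
    ← add_div, div_le_iff₀ (by positivity)]
  unfold gf
  have : κ * (√(l ^ 2 + w ^ 2))⁻¹ * √(l ^ 2 + w ^ 2) ^ 3 = κ * (l ^ 2 + w ^ 2) := by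
    rw [show √(l ^ 2 + w ^ 2) ^ 3 = √(l ^ 2 + w ^ 2) * √(l ^ 2 + w ^ 2) ^ 2 by ring,
      Real.sq_sqrt hs.le]
    field_simp
  rw [this]
  nlinarith [sq_nonneg l]

theorem F2_le {l : ℝ} (hl : 1 ≤ l) :
    ‖Ff2 w α β l‖ ≤ (4 + 4 * κ) / (1 + w ^ 2) + κ ^ 2 / Real.sqrt (1 + w ^ 2) := by
  have hl0 : 0 < l := by linarith
  have hs := s_pos w hl0
  have hg := g_pos w hl0
  have hg2 := g_sq w hl0
  have hX1 := X1_le w α β hα hβ hκ hab hl0
  have hX2 := X2_le w α β hα hβ hκ hab hl0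
  have hE := expX w α β hα hβ hl0
  have hle : 1 + w ^ 2 ≤ l ^ 2 + w ^ 2 := by nlinarith
  have hgs : gf w l ≤ (Real.sqrt (1 + w ^ 2))⁻¹ := by
    unfold gf
    exact inv_anti₀ (by positivity) (Real.sqrt_le_sqrt hle)
  have hgs2 : gf w l ^ 2 ≤ (1 + w ^ 2)⁻¹ := by
    rw [hg2]
    exact inv_anti₀ (by positivity) hle
  have hg1 : gf w l ≤ 1 := by
    refine hgs.trans ?_
    refine inv_le_one_of_one_le₀ ?_
    rw [Real.one_le_sqrt]
    nlinarith [sq_nonneg w]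
  have hlg : l * gf w l ≤ 1 := by
    have h1 : (l * gf w l) ^ 2 ≤ 1 := by
      rw [mul_pow, hg2, ← div_eq_mul_inv, div_le_one hs]
      nlinarith [sq_nonneg w]
    exact (sq_le_one_iff₀ (by positivity)).1 h1
  have b1 : ‖(gf1 w l : ℂ)‖ ≤ gf w l ^ 2 := by
    rw [Complex.norm_real, Real.norm_eq_abs]
    unfold gf1
    rw [abs_neg, abs_of_pos (by positivity)]
    have : l * gf w l ^ 3 = (l * gf w l) * gf w l ^ 2 := by ring
    rw [this]
    exact mul_le_of_le_one_left (by positivity) hlg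
  have b2 : ‖(gf2 w l : ℂ)‖ ≤ 4 * gf w l ^ 2 := by
    rw [Complex.norm_real, Real.norm_eq_abs]
    unfold gf2
    have h3 : gf w l ^ 3 ≤ gf w l ^ 2 := pow_le_pow_of_le_one hg.le hg1 (by norm_num)
    have h5 : l ^ 2 * gf w l ^ 5 ≤ gf w l ^ 2 := by
      have : l ^ 2 * gf w l ^ 5 = (l * gf w l) ^ 2 * gf w l ^ 3 := by ring
      rw [this]
      have h6 : (l * gf w l) ^ 2 ≤ 1 := (sq_le_one_iff₀ (by positivity)).2 hlg
      exact (mul_le_of_le_one_left (by positivity) h6).trans h3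
    have h7 : 0 ≤ l ^ 2 * gf w l ^ 5 := by positivity
    have h8 : 0 ≤ gf w l ^ 3 := by positivity
    rw [abs_le]
    constructor <;> nlinarith
  have b0 : ‖(gf w l : ℂ)‖ = gf w l := by
    rw [Complex.norm_real, Real.norm_of_nonneg hg.le]
  unfold Ff2
  rw [norm_mul]
  refine (mul_le_of_le_one_right (norm_nonneg _) hE).trans ?_
  calc ‖(gf2 w l : ℂ) + 2 * (gf1 w l : ℂ) * Xf1 w α β l +
        (gf w l : ℂ) * (Xf2 w α β l + Xf1 w α β l ^ 2)‖
      ≤ ‖(gf2 w l : ℂ)‖ + ‖2 * (gf1 w l : ℂ) * Xf1 w α β l‖ +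
        ‖(gf w l : ℂ) * (Xf2 w α β l + Xf1 w α β l ^ 2)‖ := norm_add₃_le
    _ ≤ 4 * gf w l ^ 2 + 2 * gf w l ^ 2 * κ + gf w l * (2 * κ * gf w l + κ ^ 2) := by
        rw [norm_mul, norm_mul, norm_mul, b0, Complex.norm_two]
        gcongr
        refine (norm_add_le _ _).trans ?_
        rw [norm_pow]
        gcongr
    _ = (4 + 4 * κ) * gf w l ^ 2 + κ ^ 2 * gf w l := by ring
    _ ≤ (4 + 4 * κ) * (1 + w ^ 2)⁻¹ + κ ^ 2 * (Real.sqrt (1 + w ^ 2))⁻¹ := by gcongr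
    _ = _ := by rw [div_eq_mul_inv, div_eq_mul_inv]

/-- the second difference -/
theorem F_second : ‖Ff w α β 3 - 2 * Ff w α β 2 + Ff w α β 1‖ ≤
    (4 + 4 * κ) / (1 + w ^ 2) + κ ^ 2 / Real.sqrt (1 + w ^ 2) := by
  set M : ℝ := (4 + 4 * κ) / (1 + w ^ 2) + κ ^ 2 / Real.sqrt (1 + w ^ 2) with hM
  -- first derivative differences
  have h1 : ∀ l : ℝ, 1 ≤ l → ‖Ff1 w α β (l + 1) - Ff1 w α β l‖ ≤ M := by
    intro l hl
    have h := Convex.norm_image_sub_le_of_norm_hasDerivWithin_le (f := Ff1 w α β)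
      (f' := Ff2 w α β) (s := Ici 1) (C := M) (x := l) (y := l + 1)
      (fun x hx => (F1_deriv w α β (lt_of_lt_of_le one_pos hx)).hasDerivWithinAt)
      (fun x hx => F2_le w α β hα hβ hκ hab hx) (convex_Ici 1) hl (by
        simp only [mem_Ici]; linarith)
    simpa using h
  have h2 := Convex.norm_image_sub_le_of_norm_hasDerivWithin_le
      (f := fun l => Ff w α β (l + 1) - Ff w α β l)
      (f' := fun l => Ff1 w α β (l + 1) - Ff1 w α β l) (s := Ici 1) (C := M) (x := (1 : ℝ))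
      (y := (2 : ℝ))
      (fun x hx => by
        have hx0 : (0 : ℝ) < x := lt_of_lt_of_le one_pos hx
        have a1 : HasDerivAt (fun l => Ff w α β (l + 1)) (Ff1 w α β (x + 1)) x :=
          (F_deriv w α β (by linarith : 0 < x + 1)).comp_add_const x 1
        exact (a1.sub (F_deriv w α β hx0)).hasDerivWithinAt)
      (fun x hx => h1 x hx) (convex_Ici 1) (by simp) (by simp)
  have h3 : (Ff w α β (2 + 1) - Ff w α β 2) - (Ff w α β (1 + 1) - Ff w α β 1) =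
      Ff w α β 3 - 2 * Ff w α β 2 + Ff w α β 1 := by
    norm_num
    ring
  simp only [h3] at h2
  refine h2.trans ?_
  norm_num

end

end Pool.Agent.J4.H87.Ray
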