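import Mathlib
import Pool.Agent.J4.H87.RayA
import Pool.Agent.J4.H87.RayB
set_option autoImplicit false

/-! Rays: the weight and the kernel bound. -/

namespace Pool.Agent.J4.H87.Ray

open MeasureTheory Complex Set
open scoped ENNReal ComplexConjugate

/-- the weight at scale `S` -/
noncomputable def Wt (S : ℝ) (z : ℂ) : ℝ :=
  Real.exp (-(1 / S ^ 2) * ‖z‖ ^ 2) - 2 * Real.exp (-(2 / S ^ 2) * ‖z‖ ^ 2) +
    Real.exp (-(3 / S ^ 2) * ‖z‖ ^ 2)

theorem Wt_eq (S : ℝ) (z : ℂ) : Wt S z = Real.exp (-(1 / S ^ 2) * ‖z‖ ^ 2) *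
    (1 - Real.exp (-(1 / S ^ 2) * ‖z‖ ^ 2)) ^ 2 := by
  unfold Wt
  have h2 : Real.exp (-(2 / S ^ 2) * ‖z‖ ^ 2) = Real.exp (-(1 / S ^ 2) * ‖z‖ ^ 2) ^ 2 := by
    rw [← Real.exp_nat_mul]
    congr 1
    push_cast
    ring
  have h3 : Real.exp (-(3 / S ^ 2) * ‖z‖ ^ 2) = Real.exp (-(1 / S ^ 2) * ‖z‖ ^ 2) ^ 3 := by
    rw [← Real.exp_nat_mul]
    congr 1
    push_cast
    ring
  rw [h2, h3]
  ring

theorem Wt_nonneg (S : ℝ) (z : ℂ) : 0 ≤ Wt S z := by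
  rw [Wt_eq]
  positivity

theorem Wt_cont (S : ℝ) : Continuous (Wt S) := by
  unfold Wt
  fun_prop

theorem Wt_ge (S : ℝ) (hS : 0 < S) (z : ℂ) (h1 : S ≤ ‖z‖) (h2 : ‖z‖ ≤ 2 * S) :
    1 / 1000 ≤ Wt S z := by
  rw [Wt_eq]
  set x : ℝ := (1 / S ^ 2) * ‖z‖ ^ 2 with hx
  have hx1 : 1 ≤ x := by
    rw [hx, one_div, inv_mul_eq_div, one_le_div (by positivity)]
    exact pow_le_pow_left₀ hS.le h1 2
  have hx4 : x ≤ 4 := by
    rw [hx, one_div, inv_mul_eq_div, div_le_iff₀ (by positivity)]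
    have := pow_le_pow_left₀ (norm_nonneg z) h2 2
    nlinarith
  have e : -(1 / S ^ 2) * ‖z‖ ^ 2 = -x := by rw [hx]; ring
  rw [e]
  have h3 : Real.exp (-4) ≤ Real.exp (-x) := Real.exp_le_exp.2 (by linarith)
  have h4 : Real.exp (-x) ≤ Real.exp (-1) := Real.exp_le_exp.2 (by linarith)
  have he1 : Real.exp (-1) ≤ 1 / 2 := by
    rw [Real.exp_neg, one_div]
    refine inv_anti₀ (by norm_num) ?_
    have := Real.add_one_le_exp (1 : ℝ)
    linarith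
  have he4 : 1 / 81 ≤ Real.exp (-4) := by
    rw [Real.exp_neg, one_div]
    refine inv_anti₀ (Real.exp_pos _) ?_
    have h5 : Real.exp 4 = Real.exp 1 ^ 4 := by
      rw [← Real.exp_nat_mul]; norm_num
    rw [h5]
    have h6 := Real.exp_one_lt_d9
    have h7 : Real.exp 1 ≤ 3 := by linarith
    calc Real.exp 1 ^ 4 ≤ 3 ^ 4 := pow_le_pow_left₀ (Real.exp_pos _).le h7 4
      _ = 81 := by norm_num
  have h8 : 1 / 4 ≤ (1 - Real.exp (-x)) ^ 2 := by nlinarith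
  calc (1 : ℝ) / 1000 ≤ 1 / 81 * (1 / 4) := by norm_num
    _ ≤ _ := mul_le_mul (he4.trans h3) h8 (by norm_num) (Real.exp_pos _).le

theorem exp_int (b : ℝ) (hb : 0 < b) : Integrable fun z : ℂ => Real.exp (-b * ‖z‖ ^ 2) := by
  have h := GaussianFourier.integrable_cexp_neg_mul_sq_norm_add (V := ℂ) (b := (b : ℂ))
    (by simpa using hb) 0 0
  have h2 := h.norm
  refine h2.congr (Filter.Eventually.of_forall fun z => ?_)
  simp only [zero_mul, add_zero]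
  rw [Complex.norm_exp]
  congr 1
  norm_cast

theorem Wt_int (S : ℝ) (hS : 0 < S) : Integrable (Wt S) := by
  unfold Wt
  exact ((exp_int _ (by positivity)).sub ((exp_int _ (by positivity)).const_mul 2)).add
    (exp_int _ (by positivity))

/-- the parameter of the loss -/
noncomputable def kap (η S : ℝ) : ℝ := 16 * η ^ 2 / S ^ 2

theorem kern (t S η : ℝ) (ht : 0 < t) (hS : 0 < S) (V p : ℂ) (hp : ‖p‖ ≤ 2 * ‖V‖) :
    ‖∫ z : ℂ, (Wt S z : ℂ) * cexp (I * ((1 / (8 * t) * (z ^ 2 * conj V).re -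
        η / (2 * t) * (z * conj p).re : ℝ) : ℂ))‖ ≤
      Real.pi * S ^ 2 * ((4 + 4 * kap η S) / (1 + (S ^ 2 * ‖V‖ / (8 * t)) ^ 2) +
        kap η S ^ 2 / Real.sqrt (1 + (S ^ 2 * ‖V‖ / (8 * t)) ^ 2)) := by
  set v : ℂ := ((1 / (8 * t) : ℝ) : ℂ) * conj V with hv
  set q : ℂ := ((-(η / (2 * t)) : ℝ) : ℂ) * conj p with hq
  have hvn : ‖v‖ = ‖V‖ / (8 * t) := by
    rw [hv, norm_mul, Complex.norm_real, Complex.norm_conj, Real.norm_of_nonneg (by positivity)]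
    ring
  have hqn : ‖q‖ = |η| * ‖p‖ / (2 * t) := by
    rw [hq, norm_mul, Complex.norm_real, Complex.norm_conj, Real.norm_eq_abs, abs_neg, abs_div,
      abs_of_pos (by positivity : 0 < 2 * t)]
    ring
  obtain ⟨α, β, hα, hβ, hab, H⟩ := gauss_gen v q
  set w : ℝ := S ^ 2 * ‖V‖ / (8 * t) with hw
  have hwv : w = S ^ 2 * ‖v‖ := by rw [hw, hvn]; ring
  have hS2 : (0 : ℝ) < S ^ 2 := by positivity
  -- the value for each parameter
  have key : ∀ l : ℝ, 0 < l →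
      ∫ z : ℂ, cexp (-((l / S ^ 2 : ℝ) : ℂ) * ((‖z‖ ^ 2 : ℝ) : ℂ) +
        I * ((((z ^ 2 * v).re + (z * q).re : ℝ)) : ℂ)) =
      ((Real.pi * S ^ 2 : ℝ) : ℂ) * Ff w (S ^ 2 * α) (S ^ 2 * β) l := by
    intro l hl
    rw [H (l / S ^ 2) (by positivity)]
    unfold Ff gf Xf
    have e1 : Real.pi / Real.sqrt ((l / S ^ 2) ^ 2 + ‖v‖ ^ 2) =
        Real.pi * S ^ 2 * (Real.sqrt (l ^ 2 + w ^ 2))⁻¹ := by
      have : (l / S ^ 2) ^ 2 + ‖v‖ ^ 2 = (l ^ 2 + w ^ 2) / (S ^ 2) ^ 2 := by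
        rw [hwv]; field_simp
      rw [this, Real.sqrt_div (by positivity), Real.sqrt_sq hS2.le]
      have h3 : √(l ^ 2 + w ^ 2) ≠ 0 := (Real.sqrt_pos.2 (by positivity)).ne'
      field_simp
    have hSc : ((S : ℂ)) ^ 2 ≠ 0 := by
      have : (S : ℂ) ≠ 0 := by exact_mod_cast hS.ne'
      exact pow_ne_zero 2 this
    have e2 : (α : ℂ) / (((l / S ^ 2 : ℝ) : ℂ) - I * ((‖v‖ : ℝ) : ℂ)) =
        ((S ^ 2 * α : ℝ) : ℂ) / ((l : ℂ) - I * (w : ℂ)) := by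
      have h1 : ((l : ℂ) - I * (w : ℂ)) = (S : ℂ) ^ 2 * (((l / S ^ 2 : ℝ) : ℂ) - I * ((‖v‖ : ℝ) : ℂ)) := by
        rw [hwv]
        push_cast
        rw [mul_sub, mul_div_cancel₀ _ hSc]
        ring
      rw [h1]
      push_cast
      rw [mul_div_mul_left _ _ hSc]
    have e3 : (β : ℂ) / (((l / S ^ 2 : ℝ) : ℂ) + I * ((‖v‖ : ℝ) : ℂ)) =
        ((S ^ 2 * β : ℝ) : ℂ) / ((l : ℂ) + I * (w : ℂ)) := by
      have h1 : ((l : ℂ) + I * (w : ℂ)) = (S : ℂ) ^ 2 * (((l / S ^ 2 : ℝ) : ℂ) + I * ((‖v‖ : ℝ) : ℂ)) := by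
        rw [hwv]
        push_cast
        rw [mul_add, mul_div_cancel₀ _ hSc]
        ring
      rw [h1]
      push_cast
      rw [mul_div_mul_left _ _ hSc]
    rw [e1, e2, e3]
    push_cast
    ring
  -- integrability
  have hint : ∀ l : ℝ, 0 < l → Integrable fun z : ℂ =>
      cexp (-((l / S ^ 2 : ℝ) : ℂ) * ((‖z‖ ^ 2 : ℝ) : ℂ) +
        I * ((((z ^ 2 * v).re + (z * q).re : ℝ)) : ℂ)) := by
    intro l hl
    refine (exp_int (l / S ^ 2) (by positivity)).mono' ?_ (Filter.Eventually.of_forall fun z => ?_)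
    · refine Continuous.aestronglyMeasurable ?_
      fun_prop
    · rw [Complex.norm_exp]
      refine le_of_eq ?_
      congr 1
      rw [Complex.add_re, Complex.I_mul_re, Complex.ofReal_im, neg_zero, add_zero,
        ← Complex.ofReal_neg, ← Complex.ofReal_mul, Complex.ofReal_re]
  have hsum : ∫ z : ℂ, (Wt S z : ℂ) * cexp (I * ((1 / (8 * t) * (z ^ 2 * conj V).re -
        η / (2 * t) * (z * conj p).re : ℝ) : ℂ)) =
      ((Real.pi * S ^ 2 : ℝ) : ℂ) * (Ff w (S ^ 2 * α) (S ^ 2 * β) 3 -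
        2 * Ff w (S ^ 2 * α) (S ^ 2 * β) 2 + Ff w (S ^ 2 * α) (S ^ 2 * β) 1) := by
    have h1 := key 1 one_pos
    have h2 := key 2 two_pos
    have h3 := key 3 three_pos
    have i3 := hint 3 three_pos
    have i2 := hint 2 two_pos
    have i1 := hint 1 one_pos
    have hs1 := integral_sub i3 (i2.const_mul 2)
    have hs2 := integral_add (i3.sub (i2.const_mul 2)) i1
    simp only [Pi.sub_apply] at hs2
    rw [mul_add, mul_sub, mul_left_comm, ← h1, ← h2, ← h3, ← integral_const_mul,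
      ← hs1, ← hs2]
    refine integral_congr_ae (Filter.Eventually.of_forall fun z => ?_)
    simp only
    rw [Complex.exp_add, Complex.exp_add, Complex.exp_add]
    have e1 : (1 / (8 * t) * (z ^ 2 * conj V).re - η / (2 * t) * (z * conj p).re : ℝ) =
        (z ^ 2 * v).re + (z * q).re := by
      have a1 : z ^ 2 * v = ((1 / (8 * t) : ℝ) : ℂ) * (z ^ 2 * conj V) := by rw [hv]; ring
      have a2 : z * q = ((-(η / (2 * t)) : ℝ) : ℂ) * (z * conj p) := by rw [hq]; ring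
      rw [a1, a2, Complex.re_ofReal_mul, Complex.re_ofReal_mul]
      ring
    rw [e1]
    have e2 : ∀ l : ℝ, cexp (-((l / S ^ 2 : ℝ) : ℂ) * ((‖z‖ ^ 2 : ℝ) : ℂ)) =
        ((Real.exp (-(l / S ^ 2) * ‖z‖ ^ 2) : ℝ) : ℂ) := by
      intro l
      rw [Complex.ofReal_exp]
      congr 1
      push_cast
      ring
    rw [e2, e2, e2]
    unfold Wt
    push_cast
    ring
  rw [hsum, norm_mul, Complex.norm_real, Real.norm_of_nonneg (by positivity)]
  refine mul_le_mul_of_nonneg_left ?_ (by positivity)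
  refine F_second w (S ^ 2 * α) (S ^ 2 * β) (by positivity) (by positivity)
    (by unfold kap; positivity) ?_
  rw [← mul_add, hab, hqn, hw]
  unfold kap
  have h1 : ‖p‖ ^ 2 ≤ (2 * ‖V‖) ^ 2 := pow_le_pow_left₀ (norm_nonneg _) hp 2
  have h2 : S ^ 2 * ((|η| * ‖p‖ / (2 * t)) ^ 2 / 4) = S ^ 2 * η ^ 2 / (16 * t ^ 2) * ‖p‖ ^ 2 := by
    rw [div_pow, mul_pow, sq_abs]
    field_simp
    ring
  have h3 : 16 * η ^ 2 / S ^ 2 * (S ^ 2 * ‖V‖ / (8 * t)) ^ 2 =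
      S ^ 2 * η ^ 2 / (16 * t ^ 2) * (2 * ‖V‖) ^ 2 := by
    field_simp
    ring
  rw [h2, h3]
  exact mul_le_mul_of_nonneg_left h1 (by positivity)

end Pool.Agent.J4.H87.Ray
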