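import Mathlib
set_option autoImplicit false

/-! Rays: geometry of four directions. -/

namespace Pool.Agent.J4.H87.Ray

open MeasureTheory Complex Set
open scoped ENNReal ComplexConjugate

/-- the point of the unit circle -/
noncomputable def ec (x : ℝ) : ℂ := cexp ((x : ℂ) * I)

theorem ec_norm (x : ℝ) : ‖ec x‖ = 1 := Complex.norm_exp_ofReal_mul_I x

theorem ec_re (x : ℝ) : (ec x).re = Real.cos x := by
  unfold ec; exact Complex.exp_ofReal_mul_I_re x

theorem ec_im (x : ℝ) : (ec x).im = Real.sin x := by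
  unfold ec; exact Complex.exp_ofReal_mul_I_im x

/-- the signed sum of four points -/
noncomputable def sg4 (x : Fin 4 → ℝ) : ℂ := ec (x 0) + ec (x 1) - ec (x 2) - ec (x 3)

theorem sum_sq (a b c d : ℝ) :
    ‖ec a + ec b - ec c - ec d‖ ^ 2 =
      4 * ((Real.cos ((a - b) / 2) - Real.cos ((c - d) / 2)) ^ 2 +
        2 * Real.cos ((a - b) / 2) * Real.cos ((c - d) / 2) *
          (1 - Real.cos ((a + b) / 2 - (c + d) / 2))) := by
  rw [← Complex.normSq_eq_norm_sq, Complex.normSq_apply]
  simp only [Complex.add_re, Complex.sub_re, Complex.add_im, Complex.sub_im, ec_re, ec_im]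
  have h1 := Real.cos_add_cos a b
  have h2 := Real.cos_add_cos c d
  have h3 : Real.sin a + Real.sin b = 2 * Real.sin ((a + b) / 2) * Real.cos ((a - b) / 2) := by
    have ha : a = (a + b) / 2 + (a - b) / 2 := by ring
    have hb : b = (a + b) / 2 - (a - b) / 2 := by ring
    conv_lhs => rw [ha, hb]
    rw [Real.sin_add, Real.sin_sub]
    ring_nf
  have h4 : Real.sin c + Real.sin d = 2 * Real.sin ((c + d) / 2) * Real.cos ((c - d) / 2) := by
    have ha : c = (c + d) / 2 + (c - d) / 2 := by ring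
    have hb : d = (c + d) / 2 - (c - d) / 2 := by ring
    conv_lhs => rw [ha, hb]
    rw [Real.sin_add, Real.sin_sub]
    ring_nf
  have h5 := Real.cos_sub ((a + b) / 2) ((c + d) / 2)
  have e1 : Real.cos a + Real.cos b - Real.cos c - Real.cos d =
      2 * Real.cos ((a + b) / 2) * Real.cos ((a - b) / 2) -
        2 * Real.cos ((c + d) / 2) * Real.cos ((c - d) / 2) := by linarith
  have e2 : Real.sin a + Real.sin b - Real.sin c - Real.sin d =
      2 * Real.sin ((a + b) / 2) * Real.cos ((a - b) / 2) -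
        2 * Real.sin ((c + d) / 2) * Real.cos ((c - d) / 2) := by linarith
  rw [e1, e2, h5]
  have s1 := Real.sin_sq_add_cos_sq ((a + b) / 2)
  have s2 := Real.sin_sq_add_cos_sq ((c + d) / 2)
  linear_combination (4 * Real.cos ((a - b) / 2) ^ 2) * s1 + (4 * Real.cos ((c - d) / 2) ^ 2) * s2

theorem cos_ge {x : ℝ} (hx : |x| ≤ 1) : 1 / 2 ≤ Real.cos x := by
  have h1 : Real.cos 1 ≤ Real.cos x := by
    rw [← Real.cos_abs x]
    exact Real.cos_le_cos_of_nonneg_of_le_pi (abs_nonneg x) (by linarith [Real.pi_gt_three]) hx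
  have h2 : (1 : ℝ) / 2 ≤ Real.cos 1 := by
    have h3 : Real.cos (Real.pi / 3) ≤ Real.cos 1 := by
      refine Real.cos_le_cos_of_nonneg_of_le_pi zero_le_one (by linarith [Real.pi_pos]) ?_
      linarith [Real.pi_gt_three]
    rwa [Real.cos_pi_div_three] at h3
  linarith

/-- lower bound for the sine -/
theorem sin_ge {x : ℝ} (hx : |x| ≤ 1) : |x| / 2 ≤ |Real.sin x| := by
  have h1 : 2 / Real.pi * |x| ≤ |Real.sin x| := by
    have h0 : |x| ≤ Real.pi / 2 := hx.trans (by linarith [Real.pi_gt_three])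
    have h2 := Real.mul_le_sin (abs_nonneg x) h0
    rcases abs_cases x with ⟨h, _⟩ | ⟨h, _⟩
    · rw [h] at h2 ⊢; exact h2.trans (le_abs_self _)
    · rw [h] at h2 ⊢
      rw [Real.sin_neg] at h2
      exact h2.trans (neg_le_abs _)
  refine le_trans ?_ h1
  rw [div_mul_eq_mul_div, div_le_div_iff₀ two_pos Real.pi_pos]
  nlinarith [Real.pi_lt_four, abs_nonneg x]

section
variable {x y z w : ℝ} (h12 : |x - y| ≤ 1) (h34 : |z - w| ≤ 1) (h13 : |x - z| ≤ 1)
  (h24 : |y - w| ≤ 1)

/-- the phase sum for the doubled angles -/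
noncomputable def V4 (x y z w : ℝ) : ℂ := ec (2 * x) + ec (2 * y) - ec (2 * z) - ec (2 * w)

/-- the phase sum for the angles -/
noncomputable def p4 (x y z w : ℝ) : ℂ := ec x + ec y - ec z - ec w

theorem V4_sq : ‖V4 x y z w‖ ^ 2 =
    4 * ((Real.cos (x - y) - Real.cos (z - w)) ^ 2 +
      2 * Real.cos (x - y) * Real.cos (z - w) * (1 - Real.cos (x + y - (z + w)))) := by
  unfold V4
  rw [sum_sq]
  have e1 : (2 * x - 2 * y) / 2 = x - y := by ring
  have e2 : (2 * z - 2 * w) / 2 = z - w := by ring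
  have e3 : (2 * x + 2 * y) / 2 - (2 * z + 2 * w) / 2 = x + y - (z + w) := by ring
  rw [e1, e2, e3]

include h12 h34

theorem V4_ge1 : ‖V4 x y z w‖ ≥ |x - y + (z - w)| * |x - y - (z - w)| / 4 := by
  have h1 : (2 * (Real.cos (x - y) - Real.cos (z - w))) ^ 2 ≤ ‖V4 x y z w‖ ^ 2 := by
    rw [V4_sq]
    have ha := cos_ge h12
    have hb := cos_ge h34
    have hc := Real.cos_le_one (x + y - (z + w))
    have : 0 ≤ 2 * Real.cos (x - y) * Real.cos (z - w) * (1 - Real.cos (x + y - (z + w))) := by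
      apply mul_nonneg
      · positivity
      · linarith
    nlinarith
  have h2 : |2 * (Real.cos (x - y) - Real.cos (z - w))| ≤ ‖V4 x y z w‖ := by
    have := sq_le_sq.1 h1
    rwa [abs_of_nonneg (norm_nonneg (V4 x y z w))] at this
  have h3 : |(x - y + (z - w)) / 2| ≤ 1 := by
    rw [abs_div, abs_two, div_le_one two_pos]
    exact (abs_add_le _ _).trans (by linarith)
  have h4 : |(x - y - (z - w)) / 2| ≤ 1 := by
    rw [abs_div, abs_two, div_le_one two_pos]
    exact (abs_sub _ _).trans (by linarith)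
  have h5 := sin_ge h3
  have h6 := sin_ge h4
  have h7 := Real.cos_sub_cos (x - y) (z - w)
  rw [h7] at h2
  have h8 : |2 * (-2 * Real.sin ((x - y + (z - w)) / 2) * Real.sin ((x - y - (z - w)) / 2))| =
      4 * (|Real.sin ((x - y + (z - w)) / 2)| * |Real.sin ((x - y - (z - w)) / 2)|) := by
    rw [abs_mul, abs_mul, abs_mul, abs_neg, abs_two]
    ring
  rw [h8] at h2
  have h9 := mul_le_mul h5 h6 (by positivity) (by positivity)
  rw [abs_div, abs_div, abs_two] at h9
  have h10 : |x - y + (z - w)| / 2 / 2 * (|x - y - (z - w)| / 2 / 2) =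
      |x - y + (z - w)| * |x - y - (z - w)| / 16 := by ring
  rw [h10] at h9
  linarith

include h13 h24

theorem V4_ge2 : ‖V4 x y z w‖ ≥ |x + y - (z + w)| / 2 := by
  have hD : |(x + y - (z + w)) / 2| ≤ 1 := by
    rw [abs_div, abs_two, div_le_one two_pos]
    have : x + y - (z + w) = (x - z) + (y - w) := by ring
    rw [this]
    exact (abs_add_le _ _).trans (by linarith)
  have h1 : (|x + y - (z + w)| / 2) ^ 2 ≤ ‖V4 x y z w‖ ^ 2 := by
    rw [V4_sq]
    have ha := cos_ge h12
    have hb := cos_ge h34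
    have hs := sin_ge hD
    have h2 : 1 - Real.cos (x + y - (z + w)) = 2 * |Real.sin ((x + y - (z + w)) / 2)| ^ 2 := by
      rw [sq_abs]
      have := Real.cos_two_mul ((x + y - (z + w)) / 2)
      have h3 := Real.sin_sq_add_cos_sq ((x + y - (z + w)) / 2)
      rw [show 2 * ((x + y - (z + w)) / 2) = x + y - (z + w) by ring] at this
      linarith
    rw [h2]
    have h4 : 1 / 4 ≤ Real.cos (x - y) * Real.cos (z - w) := by nlinarith
    have h5 : (|x + y - (z + w)| / 2 / 2) ^ 2 ≤ |Real.sin ((x + y - (z + w)) / 2)| ^ 2 := by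
      rw [abs_div, abs_two] at hs
      exact pow_le_pow_left₀ (by positivity) hs 2
    have h6 : 0 ≤ |Real.sin ((x + y - (z + w)) / 2)| ^ 2 := by positivity
    nlinarith [sq_nonneg (Real.cos (x - y) - Real.cos (z - w)),
      mul_le_mul h4 (le_refl (|Real.sin ((x + y - (z + w)) / 2)| ^ 2)) h6 (by positivity)]
  have := sq_le_sq.1 h1
  rwa [abs_of_nonneg (norm_nonneg (V4 x y z w)), abs_of_nonneg (by positivity)] at this

theorem p4_le : ‖p4 x y z w‖ ≤ 2 * ‖V4 x y z w‖ := by
  have hD : |(x + y - (z + w)) / 2| ≤ 1 := by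
    rw [abs_div, abs_two, div_le_one two_pos]
    have : x + y - (z + w) = (x - z) + (y - w) := by ring
    rw [this]
    exact (abs_add_le _ _).trans (by linarith)
  have h1 : ‖p4 x y z w‖ ^ 2 ≤ (2 * ‖V4 x y z w‖) ^ 2 := by
    rw [mul_pow, V4_sq]
    unfold p4
    rw [sum_sq]
    have e3 : (x + y) / 2 - (z + w) / 2 = (x + y - (z + w)) / 2 := by ring
    rw [e3]
    have ha := cos_ge h12
    have hb := cos_ge h34
    have hc := cos_ge hD
    have h12' : |(x - y) / 2| ≤ 1 := by rw [abs_div, abs_two]; linarith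
    have h34' : |(z - w) / 2| ≤ 1 := by rw [abs_div, abs_two]; linarith
    have ha2 := cos_ge h12'
    have hb2 := cos_ge h34'
    have ha1 := Real.cos_le_one ((x - y) / 2)
    have hb1 := Real.cos_le_one ((z - w) / 2)
    have hc1 := Real.cos_le_one ((x + y - (z + w)) / 2)
    have c1 : Real.cos (x - y) = 2 * Real.cos ((x - y) / 2) ^ 2 - 1 := by
      rw [← Real.cos_two_mul]; congr 1; ring
    have c2 : Real.cos (z - w) = 2 * Real.cos ((z - w) / 2) ^ 2 - 1 := by
      rw [← Real.cos_two_mul]; congr 1; ring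
    have c3 : Real.cos (x + y - (z + w)) = 2 * Real.cos ((x + y - (z + w)) / 2) ^ 2 - 1 := by
      rw [← Real.cos_two_mul]; congr 1; ring
    set a : ℝ := Real.cos ((x - y) / 2) with hadef
    set b : ℝ := Real.cos ((z - w) / 2) with hbdef
    set c : ℝ := Real.cos ((x + y - (z + w)) / 2) with hcdef
    have k1 : (a - b) ^ 2 ≤ (Real.cos (x - y) - Real.cos (z - w)) ^ 2 := by
      rw [c1, c2]
      have : (2 * a ^ 2 - 1 - (2 * b ^ 2 - 1)) ^ 2 = (a - b) ^ 2 * (2 * (a + b)) ^ 2 := by ring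
      rw [this]
      refine le_mul_of_one_le_right (sq_nonneg _) ?_
      nlinarith
    have k2 : a * b * (1 - c) ≤ 4 * (Real.cos (x - y) * Real.cos (z - w) *
        (1 - Real.cos (x + y - (z + w)))) := by
      rw [c3]
      have h4 : 1 / 4 ≤ Real.cos (x - y) * Real.cos (z - w) := by nlinarith
      have h5 : a * b ≤ 1 := by nlinarith
      have h6 : 0 ≤ 1 - c := by linarith
      have h7 : 1 - (2 * c ^ 2 - 1) = 2 * (1 - c) * (1 + c) := by ring
      rw [h7]
      calc a * b * (1 - c) ≤ 1 * (1 - c) := mul_le_mul_of_nonneg_right h5 h6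
        _ ≤ 4 * (1 / 4 * (2 * (1 - c) * (1 + c))) := by nlinarith
        _ ≤ _ := by
            refine mul_le_mul_of_nonneg_left ?_ (by norm_num)
            refine mul_le_mul_of_nonneg_right h4 ?_
            have : 0 ≤ 1 + c := by linarith
            positivity
    nlinarith [sq_nonneg (Real.cos (x - y) - Real.cos (z - w))]
  have := sq_le_sq.1 h1
  rwa [abs_of_nonneg (norm_nonneg (p4 x y z w)), abs_of_nonneg (by positivity)] at this

/-- the product of the three linear forms -/
noncomputable def Qf (x y z w : ℝ) : ℝ :=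
  |x + y - (z + w)| * (|x - y + (z - w)| * |x - y - (z - w)|)

theorem V4_Q : Qf x y z w / 8 ≤ ‖V4 x y z w‖ ^ 2 := by
  have h1 := V4_ge1 h12 h34
  have h2 := V4_ge2 h12 h34 h13 h24
  unfold Qf
  have h3 := mul_le_mul h2 h1 (by positivity) (norm_nonneg _)
  nlinarith

end

end Pool.Agent.J4.H87.Ray
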