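import Mathlib
import Pool.Agent.J4.H87.RayD
set_option autoImplicit false

/-! Rays: the singular integral over four directions. -/

namespace Pool.Agent.J4.H87.Ray

open MeasureTheory Complex Set
open scoped ENNReal ComplexConjugate

/-- the truncated singularity -/
noncomputable def sing (s x : ℝ) : ℝ≥0∞ :=
  (Icc (-2 : ℝ) 2).indicator (fun x => ENNReal.ofReal |x| ^ (-s)) x

theorem sing_meas (s : ℝ) : Measurable (sing s) := by
  unfold sing
  refine Measurable.indicator ?_ measurableSet_Icc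
  fun_prop

theorem sing_of {s x : ℝ} (hx : |x| ≤ 2) : sing s x = ENNReal.ofReal |x| ^ (-s) := by
  unfold sing
  rw [indicator_of_mem]
  exact abs_le.1 hx

theorem sing_fin (s : ℝ) (hs : s < 1) : ∫⁻ x, sing s x ≠ ∞ := by
  unfold sing
  rw [lintegral_indicator measurableSet_Icc]
  have h1 : IntervalIntegrable (fun x : ℝ => x ^ (-s)) volume 0 2 :=
    intervalIntegral.intervalIntegrable_rpow' (by linarith)
  have h2 : IntervalIntegrable (fun x : ℝ => |x| ^ (-s)) volume 0 2 := by
    refine h1.congr fun x hx => ?_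
    rw [uIoc_of_le (by norm_num)] at hx
    show x ^ (-s) = |x| ^ (-s)
    rw [abs_of_pos hx.1]
  have h3 : IntervalIntegrable (fun x : ℝ => |x| ^ (-s)) volume (-2) 0 := by
    have := h2.comp_sub_left 0
    simp only [zero_sub, abs_neg, sub_self] at this
    exact this.symm
  have h4 := h3.trans h2
  have h5 : IntegrableOn (fun x : ℝ => |x| ^ (-s)) (Icc (-2) 2) := by
    rw [integrableOn_Icc_iff_integrableOn_Ioc]
    exact (intervalIntegrable_iff_integrableOn_Ioc_of_le (by norm_num)).1 h4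
  have h6 := h5.2
  rw [hasFiniteIntegral_iff_enorm] at h6
  refine (lt_of_le_of_lt (le_of_eq ?_) h6).ne
  refine lintegral_congr_ae ?_
  have h0 : ∀ᵐ x : ℝ ∂(volume.restrict (Icc (-2 : ℝ) 2)), x ≠ 0 :=
    ae_restrict_of_ae (by simp [ae_iff])
  filter_upwards [h0] with x hx
  have hx' : 0 < |x| := abs_pos.2 hx
  rw [← ofReal_norm, Real.norm_of_nonneg (Real.rpow_nonneg hx'.le _),
    ENNReal.ofReal_rpow_of_pos hx']

theorem scale2 (g : ℝ → ℝ≥0∞) (hg : Measurable g) (e : ℝ) :
    ∫⁻ z : ℝ, g (2 * z + e) ≤ ∫⁻ z, g z := by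
  have h1 := Real.smul_map_volume_mul_left (a := 2) two_ne_zero
  have h2 : ∫⁻ z : ℝ, g (2 * z + e) = ∫⁻ z, g (z + e) ∂(Measure.map (2 * ·) volume) := by
    have hm : Measurable fun z : ℝ => g (z + e) := hg.comp (measurable_id.add_const e)
    rw [lintegral_map hm (measurable_const_mul 2)]
  rw [h2]
  have h3 : Measure.map (2 * ·) (volume : Measure ℝ) ≤ volume := by
    conv_rhs => rw [← h1]
    rw [Measure.le_iff]
    intro s _
    rw [Measure.smul_apply, smul_eq_mul]
    refine le_mul_of_one_le_left zero_le ?_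
    rw [abs_two]
    simp
  calc ∫⁻ z, g (z + e) ∂(Measure.map (2 * ·) volume) ≤ ∫⁻ z, g (z + e) :=
        lintegral_mono' h3 le_rfl
    _ = ∫⁻ z, g z := lintegral_add_right_eq_self g e

theorem conv2 (f g : ℝ → ℝ≥0∞) (hf : Measurable f) (hg : Measurable g) (c d : ℝ) :
    ∫⁻ z : ℝ, ∫⁻ w : ℝ, f (c - (z + w)) * g (d + (z - w)) ≤ (∫⁻ x, f x) * ∫⁻ x, g x := by
  have h1 : ∀ z : ℝ, ∫⁻ w : ℝ, f (c - (z + w)) * g (d + (z - w)) =
      ∫⁻ w : ℝ, f w * g (2 * z + (d - c + w)) := by
    intro z
    have h := lintegral_sub_left_eq_self (μ := (volume : Measure ℝ))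
      (fun w : ℝ => f w * g (2 * z + (d - c + w))) (c - z)
    rw [← h]
    refine lintegral_congr fun w => ?_
    have e1 : c - (z + w) = c - z - w := by ring
    have e2 : d + (z - w) = 2 * z + (d - c + (c - z - w)) := by ring
    rw [e1, e2]
  simp_rw [h1]
  rw [lintegral_lintegral_swap]
  · calc ∫⁻ w : ℝ, ∫⁻ z : ℝ, f w * g (2 * z + (d - c + w))
        ≤ ∫⁻ w : ℝ, f w * ∫⁻ x, g x := by
          refine lintegral_mono fun w => ?_
          simp only
          have hm : Measurable fun z : ℝ => g (2 * z + (d - c + w)) := hg.comp (by fun_prop)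
          rw [lintegral_const_mul _ hm]
          exact mul_le_mul_right (scale2 g hg _) _
      _ = _ := by rw [lintegral_mul_const _ hf]
  · refine Measurable.aemeasurable ?_
    exact (hf.comp measurable_snd).mul (hg.comp (by fun_prop))

theorem conv2' (f g : ℝ → ℝ≥0∞) (hf : Measurable f) (hg : Measurable g) (c d : ℝ) :
    ∫⁻ z : ℝ, ∫⁻ w : ℝ, f (c - (z + w)) * g (d - (z - w)) ≤ (∫⁻ x, f x) * ∫⁻ x, g x := by
  have h := conv2 f (fun x => g (-x)) hf (hg.comp measurable_neg) c (-d)
  have h2 : ∫⁻ x, g (-x) = ∫⁻ x, g x := lintegral_neg_eq_self g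
  rw [h2] at h
  refine le_trans (le_of_eq ?_) h
  refine lintegral_congr fun z => lintegral_congr fun w => ?_
  have : -(-d + (z - w)) = d - (z - w) := by ring
  rw [this]

/-- pointwise domination -/
theorem Q_le {s : ℝ} (hs : 0 ≤ s) {a x y z w : ℝ} (hx : x ∈ Icc a (a + 1)) (hy : y ∈ Icc a (a + 1))
    (hz : z ∈ Icc a (a + 1)) (hw : w ∈ Icc a (a + 1)) :
    ENNReal.ofReal (Qf x y z w / 8) ^ (-s) ≤ 8 ^ s * (sing s (x - y) *
      (sing s (x + y - (z + w)) * sing s (x - y + (z - w)) +
        sing s (x + y - (z + w)) * sing s (x - y - (z - w)))) := by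
  have b : ∀ {u v : ℝ}, u ∈ Icc a (a + 1) → v ∈ Icc a (a + 1) → |u - v| ≤ 1 := by
    intro u v hu hv
    rw [abs_le]
    constructor <;> linarith [hu.1, hu.2, hv.1, hv.2]
  have hD : |x + y - (z + w)| ≤ 2 := by
    have : x + y - (z + w) = (x - z) + (y - w) := by ring
    rw [this]
    exact (abs_add_le _ _).trans (by linarith [b hx hz, b hy hw])
  have hP : |x - y + (z - w)| ≤ 2 := (abs_add_le _ _).trans (by linarith [b hx hy, b hz hw])
  have hN : |x - y - (z - w)| ≤ 2 := (abs_sub _ _).trans (by linarith [b hx hy, b hz hw])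
  have hxy : |x - y| ≤ 2 := (b hx hy).trans (by norm_num)
  rw [sing_of hD, sing_of hP, sing_of hN, sing_of hxy]
  unfold Qf
  rw [div_eq_mul_inv, ENNReal.ofReal_mul (by positivity), ENNReal.ofReal_mul (by positivity),
    ENNReal.ofReal_mul (by positivity)]
  set D := ENNReal.ofReal |x + y - (z + w)| with hDd
  set P := ENNReal.ofReal |x - y + (z - w)| with hPd
  set N := ENNReal.ofReal |x - y - (z - w)| with hNd
  set X := ENNReal.ofReal |x - y| with hXd
  have e8 : ENNReal.ofReal (8 : ℝ)⁻¹ = (8 : ℝ≥0∞)⁻¹ := by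
    rw [ENNReal.ofReal_inv_of_pos (by norm_num)]
    norm_num
  rw [e8, ENNReal.mul_rpow_of_ne_top (by
      exact ENNReal.mul_ne_top ENNReal.ofReal_ne_top (ENNReal.mul_ne_top ENNReal.ofReal_ne_top
        ENNReal.ofReal_ne_top)) (by norm_num),
    ENNReal.mul_rpow_of_ne_top ENNReal.ofReal_ne_top (ENNReal.mul_ne_top ENNReal.ofReal_ne_top
        ENNReal.ofReal_ne_top), ENNReal.mul_rpow_of_ne_top ENNReal.ofReal_ne_top
        ENNReal.ofReal_ne_top]
  have e9 : ((8 : ℝ≥0∞)⁻¹) ^ (-s) = 8 ^ s := by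
    rw [ENNReal.rpow_neg, ENNReal.inv_rpow, inv_inv]
  rw [e9, mul_comm _ ((8 : ℝ≥0∞) ^ s)]
  refine mul_le_mul_right ?_ _
  have hmax : X ≤ P ∨ X ≤ N := by
    by_contra hcon
    push Not at hcon
    have h1 : |x - y + (z - w)| < |x - y| := by
      by_contra h
      exact absurd (ENNReal.ofReal_le_ofReal (not_lt.1 h)) (not_le.2 hcon.1)
    have h2 : |x - y - (z - w)| < |x - y| := by
      by_contra h
      exact absurd (ENNReal.ofReal_le_ofReal (not_lt.1 h)) (not_le.2 hcon.2)
    have h3 : 2 * |x - y| ≤ |x - y + (z - w)| + |x - y - (z - w)| := by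
      have h4 := abs_add_le (x - y + (z - w)) (x - y - (z - w))
      rw [show x - y + (z - w) + (x - y - (z - w)) = 2 * (x - y) by ring, abs_mul, abs_two] at h4
      exact h4
    linarith
  have hanti : ∀ {p q : ℝ≥0∞}, p ≤ q → q ^ (-s) ≤ p ^ (-s) := fun {p q} hpq => by
    rw [ENNReal.rpow_neg, ENNReal.rpow_neg]
    exact ENNReal.inv_le_inv.2 (ENNReal.rpow_le_rpow hpq hs)
  rcases hmax with h | h
  · calc D ^ (-s) * (P ^ (-s) * N ^ (-s)) ≤ D ^ (-s) * (X ^ (-s) * N ^ (-s)) :=
          mul_le_mul' le_rfl (mul_le_mul' (hanti h) le_rfl)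
      _ = X ^ (-s) * (D ^ (-s) * N ^ (-s)) := by ring
      _ ≤ _ := by
          gcongr
          exact le_add_self
  · calc D ^ (-s) * (P ^ (-s) * N ^ (-s)) ≤ D ^ (-s) * (P ^ (-s) * X ^ (-s)) :=
          mul_le_mul' le_rfl (mul_le_mul' le_rfl (hanti h))
      _ = X ^ (-s) * (D ^ (-s) * P ^ (-s)) := by ring
      _ ≤ _ := by
          gcongr
          exact le_self_add

/-- the constant -/
noncomputable def Cs (s : ℝ) : ℝ≥0∞ := 8 ^ s * (2 * (∫⁻ x, sing s x) ^ 3)

theorem Cs_fin (s : ℝ) (hs : s < 1) (hs0 : 0 ≤ s) : Cs s ≠ ∞ := by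
  unfold Cs
  refine ENNReal.mul_ne_top (ENNReal.rpow_ne_top_of_nonneg hs0 (by norm_num))
    (ENNReal.mul_ne_top (by norm_num) (ENNReal.pow_ne_top (sing_fin s hs)))

theorem triple {s : ℝ} (hs : 0 ≤ s) {a x : ℝ} (hx : x ∈ Icc a (a + 1)) :
    ∫⁻ y in Icc a (a + 1), ∫⁻ z in Icc a (a + 1), ∫⁻ w in Icc a (a + 1),
      ENNReal.ofReal (Qf x y z w / 8) ^ (-s) ≤ Cs s := by
  have hm := sing_meas s
  set J : ℝ≥0∞ := ∫⁻ x, sing s x with hJ
  have hsx : ∫⁻ y : ℝ, sing s (x - y) = J := lintegral_sub_left_eq_self (sing s) x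
  calc ∫⁻ y in Icc a (a + 1), ∫⁻ z in Icc a (a + 1), ∫⁻ w in Icc a (a + 1),
      ENNReal.ofReal (Qf x y z w / 8) ^ (-s)
      ≤ ∫⁻ y in Icc a (a + 1), ∫⁻ z in Icc a (a + 1), ∫⁻ w in Icc a (a + 1),
        8 ^ s * (sing s (x - y) *
          (sing s (x + y - (z + w)) * sing s (x - y + (z - w)) +
            sing s (x + y - (z + w)) * sing s (x - y - (z - w)))) := by
        refine setLIntegral_mono' measurableSet_Icc fun y hy => ?_
        refine setLIntegral_mono' measurableSet_Icc fun z hz => ?_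
        exact setLIntegral_mono' measurableSet_Icc fun w hw => Q_le hs hx hy hz hw
    _ ≤ ∫⁻ y : ℝ, ∫⁻ z : ℝ, ∫⁻ w : ℝ,
        8 ^ s * (sing s (x - y) *
          (sing s (x + y - (z + w)) * sing s (x - y + (z - w)) +
            sing s (x + y - (z + w)) * sing s (x - y - (z - w)))) := by
        refine (setLIntegral_le_lintegral _ _).trans (lintegral_mono fun y => ?_)
        exact (setLIntegral_le_lintegral _ _).trans (lintegral_mono fun z =>
          setLIntegral_le_lintegral _ _)
    _ = ∫⁻ y : ℝ, 8 ^ s * (sing s (x - y) * ∫⁻ z : ℝ, ∫⁻ w : ℝ,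
          (sing s (x + y - (z + w)) * sing s (x - y + (z - w)) +
            sing s (x + y - (z + w)) * sing s (x - y - (z - w)))) := by
        refine lintegral_congr fun y => ?_
        have m1 : Measurable fun p : ℝ × ℝ => (sing s (x + y - (p.1 + p.2)) *
            sing s (x - y + (p.1 - p.2)) +
            sing s (x + y - (p.1 + p.2)) * sing s (x - y - (p.1 - p.2))) := by fun_prop
        have m2 : Measurable fun z : ℝ => ∫⁻ w : ℝ, (sing s (x + y - (z + w)) *
            sing s (x - y + (z - w)) +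
            sing s (x + y - (z + w)) * sing s (x - y - (z - w))) := m1.lintegral_prod_right'
        rw [← lintegral_const_mul _ m2, ← lintegral_const_mul _ (m2.const_mul _)]
        refine lintegral_congr fun z => ?_
        have m3 : Measurable fun w : ℝ => (sing s (x + y - (z + w)) *
            sing s (x - y + (z - w)) +
            sing s (x + y - (z + w)) * sing s (x - y - (z - w))) :=
          m1.comp (measurable_const.prodMk measurable_id)
        rw [← lintegral_const_mul _ m3, ← lintegral_const_mul _ (m3.const_mul _)]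
    _ ≤ ∫⁻ y : ℝ, 8 ^ s * (sing s (x - y) * (2 * J ^ 2)) := by
        refine lintegral_mono fun y => ?_
        simp only
        gcongr
        have m1 : Measurable fun p : ℝ × ℝ => sing s (x + y - (p.1 + p.2)) *
            sing s (x - y + (p.1 - p.2)) := by fun_prop
        calc ∫⁻ z : ℝ, ∫⁻ w : ℝ,
          (sing s (x + y - (z + w)) * sing s (x - y + (z - w)) +
            sing s (x + y - (z + w)) * sing s (x - y - (z - w)))
            = ∫⁻ z : ℝ, ((∫⁻ w : ℝ, sing s (x + y - (z + w)) * sing s (x - y + (z - w))) +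
              ∫⁻ w : ℝ, sing s (x + y - (z + w)) * sing s (x - y - (z - w))) := by
              refine lintegral_congr fun z => ?_
              have m2 : Measurable fun w : ℝ => sing s (x + y - (z + w)) * sing s (x - y + (z - w)) :=
                m1.comp (measurable_const.prodMk measurable_id)
              rw [lintegral_add_left m2]
          _ = (∫⁻ z : ℝ, ∫⁻ w : ℝ, sing s (x + y - (z + w)) * sing s (x - y + (z - w))) +
              ∫⁻ z : ℝ, ∫⁻ w : ℝ, sing s (x + y - (z + w)) * sing s (x - y - (z - w)) := by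
              rw [lintegral_add_left m1.lintegral_prod_right']
          _ ≤ J * J + J * J := add_le_add (conv2 _ _ hm hm _ _) (conv2' _ _ hm hm _ _)
          _ = 2 * J ^ 2 := by ring
    _ = Cs s := by
        rw [lintegral_const_mul _ (by fun_prop), lintegral_mul_const _ (by fun_prop), hsx]
        unfold Cs
        rw [← hJ]
        ring

end Pool.Agent.J4.H87.Ray
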