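import Mathlib
set_option autoImplicit false

/-! Rays: the weighted square of an oscillatory integral operator. -/

namespace Pool.Agent.J4.H87.Ray

open MeasureTheory Complex Set
open scoped ENNReal ComplexConjugate

theorem tts {X Z : Type*} [MeasurableSpace X] [MeasurableSpace Z] (ν : Measure X) [SFinite ν]
    (μ : Measure Z) [SFinite μ] (b : X → ℂ) (hb : Integrable b ν) (E : X → Z → ℂ)
    (hE : Measurable (Function.uncurry E)) (hE1 : ∀ x z, ‖E x z‖ ≤ 1) (W : Z → ℝ)
    (hW : Integrable W μ) (hW0 : ∀ z, 0 ≤ W z) :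
    ∫⁻ z, ENNReal.ofReal (W z) * ‖∫ x, b x * E x z ∂ν‖ₑ ^ 2 ∂μ ≤
      ∫⁻ x, ∫⁻ y, ‖b x‖ₑ * ‖b y‖ₑ * ‖∫ z, (W z : ℂ) * (E x z * conj (E y z)) ∂μ‖ₑ ∂ν ∂ν := by
  set G : Z → ℂ := fun z => ∫ x, b x * E x z ∂ν with hG
  -- joint integrability
  have hcE : Measurable fun q : Z × (X × X) => E q.2.1 q.1 :=
    hE.comp (measurable_snd.fst.prodMk measurable_fst)
  have hcE2 : Measurable fun q : Z × (X × X) => conj (E q.2.2 q.1) :=
    Complex.continuous_conj.measurable.comp (hE.comp (measurable_snd.snd.prodMk measurable_fst))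
  have hWc : Integrable (fun z => (W z : ℂ)) μ := hW.ofReal
  have hb2 : Integrable (fun p : X × X => b p.1 * conj (b p.2)) (ν.prod ν) := by
    refine Integrable.mul_prod (f := b) (g := fun y => conj (b y)) hb ?_
    exact (Complex.conjCLE : ℂ ≃L[ℝ] ℂ).integrable_comp_iff.2 hb
  have hF0 : Integrable (fun q : Z × (X × X) => (W q.1 : ℂ) * (b q.2.1 * conj (b q.2.2)))
      (μ.prod (ν.prod ν)) := Integrable.mul_prod (f := fun z => (W z : ℂ))
        (g := fun p : X × X => b p.1 * conj (b p.2)) hWc hb2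
  have hF : Integrable (fun q : Z × (X × X) => (W q.1 : ℂ) * (b q.2.1 * conj (b q.2.2)) *
      (E q.2.1 q.1 * conj (E q.2.2 q.1))) (μ.prod (ν.prod ν)) := by
    refine hF0.mul_bdd (c := 1) (hcE.mul hcE2).aestronglyMeasurable
      (Filter.Eventually.of_forall fun q => ?_)
    rw [norm_mul, Complex.norm_conj]
    exact mul_le_one₀ (hE1 _ _) (norm_nonneg _) (hE1 _ _)
  -- the square
  have hsq : ∀ z, ((‖G z‖ ^ 2 : ℝ) : ℂ) = ∫ p : X × X, (b p.1 * conj (b p.2)) *
      (E p.1 z * conj (E p.2 z)) ∂(ν.prod ν) := by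
    intro z
    have h1 : ((‖G z‖ ^ 2 : ℝ) : ℂ) = G z * conj (G z) := by
      rw [Complex.mul_conj, Complex.normSq_eq_norm_sq]
    rw [h1]
    have h2 : conj (G z) = ∫ y, conj (b y * E y z) ∂ν := integral_conj.symm
    rw [h2]
    have h3 := integral_prod_mul (μ := ν) (ν := ν) (fun x => b x * E x z)
      (fun y => conj (b y * E y z))
    rw [← h3]
    refine integral_congr_ae (Filter.Eventually.of_forall fun p => ?_)
    simp only [map_mul]
    ring
  have hGm : AEStronglyMeasurable G μ := by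
    have h4 : AEStronglyMeasurable (fun p : Z × X => b p.2 * E p.2 p.1) (μ.prod ν) :=
      hb.aestronglyMeasurable.comp_snd.mul
        (hE.comp (measurable_snd.prodMk measurable_fst)).aestronglyMeasurable
    exact h4.integral_prod_right'
  -- integrability of `W ‖G‖²`
  have hWG : Integrable (fun z => W z * ‖G z‖ ^ 2) μ := by
    refine hW.mul_bdd (c := (∫ x, ‖b x‖ ∂ν) ^ 2) (hGm.norm.pow 2)
      (Filter.Eventually.of_forall fun z => ?_)
    rw [Real.norm_of_nonneg (by positivity)]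
    refine pow_le_pow_left₀ (norm_nonneg _) ?_ 2
    refine (norm_integral_le_integral_norm _).trans (integral_mono_of_nonneg
      (Filter.Eventually.of_forall fun x => norm_nonneg _) hb.norm
      (Filter.Eventually.of_forall fun x => ?_))
    simp only
    rw [norm_mul]
    exact mul_le_of_le_one_right (norm_nonneg _) (hE1 _ _)
  have hmain : ((∫ z, W z * ‖G z‖ ^ 2 ∂μ : ℝ) : ℂ) = ∫ p : X × X, (b p.1 * conj (b p.2)) *
      (∫ z, (W z : ℂ) * (E p.1 z * conj (E p.2 z)) ∂μ) ∂(ν.prod ν) := by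
    rw [← integral_complex_ofReal]
    have h5 : ∀ z, ((W z * ‖G z‖ ^ 2 : ℝ) : ℂ) = ∫ p : X × X, (W z : ℂ) * (b p.1 * conj (b p.2)) *
      (E p.1 z * conj (E p.2 z)) ∂(ν.prod ν) := by
      intro z
      rw [Complex.ofReal_mul, hsq, ← integral_const_mul]
      refine integral_congr_ae (Filter.Eventually.of_forall fun p => ?_)
      simp only
      ring
    simp_rw [h5]
    rw [integral_integral_swap hF]
    refine integral_congr_ae (Filter.Eventually.of_forall fun p => ?_)
    simp only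
    rw [← integral_const_mul]
    refine integral_congr_ae (Filter.Eventually.of_forall fun z => ?_)
    simp only
    ring
  have hleft : ∫⁻ z, ENNReal.ofReal (W z) * ‖G z‖ₑ ^ 2 ∂μ =
      ENNReal.ofReal (∫ z, W z * ‖G z‖ ^ 2 ∂μ) := by
    rw [ofReal_integral_eq_lintegral_ofReal hWG
      (Filter.Eventually.of_forall fun z => mul_nonneg (hW0 z) (by positivity))]
    refine lintegral_congr fun z => ?_
    rw [ENNReal.ofReal_mul (hW0 z), ENNReal.ofReal_pow (norm_nonneg _), ofReal_norm]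
  rw [hleft]
  have hreal : ENNReal.ofReal (∫ z, W z * ‖G z‖ ^ 2 ∂μ) ≤
      ‖((∫ z, W z * ‖G z‖ ^ 2 ∂μ : ℝ) : ℂ)‖ₑ := by
    rw [← ofReal_norm, Complex.norm_real]
    exact ENNReal.ofReal_le_ofReal (Real.le_norm_self _)
  refine hreal.trans ?_
  rw [hmain]
  refine (enorm_integral_le_lintegral_enorm _).trans ?_
  refine (lintegral_prod_le _).trans (le_of_eq ?_)
  refine lintegral_congr fun x => lintegral_congr fun y => ?_
  rw [enorm_mul, enorm_mul]
  congr 2
  rw [← ofReal_norm, ← ofReal_norm, Complex.norm_conj]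

end Pool.Agent.J4.H87.Ray
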