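import Mathlib
import Pool.Agent.J4.H87.RayC
import Pool.Agent.J4.H87.RayE
import Pool.Agent.J4.H87.RayF
set_option autoImplicit false

/-! Rays: the weighted fourth moment of the angular operator. -/

namespace Pool.Agent.J4.H87.Ray

open MeasureTheory Complex Set
open scoped ENNReal ComplexConjugate

/-- the component of `z` in the direction `θ` -/
noncomputable def uf (θ : ℝ) (z : ℂ) : ℝ := (z * conj (ec θ)).re

theorem uf_eq (θ : ℝ) (z : ℂ) : uf θ z = z.re * Real.cos θ + z.im * Real.sin θ := by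
  unfold uf
  rw [Complex.mul_re, Complex.conj_re, Complex.conj_im, ec_re, ec_im]
  ring

theorem uf_meas : Measurable fun q : ℝ × ℂ => uf q.1 q.2 := by
  have : (fun q : ℝ × ℂ => uf q.1 q.2) = fun q : ℝ × ℂ =>
      q.2.re * Real.cos q.1 + q.2.im * Real.sin q.1 := by
    ext q; exact uf_eq _ _
  rw [this]
  fun_prop

theorem uf_sq (θ : ℝ) (z : ℂ) : uf θ z ^ 2 = (‖z‖ ^ 2 + (z ^ 2 * conj (ec (2 * θ))).re) / 2 := by
  rw [uf_eq, ← Complex.normSq_eq_norm_sq, Complex.normSq_apply, Complex.mul_re, Complex.conj_re,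
    Complex.conj_im, ec_re, ec_im, Real.cos_two_mul, Real.sin_two_mul, sq z, Complex.mul_re,
    Complex.mul_im]
  have := Real.sin_sq_add_cos_sq θ
  linear_combination (z.im ^ 2) * this

/-- the phase -/
noncomputable def Ph (η t θ : ℝ) (z : ℂ) : ℝ := (uf θ z - η) ^ 2 / (4 * t)

theorem Ph_meas (η t : ℝ) : Measurable fun q : ℝ × ℂ => Ph η t q.1 q.2 := by
  unfold Ph
  exact ((uf_meas.sub_const η).pow_const 2).div_const _

/-- the oscillating factor -/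
noncomputable def eP (η t θ : ℝ) (z : ℂ) : ℂ := cexp (I * (Ph η t θ z : ℂ))

theorem eP_norm (η t θ : ℝ) (z : ℂ) : ‖eP η t θ z‖ = 1 := by
  unfold eP
  rw [mul_comm]
  exact Complex.norm_exp_ofReal_mul_I _

theorem eP_meas (η t : ℝ) : Measurable fun q : ℝ × ℂ => eP η t q.1 q.2 := by
  unfold eP
  exact Complex.measurable_exp.comp (measurable_const.mul
    (Complex.measurable_ofReal.comp (Ph_meas η t)))

/-- the angular operator -/
noncomputable def Tt (η t : ℝ) (a : ℝ → ℂ) (z : ℂ) : ℂ := ∫ θ, a θ * eP η t θ z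

theorem Ph_sum (η t : ℝ) (x y v w : ℝ) (z : ℂ) :
    Ph η t x z + Ph η t y z - Ph η t v z - Ph η t w z =
      1 / (8 * t) * (z ^ 2 * conj (V4 x y v w)).re - η / (2 * t) * (z * conj (p4 x y v w)).re := by
  have h1 : (z ^ 2 * conj (V4 x y v w)).re =
      2 * (uf x z ^ 2 + uf y z ^ 2 - uf v z ^ 2 - uf w z ^ 2) := by
    rw [uf_sq, uf_sq, uf_sq, uf_sq]
    unfold V4
    simp only [map_sub, map_add, mul_sub, mul_add, Complex.sub_re, Complex.add_re]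
    ring
  have h2 : (z * conj (p4 x y v w)).re = uf x z + uf y z - uf v z - uf w z := by
    unfold p4 uf
    simp only [map_sub, map_add, mul_sub, mul_add, Complex.sub_re, Complex.add_re]
  rw [h1, h2]
  unfold Ph
  rcases eq_or_ne t 0 with ht | ht
  · rw [ht]; simp
  · field_simp
    ring

theorem dec {s x y : ℝ} (hs : 0 < s) (hy : 0 ≤ y) (hxy : y ≤ x) :
    ENNReal.ofReal ((1 + x) ^ (-s)) ≤ ENNReal.ofReal y ^ (-s) := by
  rcases hy.eq_or_lt with h | h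
  · rw [← h, ENNReal.ofReal_zero, ENNReal.zero_rpow_of_neg (by linarith)]
    exact le_top
  · rw [ENNReal.ofReal_rpow_of_pos h]
    exact ENNReal.ofReal_le_ofReal (Real.rpow_le_rpow_of_nonpos h (by linarith) (by linarith))

/-- the bound for the kernel, in terms of the three linear forms -/
theorem kern_Q (t S η s : ℝ) (ht : 0 < t) (hS : 0 < S) (hs0 : 0 < s) (hs1 : s ≤ 1)
    {a x y v w : ℝ} (hx : x ∈ Icc a (a + 1)) (hy : y ∈ Icc a (a + 1)) (hv : v ∈ Icc a (a + 1))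
    (hw : w ∈ Icc a (a + 1)) :
    ‖∫ z : ℂ, (Wt S z : ℂ) * cexp (I * ((1 / (8 * t) * (z ^ 2 * conj (V4 x y v w)).re -
        η / (2 * t) * (z * conj (p4 x y v w)).re : ℝ) : ℂ))‖ₑ ≤
      ENNReal.ofReal (Real.pi * S ^ 2 * (4 + 4 * kap η S)) *
          ENNReal.ofReal ((S ^ 2 / (8 * t)) ^ 2) ^ (-s) * ENNReal.ofReal (Qf x y v w / 8) ^ (-s) +
        ENNReal.ofReal (Real.pi * S ^ 2 * kap η S ^ 2) *
          ENNReal.ofReal ((S ^ 2 / (8 * t)) ^ 2) ^ (-(1 / 2) : ℝ) *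
            ENNReal.ofReal (Qf x y v w / 8) ^ (-(1 / 2) : ℝ) := by
  have b : ∀ {u v : ℝ}, u ∈ Icc a (a + 1) → v ∈ Icc a (a + 1) → |u - v| ≤ 1 := by
    intro u v hu hv
    rw [abs_le]
    constructor <;> linarith [hu.1, hu.2, hv.1, hv.2]
  have hp := p4_le (b hx hy) (b hv hw) (b hx hv) (b hy hw)
  have hQ := V4_Q (b hx hy) (b hv hw) (b hx hv) (b hy hw)
  have hk := kern t S η ht hS (V4 x y v w) (p4 x y v w) hp
  have hκ : 0 ≤ kap η S := by unfold kap; positivity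
  have hQ0 : 0 ≤ Qf x y v w / 8 := by unfold Qf; positivity
  set μ : ℝ := S ^ 2 / (8 * t) with hμ
  have hμ0 : 0 < μ := by positivity
  have hwμ : S ^ 2 * ‖V4 x y v w‖ / (8 * t) = μ * ‖V4 x y v w‖ := by rw [hμ]; ring
  rw [hwμ] at hk
  set W2 : ℝ := (μ * ‖V4 x y v w‖) ^ 2 with hW2
  have hW20 : 0 ≤ W2 := by positivity
  have hQW : μ ^ 2 * (Qf x y v w / 8) ≤ W2 := by
    rw [hW2, mul_pow]
    exact mul_le_mul_of_nonneg_left hQ (by positivity)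
  have hmulrpow : ∀ r : ℝ, ENNReal.ofReal (μ ^ 2 * (Qf x y v w / 8)) ^ (-r) =
      ENNReal.ofReal (μ ^ 2) ^ (-r) * ENNReal.ofReal (Qf x y v w / 8) ^ (-r) := by
    intro r
    rw [ENNReal.ofReal_mul (by positivity), ENNReal.mul_rpow_of_ne_top ENNReal.ofReal_ne_top
      ENNReal.ofReal_ne_top]
  have e1 : (1 + W2)⁻¹ ≤ (1 + W2) ^ (-s) := by
    rw [← Real.rpow_neg_one]
    exact Real.rpow_le_rpow_of_exponent_le (by linarith) (by linarith)
  have e2 : (Real.sqrt (1 + W2))⁻¹ = (1 + W2) ^ (-(1 / 2) : ℝ) := by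
    rw [Real.rpow_neg (by linarith), Real.sqrt_eq_rpow]
  have hbd : Real.pi * S ^ 2 * ((4 + 4 * kap η S) / (1 + W2) + kap η S ^ 2 / Real.sqrt (1 + W2)) ≤
      Real.pi * S ^ 2 * (4 + 4 * kap η S) * (1 + W2) ^ (-s) +
        Real.pi * S ^ 2 * kap η S ^ 2 * (1 + W2) ^ (-(1 / 2) : ℝ) := by
    rw [div_eq_mul_inv, div_eq_mul_inv, e2, mul_add]
    have h1 : Real.pi * S ^ 2 * ((4 + 4 * kap η S) * (1 + W2)⁻¹) ≤
        Real.pi * S ^ 2 * (4 + 4 * kap η S) * (1 + W2) ^ (-s) := by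
      rw [← mul_assoc]
      exact mul_le_mul_of_nonneg_left e1 (by positivity)
    linarith
  rw [← ofReal_norm]
  refine (ENNReal.ofReal_le_ofReal (hk.trans hbd)).trans ?_
  rw [ENNReal.ofReal_add (by positivity) (by positivity)]
  refine add_le_add ?_ ?_
  · rw [ENNReal.ofReal_mul (by positivity), mul_assoc (ENNReal.ofReal (Real.pi * S ^ 2 * _)),
      ← hmulrpow]
    exact mul_le_mul_right (dec hs0 (by positivity) hQW) _
  · rw [ENNReal.ofReal_mul (by positivity), mul_assoc (ENNReal.ofReal (Real.pi * S ^ 2 * _)),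
      ← hmulrpow]
    exact mul_le_mul_right (dec (by norm_num) (by positivity) hQW) _

/-- the constant of the fourth moment -/
noncomputable def KB (t S η s : ℝ) : ℝ≥0∞ :=
  ENNReal.ofReal (Real.pi * S ^ 2 * (4 + 4 * kap η S)) *
      ENNReal.ofReal ((S ^ 2 / (8 * t)) ^ 2) ^ (-s) * Cs s +
    ENNReal.ofReal (Real.pi * S ^ 2 * kap η S ^ 2) *
      ENNReal.ofReal ((S ^ 2 / (8 * t)) ^ 2) ^ (-(1 / 2) : ℝ) * Cs (1 / 2)

theorem Qf_meas : Measurable fun p : (ℝ × ℝ) × (ℝ × ℝ) => Qf p.1.1 p.1.2 p.2.1 p.2.2 := by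
  unfold Qf
  fun_prop

theorem Tt_sq (η t : ℝ) (a : ℝ → ℂ) (z : ℂ) :
    ∫ p : ℝ × ℝ, (a p.1 * a p.2) * (eP η t p.1 z * eP η t p.2 z) = Tt η t a z * Tt η t a z := by
  have h3 := integral_prod_mul (μ := (volume : Measure ℝ)) (ν := (volume : Measure ℝ))
    (fun θ => a θ * eP η t θ z) (fun θ => a θ * eP η t θ z)
  unfold Tt
  rw [← h3, Measure.volume_eq_prod]
  refine integral_congr_ae (Filter.Eventually.of_forall fun p => ?_)
  simp only
  ring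

theorem ind_one_meas (T : Set ℝ) (hT : MeasurableSet T) :
    Measurable (T.indicator (1 : ℝ → ℝ≥0∞)) := measurable_one.indicator hT

theorem iter2 (T U : Set ℝ) (hT : MeasurableSet T) (hU : MeasurableSet U) (F : ℝ × ℝ → ℝ≥0∞)
    (hF : Measurable F) :
    ∫⁻ q : ℝ × ℝ, T.indicator 1 q.1 * (U.indicator 1 q.2 * F q) =
      ∫⁻ v in T, ∫⁻ w in U, F (v, w) := by
  have m2 : Measurable fun q : ℝ × ℝ => T.indicator (1 : ℝ → ℝ≥0∞) q.1 *
      (U.indicator 1 q.2 * F q) :=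
    ((ind_one_meas T hT).comp measurable_fst).mul (((ind_one_meas U hU).comp measurable_snd).mul hF)
  rw [Measure.volume_eq_prod, lintegral_prod _ m2.aemeasurable, ← lintegral_indicator hT]
  refine lintegral_congr fun v => ?_
  by_cases hv : v ∈ T
  swap
  · rw [indicator_of_notMem hv]
    simp only [indicator_of_notMem hv, zero_mul, lintegral_zero]
  rw [indicator_of_mem hv]
  simp only [indicator_of_mem hv, Pi.one_apply, one_mul]
  rw [← lintegral_indicator hU]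
  refine lintegral_congr fun w => ?_
  by_cases hw : w ∈ U
  swap
  · rw [indicator_of_notMem hw, indicator_of_notMem hw, zero_mul]
  · rw [indicator_of_mem hw, indicator_of_mem hw, Pi.one_apply, one_mul]

theorem iter4 (A Θ : Set ℝ) (hA : MeasurableSet A) (hΘ : MeasurableSet Θ)
    (F : (ℝ × ℝ) × (ℝ × ℝ) → ℝ≥0∞) (hF : Measurable F) :
    ∫⁻ p : ℝ × ℝ, ∫⁻ q : ℝ × ℝ, A.indicator 1 p.1 * (Θ.indicator 1 p.2 *
          (Θ.indicator 1 q.1 * (Θ.indicator 1 q.2 * F (p, q)))) =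
      ∫⁻ x in A, ∫⁻ y in Θ, ∫⁻ v in Θ, ∫⁻ w in Θ, F ((x, y), (v, w)) := by
  have h1 : ∀ p : ℝ × ℝ, ∫⁻ q : ℝ × ℝ, A.indicator 1 p.1 * (Θ.indicator 1 p.2 *
          (Θ.indicator 1 q.1 * (Θ.indicator 1 q.2 * F (p, q)))) =
      A.indicator 1 p.1 * (Θ.indicator 1 p.2 * ∫⁻ v in Θ, ∫⁻ w in Θ, F (p, (v, w))) := by
    intro p
    have hm : Measurable fun q : ℝ × ℝ => F (p, q) := hF.comp (measurable_const.prodMk measurable_id)
    have m2 : Measurable fun q : ℝ × ℝ => Θ.indicator (1 : ℝ → ℝ≥0∞) q.1 *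
        (Θ.indicator 1 q.2 * F (p, q)) :=
      ((ind_one_meas Θ hΘ).comp measurable_fst).mul
        (((ind_one_meas Θ hΘ).comp measurable_snd).mul hm)
    rw [lintegral_const_mul _ (m2.const_mul _), lintegral_const_mul _ m2,
      iter2 Θ Θ hΘ hΘ (fun q => F (p, q)) hm]
  simp_rw [h1]
  have hG : Measurable fun p : ℝ × ℝ => ∫⁻ v in Θ, ∫⁻ w in Θ, F (p, (v, w)) := by
    have q2 : Measurable fun p : (ℝ × ℝ) × ℝ => ∫⁻ w in Θ, F (p.1, (p.2, w)) := by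
      refine Measurable.lintegral_prod_right' (f := fun p : ((ℝ × ℝ) × ℝ) × ℝ =>
        F (p.1.1, (p.1.2, p.2))) ?_
      exact hF.comp (measurable_fst.fst.prodMk (measurable_fst.snd.prodMk measurable_snd))
    exact q2.lintegral_prod_right'
  exact iter2 A Θ hA hΘ (fun p => ∫⁻ v in Θ, ∫⁻ w in Θ, F (p, (v, w))) hG

theorem iter3_const (Θ : Set ℝ) (G : ℝ × (ℝ × ℝ) → ℝ≥0∞) (hG : Measurable G) (cc : ℝ≥0∞) :
    ∫⁻ y in Θ, ∫⁻ v in Θ, ∫⁻ w in Θ, cc * G (y, (v, w)) =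
      cc * ∫⁻ y in Θ, ∫⁻ v in Θ, ∫⁻ w in Θ, G (y, (v, w)) := by
  have q2 : Measurable fun p : ℝ × ℝ => ∫⁻ w in Θ, G (p.1, (p.2, w)) := by
    refine Measurable.lintegral_prod_right' (f := fun p : (ℝ × ℝ) × ℝ =>
      G (p.1.1, (p.1.2, p.2))) ?_
    exact hG.comp (measurable_fst.fst.prodMk (measurable_fst.snd.prodMk measurable_snd))
  have q1 : Measurable fun y : ℝ => ∫⁻ v in Θ, ∫⁻ w in Θ, G (y, (v, w)) := q2.lintegral_prod_right'
  rw [← lintegral_const_mul _ q1]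
  refine lintegral_congr fun y => ?_
  have q3 : Measurable fun v : ℝ => ∫⁻ w in Θ, G (y, (v, w)) :=
    q2.comp (measurable_const.prodMk measurable_id)
  rw [← lintegral_const_mul _ q3]
  refine lintegral_congr fun v => ?_
  rw [← lintegral_const_mul]
  exact hG.comp (measurable_const.prodMk (measurable_const.prodMk measurable_id))

theorem iter3_add (Θ : Set ℝ) (G H : ℝ × (ℝ × ℝ) → ℝ≥0∞) (hG : Measurable G) :
    ∫⁻ y in Θ, ∫⁻ v in Θ, ∫⁻ w in Θ, (G (y, (v, w)) + H (y, (v, w))) =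
      (∫⁻ y in Θ, ∫⁻ v in Θ, ∫⁻ w in Θ, G (y, (v, w))) +
        ∫⁻ y in Θ, ∫⁻ v in Θ, ∫⁻ w in Θ, H (y, (v, w)) := by
  have q2 : Measurable fun p : ℝ × ℝ => ∫⁻ w in Θ, G (p.1, (p.2, w)) := by
    refine Measurable.lintegral_prod_right' (f := fun p : (ℝ × ℝ) × ℝ =>
      G (p.1.1, (p.1.2, p.2))) ?_
    exact hG.comp (measurable_fst.fst.prodMk (measurable_fst.snd.prodMk measurable_snd))
  have q1 : Measurable fun y : ℝ => ∫⁻ v in Θ, ∫⁻ w in Θ, G (y, (v, w)) := q2.lintegral_prod_right'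
  rw [← lintegral_add_left q1]
  refine lintegral_congr fun y => ?_
  have q3 : Measurable fun v : ℝ => ∫⁻ w in Θ, G (y, (v, w)) :=
    q2.comp (measurable_const.prodMk measurable_id)
  rw [← lintegral_add_left q3]
  refine lintegral_congr fun v => ?_
  rw [← lintegral_add_left]
  exact hG.comp (measurable_const.prodMk (measurable_const.prodMk measurable_id))

theorem phase_eq (η t : ℝ) (p q : ℝ × ℝ) (z : ℂ) :
    (eP η t p.1 z * eP η t p.2 z) * conj (eP η t q.1 z * eP η t q.2 z) =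
      cexp (I * ((1 / (8 * t) * (z ^ 2 * conj (V4 p.1 p.2 q.1 q.2)).re -
        η / (2 * t) * (z * conj (p4 p.1 p.2 q.1 q.2)).re : ℝ) : ℂ)) := by
  rw [← Ph_sum]
  unfold eP
  rw [map_mul, ← Complex.exp_conj, ← Complex.exp_conj, ← Complex.exp_add, ← Complex.exp_add,
    ← Complex.exp_add]
  congr 1
  simp only [map_mul, Complex.conj_I, Complex.conj_ofReal]
  push_cast
  ring

theorem unit_int (A : Set ℝ) (hA : MeasurableSet A) (hAv : volume A ≠ ∞) (a : ℝ → ℂ)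
    (ha : Measurable a) (ha1 : ∀ θ, ‖a θ‖ₑ ≤ A.indicator 1 θ) : Integrable a := by
  have h1 : Integrable (A.indicator fun _ : ℝ => (1 : ℝ)) := by
    rw [integrable_indicator_iff hA]
    exact integrableOn_const hAv
  refine h1.mono' ha.aestronglyMeasurable (Filter.Eventually.of_forall fun θ => ?_)
  have h2 := ha1 θ
  rw [← ofReal_norm] at h2
  by_cases hθ : θ ∈ A
  · rw [indicator_of_mem hθ] at h2 ⊢
    rw [Pi.one_apply, ← ENNReal.ofReal_one, ENNReal.ofReal_le_ofReal_iff zero_le_one] at h2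
    exact h2
  · rw [indicator_of_notMem hθ] at h2 ⊢
    have h3 : ENNReal.ofReal ‖a θ‖ = 0 := le_antisymm h2 zero_le
    rw [ENNReal.ofReal_eq_zero] at h3
    exact h3

/-- the two terms of the kernel bound -/
noncomputable def FK (t S η s : ℝ) (p : (ℝ × ℝ) × (ℝ × ℝ)) : ℝ≥0∞ :=
  ENNReal.ofReal (Real.pi * S ^ 2 * (4 + 4 * kap η S)) *
      ENNReal.ofReal ((S ^ 2 / (8 * t)) ^ 2) ^ (-s) *
        ENNReal.ofReal (Qf p.1.1 p.1.2 p.2.1 p.2.2 / 8) ^ (-s) +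
    ENNReal.ofReal (Real.pi * S ^ 2 * kap η S ^ 2) *
      ENNReal.ofReal ((S ^ 2 / (8 * t)) ^ 2) ^ (-(1 / 2) : ℝ) *
        ENNReal.ofReal (Qf p.1.1 p.1.2 p.2.1 p.2.2 / 8) ^ (-(1 / 2) : ℝ)

theorem Qs_meas (s : ℝ) : Measurable fun p : (ℝ × ℝ) × (ℝ × ℝ) =>
    ENNReal.ofReal (Qf p.1.1 p.1.2 p.2.1 p.2.2 / 8) ^ (-s) :=
  ((Qf_meas.div_const 8).ennreal_ofReal).pow_const _

theorem FK_meas (t S η s : ℝ) : Measurable (FK t S η s) :=
  ((Qs_meas s).const_mul _).add ((Qs_meas (1 / 2)).const_mul _)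

theorem FK_bound (t S η s : ℝ) (hs0 : 0 < s) {c x : ℝ} (hx : x ∈ Icc c (c + 1)) :
    ∫⁻ y in Icc c (c + 1), ∫⁻ v in Icc c (c + 1), ∫⁻ w in Icc c (c + 1),
      FK t S η s ((x, y), (v, w)) ≤ KB t S η s := by
  have g1 : Measurable fun q : ℝ × (ℝ × ℝ) => ((x, q.1), q.2) := by fun_prop
  have n1 : ∀ r : ℝ, Measurable fun q : ℝ × (ℝ × ℝ) =>
      ENNReal.ofReal (Qf x q.1 q.2.1 q.2.2 / 8) ^ (-r) := by
    intro r
    show Measurable ((fun p : (ℝ × ℝ) × (ℝ × ℝ) =>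
      ENNReal.ofReal (Qf p.1.1 p.1.2 p.2.1 p.2.2 / 8) ^ (-r)) ∘
        fun q : ℝ × (ℝ × ℝ) => ((x, q.1), q.2))
    exact (Qs_meas r).comp g1
  unfold FK KB
  simp only
  rw [iter3_add (Icc c (c + 1)) (fun q : ℝ × (ℝ × ℝ) =>
      ENNReal.ofReal (Real.pi * S ^ 2 * (4 + 4 * kap η S)) *
      ENNReal.ofReal ((S ^ 2 / (8 * t)) ^ 2) ^ (-s) *
        ENNReal.ofReal (Qf x q.1 q.2.1 q.2.2 / 8) ^ (-s)) (fun q : ℝ × (ℝ × ℝ) =>
      ENNReal.ofReal (Real.pi * S ^ 2 * kap η S ^ 2) *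
      ENNReal.ofReal ((S ^ 2 / (8 * t)) ^ 2) ^ (-(1 / 2) : ℝ) *
        ENNReal.ofReal (Qf x q.1 q.2.1 q.2.2 / 8) ^ (-(1 / 2) : ℝ)) ((n1 s).const_mul _),
    iter3_const (Icc c (c + 1)) (fun q : ℝ × (ℝ × ℝ) =>
        ENNReal.ofReal (Qf x q.1 q.2.1 q.2.2 / 8) ^ (-s)) (n1 s),
    iter3_const (Icc c (c + 1)) (fun q : ℝ × (ℝ × ℝ) =>
        ENNReal.ofReal (Qf x q.1 q.2.1 q.2.2 / 8) ^ (-(1 / 2) : ℝ)) (n1 (1 / 2))]
  exact add_le_add (mul_le_mul_right (triple hs0.le hx) _)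
    (mul_le_mul_right (triple (by norm_num) hx) _)

theorem pt_bound (t S η s : ℝ) (ht : 0 < t) (hS : 0 < S) (hs0 : 0 < s) (hs1 : s ≤ 1) (c : ℝ)
    (A : Set ℝ) (hAc : A ⊆ Icc c (c + 1)) (a : ℝ → ℂ)
    (ha1 : ∀ θ, ‖a θ‖ₑ ≤ A.indicator 1 θ) (p q : ℝ × ℝ) :
    ‖a p.1 * a p.2‖ₑ * ‖a q.1 * a q.2‖ₑ * ‖∫ z, (Wt S z : ℂ) *
      ((eP η t p.1 z * eP η t p.2 z) * conj (eP η t q.1 z * eP η t q.2 z))‖ₑ ≤
      A.indicator 1 p.1 * ((Icc c (c + 1)).indicator 1 p.2 * ((Icc c (c + 1)).indicator 1 q.1 *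
        ((Icc c (c + 1)).indicator 1 q.2 * FK t S η s (p, q)))) := by
  have hind : ∀ θ, ‖a θ‖ₑ ≤ (Icc c (c + 1)).indicator 1 θ := fun θ =>
    (ha1 θ).trans (indicator_le_indicator_of_subset hAc (fun _ => zero_le) θ)
  have hz : ∀ (T : Set ℝ) (θ : ℝ), (∀ θ, ‖a θ‖ₑ ≤ T.indicator 1 θ) → θ ∉ T → ‖a θ‖ₑ = 0 := by
    intro T θ h hθ
    have := h θ
    rw [indicator_of_notMem hθ] at this
    exact le_antisymm this zero_le
  rw [enorm_mul, enorm_mul]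
  by_cases hp1 : p.1 ∈ A
  swap
  · rw [hz A _ ha1 hp1, zero_mul, zero_mul, zero_mul]; exact zero_le
  by_cases hp2 : p.2 ∈ Icc c (c + 1)
  swap
  · rw [hz _ _ hind hp2, mul_zero, zero_mul, zero_mul]; exact zero_le
  by_cases hq1 : q.1 ∈ Icc c (c + 1)
  swap
  · rw [hz _ _ hind hq1, zero_mul, mul_zero, zero_mul]; exact zero_le
  by_cases hq2 : q.2 ∈ Icc c (c + 1)
  swap
  · rw [hz _ _ hind hq2, mul_zero, mul_zero, zero_mul]; exact zero_le
  rw [indicator_of_mem hp1, indicator_of_mem hp2, indicator_of_mem hq1, indicator_of_mem hq2]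
  simp only [Pi.one_apply, one_mul]
  have h1 : ∀ θ, ‖a θ‖ₑ ≤ 1 := by
    intro θ
    refine (ha1 θ).trans ?_
    by_cases hθ : θ ∈ A
    · rw [indicator_of_mem hθ]; rfl
    · rw [indicator_of_notMem hθ]; exact zero_le
  have h2 : ‖a p.1‖ₑ * ‖a p.2‖ₑ * (‖a q.1‖ₑ * ‖a q.2‖ₑ) ≤ 1 :=
    mul_le_one' (mul_le_one' (h1 _) (h1 _)) (mul_le_one' (h1 _) (h1 _))
  refine (mul_le_of_le_one_left zero_le h2).trans ?_
  simp_rw [phase_eq]
  exact kern_Q t S η s ht hS hs0 hs1 (hAc hp1) hp2 hq1 hq2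

theorem fourth (t S η s : ℝ) (ht : 0 < t) (hS : 0 < S) (hs0 : 0 < s) (hs1 : s ≤ 1) (c : ℝ)
    (A : Set ℝ) (hA : MeasurableSet A) (hAc : A ⊆ Icc c (c + 1)) (a : ℝ → ℂ) (ha : Measurable a)
    (ha1 : ∀ θ, ‖a θ‖ₑ ≤ A.indicator 1 θ) :
    ∫⁻ z, ENNReal.ofReal (Wt S z) * ‖Tt η t a z‖ₑ ^ 4 ≤ KB t S η s * volume A := by
  have hAvol : volume A ≠ ∞ := ((measure_mono hAc).trans_lt measure_Icc_lt_top).ne
  have hai : Integrable a := unit_int A hA hAvol a ha ha1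
  have hbi : Integrable (fun p : ℝ × ℝ => a p.1 * a p.2) (volume : Measure (ℝ × ℝ)) := by
    rw [Measure.volume_eq_prod]
    exact hai.mul_prod hai
  have hEm : Measurable (Function.uncurry fun (p : ℝ × ℝ) (z : ℂ) =>
      eP η t p.1 z * eP η t p.2 z) := by
    have g1 : Measurable fun r : (ℝ × ℝ) × ℂ => (r.1.1, r.2) := by fun_prop
    have g2 : Measurable fun r : (ℝ × ℝ) × ℂ => (r.1.2, r.2) := by fun_prop
    have h1 : Measurable fun r : (ℝ × ℝ) × ℂ => eP η t r.1.1 r.2 := by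
      show Measurable ((fun q : ℝ × ℂ => eP η t q.1 q.2) ∘ fun r : (ℝ × ℝ) × ℂ => (r.1.1, r.2))
      exact (eP_meas η t).comp g1
    have h2 : Measurable fun r : (ℝ × ℝ) × ℂ => eP η t r.1.2 r.2 := by
      show Measurable ((fun q : ℝ × ℂ => eP η t q.1 q.2) ∘ fun r : (ℝ × ℝ) × ℂ => (r.1.2, r.2))
      exact (eP_meas η t).comp g2
    exact h1.mul h2
  have hE1 : ∀ (p : ℝ × ℝ) (z : ℂ), ‖eP η t p.1 z * eP η t p.2 z‖ ≤ 1 := by
    intro p z
    rw [norm_mul, eP_norm, eP_norm, mul_one]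
  have hsq : ∀ z, ‖Tt η t a z‖ₑ ^ 4 =
      ‖∫ p : ℝ × ℝ, (a p.1 * a p.2) * (eP η t p.1 z * eP η t p.2 z)‖ₑ ^ 2 := by
    intro z
    rw [Tt_sq, enorm_mul]
    ring
  simp_rw [hsq]
  refine (tts volume volume _ hbi _ hEm hE1 (Wt S) (Wt_int S hS) (Wt_nonneg S)).trans ?_
  refine (lintegral_mono fun p => lintegral_mono fun q =>
    pt_bound t S η s ht hS hs0 hs1 c A hAc a ha1 p q).trans ?_
  rw [iter4 A (Icc c (c + 1)) hA measurableSet_Icc (FK t S η s) (FK_meas t S η s)]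
  calc ∫⁻ x in A, ∫⁻ y in Icc c (c + 1), ∫⁻ v in Icc c (c + 1), ∫⁻ w in Icc c (c + 1),
        FK t S η s ((x, y), (v, w))
      ≤ ∫⁻ x in A, KB t S η s := setLIntegral_mono' hA fun x hx => FK_bound t S η s hs0 (hAc hx)
    _ = KB t S η s * volume A := by rw [setLIntegral_const]

end Pool.Agent.J4.H87.Ray
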