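import Mathlib
import Pool.Agent.J4.H87.RayI
set_option autoImplicit false

/-! Rays: the nonstationary region. -/

namespace Pool.Agent.J4.H87.Ray

open MeasureTheory Complex Set Filter Topology
open scoped ENNReal ComplexConjugate

/-- the oscillating factor in the radius -/
noncomputable def gr (t u r : ℝ) : ℂ := ex (-(r * u + t * r ^ 2))

theorem gr_cont (t u : ℝ) : Continuous (gr t u) := by
  unfold gr
  exact ex_cont.comp (by fun_prop)

theorem gr_norm (t u r : ℝ) : ‖gr t u r‖ = 1 := ex_norm _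

theorem gr_deriv (t u r : ℝ) : HasDerivAt (gr t u) (-(I * ((u + 2 * t * r : ℝ) : ℂ)) * gr t u r) r := by
  unfold gr ex
  have h1 : HasDerivAt (fun x : ℝ => -(x * u + t * x ^ 2)) (-(1 * u + t * (2 * r))) r := by
    have h2 := ((hasDerivAt_id r).mul_const u).add (((hasDerivAt_id r).pow 2).const_mul t)
    have h3 := h2.neg
    refine h3.congr_deriv ?_
    simp
  have h4 := (h1.ofReal_comp.mul_const I).cexp
  refine h4.congr_deriv ?_
  push_cast
  ring

/-- its primitive -/
noncomputable def Gp (t u r : ℝ) : ℂ := ∫ x in (1 / 4 : ℝ)..r, gr t u x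

theorem Gp_deriv (t u r : ℝ) : HasDerivAt (Gp t u) (gr t u r) r :=
  (gr_cont t u).integral_hasStrictDerivAt (1 / 4) r |>.hasDerivAt

theorem Gp_lip (t u r τ : ℝ) : ‖Gp t u (r + τ) - Gp t u r‖ ≤ |τ| := by
  unfold Gp
  rw [intervalIntegral.integral_interval_sub_left ((gr_cont t u).intervalIntegrable _ _)
    ((gr_cont t u).intervalIntegrable _ _)]
  have := intervalIntegral.norm_integral_le_of_norm_le_const (a := r) (b := r + τ) (C := 1)
    (f := gr t u) (fun x _ => (gr_norm t u x).le)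
  simpa using this

theorem phd_ge {t u r : ℝ} (ht : 0 < t) (hu : |u| ≤ t / 4) (hr : 1 / 4 ≤ r) : t / 4 ≤ u + 2 * t * r := by
  have := (abs_le.1 hu).1
  nlinarith

theorem Gp_bd {t u r : ℝ} (ht : 0 < t) (hu : |u| ≤ t / 4) (hr : 1 / 4 ≤ r) (hr2 : r ≤ 2) :
    ‖Gp t u r‖ ≤ 64 / t := by
  have hpos : ∀ x ∈ Icc (1 / 4 : ℝ) r, 0 < u + 2 * t * x := fun x hx =>
    lt_of_lt_of_le (by positivity) (phd_ge ht hu hx.1)
  set F : ℝ → ℂ := fun x => gr t u x * (((u + 2 * t * x)⁻¹ : ℝ) : ℂ) with hF
  set W : ℝ → ℂ := fun x => gr t u x * ((-(2 * t) / (u + 2 * t * x) ^ 2 : ℝ) : ℂ) with hW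
  have hFd : ∀ x ∈ Icc (1 / 4 : ℝ) r, HasDerivAt F (-I * gr t u x + W x) x := by
    intro x hx
    have h0 := (hpos x hx).ne'
    have h1 : HasDerivAt (fun x : ℝ => (u + 2 * t * x)⁻¹) (-(2 * t) / (u + 2 * t * x) ^ 2) x := by
      have h2 : HasDerivAt (fun x : ℝ => u + 2 * t * x) (2 * t) x := by
        have := ((hasDerivAt_id x).const_mul (2 * t)).const_add u
        simpa using this
      exact h2.inv h0
    have h3 := (gr_deriv t u x).mul h1.ofReal_comp
    refine h3.congr_deriv ?_
    simp only [hW]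
    have h0c : ((u + 2 * t * x : ℝ) : ℂ) ≠ 0 := by exact_mod_cast h0
    have h4 : ((u + 2 * t * x : ℝ) : ℂ) * (((u + 2 * t * x)⁻¹ : ℝ) : ℂ) = 1 := by
      rw [Complex.ofReal_inv, mul_inv_cancel₀ h0c]
    calc -(I * ((u + 2 * t * x : ℝ) : ℂ)) * gr t u x * (((u + 2 * t * x)⁻¹ : ℝ) : ℂ) +
          gr t u x * ((-(2 * t) / (u + 2 * t * x) ^ 2 : ℝ) : ℂ)
        = -I * gr t u x * (((u + 2 * t * x : ℝ) : ℂ) * (((u + 2 * t * x)⁻¹ : ℝ) : ℂ)) +
          gr t u x * ((-(2 * t) / (u + 2 * t * x) ^ 2 : ℝ) : ℂ) := by ring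
      _ = _ := by rw [h4, mul_one]
  have hWc : ContinuousOn W (Icc (1 / 4) r) := by
    simp only [hW]
    refine (gr_cont t u).continuousOn.mul ?_
    refine Complex.continuous_ofReal.comp_continuousOn ?_
    refine ContinuousOn.div continuousOn_const (by fun_prop) fun x hx => ?_
    exact pow_ne_zero 2 (hpos x hx).ne'
  have hWi : IntervalIntegrable W volume (1 / 4) r := by
    rw [intervalIntegrable_iff_integrableOn_Icc_of_le hr]
    exact hWc.integrableOn_Icc
  have hgi : IntervalIntegrable (gr t u) volume (1 / 4) r := (gr_cont t u).intervalIntegrable _ _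
  have h5 : ∫ x in (1 / 4 : ℝ)..r, (-I * gr t u x + W x) = F r - F (1 / 4) := by
    refine intervalIntegral.integral_eq_sub_of_hasDerivAt (fun x hx => hFd x ?_) ?_
    · rwa [uIcc_of_le hr] at hx
    · exact (hgi.const_mul (-I)).add hWi
  rw [intervalIntegral.integral_add (hgi.const_mul (-I)) hWi,
    intervalIntegral.integral_const_mul] at h5
  have h6 : Gp t u r = I * (F r - F (1 / 4) - ∫ x in (1 / 4 : ℝ)..r, W x) := by
    unfold Gp
    have : F r - F (1 / 4) - ∫ x in (1 / 4 : ℝ)..r, W x = -I * ∫ x in (1 / 4 : ℝ)..r, gr t u x := by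
      rw [← h5]; ring
    rw [this]
    have hII : I * (-I * ∫ x in (1 / 4 : ℝ)..r, gr t u x) =
        -(I * I) * ∫ x in (1 / 4 : ℝ)..r, gr t u x := by ring
    rw [hII, I_mul_I]
    ring
  have hFn : ∀ x ∈ Icc (1 / 4 : ℝ) r, ‖F x‖ ≤ 4 / t := by
    intro x hx
    simp only [hF]
    rw [norm_mul, gr_norm, one_mul, Complex.norm_real, Real.norm_of_nonneg (by
      have := hpos x hx; positivity)]
    have := phd_ge ht hu hx.1
    rw [show 4 / t = (t / 4)⁻¹ by field_simp]
    exact inv_anti₀ (by positivity) this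
  have hWn : ∀ x ∈ Icc (1 / 4 : ℝ) r, ‖W x‖ ≤ 32 / t := by
    intro x hx
    simp only [hW]
    rw [norm_mul, gr_norm, one_mul, Complex.norm_real, norm_div, norm_neg, norm_pow]
    have h7 := phd_ge ht hu hx.1
    have h8 := hpos x hx
    rw [Real.norm_of_nonneg (by positivity : 0 ≤ 2 * t), Real.norm_of_nonneg h8.le]
    rw [div_le_div_iff₀ (by positivity) ht]
    have h9 : (t / 4) ^ 2 ≤ (u + 2 * t * x) ^ 2 := pow_le_pow_left₀ (by positivity) h7 2
    nlinarith
  have hWI : ‖∫ x in (1 / 4 : ℝ)..r, W x‖ ≤ 32 / t * |r - 1 / 4| := by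
    refine intervalIntegral.norm_integral_le_of_norm_le_const fun x hx => hWn x ?_
    rw [uIoc_of_le hr] at hx
    exact ⟨hx.1.le, hx.2⟩
  have hlen : |r - 1 / 4| ≤ 7 / 4 := by
    rw [abs_of_nonneg (by linarith)]
    linarith
  rw [h6, norm_mul, Complex.norm_I, one_mul]
  have h10 : ‖F r - F (1 / 4) - ∫ x in (1 / 4 : ℝ)..r, W x‖ ≤
      ‖F r‖ + ‖F (1 / 4)‖ + ‖∫ x in (1 / 4 : ℝ)..r, W x‖ :=
    (norm_sub_le _ _).trans (by gcongr; exact norm_sub_le _ _)
  have h11 : 32 / t * |r - 1 / 4| ≤ 32 / t * (7 / 4) := by gcongr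
  have h12 := hFn r ⟨hr, le_rfl⟩
  have h13 := hFn (1 / 4) ⟨le_rfl, hr⟩
  have h14 : 64 / t = 4 / t + 4 / t + 32 / t * (7 / 4) := by ring
  linarith

theorem near1 {f : ℝ → ℂ} (hf : BVf f) {t u : ℝ} (ht : 0 < t) (hu : |u| ≤ t / 4) :
    ‖∫ r, f r * gr t u r‖ ≤ 64 / t := by
  have h64 : (0 : ℝ) ≤ 64 / t := by positivity
  set G : ℝ → ℂ := (Icc (1 / 4 : ℝ) 2).indicator (Gp t u) with hG
  have hGm : Measurable G := by
    have : Continuous (Gp t u) := continuous_iff_continuousAt.2 fun r => (Gp_deriv t u r).continuousAt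
    exact this.measurable.indicator measurableSet_Icc
  have hGb : ∀ r, ‖G r‖ ≤ 64 / t := by
    intro r
    simp only [hG]
    by_cases h : r ∈ Icc (1 / 4 : ℝ) 2
    · rw [indicator_of_mem h]; exact Gp_bd ht hu h.1 h.2
    · rw [indicator_of_notMem h, norm_zero]; exact h64
  have key : ∀ τ : ℝ, 0 < τ → τ ≤ 1 → ‖∫ r, f r * ((Gp t u (r + τ) - Gp t u r) / τ)‖ ≤ 64 / t := by
    intro τ hτ hτ1
    have e1 : ∀ r, f r * (Gp t u (r + τ) - Gp t u r) = f r * G (r + τ) - f r * G r := by
      intro r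
      by_cases h : r ∈ Icc (1 / 2 : ℝ) 1
      · simp only [hG]
        rw [indicator_of_mem, indicator_of_mem]
        · ring
        · exact ⟨by linarith [h.1], by linarith [h.2]⟩
        · exact ⟨by linarith [h.1], by linarith [h.2]⟩
      · rw [hf.s r h]; ring
    have i1 : Integrable fun r => f r * G (r + τ) :=
      hf.int.mul_bdd (c := 64 / t) (hGm.comp (measurable_id.add_const τ)).aestronglyMeasurable
        (Filter.Eventually.of_forall fun r => hGb _)
    have i2 : Integrable fun r => f r * G r :=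
      hf.int.mul_bdd (c := 64 / t) hGm.aestronglyMeasurable
        (Filter.Eventually.of_forall fun r => hGb _)
    have i3 : Integrable fun r => f (r - τ) * G r :=
      (hf.int.comp_sub_right τ).mul_bdd (c := 64 / t) hGm.aestronglyMeasurable
        (Filter.Eventually.of_forall fun r => hGb _)
    have e2 : ∫ r, f r * (Gp t u (r + τ) - Gp t u r) = ∫ r, (f (r - τ) - f r) * G r := by
      rw [integral_congr_ae (Filter.Eventually.of_forall e1), integral_sub i1 i2]
      have e3 : ∫ r, f r * G (r + τ) = ∫ r, f (r - τ) * G r := by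
        have := integral_sub_right_eq_self (μ := (volume : Measure ℝ)) (fun r => f r * G (r + τ)) τ
        rw [← this]
        refine integral_congr_ae (Filter.Eventually.of_forall fun r => ?_)
        simp only [sub_add_cancel]
      rw [e3, ← integral_sub i3 i2]
      refine integral_congr_ae (Filter.Eventually.of_forall fun r => ?_)
      simp only
      ring
    have e4 : ‖∫ r, (f (r - τ) - f r) * G r‖ ≤ τ * (64 / t) := by
      have h1 : ‖∫ r, (f (r - τ) - f r) * G r‖ₑ ≤ ENNReal.ofReal (τ * (64 / t)) := by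
        refine (enorm_integral_le_lintegral_enorm _).trans ?_
        calc ∫⁻ r, ‖(f (r - τ) - f r) * G r‖ₑ ≤ ∫⁻ r, ‖f (r + -τ) - f r‖ₑ * ENNReal.ofReal (64 / t) := by
              refine lintegral_mono fun r => ?_
              rw [enorm_mul, ← sub_eq_add_neg]
              refine mul_le_mul_right ?_ _
              rw [← ofReal_norm]
              exact ENNReal.ofReal_le_ofReal (hGb r)
          _ = (∫⁻ r, ‖f (r + -τ) - f r‖ₑ) * ENNReal.ofReal (64 / t) := by
              rw [lintegral_mul_const]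
              exact ((hf.m.comp (measurable_id.add_const (-τ))).sub hf.m).enorm
          _ ≤ ENNReal.ofReal |(-τ)| * ENNReal.ofReal (64 / t) := mul_le_mul_left (hf.v _) _
          _ = ENNReal.ofReal (τ * (64 / t)) := by
              rw [abs_neg, abs_of_pos hτ, ENNReal.ofReal_mul hτ.le]
      rw [← ofReal_norm, ENNReal.ofReal_le_ofReal_iff (by positivity)] at h1
      exact h1
    have e5 : ∫ r, f r * ((Gp t u (r + τ) - Gp t u r) / τ) =
        (∫ r, f r * (Gp t u (r + τ) - Gp t u r)) / τ := by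
      rw [← integral_div]
      refine integral_congr_ae (Filter.Eventually.of_forall fun r => ?_)
      simp only
      ring
    rw [e5, norm_div, Complex.norm_real, Real.norm_of_nonneg hτ.le, div_le_iff₀ hτ, e2]
    linarith
  have hlim : Tendsto (fun n : ℕ => ∫ r, f r * ((Gp t u (r + 1 / ((n : ℝ) + 1)) - Gp t u r) /
      ((1 / ((n : ℝ) + 1) : ℝ) : ℂ))) atTop (𝓝 (∫ r, f r * gr t u r)) := by
    refine tendsto_integral_of_dominated_convergence (fun r => ‖f r‖) (fun n => ?_) hf.int.norm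
      (fun n => Filter.Eventually.of_forall fun r => ?_) (Filter.Eventually.of_forall fun r => ?_)
    · have hc : Continuous (Gp t u) :=
        continuous_iff_continuousAt.2 fun r => (Gp_deriv t u r).continuousAt
      have hc2 : Continuous fun r => (Gp t u (r + 1 / ((n : ℝ) + 1)) - Gp t u r) /
          ((1 / ((n : ℝ) + 1) : ℝ) : ℂ) :=
        ((hc.comp (continuous_id.add continuous_const)).sub hc).div_const _
      exact (hf.m.mul hc2.measurable).aestronglyMeasurable
    · have hp : (0 : ℝ) < 1 / ((n : ℝ) + 1) := by positivity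
      rw [norm_mul, norm_div, Complex.norm_real, Real.norm_of_nonneg hp.le]
      refine mul_le_of_le_one_right (norm_nonneg _) ?_
      rw [div_le_one hp]
      have := Gp_lip t u r (1 / ((n : ℝ) + 1))
      rwa [abs_of_pos hp] at this
    · refine Tendsto.const_mul (f r) ?_
      have h1 := (Gp_deriv t u r).tendsto_slope_zero_right
      have h2 : Tendsto (fun n : ℕ => (1 : ℝ) / ((n : ℝ) + 1)) atTop (𝓝[>] 0) :=
        tendsto_nhdsWithin_iff.2 ⟨tendsto_one_div_add_atTop_nhds_zero_nat,
          Filter.Eventually.of_forall fun n => by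
            show (0 : ℝ) < 1 / ((n : ℝ) + 1)
            positivity⟩
      have h3 := h1.comp h2
      refine h3.congr fun n => ?_
      simp only [Function.comp]
      rw [Complex.real_smul, Complex.ofReal_inv, div_eq_inv_mul (Gp t u _ - _)]
  refine le_of_tendsto hlim.norm (Filter.Eventually.of_forall fun n => ?_)
  have hn : (1 : ℝ) / ((n : ℝ) + 1) ≤ 1 := by
    rw [div_le_one (by positivity)]
    have : (0 : ℝ) ≤ (n : ℝ) := Nat.cast_nonneg n
    linarith
  exact key _ (by positivity) hn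

end Pool.Agent.J4.H87.Ray
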