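import Mathlib
import Pool.Agent.J4.H87.RayG
import Pool.Agent.J4.H87.RayK
import Pool.Agent.R412.RT.A2
set_option autoImplicit false

/-! Rays: the operator in polar coordinates and the `L²` bound. -/

namespace Pool.Agent.J4.H87.Ray

open MeasureTheory Complex Set Filter Topology
open scoped ENNReal ComplexConjugate RealInnerProductSpace
open Pool.Agent.R412.RT (E ee ee_norm planch)

/-- the operator -/
noncomputable def EP (H : ℝ → ℝ → ℂ) (t : ℝ) (z : ℂ) : ℂ := ∫ θ, ∫ r, H θ r * gr t (uf θ z) r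

/-- functions on the rectangle -/
structure Rt (c B : ℝ) (H : ℝ → ℝ → ℂ) : Prop where
  m : Measurable (Function.uncurry H)
  sθ : ∀ θ r, θ ∉ Icc c (c + 1) → H θ r = 0
  sr : ∀ θ r, r ∉ Icc (1 / 4 : ℝ) (5 / 4) → H θ r = 0
  b : ∀ θ r, ‖H θ r‖ ≤ B

theorem Rt.int {c B : ℝ} {H : ℝ → ℝ → ℂ} (hH : Rt c B H) :
    Integrable (fun p : ℝ × ℝ => H p.1 p.2) (volume.prod volume) := by
  have h1 : Integrable ((Icc c (c + 1) ×ˢ Icc (1 / 4 : ℝ) (5 / 4)).indicator fun _ : ℝ × ℝ => B)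
      (volume.prod volume) := by
    rw [integrable_indicator_iff (measurableSet_Icc.prod measurableSet_Icc)]
    refine integrableOn_const ?_
    rw [Measure.prod_prod, Real.volume_Icc, Real.volume_Icc]
    exact ENNReal.mul_ne_top ENNReal.ofReal_ne_top ENNReal.ofReal_ne_top
  refine h1.mono' hH.m.aestronglyMeasurable (Filter.Eventually.of_forall fun p => ?_)
  by_cases h : p ∈ Icc c (c + 1) ×ˢ Icc (1 / 4 : ℝ) (5 / 4)
  · rw [indicator_of_mem h]; exact hH.b _ _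
  · rw [indicator_of_notMem h]
    by_cases h2 : p.1 ∈ Icc c (c + 1)
    · rw [hH.sr _ _ fun h3 => h ⟨h2, h3⟩, norm_zero]
    · rw [hH.sθ _ _ h2, norm_zero]

theorem gr_meas : Measurable fun q : (ℝ × ℂ) × (ℝ × ℝ) => gr q.1.1 (uf q.2.1 q.1.2) q.2.2 := by
  have h1 : Measurable fun q : (ℝ × ℂ) × (ℝ × ℝ) => uf q.2.1 q.1.2 := by
    show Measurable ((fun p : ℝ × ℂ => uf p.1 p.2) ∘ fun q : (ℝ × ℂ) × (ℝ × ℝ) => (q.2.1, q.1.2))
    exact uf_meas.comp (by fun_prop)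
  unfold gr
  refine ex_meas.comp ?_
  exact ((measurable_snd.snd.mul h1).add (measurable_fst.fst.mul (measurable_snd.snd.pow_const 2))).neg

theorem Rt.int_gr {c B : ℝ} {H : ℝ → ℝ → ℂ} (hH : Rt c B H) (t : ℝ) (z : ℂ) :
    Integrable (fun p : ℝ × ℝ => H p.1 p.2 * gr t (uf p.1 z) p.2) (volume.prod volume) := by
  refine hH.int.mul_bdd (c := 1) ?_ (Filter.Eventually.of_forall fun p => (gr_norm _ _ _).le)
  have : Measurable fun p : ℝ × ℝ => gr t (uf p.1 z) p.2 := by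
    show Measurable ((fun q : (ℝ × ℂ) × (ℝ × ℝ) => gr q.1.1 (uf q.2.1 q.1.2) q.2.2) ∘
      fun p : ℝ × ℝ => ((t, z), p))
    exact gr_meas.comp (by fun_prop)
  exact this.aestronglyMeasurable

theorem EP_prod {c B : ℝ} {H : ℝ → ℝ → ℂ} (hH : Rt c B H) (t : ℝ) (z : ℂ) :
    EP H t z = ∫ p : ℝ × ℝ, H p.1 p.2 * gr t (uf p.1 z) p.2 := by
  unfold EP
  rw [Measure.volume_eq_prod, integral_prod _ (hH.int_gr t z)]

theorem EP_meas {c B : ℝ} {H : ℝ → ℝ → ℂ} (hH : Rt c B H) :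
    Measurable fun q : ℝ × ℂ => EP H q.1 q.2 := by
  have h1 : (fun q : ℝ × ℂ => EP H q.1 q.2) = fun q : ℝ × ℂ => ∫ p : ℝ × ℝ,
      H p.1 p.2 * gr q.1 (uf p.1 q.2) p.2 := by
    ext q; exact EP_prod hH _ _
  rw [h1]
  have h2 : StronglyMeasurable fun r : (ℝ × ℂ) × (ℝ × ℝ) =>
      H r.2.1 r.2.2 * gr r.1.1 (uf r.2.1 r.1.2) r.2.2 := by
    refine Measurable.stronglyMeasurable ?_
    have h3 : Measurable fun r : (ℝ × ℂ) × (ℝ × ℝ) => H r.2.1 r.2.2 := by
      show Measurable ((Function.uncurry H) ∘ fun r : (ℝ × ℂ) × (ℝ × ℝ) => r.2)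
      exact hH.m.comp measurable_snd
    exact h3.mul gr_meas
  exact h2.integral_prod_right'.measurable

theorem EP_sup {c B : ℝ} {H : ℝ → ℝ → ℂ} (_hH : Rt c B H) (t : ℝ) (z : ℂ) :
    ‖EP H t z‖ₑ ≤ ∫⁻ θ, ∫⁻ r, ‖H θ r‖ₑ := by
  unfold EP
  refine (enorm_integral_le_lintegral_enorm _).trans (lintegral_mono fun θ => ?_)
  refine (enorm_integral_le_lintegral_enorm _).trans (lintegral_mono fun r => ?_)
  rw [enorm_mul, ← ofReal_norm (gr _ _ _), gr_norm, ENNReal.ofReal_one, mul_one]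

/-- the plane -/
noncomputable def qe : (ℝ × ℝ) ≃ᵐ E 2 :=
  (MeasurableEquiv.finTwoArrow (α := ℝ)).symm.trans (MeasurableEquiv.toLp 2 (Fin 2 → ℝ))

theorem qe_mp : MeasurePreserving qe volume volume :=
  (PiLp.volume_preserving_toLp (Fin 2)).comp (volume_preserving_finTwoArrow ℝ).symm

theorem qe_zero (p : ℝ × ℝ) : qe p 0 = p.1 := rfl

theorem qe_one (p : ℝ × ℝ) : qe p 1 = p.2 := rfl

/-- polar coordinates -/
noncomputable def Pp (x : E 2) : E 2 :=
  !₂[-(1 / (2 * Real.pi)) * (x 1 * Real.cos (x 0)), -(1 / (2 * Real.pi)) * (x 1 * Real.sin (x 0))]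

theorem Pp_zero (x : E 2) : Pp x 0 = -(1 / (2 * Real.pi)) * (x 1 * Real.cos (x 0)) := rfl

theorem Pp_one (x : E 2) : Pp x 1 = -(1 / (2 * Real.pi)) * (x 1 * Real.sin (x 0)) := rfl

/-- the Jacobian matrix -/
noncomputable def Ap (x : E 2) : Matrix (Fin 2) (Fin 2) ℝ :=
  !![(1 / (2 * Real.pi)) * (x 1 * Real.sin (x 0)), -(1 / (2 * Real.pi)) * Real.cos (x 0);
     -(1 / (2 * Real.pi)) * (x 1 * Real.cos (x 0)), -(1 / (2 * Real.pi)) * Real.sin (x 0)]

theorem Ap_det (x : E 2) : (Ap x).det = -(1 / (2 * Real.pi)) ^ 2 * x 1 := by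
  unfold Ap
  rw [Matrix.det_fin_two_of]
  have h := Real.sin_sq_add_cos_sq (x 0)
  linear_combination -(1 / (2 * Real.pi)) ^ 2 * x 1 * h

noncomputable def Pd (x : E 2) : E 2 →L[ℝ] E 2 :=
  LinearMap.toContinuousLinearMap (Matrix.toLin (EuclideanSpace.basisFun (Fin 2) ℝ).toBasis
    (EuclideanSpace.basisFun (Fin 2) ℝ).toBasis (Ap x))

theorem Pd_det (x : E 2) : (Pd x).det = -(1 / (2 * Real.pi)) ^ 2 * x 1 := by
  unfold Pd ContinuousLinearMap.det
  rw [LinearMap.coe_toContinuousLinearMap, LinearMap.det_toLin, Ap_det]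

theorem Pd_apply (x v : E 2) (i : Fin 2) : Pd x v i = ∑ j, Ap x i j * v j := by
  unfold Pd
  rw [LinearMap.coe_toContinuousLinearMap']
  have h := Matrix.toLin_apply (EuclideanSpace.basisFun (Fin 2) ℝ).toBasis
    (EuclideanSpace.basisFun (Fin 2) ℝ).toBasis (Ap x) v
  rw [h]
  simp only [OrthonormalBasis.coe_toBasis, WithLp.ofLp_sum, WithLp.ofLp_smul, Finset.sum_apply,
    Pi.smul_apply, smul_eq_mul, EuclideanSpace.basisFun_apply, PiLp.single_apply,
    Matrix.mulVec, dotProduct, mul_ite, mul_one, mul_zero, Finset.sum_ite_eq,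
    Finset.mem_univ, if_true]
  rfl

theorem Pp_deriv (x : E 2) : HasFDerivAt Pp (Pd x) x := by
  rw [← hasFDerivWithinAt_univ, hasFDerivWithinAt_euclidean]
  intro i
  rw [hasFDerivWithinAt_univ]
  have h1 : ∀ j : Fin 2, HasFDerivAt (fun y : E 2 => y j) (EuclideanSpace.proj j : E 2 →L[ℝ] ℝ) x :=
    fun j => (EuclideanSpace.proj (𝕜 := ℝ) j).hasFDerivAt
  fin_cases i
  · have h2 := ((h1 1).mul (h1 0).cos).const_mul (-(1 / (2 * Real.pi)))
    refine h2.congr_fderiv ?_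
    ext v
    simp [Pd_apply, Ap, Fin.sum_univ_two]
    ring
  · have h2 := ((h1 1).mul (h1 0).sin).const_mul (-(1 / (2 * Real.pi)))
    refine h2.congr_fderiv ?_
    ext v
    simp [Pd_apply, Ap, Fin.sum_univ_two]
    ring

/-- the rectangle -/
def Vr (c : ℝ) : Set (E 2) := {x | x 0 ∈ Icc c (c + 1) ∧ x 1 ∈ Icc (1 / 4 : ℝ) (5 / 4)}

theorem Vr_meas (c : ℝ) : MeasurableSet (Vr c) := by
  unfold Vr
  have h0 : Measurable fun x : E 2 => x 0 := by fun_prop
  have h1 : Measurable fun x : E 2 => x 1 := by fun_prop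
  exact (h0 measurableSet_Icc).inter (h1 measurableSet_Icc)

theorem Pp_inj (c : ℝ) : InjOn Pp (Vr c) := by
  intro x hx y hy hxy
  have hpi := Real.pi_pos
  have h0 : Pp x 0 = Pp y 0 := by rw [hxy]
  have h1 : Pp x 1 = Pp y 1 := by rw [hxy]
  rw [Pp_zero, Pp_zero] at h0
  rw [Pp_one, Pp_one] at h1
  have hne : -(1 / (2 * Real.pi)) ≠ 0 := by
    have : 0 < 1 / (2 * Real.pi) := by positivity
    linarith
  have c0 := mul_left_cancel₀ hne h0
  have s0 := mul_left_cancel₀ hne h1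
  have hx1 : 0 < x 1 := by linarith [hx.2.1]
  have hy1 : 0 < y 1 := by linarith [hy.2.1]
  have hsq : x 1 ^ 2 = y 1 ^ 2 := by
    have e1 := Real.sin_sq_add_cos_sq (x 0)
    have e2 := Real.sin_sq_add_cos_sq (y 0)
    calc x 1 ^ 2 = (x 1 * Real.sin (x 0)) ^ 2 + (x 1 * Real.cos (x 0)) ^ 2 := by
          linear_combination -(x 1 ^ 2) * e1
      _ = (y 1 * Real.sin (y 0)) ^ 2 + (y 1 * Real.cos (y 0)) ^ 2 := by rw [c0, s0]
      _ = y 1 ^ 2 := by linear_combination (y 1 ^ 2) * e2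
  have hr : x 1 = y 1 := by
    have := abs_eq_abs.2 (sq_eq_sq_iff_eq_or_eq_neg.1 hsq)
    rwa [abs_of_pos hx1, abs_of_pos hy1] at this
  rw [← hr] at c0 s0
  have cc := mul_left_cancel₀ hx1.ne' c0
  have ss := mul_left_cancel₀ hx1.ne' s0
  have hcos : Real.cos (x 0 - y 0) = 1 := by
    rw [Real.cos_sub, cc, ss]
    have := Real.sin_sq_add_cos_sq (y 0)
    linarith
  have hpi3 := Real.pi_gt_three
  have h5 : x 0 - y 0 = 0 := by
    refine (Real.cos_eq_one_iff_of_lt_of_lt ?_ ?_).1 hcos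
    · linarith [hx.1.1, hy.1.2]
    · linarith [hx.1.2, hy.1.1]
  ext i
  fin_cases i
  · show x 0 = y 0
    linarith
  · exact hr

theorem ee_eq (s : ℝ) : ee s = ex (2 * Real.pi * s) := by
  unfold ee ex
  congr 1
  push_cast
  ring

/-- the identification of the planes -/
noncomputable def ce : ℂ ≃ᵐ E 2 := Complex.measurableEquivRealProd.trans qe

theorem ce_mp : MeasurePreserving ce volume volume :=
  qe_mp.comp Complex.volume_preserving_equiv_real_prod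

theorem ce_zero (z : ℂ) : ce z 0 = z.re := rfl

theorem ce_one (z : ℂ) : ce z 1 = z.im := rfl

theorem EP_l2 {c B : ℝ} {H : ℝ → ℝ → ℂ} (hH : Rt c B H) (t : ℝ) :
    ∫⁻ z : ℂ, ‖EP H t z‖ₑ ^ 2 ≤
      ENNReal.ofReal (16 * Real.pi ^ 2) * ∫⁻ θ, ∫⁻ r, ‖H θ r‖ₑ ^ 2 := by
  have hpi := Real.pi_pos
  set g : E 2 → ℂ := fun x => H (x 0) (x 1) * ex (-(t * x 1 ^ 2)) with hg
  have hemb : MeasurableEmbedding qe := qe.measurableEmbedding
  have hgq : ∀ p : ℝ × ℝ, g (qe p) = H p.1 p.2 * ex (-(t * p.2 ^ 2)) := fun p => rfl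
  have hgi : Integrable g := by
    rw [← qe_mp.integrable_comp_emb hemb]
    have h1 : Integrable (fun p : ℝ × ℝ => H p.1 p.2 * ex (-(t * p.2 ^ 2)))
        (volume.prod volume) := by
      refine hH.int.mul_bdd (c := 1) ?_ (Filter.Eventually.of_forall fun p => (ex_norm _).le)
      have : Continuous fun p : ℝ × ℝ => ex (-(t * p.2 ^ 2)) := ex_cont.comp (by fun_prop)
      exact this.aestronglyMeasurable
    exact h1
  have hgV : ∀ x, x ∉ Vr c → g x = 0 := by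
    intro x hx
    simp only [hg]
    by_cases h2 : x 0 ∈ Icc c (c + 1)
    · rw [hH.sr _ _ fun h3 => hx ⟨h2, h3⟩, zero_mul]
    · rw [hH.sθ _ _ h2, zero_mul]
  have hPc : Continuous Pp := continuous_iff_continuousAt.2 fun x => (Pp_deriv x).continuousAt
  have hpl := planch Pp hPc.measurable Pd (Vr c) (Vr_meas c)
    (fun x _ => (Pp_deriv x).hasFDerivWithinAt) (Pp_inj c) (fun x hx => by
      rw [Pd_det]
      have h1 : 0 < x 1 := by linarith [hx.2.1]
      have : 0 < (1 / (2 * Real.pi)) ^ 2 * x 1 := by positivity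
      linarith) (by
      have : (fun x : E 2 => |(Pd x).det|) = fun x : E 2 => |-(1 / (2 * Real.pi)) ^ 2 * x 1| := by
        ext x; rw [Pd_det]
      rw [this]
      fun_prop) g hgi hgV
  have hL : ∫⁻ w : E 2, ‖∫ x, ee ⟪Pp x, w⟫ * g x‖ₑ ^ 2 = ∫⁻ z : ℂ, ‖EP H t z‖ₑ ^ 2 := by
    rw [← ce_mp.lintegral_comp_emb ce.measurableEmbedding]
    refine lintegral_congr fun z => ?_
    congr 2
    rw [← qe_mp.integral_comp hemb, EP_prod hH]
    refine integral_congr_ae (Filter.Eventually.of_forall fun p => ?_)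
    simp only
    rw [hgq, ee_eq]
    have hin : (⟪Pp (qe p), ce z⟫ : ℝ) = -(1 / (2 * Real.pi)) * (p.2 * uf p.1 z) := by
      rw [PiLp.inner_apply, Fin.sum_univ_two, uf_eq]
      simp only [RCLike.inner_apply, conj_trivial]
      rw [Pp_zero, Pp_one, ce_zero, ce_one, qe_zero, qe_one]
      ring
    rw [hin]
    unfold gr
    have h2 : -(p.2 * uf p.1 z + t * p.2 ^ 2) =
        2 * Real.pi * (-(1 / (2 * Real.pi)) * (p.2 * uf p.1 z)) + -(t * p.2 ^ 2) := by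
      field_simp
      ring
    rw [h2, ex_add]
    ring
  rw [hL] at hpl
  refine hpl.trans ?_
  rw [← qe_mp.lintegral_comp_emb hemb]
  calc ∫⁻ p : ℝ × ℝ, ‖g (qe p)‖ₑ ^ 2 / ENNReal.ofReal |(Pd (qe p)).det|
      ≤ ∫⁻ p : ℝ × ℝ, ENNReal.ofReal (16 * Real.pi ^ 2) * ‖H p.1 p.2‖ₑ ^ 2 := by
        refine lintegral_mono fun p => ?_
        rw [hgq, enorm_mul, ex_enorm, mul_one, Pd_det, qe_one]
        by_cases h2 : p.2 ∈ Icc (1 / 4 : ℝ) (5 / 4)
        · have h3 : 0 < p.2 := by linarith [h2.1]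
          have h4 : |-(1 / (2 * Real.pi)) ^ 2 * p.2| = (1 / (2 * Real.pi)) ^ 2 * p.2 := by
            rw [abs_mul, abs_neg, abs_of_nonneg (by positivity), abs_of_pos h3]
          rw [h4, ENNReal.div_eq_inv_mul]
          refine mul_le_mul_left ?_ _
          rw [← ENNReal.ofReal_inv_of_pos (by positivity)]
          refine ENNReal.ofReal_le_ofReal ?_
          have h5 : ((1 / (2 * Real.pi)) ^ 2 * p.2)⁻¹ = 4 * Real.pi ^ 2 / p.2 := by
            field_simp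
            ring
          rw [h5, div_le_iff₀ h3]
          nlinarith [h2.1, sq_nonneg Real.pi]
        · rw [hH.sr _ _ h2]
          simp
    _ = ENNReal.ofReal (16 * Real.pi ^ 2) * ∫⁻ p : ℝ × ℝ, ‖H p.1 p.2‖ₑ ^ 2 := by
        rw [lintegral_const_mul]
        exact (hH.m.enorm).pow_const 2
    _ = ENNReal.ofReal (16 * Real.pi ^ 2) * ∫⁻ θ, ∫⁻ r, ‖H θ r‖ₑ ^ 2 := by
        rw [Measure.volume_eq_prod, lintegral_prod (fun p : ℝ × ℝ => ‖H p.1 p.2‖ₑ ^ 2)
          ((hH.m.enorm).pow_const 2).aemeasurable]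

end Pool.Agent.J4.H87.Ray
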