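import Mathlib
import Pool.Agent.J4.H87.RayJ
import Pool.Agent.J4.H87.RayL
set_option autoImplicit false

/-! Rays: blocks, their mollification and its representation. -/

namespace Pool.Agent.J4.H87.Ray

open MeasureTheory Complex Set Filter Topology
open scoped ENNReal ComplexConjugate

theorem holder4 (w X : ℝ → ℝ≥0∞) (hw : Measurable w) (hX : Measurable X) :
    (∫⁻ x, w x * X x) ^ 4 ≤ (∫⁻ x, w x) ^ 3 * ∫⁻ x, w x * X x ^ 4 := by
  have hpq : Real.HolderConjugate (4 / 3 : ℝ) 4 := by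
    rw [Real.holderConjugate_iff]; norm_num
  have h := ENNReal.lintegral_mul_le_Lp_mul_Lq (volume : Measure ℝ) hpq
    (f := fun x => w x ^ (3 / 4 : ℝ)) (g := fun x => w x ^ (1 / 4 : ℝ) * X x)
    (hw.pow_const _).aemeasurable ((hw.pow_const _).mul hX).aemeasurable
  have e1 : ∀ x, ((fun x => w x ^ (3 / 4 : ℝ)) * fun x => w x ^ (1 / 4 : ℝ) * X x) x = w x * X x := by
    intro x
    simp only [Pi.mul_apply]
    rw [← mul_assoc, ← ENNReal.rpow_add_of_nonneg _ _ (by norm_num) (by norm_num)]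
    norm_num
  have e2 : ∀ x, (w x ^ (3 / 4 : ℝ)) ^ (4 / 3 : ℝ) = w x := by
    intro x
    rw [← ENNReal.rpow_mul]
    norm_num
  have e3 : ∀ x, (w x ^ (1 / 4 : ℝ) * X x) ^ (4 : ℝ) = w x * X x ^ 4 := by
    intro x
    rw [ENNReal.mul_rpow_of_nonneg _ _ (by norm_num), ← ENNReal.rpow_mul]
    norm_num
  simp only [e1, e2, e3] at h
  calc (∫⁻ x, w x * X x) ^ 4 ≤ ((∫⁻ x, w x) ^ (1 / (4 / 3) : ℝ) *
        (∫⁻ x, w x * X x ^ 4) ^ (1 / 4 : ℝ)) ^ 4 := by gcongr
    _ = _ := by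
        rw [mul_pow]
        congr 1
        · rw [← ENNReal.rpow_natCast, ← ENNReal.rpow_mul, ← ENNReal.rpow_natCast]
          norm_num
        · rw [← ENNReal.rpow_natCast, ← ENNReal.rpow_mul]
          norm_num

/-- a block -/
structure Blk (c : ℝ) (A : Set ℝ) (h : ℝ → ℝ → ℂ) : Prop where
  mA : MeasurableSet A
  Ac : A ⊆ Icc c (c + 1)
  m : Measurable (Function.uncurry h)
  s : ∀ θ r, θ ∉ A → h θ r = 0
  f : ∀ θ, BVf (h θ)

/-- the mollified block -/
noncomputable def kk (M : Moll) (δ : ℝ) (h : ℝ → ℝ → ℂ) (θ r : ℝ) : ℂ := mol M δ (h θ) r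

/-- the error -/
noncomputable def gk (M : Moll) (δ : ℝ) (h : ℝ → ℝ → ℂ) (θ r : ℝ) : ℂ := h θ r - kk M δ h θ r

theorem kk_meas (M : Moll) (δ : ℝ) {h : ℝ → ℝ → ℂ} (hm : Measurable (Function.uncurry h)) :
    Measurable (Function.uncurry (kk M δ h)) := by
  have h1 : StronglyMeasurable fun q : (ℝ × ℝ) × ℝ => (M.φ q.2 : ℂ) * h q.1.1 (q.1.2 - δ * q.2) := by
    refine Measurable.stronglyMeasurable ?_
    have h2 : Measurable fun q : (ℝ × ℝ) × ℝ => h q.1.1 (q.1.2 - δ * q.2) := by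
      show Measurable ((Function.uncurry h) ∘ fun q : (ℝ × ℝ) × ℝ => (q.1.1, q.1.2 - δ * q.2))
      exact hm.comp (by fun_prop)
    have h3 : Measurable fun q : (ℝ × ℝ) × ℝ => (M.φ q.2 : ℂ) :=
      Complex.measurable_ofReal.comp (M.hφc.measurable.comp measurable_snd)
    exact h3.mul h2
  exact h1.integral_prod_right'.measurable

theorem hat_meas {h : ℝ → ℝ → ℂ} (hm : Measurable (Function.uncurry h)) :
    Measurable fun q : ℝ × ℝ => hat (h q.1) q.2 := by
  have h1 : StronglyMeasurable fun q : (ℝ × ℝ) × ℝ =>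
      h q.1.1 q.2 * ex (-(2 * Real.pi * (q.1.2 * q.2))) := by
    refine Measurable.stronglyMeasurable ?_
    have h2 : Measurable fun q : (ℝ × ℝ) × ℝ => h q.1.1 q.2 := by
      show Measurable ((Function.uncurry h) ∘ fun q : (ℝ × ℝ) × ℝ => (q.1.1, q.2))
      exact hm.comp (by fun_prop)
    exact h2.mul (ex_meas.comp (by fun_prop))
  exact h1.integral_prod_right'.measurable

theorem cf_meas (M : Moll) (δ : ℝ) {h : ℝ → ℝ → ℂ} (hm : Measurable (Function.uncurry h)) :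
    Measurable fun q : ℝ × ℝ => cf M δ (h q.1) q.2 := by
  unfold cf
  have h1 : Measurable fun q : ℝ × ℝ => M.ψ (δ * q.2) := M.hψc.measurable.comp (by fun_prop)
  exact h1.mul (hat_meas hm)

/-- the bound of the coefficients -/
noncomputable def bb (M : Moll) (δ η : ℝ) : ℝ := M.C * (((1 + |δ * η|) ^ 8)⁻¹ * (1 + |η|)⁻¹)

theorem bb_pos (M : Moll) (δ η : ℝ) : 0 < bb M δ η := by
  have := M.hC
  unfold bb
  positivity

theorem bb_meas (M : Moll) (δ : ℝ) : Measurable (bb M δ) := by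
  unfold bb
  fun_prop

theorem cf_le (M : Moll) (δ : ℝ) {f : ℝ → ℂ} (hf : BVf f) (η : ℝ) : ‖cf M δ f η‖ ≤ bb M δ η := by
  unfold cf bb
  rw [norm_mul, ← mul_assoc]
  have h1 : 0 ≤ M.C * ((1 + |δ * η|) ^ 8)⁻¹ := by
    have := M.hC
    positivity
  exact mul_le_mul (M.hψ _) (hat_le hf η) (norm_nonneg _) h1

theorem hat_zero (η : ℝ) : hat (fun _ => 0) η = 0 := by
  unfold hat
  simp

theorem Blk.zero {c : ℝ} {A : Set ℝ} {h : ℝ → ℝ → ℂ} (hB : Blk c A h) {θ : ℝ} (hθ : θ ∉ A) :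
    h θ = fun _ => 0 := by
  ext r
  exact hB.s θ r hθ

theorem Blk.rt {c : ℝ} {A : Set ℝ} {h : ℝ → ℝ → ℂ} (hB : Blk c A h) : Rt c 1 h where
  m := hB.m
  sθ θ r hθ := hB.s θ r fun h => hθ (hB.Ac h)
  sr θ r hr := (hB.f θ).s r fun h => hr ⟨by linarith [h.1], by linarith [h.2]⟩
  b θ r := (hB.f θ).b r

theorem Blk.rtk {c : ℝ} {A : Set ℝ} {h : ℝ → ℝ → ℂ} (hB : Blk c A h) (M : Moll) {δ : ℝ}
    (h0 : 0 < δ) (h1 : δ ≤ 1 / 4) : Rt c 1 (kk M δ h) where
  m := kk_meas M δ hB.m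
  sθ θ r hθ := by
    unfold kk mol
    rw [hB.zero fun h => hθ (hB.Ac h)]
    simp
  sr θ r hr := mol_s M h0 h1 (hB.f θ) hr
  b θ r := mol_b M δ (hB.f θ) r

theorem Blk.rtg {c : ℝ} {A : Set ℝ} {h : ℝ → ℝ → ℂ} (hB : Blk c A h) (M : Moll) {δ : ℝ}
    (h0 : 0 < δ) (h1 : δ ≤ 1 / 4) : Rt c 2 (gk M δ h) where
  m := hB.m.sub (kk_meas M δ hB.m)
  sθ θ r hθ := by
    unfold gk
    rw [hB.rt.sθ θ r hθ, (hB.rtk M h0 h1).sθ θ r hθ, sub_zero]
  sr θ r hr := by
    unfold gk
    rw [hB.rt.sr θ r hr, (hB.rtk M h0 h1).sr θ r hr, sub_zero]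
  b θ r := by
    unfold gk
    refine (norm_sub_le _ _).trans ?_
    linarith [hB.rt.b θ r, (hB.rtk M h0 h1).b θ r]

theorem EP_split {c : ℝ} {A : Set ℝ} {h : ℝ → ℝ → ℂ} (hB : Blk c A h) (M : Moll) {δ : ℝ}
    (h0 : 0 < δ) (h1 : δ ≤ 1 / 4) (t : ℝ) (z : ℂ) :
    EP h t z = EP (kk M δ h) t z + EP (gk M δ h) t z := by
  rw [EP_prod hB.rt, EP_prod (hB.rtk M h0 h1), EP_prod (hB.rtg M h0 h1)]
  have i1 := (hB.rtk M h0 h1).int_gr t z
  have i2 := (hB.rtg M h0 h1).int_gr t z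
  rw [Measure.volume_eq_prod, ← integral_add i1 i2]
  refine integral_congr_ae (Filter.Eventually.of_forall fun p => ?_)
  simp only [gk]
  ring

theorem cf_int (M : Moll) {δ : ℝ} (h0 : 0 < δ) {f : ℝ → ℂ} (hf : BVf f) : Integrable (cf M δ f) := by
  have h1 : Integrable fun η => M.ψ (δ * η) := M.hψi.comp_mul_left' h0.ne'
  refine h1.mul_bdd (c := 1) ?_ (Filter.Eventually.of_forall fun η => ?_)
  · have h2 := hat_meas (h := fun _ => f) (hf.m.comp measurable_snd)
    exact (h2.comp (measurable_const.prodMk measurable_id : Measurable fun η : ℝ =>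
      ((0 : ℝ), η))).aestronglyMeasurable
  · refine (hat_le hf η).trans ?_
    exact inv_le_one_of_one_le₀ (by linarith [abs_nonneg η])

theorem mol_int (M : Moll) {δ : ℝ} (h0 : 0 < δ) (h1 : δ ≤ 1 / 4) {f : ℝ → ℂ} (hf : BVf f) :
    Integrable (mol M δ f) := by
  have h2 : Integrable ((Icc (1 / 4 : ℝ) (5 / 4)).indicator fun _ => (1 : ℝ)) := by
    rw [integrable_indicator_iff measurableSet_Icc]
    exact integrableOn_const measure_Icc_lt_top.ne
  have h3 := kk_meas M δ (h := fun _ => f) (hf.m.comp measurable_snd)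
  have h4 : Measurable (mol M δ f) :=
    h3.comp (measurable_const.prodMk measurable_id : Measurable fun r : ℝ => ((0 : ℝ), r))
  refine h2.mono' h4.aestronglyMeasurable (Filter.Eventually.of_forall fun r => ?_)
  by_cases h : r ∈ Icc (1 / 4 : ℝ) (5 / 4)
  · rw [indicator_of_mem h]; exact mol_b M δ hf r
  · rw [indicator_of_notMem h, mol_s M h0 h1 hf h, norm_zero]

theorem rep2 {c : ℝ} {A : Set ℝ} {h : ℝ → ℝ → ℂ} (hB : Blk c A h) (M : Moll) {δ : ℝ}
    (h0 : 0 < δ) (h1 : δ ≤ 1 / 4) {t : ℝ} (ht : 0 < t) (z : ℂ) :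
    EP (kk M δ h) t z = Fr t * ∫ η, Tt (2 * Real.pi * η) t (fun θ => cf M δ (h θ) η) z := by
  have e1 : ∀ θ, ∫ r, kk M δ h θ r * gr t (uf θ z) r =
      Fr t * ∫ η, cf M δ (h θ) η * eP (2 * Real.pi * η) t θ z := by
    intro θ
    have := rep1 (cf M δ (h θ)) (cf_int M h0 (hB.f θ)) (mol M δ (h θ))
      (fun r => mol_inv M h0 (hB.f θ) r) (mol_int M h0 h1 (hB.f θ)) t (uf θ z) ht
    refine this.trans ?_
    congr 1
    refine integral_congr_ae (Filter.Eventually.of_forall fun η => ?_)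
    simp only [eP, ex, Ph]
    rw [mul_comm (I : ℂ)]
  unfold EP
  rw [integral_congr_ae (Filter.Eventually.of_forall e1), integral_const_mul]
  congr 1
  have hprod : Integrable (Function.uncurry fun (θ η : ℝ) =>
      cf M δ (h θ) η * eP (2 * Real.pi * η) t θ z) (volume.prod volume) := by
    have hAv : volume A ≠ ∞ := ((measure_mono hB.Ac).trans_lt measure_Icc_lt_top).ne
    have i1 : Integrable (A.indicator fun _ : ℝ => (1 : ℝ)) := by
      rw [integrable_indicator_iff hB.mA]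
      exact integrableOn_const hAv
    have i2 : Integrable fun η => ‖M.ψ (δ * η)‖ := (M.hψi.comp_mul_left' h0.ne').norm
    have i3 := i1.mul_prod i2
    refine i3.mono' ?_ (Filter.Eventually.of_forall fun p => ?_)
    · have m1 : Measurable fun p : ℝ × ℝ => eP (2 * Real.pi * p.2) t p.1 z := by
        unfold eP Ph
        have m2 : Measurable fun p : ℝ × ℝ => uf p.1 z := by
          show Measurable ((fun q : ℝ × ℂ => uf q.1 q.2) ∘ fun p : ℝ × ℝ => (p.1, z))
          exact uf_meas.comp (by fun_prop)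
        have m3 : Measurable fun p : ℝ × ℝ => (uf p.1 z - 2 * Real.pi * p.2) ^ 2 / (4 * t) :=
          ((m2.sub (measurable_snd.const_mul (2 * Real.pi))).pow_const 2).div_const _
        exact Complex.measurable_exp.comp (measurable_const.mul (Complex.measurable_ofReal.comp m3))
      exact ((cf_meas M δ hB.m).mul m1).aestronglyMeasurable
    · simp only [Function.uncurry]
      rw [norm_mul, eP_norm, mul_one]
      by_cases hθ : p.1 ∈ A
      · rw [indicator_of_mem hθ, one_mul]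
        unfold cf
        rw [norm_mul]
        refine mul_le_of_le_one_right (norm_nonneg _) ((hat_le (hB.f _) _).trans ?_)
        exact inv_le_one_of_one_le₀ (by linarith [abs_nonneg p.2])
      · rw [indicator_of_notMem hθ, zero_mul]
        unfold cf
        rw [hB.zero hθ, hat_zero, mul_zero, norm_zero]
  rw [integral_integral_swap hprod]
  rfl

end Pool.Agent.J4.H87.Ray
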