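import Mathlib
import Pool.Agent.J4.H87.RayM
set_option autoImplicit false

/-! Rays: the fourth moment in the far region. -/

namespace Pool.Agent.J4.H87.Ray

open MeasureTheory Complex Set Filter Topology
open scoped ENNReal ComplexConjugate

/-- the power of `t` and `η` in the fourth moment -/
noncomputable def Yt (s t η : ℝ) : ℝ :=
  t ^ (2 - 2 * s) + η ^ 2 * t ^ (-(2 * s)) + η ^ 4 * (t ^ 3)⁻¹

theorem Yt_nonneg (s t η : ℝ) (ht : 0 < t) : 0 ≤ Yt s t η := by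
  unfold Yt; positivity

/-- the ratio of the geometric series -/
noncomputable def rg (s : ℝ) : ℝ := 4 ^ (1 - 2 * s)

theorem rg_pos (s : ℝ) : 0 < rg s := by unfold rg; positivity

theorem rg_lt (s : ℝ) (hs : 1 / 2 < s) : rg s < 1 := by
  unfold rg
  exact Real.rpow_lt_one_of_one_lt_of_neg (by norm_num) (by linarith)

theorem term1 (s t η : ℝ) (hs0 : 1 / 2 < s) (hs1 : s ≤ 1) (ht : 0 < t) (k : ℕ) :
    Real.pi * (2 ^ k * (t / 4)) ^ 2 * (4 + 4 * kap η (2 ^ k * (t / 4))) *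
      (((2 ^ k * (t / 4)) ^ 2 / (8 * t)) ^ 2) ^ (-s) ≤ 4000000 * rg s ^ k * Yt s t η := by
  have hpi := Real.pi_pos
  have hpi4 := Real.pi_lt_d2
  obtain ⟨a, ha⟩ : ∃ a : ℝ, a = 4 ^ k := ⟨_, rfl⟩
  have ha1 : 1 ≤ a := by rw [ha]; exact one_le_pow₀ (by norm_num)
  have ha0 : 0 < a := by linarith
  have h2k : ((2 : ℝ) ^ k) ^ 2 = a := by
    rw [ha, ← pow_mul, mul_comm, pow_mul]; norm_num
  have hμ : (2 ^ k * (t / 4)) ^ 2 / (8 * t) = a * t / 128 := by
    rw [mul_pow, h2k]; field_simp; ring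
  have hS : Real.pi * (2 ^ k * (t / 4)) ^ 2 * (4 + 4 * kap η (2 ^ k * (t / 4))) =
      Real.pi * (a * t ^ 2 / 4 + 64 * η ^ 2) := by
    unfold kap
    rw [mul_pow, h2k]
    field_simp
    ring
  have hpow : ((a * t / 128) ^ 2) ^ (-s) = a ^ (-(2 * s)) * t ^ (-(2 * s)) * 128 ^ (2 * s) := by
    rw [← Real.rpow_natCast, ← Real.rpow_mul (by positivity), Real.div_rpow (by positivity) (by norm_num),
      Real.mul_rpow ha0.le ht.le]
    have e1 : ((2 : ℕ) : ℝ) * -s = -(2 * s) := by push_cast; ring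
    rw [e1, Real.rpow_neg (by norm_num : (0 : ℝ) ≤ 128)]
    field_simp
  have hrg : rg s ^ k = a ^ (1 - 2 * s) := by
    unfold rg
    rw [ha, ← Real.rpow_natCast, ← Real.rpow_natCast, ← Real.rpow_mul (by norm_num),
      ← Real.rpow_mul (by norm_num)]
    ring_nf
  have h128 : (128 : ℝ) ^ (2 * s) ≤ 16384 := by
    calc (128 : ℝ) ^ (2 * s) ≤ 128 ^ (2 : ℝ) :=
          Real.rpow_le_rpow_of_exponent_le (by norm_num) (by linarith)
      _ = 16384 := by rw [Real.rpow_two]; norm_num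
  have e2 : a * a ^ (-(2 * s)) = a ^ (1 - 2 * s) := by
    rw [← Real.rpow_one_add' ha0.le (by linarith)]
    ring_nf
  have e3 : t ^ 2 * t ^ (-(2 * s)) = t ^ (2 - 2 * s) := by
    rw [← Real.rpow_natCast, ← Real.rpow_add ht]
    norm_num
    ring_nf
  have e4 : a ^ (-(2 * s)) ≤ a ^ (1 - 2 * s) :=
    Real.rpow_le_rpow_of_exponent_le ha1 (by linarith)
  rw [hS, hμ, hpow, hrg]
  set X : ℝ := a ^ (1 - 2 * s) with hX
  have hX0 : 0 < X := by positivity
  have hT0 : 0 < t ^ (-(2 * s)) := by positivity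
  have h8 : 0 < (128 : ℝ) ^ (2 * s) := by positivity
  have lhs : Real.pi * (a * t ^ 2 / 4 + 64 * η ^ 2) * (a ^ (-(2 * s)) * t ^ (-(2 * s)) * 128 ^ (2 * s)) =
      Real.pi * 128 ^ (2 * s) * ((1 / 4) * ((a * a ^ (-(2 * s))) * (t ^ 2 * t ^ (-(2 * s)))) +
        64 * (η ^ 2 * (a ^ (-(2 * s)) * t ^ (-(2 * s))))) := by ring
  rw [lhs, e2, e3]
  have h9 : η ^ 2 * (a ^ (-(2 * s)) * t ^ (-(2 * s))) ≤ η ^ 2 * (X * t ^ (-(2 * s))) := by gcongr
  have h10 : (1 / 4) * (X * t ^ (2 - 2 * s)) + 64 * (η ^ 2 * (a ^ (-(2 * s)) * t ^ (-(2 * s)))) ≤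
      64 * (X * Yt s t η) := by
    unfold Yt
    have p1 : 0 ≤ X * t ^ (2 - 2 * s) := by positivity
    have p2 : 0 ≤ X * (η ^ 4 * (t ^ 3)⁻¹) := by positivity
    nlinarith
  have hY := Yt_nonneg s t η ht
  calc Real.pi * 128 ^ (2 * s) * ((1 / 4) * (X * t ^ (2 - 2 * s)) +
        64 * (η ^ 2 * (a ^ (-(2 * s)) * t ^ (-(2 * s)))))
      ≤ Real.pi * 128 ^ (2 * s) * (64 * (X * Yt s t η)) := by gcongr
    _ ≤ 3.15 * 16384 * (64 * (X * Yt s t η)) := by
        refine mul_le_mul_of_nonneg_right ?_ (by positivity)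
        exact mul_le_mul hpi4.le h128 h8.le (by norm_num)
    _ ≤ 4000000 * X * Yt s t η := by
        have : 0 ≤ X * Yt s t η := by positivity
        nlinarith

theorem term2 (s t η : ℝ) (_hs0 : 1 / 2 < s) (hs1 : s ≤ 1) (ht : 0 < t) (k : ℕ) :
    Real.pi * (2 ^ k * (t / 4)) ^ 2 * kap η (2 ^ k * (t / 4)) ^ 2 *
      (((2 ^ k * (t / 4)) ^ 2 / (8 * t)) ^ 2) ^ (-(1 / 2) : ℝ) ≤ 4000000 * rg s ^ k * Yt s t η := by
  have hpi := Real.pi_pos
  have hpi4 := Real.pi_lt_d2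
  obtain ⟨a, ha⟩ : ∃ a : ℝ, a = 4 ^ k := ⟨_, rfl⟩
  have ha1 : 1 ≤ a := by rw [ha]; exact one_le_pow₀ (by norm_num)
  have ha0 : 0 < a := by linarith
  have h2k : ((2 : ℝ) ^ k) ^ 2 = a := by
    rw [ha, ← pow_mul, mul_comm, pow_mul]; norm_num
  have hμ : (2 ^ k * (t / 4)) ^ 2 / (8 * t) = a * t / 128 := by
    rw [mul_pow, h2k]; field_simp; ring
  have hS : Real.pi * (2 ^ k * (t / 4)) ^ 2 * kap η (2 ^ k * (t / 4)) ^ 2 =
      Real.pi * (4096 * η ^ 4 / (a * t ^ 2)) := by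
    unfold kap
    rw [mul_pow, h2k]
    field_simp
    ring
  have hpow : ((a * t / 128) ^ 2) ^ (-(1 / 2) : ℝ) = 128 / (a * t) := by
    rw [← Real.rpow_natCast, ← Real.rpow_mul (by positivity)]
    norm_num
    rw [Real.rpow_neg_one, inv_div]
  have hrg : rg s ^ k = a ^ (1 - 2 * s) := by
    unfold rg
    rw [ha, ← Real.rpow_natCast, ← Real.rpow_natCast, ← Real.rpow_mul (by norm_num),
      ← Real.rpow_mul (by norm_num)]
    ring_nf
  have e4 : 1 / a ^ 2 ≤ a ^ (1 - 2 * s) := by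
    have : 1 / a ^ 2 = a ^ (-2 : ℝ) := by
      rw [Real.rpow_neg ha0.le, Real.rpow_two, one_div]
    rw [this]
    exact Real.rpow_le_rpow_of_exponent_le ha1 (by linarith)
  rw [hS, hμ, hpow, hrg]
  set X : ℝ := a ^ (1 - 2 * s) with hX
  have hX0 : 0 < X := by positivity
  have hY := Yt_nonneg s t η ht
  have h10 : η ^ 4 * (t ^ 3)⁻¹ ≤ Yt s t η := by
    unfold Yt
    have p1 : 0 ≤ t ^ (2 - 2 * s) := by positivity
    have p2 : 0 ≤ η ^ 2 * t ^ (-(2 * s)) := by positivity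
    linarith
  calc Real.pi * (4096 * η ^ 4 / (a * t ^ 2)) * (128 / (a * t))
      = Real.pi * 524288 * ((1 / a ^ 2) * (η ^ 4 * (t ^ 3)⁻¹)) := by
        field_simp
        ring
    _ ≤ 3.15 * 524288 * (X * Yt s t η) := by
        refine mul_le_mul ?_ ?_ (by positivity) (by norm_num)
        · exact mul_le_mul_of_nonneg_right hpi4.le (by norm_num)
        · exact mul_le_mul e4 h10 (by positivity) hX0.le
    _ ≤ 4000000 * X * Yt s t η := by
        have : 0 ≤ X * Yt s t η := by positivity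
        nlinarith

theorem KB_le (s t η : ℝ) (hs0 : 1 / 2 < s) (hs1 : s ≤ 1) (ht : 0 < t) (k : ℕ) :
    KB t (2 ^ k * (t / 4)) η s ≤
      ENNReal.ofReal (rg s ^ k) * (ENNReal.ofReal (4000000 * Yt s t η) * (Cs s + Cs (1 / 2))) := by
  unfold KB
  have hμ0 : (0 : ℝ) < ((2 ^ k * (t / 4)) ^ 2 / (8 * t)) ^ 2 := by positivity
  have hκ : 0 ≤ kap η (2 ^ k * (t / 4)) := by unfold kap; positivity
  have hY := Yt_nonneg s t η ht
  have hrg := (rg_pos s).le
  have e1 : ENNReal.ofReal (Real.pi * (2 ^ k * (t / 4)) ^ 2 * (4 + 4 * kap η (2 ^ k * (t / 4)))) *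
      ENNReal.ofReal (((2 ^ k * (t / 4)) ^ 2 / (8 * t)) ^ 2) ^ (-s) ≤
      ENNReal.ofReal (rg s ^ k) * ENNReal.ofReal (4000000 * Yt s t η) := by
    rw [ENNReal.ofReal_rpow_of_pos hμ0, ← ENNReal.ofReal_mul (by positivity),
      ← ENNReal.ofReal_mul (by positivity)]
    refine ENNReal.ofReal_le_ofReal ((term1 s t η hs0 hs1 ht k).trans (le_of_eq ?_))
    ring
  have e2 : ENNReal.ofReal (Real.pi * (2 ^ k * (t / 4)) ^ 2 * kap η (2 ^ k * (t / 4)) ^ 2) *
      ENNReal.ofReal (((2 ^ k * (t / 4)) ^ 2 / (8 * t)) ^ 2) ^ (-(1 / 2) : ℝ) ≤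
      ENNReal.ofReal (rg s ^ k) * ENNReal.ofReal (4000000 * Yt s t η) := by
    rw [ENNReal.ofReal_rpow_of_pos hμ0, ← ENNReal.ofReal_mul (by positivity),
      ← ENNReal.ofReal_mul (by positivity)]
    refine ENNReal.ofReal_le_ofReal ((term2 s t η hs0 hs1 ht k).trans (le_of_eq ?_))
    ring
  calc _ ≤ ENNReal.ofReal (rg s ^ k) * ENNReal.ofReal (4000000 * Yt s t η) * Cs s +
        ENNReal.ofReal (rg s ^ k) * ENNReal.ofReal (4000000 * Yt s t η) * Cs (1 / 2) :=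
        add_le_add (mul_le_mul_left e1 _) (mul_le_mul_left e2 _)
    _ = _ := by ring

/-- the far region -/
def Far (t : ℝ) : Set ℂ := {z | t / 4 ≤ ‖z‖}

theorem Far_meas (t : ℝ) : MeasurableSet (Far t) :=
  (isClosed_le continuous_const continuous_norm).measurableSet

theorem far_cover (t : ℝ) (ht : 0 < t) (z : ℂ) :
    (Far t).indicator (1 : ℂ → ℝ≥0∞) z ≤
      ∑' k : ℕ, 1000 * ENNReal.ofReal (Wt (2 ^ k * (t / 4)) z) := by
  by_cases hz : z ∈ Far t
  swap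
  · rw [indicator_of_notMem hz]; exact zero_le
  rw [indicator_of_mem hz]
  have hz' : t / 4 ≤ ‖z‖ := hz
  have h1 : 1 ≤ ‖z‖ / (t / 4) := by rwa [le_div_iff₀ (by positivity), one_mul]
  obtain ⟨k, hk1, hk2⟩ := exists_nat_pow_near h1 (by norm_num : (1 : ℝ) < 2)
  have hS : (0 : ℝ) < 2 ^ k * (t / 4) := by positivity
  have a1 : 2 ^ k * (t / 4) ≤ ‖z‖ := by rwa [le_div_iff₀ (by positivity)] at hk1
  have a2 : ‖z‖ ≤ 2 * (2 ^ k * (t / 4)) := by
    rw [div_lt_iff₀ (by positivity), pow_succ] at hk2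
    linarith
  have h2 := Wt_ge _ hS z a1 a2
  refine le_trans ?_ (ENNReal.le_tsum k)
  rw [Pi.one_apply, show (1000 : ℝ≥0∞) = ENNReal.ofReal 1000 by norm_num,
    ← ENNReal.ofReal_mul (by norm_num), ← ENNReal.ofReal_one]
  exact ENNReal.ofReal_le_ofReal (by linarith)

theorem far_sum (t : ℝ) (ht : 0 < t) (F : ℂ → ℝ≥0∞) (hF : Measurable F) :
    ∫⁻ z in Far t, F z ≤ ∑' k : ℕ, 1000 * ∫⁻ z, ENNReal.ofReal (Wt (2 ^ k * (t / 4)) z) * F z := by
  have hm : ∀ k : ℕ, Measurable fun z => ENNReal.ofReal (Wt (2 ^ k * (t / 4)) z) * F z := fun k =>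
    (Wt_cont _).measurable.ennreal_ofReal.mul hF
  calc ∫⁻ z in Far t, F z = ∫⁻ z, (Far t).indicator 1 z * F z := by
        rw [← lintegral_indicator (Far_meas t)]
        refine lintegral_congr fun z => ?_
        by_cases hz : z ∈ Far t
        · rw [indicator_of_mem hz, indicator_of_mem hz, Pi.one_apply, one_mul]
        · rw [indicator_of_notMem hz, indicator_of_notMem hz, zero_mul]
    _ ≤ ∫⁻ z, (∑' k : ℕ, 1000 * ENNReal.ofReal (Wt (2 ^ k * (t / 4)) z)) * F z :=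
        lintegral_mono fun z => mul_le_mul_left (far_cover t ht z) _
    _ = ∫⁻ z, ∑' k : ℕ, 1000 * (ENNReal.ofReal (Wt (2 ^ k * (t / 4)) z) * F z) := by
        refine lintegral_congr fun z => ?_
        rw [← ENNReal.tsum_mul_right]
        exact tsum_congr fun k => by ring
    _ = ∑' k : ℕ, ∫⁻ z, 1000 * (ENNReal.ofReal (Wt (2 ^ k * (t / 4)) z) * F z) :=
        lintegral_tsum fun k => ((hm k).const_mul _).aemeasurable
    _ = _ := tsum_congr fun k => lintegral_const_mul _ (hm k)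

/-- the constant of the angular operator -/
noncomputable def Kc (s : ℝ) : ℝ≥0∞ := 1000 * (ENNReal.ofReal ((1 - rg s)⁻¹) * (Cs s + Cs (1 / 2)))

theorem Kc_fin (s : ℝ) (hs0 : 0 ≤ s) (hs1 : s < 1) : Kc s ≠ ∞ := by
  unfold Kc
  refine ENNReal.mul_ne_top (by norm_num) (ENNReal.mul_ne_top ENNReal.ofReal_ne_top ?_)
  exact ENNReal.add_ne_top.2 ⟨Cs_fin s hs1 hs0, Cs_fin (1 / 2) (by norm_num) (by norm_num)⟩

theorem Tt_meas (t : ℝ) (a : ℝ → ℝ → ℂ) (ha : Measurable (Function.uncurry a)) (η : ℝ → ℝ)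
    (hη : Measurable η) :
    Measurable fun q : ℝ × ℂ => Tt (η q.1) t (fun θ => a θ q.1) q.2 := by
  have h1 : StronglyMeasurable fun q : (ℝ × ℂ) × ℝ => a q.2 q.1.1 * eP (η q.1.1) t q.2 q.1.2 := by
    refine Measurable.stronglyMeasurable ?_
    have h2 : Measurable fun q : (ℝ × ℂ) × ℝ => a q.2 q.1.1 := by
      show Measurable ((Function.uncurry a) ∘ fun q : (ℝ × ℂ) × ℝ => (q.2, q.1.1))
      exact ha.comp (by fun_prop)
    have h3 : Measurable fun q : (ℝ × ℂ) × ℝ => uf q.2 q.1.2 := by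
      show Measurable ((fun q : ℝ × ℂ => uf q.1 q.2) ∘ fun p : (ℝ × ℂ) × ℝ => (p.2, p.1.2))
      exact uf_meas.comp (by fun_prop)
    have h4 : Measurable fun q : (ℝ × ℂ) × ℝ => η q.1.1 := hη.comp measurable_fst.fst
    have h5 : Measurable fun q : (ℝ × ℂ) × ℝ => eP (η q.1.1) t q.2 q.1.2 := by
      unfold eP Ph
      exact Complex.measurable_exp.comp (measurable_const.mul (Complex.measurable_ofReal.comp
        (((h3.sub h4).pow_const 2).div_const _)))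
    exact h2.mul h5
  exact h1.integral_prod_right'.measurable

theorem far_fourth (s t η : ℝ) (hs0 : 1 / 2 < s) (hs1 : s < 1) (ht : 0 < t) (c : ℝ)
    (A : Set ℝ) (hA : MeasurableSet A) (hAc : A ⊆ Icc c (c + 1)) (a : ℝ → ℂ) (ha : Measurable a)
    (ha1 : ∀ θ, ‖a θ‖ₑ ≤ A.indicator 1 θ) :
    ∫⁻ z in Far t, ‖Tt η t a z‖ₑ ^ 4 ≤
      ENNReal.ofReal (4000000 * Yt s t η) * (Kc s * volume A) := by
  have hm : Measurable fun z => ‖Tt η t a z‖ₑ ^ 4 := by
    have h1 := Tt_meas t (fun θ _ => a θ) (ha.comp measurable_fst) (fun _ => η) measurable_const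
    have h2 : Measurable fun z : ℂ => Tt η t a z := by
      show Measurable ((fun q : ℝ × ℂ => Tt η t (fun θ => a θ) q.2) ∘ fun z : ℂ => ((0 : ℝ), z))
      exact h1.comp (by fun_prop)
    exact h2.enorm.pow_const 4
  refine (far_sum t ht _ hm).trans ?_
  have h3 : ∀ k : ℕ, 1000 * ∫⁻ z, ENNReal.ofReal (Wt (2 ^ k * (t / 4)) z) * ‖Tt η t a z‖ₑ ^ 4 ≤
      ENNReal.ofReal (rg s ^ k) * (1000 * (ENNReal.ofReal (4000000 * Yt s t η) *
        (Cs s + Cs (1 / 2))) * volume A) := by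
    intro k
    have h4 := fourth t (2 ^ k * (t / 4)) η s ht (by positivity) (by linarith) hs1.le c A hA hAc a
      ha ha1
    calc _ ≤ 1000 * (KB t (2 ^ k * (t / 4)) η s * volume A) := by gcongr
      _ ≤ 1000 * ((ENNReal.ofReal (rg s ^ k) * (ENNReal.ofReal (4000000 * Yt s t η) *
          (Cs s + Cs (1 / 2)))) * volume A) := by
          gcongr
          exact KB_le s t η hs0 hs1.le ht k
      _ = _ := by ring
  refine (ENNReal.tsum_le_tsum h3).trans ?_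
  rw [ENNReal.tsum_mul_right]
  have h5 : ∑' k : ℕ, ENNReal.ofReal (rg s ^ k) = ENNReal.ofReal ((1 - rg s)⁻¹) := by
    have h0 := (rg_pos s).le
    have h1 := rg_lt s hs0
    rw [← tsum_geometric_of_lt_one h0 h1, ENNReal.ofReal_tsum_of_nonneg (fun k => by positivity)
      (summable_geometric_of_lt_one h0 h1)]
  rw [h5]
  unfold Kc
  refine le_of_eq ?_
  ring

end Pool.Agent.J4.H87.Ray
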