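import Mathlib
import Pool.Agent.J4.H87.RayN
set_option autoImplicit false

/-! Rays: the fourth moment of the mollified block. -/

namespace Pool.Agent.J4.H87.Ray

open MeasureTheory Complex Set Filter Topology
open scoped ENNReal ComplexConjugate

/-- the scale of the mollification -/
noncomputable def dl (t : ℝ) : ℝ := (Real.sqrt t)⁻¹

theorem dl_pos {t : ℝ} (ht : 16 ≤ t) : 0 < dl t := by
  unfold dl
  have : 0 < Real.sqrt t := Real.sqrt_pos.2 (by linarith)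
  positivity

theorem dl_le {t : ℝ} (ht : 16 ≤ t) : dl t ≤ 1 / 4 := by
  unfold dl
  rw [one_div]
  refine inv_anti₀ (by norm_num) ?_
  rw [show (4 : ℝ) = Real.sqrt 16 by rw [show (16 : ℝ) = 4 ^ 2 by norm_num, Real.sqrt_sq (by norm_num)]]
  exact Real.sqrt_le_sqrt ht

/-- the integral of the weight -/
noncomputable def Jw (ε : ℝ) : ℝ≥0∞ := ∫⁻ η : ℝ, ENNReal.ofReal ((1 + ‖η‖) ^ (-(1 + ε)))

theorem Jw_fin (ε : ℝ) (hε : 0 < ε) : Jw ε ≠ ∞ := by
  unfold Jw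
  refine (finite_integral_one_add_norm (E := ℝ) (μ := volume) ?_).ne
  rw [Module.finrank_self]
  push_cast
  linarith

theorem base {t : ℝ} (ht : 16 ≤ t) (η : ℝ) : 1 + |η| ≤ Real.sqrt t * (1 + |dl t * η|) := by
  have hs : 0 < Real.sqrt t := Real.sqrt_pos.2 (by linarith)
  have h1 : 1 ≤ Real.sqrt t := by
    rw [Real.one_le_sqrt]; linarith
  have h2 : Real.sqrt t * |dl t * η| = |η| := by
    unfold dl
    rw [abs_mul, abs_of_pos (by positivity), ← mul_assoc, mul_inv_cancel₀ hs.ne', one_mul]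
  rw [mul_add, h2]
  linarith

theorem bb_pow (M : Moll) {t ε : ℝ} (ht : 16 ≤ t) (hε0 : 0 < ε) (hε1 : ε ≤ 1) (η : ℝ) (j : ℕ)
    (hj : j ≤ 4) :
    bb M (dl t) η * (1 + |η|) ^ j ≤
      M.C * (1 + ‖η‖) ^ (-(1 + ε)) * t ^ (((j : ℝ) + ε) / 2) := by
  have hC := M.hC
  set x : ℝ := 1 + |η| with hx
  set y : ℝ := 1 + |dl t * η| with hy
  have hx1 : 1 ≤ x := by rw [hx]; linarith [abs_nonneg η]
  have hy1 : 1 ≤ y := by rw [hy]; linarith [abs_nonneg (dl t * η)]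
  have hx0 : 0 < x := by linarith
  have hy0 : 0 < y := by linarith
  have ht0 : 0 < t := by linarith
  have hxy : x ≤ Real.sqrt t * y := base ht η
  have e1 : bb M (dl t) η = M.C * ((y ^ 8)⁻¹ * x⁻¹) := rfl
  have e2 : (1 + ‖η‖ : ℝ) = x := by rw [hx, Real.norm_eq_abs]
  rw [e1, e2]
  have h1 : x ^ ((j : ℝ) + ε) ≤ t ^ (((j : ℝ) + ε) / 2) * y ^ ((8 : ℕ) : ℝ) := by
    calc x ^ ((j : ℝ) + ε) ≤ (Real.sqrt t * y) ^ ((j : ℝ) + ε) :=
          Real.rpow_le_rpow hx0.le hxy (by positivity)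
      _ = t ^ (((j : ℝ) + ε) / 2) * y ^ ((j : ℝ) + ε) := by
          rw [Real.mul_rpow (Real.sqrt_nonneg _) hy0.le, Real.sqrt_eq_rpow, ← Real.rpow_mul ht0.le]
          ring_nf
      _ ≤ t ^ (((j : ℝ) + ε) / 2) * y ^ ((8 : ℕ) : ℝ) := by
          refine mul_le_mul_of_nonneg_left ?_ (by positivity)
          refine Real.rpow_le_rpow_of_exponent_le hy1 ?_
          have : (j : ℝ) ≤ 4 := by exact_mod_cast hj
          push_cast
          linarith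
  rw [Real.rpow_natCast] at h1
  have h2 : x ^ (-(1 + ε)) * x ^ ((j : ℝ) + ε) = x⁻¹ * x ^ j := by
    rw [← Real.rpow_add hx0, ← Real.rpow_natCast, ← Real.rpow_neg_one, ← Real.rpow_add hx0]
    ring_nf
  have h3 : 0 < x ^ (-(1 + ε)) := by positivity
  have h4 : 0 < t ^ (((j : ℝ) + ε) / 2) := by positivity
  have h5 : x⁻¹ * x ^ j ≤ x ^ (-(1 + ε)) * (t ^ (((j : ℝ) + ε) / 2) * y ^ 8) := by
    rw [← h2]
    exact mul_le_mul_of_nonneg_left h1 h3.le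
  calc M.C * ((y ^ 8)⁻¹ * x⁻¹) * x ^ j = M.C * (y ^ 8)⁻¹ * (x⁻¹ * x ^ j) := by ring
    _ ≤ M.C * (y ^ 8)⁻¹ * (x ^ (-(1 + ε)) * (t ^ (((j : ℝ) + ε) / 2) * y ^ 8)) := by
        refine mul_le_mul_of_nonneg_left h5 (by positivity)
    _ = M.C * x ^ (-(1 + ε)) * t ^ (((j : ℝ) + ε) / 2) := by
        field_simp

theorem bb_Y (M : Moll) {t ε : ℝ} (ht : 16 ≤ t) (hε0 : 0 < ε) (hε1 : ε ≤ 1 / 4) (η : ℝ) :
    bb M (dl t) η * Yt (1 - ε) t (2 * Real.pi * η) ≤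
      M.C * (1 + ‖η‖) ^ (-(1 + ε)) * (1641 * t ^ (5 * ε / 2)) := by
  have hC := M.hC
  have hb := (bb_pos M (dl t) η).le
  have ht0 : 0 < t := by linarith
  have ht1 : 1 ≤ t := by linarith
  have hpi := Real.pi_pos
  have hpi2 := Real.pi_lt_d2
  have h0 := bb_pow M ht hε0 (by linarith) η 0 (by norm_num)
  have h2 := bb_pow M ht hε0 (by linarith) η 2 (by norm_num)
  have h4 := bb_pow M ht hε0 (by linarith) η 4 (by norm_num)
  set w : ℝ := (1 + ‖η‖) ^ (-(1 + ε)) with hw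
  have hw0 : 0 ≤ w := by positivity
  have hx : |η| ≤ 1 + |η| := by linarith
  have hpisq : (2 * Real.pi) ^ 2 ≤ 40 := by nlinarith
  have q2 : (2 * Real.pi * η) ^ 2 ≤ 40 * (1 + |η|) ^ 2 := by
    have h5 : η ^ 2 ≤ (1 + |η|) ^ 2 := by
      rw [← sq_abs]
      exact pow_le_pow_left₀ (abs_nonneg η) hx 2
    calc (2 * Real.pi * η) ^ 2 = (2 * Real.pi) ^ 2 * η ^ 2 := by ring
      _ ≤ 40 * (1 + |η|) ^ 2 := mul_le_mul hpisq h5 (sq_nonneg _) (by norm_num)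
  have q4 : (2 * Real.pi * η) ^ 4 ≤ 1600 * (1 + |η|) ^ 4 := by
    calc (2 * Real.pi * η) ^ 4 = ((2 * Real.pi * η) ^ 2) ^ 2 := by ring
      _ ≤ (40 * (1 + |η|) ^ 2) ^ 2 := pow_le_pow_left₀ (sq_nonneg _) q2 2
      _ = _ := by ring
  have r1 : t ^ (((2 : ℕ) : ℝ) + ε) / 2 = t ^ (((2 : ℕ) : ℝ) + ε) / 2 := rfl
  have e0 : t ^ ((((0 : ℕ) : ℝ) + ε) / 2) * t ^ (2 - 2 * (1 - ε)) = t ^ (5 * ε / 2) := by
    rw [← Real.rpow_add ht0]
    congr 1
    push_cast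
    ring
  have e2 : t ^ ((((2 : ℕ) : ℝ) + ε) / 2) * t ^ (-(2 * (1 - ε))) ≤ t ^ (5 * ε / 2) := by
    rw [← Real.rpow_add ht0]
    refine Real.rpow_le_rpow_of_exponent_le ht1 ?_
    push_cast
    linarith
  have e4 : t ^ ((((4 : ℕ) : ℝ) + ε) / 2) * (t ^ 3)⁻¹ ≤ t ^ (5 * ε / 2) := by
    rw [← Real.rpow_natCast, ← Real.rpow_neg ht0.le, ← Real.rpow_add ht0]
    refine Real.rpow_le_rpow_of_exponent_le ht1 ?_
    push_cast
    linarith
  have T5 : 0 ≤ t ^ (5 * ε / 2) := by positivity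
  have a0 : bb M (dl t) η * t ^ (2 - 2 * (1 - ε)) ≤ M.C * w * t ^ (5 * ε / 2) := by
    rw [pow_zero, mul_one] at h0
    calc _ ≤ (M.C * w * t ^ ((((0 : ℕ) : ℝ) + ε) / 2)) * t ^ (2 - 2 * (1 - ε)) := by gcongr
      _ = M.C * w * (t ^ ((((0 : ℕ) : ℝ) + ε) / 2) * t ^ (2 - 2 * (1 - ε))) := by ring
      _ = _ := by rw [e0]
  have a2 : bb M (dl t) η * ((2 * Real.pi * η) ^ 2 * t ^ (-(2 * (1 - ε)))) ≤
      40 * (M.C * w * t ^ (5 * ε / 2)) := by
    calc _ ≤ bb M (dl t) η * ((40 * (1 + |η|) ^ 2) * t ^ (-(2 * (1 - ε)))) := by gcongr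
      _ = 40 * ((bb M (dl t) η * (1 + |η|) ^ 2) * t ^ (-(2 * (1 - ε)))) := by ring
      _ ≤ 40 * ((M.C * w * t ^ ((((2 : ℕ) : ℝ) + ε) / 2)) * t ^ (-(2 * (1 - ε)))) := by gcongr
      _ = 40 * (M.C * w * (t ^ ((((2 : ℕ) : ℝ) + ε) / 2) * t ^ (-(2 * (1 - ε))))) := by ring
      _ ≤ _ := by gcongr
  have a4 : bb M (dl t) η * ((2 * Real.pi * η) ^ 4 * (t ^ 3)⁻¹) ≤
      1600 * (M.C * w * t ^ (5 * ε / 2)) := by
    calc _ ≤ bb M (dl t) η * ((1600 * (1 + |η|) ^ 4) * (t ^ 3)⁻¹) := by gcongr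
      _ = 1600 * ((bb M (dl t) η * (1 + |η|) ^ 4) * (t ^ 3)⁻¹) := by ring
      _ ≤ 1600 * ((M.C * w * t ^ ((((4 : ℕ) : ℝ) + ε) / 2)) * (t ^ 3)⁻¹) := by gcongr
      _ = 1600 * (M.C * w * (t ^ ((((4 : ℕ) : ℝ) + ε) / 2) * (t ^ 3)⁻¹)) := by ring
      _ ≤ _ := by gcongr
  unfold Yt
  have := add_le_add (add_le_add a0 a2) a4
  calc _ = bb M (dl t) η * t ^ (2 - 2 * (1 - ε)) +
        bb M (dl t) η * ((2 * Real.pi * η) ^ 2 * t ^ (-(2 * (1 - ε)))) +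
        bb M (dl t) η * ((2 * Real.pi * η) ^ 4 * (t ^ 3)⁻¹) := by ring
    _ ≤ _ := this
    _ = _ := by ring

theorem int_bb (M : Moll) {t ε : ℝ} (ht : 16 ≤ t) (hε0 : 0 < ε) (hε1 : ε ≤ 1 / 4) :
    ∫⁻ η, ENNReal.ofReal (bb M (dl t) η) ≤
      ENNReal.ofReal M.C * Jw ε * ENNReal.ofReal (t ^ (ε / 2)) := by
  have hC := M.hC
  have hm : Measurable fun η : ℝ => ENNReal.ofReal ((1 + ‖η‖) ^ (-(1 + ε))) := by fun_prop
  calc ∫⁻ η, ENNReal.ofReal (bb M (dl t) η)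
      ≤ ∫⁻ η, (ENNReal.ofReal M.C * ENNReal.ofReal (t ^ (ε / 2))) *
          ENNReal.ofReal ((1 + ‖η‖) ^ (-(1 + ε))) := by
        refine lintegral_mono fun η => ?_
        rw [← ENNReal.ofReal_mul hC.le, ← ENNReal.ofReal_mul (by positivity)]
        refine ENNReal.ofReal_le_ofReal ?_
        have h0 := bb_pow M ht hε0 (by linarith) η 0 (by norm_num)
        rw [pow_zero, mul_one] at h0
        refine h0.trans (le_of_eq ?_)
        push_cast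
        ring_nf
    _ = _ := by
        rw [lintegral_const_mul _ hm]
        unfold Jw
        ring

theorem int_bbY (M : Moll) {t ε : ℝ} (ht : 16 ≤ t) (hε0 : 0 < ε) (hε1 : ε ≤ 1 / 4) :
    ∫⁻ η, ENNReal.ofReal (bb M (dl t) η) *
        ENNReal.ofReal (4000000 * Yt (1 - ε) t (2 * Real.pi * η)) ≤
      ENNReal.ofReal (6564000000 * M.C) * Jw ε * ENNReal.ofReal (t ^ (5 * ε / 2)) := by
  have hC := M.hC
  have ht0 : 0 < t := by linarith
  have hm : Measurable fun η : ℝ => ENNReal.ofReal ((1 + ‖η‖) ^ (-(1 + ε))) := by fun_prop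
  calc ∫⁻ η, ENNReal.ofReal (bb M (dl t) η) *
        ENNReal.ofReal (4000000 * Yt (1 - ε) t (2 * Real.pi * η))
      ≤ ∫⁻ η, (ENNReal.ofReal (6564000000 * M.C) * ENNReal.ofReal (t ^ (5 * ε / 2))) *
          ENNReal.ofReal ((1 + ‖η‖) ^ (-(1 + ε))) := by
        refine lintegral_mono fun η => ?_
        rw [← ENNReal.ofReal_mul (bb_pos M _ _).le, ← ENNReal.ofReal_mul (by positivity),
          ← ENNReal.ofReal_mul (by positivity)]
        refine ENNReal.ofReal_le_ofReal ?_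
        have h0 := bb_Y M ht hε0 hε1 η
        calc _ = 4000000 * (bb M (dl t) η * Yt (1 - ε) t (2 * Real.pi * η)) := by ring
          _ ≤ 4000000 * (M.C * (1 + ‖η‖) ^ (-(1 + ε)) * (1641 * t ^ (5 * ε / 2))) := by gcongr
          _ = _ := by ring
    _ = _ := by
        rw [lintegral_const_mul _ hm]
        unfold Jw
        ring

/-- the normalised angular factor -/
noncomputable def Xn (M : Moll) (δ t : ℝ) (h : ℝ → ℝ → ℂ) (η : ℝ) (z : ℂ) : ℝ≥0∞ :=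
  ‖Tt (2 * Real.pi * η) t (fun θ => cf M δ (h θ) η / (bb M δ η : ℂ)) z‖ₑ

theorem Xn_meas (M : Moll) (δ t : ℝ) {h : ℝ → ℝ → ℂ} (hm : Measurable (Function.uncurry h)) :
    Measurable fun q : ℝ × ℂ => Xn M δ t h q.1 q.2 := by
  unfold Xn
  have h1 : Measurable (Function.uncurry fun (θ η : ℝ) => cf M δ (h θ) η / (bb M δ η : ℂ)) :=
    (cf_meas M δ hm).div (Complex.measurable_ofReal.comp ((bb_meas M δ).comp measurable_snd))
  exact (Tt_meas t (fun θ η => cf M δ (h θ) η / (bb M δ η : ℂ)) h1 (fun η => 2 * Real.pi * η)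
    (by fun_prop)).enorm

theorem Tt_scale (M : Moll) (δ t : ℝ) (h : ℝ → ℝ → ℂ) (η : ℝ) (z : ℂ) :
    ‖Tt (2 * Real.pi * η) t (fun θ => cf M δ (h θ) η) z‖ₑ =
      ENNReal.ofReal (bb M δ η) * Xn M δ t h η z := by
  have hb := bb_pos M δ η
  have hbc : (bb M δ η : ℂ) ≠ 0 := by exact_mod_cast hb.ne'
  have h1 : Tt (2 * Real.pi * η) t (fun θ => cf M δ (h θ) η) z =
      (bb M δ η : ℂ) * Tt (2 * Real.pi * η) t (fun θ => cf M δ (h θ) η / (bb M δ η : ℂ)) z := by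
    unfold Tt
    rw [← integral_const_mul]
    refine integral_congr_ae (Filter.Eventually.of_forall fun θ => ?_)
    simp only
    field_simp
  rw [h1, enorm_mul]
  unfold Xn
  congr 1
  rw [← ofReal_norm, Complex.norm_real, Real.norm_of_nonneg hb.le]

theorem kk_pt {c : ℝ} {A : Set ℝ} {h : ℝ → ℝ → ℂ} (hB : Blk c A h) (M : Moll) {t : ℝ}
    (ht : 16 ≤ t) (z : ℂ) :
    ‖EP (kk M (dl t) h) t z‖ₑ ^ 4 ≤ ‖Fr t‖ₑ ^ 4 * ((∫⁻ η, ENNReal.ofReal (bb M (dl t) η)) ^ 3 *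
      ∫⁻ η, ENNReal.ofReal (bb M (dl t) η) * Xn M (dl t) t h η z ^ 4) := by
  rw [rep2 hB M (dl_pos ht) (dl_le ht) (by linarith) z, enorm_mul, mul_pow]
  refine mul_le_mul_right ?_ _
  have h1 : Measurable fun η => Xn M (dl t) t h η z := by
    show Measurable ((fun q : ℝ × ℂ => Xn M (dl t) t h q.1 q.2) ∘ fun η : ℝ => (η, z))
    exact (Xn_meas M (dl t) t hB.m).comp (by fun_prop)
  refine le_trans ?_ (holder4 _ _ (bb_meas M (dl t)).ennreal_ofReal h1)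
  gcongr
  refine (enorm_integral_le_lintegral_enorm _).trans (le_of_eq ?_)
  exact lintegral_congr fun η => Tt_scale M (dl t) t h η z

theorem Xn_far {c : ℝ} {A : Set ℝ} {h : ℝ → ℝ → ℂ} (hB : Blk c A h) (M : Moll) {t ε : ℝ}
    (ht : 16 ≤ t) (hε0 : 0 < ε) (hε1 : ε ≤ 1 / 4) (η : ℝ) :
    ∫⁻ z in Far t, Xn M (dl t) t h η z ^ 4 ≤
      ENNReal.ofReal (4000000 * Yt (1 - ε) t (2 * Real.pi * η)) * (Kc (1 - ε) * volume A) := by
  have hb := bb_pos M (dl t) η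
  refine far_fourth (1 - ε) t (2 * Real.pi * η) (by linarith) (by linarith) (by linarith) c A hB.mA
    hB.Ac _ ?_ fun θ => ?_
  · refine Measurable.div_const ?_ _
    show Measurable ((fun q : ℝ × ℝ => cf M (dl t) (h q.1) q.2) ∘ fun θ : ℝ => (θ, η))
    exact (cf_meas M (dl t) hB.m).comp (by fun_prop)
  · by_cases hθ : θ ∈ A
    · rw [indicator_of_mem hθ, Pi.one_apply, ← ofReal_norm, ← ENNReal.ofReal_one]
      refine ENNReal.ofReal_le_ofReal ?_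
      rw [norm_div, Complex.norm_real, Real.norm_of_nonneg hb.le, div_le_one hb]
      exact cf_le M (dl t) (hB.f θ) η
    · have h0 : cf M (dl t) (h θ) η = 0 := by
        unfold cf
        rw [hB.zero hθ, hat_zero, mul_zero]
      rw [h0, zero_div]
      simp

theorem far4 (M : Moll) {ε : ℝ} (hε0 : 0 < ε) (hε1 : ε ≤ 1 / 4) :
    ∃ K : ℝ≥0∞, K ≠ ∞ ∧ ∀ (c : ℝ) (A : Set ℝ) (h : ℝ → ℝ → ℂ), Blk c A h → ∀ t : ℝ, 16 ≤ t →
      ∫⁻ z in Far t, ‖EP (kk M (dl t) h) t z‖ₑ ^ 4 ≤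
        K * ENNReal.ofReal (t ^ (-2 + 4 * ε)) * volume A := by
  refine ⟨ENNReal.ofReal (Real.pi ^ 2) * ((ENNReal.ofReal M.C * Jw ε) ^ 3 *
    (ENNReal.ofReal (6564000000 * M.C) * Jw ε)) * Kc (1 - ε), ?_, ?_⟩
  · refine ENNReal.mul_ne_top (ENNReal.mul_ne_top ENNReal.ofReal_ne_top (ENNReal.mul_ne_top
      (ENNReal.pow_ne_top (ENNReal.mul_ne_top ENNReal.ofReal_ne_top (Jw_fin ε hε0)))
      (ENNReal.mul_ne_top ENNReal.ofReal_ne_top (Jw_fin ε hε0)))) (Kc_fin _ (by linarith) (by linarith))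
  intro c A h hB t ht
  have ht0 : 0 < t := by linarith
  have hXm := Xn_meas M (dl t) t hB.m
  have hbm : Measurable fun η => ENNReal.ofReal (bb M (dl t) η) := (bb_meas M (dl t)).ennreal_ofReal
  have hJm : Measurable fun q : ℝ × ℂ => ENNReal.ofReal (bb M (dl t) q.1) *
      Xn M (dl t) t h q.1 q.2 ^ 4 := (hbm.comp measurable_fst).mul (hXm.pow_const 4)
  have hI : Measurable fun z : ℂ => ∫⁻ η, ENNReal.ofReal (bb M (dl t) η) *
      Xn M (dl t) t h η z ^ 4 := hJm.lintegral_prod_left'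
  have hFr : ‖Fr t‖ₑ ^ 4 = ENNReal.ofReal (Real.pi ^ 2) * ENNReal.ofReal (t ^ (-2 : ℝ)) := by
    rw [← ofReal_norm, ← ENNReal.ofReal_pow (norm_nonneg _), ← ENNReal.ofReal_mul (by positivity)]
    congr 1
    have h1 : ‖Fr t‖ ^ 4 = (‖Fr t‖ ^ 2) ^ 2 := by ring
    rw [h1, Fr_norm t ht0, Real.rpow_neg ht0.le, Real.rpow_two]
    field_simp
  set B1 : ℝ≥0∞ := ∫⁻ η, ENNReal.ofReal (bb M (dl t) η) with hB1
  calc ∫⁻ z in Far t, ‖EP (kk M (dl t) h) t z‖ₑ ^ 4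
      ≤ ∫⁻ z in Far t, ‖Fr t‖ₑ ^ 4 * (B1 ^ 3 *
          ∫⁻ η, ENNReal.ofReal (bb M (dl t) η) * Xn M (dl t) t h η z ^ 4) :=
        lintegral_mono fun z => kk_pt hB M ht z
    _ = ‖Fr t‖ₑ ^ 4 * (B1 ^ 3 * ∫⁻ z in Far t,
          ∫⁻ η, ENNReal.ofReal (bb M (dl t) η) * Xn M (dl t) t h η z ^ 4) := by
        rw [lintegral_const_mul _ (hI.const_mul _), lintegral_const_mul _ hI]
    _ = ‖Fr t‖ₑ ^ 4 * (B1 ^ 3 * ∫⁻ η, ENNReal.ofReal (bb M (dl t) η) *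
          ∫⁻ z in Far t, Xn M (dl t) t h η z ^ 4) := by
        congr 2
        rw [lintegral_lintegral_swap]
        · refine lintegral_congr fun η => ?_
          have h2 : Measurable fun z : ℂ => Xn M (dl t) t h η z ^ 4 := by
            show Measurable ((fun q : ℝ × ℂ => Xn M (dl t) t h q.1 q.2 ^ 4) ∘ fun z : ℂ => (η, z))
            exact (hXm.pow_const 4).comp (by fun_prop)
          rw [lintegral_const_mul _ h2]
        · exact (hJm.comp measurable_swap).aemeasurable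
    _ ≤ ‖Fr t‖ₑ ^ 4 * (B1 ^ 3 * ∫⁻ η, ENNReal.ofReal (bb M (dl t) η) *
          (ENNReal.ofReal (4000000 * Yt (1 - ε) t (2 * Real.pi * η)) *
            (Kc (1 - ε) * volume A))) := by
        gcongr with η
        exact Xn_far hB M ht hε0 hε1 η
    _ = ‖Fr t‖ₑ ^ 4 * (B1 ^ 3 * ((∫⁻ η, ENNReal.ofReal (bb M (dl t) η) *
          ENNReal.ofReal (4000000 * Yt (1 - ε) t (2 * Real.pi * η))) *
            (Kc (1 - ε) * volume A))) := by
        congr 2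
        have h3 : Measurable fun η => ENNReal.ofReal (bb M (dl t) η) *
            ENNReal.ofReal (4000000 * Yt (1 - ε) t (2 * Real.pi * η)) := by
          unfold Yt
          exact hbm.mul (by fun_prop)
        rw [← lintegral_mul_const _ h3]
        exact lintegral_congr fun η => (mul_assoc _ _ _).symm
    _ ≤ ‖Fr t‖ₑ ^ 4 * ((ENNReal.ofReal M.C * Jw ε * ENNReal.ofReal (t ^ (ε / 2))) ^ 3 *
          ((ENNReal.ofReal (6564000000 * M.C) * Jw ε * ENNReal.ofReal (t ^ (5 * ε / 2))) *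
            (Kc (1 - ε) * volume A))) := by
        gcongr
        · exact int_bb M ht hε0 hε1
        · exact int_bbY M ht hε0 hε1
    _ = _ := by
        rw [hFr]
        have h4 : ENNReal.ofReal (t ^ (-2 : ℝ)) * (ENNReal.ofReal (t ^ (ε / 2)) ^ 3 *
            ENNReal.ofReal (t ^ (5 * ε / 2))) = ENNReal.ofReal (t ^ (-2 + 4 * ε)) := by
          rw [← ENNReal.ofReal_pow (by positivity), ← ENNReal.ofReal_mul (by positivity),
            ← ENNReal.ofReal_mul (by positivity), ← Real.rpow_natCast, ← Real.rpow_mul ht0.le,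
            ← Real.rpow_add ht0, ← Real.rpow_add ht0]
          congr 2
          push_cast
          ring
        rw [← h4]
        ring

end Pool.Agent.J4.H87.Ray
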