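import Mathlib
import Pool.Agent.J4.H87.RayO
set_option autoImplicit false

/-! Rays: the estimate of a block. -/

namespace Pool.Agent.J4.H87.Ray

open MeasureTheory Complex Set Filter Topology
open scoped ENNReal ComplexConjugate

theorem sup_l2 (F : ℂ → ℝ≥0∞) (S : ℝ≥0∞) (hS : ∀ z, F z ≤ S) {q : ℝ} (hq : 2 ≤ q) (Z : Set ℂ)
    (hF : Measurable F) :
    ∫⁻ z in Z, F z ^ q ≤ S ^ (q - 2) * ∫⁻ z in Z, F z ^ 2 := by
  rw [← lintegral_const_mul _ (hF.pow_const 2)]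
  refine lintegral_mono fun z => ?_
  have h1 : F z ^ q = F z ^ (q - 2) * F z ^ 2 := by
    rw [← ENNReal.rpow_natCast (F z) 2, ← ENNReal.rpow_add_of_nonneg _ _ (by linarith) (by norm_num)]
    congr 1
    push_cast
    ring
  rw [h1]
  exact mul_le_mul_left (ENNReal.rpow_le_rpow (hS z) (by linarith)) _

theorem lyap (F : ℂ → ℝ≥0∞) (hF : Measurable F) {p : ℝ} (hp2 : 2 ≤ p) (hp4 : p ≤ 4) (Z : Set ℂ) :
    ∫⁻ z in Z, F z ^ p ≤ (∫⁻ z in Z, F z ^ 2) ^ ((4 - p) / 2) * (∫⁻ z in Z, F z ^ 4) ^ ((p - 2) / 2) := by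
  have h := ENNReal.lintegral_mul_norm_pow_le (μ := (volume : Measure ℂ).restrict Z)
    (f := fun z => F z ^ 2) (g := fun z => F z ^ 4) (hF.pow_const 2).aemeasurable
    (hF.pow_const 4).aemeasurable (p := (4 - p) / 2) (q := (p - 2) / 2) (by linarith) (by linarith)
    (by ring)
  refine le_trans (le_of_eq ?_) h
  refine lintegral_congr fun z => ?_
  rw [← ENNReal.rpow_natCast (F z) 2, ← ENNReal.rpow_natCast (F z) 4, ← ENNReal.rpow_mul,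
    ← ENNReal.rpow_mul, ← ENNReal.rpow_add_of_nonneg]
  · congr 1
    push_cast
    ring
  · push_cast
    linarith
  · push_cast
    linarith

theorem Blk.vol {c : ℝ} {A : Set ℝ} {h : ℝ → ℝ → ℂ} (hB : Blk c A h) : volume A ≤ 1 := by
  refine (measure_mono hB.Ac).trans ?_
  rw [Real.volume_Icc]
  simp

theorem ind_bound {A : Set ℝ} (hA : MeasurableSet A) (K : ℝ≥0∞) (F : ℝ → ℝ≥0∞)
    (h1 : ∀ θ, θ ∉ A → F θ = 0) (h2 : ∀ θ, F θ ≤ K) : ∫⁻ θ, F θ ≤ K * volume A := by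
  calc ∫⁻ θ, F θ ≤ ∫⁻ θ, A.indicator (fun _ => K) θ := by
        refine lintegral_mono fun θ => ?_
        by_cases h : θ ∈ A
        · rw [indicator_of_mem h]; exact h2 θ
        · rw [h1 θ h]; exact zero_le
    _ = K * volume A := by rw [lintegral_indicator hA, setLIntegral_const]

theorem one_int (F : ℝ → ℝ≥0∞) (h1 : ∀ r, r ∉ Icc (1 / 4 : ℝ) (5 / 4) → F r = 0)
    (h2 : ∀ r, F r ≤ 1) : ∫⁻ r, F r ≤ 1 := by
  have h := ind_bound (A := Icc (1 / 4 : ℝ) (5 / 4)) measurableSet_Icc 1 F h1 h2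
  rw [Real.volume_Icc] at h
  norm_num at h
  exact h

theorem Blk.hz {c : ℝ} {A : Set ℝ} {h : ℝ → ℝ → ℂ} (hB : Blk c A h) (M : Moll) (δ : ℝ) {θ : ℝ}
    (hθ : θ ∉ A) (r : ℝ) : kk M δ h θ r = 0 := by
  unfold kk mol
  rw [hB.zero hθ]
  simp

theorem h_sup {c : ℝ} {A : Set ℝ} {h : ℝ → ℝ → ℂ} (hB : Blk c A h) :
    ∫⁻ θ, ∫⁻ r, ‖h θ r‖ₑ ≤ volume A := by
  have := ind_bound hB.mA 1 (fun θ => ∫⁻ r, ‖h θ r‖ₑ) (fun θ hθ => by simp [hB.zero hθ])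
    (fun θ => (hB.f θ).int_le.trans (by rw [← ENNReal.ofReal_one]; exact ENNReal.ofReal_le_ofReal (by norm_num)))
  rwa [one_mul] at this

theorem enorm_le_one {w : ℂ} (hw : ‖w‖ ≤ 1) : ‖w‖ₑ ≤ 1 := by
  rw [← ofReal_norm, ← ENNReal.ofReal_one]
  exact ENNReal.ofReal_le_ofReal hw

theorem h_two {c : ℝ} {A : Set ℝ} {h : ℝ → ℝ → ℂ} (hB : Blk c A h) :
    ∫⁻ θ, ∫⁻ r, ‖h θ r‖ₑ ^ 2 ≤ volume A := by
  refine le_trans (lintegral_mono fun θ => lintegral_mono fun r => ?_) (h_sup hB)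
  have h1 := enorm_le_one ((hB.f θ).b r)
  calc ‖h θ r‖ₑ ^ 2 = ‖h θ r‖ₑ * ‖h θ r‖ₑ := sq _
    _ ≤ 1 * ‖h θ r‖ₑ := mul_le_mul_left h1 _
    _ = _ := one_mul _

theorem kk_sup {c : ℝ} {A : Set ℝ} {h : ℝ → ℝ → ℂ} (hB : Blk c A h) (M : Moll) {t : ℝ}
    (ht : 16 ≤ t) : ∫⁻ θ, ∫⁻ r, ‖kk M (dl t) h θ r‖ₑ ≤ volume A := by
  have := ind_bound hB.mA 1 (fun θ => ∫⁻ r, ‖kk M (dl t) h θ r‖ₑ)
    (fun θ hθ => by simp [hB.hz M _ hθ])
    (fun θ => one_int _ (fun r hr => by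
      rw [(hB.rtk M (dl_pos ht) (dl_le ht)).sr θ r hr, enorm_zero])
      (fun r => enorm_le_one ((hB.rtk M (dl_pos ht) (dl_le ht)).b θ r)))
  rwa [one_mul] at this

theorem kk_two {c : ℝ} {A : Set ℝ} {h : ℝ → ℝ → ℂ} (hB : Blk c A h) (M : Moll) {t : ℝ}
    (ht : 16 ≤ t) : ∫⁻ θ, ∫⁻ r, ‖kk M (dl t) h θ r‖ₑ ^ 2 ≤ volume A := by
  refine le_trans (lintegral_mono fun θ => lintegral_mono fun r => ?_) (kk_sup hB M ht)
  have h1 := enorm_le_one ((hB.rtk M (dl_pos ht) (dl_le ht)).b θ r)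
  calc ‖kk M (dl t) h θ r‖ₑ ^ 2 = ‖kk M (dl t) h θ r‖ₑ * ‖kk M (dl t) h θ r‖ₑ := sq _
    _ ≤ 1 * ‖kk M (dl t) h θ r‖ₑ := mul_le_mul_left h1 _
    _ = _ := one_mul _

theorem gk_sup {c : ℝ} {A : Set ℝ} {h : ℝ → ℝ → ℂ} (hB : Blk c A h) (M : Moll) {t : ℝ}
    (ht : 16 ≤ t) : ∫⁻ θ, ∫⁻ r, ‖gk M (dl t) h θ r‖ₑ ≤ ENNReal.ofReal (dl t) * volume A := by
  refine ind_bound hB.mA _ (fun θ => ∫⁻ r, ‖gk M (dl t) h θ r‖ₑ)
    (fun θ hθ => ?_) (fun θ => mol_err M (dl_pos ht) (hB.f θ))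
  simp only [gk, hB.hz M _ hθ, hB.s θ _ hθ, sub_zero, enorm_zero, lintegral_zero]

theorem gk_two {c : ℝ} {A : Set ℝ} {h : ℝ → ℝ → ℂ} (hB : Blk c A h) (M : Moll) {t : ℝ}
    (ht : 16 ≤ t) :
    ∫⁻ θ, ∫⁻ r, ‖gk M (dl t) h θ r‖ₑ ^ 2 ≤ 2 * (ENNReal.ofReal (dl t) * volume A) := by
  have hg := (hB.rtg M (dl_pos ht) (dl_le ht))
  have h2 : ∀ θ r, ‖gk M (dl t) h θ r‖ₑ ≤ 2 := by
    intro θ r
    rw [← ofReal_norm, show (2 : ℝ≥0∞) = ENNReal.ofReal 2 by norm_num]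
    exact ENNReal.ofReal_le_ofReal (hg.b θ r)
  calc ∫⁻ θ, ∫⁻ r, ‖gk M (dl t) h θ r‖ₑ ^ 2
      ≤ ∫⁻ θ, ∫⁻ r, 2 * ‖gk M (dl t) h θ r‖ₑ := by
        refine lintegral_mono fun θ => lintegral_mono fun r => ?_
        rw [sq]
        exact mul_le_mul_left (h2 θ r) _
    _ = 2 * ∫⁻ θ, ∫⁻ r, ‖gk M (dl t) h θ r‖ₑ := by
        have hm : Measurable (fun q : ℝ × ℝ => ‖gk M (dl t) h q.1 q.2‖ₑ) := hg.m.enorm
        have hm1 : ∀ θ, Measurable fun r => ‖gk M (dl t) h θ r‖ₑ := fun θ =>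
          hm.comp (measurable_const.prodMk measurable_id)
        rw [← lintegral_const_mul _ hm.lintegral_prod_right']
        exact lintegral_congr fun θ => lintegral_const_mul _ (hm1 θ)
    _ ≤ _ := by gcongr; exact gk_sup hB M ht

theorem EPm {c B : ℝ} {H : ℝ → ℝ → ℂ} (hH : Rt c B H) (t : ℝ) :
    Measurable fun z : ℂ => ‖EP H t z‖ₑ := by
  have : Measurable fun z : ℂ => EP H t z := by
    show Measurable ((fun q : ℝ × ℂ => EP H q.1 q.2) ∘ fun z : ℂ => (t, z))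
    exact (EP_meas hH).comp (by fun_prop)
  exact this.enorm

theorem small_t {c : ℝ} {A : Set ℝ} {h : ℝ → ℝ → ℂ} (hB : Blk c A h) (t : ℝ) {q : ℝ}
    (hq : 2 ≤ q) :
    ∫⁻ z, ‖EP h t z‖ₑ ^ q ≤ ENNReal.ofReal (16 * Real.pi ^ 2) * volume A ^ (q - 1) := by
  have h1 := sup_l2 (fun z => ‖EP h t z‖ₑ) (volume A) (fun z => (EP_sup hB.rt t z).trans (h_sup hB))
    hq univ (EPm hB.rt t)
  rw [Measure.restrict_univ] at h1
  refine h1.trans ?_
  calc volume A ^ (q - 2) * ∫⁻ z, ‖EP h t z‖ₑ ^ 2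
      ≤ volume A ^ (q - 2) * (ENNReal.ofReal (16 * Real.pi ^ 2) * volume A) := by
        gcongr
        exact (EP_l2 hB.rt t).trans (by gcongr; exact h_two hB)
    _ = _ := by
        have : volume A ^ (q - 1) = volume A ^ (q - 2) * volume A := by
          nth_rewrite 3 [← ENNReal.rpow_one (volume A)]
          rw [← ENNReal.rpow_add_of_nonneg _ _ (by linarith) (by norm_num)]
          congr 1
          ring
        rw [this]
        ring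

theorem uf_le (θ : ℝ) (z : ℂ) : |uf θ z| ≤ ‖z‖ := by
  unfold uf
  refine (Complex.abs_re_le_norm _).trans ?_
  rw [norm_mul, Complex.norm_conj]
  have : ‖ec θ‖ = 1 := by
    unfold ec
    exact Complex.norm_exp_ofReal_mul_I _
  rw [this, mul_one]

theorem near_pt {c : ℝ} {A : Set ℝ} {h : ℝ → ℝ → ℂ} (hB : Blk c A h) {t : ℝ} (ht : 0 < t) {z : ℂ}
    (hz : ‖z‖ ≤ t / 4) : ‖EP h t z‖ₑ ≤ ENNReal.ofReal (64 / t) * volume A := by
  unfold EP
  refine (enorm_integral_le_lintegral_enorm _).trans ?_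
  refine ind_bound hB.mA _ _ (fun θ hθ => ?_) fun θ => ?_
  · rw [hB.zero hθ]; simp
  · rw [← ofReal_norm]
    exact ENNReal.ofReal_le_ofReal (near1 (hB.f θ) ht ((uf_le θ z).trans hz))

theorem near_int {c : ℝ} {A : Set ℝ} {h : ℝ → ℝ → ℂ} (hB : Blk c A h) {t q : ℝ} (ht : 0 < t)
    (hq : 0 ≤ q) :
    ∫⁻ z in (Far t)ᶜ, ‖EP h t z‖ₑ ^ q ≤
      ENNReal.ofReal (64 ^ q * t ^ (2 - q)) * volume A ^ q := by
  calc ∫⁻ z in (Far t)ᶜ, ‖EP h t z‖ₑ ^ q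
      ≤ ∫⁻ z in (Far t)ᶜ, (ENNReal.ofReal (64 / t) * volume A) ^ q := by
        refine setLIntegral_mono' (Far_meas t).compl fun z hz => ?_
        have hz' : ‖z‖ ≤ t / 4 := by
          have : ¬ (t / 4 ≤ ‖z‖) := hz
          linarith
        exact ENNReal.rpow_le_rpow (near_pt hB ht hz') hq
    _ = (ENNReal.ofReal (64 / t) * volume A) ^ q * volume (Far t)ᶜ := by rw [setLIntegral_const]
    _ ≤ (ENNReal.ofReal (64 / t) * volume A) ^ q * ENNReal.ofReal (t ^ 2) := by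
        gcongr
        have h1 : (Far t)ᶜ ⊆ Metric.ball (0 : ℂ) (t / 4) := by
          intro z hz
          have : ¬ (t / 4 ≤ ‖z‖) := hz
          rw [Metric.mem_ball, dist_zero_right]
          linarith
        refine (measure_mono h1).trans ?_
        rw [Complex.volume_ball]
        have h2 : ENNReal.ofReal (t / 4) ^ 2 = ENNReal.ofReal ((t / 4) ^ 2) := by
          rw [ENNReal.ofReal_pow (by positivity)]
        rw [h2, ← ENNReal.ofReal_coe_nnreal, NNReal.coe_real_pi, ← ENNReal.ofReal_mul (by positivity)]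
        refine ENNReal.ofReal_le_ofReal ?_
        have := Real.pi_le_four
        nlinarith [sq_nonneg t]
    _ = _ := by
        rw [ENNReal.mul_rpow_of_nonneg _ _ hq, ENNReal.ofReal_rpow_of_nonneg (by positivity) hq]
        have h3 : ENNReal.ofReal ((64 / t) ^ q) * ENNReal.ofReal (t ^ 2) =
            ENNReal.ofReal (64 ^ q * t ^ (2 - q)) := by
          rw [← ENNReal.ofReal_mul (by positivity)]
          congr 1
          rw [Real.div_rpow (by norm_num) ht.le, Real.rpow_sub ht, Real.rpow_two]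
          ring
        rw [← h3]
        ring

end Pool.Agent.J4.H87.Ray
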