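import Mathlib
import Pool.Agent.J4.H87.RayP
set_option autoImplicit false

/-! Rays: the estimate of a block, continued. -/

namespace Pool.Agent.J4.H87.Ray

open MeasureTheory Complex Set Filter Topology
open scoped ENNReal ComplexConjugate

theorem dl_rpow {t : ℝ} (ht : 16 ≤ t) (x : ℝ) : dl t ^ x = t ^ (-(x / 2)) := by
  have ht0 : 0 < t := by linarith
  unfold dl
  rw [Real.sqrt_eq_rpow, ← Real.rpow_neg ht0.le, ← Real.rpow_mul ht0.le]
  congr 1
  ring

theorem rpow_one_add' {a : ℝ≥0∞} {x : ℝ} (hx : 0 ≤ x) : a ^ (x + 1) = a ^ x * a := by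
  nth_rewrite 3 [← ENNReal.rpow_one a]
  rw [← ENNReal.rpow_add_of_nonneg _ _ hx (by norm_num)]

theorem err_int {c : ℝ} {A : Set ℝ} {h : ℝ → ℝ → ℂ} (hB : Blk c A h) (M : Moll) {t q : ℝ}
    (ht : 16 ≤ t) (hq : 2 ≤ q) :
    ∫⁻ z in Far t, ‖EP (gk M (dl t) h) t z‖ₑ ^ q ≤
      ENNReal.ofReal (32 * Real.pi ^ 2) * ENNReal.ofReal (t ^ (-((q - 1) / 2))) *
        volume A ^ (q - 1) := by
  have hg := (hB.rtg M (dl_pos ht) (dl_le ht))
  have h1 := sup_l2 (fun z => ‖EP (gk M (dl t) h) t z‖ₑ) (ENNReal.ofReal (dl t) * volume A)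
    (fun z => (EP_sup hg t z).trans (gk_sup hB M ht)) hq (Far t) (EPm hg t)
  refine h1.trans ?_
  calc (ENNReal.ofReal (dl t) * volume A) ^ (q - 2) *
        ∫⁻ z in Far t, ‖EP (gk M (dl t) h) t z‖ₑ ^ 2
      ≤ (ENNReal.ofReal (dl t) * volume A) ^ (q - 2) *
        (ENNReal.ofReal (16 * Real.pi ^ 2) * (2 * (ENNReal.ofReal (dl t) * volume A))) := by
        gcongr
        exact (setLIntegral_le_lintegral _ _).trans ((EP_l2 hg t).trans
          (by gcongr; exact gk_two hB M ht))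
    _ = ENNReal.ofReal (32 * Real.pi ^ 2) * (ENNReal.ofReal (dl t) * volume A) ^ (q - 1) := by
        have h2 : (ENNReal.ofReal (dl t) * volume A) ^ (q - 1) =
            (ENNReal.ofReal (dl t) * volume A) ^ (q - 2) * (ENNReal.ofReal (dl t) * volume A) := by
          rw [← rpow_one_add' (by linarith)]
          congr 1
          ring
        have h3 : ENNReal.ofReal (32 * Real.pi ^ 2) = 2 * ENNReal.ofReal (16 * Real.pi ^ 2) := by
          rw [show (2 : ℝ≥0∞) = ENNReal.ofReal 2 by norm_num, ← ENNReal.ofReal_mul (by norm_num)]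
          congr 1
          ring
        rw [h2, h3]
        ring
    _ = _ := by
        rw [ENNReal.mul_rpow_of_nonneg _ _ (by linarith),
          ENNReal.ofReal_rpow_of_nonneg (dl_pos ht).le (by linarith), dl_rpow ht]
        ring

theorem far_int {c : ℝ} {A : Set ℝ} {h : ℝ → ℝ → ℂ} (hB : Blk c A h) (M : Moll) {t p q ε : ℝ}
    (ht : 16 ≤ t) (hp2 : 2 ≤ p) (hp4 : p ≤ 4) (hpq : p ≤ q) (K : ℝ≥0∞)
    (hK : ∫⁻ z in Far t, ‖EP (kk M (dl t) h) t z‖ₑ ^ 4 ≤
        K * ENNReal.ofReal (t ^ (-2 + 4 * ε)) * volume A) :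
    ∫⁻ z in Far t, ‖EP (kk M (dl t) h) t z‖ₑ ^ q ≤
      ENNReal.ofReal (16 * Real.pi ^ 2) ^ ((4 - p) / 2) * K ^ ((p - 2) / 2) *
        ENNReal.ofReal (t ^ (-((1 - 2 * ε) * (p - 2)))) * volume A ^ (1 + (q - p)) := by
  have ht0 : 0 < t := by linarith
  have hk := (hB.rtk M (dl_pos ht) (dl_le ht))
  have hm := EPm hk t
  have h1 : ∫⁻ z in Far t, ‖EP (kk M (dl t) h) t z‖ₑ ^ q ≤
      volume A ^ (q - p) * ∫⁻ z in Far t, ‖EP (kk M (dl t) h) t z‖ₑ ^ p := by
    rw [← lintegral_const_mul _ (hm.pow_const p)]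
    refine lintegral_mono fun z => ?_
    have h2 : ‖EP (kk M (dl t) h) t z‖ₑ ^ q =
        ‖EP (kk M (dl t) h) t z‖ₑ ^ (q - p) * ‖EP (kk M (dl t) h) t z‖ₑ ^ p := by
      rw [← ENNReal.rpow_add_of_nonneg _ _ (by linarith) (by linarith)]
      congr 1
      ring
    rw [h2]
    exact mul_le_mul_left (ENNReal.rpow_le_rpow ((EP_sup hk t z).trans (kk_sup hB M ht))
      (by linarith)) _
  refine h1.trans ?_
  have h3 := lyap (fun z => ‖EP (kk M (dl t) h) t z‖ₑ) hm hp2 hp4 (Far t)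
  have h4 : ∫⁻ z in Far t, ‖EP (kk M (dl t) h) t z‖ₑ ^ 2 ≤
      ENNReal.ofReal (16 * Real.pi ^ 2) * volume A :=
    (setLIntegral_le_lintegral _ _).trans ((EP_l2 hk t).trans (by gcongr; exact kk_two hB M ht))
  calc volume A ^ (q - p) * ∫⁻ z in Far t, ‖EP (kk M (dl t) h) t z‖ₑ ^ p
      ≤ volume A ^ (q - p) * ((∫⁻ z in Far t, ‖EP (kk M (dl t) h) t z‖ₑ ^ 2) ^ ((4 - p) / 2) *
          (∫⁻ z in Far t, ‖EP (kk M (dl t) h) t z‖ₑ ^ 4) ^ ((p - 2) / 2)) := by gcongr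
    _ ≤ volume A ^ (q - p) * ((ENNReal.ofReal (16 * Real.pi ^ 2) * volume A) ^ ((4 - p) / 2) *
          (K * ENNReal.ofReal (t ^ (-2 + 4 * ε)) * volume A) ^ ((p - 2) / 2)) := by
        gcongr
    _ = _ := by
        rw [ENNReal.mul_rpow_of_nonneg _ _ (by linarith), ENNReal.mul_rpow_of_nonneg _ _ (by linarith),
          ENNReal.mul_rpow_of_nonneg _ _ (by linarith)]
        have e1 : ENNReal.ofReal (t ^ (-2 + 4 * ε)) ^ ((p - 2) / 2) =
            ENNReal.ofReal (t ^ (-((1 - 2 * ε) * (p - 2)))) := by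
          rw [ENNReal.ofReal_rpow_of_nonneg (by positivity) (by linarith), ← Real.rpow_mul ht0.le]
          congr 2
          ring
        have e2 : volume A ^ (1 + (q - p)) = volume A ^ (q - p) * (volume A ^ ((4 - p) / 2) *
            volume A ^ ((p - 2) / 2)) := by
          rw [← ENNReal.rpow_add_of_nonneg _ _ (by linarith) (by linarith),
            ← ENNReal.rpow_add_of_nonneg _ _ (by linarith) (by linarith)]
          congr 1
          ring
        rw [e1, e2]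
        ring

theorem vol_pow {a : ℝ≥0∞} (ha : a ≤ 1) {x y : ℝ} (h : x ≤ y) : a ^ y ≤ a ^ x :=
  ENNReal.rpow_le_rpow_of_exponent_ge ha h

theorem t_pow {t : ℝ} (ht : 16 ≤ t) {x y : ℝ} (h : x ≤ y) :
    ENNReal.ofReal (t ^ x) ≤ ENNReal.ofReal (t ^ y) :=
  ENNReal.ofReal_le_ofReal (Real.rpow_le_rpow_of_exponent_le (by linarith) h)

/-- the estimate of a block at large times -/
theorem large_t {q : ℝ} (hq3 : 3 < q) (hq4 : q < 4) :
    ∃ K : ℝ≥0∞, K ≠ ∞ ∧ ∀ (c : ℝ) (A : Set ℝ) (h : ℝ → ℝ → ℂ), Blk c A h → ∀ t : ℝ, 16 ≤ t →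
      ∫⁻ z, ‖EP h t z‖ₑ ^ q ≤
        K * ENNReal.ofReal (t ^ (-(1 + (q - 3) / 4))) * volume A ^ (1 + (q - 3) / 2) := by
  obtain ⟨M⟩ := exists_moll
  obtain ⟨K, hK, hfar⟩ := far4 M (ε := (q - 3) / 16) (by linarith) (by linarith)
  set p : ℝ := (3 + q) / 2 with hp
  set K1 : ℝ≥0∞ := ENNReal.ofReal (16 * Real.pi ^ 2) ^ ((4 - p) / 2) * K ^ ((p - 2) / 2) with hK1
  refine ⟨ENNReal.ofReal (64 ^ q) + 2 ^ (q - 1) * (K1 + ENNReal.ofReal (32 * Real.pi ^ 2)), ?_, ?_⟩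
  · refine ENNReal.add_ne_top.2 ⟨ENNReal.ofReal_ne_top, ENNReal.mul_ne_top ?_
      (ENNReal.add_ne_top.2 ⟨ENNReal.mul_ne_top ?_ ?_, ENNReal.ofReal_ne_top⟩)⟩
    · exact ENNReal.rpow_ne_top_of_nonneg (by linarith) (by norm_num)
    · exact ENNReal.rpow_ne_top_of_nonneg (by linarith) ENNReal.ofReal_ne_top
    · exact ENNReal.rpow_ne_top_of_nonneg (by linarith) hK
  intro c A h hB t ht
  have ht0 : 0 < t := by linarith
  have hv := hB.vol
  set T : ℝ≥0∞ := ENNReal.ofReal (t ^ (-(1 + (q - 3) / 4))) with hT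
  set V : ℝ≥0∞ := volume A ^ (1 + (q - 3) / 2) with hV
  have n1 : ∫⁻ z in (Far t)ᶜ, ‖EP h t z‖ₑ ^ q ≤ ENNReal.ofReal (64 ^ q) * T * V := by
    refine (near_int hB ht0 (by linarith)).trans ?_
    rw [ENNReal.ofReal_mul (by positivity)]
    gcongr
    · exact t_pow ht (by linarith)
    · exact vol_pow hv (by linarith)
  have f1 : ∫⁻ z in Far t, ‖EP (kk M (dl t) h) t z‖ₑ ^ q ≤ K1 * T * V := by
    refine (far_int hB M ht (p := p) (q := q) (by linarith) (by linarith) (by linarith) K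
      (hfar c A h hB t ht)).trans ?_
    gcongr
    · refine t_pow ht ?_
      rw [hp]
      nlinarith
    · exact vol_pow hv (by linarith)
  have e1 : ∫⁻ z in Far t, ‖EP (gk M (dl t) h) t z‖ₑ ^ q ≤
      ENNReal.ofReal (32 * Real.pi ^ 2) * T * V := by
    refine (err_int hB M ht (by linarith)).trans ?_
    gcongr
    · exact t_pow ht (by linarith)
    · exact vol_pow hv (by linarith)
  have hmk := EPm (hB.rtk M (dl_pos ht) (dl_le ht)) t
  have hmg := EPm (hB.rtg M (dl_pos ht) (dl_le ht)) t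
  have s1 : ∫⁻ z in Far t, ‖EP h t z‖ₑ ^ q ≤ 2 ^ (q - 1) *
      ((∫⁻ z in Far t, ‖EP (kk M (dl t) h) t z‖ₑ ^ q) +
        ∫⁻ z in Far t, ‖EP (gk M (dl t) h) t z‖ₑ ^ q) := by
    have hs : Measurable fun z => ‖EP (kk M (dl t) h) t z‖ₑ ^ q + ‖EP (gk M (dl t) h) t z‖ₑ ^ q :=
      (hmk.pow_const q).add (hmg.pow_const q)
    rw [← lintegral_add_left (hmk.pow_const q), ← lintegral_const_mul _ hs]
    refine lintegral_mono fun z => ?_
    rw [EP_split hB M (dl_pos ht) (dl_le ht)]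
    refine (ENNReal.rpow_le_rpow (enorm_add_le _ _) (by linarith)).trans ?_
    exact ENNReal.rpow_add_le_mul_rpow_add_rpow _ _ (by linarith)
  rw [← lintegral_add_compl _ (Far_meas t)]
  calc (∫⁻ z in Far t, ‖EP h t z‖ₑ ^ q) + ∫⁻ z in (Far t)ᶜ, ‖EP h t z‖ₑ ^ q
      ≤ 2 ^ (q - 1) * (K1 * T * V + ENNReal.ofReal (32 * Real.pi ^ 2) * T * V) +
        ENNReal.ofReal (64 ^ q) * T * V := by
        refine add_le_add (s1.trans ?_) n1
        gcongr
    _ = _ := by ring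

theorem BVf.conj {f : ℝ → ℂ} (hf : BVf f) : BVf fun r => conj (f r) where
  m := Complex.continuous_conj.measurable.comp hf.m
  s r hr := by rw [hf.s r hr, map_zero]
  b r := by rw [Complex.norm_conj]; exact hf.b r
  v τ := by
    refine le_trans (le_of_eq ?_) (hf.v τ)
    refine lintegral_congr fun r => ?_
    rw [← map_sub, ← ofReal_norm, Complex.norm_conj, ofReal_norm]

theorem Blk.conj {c : ℝ} {A : Set ℝ} {h : ℝ → ℝ → ℂ} (hB : Blk c A h) :
    Blk c A fun θ r => conj (h θ r) where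
  mA := hB.mA
  Ac := hB.Ac
  m := Complex.continuous_conj.measurable.comp hB.m
  s θ r hθ := by rw [hB.s θ r hθ, map_zero]
  f θ := (hB.f θ).conj

theorem EP_conj (h : ℝ → ℝ → ℂ) (t : ℝ) (z : ℂ) :
    EP (fun θ r => conj (h θ r)) (-t) (-z) = conj (EP h t z) := by
  unfold EP
  rw [← integral_conj]
  refine integral_congr_ae (Filter.Eventually.of_forall fun θ => ?_)
  simp only
  rw [← integral_conj]
  refine integral_congr_ae (Filter.Eventually.of_forall fun r => ?_)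
  simp only
  rw [map_mul]
  congr 1
  unfold gr
  rw [ex_conj]
  congr 1
  have : uf θ (-z) = -uf θ z := by
    unfold uf
    rw [neg_mul, Complex.neg_re]
  rw [this]
  ring

theorem EP_neg (h : ℝ → ℝ → ℂ) (t q : ℝ) :
    ∫⁻ z, ‖EP h t z‖ₑ ^ q = ∫⁻ z, ‖EP (fun θ r => conj (h θ r)) (-t) z‖ₑ ^ q := by
  rw [← lintegral_neg_eq_self (μ := (volume : Measure ℂ))
    (fun z => ‖EP (fun θ r => conj (h θ r)) (-t) z‖ₑ ^ q)]
  refine lintegral_congr fun z => ?_
  rw [EP_conj, ← ofReal_norm (conj _), Complex.norm_conj, ofReal_norm]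

/-- the estimate of a block at all times -/
theorem all_t {q : ℝ} (hq3 : 3 < q) (hq4 : q < 4) :
    ∃ K : ℝ≥0∞, K ≠ ∞ ∧ ∀ (c : ℝ) (A : Set ℝ) (h : ℝ → ℝ → ℂ), Blk c A h → ∀ t : ℝ,
      ∫⁻ z, ‖EP h t z‖ₑ ^ q ≤
        K * ENNReal.ofReal ((1 + ‖t‖) ^ (-(1 + (q - 3) / 4))) * volume A ^ (1 + (q - 3) / 2) := by
  obtain ⟨K, hK, hL⟩ := large_t hq3 hq4
  refine ⟨4 * K + ENNReal.ofReal (289 * (16 * Real.pi ^ 2)), ?_, ?_⟩
  · exact ENNReal.add_ne_top.2 ⟨ENNReal.mul_ne_top (by norm_num) hK, ENNReal.ofReal_ne_top⟩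
  intro c A h hB t
  have hv := hB.vol
  set V : ℝ≥0∞ := volume A ^ (1 + (q - 3) / 2) with hV
  have hpos : (0 : ℝ) < 1 + ‖t‖ := by positivity
  rcases le_or_gt |t| 16 with h16 | h16
  · have h1 := small_t hB t (q := q) (by linarith)
    have h2 : volume A ^ (q - 1) ≤ V := vol_pow hv (by linarith)
    have h3 : (1 : ℝ) ≤ 289 * (1 + ‖t‖) ^ (-(1 + (q - 3) / 4)) := by
      have h4 : (1 + ‖t‖) ^ (1 + (q - 3) / 4) ≤ 289 := by
        calc (1 + ‖t‖) ^ (1 + (q - 3) / 4) ≤ (17 : ℝ) ^ (1 + (q - 3) / 4) := by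
              refine Real.rpow_le_rpow hpos.le ?_ (by linarith)
              rw [Real.norm_eq_abs]; linarith
          _ ≤ (17 : ℝ) ^ (2 : ℝ) := Real.rpow_le_rpow_of_exponent_le (by norm_num) (by linarith)
          _ = 289 := by rw [Real.rpow_two]; norm_num
      have h5 : 0 < (1 + ‖t‖) ^ (1 + (q - 3) / 4) := by positivity
      rw [Real.rpow_neg hpos.le, ← div_eq_mul_inv, le_div_iff₀ h5]
      linarith
    calc ∫⁻ z, ‖EP h t z‖ₑ ^ q ≤ ENNReal.ofReal (16 * Real.pi ^ 2) * V := h1.trans (by gcongr)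
      _ ≤ ENNReal.ofReal (289 * (16 * Real.pi ^ 2)) *
          ENNReal.ofReal ((1 + ‖t‖) ^ (-(1 + (q - 3) / 4))) * V := by
          gcongr
          rw [← ENNReal.ofReal_mul (by positivity)]
          refine ENNReal.ofReal_le_ofReal ?_
          have : 0 ≤ 16 * Real.pi ^ 2 := by positivity
          nlinarith
      _ ≤ _ := by
          gcongr
          exact le_add_self
  · have key : ∀ (h : ℝ → ℝ → ℂ), Blk c A h → ∀ s : ℝ, 16 ≤ s → ∫⁻ z, ‖EP h s z‖ₑ ^ q ≤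
        (4 * K + ENNReal.ofReal (289 * (16 * Real.pi ^ 2))) *
          ENNReal.ofReal ((1 + s) ^ (-(1 + (q - 3) / 4))) * V := by
      intro h hB s hs
      have hs0 : 0 < s := by linarith
      refine (hL c A h hB s hs).trans ?_
      have h6 : ENNReal.ofReal (s ^ (-(1 + (q - 3) / 4))) ≤
          4 * ENNReal.ofReal ((1 + s) ^ (-(1 + (q - 3) / 4))) := by
        rw [show (4 : ℝ≥0∞) = ENNReal.ofReal 4 by norm_num, ← ENNReal.ofReal_mul (by norm_num)]
        refine ENNReal.ofReal_le_ofReal ?_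
        have h7 : (2 * s) ^ (-(1 + (q - 3) / 4)) ≤ (1 + s) ^ (-(1 + (q - 3) / 4)) :=
          Real.rpow_le_rpow_of_nonpos (by linarith) (by linarith) (by linarith)
        have h8 : (1 / 4 : ℝ) ≤ 2 ^ (-(1 + (q - 3) / 4)) := by
          calc (1 / 4 : ℝ) = 2 ^ (-2 : ℝ) := by
                rw [Real.rpow_neg (by norm_num), Real.rpow_two]; norm_num
            _ ≤ _ := Real.rpow_le_rpow_of_exponent_le (by norm_num) (by linarith)
        rw [Real.mul_rpow (by norm_num) hs0.le] at h7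
        have h9 : 0 < s ^ (-(1 + (q - 3) / 4)) := by positivity
        nlinarith
      calc K * ENNReal.ofReal (s ^ (-(1 + (q - 3) / 4))) * V
          ≤ K * (4 * ENNReal.ofReal ((1 + s) ^ (-(1 + (q - 3) / 4)))) * V := by gcongr
        _ = 4 * K * ENNReal.ofReal ((1 + s) ^ (-(1 + (q - 3) / 4))) * V := by ring
        _ ≤ _ := by
            gcongr
            exact le_self_add
    rcases le_or_gt 0 t with ht | ht
    · rw [abs_of_nonneg ht] at h16
      rw [Real.norm_of_nonneg ht]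
      exact key h hB t h16.le
    · rw [abs_of_neg ht] at h16
      rw [Real.norm_eq_abs, abs_of_neg ht, EP_neg]
      exact key _ hB.conj (-t) h16.le

/-- **The estimate of a block.** -/
theorem block {q : ℝ} (hq3 : 3 < q) (hq4 : q < 4) :
    ∃ K : ℝ≥0∞, K ≠ ∞ ∧ ∀ (c : ℝ) (A : Set ℝ) (h : ℝ → ℝ → ℂ), Blk c A h →
      ∫⁻ t, ∫⁻ z, ‖EP h t z‖ₑ ^ q ≤ K * volume A ^ (1 + (q - 3) / 2) := by
  obtain ⟨K, hK, hL⟩ := all_t hq3 hq4
  refine ⟨K * Jw ((q - 3) / 4), ENNReal.mul_ne_top hK (Jw_fin _ (by linarith)), ?_⟩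
  intro c A h hB
  have hm : Measurable fun t : ℝ => ENNReal.ofReal ((1 + ‖t‖) ^ (-(1 + (q - 3) / 4))) := by fun_prop
  refine (lintegral_mono fun t => hL c A h hB t).trans (le_of_eq ?_)
  rw [lintegral_mul_const _ (hm.const_mul _), lintegral_const_mul _ hm]
  rfl

end Pool.Agent.J4.H87.Ray
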