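import Mathlib
import Pool.Agent.J4.H87.RayQ
set_option autoImplicit false

/-! Rays: level sets of the variation. -/

namespace Pool.Agent.J4.H87.Ray

open MeasureTheory Complex Set Filter Topology
open scoped ENNReal ComplexConjugate

/-- the estimate of a block, for all exponents -/
theorem block_all {q : ℝ} (hq3 : 3 < q) :
    ∃ σ : ℝ, 0 < σ ∧ ∃ K : ℝ≥0∞, K ≠ ∞ ∧ ∀ (c : ℝ) (A : Set ℝ) (h : ℝ → ℝ → ℂ), Blk c A h →
      ∫⁻ t, ∫⁻ z, ‖EP h t z‖ₑ ^ q ≤ K * volume A ^ (1 + σ) := by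
  rcases lt_or_ge q 4 with hq4 | hq4
  · obtain ⟨K, hK, h⟩ := block hq3 hq4
    exact ⟨(q - 3) / 2, by linarith, K, hK, h⟩
  · obtain ⟨K, hK, h⟩ := block (q := 7 / 2) (by norm_num) (by norm_num)
    refine ⟨q - 13 / 4, by linarith, K, hK, fun c A H hB => ?_⟩
    have hm := EP_meas hB.rt
    have hm1 : Measurable fun p : ℝ × ℂ => ‖EP H p.1 p.2‖ₑ ^ (7 / 2 : ℝ) := hm.enorm.pow_const _
    have hm2 : ∀ t, Measurable fun z : ℂ => ‖EP H t z‖ₑ ^ (7 / 2 : ℝ) := fun t =>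
      (EPm hB.rt t).pow_const _
    calc ∫⁻ t, ∫⁻ z, ‖EP H t z‖ₑ ^ q
        ≤ ∫⁻ t, ∫⁻ z, volume A ^ (q - 7 / 2) * ‖EP H t z‖ₑ ^ (7 / 2 : ℝ) := by
          refine lintegral_mono fun t => lintegral_mono fun z => ?_
          have h2 : ‖EP H t z‖ₑ ^ q = ‖EP H t z‖ₑ ^ (q - 7 / 2) * ‖EP H t z‖ₑ ^ (7 / 2 : ℝ) := by
            rw [← ENNReal.rpow_add_of_nonneg _ _ (by linarith) (by norm_num)]
            congr 1
            ring
          simp only
          rw [h2]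
          exact mul_le_mul_left (ENNReal.rpow_le_rpow ((EP_sup hB.rt t z).trans (h_sup hB))
            (by linarith)) _
      _ = volume A ^ (q - 7 / 2) * ∫⁻ t, ∫⁻ z, ‖EP H t z‖ₑ ^ (7 / 2 : ℝ) := by
          rw [← lintegral_const_mul _ hm1.lintegral_prod_right']
          exact lintegral_congr fun t => lintegral_const_mul _ (hm2 t)
      _ ≤ volume A ^ (q - 7 / 2) * (K * volume A ^ (1 + (7 / 2 - 3) / 2 : ℝ)) := by
          gcongr
          exact h c A H hB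
      _ = K * volume A ^ (1 + (q - 13 / 4)) := by
          rw [mul_left_comm, ← ENNReal.rpow_add_of_nonneg _ _ (by linarith) (by norm_num)]
          congr 2
          ring

/-- functions on an annulus with variation at most `V` -/
structure Ann (c : ℝ) (V : ℝ → ℝ≥0∞) (h : ℝ → ℝ → ℂ) : Prop where
  m : Measurable (Function.uncurry h)
  mV : Measurable V
  sθ : ∀ θ r, θ ∉ Icc c (c + 1) → h θ r = 0
  s : ∀ θ r, r ∉ Icc (1 / 2 : ℝ) 1 → h θ r = 0
  b : ∀ θ r, ‖h θ r‖ₑ ≤ V θ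
  v : ∀ θ τ, ∫⁻ r, ‖h θ (r + τ) - h θ r‖ₑ ≤ ENNReal.ofReal |τ| * V θ

/-- weighted Jensen inequality for series -/
theorem jensen {ι : Type} [MeasurableSpace ι] [DiscreteMeasurableSpace ι] (q : ℝ) (hq : 1 < q)
    (b c : ι → ℝ≥0∞) (h0 : ∀ k, c k ≠ 0) (h1 : ∀ k, c k ≠ ∞) :
    (∑' k, b k) ^ q ≤ (∑' k, c k) ^ (q - 1) * ∑' k, c k ^ (1 - q) * b k ^ q := by
  have hq0 : 0 < q := by linarith
  have hq1 : 0 < q - 1 := by linarith
  have h := ENNReal.lintegral_mul_le_Lp_mul_Lq (Measure.count : Measure ι) (p := q / (q - 1))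
    (q := q)
    (by
      rw [Real.holderConjugate_iff]
      refine ⟨?_, ?_⟩
      · rw [lt_div_iff₀ hq1]; linarith
      · field_simp
        ring) (f := fun k => c k ^ ((q - 1) / q)) (g := fun k => c k ^ (-((q - 1) / q)) * b k)
    (Measurable.of_discrete).aemeasurable (Measurable.of_discrete).aemeasurable
  rw [lintegral_count, lintegral_count, lintegral_count] at h
  have e1 : ∀ k, ((fun k => c k ^ ((q - 1) / q)) * fun k => c k ^ (-((q - 1) / q)) * b k) k =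
      b k := by
    intro k
    simp only [Pi.mul_apply]
    rw [← mul_assoc, ← ENNReal.rpow_add _ _ (h0 k) (h1 k), add_neg_cancel, ENNReal.rpow_zero,
      one_mul]
  have e2 : ∀ k, (c k ^ ((q - 1) / q)) ^ (q / (q - 1)) = c k := by
    intro k
    rw [← ENNReal.rpow_mul]
    have : (q - 1) / q * (q / (q - 1)) = 1 := by field_simp
    rw [this, ENNReal.rpow_one]
  have e3 : ∀ k, (c k ^ (-((q - 1) / q)) * b k) ^ q = c k ^ (1 - q) * b k ^ q := by
    intro k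
    rw [ENNReal.mul_rpow_of_nonneg _ _ hq0.le, ← ENNReal.rpow_mul]
    congr 2
    field_simp
    ring
  simp only [e1, e2, e3] at h
  calc (∑' k, b k) ^ q ≤ ((∑' k, c k) ^ (1 / (q / (q - 1))) *
        (∑' k, c k ^ (1 - q) * b k ^ q) ^ (1 / q)) ^ q := by gcongr
    _ = _ := by
        rw [ENNReal.mul_rpow_of_nonneg _ _ hq0.le, ← ENNReal.rpow_mul, ← ENNReal.rpow_mul]
        congr 1
        · congr 1
          field_simp
        · rw [one_div_mul_cancel hq0.ne', ENNReal.rpow_one]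

/-- the level sets -/
def Lv (c : ℝ) (V : ℝ → ℝ≥0∞) (Λ : ℝ) (j : ℕ) : Set ℝ :=
  {θ | θ ∈ Icc c (c + 1) ∧ V θ ≤ ENNReal.ofReal (Λ * 2 ^ j) ∧
    ∀ i < j, ENNReal.ofReal (Λ * 2 ^ i) < V θ}

theorem Lv_meas (c : ℝ) {V : ℝ → ℝ≥0∞} (hV : Measurable V) (Λ : ℝ) (j : ℕ) :
    MeasurableSet (Lv c V Λ j) := by
  have h1 : Lv c V Λ j = Icc c (c + 1) ∩ ({θ | V θ ≤ ENNReal.ofReal (Λ * 2 ^ j)} ∩
      ⋂ i : ℕ, ⋂ _ : i < j, {θ | ENNReal.ofReal (Λ * 2 ^ i) < V θ}) := by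
    ext θ
    simp only [Lv, mem_ofPred_eq, mem_inter_iff, mem_iInter]
  rw [h1]
  exact measurableSet_Icc.inter ((measurableSet_le hV measurable_const).inter
    (MeasurableSet.iInter fun i => MeasurableSet.iInter fun _ => measurableSet_lt measurable_const hV))

theorem Lv_disj (c : ℝ) (V : ℝ → ℝ≥0∞) (Λ : ℝ) : Pairwise (Function.onFun Disjoint (Lv c V Λ)) := by
  intro i j hij
  rw [Function.onFun, Set.disjoint_left]
  rintro θ ⟨-, hi1, hi2⟩ ⟨-, hj1, hj2⟩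
  rcases lt_or_gt_of_ne hij with h | h
  · exact absurd hi1 (not_le.2 (hj2 i h))
  · exact absurd hj1 (not_le.2 (hi2 j h))

theorem Lv_cover (c : ℝ) (V : ℝ → ℝ≥0∞) {Λ : ℝ} (hΛ : 0 < Λ) {θ : ℝ} (hθ : θ ∈ Icc c (c + 1))
    (hV : V θ ≠ ∞) : ∃ j, θ ∈ Lv c V Λ j := by
  have hex : ∃ j : ℕ, V θ ≤ ENNReal.ofReal (Λ * 2 ^ j) := by
    obtain ⟨n, hn⟩ := pow_unbounded_of_one_lt ((V θ).toReal / Λ) (by norm_num : (1 : ℝ) < 2)
    refine ⟨n, ?_⟩
    rw [← ENNReal.ofReal_toReal hV]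
    refine ENNReal.ofReal_le_ofReal ?_
    rw [div_lt_iff₀ hΛ] at hn
    linarith
  classical
  refine ⟨Nat.find hex, hθ, Nat.find_spec hex, fun i hi => ?_⟩
  exact not_le.1 (Nat.find_min hex hi)

theorem Lv_vol {q : ℝ} (hq : 0 < q) (c : ℝ) {V : ℝ → ℝ≥0∞} (_hV : Measurable V) {Λ : ℝ}
    (hΛ : 0 < Λ) (hN : ∫⁻ θ in Icc c (c + 1), V θ ^ q ≤ ENNReal.ofReal (Λ ^ q)) (j : ℕ) :
    volume (Lv c V Λ j) ≤ ENNReal.ofReal (2 ^ q * (2 : ℝ) ^ (-((j : ℝ) * q))) := by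
  rcases Nat.eq_zero_or_pos j with hj | hj
  · rw [hj]
    have h1 : Lv c V Λ 0 ⊆ Icc c (c + 1) := fun θ h => h.1
    refine (measure_mono h1).trans ?_
    rw [Real.volume_Icc]
    refine ENNReal.ofReal_le_ofReal ?_
    have h2 : (1 : ℝ) ≤ 2 ^ q := Real.one_le_rpow (by norm_num) hq.le
    simp
    linarith
  · set v : ℝ≥0∞ := ENNReal.ofReal ((Λ * 2 ^ (j - 1)) ^ q) with hv
    have hv0 : v ≠ 0 := by
      rw [hv]
      simp only [ne_eq, ENNReal.ofReal_eq_zero, not_le]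
      positivity
    have hvt : v ≠ ∞ := ENNReal.ofReal_ne_top
    have h3 : v * volume (Lv c V Λ j) ≤ ENNReal.ofReal (Λ ^ q) := by
      calc v * volume (Lv c V Λ j) = ∫⁻ θ in Lv c V Λ j, v := by rw [setLIntegral_const]
        _ ≤ ∫⁻ θ in Lv c V Λ j, V θ ^ q := by
            refine setLIntegral_mono' (Lv_meas c _hV Λ j) fun θ hθ => ?_
            have h4 := (hθ.2.2 (j - 1) (by omega)).le
            rw [hv, ← ENNReal.ofReal_rpow_of_nonneg (by positivity) hq.le]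
            exact ENNReal.rpow_le_rpow h4 hq.le
        _ ≤ ∫⁻ θ in Icc c (c + 1), V θ ^ q := lintegral_mono_set fun θ h => h.1
        _ ≤ _ := hN
    have h5 : volume (Lv c V Λ j) ≤ ENNReal.ofReal (Λ ^ q) / v := by
      rw [ENNReal.le_div_iff_mul_le (Or.inl hv0) (Or.inl hvt), mul_comm]
      exact h3
    refine h5.trans ?_
    rw [hv, ← ENNReal.ofReal_div_of_pos (by positivity)]
    refine ENNReal.ofReal_le_ofReal (le_of_eq ?_)
    rw [Real.mul_rpow hΛ.le (by positivity)]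
    have h6 : ((2 : ℝ) ^ (j - 1)) ^ q = (2 : ℝ) ^ (((j : ℝ) - 1) * q) := by
      rw [← Real.rpow_natCast, ← Real.rpow_mul (by norm_num), Nat.cast_sub hj, Nat.cast_one]
    rw [h6]
    have hΛq : Λ ^ q ≠ 0 := (Real.rpow_pos_of_pos hΛ q).ne'
    rw [div_mul_eq_div_div, div_self hΛq, one_div, ← Real.rpow_neg (by norm_num),
      ← Real.rpow_add (by norm_num)]
    congr 1
    ring

/-- the normalised piece -/
noncomputable def pc (c : ℝ) (V : ℝ → ℝ≥0∞) (Λ : ℝ) (h : ℝ → ℝ → ℂ) (j : ℕ) (θ r : ℝ) : ℂ :=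
  (Lv c V Λ j).indicator (fun θ => h θ r / ((Λ * 2 ^ j : ℝ) : ℂ)) θ

theorem pc_blk {c : ℝ} {V : ℝ → ℝ≥0∞} {h : ℝ → ℝ → ℂ} (hA : Ann c V h) {Λ : ℝ} (hΛ : 0 < Λ)
    (j : ℕ) : Blk c (Lv c V Λ j) (pc c V Λ h j) := by
  have hp : (0 : ℝ) < Λ * 2 ^ j := by positivity
  have hn : ∀ w : ℂ, ‖w / ((Λ * 2 ^ j : ℝ) : ℂ)‖ₑ = ‖w‖ₑ / ENNReal.ofReal (Λ * 2 ^ j) := by
    intro w
    rw [← ofReal_norm, norm_div, Complex.norm_real, Real.norm_of_nonneg hp.le,
      ENNReal.ofReal_div_of_pos hp, ofReal_norm]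
  refine ⟨Lv_meas c hA.mV Λ j, fun θ h => h.1, ?_, fun θ r hθ => ?_, fun θ => ⟨?_, ?_, ?_, ?_⟩⟩
  · have h1 : Function.uncurry (pc c V Λ h j) = ((Lv c V Λ j) ×ˢ univ).indicator
        (fun p : ℝ × ℝ => h p.1 p.2 / ((Λ * 2 ^ j : ℝ) : ℂ)) := by
      ext p
      by_cases hp1 : p.1 ∈ Lv c V Λ j
      · rw [indicator_of_mem (show p ∈ (Lv c V Λ j) ×ˢ univ from ⟨hp1, mem_univ _⟩)]
        simp only [Function.uncurry, pc, indicator_of_mem hp1]
      · rw [indicator_of_notMem (fun h : p ∈ (Lv c V Λ j) ×ˢ univ => hp1 h.1)]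
        simp only [Function.uncurry, pc, indicator_of_notMem hp1]
    rw [h1]
    exact (hA.m.div_const _).indicator ((Lv_meas c hA.mV Λ j).prod MeasurableSet.univ)
  · simp only [pc, indicator_of_notMem hθ]
  · by_cases hθ : θ ∈ Lv c V Λ j
    · have : pc c V Λ h j θ = fun r => h θ r / ((Λ * 2 ^ j : ℝ) : ℂ) := by
        ext r; simp only [pc, indicator_of_mem hθ]
      rw [this]
      refine Measurable.div_const ?_ _
      show Measurable ((Function.uncurry h) ∘ fun r : ℝ => (θ, r))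
      exact hA.m.comp (by fun_prop)
    · have : pc c V Λ h j θ = fun r => 0 := by
        ext r; simp only [pc, indicator_of_notMem hθ]
      rw [this]
      exact measurable_const
  · intro r hr
    by_cases hθ : θ ∈ Lv c V Λ j
    · simp only [pc, indicator_of_mem hθ, hA.s θ r hr, zero_div]
    · simp only [pc, indicator_of_notMem hθ]
  · intro r
    by_cases hθ : θ ∈ Lv c V Λ j
    · simp only [pc, indicator_of_mem hθ]
      have h1 := (hA.b θ r).trans hθ.2.1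
      rw [← ofReal_norm, ENNReal.ofReal_le_ofReal_iff hp.le] at h1
      rw [norm_div, Complex.norm_real, Real.norm_of_nonneg hp.le, div_le_one hp]
      exact h1
    · simp only [pc, indicator_of_notMem hθ, norm_zero, zero_le_one]
  · intro τ
    by_cases hθ : θ ∈ Lv c V Λ j
    · simp only [pc, indicator_of_mem hθ]
      have h1 : ∀ r, ‖h θ (r + τ) / ((Λ * 2 ^ j : ℝ) : ℂ) - h θ r / ((Λ * 2 ^ j : ℝ) : ℂ)‖ₑ =
          ‖h θ (r + τ) - h θ r‖ₑ / ENNReal.ofReal (Λ * 2 ^ j) := by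
        intro r
        rw [← sub_div, hn]
      simp_rw [h1, div_eq_mul_inv]
      have hm : Measurable fun r => ‖h θ (r + τ) - h θ r‖ₑ := by
        have m1 : Measurable fun r : ℝ => h θ r := by
          show Measurable ((Function.uncurry h) ∘ fun r : ℝ => (θ, r))
          exact hA.m.comp (by fun_prop)
        have m2 : Measurable fun r : ℝ => h θ (r + τ) := m1.comp (by fun_prop)
        exact (m2.sub m1).enorm
      rw [lintegral_mul_const _ hm, ← div_eq_mul_inv]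
      refine ENNReal.div_le_of_le_mul ?_
      exact (hA.v θ τ).trans (by gcongr; exact hθ.2.1)
    · simp only [pc, indicator_of_notMem hθ, sub_zero, enorm_zero, lintegral_zero, zero_le]

end Pool.Agent.J4.H87.Ray
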