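import Pool.Agent.J4.H87.HypB
import Pool.Agent.J4.H87.RayR

set_option autoImplicit false

/-! Families of boxes in hyperplanes: integrals over slabs. -/

open MeasureTheory Set Filter Topology ENNReal NNReal Metric

namespace Pool.Agent.J4.H87.Hyp

open Pool.Agent.H810R3.Tub (Space box nor dir norm_dir radial frame frame_coe norm_sq_frame norm_e
  finrank_space box_closed vol_box box_perp norm_space_sq)
open Pool.Agent.R251.End (pc vol_pc)

variable {d : ℕ} {ι : Type}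

/-- The caps: centres in the unit ball, separated, with orthonormal frames. -/
structure Sep (N σ : ℝ) (ω : ι → Vec d) (f : ι → Fin d → Space d) : Prop where
  hN : 1 ≤ N
  hσ : 0 < σ
  hσ1 : σ ≤ 1
  hω : ∀ i, ‖ω i‖ ≤ 1
  hsep : ∀ i j, i ≠ j → σ / N ≤ ‖ω i - ω j‖
  hf : ∀ i, Orthonormal ℝ (Fin.cons (nor (ω i)) (f i) : Fin (d + 1) → Space d)

/-- The sum of the indicators of the boxes with index in `J`. -/
noncomputable def F (N : ℝ) (ω : ι → Vec d) (f : ι → Fin d → Space d) (a : ι → Space d)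
    (J : Finset ι) (y : Space d) : ℝ≥0∞ :=
  ∑ i ∈ J, (box N (nor (ω i)) (f i) (a i)).indicator (fun _ => (1 : ℝ≥0∞)) y

theorem F_meas (N : ℝ) (ω : ι → Vec d) (f : ι → Fin d → Space d) (a : ι → Space d)
    (J : Finset ι) : Measurable (F N ω f a J) := by
  apply Finset.measurable_fun_sum
  intro i _
  exact measurable_const.indicator (box_closed _ _ _ _).measurableSet

theorem F_le_card (N : ℝ) (ω : ι → Vec d) (f : ι → Fin d → Space d) (a : ι → Space d)
    (J : Finset ι) (y : Space d) : F N ω f a J y ≤ (J.card : ℝ≥0∞) := by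
  unfold F
  calc ∑ i ∈ J, (box N (nor (ω i)) (f i) (a i)).indicator (fun _ => (1 : ℝ≥0∞)) y ≤ ∑ _i ∈ J, 1 :=
        Finset.sum_le_sum fun i _ => indicator_le_self' (fun _ _ => zero_le_one) y
    _ = J.card := by simp

/-- A cover of the index set. -/
theorem F_cover (N : ℝ) (ω : ι → Vec d) (f : ι → Fin d → Space d) (a : ι → Space d)
    (J : Finset ι) {τ : Type} (P : τ → Finset ι) (hP : ∀ i ∈ J, ∃ k, i ∈ P k) (y : Space d) :
    F N ω f a J y ≤ ∑' k, F N ω f a (P k) y := by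
  classical
  rcases J.eq_empty_or_nonempty with hJe | ⟨i₀, hi₀⟩
  · rw [hJe]
    simp [F]
  have hne : Nonempty τ := ⟨(hP i₀ hi₀).choose⟩
  choose! k hk using hP
  set g : ι → ℝ≥0∞ := fun i => (box N (nor (ω i)) (f i) (a i)).indicator (fun _ => (1 : ℝ≥0∞)) y with hg
  have e1 : F N ω f a J y = ∑ l ∈ J.image k, ∑ i ∈ J.filter (fun i => k i = l), g i := by
    unfold F
    exact (Finset.sum_fiberwise_of_maps_to (fun i hi => Finset.mem_image_of_mem k hi) _).symm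
  rw [e1]
  calc ∑ l ∈ J.image k, ∑ i ∈ J.filter (fun i => k i = l), g i
      ≤ ∑ l ∈ J.image k, F N ω f a (P l) y := by
        refine Finset.sum_le_sum fun l _ => ?_
        unfold F
        refine Finset.sum_le_sum_of_subset ?_
        intro i hi
        rw [Finset.mem_filter] at hi
        rw [← hi.2]
        exact hk i hi.1
    _ ≤ _ := ENNReal.sum_le_tsum _

/-- The integral over a set. -/
theorem F_int (N : ℝ) (ω : ι → Vec d) (f : ι → Fin d → Space d) (a : ι → Space d)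
    (J : Finset ι) (S : Set (Space d)) :
    ∫⁻ y in S, F N ω f a J y = ∑ i ∈ J, volume (box N (nor (ω i)) (f i) (a i) ∩ S) := by
  unfold F
  rw [lintegral_finsetSum _ (fun i _ => measurable_const.indicator (box_closed _ _ _ _).measurableSet)]
  refine Finset.sum_congr rfl fun i _ => ?_
  rw [lintegral_indicator (box_closed _ _ _ _).measurableSet, setLIntegral_const, one_mul,
    Measure.restrict_apply (box_closed _ _ _ _).measurableSet]

open Classical in
/-- The classes of the indices by the angle with a hyperplane. -/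
noncomputable def cls (ω : ι → Vec d) (J : Finset ι) (ν : Space d) (n k : ℕ) : Finset ι :=
  J.filter (fun i => |(inner ℝ ν (nor (ω i)) : ℝ)| ≤ ((2 : ℝ) ^ k)⁻¹ ∧ k ≤ n ∧
    (k < n → ((2 : ℝ) ^ (k + 1))⁻¹ ≤ |(inner ℝ ν (nor (ω i)) : ℝ)|))

theorem mem_cls {ω : ι → Vec d} {J : Finset ι} {ν : Space d} {n k : ℕ} {i : ι} :
    i ∈ cls ω J ν n k ↔ i ∈ J ∧ |(inner ℝ ν (nor (ω i)) : ℝ)| ≤ ((2 : ℝ) ^ k)⁻¹ ∧ k ≤ n ∧
    (k < n → ((2 : ℝ) ^ (k + 1))⁻¹ ≤ |(inner ℝ ν (nor (ω i)) : ℝ)|) := by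
  unfold cls
  rw [Finset.mem_filter]

theorem cls_cover (ω : ι → Vec d) (J : Finset ι) {ν : Space d} (hν : ‖ν‖ = 1) (n : ℕ) :
    ∀ i ∈ J, ∃ k, i ∈ cls ω J ν n k := by
  intro i hi
  set g : ℝ := |(inner ℝ ν (nor (ω i)) : ℝ)| with hg
  have hg1 : g ≤ 1 := by
    have := abs_real_inner_le_norm ν (nor (ω i))
    rw [hν, show ‖nor (ω i)‖ = 1 from norm_dir _, one_mul] at this
    exact this
  rcases le_or_gt g ((2 : ℝ) ^ n)⁻¹ with h | h
  · exact ⟨n, mem_cls.2 ⟨hi, h, le_rfl, fun h => absurd h (lt_irrefl _)⟩⟩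
  · have hg0 : 0 < g := lt_trans (by positivity) h
    obtain ⟨k, hk1, hk2⟩ := exists_nat_pow_near (x := g⁻¹) (y := (2 : ℝ)) ((one_le_inv₀ hg0).2 hg1) (by norm_num)
    have h3 : g ≤ ((2 : ℝ) ^ k)⁻¹ := (le_inv_comm₀ (by positivity) hg0).1 hk1
    have h4 : ((2 : ℝ) ^ (k + 1))⁻¹ ≤ g := (inv_le_comm₀ hg0 (by positivity)).1 hk2.le
    have h5 : (2 : ℝ) ^ k < 2 ^ n := by
      refine lt_of_le_of_lt hk1 ?_
      rwa [inv_lt_comm₀ (by positivity) hg0] at h
    have h6 : k < n := (pow_lt_pow_iff_right₀ (by norm_num : (1:ℝ) < 2)).1 h5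
    exact ⟨k, mem_cls.2 ⟨hi, h3, h6.le, fun _ => h4⟩⟩

theorem cls_empty (ω : ι → Vec d) (J : Finset ι) (ν : Space d) {n k : ℕ} (h : n < k) :
    cls ω J ν n k = ∅ := by
  rw [Finset.eq_empty_iff_forall_notMem]
  intro i hi
  have := (mem_cls.1 hi).2.2.1
  omega

/-- The first constant: the number of the caps near a subspace. -/
noncomputable def A0 (d : ℕ) (σ κ : ℝ) (r : ℕ) (N : ℝ) : ℝ := cK d * (σ ^ d)⁻¹ * κ ^ r * (N ^ d / N ^ r)

/-- The second constant: the volume of the part of a box in a slab. -/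
noncomputable def V0 (d : ℕ) (K N : ℝ) : ℝ := (4 * K + 2 * d + 2) * N ^ (d + 1)

theorem A0_pos {σ κ N : ℝ} {r : ℕ} (hσ : 0 < σ) (hκ : 1 ≤ κ) (hN : 1 ≤ N) : 0 < A0 d σ κ r N := by
  have := cK_pos d
  unfold A0
  positivity

theorem V0_pos {K N : ℝ} (hK : 0 ≤ K) (hN : 1 ≤ N) : 0 < V0 d K N := by
  unfold V0
  positivity

/-- The hypothesis: the normals of the caps in `J` are almost orthogonal to `E 0, …, E (r - 1)`. -/
def Near (N κ : ℝ) (ω : ι → Vec d) (J : Finset ι) {r : ℕ} (e : Fin r → Space d) : Prop :=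
  ∀ i ∈ J, ∀ l : Fin r, |(inner ℝ (e l) (nor (ω i)) : ℝ)| ≤ κ / N

theorem cls_card {N σ κ : ℝ} {ω : ι → Vec d} {f : ι → Fin d → Space d} (hS : Sep N σ ω f) (hκ : 1 ≤ κ)
    {J : Finset ι} {r : ℕ} (hr : r ≤ d) (e : Fin r → Space d) (ν : Space d)
    (hE : Orthonormal ℝ (Fin.snoc e ν : Fin (r + 1) → Space d)) (hJ : Near N κ ω J e)
    {n : ℕ} (hn : (2 : ℝ) ^ n ≤ N) (k : ℕ) :
    ((cls ω J ν n k).card : ℝ) ≤ A0 d σ κ r N * ((2 : ℝ) ^ k)⁻¹ := by
  have hN0 : 0 < N := by linarith [hS.hN]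
  rcases lt_or_ge n k with h | h
  · rw [cls_empty ω J ν h]
    have := A0_pos (d := d) (r := r) hS.hσ hκ hS.hN
    simp only [Finset.card_empty, Nat.cast_zero]
    positivity
  · have hρ : 1 / N ≤ ((2 : ℝ) ^ k)⁻¹ := by
      rw [one_div]
      apply inv_anti₀ (by positivity)
      exact (pow_le_pow_right₀ (by norm_num) h).trans hn
    refine count (cls ω J ν n k) hS.hN hS.hσ hS.hσ1 hκ hρ ω f (fun i _ => hS.hω i)
      (fun i _ j _ hij => hS.hsep i j hij) (fun i _ => hS.hf i) hr _ hE ?_ ?_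
    · intro i hi l
      rw [Fin.snoc_castSucc]
      exact hJ i (mem_cls.1 hi).1 l
    · intro i hi
      rw [Fin.snoc_last]
      exact (mem_cls.1 hi).2.1

theorem cls_vol {N σ K : ℝ} {ω : ι → Vec d} {f : ι → Fin d → Space d} (hS : Sep N σ ω f) (hK : 0 ≤ K)
    {J : Finset ι} {ν : Space d} (hν : ‖ν‖ = 1) (c : ℝ) (a : ι → Space d)
    {n : ℕ} (hn : N < (2 : ℝ) ^ (n + 1)) (k : ℕ) {i : ι} (hi : i ∈ cls ω J ν n k) :
    volume (box N (nor (ω i)) (f i) (a i) ∩ Slab (K * N) ν c) ≤ ENNReal.ofReal (V0 d K N * 2 ^ k) := by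
  have hN := hS.hN
  have hN0 : 0 < N := by linarith
  obtain ⟨-, h1, h2, h3⟩ := mem_cls.1 hi
  rcases lt_or_eq_of_le h2 with h | h
  · have h4 := h3 h
    have hg : 0 < |(inner ℝ ν (nor (ω i)) : ℝ)| := lt_of_lt_of_le (by positivity) h4
    refine (vol_slab hN (by positivity) hν (hS.hf i) (a i) hg).trans (ENNReal.ofReal_le_ofReal ?_)
    have h5 : (|(inner ℝ ν (nor (ω i)) : ℝ)|)⁻¹ ≤ 2 ^ (k + 1) := by
      rw [inv_le_comm₀ hg (by positivity)]
      exact h4
    calc 2 * (K * N + d * N / 2) / |(inner ℝ ν (nor (ω i)) : ℝ)| * N ^ d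
        = 2 * (K * N + d * N / 2) * (|(inner ℝ ν (nor (ω i)) : ℝ)|)⁻¹ * N ^ d := by rw [div_eq_mul_inv]
      _ ≤ 2 * (K * N + d * N / 2) * 2 ^ (k + 1) * N ^ d := by gcongr
      _ = (4 * K + 2 * d) * N ^ (d + 1) * 2 ^ k := by ring
      _ ≤ (4 * K + 2 * d + 2) * N ^ (d + 1) * 2 ^ k :=
          mul_le_mul_of_nonneg_right (mul_le_mul_of_nonneg_right (by linarith) (by positivity)) (by positivity)
      _ = V0 d K N * 2 ^ k := rfl
  · refine (measure_mono inter_subset_left).trans ?_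
    rw [vol_box hN (hS.hf i) (a i)]
    apply ENNReal.ofReal_le_ofReal
    rw [h]
    have hd0 : (0 : ℝ) ≤ d := Nat.cast_nonneg d
    calc N ^ (d + 2) = N * N ^ (d + 1) := by ring
      _ ≤ 2 ^ (n + 1) * N ^ (d + 1) := by gcongr
      _ = 2 * N ^ (d + 1) * 2 ^ n := by ring
      _ ≤ (4 * K + 2 * d + 2) * N ^ (d + 1) * 2 ^ n :=
          mul_le_mul_of_nonneg_right (mul_le_mul_of_nonneg_right (by linarith) (by positivity)) (by positivity)
      _ = V0 d K N * 2 ^ n := rfl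

/-- The integral of a power over a slab, for one class. -/
theorem cls_int {N σ κ K : ℝ} {ω : ι → Vec d} {f : ι → Fin d → Space d} (hS : Sep N σ ω f) (hκ : 1 ≤ κ)
    (hK : 0 ≤ K)
    {J : Finset ι} {r : ℕ} (hr : r ≤ d) (e : Fin r → Space d) (ν : Space d)
    (hE : Orthonormal ℝ (Fin.snoc e ν : Fin (r + 1) → Space d)) (hJ : Near N κ ω J e)
    (c : ℝ) (a : ι → Space d)
    {n : ℕ} (hn : (2 : ℝ) ^ n ≤ N) (hn' : N < (2 : ℝ) ^ (n + 1)) (k : ℕ) {t : ℝ} (ht : 1 ≤ t) :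
    ∫⁻ y in Slab (K * N) ν c, F N ω f a (cls ω J ν n k) y ^ t ≤
      ENNReal.ofReal (A0 d σ κ r N ^ t * V0 d K N * (2 : ℝ) ^ (-((k : ℝ) * (t - 1)))) := by
  have hν : ‖ν‖ = 1 := by
    have := hE.1 (Fin.last r)
    rwa [Fin.snoc_last] at this
  have hA := A0_pos (d := d) (r := r) hS.hσ hκ hS.hN
  have hV := V0_pos (d := d) hK hS.hN
  set A := A0 d σ κ r N with hAd
  set V := V0 d K N with hVd
  have h1 := cls_card hS hκ hr e ν hE hJ hn k
  rw [← hAd] at h1
  set S := cls ω J ν n k with hSd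
  have h2 : ∀ y, F N ω f a S y ≤ ENNReal.ofReal (A * ((2 : ℝ) ^ k)⁻¹) := by
    intro y
    refine (F_le_card N ω f a S y).trans ?_
    rw [← ENNReal.ofReal_natCast]
    exact ENNReal.ofReal_le_ofReal h1
  have h3 : ∫⁻ y in Slab (K * N) ν c, F N ω f a S y ≤ ENNReal.ofReal (A * V) := by
    rw [F_int]
    calc ∑ i ∈ S, volume (box N (nor (ω i)) (f i) (a i) ∩ Slab (K * N) ν c)
        ≤ ∑ _i ∈ S, ENNReal.ofReal (V * 2 ^ k) :=
          Finset.sum_le_sum fun i hi => cls_vol hS hK hν c a hn' k hi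
      _ = ENNReal.ofReal ((S.card : ℝ) * (V * 2 ^ k)) := by
          rw [Finset.sum_const, nsmul_eq_mul, ENNReal.ofReal_mul (Nat.cast_nonneg _), ENNReal.ofReal_natCast]
      _ ≤ ENNReal.ofReal (A * V) := by
          apply ENNReal.ofReal_le_ofReal
          calc (S.card : ℝ) * (V * 2 ^ k) ≤ A * ((2 : ℝ) ^ k)⁻¹ * (V * 2 ^ k) := by gcongr
            _ = A * V := by field_simp
  calc ∫⁻ y in Slab (K * N) ν c, F N ω f a S y ^ t
      ≤ ∫⁻ y in Slab (K * N) ν c, ENNReal.ofReal (A * ((2 : ℝ) ^ k)⁻¹) ^ (t - 1) * F N ω f a S y := by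
        refine lintegral_mono fun y => ?_
        simp only
        have e1 : F N ω f a S y ^ t = F N ω f a S y ^ (t - 1) * F N ω f a S y := by
          conv_lhs => rw [show t = (t - 1) + 1 by ring]
          rw [ENNReal.rpow_add_of_nonneg _ _ (by linarith) zero_le_one, ENNReal.rpow_one]
        rw [e1]
        exact mul_le_mul' (ENNReal.rpow_le_rpow (h2 y) (by linarith)) le_rfl
    _ = ENNReal.ofReal (A * ((2 : ℝ) ^ k)⁻¹) ^ (t - 1) * ∫⁻ y in Slab (K * N) ν c, F N ω f a S y :=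
        lintegral_const_mul _ (F_meas N ω f a S)
    _ ≤ ENNReal.ofReal (A * ((2 : ℝ) ^ k)⁻¹) ^ (t - 1) * ENNReal.ofReal (A * V) := by gcongr
    _ = _ := by
        rw [ENNReal.ofReal_rpow_of_pos (by positivity), ← ENNReal.ofReal_mul (by positivity)]
        congr 1
        rw [Real.mul_rpow hA.le (by positivity), Real.inv_rpow (by positivity), ← Real.rpow_natCast,
          ← Real.rpow_mul (by norm_num), Real.rpow_neg (by norm_num)]
        have e2 : A ^ t = A ^ (t - 1) * A := by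
          conv_lhs => rw [show t = (t - 1) + 1 by ring]
          rw [Real.rpow_add hA, Real.rpow_one]
        rw [e2]
        ring

end Pool.Agent.J4.H87.Hyp
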