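import Pool.Agent.J4.H87.HypC

set_option autoImplicit false

/-! Families of boxes in hyperplanes: integrals over slabs, all classes; the basic inequality. -/

open MeasureTheory Set Filter Topology ENNReal NNReal Metric

namespace Pool.Agent.J4.H87.Hyp

open Pool.Agent.H810R3.Tub (Space box nor dir norm_dir radial frame frame_coe norm_sq_frame norm_e
  finrank_space box_closed vol_box box_perp norm_space_sq)
open Pool.Agent.R251.End (pc vol_pc)

variable {d : ℕ} {ι : Type}

theorem exists_n {N : ℝ} (hN : 1 ≤ N) : ∃ n : ℕ, (2 : ℝ) ^ n ≤ N ∧ N < (2 : ℝ) ^ (n + 1) ∧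
    (n : ℝ) + 1 ≤ 2 * (1 + Real.log N) := by
  obtain ⟨n, h1, h2⟩ := exists_nat_pow_near (x := N) (y := (2 : ℝ)) hN (by norm_num)
  refine ⟨n, h1, h2, ?_⟩
  have h3 : Real.log ((2 : ℝ) ^ n) ≤ Real.log N := Real.log_le_log (by positivity) h1
  rw [Real.log_pow] at h3
  have h4 : (1 / 2 : ℝ) ≤ Real.log 2 := by
    have := Real.log_two_gt_d9
    linarith
  have h5 : (n : ℝ) * (1 / 2) ≤ n * Real.log 2 := by gcongr
  linarith

/-- The integral over a slab. -/
theorem slab_one {N σ κ K : ℝ} {ω : ι → Vec d} {f : ι → Fin d → Space d} (hS : Sep N σ ω f) (hκ : 1 ≤ κ)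
    (hK : 0 ≤ K) {J : Finset ι} {r : ℕ} (hr : r ≤ d) (e : Fin r → Space d) (ν : Space d)
    (hE : Orthonormal ℝ (Fin.snoc e ν : Fin (r + 1) → Space d)) (hJ : Near N κ ω J e)
    (c : ℝ) (a : ι → Space d) :
    ∫⁻ y in Slab (K * N) ν c, F N ω f a J y ≤
      ENNReal.ofReal (2 * A0 d σ κ r N * V0 d K N * (1 + Real.log N)) := by
  obtain ⟨n, hn, hn', hl⟩ := exists_n hS.hN
  have hν : ‖ν‖ = 1 := by
    have := hE.1 (Fin.last r)
    rwa [Fin.snoc_last] at this
  have hA := A0_pos (d := d) (r := r) hS.hσ hκ hS.hN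
  have hV := V0_pos (d := d) hK hS.hN
  set A := A0 d σ κ r N with hAd
  set V := V0 d K N with hVd
  have hcov := cls_cover ω J hν n
  calc ∫⁻ y in Slab (K * N) ν c, F N ω f a J y
      ≤ ∫⁻ y in Slab (K * N) ν c, ∑' k, F N ω f a (cls ω J ν n k) y :=
        lintegral_mono fun y => F_cover N ω f a J _ hcov y
    _ = ∑' k, ∫⁻ y in Slab (K * N) ν c, F N ω f a (cls ω J ν n k) y :=
        lintegral_tsum fun k => (F_meas N ω f a _).aemeasurable
    _ = ∑ k ∈ Finset.range (n + 1), ∫⁻ y in Slab (K * N) ν c, F N ω f a (cls ω J ν n k) y := by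
        apply tsum_eq_sum
        intro k hk
        rw [Finset.mem_range, not_lt] at hk
        rw [cls_empty ω J ν (by omega)]
        simp [F]
    _ ≤ ∑ _k ∈ Finset.range (n + 1), ENNReal.ofReal (A * V) := by
        refine Finset.sum_le_sum fun k _ => ?_
        have h := cls_int hS hκ hK hr e ν hE hJ c a hn hn' k (le_refl 1)
        simp only [ENNReal.rpow_one, Real.rpow_one, sub_self, mul_zero, neg_zero, Real.rpow_zero,
          mul_one] at h
        exact h
    _ = ENNReal.ofReal (((n : ℝ) + 1) * (A * V)) := by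
        rw [Finset.sum_const, Finset.card_range, nsmul_eq_mul, ← Nat.cast_succ,
          ENNReal.ofReal_mul (Nat.cast_nonneg _), ENNReal.ofReal_natCast]
    _ ≤ _ := by
        apply ENNReal.ofReal_le_ofReal
        calc ((n : ℝ) + 1) * (A * V) ≤ 2 * (1 + Real.log N) * (A * V) := by gcongr
          _ = _ := by ring

/-- A geometric series. -/
noncomputable def Gs (s : ℝ) : ℝ≥0∞ := ∑' j : ℕ, ENNReal.ofReal ((2 : ℝ) ^ (-((j : ℝ) * s)))

theorem Gs_fin {s : ℝ} (hs : 0 < s) : Gs s ≠ ∞ := by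
  unfold Gs
  have h0 : (0 : ℝ) ≤ (2 : ℝ) ^ (-s) := by positivity
  have h1 : (2 : ℝ) ^ (-s) < 1 := Real.rpow_lt_one_of_one_lt_of_neg (by norm_num) (by linarith)
  have h2 : ∀ j : ℕ, (2 : ℝ) ^ (-((j : ℝ) * s)) = ((2 : ℝ) ^ (-s)) ^ j := by
    intro j
    rw [← Real.rpow_natCast, ← Real.rpow_mul (by norm_num)]
    congr 1
    ring
  simp_rw [h2]
  rw [← ENNReal.ofReal_tsum_of_nonneg (fun j => by positivity) (summable_geometric_of_lt_one h0 h1)]
  exact ENNReal.ofReal_ne_top

/-- The constant of the next theorem. -/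
noncomputable def Ct (t : ℝ) : ℝ≥0∞ := Gs (1 / 2) ^ (t - 1) * Gs ((t - 1) / 2)

theorem Ct_fin {t : ℝ} (ht : 1 < t) : Ct t ≠ ∞ :=
  ENNReal.mul_ne_top (ENNReal.rpow_ne_top_of_nonneg (by linarith) (Gs_fin (by norm_num)))
    (Gs_fin (by linarith))

/-- The integral of a power over a slab, without logarithm. -/
theorem slab_t {N σ κ K : ℝ} {ω : ι → Vec d} {f : ι → Fin d → Space d} (hS : Sep N σ ω f) (hκ : 1 ≤ κ)
    (hK : 0 ≤ K) {J : Finset ι} {r : ℕ} (hr : r ≤ d) (e : Fin r → Space d) (ν : Space d)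
    (hE : Orthonormal ℝ (Fin.snoc e ν : Fin (r + 1) → Space d)) (hJ : Near N κ ω J e)
    (c : ℝ) (a : ι → Space d) {t : ℝ} (ht : 1 < t) :
    ∫⁻ y in Slab (K * N) ν c, F N ω f a J y ^ t ≤
      Ct t * ENNReal.ofReal (A0 d σ κ r N ^ t * V0 d K N) := by
  obtain ⟨n, hn, hn', -⟩ := exists_n hS.hN
  have hν : ‖ν‖ = 1 := by
    have := hE.1 (Fin.last r)
    rwa [Fin.snoc_last] at this
  have hA := A0_pos (d := d) (r := r) hS.hσ hκ hS.hN
  have hV := V0_pos (d := d) hK hS.hN
  set A := A0 d σ κ r N with hAd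
  set V := V0 d K N with hVd
  have hcov := cls_cover ω J hν n
  set cc : ℕ → ℝ≥0∞ := fun k => ENNReal.ofReal ((2 : ℝ) ^ (-((k : ℝ) * (1 / 2)))) with hcc
  have hc0 : ∀ k, cc k ≠ 0 := by
    intro k
    rw [hcc]
    simp only [ne_eq, ENNReal.ofReal_eq_zero, not_le]
    positivity
  have hct : ∀ k, cc k ≠ ∞ := fun k => ENNReal.ofReal_ne_top
  have hm : ∀ k, Measurable fun y => cc k ^ (1 - t) * F N ω f a (cls ω J ν n k) y ^ t := by
    intro k
    exact ((F_meas N ω f a _).pow_const t).const_mul _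
  calc ∫⁻ y in Slab (K * N) ν c, F N ω f a J y ^ t
      ≤ ∫⁻ y in Slab (K * N) ν c, (∑' k, cc k) ^ (t - 1) *
          ∑' k, cc k ^ (1 - t) * F N ω f a (cls ω J ν n k) y ^ t := by
        refine lintegral_mono fun y => ?_
        exact (ENNReal.rpow_le_rpow (F_cover N ω f a J _ hcov y) (by linarith)).trans
          (Pool.Agent.J4.H87.Ray.jensen t ht _ cc hc0 hct)
    _ = (∑' k, cc k) ^ (t - 1) * ∑' k, cc k ^ (1 - t) *
          ∫⁻ y in Slab (K * N) ν c, F N ω f a (cls ω J ν n k) y ^ t := by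
        rw [lintegral_const_mul _ (Measurable.tsum hm), lintegral_tsum fun k => (hm k).aemeasurable]
        congr 1
        refine tsum_congr fun k => ?_
        exact lintegral_const_mul _ ((F_meas N ω f a _).pow_const t)
    _ ≤ (∑' k, cc k) ^ (t - 1) * ∑' k : ℕ, ENNReal.ofReal ((2 : ℝ) ^ (-((k : ℝ) * ((t - 1) / 2)))) *
          ENNReal.ofReal (A ^ t * V) := by
        refine mul_le_mul' le_rfl (ENNReal.tsum_le_tsum fun k => ?_)
        have h := cls_int hS hκ hK hr e ν hE hJ c a hn hn' k ht.le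
        rw [← hAd, ← hVd] at h
        calc cc k ^ (1 - t) * ∫⁻ y in Slab (K * N) ν c, F N ω f a (cls ω J ν n k) y ^ t
            ≤ ENNReal.ofReal ((2 : ℝ) ^ ((k : ℝ) * ((t - 1) / 2))) *
              ENNReal.ofReal (A ^ t * V * (2 : ℝ) ^ (-((k : ℝ) * (t - 1)))) := by
              refine mul_le_mul' (le_of_eq ?_) h
              rw [hcc]
              simp only
              rw [ENNReal.ofReal_rpow_of_pos (by positivity), ← Real.rpow_mul (by norm_num)]
              congr 2
              ring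
          _ = _ := by
              rw [← ENNReal.ofReal_mul (by positivity), ← ENNReal.ofReal_mul (by positivity)]
              congr 1
              have e1 : (2 : ℝ) ^ (-((k : ℝ) * ((t - 1) / 2))) = (2 : ℝ) ^ ((k : ℝ) * ((t - 1) / 2)) *
                  (2 : ℝ) ^ (-((k : ℝ) * (t - 1))) := by
                rw [← Real.rpow_add (by norm_num)]
                congr 1
                ring
              rw [e1]
              ring
    _ = Ct t * ENNReal.ofReal (A ^ t * V) := by
        rw [ENNReal.tsum_mul_right, ← mul_assoc]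
        rfl

/-- **The basic inequality.** -/
theorem basic {α τ : Type} [MeasurableSpace α] (μ : Measure α) [Fintype τ] (M : α → ℝ≥0∞)
    (hM : Measurable M) (G : τ → α → ℝ≥0∞) (hG : ∀ j, Measurable (G j)) (S : τ → Set α)
    (hS : ∀ j, MeasurableSet (S j)) (hGS : ∀ j, ∀ y ∉ S j, G j y = 0) (hle : ∀ y, M y ≤ ∑ j, G j y)
    {q s t θ : ℝ} (hq : 1 < q) (hs : 1 < s) (hθ : θ = 1 - 1 / s) (ht : q - 1 = t * θ) :
    ∫⁻ y, M y ^ q ∂μ ≤ ∑ j, (∫⁻ y, G j y ^ s ∂μ) ^ (1 / s) * (∫⁻ y in S j, M y ^ t ∂μ) ^ θ := by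
  have hs0 : 0 < s := by linarith
  have hs1 : 0 < s - 1 := by linarith
  have hθ0 : 0 < θ := by
    rw [hθ, sub_pos, div_lt_one hs0]
    exact hs
  have hθ' : 1 / (s / (s - 1)) = θ := by
    rw [hθ]
    field_simp
  calc ∫⁻ y, M y ^ q ∂μ ≤ ∫⁻ y, ∑ j, G j y * ((S j).indicator (fun y => M y ^ (q - 1)) y) ∂μ := by
        refine lintegral_mono fun y => ?_
        simp only
        have e1 : M y ^ q = M y * M y ^ (q - 1) := by
          conv_lhs => rw [show q = 1 + (q - 1) by ring]
          rw [ENNReal.rpow_add_of_nonneg _ _ zero_le_one (by linarith), ENNReal.rpow_one]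
        rw [e1]
        calc M y * M y ^ (q - 1) ≤ (∑ j, G j y) * M y ^ (q - 1) := by
              gcongr
              exact hle y
          _ = ∑ j, G j y * M y ^ (q - 1) := by rw [Finset.sum_mul]
          _ ≤ _ := by
              refine Finset.sum_le_sum fun j _ => ?_
              by_cases h : y ∈ S j
              · rw [indicator_of_mem h]
              · rw [hGS j y h]
                simp
    _ = ∑ j, ∫⁻ y, G j y * ((S j).indicator (fun y => M y ^ (q - 1)) y) ∂μ := by
        refine lintegral_finsetSum _ fun j _ => ?_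
        exact (hG j).mul ((hM.pow_const _).indicator (hS j))
    _ ≤ _ := by
        refine Finset.sum_le_sum fun j _ => ?_
        have h := ENNReal.lintegral_mul_le_Lp_mul_Lq μ (p := s) (q := s / (s - 1))
          (by
            rw [Real.holderConjugate_iff]
            refine ⟨hs, ?_⟩
            field_simp
            ring) (f := G j) (g := (S j).indicator (fun y => M y ^ (q - 1)))
          (hG j).aemeasurable ((hM.pow_const _).indicator (hS j)).aemeasurable
        refine h.trans (mul_le_mul' le_rfl (le_of_eq ?_))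
        rw [hθ']
        congr 1
        rw [← lintegral_indicator (hS j)]
        refine lintegral_congr fun y => ?_
        by_cases hy : y ∈ S j
        · rw [indicator_of_mem hy, indicator_of_mem hy, ← ENNReal.rpow_mul]
          congr 1
          rw [ht, ← hθ']
          field_simp
        · rw [indicator_of_notMem hy, indicator_of_notMem hy, ENNReal.zero_rpow_of_pos (by positivity)]

end Pool.Agent.J4.H87.Hyp
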