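import Pool.Agent.J4.H87.HypD

set_option autoImplicit false

/-! Families of boxes in hyperplanes: planar families and the recursion. -/

open MeasureTheory Set Filter Topology ENNReal NNReal Metric

namespace Pool.Agent.J4.H87.Hyp

open Pool.Agent.H810R3.Tub (Space box nor dir norm_dir radial frame frame_coe norm_sq_frame norm_e
  finrank_space box_closed vol_box box_perp norm_space_sq)
open Pool.Agent.R251.End (pc vol_pc)

variable {d : ℕ} {ι : Type}

theorem orthonormal_snoc {r : ℕ} {e : Fin r → Space d} (he : Orthonormal ℝ e) {ν : Space d}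
    (hν : ‖ν‖ = 1) (h : ∀ l, (inner ℝ (e l) ν : ℝ) = 0) :
    Orthonormal ℝ (Fin.snoc e ν : Fin (r + 1) → Space d) := by
  constructor
  · intro i
    refine Fin.lastCases ?_ (fun l => ?_) i
    · rw [Fin.snoc_last]; exact hν
    · rw [Fin.snoc_castSucc]; exact he.1 l
  · intro i j hij
    induction i using Fin.lastCases with
    | last =>
      induction j using Fin.lastCases with
      | last => exact absurd rfl hij
      | cast l' =>
        show (inner ℝ ((Fin.snoc e ν : Fin (r + 1) → Space d) (Fin.last r))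
          ((Fin.snoc e ν : Fin (r + 1) → Space d) (Fin.castSucc l')) : ℝ) = 0
        rw [Fin.snoc_last, Fin.snoc_castSucc, real_inner_comm]
        exact h l'
    | cast l =>
      induction j using Fin.lastCases with
      | last =>
        show (inner ℝ ((Fin.snoc e ν : Fin (r + 1) → Space d) (Fin.castSucc l))
          ((Fin.snoc e ν : Fin (r + 1) → Space d) (Fin.last r)) : ℝ) = 0
        rw [Fin.snoc_last, Fin.snoc_castSucc]
        exact h l
      | cast l' =>
        show (inner ℝ ((Fin.snoc e ν : Fin (r + 1) → Space d) (Fin.castSucc l))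
          ((Fin.snoc e ν : Fin (r + 1) → Space d) (Fin.castSucc l')) : ℝ) = 0
        rw [Fin.snoc_castSucc, Fin.snoc_castSucc]
        exact he.2 (fun hll => hij (by rw [hll]))

/-- A unit vector orthogonal to few vectors. -/
theorem exists_normal {r : ℕ} (hr : r < d + 1) (v : Fin r → Space d) :
    ∃ ν : Space d, ‖ν‖ = 1 ∧ ∀ l, (inner ℝ (v l) ν : ℝ) = 0 := by
  set W := Submodule.span ℝ (Set.range v) with hW
  have h1 : Module.finrank ℝ W ≤ r := by
    have := finrank_range_le_card (R := ℝ) v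
    rwa [Fintype.card_fin] at this
  have h2 := Submodule.finrank_add_finrank_orthogonal W
  rw [finrank_space] at h2
  have h3 : 0 < Module.finrank ℝ Wᗮ := by omega
  obtain ⟨x, hx⟩ := Module.finrank_pos_iff_exists_ne_zero.1 h3
  have hx0 : (x : Space d) ≠ 0 := fun h => hx (Subtype.ext h)
  have hn : 0 < ‖(x : Space d)‖ := norm_pos_iff.2 hx0
  refine ⟨‖(x : Space d)‖⁻¹ • (x : Space d), ?_, ?_⟩
  · rw [norm_smul, norm_inv, norm_norm, inv_mul_cancel₀ hn.ne']
  · intro l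
    rw [inner_smul_right]
    have : (inner ℝ (v l) (x : Space d) : ℝ) = 0 :=
      (Submodule.mem_orthogonal W _).1 x.2 (v l) (Submodule.subset_span (Set.mem_range_self l))
    rw [this, mul_zero]

/-- A box in a slab. -/
theorem near_of_slab {N K c : ℝ} (hN : 1 ≤ N) {e ν : Space d} {f : Fin d → Space d}
    (h : Orthonormal ℝ (Fin.cons e f : Fin (d + 1) → Space d)) {a : Space d}
    (hs : box N e f a ⊆ Slab (K * N) ν c) : |(inner ℝ ν e : ℝ)| ≤ 2 * K / N := by
  have hN0 : 0 < N := by linarith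
  have hmem : ∀ s : ℝ, |s| ≤ N ^ 2 / 2 → a + s • e ∈ box N e f a := by
    intro s hs
    have he : ‖e‖ = 1 := norm_e h
    constructor
    · rw [add_sub_cancel_left, inner_smul_right, real_inner_self_eq_norm_sq, he, one_pow, mul_one]
      exact hs
    · intro j
      rw [add_sub_cancel_left, inner_smul_right]
      have : (inner ℝ (f j) e : ℝ) = 0 := by
        have := h.2 (show (j.succ : Fin (d + 1)) ≠ 0 from Fin.succ_ne_zero j)
        simpa using this
      rw [this, mul_zero, abs_zero]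
      positivity
  have h1 := hs (hmem (N ^ 2 / 2) (by rw [abs_of_nonneg (by positivity)]))
  have h2 := hs (hmem (-(N ^ 2 / 2)) (by rw [abs_neg, abs_of_nonneg (by positivity)]))
  have h1' : |(inner ℝ ν (a + (N ^ 2 / 2) • e) : ℝ) - c| ≤ K * N := h1
  have h2' : |(inner ℝ ν (a + (-(N ^ 2 / 2)) • e) : ℝ) - c| ≤ K * N := h2
  rw [inner_add_right, inner_smul_right] at h1' h2'
  rw [abs_le] at h1' h2'
  have h3 : |(inner ℝ ν e : ℝ)| * N ^ 2 ≤ 2 * K * N := by
    rw [← abs_of_nonneg (by positivity : (0:ℝ) ≤ N ^ 2), ← abs_mul, abs_le]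
    constructor <;> linarith [h1'.1, h1'.2, h2'.1, h2'.2]
  rw [le_div_iff₀ hN0]
  nlinarith

/-- The slab around one box. -/
theorem box_in_slab {N : ℝ} (hN : 1 ≤ N) {e ν : Space d} {f : Fin d → Space d} (hν : ‖ν‖ = 1)
    (h : Orthonormal ℝ (Fin.cons e f : Fin (d + 1) → Space d)) (a : Space d)
    (h0 : (inner ℝ ν e : ℝ) = 0) : box N e f a ⊆ Slab (d * N) ν (inner ℝ ν a) := by
  intro y hy
  have hN0 : 0 < N := by linarith
  have hd0 : (0 : ℝ) ≤ d := Nat.cast_nonneg d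
  have hp := box_perp hN h hy
  have h1 := abs_real_inner_le_norm ν (y - a - (inner ℝ e (y - a) : ℝ) • e)
  rw [hν, one_mul, inner_sub_right, inner_smul_right, h0, mul_zero, sub_zero, inner_sub_right] at h1
  have : |(inner ℝ ν y : ℝ) - inner ℝ ν a| ≤ d * N / 2 := h1.trans hp
  show |(inner ℝ ν y : ℝ) - inner ℝ ν a| ≤ d * N
  have h2 : d * N / 2 ≤ d * N := by nlinarith [mul_nonneg hd0 hN0.le]
  linarith

/-- The basic constant. -/
noncomputable def C1 (d : ℕ) (σ K : ℝ) : ℝ :=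
  2 * cK d * (σ ^ d)⁻¹ * (2 * K) ^ d * (4 * K + 6 * d + 2)

theorem cK_ge (d : ℕ) : 1 ≤ cK d := by
  unfold cK
  have hd0 : (0 : ℝ) ≤ d := Nat.cast_nonneg d
  have h1 : (1 : ℝ) ≤ 6 ^ (d + 1) := one_le_pow₀ (by norm_num)
  have h2 : (1 : ℝ) ≤ (8 * ((d : ℝ) + 1)) ^ d := one_le_pow₀ (by linarith)
  nlinarith

theorem C1_aux {σ K : ℝ} (hσ : 0 < σ) (hσ1 : σ ≤ 1) (hK : 1 ≤ K) {r : ℕ} (hr : r ≤ d) :
    1 ≤ cK d * (σ ^ d)⁻¹ * (2 * K) ^ r ∧ cK d * (σ ^ d)⁻¹ * (2 * K) ^ r ≤ cK d * (σ ^ d)⁻¹ * (2 * K) ^ d := by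
  have h0 := cK_ge d
  have h1 : 1 ≤ (σ ^ d)⁻¹ := (one_le_inv₀ (by positivity)).2 (pow_le_one₀ hσ.le hσ1)
  have h2 : (1 : ℝ) ≤ (2 * K) ^ r := one_le_pow₀ (by linarith)
  constructor
  · exact one_le_mul_of_one_le_of_one_le (one_le_mul_of_one_le_of_one_le h0 h1) h2
  · have h3 : (2 * K) ^ r ≤ (2 * K) ^ d := pow_le_pow_right₀ (by linarith) hr
    gcongr

theorem C1_ge {σ K : ℝ} (hσ : 0 < σ) (hσ1 : σ ≤ 1) (hK : 1 ≤ K) : 1 ≤ C1 d σ K := by
  have h1 := (C1_aux (d := d) hσ hσ1 hK (le_refl d)).1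
  have hd0 : (0 : ℝ) ≤ d := Nat.cast_nonneg d
  unfold C1
  have h2 : (1 : ℝ) ≤ 4 * K + 6 * d + 2 := by linarith
  have h3 : 2 * cK d * (σ ^ d)⁻¹ * (2 * K) ^ d = 2 * (cK d * (σ ^ d)⁻¹ * (2 * K) ^ d) := by ring
  rw [h3]
  nlinarith

/-- The basic constant dominates. -/
theorem A0_le {σ K N : ℝ} (hσ : 0 < σ) (hσ1 : σ ≤ 1) (hK : 1 ≤ K) (hN : 1 ≤ N) {r : ℕ} (hr : r ≤ d) :
    A0 d σ (2 * K) r N ≤ C1 d σ K * N ^ (d - r) := by
  have hN0 : 0 < N := by linarith
  have h1 := (C1_aux (d := d) hσ hσ1 hK hr)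
  have e1 : N ^ d / N ^ r = N ^ (d - r) := by
    rw [div_eq_iff (by positivity), ← pow_add]
    congr 1
    omega
  have hd0 : (0 : ℝ) ≤ d := Nat.cast_nonneg d
  unfold A0 C1
  rw [e1]
  apply mul_le_mul_of_nonneg_right _ (by positivity)
  have h2 : (1 : ℝ) ≤ 4 * K + 6 * d + 2 := by linarith
  have h3 : 2 * cK d * (σ ^ d)⁻¹ * (2 * K) ^ d = 2 * (cK d * (σ ^ d)⁻¹ * (2 * K) ^ d) := by ring
  rw [h3]
  nlinarith [h1.1, h1.2]

theorem AV_le {σ K K' N : ℝ} (hσ : 0 < σ) (hσ1 : σ ≤ 1) (hK : 1 ≤ K) (hN : 1 ≤ N) {r : ℕ} (hr : r ≤ d)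
    (hK' : K' ≤ K + d) :
    2 * A0 d σ (2 * K) r N * V0 d K' N ≤ C1 d σ K * N ^ (2 * d + 1 - r) := by
  have hN0 : 0 < N := by linarith
  have h1 := (C1_aux (d := d) hσ hσ1 hK hr)
  have e1 : N ^ d / N ^ r = N ^ (d - r) := by
    rw [div_eq_iff (by positivity), ← pow_add]
    congr 1
    omega
  have hd0 : (0 : ℝ) ≤ d := Nat.cast_nonneg d
  unfold A0 C1 V0
  rw [e1]
  have e2 : N ^ (2 * d + 1 - r) = N ^ (d - r) * N ^ (d + 1) := by
    rw [← pow_add]
    congr 1
    omega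
  rw [e2]
  have h0 : 0 ≤ cK d * (σ ^ d)⁻¹ * (2 * K) ^ r := by linarith [h1.1]
  calc 2 * (cK d * (σ ^ d)⁻¹ * (2 * K) ^ r * N ^ (d - r)) * ((4 * K' + 2 * d + 2) * N ^ (d + 1))
      = 2 * (cK d * (σ ^ d)⁻¹ * (2 * K) ^ r) * (4 * K' + 2 * d + 2) * (N ^ (d - r) * N ^ (d + 1)) := by ring
    _ ≤ 2 * (cK d * (σ ^ d)⁻¹ * (2 * K) ^ r) * (4 * K + 6 * d + 2) * (N ^ (d - r) * N ^ (d + 1)) := by
        apply mul_le_mul_of_nonneg_right _ (by positivity)
        apply mul_le_mul_of_nonneg_left _ (by positivity)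
        linarith
    _ ≤ 2 * (cK d * (σ ^ d)⁻¹ * (2 * K) ^ d) * (4 * K + 6 * d + 2) * (N ^ (d - r) * N ^ (d + 1)) := by
        have := h1.2
        gcongr
    _ = _ := by ring

/-- The number of the members of a planar family. -/
theorem planar_card {N σ K : ℝ} {ω : ι → Vec d} {f : ι → Fin d → Space d} (hS : Sep N σ ω f)
    (hK : 1 ≤ K) {J : Finset ι} {r : ℕ} (hr : r + 1 = d) (e : Fin r → Space d) (he : Orthonormal ℝ e)
    (hJ : Near N (2 * K) ω J e) : (J.card : ℝ) ≤ C1 d σ K * N := by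
  have hN := hS.hN
  have hN0 : 0 < N := by linarith
  obtain ⟨ν, hν, hν0⟩ := exists_normal (d := d) (by omega : r < d + 1) e
  have hE := orthonormal_snoc he hν hν0
  have h := count J hN hS.hσ hS.hσ1 (by linarith : 1 ≤ 2 * K) (ρ := 1) (by rw [div_le_one hN0]; exact hN)
    ω f (fun i _ => hS.hω i) (fun i _ j _ hij => hS.hsep i j hij) (fun i _ => hS.hf i) (by omega : r ≤ d) _ hE
    (by intro i hi l; rw [Fin.snoc_castSucc]; exact hJ i hi l)
    (by
      intro i _
      rw [Fin.snoc_last]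
      have := abs_real_inner_le_norm ν (nor (ω i))
      rwa [hν, show ‖nor (ω i)‖ = 1 from norm_dir _, one_mul] at this)
  rw [mul_one] at h
  have h2 := A0_le (d := d) hS.hσ hS.hσ1 hK hN (by omega : r ≤ d)
  have e1 : d - r = 1 := by omega
  rw [e1, pow_one] at h2
  exact h.trans h2

/-- Planar families: the integral of a power is bounded by the integrals over the boxes. -/
theorem planar_sum {N : ℝ} {ω : ι → Vec d} {f : ι → Fin d → Space d} (a : ι → Space d)
    (J : Finset ι) {q : ℝ} (hq : 1 < q) :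
    ∫⁻ y, F N ω f a J y ^ q = ∑ i ∈ J, ∫⁻ y in box N (nor (ω i)) (f i) (a i), F N ω f a J y ^ (q - 1) := by
  have e1 : ∀ y, F N ω f a J y ^ q = ∑ i ∈ J, (box N (nor (ω i)) (f i) (a i)).indicator
      (fun y => F N ω f a J y ^ (q - 1)) y := by
    intro y
    have e1 : F N ω f a J y ^ q = F N ω f a J y * F N ω f a J y ^ (q - 1) := by
      conv_lhs => rw [show q = 1 + (q - 1) by ring]
      rw [ENNReal.rpow_add_of_nonneg _ _ zero_le_one (by linarith), ENNReal.rpow_one]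
    rw [e1]
    conv_lhs => rw [F, Finset.sum_mul]
    refine Finset.sum_congr rfl fun i _ => ?_
    by_cases h : y ∈ box N (nor (ω i)) (f i) (a i)
    · rw [indicator_of_mem h, indicator_of_mem h, one_mul]
      rfl
    · rw [indicator_of_notMem h, indicator_of_notMem h, zero_mul]
  simp_rw [e1]
  rw [lintegral_finsetSum _ (fun i _ => ((F_meas N ω f a J).pow_const _).indicator (box_closed _ _ _ _).measurableSet)]
  exact Finset.sum_congr rfl fun i _ => lintegral_indicator (box_closed _ _ _ _).measurableSet _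

/-- A slab around a box of a planar family. -/
theorem planar_slab {N : ℝ} {σ : ℝ} {ω : ι → Vec d} {f : ι → Fin d → Space d} (hS : Sep N σ ω f)
    (a : ι → Space d) {r : ℕ} (hr : r + 1 = d) (e : Fin r → Space d) (he : Orthonormal ℝ e) (i : ι) :
    ∃ (ν : Space d) (c : ℝ), Orthonormal ℝ (Fin.snoc e ν : Fin (r + 1) → Space d) ∧
      box N (nor (ω i)) (f i) (a i) ⊆ Slab (d * N) ν c := by
  obtain ⟨ν, hν, hν0⟩ := exists_normal (d := d) (by omega : r + 1 < d + 1) (Fin.snoc e (nor (ω i)) : Fin (r + 1) → Space d)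
  have h1 : ∀ l, (inner ℝ (e l) ν : ℝ) = 0 := by
    intro l
    have := hν0 l.castSucc
    rwa [Fin.snoc_castSucc] at this
  have h2 : (inner ℝ ν (nor (ω i)) : ℝ) = 0 := by
    have := hν0 (Fin.last r)
    rw [Fin.snoc_last] at this
    rw [real_inner_comm]
    exact this
  exact ⟨ν, _, orthonormal_snoc he hν h1, box_in_slab hS.hN hν (hS.hf i) (a i) h2⟩

/-- Planar families, the critical exponent `2`. -/
theorem planar_two {N σ K : ℝ} {ω : ι → Vec d} {f : ι → Fin d → Space d} (hS : Sep N σ ω f)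
    (hK : 1 ≤ K) (a : ι → Space d) {J : Finset ι} {r : ℕ} (hr : r + 1 = d) (e : Fin r → Space d)
    (he : Orthonormal ℝ e) (hJ : Near N (2 * K) ω J e) :
    ∫⁻ y, F N ω f a J y ^ (2 : ℝ) ≤
      ENNReal.ofReal ((J.card : ℝ) * (C1 d σ K * N ^ (2 * d + 1 - r) * (1 + Real.log N))) := by
  have hN := hS.hN
  have hlog := Real.log_nonneg hN
  rw [planar_sum a J (by norm_num : (1:ℝ) < 2)]
  calc ∑ i ∈ J, ∫⁻ y in box N (nor (ω i)) (f i) (a i), F N ω f a J y ^ ((2 : ℝ) - 1)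
      ≤ ∑ _i ∈ J, ENNReal.ofReal (C1 d σ K * N ^ (2 * d + 1 - r) * (1 + Real.log N)) := by
        refine Finset.sum_le_sum fun i _ => ?_
        obtain ⟨ν, c, hE, hsub⟩ := planar_slab hS a hr e he i
        have h1 := slab_one hS (by linarith : 1 ≤ 2 * K) (Nat.cast_nonneg d) (by omega : r ≤ d) e ν hE hJ c a
        rw [show (2 : ℝ) - 1 = 1 by norm_num]
        simp only [ENNReal.rpow_one]
        refine (lintegral_mono_set hsub).trans (h1.trans (ENNReal.ofReal_le_ofReal ?_))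
        apply mul_le_mul_of_nonneg_right _ (by positivity)
        exact AV_le hS.hσ hS.hσ1 hK hN (by omega) (by linarith)
    _ = _ := by
        rw [Finset.sum_const, nsmul_eq_mul, ENNReal.ofReal_mul (Nat.cast_nonneg _), ENNReal.ofReal_natCast]

end Pool.Agent.J4.H87.Hyp
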