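import Pool.Agent.J4.H87.HypE

set_option autoImplicit false

/-! Families of boxes in hyperplanes: the recursion. -/

open MeasureTheory Set Filter Topology ENNReal NNReal Metric

namespace Pool.Agent.J4.H87.Hyp

open Pool.Agent.H810R3.Tub (Space box nor dir norm_dir radial frame frame_coe norm_sq_frame norm_e
  finrank_space box_closed vol_box box_perp norm_space_sq)
open Pool.Agent.R251.End (pc vol_pc)

variable {d : ℕ} {ι : Type}

/-- The sets `T i`, `i ∈ J`, are organised in slabs: see the result file. -/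
inductive Org (R : ℝ) (Q : ℕ → ℝ) (T : ι → Set (Space d)) :
    (r : ℕ) → (Fin r → Space d) → Finset ι → Prop
  | planar (r : ℕ) (e : Fin r → Space d) (J : Finset ι) (h : d ≤ r + 1) : Org R Q T r e J
  | split (r : ℕ) (e : Fin r → Space d) (J : Finset ι) (m : ℕ) (P : Fin m → Finset ι)
      (ν : Fin m → Space d) (c : Fin m → ℝ) (hm : (m : ℝ) ≤ Q r)
      (hcov : ∀ i ∈ J, ∃ j, i ∈ P j)
      (hν : ∀ j, Orthonormal ℝ (Fin.snoc e (ν j) : Fin (r + 1) → Space d))
      (hslab : ∀ j, ∀ i ∈ P j, T i ⊆ Slab R (ν j) (c j))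
      (hrec : ∀ j, Org R Q T (r + 1) (Fin.snoc e (ν j)) (P j)) : Org R Q T r e J

theorem Org.mono {R : ℝ} {Q : ℕ → ℝ} {T : ι → Set (Space d)} {r : ℕ} {e : Fin r → Space d}
    {J J' : Finset ι} (hJ : J' ⊆ J) (h : Org R Q T r e J) : Org R Q T r e J' := by
  cases h with
  | planar _ _ _ h => exact Org.planar r e J' h
  | split _ _ _ m P ν c hm hcov hν hslab hrec =>
    exact Org.split r e J' m P ν c hm (fun i hi => hcov i (hJ hi)) hν hslab hrec

/-- An organised family can be partitioned. -/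
theorem Org.part {R : ℝ} {Q : ℕ → ℝ} {T : ι → Set (Space d)} {r : ℕ} {e : Fin r → Space d}
    {J : Finset ι} (hr : r + 1 < d) (h : Org R Q T r e J) (hJ : J.Nonempty) :
    ∃ (m : ℕ) (P : Fin m → Finset ι) (ν : Fin m → Space d) (c : Fin m → ℝ), (m : ℝ) ≤ Q r ∧
      (∀ i ∈ J, ∃ j, i ∈ P j) ∧ (∀ j, P j ⊆ J) ∧ (∑ j, (P j).card = J.card) ∧
      (∀ j, Orthonormal ℝ (Fin.snoc e (ν j) : Fin (r + 1) → Space d)) ∧
      (∀ j, ∀ i ∈ P j, T i ⊆ Slab R (ν j) (c j)) ∧
      (∀ j, Org R Q T (r + 1) (Fin.snoc e (ν j)) (P j)) := by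
  classical
  cases h with
  | planar _ _ _ h => omega
  | split _ _ _ m P ν c hm hcov hν hslab hrec =>
    obtain ⟨i₀, hi₀⟩ := hJ
    have hne : Nonempty (Fin m) := ⟨(hcov i₀ hi₀).choose⟩
    choose! g hg using hcov
    refine ⟨m, fun j => J.filter (fun i => g i = j), ν, c, hm, ?_, ?_, ?_, hν, ?_, ?_⟩
    · intro i hi
      exact ⟨g i, Finset.mem_filter.2 ⟨hi, rfl⟩⟩
    · intro j
      exact Finset.filter_subset _ _
    · rw [Finset.card_eq_sum_card_fiberwise (f := g) (t := Finset.univ) (fun i _ => by simp)]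
    · intro j i hi
      obtain ⟨h1, h2⟩ := Finset.mem_filter.1 hi
      have := hg i h1
      rw [h2] at this
      exact hslab j i this
    · intro j
      refine (hrec j).mono ?_
      intro i hi
      obtain ⟨h1, h2⟩ := Finset.mem_filter.1 hi
      have := hg i h1
      rwa [h2] at this

theorem near_snoc {N K : ℝ} (hN : 1 ≤ N) {ω : ι → Vec d} {f : ι → Fin d → Space d}
    (hf : ∀ i, Orthonormal ℝ (Fin.cons (nor (ω i)) (f i) : Fin (d + 1) → Space d)) (a : ι → Space d)
    {J P : Finset ι} (hP : P ⊆ J) {r : ℕ} {e : Fin r → Space d} (hJ : Near N (2 * K) ω J e)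
    {ν : Space d} {c : ℝ} (hs : ∀ i ∈ P, box N (nor (ω i)) (f i) (a i) ⊆ Slab (K * N) ν c) :
    Near N (2 * K) ω P (Fin.snoc e ν : Fin (r + 1) → Space d) := by
  intro i hi l
  refine Fin.lastCases ?_ (fun l' => ?_) l
  · rw [Fin.snoc_last]
    exact near_of_slab hN (hf i) (hs i hi)
  · rw [Fin.snoc_castSucc]
    exact hJ i (hP hi) l'

theorem F_zero {N : ℝ} {ω : ι → Vec d} {f : ι → Fin d → Space d} {a : ι → Space d}
    {J : Finset ι} (hJ : ¬ J.Nonempty) {q : ℝ} (hq : 0 < q) : ∫⁻ y, F N ω f a J y ^ q = 0 := by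
  rw [Finset.not_nonempty_iff_eq_empty] at hJ
  have : (fun y => F N ω f a J y ^ q) = fun _ => 0 := by
    funext y
    unfold F
    rw [hJ, Finset.sum_empty, ENNReal.zero_rpow_of_pos hq]
  rw [this, lintegral_zero]

/-- The losses. -/
noncomputable def W (μ : ℕ → ℝ) : ℕ → ℕ → ℝ
  | _, 0 => 1
  | r, k + 1 => W μ (r + 1) k * μ r ^ (k + 1)

theorem W_pos {μ : ℕ → ℝ} (hμ : ∀ r, 1 ≤ μ r) : ∀ (k r : ℕ), 1 ≤ W μ r k
  | 0, _ => le_refl _
  | k + 1, r => by
    unfold W
    exact one_le_mul_of_one_le_of_one_le (W_pos hμ k (r + 1)) (one_le_pow₀ (hμ r))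

theorem sum_pow_le {m : ℕ} (x : Fin m → ℝ) (hx : ∀ j, 0 ≤ x j) {θ : ℝ} (hθ0 : 0 < θ) (hθ1 : θ ≤ 1) :
    ∑ j, x j ^ θ ≤ (m : ℝ) ^ (1 - θ) * (∑ j, x j) ^ θ := by
  have h := Real.inner_le_Lp_mul_Lq_of_nonneg (Finset.univ : Finset (Fin m)) (p := 1 / θ)
    (q := (1 / θ) / (1 / θ - 1)) (f := fun j => x j ^ θ) (g := fun _ => 1)
  rcases eq_or_lt_of_le hθ1 with h1 | h1
  · rw [h1]
    simp
  · have hpq : (1 / θ).HolderConjugate ((1 / θ) / (1 / θ - 1)) := by
      apply Real.HolderConjugate.conjExponent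
      rw [lt_div_iff₀ hθ0]
      linarith
    have h2 := h hpq (fun j _ => Real.rpow_nonneg (hx j) _) (fun _ _ => zero_le_one)
    simp only [mul_one, Real.one_rpow, Finset.sum_const, Finset.card_univ, Fintype.card_fin,
      nsmul_eq_mul] at h2
    have e1 : ∀ j, (x j ^ θ) ^ (1 / θ) = x j := by
      intro j
      rw [← Real.rpow_mul (hx j), mul_one_div_cancel hθ0.ne', Real.rpow_one]
    simp only [e1] at h2
    have e2 : 1 / (1 / θ / (1 / θ - 1)) = 1 - θ := by
      field_simp
    rw [e2, one_div_one_div] at h2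
    linarith [h2, mul_comm ((∑ j, x j) ^ θ) ((m : ℝ) ^ (1 - θ))]

/-- **The critical exponent.** -/
theorem crit_int {N σ K : ℝ} {μ : ℕ → ℝ} (hμ : ∀ r, 1 ≤ μ r) {ω : ι → Vec d} {f : ι → Fin d → Space d}
    (hS : Sep N σ ω f) (hK : 1 ≤ K) (a : ι → Space d) : ∀ k r : ℕ, r + k + 1 = d →
    ∀ (e : Fin r → Space d) (J : Finset ι),
    Orthonormal ℝ e → Near N (2 * K) ω J e →
    Org (K * N) (fun r => μ r * N) (fun i => box N (nor (ω i)) (f i) (a i)) r e J →
    ∫⁻ y, F N ω f a J y ^ (1 + 1 / ((k : ℝ) + 1)) ≤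
      ENNReal.ofReal ((J.card : ℝ) ^ (1 / ((k : ℝ) + 1)) * (C1 d σ K * W μ r k ^ (1 / ((k : ℝ) + 1)) *
        N ^ (d + 2 + k) * (1 + Real.log N))) := by
  have hN := hS.hN
  have hN0 : 0 < N := by linarith
  have hlog := Real.log_nonneg hN
  have hC1 := C1_ge (d := d) hS.hσ hS.hσ1 hK
  have hC0 : 0 < C1 d σ K := by linarith
  intro k
  induction k with
  | zero =>
    intro r hr e J he hJ _
    have h1 := planar_two hS hK a (by omega : r + 1 = d) e he hJ
    have e1 : (1 + 1 / (((0 : ℕ) : ℝ) + 1)) = 2 := by norm_num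
    have e2 : 1 / (((0 : ℕ) : ℝ) + 1) = 1 := by norm_num
    rw [e1, e2]
    refine h1.trans (le_of_eq ?_)
    have e3 : 2 * d + 1 - r = d + 2 + 0 := by omega
    rw [e3, Real.rpow_one, Real.rpow_one]
    unfold W
    rw [mul_one]
  | succ k ih =>
    intro r hr e J he hJ hO
    have hk0 : (0 : ℝ) < (k : ℝ) + 1 := by positivity
    have hk2 : (0 : ℝ) < (k : ℝ) + 2 := by positivity
    have ek : (((k + 1 : ℕ) : ℝ) + 1) = (k : ℝ) + 2 := by push_cast; ring
    rcases J.eq_empty_or_nonempty with hJe | hJne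
    · rw [F_zero (by rw [hJe]; simp) (by positivity)]
      exact zero_le
    obtain ⟨m, P, ν, c, hm, hcov, hsub, hcard, hν, hslab, hrec⟩ := hO.part (by omega) hJne
    rw [ek]
    set L : ℝ := 1 + Real.log N with hL
    have hL0 : 0 < L := by positivity
    set C := C1 d σ K with hC
    have hW0 : 0 < W μ (r + 1) k := lt_of_lt_of_le one_pos (W_pos hμ _ _)
    set B : ℝ := C * W μ (r + 1) k ^ (1 / ((k : ℝ) + 1)) * N ^ (d + 2 + k) * L with hB
    have hB0 : 0 < B := by positivity
    set X : ℝ := C * N ^ (d + 3 + k) * L with hX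
    have hX0 : 0 < X := by positivity
    have hIH : ∀ j, ∫⁻ y, F N ω f a (P j) y ^ (1 + 1 / ((k : ℝ) + 1)) ≤
        ENNReal.ofReal (((P j).card : ℝ) ^ (1 / ((k : ℝ) + 1)) * B) := by
      intro j
      exact ih (r + 1) (by omega) _ (P j) (hν j) (near_snoc hN hS.hf a (hsub j) hJ (hslab j)) (hrec j)
    have hSl : ∀ j, ∫⁻ y in Slab (K * N) (ν j) (c j), F N ω f a J y ^ (1 : ℝ) ≤ ENNReal.ofReal X := by
      intro j
      simp only [ENNReal.rpow_one]
      have h1 := slab_one hS (by linarith : 1 ≤ 2 * K) (by linarith : 0 ≤ K) (by omega : r ≤ d) e (ν j) (hν j) hJ (c j) a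
      refine h1.trans (ENNReal.ofReal_le_ofReal ?_)
      rw [hX]
      apply mul_le_mul_of_nonneg_right _ (by positivity)
      have hd0 : (0 : ℝ) ≤ d := Nat.cast_nonneg d
      refine (AV_le hS.hσ hS.hσ1 hK hN (by omega : r ≤ d) (by linarith : K ≤ K + d)).trans (le_of_eq ?_)
      have e2 : 2 * d + 1 - r = d + 3 + k := by omega
      rw [e2]
    have hb := basic (volume : Measure (Space d)) (F N ω f a J) (F_meas N ω f a J)
      (fun j => F N ω f a (P j)) (fun j => F_meas N ω f a (P j)) (fun j => Slab (K * N) (ν j) (c j))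
      (fun j => (Slab_closed _ _ _).measurableSet)
      (by
        intro j y hy
        unfold F
        apply Finset.sum_eq_zero
        intro i hi
        exact indicator_of_notMem (fun h => hy (hslab j i hi h)) _)
      (by
        intro y
        have := F_cover N ω f a J P hcov y
        rwa [tsum_fintype] at this)
      (q := 1 + 1 / ((k : ℝ) + 2)) (s := 1 + 1 / ((k : ℝ) + 1)) (t := 1)
      (θ := 1 / ((k : ℝ) + 2))
      (by
        have : (0 : ℝ) < 1 / ((k : ℝ) + 2) := by positivity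
        linarith)
      (by
        have : (0 : ℝ) < 1 / ((k : ℝ) + 1) := by positivity
        linarith)
      (by
        field_simp
        ring)
      (by ring)
    refine hb.trans ?_
    have es : 1 / (1 + 1 / ((k : ℝ) + 1)) = ((k : ℝ) + 1) / (k + 2) := by
      field_simp
      ring
    rw [es]
    set θ : ℝ := 1 / ((k : ℝ) + 2) with hθ
    have hθ0 : 0 < θ := by positivity
    have hθ1 : θ ≤ 1 := by rw [hθ, div_le_one hk2]; linarith
    have hz : ((k : ℝ) + 1) / (k + 2) = 1 - θ := by rw [hθ]; field_simp; ring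
    have hz0 : 0 < 1 - θ := by rw [← hz]; positivity
    have hcz : 1 / ((k : ℝ) + 1) * (1 - θ) = θ := by
      rw [← hz, hθ]
      field_simp
    rw [hz]
    have hcard' : (∑ j, ((P j).card : ℝ)) = (J.card : ℝ) := by
      rw [← hcard]
      push_cast
      rfl
    calc ∑ j, (∫⁻ y, F N ω f a (P j) y ^ (1 + 1 / ((k : ℝ) + 1))) ^ (1 - θ) *
          (∫⁻ y in Slab (K * N) (ν j) (c j), F N ω f a J y ^ (1 : ℝ)) ^ θ
        ≤ ∑ j : Fin m, ENNReal.ofReal (((P j).card : ℝ) ^ θ * (B ^ (1 - θ) * X ^ θ)) := by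
          refine Finset.sum_le_sum fun j _ => ?_
          calc _ ≤ ENNReal.ofReal (((P j).card : ℝ) ^ (1 / ((k : ℝ) + 1)) * B) ^ (1 - θ) *
                ENNReal.ofReal X ^ θ :=
                mul_le_mul' (ENNReal.rpow_le_rpow (hIH j) hz0.le)
                  (ENNReal.rpow_le_rpow (hSl j) hθ0.le)
            _ = _ := by
                rw [ENNReal.ofReal_rpow_of_nonneg (by positivity) hz0.le, ENNReal.ofReal_rpow_of_pos hX0,
                  ← ENNReal.ofReal_mul (by positivity), Real.mul_rpow (by positivity) hB0.le,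
                  ← Real.rpow_mul (Nat.cast_nonneg _), hcz]
                congr 1
                ring
      _ = ENNReal.ofReal ((∑ j : Fin m, ((P j).card : ℝ) ^ θ) * (B ^ (1 - θ) * X ^ θ)) := by
          rw [Finset.sum_mul, ENNReal.ofReal_sum_of_nonneg]
          intro j _
          positivity
      _ ≤ ENNReal.ofReal (((μ r * N) ^ (1 - θ) * (J.card : ℝ) ^ θ) * (B ^ (1 - θ) * X ^ θ)) := by
          apply ENNReal.ofReal_le_ofReal
          apply mul_le_mul_of_nonneg_right _ (by positivity)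
          refine (sum_pow_le (fun j => ((P j).card : ℝ)) (fun j => Nat.cast_nonneg _) hθ0 hθ1).trans ?_
          rw [hcard']
          apply mul_le_mul_of_nonneg_right _ (by positivity)
          exact Real.rpow_le_rpow (Nat.cast_nonneg _) hm hz0.le
      _ = _ := by
          congr 1
          have hμr : 0 < μ r := lt_of_lt_of_le one_pos (hμ r)
          have eW : W μ r (k + 1) = W μ (r + 1) k * μ r ^ (k + 1) := rfl
          have e5 : (μ r ^ (k + 1)) ^ θ = μ r ^ (1 - θ) := by
            rw [← Real.rpow_natCast, ← Real.rpow_mul hμr.le, ← hz, hθ]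
            push_cast
            congr 1
            field_simp
          have e6 : (W μ (r + 1) k ^ (1 / ((k : ℝ) + 1))) ^ (1 - θ) = W μ (r + 1) k ^ θ := by
            rw [← Real.rpow_mul hW0.le, hcz]
          have e7 : N ^ (1 - θ) * ((N ^ (d + 2 + k)) ^ (1 - θ) * (N ^ (d + 3 + k)) ^ θ) =
              N ^ (d + 2 + (k + 1)) := by
            rw [← Real.rpow_natCast N (d + 2 + k), ← Real.rpow_natCast N (d + 3 + k),
              ← Real.rpow_natCast N (d + 2 + (k + 1)), ← Real.rpow_mul hN0.le, ← Real.rpow_mul hN0.le,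
              ← Real.rpow_add hN0, ← Real.rpow_add hN0]
            congr 1
            push_cast
            ring
          have e8 : C ^ (1 - θ) * C ^ θ = C := by
            rw [← Real.rpow_add hC0, sub_add_cancel, Real.rpow_one]
          have e9 : L ^ (1 - θ) * L ^ θ = L := by
            rw [← Real.rpow_add hL0, sub_add_cancel, Real.rpow_one]
          rw [eW, Real.mul_rpow hW0.le (by positivity), e5, hB, hX, Real.mul_rpow hμr.le hN0.le,
            Real.mul_rpow (by positivity) hL0.le, Real.mul_rpow (by positivity) (by positivity),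
            Real.mul_rpow hC0.le (by positivity), e6, Real.mul_rpow (by positivity) hL0.le,
            Real.mul_rpow hC0.le (by positivity)]
          calc μ r ^ (1 - θ) * N ^ (1 - θ) * (J.card : ℝ) ^ θ *
                (C ^ (1 - θ) * W μ (r + 1) k ^ θ * (N ^ (d + 2 + k)) ^ (1 - θ) * L ^ (1 - θ) *
                  (C ^ θ * (N ^ (d + 3 + k)) ^ θ * L ^ θ))
              = (J.card : ℝ) ^ θ * ((C ^ (1 - θ) * C ^ θ) * (W μ (r + 1) k ^ θ * μ r ^ (1 - θ)) *
                  (N ^ (1 - θ) * ((N ^ (d + 2 + k)) ^ (1 - θ) * (N ^ (d + 3 + k)) ^ θ)) *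
                  (L ^ (1 - θ) * L ^ θ)) := by ring
            _ = _ := by rw [e7, e8, e9]

end Pool.Agent.J4.H87.Hyp
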