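import Pool.Agent.J4.H87.HypF

set_option autoImplicit false

/-! Families of boxes in hyperplanes: the exponents above the critical one. -/

open MeasureTheory Set Filter Topology ENNReal NNReal Metric

namespace Pool.Agent.J4.H87.Hyp

open Pool.Agent.H810R3.Tub (Space box nor dir norm_dir radial frame frame_coe norm_sq_frame norm_e
  finrank_space box_closed vol_box box_perp norm_space_sq)
open Pool.Agent.R251.End (pc vol_pc)

variable {d : ℕ} {ι : Type}

/-- **The exponents above the critical one.** -/
theorem sup_int (d : ℕ) {σ K : ℝ} (hσ : 0 < σ) (hσ1 : σ ≤ 1) (hK : 1 ≤ K) {μ : ℕ → ℝ}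
    (hμ : ∀ r, 1 ≤ μ r) : ∀ (k : ℕ) (q : ℝ),
    1 + 1 / ((k : ℝ) + 1) < q → ∃ A : ℝ, 0 < A ∧ ∀ (ι : Type) (N : ℝ) (ω : ι → Vec d)
    (f : ι → Fin d → Space d), Sep N σ ω f → ∀ (a : ι → Space d) (r : ℕ), r + k + 1 = d →
    ∀ (e : Fin r → Space d) (J : Finset ι), Orthonormal ℝ e → Near N (2 * K) ω J e →
    Org (K * N) (fun r => μ r * N) (fun i => box N (nor (ω i)) (f i) (a i)) r e J →
    ∫⁻ y, F N ω f a J y ^ q ≤ ENNReal.ofReal (A * N ^ ((d : ℝ) + 1 + ((k : ℝ) + 1) * q)) := by
  have hC1 := C1_ge (d := d) hσ hσ1 hK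
  have hd0 : (0 : ℝ) ≤ d := Nat.cast_nonneg d
  set C := C1 d σ K with hC
  have hC0 : 0 < C := by linarith
  -- the bound over a slab
  have slab : ∀ (ι : Type) (N : ℝ) (ω : ι → Vec d) (f : ι → Fin d → Space d), Sep N σ ω f →
      ∀ (a : ι → Space d) (r : ℕ), r ≤ d → ∀ (e : Fin r → Space d) (J : Finset ι), Near N (2 * K) ω J e →
      ∀ (ν : Space d) (c K' : ℝ), 0 ≤ K' → K' ≤ K + d → Orthonormal ℝ (Fin.snoc e ν : Fin (r + 1) → Space d) →
      ∀ t : ℝ, 1 < t → ∫⁻ y in Slab (K' * N) ν c, F N ω f a J y ^ t ≤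
        ENNReal.ofReal ((Ct t).toReal * C ^ (t + 1) * N ^ (((d - r : ℕ) : ℝ) * t + (d + 1))) := by
    intro ι N ω f hS a r hr e J hJ ν c K' hK0 hK' hE t ht
    have hN := hS.hN
    have hN0 : 0 < N := by linarith
    refine (slab_t hS (by linarith : 1 ≤ 2 * K) hK0 hr e ν hE hJ c a ht).trans ?_
    rw [mul_assoc, ENNReal.ofReal_mul ENNReal.toReal_nonneg, ENNReal.ofReal_toReal (Ct_fin ht)]
    refine mul_le_mul' le_rfl (ENNReal.ofReal_le_ofReal ?_)
    have h1 := A0_le (d := d) hσ hσ1 hK hN hr
    have h2 : V0 d K' N ≤ C * N ^ (d + 1) := by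
      have h3 := AV_le (d := d) (r := d) hσ hσ1 hK hN le_rfl hK'
      have h4 : 1 ≤ A0 d σ (2 * K) d N := by
        unfold A0
        rw [div_self (by positivity), mul_one]
        exact (C1_aux hσ hσ1 hK le_rfl).1
      have h5 := V0_pos (d := d) hK0 hN
      have e1 : 2 * d + 1 - d = d + 1 := by omega
      rw [e1] at h3
      nlinarith
    have hA := A0_pos (d := d) (r := r) hσ (by linarith : 1 ≤ 2 * K) hN
    calc A0 d σ (2 * K) r N ^ t * V0 d K' N ≤ (C * N ^ (d - r)) ^ t * (C * N ^ (d + 1)) := by
          have h5 := V0_pos (d := d) hK0 hN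
          gcongr
      _ = C ^ (t + 1) * N ^ (((d - r : ℕ) : ℝ) * t + (d + 1)) := by
          rw [Real.mul_rpow hC0.le (by positivity), ← Real.rpow_natCast N (d - r), ← Real.rpow_mul hN0.le,
            Real.rpow_add hC0, Real.rpow_one, Real.rpow_add hN0, ← Real.rpow_natCast N (d + 1)]
          push_cast
          ring
  intro k
  induction k with
  | zero =>
    intro q hq
    have hq2 : 2 < q := by
      have : (1 + 1 / (((0 : ℕ) : ℝ) + 1)) = 2 := by norm_num
      rwa [this] at hq
    refine ⟨C * ((Ct (q - 1)).toReal * C ^ ((q - 1) + 1)) + 1, by positivity, ?_⟩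
    intro ι N ω f hS a r hr e J he hJ _
    have hN := hS.hN
    have hN0 : 0 < N := by linarith
    have hcard := planar_card hS hK (by omega : r + 1 = d) e he hJ
    rw [← hC] at hcard
    rw [planar_sum a J (by linarith : 1 < q)]
    have hdr : d - r = 1 := by omega
    calc ∑ i ∈ J, ∫⁻ y in box N (nor (ω i)) (f i) (a i), F N ω f a J y ^ (q - 1)
        ≤ ∑ _i ∈ J, ENNReal.ofReal ((Ct (q - 1)).toReal * C ^ ((q - 1) + 1) *
            N ^ ((1 : ℝ) * (q - 1) + (d + 1))) := by
          refine Finset.sum_le_sum fun i _ => ?_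
          obtain ⟨ν, c, hE, hsub⟩ := planar_slab hS a (by omega : r + 1 = d) e he i
          refine (lintegral_mono_set hsub).trans ?_
          have h := slab ι N ω f hS a r (by omega) e J hJ ν c d hd0 (by linarith) hE (q - 1) (by linarith)
          rw [hdr, Nat.cast_one] at h
          exact h
      _ = ENNReal.ofReal ((J.card : ℝ) * ((Ct (q - 1)).toReal * C ^ ((q - 1) + 1) *
            N ^ ((1 : ℝ) * (q - 1) + (d + 1)))) := by
          rw [Finset.sum_const, nsmul_eq_mul, ENNReal.ofReal_mul (Nat.cast_nonneg _), ENNReal.ofReal_natCast]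
      _ ≤ _ := by
          apply ENNReal.ofReal_le_ofReal
          have hCt : 0 ≤ (Ct (q - 1)).toReal := ENNReal.toReal_nonneg
          calc (J.card : ℝ) * ((Ct (q - 1)).toReal * C ^ ((q - 1) + 1) * N ^ ((1 : ℝ) * (q - 1) + (d + 1)))
              ≤ (C * N) * ((Ct (q - 1)).toReal * C ^ ((q - 1) + 1) * N ^ ((1 : ℝ) * (q - 1) + (d + 1))) := by
                gcongr
            _ = (C * ((Ct (q - 1)).toReal * C ^ ((q - 1) + 1))) * (N ^ (1 : ℝ) * N ^ ((1 : ℝ) * (q - 1) + (d + 1))) := by
                rw [Real.rpow_one]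
                ring
            _ = (C * ((Ct (q - 1)).toReal * C ^ ((q - 1) + 1))) *
                  N ^ ((d : ℝ) + 1 + (((0 : ℕ) : ℝ) + 1) * q) := by
                rw [← Real.rpow_add hN0]
                congr 2
                push_cast
                ring
            _ ≤ _ := by
                apply mul_le_mul_of_nonneg_right (by linarith) (by positivity)
  | succ k ih =>
    intro q hq
    have hk0 : (0 : ℝ) < (k : ℝ) + 1 := by positivity
    set u : ℝ := min (q - 1) 1 with hu
    have hcr : 1 / ((k : ℝ) + 2) < u := by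
      rw [hu, lt_min_iff]
      constructor
      · have : (((k + 1 : ℕ) : ℝ) + 1) = (k : ℝ) + 2 := by push_cast; ring
        rw [this] at hq
        linarith
      · rw [div_lt_one (by positivity)]
        linarith
    set θ : ℝ := (1 / ((k : ℝ) + 2) + u) / 2 with hθ
    have hu1 : u ≤ 1 := min_le_right _ _
    have huq : u ≤ q - 1 := min_le_left _ _
    have hk2 : 0 < 1 / ((k : ℝ) + 2) := by positivity
    have hθ1 : 1 / ((k : ℝ) + 2) < θ := by rw [hθ]; linarith
    have hθ2 : θ < u := by rw [hθ]; linarith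
    have hθ0 : 0 < θ := by linarith
    have h1θ : 0 < 1 - θ := by linarith
    set s : ℝ := 1 / (1 - θ) with hs
    have hs0 : 0 < s := by positivity
    have h1s : 1 / s = 1 - θ := by rw [hs, one_div_one_div]
    have hscrit : 1 + 1 / ((k : ℝ) + 1) < s := by
      have e1 : 1 + 1 / ((k : ℝ) + 1) = ((k : ℝ) + 2) / (k + 1) := by
        field_simp
        ring
      rw [e1, hs, div_lt_div_iff₀ (by positivity) h1θ, one_mul]
      have h3 : (1 / ((k : ℝ) + 2)) * (k + 2) < θ * (k + 2) :=
        mul_lt_mul_of_pos_right hθ1 (by positivity)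
      rw [one_div_mul_cancel (by positivity)] at h3
      linarith
    have hs1 : 1 < s := by
      have : 0 < 1 / ((k : ℝ) + 1) := by positivity
      linarith
    set t : ℝ := (q - 1) / θ with ht
    have ht1 : 1 < t := by
      rw [ht, lt_div_iff₀ hθ0]
      linarith
    have htθ : t * θ = q - 1 := div_mul_cancel₀ _ hθ0.ne'
    obtain ⟨A, hA0, hA⟩ := ih s hscrit
    set B : ℝ := (Ct t).toReal * C ^ (t + 1) + 1 with hB
    have hB0 : 0 < B := by positivity
    have hμ0 : 0 < μ (d - (k + 2)) := lt_of_lt_of_le one_pos (hμ _)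
    refine ⟨μ (d - (k + 2)) * (A ^ (1 / s) * B ^ θ), by positivity, ?_⟩
    intro ι N ω f hS a r hr e J he hJ hO
    have hN := hS.hN
    have hN0 : 0 < N := by linarith
    rcases J.eq_empty_or_nonempty with hJe | hJne
    · rw [F_zero (by rw [hJe]; simp) (by linarith)]
      exact zero_le
    obtain ⟨m, P, ν, c, hm, hcov, hsub, hcard, hν, hslab, hrec⟩ := hO.part (by omega) hJne
    have hrd : r = d - (k + 2) := by omega
    rw [hrd] at hm
    · skip
      have hIH : ∀ j, ∫⁻ y, F N ω f a (P j) y ^ s ≤ ENNReal.ofReal (A * N ^ ((d : ℝ) + 1 + ((k : ℝ) + 1) * s)) := by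
        intro j
        exact hA ι N ω f hS a (r + 1) (by omega) _ (P j) (hν j)
          (near_snoc hN hS.hf a (hsub j) hJ (hslab j)) (hrec j)
      have hdr : ((d - r : ℕ) : ℝ) = (k : ℝ) + 2 := by
        have : d - r = k + 2 := by omega
        rw [this]
        push_cast
        ring
      have hSl : ∀ j, ∫⁻ y in Slab (K * N) (ν j) (c j), F N ω f a J y ^ t ≤
          ENNReal.ofReal (B * N ^ (((k : ℝ) + 2) * t + (d + 1))) := by
        intro j
        have h := slab ι N ω f hS a r (by omega) e J hJ (ν j) (c j) K (by linarith) (by linarith) (hν j) t ht1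
        rw [hdr] at h
        refine h.trans (ENNReal.ofReal_le_ofReal ?_)
        apply mul_le_mul_of_nonneg_right _ (by positivity)
        rw [hB]
        linarith
      have hb := basic (volume : Measure (Space d)) (F N ω f a J) (F_meas N ω f a J)
        (fun j => F N ω f a (P j)) (fun j => F_meas N ω f a (P j)) (fun j => Slab (K * N) (ν j) (c j))
        (fun j => (Slab_closed _ _ _).measurableSet)
        (by
          intro j y hy
          unfold F
          apply Finset.sum_eq_zero
          intro i hi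
          exact indicator_of_notMem (fun h => hy (hslab j i hi h)) _)
        (by
          intro y
          have := F_cover N ω f a J P hcov y
          rwa [tsum_fintype] at this)
        (q := q) (s := s) (t := t) (θ := θ) (by linarith) hs1 (by rw [h1s]; ring) htθ.symm
      refine hb.trans ?_
      set X : ℝ := (A * N ^ ((d : ℝ) + 1 + ((k : ℝ) + 1) * s)) ^ (1 / s) *
        (B * N ^ (((k : ℝ) + 2) * t + (d + 1))) ^ θ with hX
      calc ∑ j, (∫⁻ y, F N ω f a (P j) y ^ s) ^ (1 / s) *
            (∫⁻ y in Slab (K * N) (ν j) (c j), F N ω f a J y ^ t) ^ θ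
          ≤ ∑ _j : Fin m, ENNReal.ofReal X := by
            refine Finset.sum_le_sum fun j _ => ?_
            rw [hX, ENNReal.ofReal_mul (by positivity), ← ENNReal.ofReal_rpow_of_pos (by positivity),
              ← ENNReal.ofReal_rpow_of_pos (by positivity)]
            exact mul_le_mul' (ENNReal.rpow_le_rpow (hIH j) (by positivity))
              (ENNReal.rpow_le_rpow (hSl j) hθ0.le)
        _ = ENNReal.ofReal ((m : ℝ) * X) := by
            rw [Finset.sum_const, Finset.card_univ, Fintype.card_fin, nsmul_eq_mul,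
              ENNReal.ofReal_mul (Nat.cast_nonneg _), ENNReal.ofReal_natCast]
        _ ≤ _ := by
            apply ENNReal.ofReal_le_ofReal
            have hX0 : 0 < X := by positivity
            calc (m : ℝ) * X ≤ (μ (d - (k + 2)) * N) * X := by gcongr
              _ = (μ (d - (k + 2)) * (A ^ (1 / s) * B ^ θ)) * (N ^ (1 : ℝ) *
                    (N ^ (((d : ℝ) + 1 + ((k : ℝ) + 1) * s) * (1 / s)) *
                      N ^ ((((k : ℝ) + 2) * t + (d + 1)) * θ))) := by
                  rw [hX, Real.mul_rpow hA0.le (by positivity), Real.mul_rpow hB0.le (by positivity),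
                    ← Real.rpow_mul hN0.le, ← Real.rpow_mul hN0.le, Real.rpow_one]
                  ring
              _ = _ := by
                  rw [← Real.rpow_add hN0, ← Real.rpow_add hN0]
                  congr 2
                  have e1 : (((k : ℝ) + 2) * t + (d + 1)) * θ = ((k : ℝ) + 2) * (t * θ) + (d + 1) * θ := by ring
                  have e2 : ((d : ℝ) + 1 + ((k : ℝ) + 1) * s) * (1 / s) =
                      ((d : ℝ) + 1) * (1 / s) + ((k : ℝ) + 1) := by
                    field_simp
                  rw [e1, e2, htθ, h1s]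
                  push_cast
                  ring

end Pool.Agent.J4.H87.Hyp
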