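import Pool.Agent.J4.H87.HypG

set_option autoImplicit false

/-! Families of boxes in hyperplanes: comparison with the centred family. -/

open MeasureTheory Set Filter Topology ENNReal NNReal Metric

namespace Pool.Agent.J4.H87.Hyp

open Pool.Agent.H810R3.Tub (Space box nor dir norm_dir radial frame frame_coe norm_sq_frame norm_e
  finrank_space box_closed vol_box box_perp norm_space_sq Fb Fb_measurable Fb_int wv wv_pos interp lower
  box_sub_ball)
open Pool.Agent.R251.End (pc vol_pc norm_of_int centred_low real_small)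

variable {d : ℕ} {ι : Type}

theorem Fb_eq [Fintype ι] (N : ℝ) (ω : ι → Vec d) (f : ι → Fin d → Space d) (a : ι → Space d)
    (y : Space d) : Fb N ω f a y = F N ω f a Finset.univ y := rfl

/-- The critical exponent. -/
theorem endpoint {d : ℕ} (hd : 1 ≤ d) {κ : ℝ} (hκ : 0 < κ) : ∃ C : ℝ, 0 < C ∧
    ∀ (ι : Type) [Fintype ι] [Nonempty ι] (N : ℝ), 1 ≤ N → ∀ (ω : ι → EuclideanSpace ℝ (Fin d))
      (f : ι → Fin d → Space d) (a : ι → Space d), κ * N ^ d ≤ (Fintype.card ι : ℝ) →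
    (∀ i, Orthonormal ℝ (Fin.cons (nor (ω i)) (f i) : Fin (d + 1) → Space d)) → ∀ E : ℝ, 0 < E →
    ∫⁻ y, Fb N ω f a y ^ (1 + 1 / (d : ℝ)) ≤
      ENNReal.ofReal (E * ((Fintype.card ι : ℝ) ^ (1 / (d : ℝ)) * N ^ (2 * d + 1)) * (1 + Real.log N)) →
    eLpNorm (fun y : Space d => ∑ i, (box N (nor (ω i)) (f i) (a i)).indicator (fun _ => (1 : ℝ)) y)
      (ENNReal.ofReal (1 + 1 / (d : ℝ))) volume ≤ ENNReal.ofReal (C * E ^ (1 / (1 + 1 / (d : ℝ)))) *
        eLpNorm (fun y : Space d => ∑ i,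
          (box N (nor (ω i)) (f i) 0).indicator (fun _ => (1 : ℝ)) y) (ENNReal.ofReal (1 + 1 / (d : ℝ))) volume := by
  obtain ⟨c, hc, hlow⟩ := centred_low hd
  have hd0 : (0 : ℝ) < d := by exact_mod_cast hd
  refine ⟨(c * κ)⁻¹ ^ (1 / (1 + 1 / (d : ℝ))), Real.rpow_pos_of_pos (by positivity) _, ?_⟩
  intro ι _ _ N hN ω f a hcard hf E hE hQ
  have hN0 : 0 < N := by linarith
  have hc0 : (0 : ℝ) < (Fintype.card ι : ℝ) := lt_of_lt_of_le (by positivity) hcard
  have hD : 0 < (c * κ)⁻¹ * E := by positivity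
  rw [← Real.mul_rpow (by positivity) hE.le]
  apply norm_of_int N ω f a (by
    have : 0 < 1 / (d : ℝ) := by positivity
    linarith) hD
  have h1 := hlow ι N hN ω f hf
  have hlog : 0 ≤ Real.log N := Real.log_nonneg hN
  refine hQ.trans (le_trans ?_ (mul_le_mul' le_rfl h1))
  rw [← ENNReal.ofReal_mul hD.le]
  apply ENNReal.ofReal_le_ofReal
  have e1 : (Fintype.card ι : ℝ) ^ (1 + 1 / (d : ℝ)) = (Fintype.card ι : ℝ) ^ (1 / (d : ℝ)) * (Fintype.card ι : ℝ) := by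
    rw [Real.rpow_add hc0, Real.rpow_one, mul_comm]
  rw [e1]
  set z : ℝ := (Fintype.card ι : ℝ) ^ (1 / (d : ℝ)) with hz
  have hz0 : 0 < z := Real.rpow_pos_of_pos hc0 _
  have e2 : N ^ (2 * d + 1) = N ^ d * N ^ (d + 1) := by
    rw [← pow_add]
    congr 1
    omega
  calc E * (z * N ^ (2 * d + 1)) * (1 + Real.log N)
      = (c * κ)⁻¹ * E * (c * ((z * (κ * N ^ d)) * N ^ (d + 1)) * (1 + Real.log N)) := by
        rw [e2]
        field_simp
    _ ≤ _ := by gcongr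

/-- Below the critical exponent. -/
theorem below {d : ℕ} (hd : 1 ≤ d) {κ : ℝ} (hκ : 0 < κ) : ∃ C : ℝ, 1 ≤ C ∧
    ∀ (ι : Type) [Fintype ι] [Nonempty ι] (N : ℝ), 1 ≤ N → ∀ (ω : ι → EuclideanSpace ℝ (Fin d))
      (f : ι → Fin d → Space d) (a : ι → Space d), κ * N ^ d ≤ (Fintype.card ι : ℝ) →
    (∀ i, Orthonormal ℝ (Fin.cons (nor (ω i)) (f i) : Fin (d + 1) → Space d)) → ∀ E : ℝ, 0 < E →
    ∫⁻ y, Fb N ω f a y ^ (1 + 1 / (d : ℝ)) ≤
      ENNReal.ofReal (E * ((Fintype.card ι : ℝ) ^ (1 / (d : ℝ)) * N ^ (2 * d + 1)) * (1 + Real.log N)) →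
    ∀ p : ℝ, 1 ≤ p → p ≤ 1 + 1 / (d : ℝ) →
    eLpNorm (fun y : Space d => ∑ i, (box N (nor (ω i)) (f i) (a i)).indicator (fun _ => (1 : ℝ)) y)
      (ENNReal.ofReal p) volume ≤ ENNReal.ofReal (C * (E * (1 + Real.log N)) ^ ((d : ℝ) * (1 - 1 / p))) *
        eLpNorm (fun y : Space d => ∑ i,
          (box N (nor (ω i)) (f i) 0).indicator (fun _ => (1 : ℝ)) y) (ENNReal.ofReal p) volume := by
  have hd0 : (0 : ℝ) < d := by exact_mod_cast hd
  have hw0 := wv_pos d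
  set w : ℝ := wv d with hw
  set b : ℝ := (1 + (d : ℝ)) ^ (d + 1) * w with hb
  have hb0 : 0 < b := by positivity
  set q : ℝ := 1 + 1 / (d : ℝ) with hq
  have hinv : 0 < 1 / (d : ℝ) := by positivity
  have hq1 : 1 < q := by linarith
  set C : ℝ := max 1 (b ^ (1 / (d : ℝ)) / κ) with hC
  have hC1 : 1 ≤ C := le_max_left _ _
  have hC2 : b ^ (1 / (d : ℝ)) / κ ≤ C := le_max_right _ _
  have hC0 : 0 < C := by linarith
  refine ⟨C, hC1, ?_⟩
  intro ι _ _ N hN ω f a hcard hf E hE hQi p hp hpq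
  have hN0 : 0 < N := by linarith
  have hlog : 0 ≤ Real.log N := Real.log_nonneg hN
  have hl0 : 0 < 1 + Real.log N := by linarith
  have hwe : volume (ball (0 : Space d) 1) = ENNReal.ofReal w := by
    rw [hw, wv, ENNReal.ofReal_toReal measure_ball_lt_top.ne]
  set c : ℝ := (Fintype.card ι : ℝ) with hc
  have hc0 : 0 < c := lt_of_lt_of_le (by positivity) hcard
  set V : ℝ := c * N ^ (d + 2) with hV
  have hV0 : 0 < V := by positivity
  have hVa : ∫⁻ y, Fb N ω f a y = ENNReal.ofReal V := Fb_int hN hf a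
  have hV0' : ∫⁻ y, Fb N ω f (fun _ => 0) y = ENNReal.ofReal V := Fb_int hN hf _
  set B : ℝ := b * N ^ (2 * (d + 1)) with hB
  have hB0 : 0 < B := by positivity
  have hBv : volume (closedBall (0 : Space d) ((1 + d) * N ^ 2)) = ENNReal.ofReal B := by
    have : Nontrivial (Space d) := by
      apply Module.nontrivial_of_finrank_pos (R := ℝ)
      rw [finrank_space]
      omega
    rw [Measure.addHaar_closedBall _ _ (by positivity), finrank_space, hwe,
      ← ENNReal.ofReal_mul (by positivity)]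
    congr 1
    rw [hB, hb, mul_pow, ← pow_mul]
    ring
  have hFm := Fb_measurable N ω f a
  have hFm0 := Fb_measurable N ω f (fun _ => (0 : Space d))
  set z : ℝ := c ^ (1 / (d : ℝ)) with hz
  have hz0 : 0 < z := Real.rpow_pos_of_pos hc0 _
  set Q : ℝ := E * (z * N ^ (2 * d + 1)) * (1 + Real.log N) with hQ
  have hQ0 : 0 < Q := by positivity
  set D : ℝ := C * (E * (1 + Real.log N)) with hD
  have hD0 : 0 < D := by positivity
  have hreal : Q * B ^ (q - 1) ≤ D * V ^ q := by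
    have e1 : q - 1 = 1 / d := by rw [hq]; ring
    have e2 : B ^ (q - 1) = b ^ (1 / (d : ℝ)) * N ^ (2 * ((d : ℝ) + 1) * (1 / d)) := by
      rw [e1, hB, Real.mul_rpow hb0.le (by positivity), ← Real.rpow_natCast N, ← Real.rpow_mul hN0.le]
      push_cast
      rfl
    have e3 : V ^ q = c ^ q * N ^ (((d : ℝ) + 2) * q) := by
      rw [hV, Real.mul_rpow hc0.le (by positivity), ← Real.rpow_natCast N, ← Real.rpow_mul hN0.le]
      push_cast
      rfl
    have e4 : c ^ q = z * c := by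
      rw [hq, Real.rpow_add hc0, Real.rpow_one, mul_comm]
    have e5 : N ^ (2 * d + 1) * N ^ (2 * ((d : ℝ) + 1) * (1 / d)) = N ^ d * N ^ (((d : ℝ) + 2) * q) := by
      rw [← Real.rpow_natCast N (2 * d + 1), ← Real.rpow_natCast N d, ← Real.rpow_add hN0,
        ← Real.rpow_add hN0]
      congr 1
      rw [hq]
      push_cast
      field_simp
      ring
    rw [e2, e3, e4, hQ, hD]
    calc E * (z * N ^ (2 * d + 1)) * (1 + Real.log N) * (b ^ (1 / (d : ℝ)) * N ^ (2 * ((d : ℝ) + 1) * (1 / d)))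
        = (b ^ (1 / (d : ℝ)) / κ) * (E * (1 + Real.log N)) * (z * κ) *
            (N ^ (2 * d + 1) * N ^ (2 * ((d : ℝ) + 1) * (1 / d))) := by
          field_simp
      _ = (b ^ (1 / (d : ℝ)) / κ) * (E * (1 + Real.log N)) *
            ((z * (κ * N ^ d)) * N ^ (((d : ℝ) + 2) * q)) := by
          rw [e5]
          ring
      _ ≤ C * (E * (1 + Real.log N)) * (z * c * N ^ (((d : ℝ) + 2) * q)) := by
          gcongr
  have hint : ∫⁻ y, Fb N ω f a y ^ p ≤ ENNReal.ofReal (D ^ ((p - 1) / (q - 1))) *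
      ∫⁻ y, Fb N ω f (fun _ => 0) y ^ p := by
    have h1 := interp (μ := (volume : Measure (Space d))) hFm hq1 hp hpq
    have h2 := lower (μ := (volume : Measure (Space d))) hFm0 (B := closedBall (0 : Space d) ((1 + d) * N ^ 2))
      measurableSet_closedBall (by
        intro y hy
        unfold Fb
        apply Finset.sum_eq_zero
        intro i _
        exact indicator_of_notMem (fun h => hy (box_sub_ball hN (hf i) h)) _) hp
    rw [hV0', hBv, ENNReal.ofReal_rpow_of_pos hV0, ENNReal.ofReal_rpow_of_pos hB0] at h2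
    have h3 : ENNReal.ofReal (V ^ p * (B ^ (p - 1))⁻¹) ≤ ∫⁻ y, Fb N ω f (fun _ => 0) y ^ p := by
      have hBr : 0 < B ^ (p - 1) := Real.rpow_pos_of_pos hB0 _
      rw [← div_eq_mul_inv, ENNReal.ofReal_div_of_pos hBr]
      exact ENNReal.div_le_of_le_mul h2
    have hw0' : 0 ≤ (p - 1) / (q - 1) := div_nonneg (by linarith) (by linarith)
    calc ∫⁻ y, Fb N ω f a y ^ p
        ≤ (∫⁻ y, Fb N ω f a y) ^ (1 - (p - 1) / (q - 1)) *
          (∫⁻ y, Fb N ω f a y ^ q) ^ ((p - 1) / (q - 1)) := h1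
      _ ≤ (ENNReal.ofReal V) ^ (1 - (p - 1) / (q - 1)) * (ENNReal.ofReal Q) ^ ((p - 1) / (q - 1)) := by
          rw [hVa]
          exact mul_le_mul' le_rfl (ENNReal.rpow_le_rpow hQi hw0')
      _ = ENNReal.ofReal (V ^ (1 - (p - 1) / (q - 1)) * Q ^ ((p - 1) / (q - 1))) := by
          rw [ENNReal.ofReal_rpow_of_pos hV0, ENNReal.ofReal_rpow_of_pos hQ0,
            ← ENNReal.ofReal_mul (by positivity)]
      _ ≤ ENNReal.ofReal (D ^ ((p - 1) / (q - 1)) * (V ^ p * (B ^ (p - 1))⁻¹)) :=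
          ENNReal.ofReal_le_ofReal (real_small hV0 hQ0 hB0 hD0 hq1 hp hreal)
      _ = ENNReal.ofReal (D ^ ((p - 1) / (q - 1))) * ENNReal.ofReal (V ^ p * (B ^ (p - 1))⁻¹) :=
          ENNReal.ofReal_mul (by positivity)
      _ ≤ _ := mul_le_mul' le_rfl h3
  refine (norm_of_int N ω f a hp (Real.rpow_pos_of_pos hD0 _) hint).trans ?_
  refine mul_le_mul' (ENNReal.ofReal_le_ofReal ?_) le_rfl
  have hp0 : 0 < p := by linarith
  have e6 : (p - 1) / (q - 1) * (1 / p) = (d : ℝ) * (1 - 1 / p) := by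
    have : q - 1 = 1 / d := by rw [hq]; ring
    rw [this]
    field_simp
  have e7 : (d : ℝ) * (1 - 1 / p) ≤ 1 := by
    have h1 : 1 / q ≤ 1 / p := one_div_le_one_div_of_le hp0 hpq
    have h2 : 1 / q = d / (d + 1) := by rw [hq]; field_simp
    have h3 : (d : ℝ) * (1 - d / (d + 1)) ≤ 1 := by
      have : 1 - (d : ℝ) / (d + 1) = 1 / (d + 1) := by field_simp; ring
      rw [this, mul_one_div, div_le_one (by positivity)]
      linarith
    calc (d : ℝ) * (1 - 1 / p) ≤ d * (1 - 1 / q) := by gcongr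
      _ ≤ 1 := by rw [h2]; exact h3
  rw [← Real.rpow_mul hD0.le, e6, hD, Real.mul_rpow hC0.le (by positivity)]
  apply mul_le_mul_of_nonneg_right _ (by positivity)
  calc C ^ ((d : ℝ) * (1 - 1 / p)) ≤ C ^ (1 : ℝ) := Real.rpow_le_rpow_of_exponent_le hC1 e7
    _ = C := Real.rpow_one C

/-- The integral at the critical exponent. -/
theorem crit_top (hd : 1 ≤ d) [Fintype ι] {N σ K : ℝ} {μ : ℕ → ℝ} (hμ : ∀ r, 1 ≤ μ r) {ω : ι → Vec d}
    {f : ι → Fin d → Space d} (hS : Sep N σ ω f) (hK : 1 ≤ K) (a : ι → Space d)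
    (e : Fin 0 → Space d)
    (hO : Org (K * N) (fun r => μ r * N) (fun i => box N (nor (ω i)) (f i) (a i)) 0 e Finset.univ) :
    ∫⁻ y, Fb N ω f a y ^ (1 + 1 / (d : ℝ)) ≤
      ENNReal.ofReal ((C1 d σ K * W μ 0 (d - 1) ^ (1 / (d : ℝ))) *
        ((Fintype.card ι : ℝ) ^ (1 / (d : ℝ)) * N ^ (2 * d + 1)) * (1 + Real.log N)) := by
  have h := crit_int hμ hS hK a (d - 1) 0 (by omega) e Finset.univ ⟨fun i => i.elim0, fun i => i.elim0⟩
    (fun i _ l => l.elim0) hO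
  have e1 : (((d - 1 : ℕ) : ℝ) + 1) = d := by
    have : ((d - 1 : ℕ) : ℝ) + 1 = ((d - 1 + 1 : ℕ) : ℝ) := by push_cast; ring
    rw [this]
    congr 1
    omega
  rw [e1] at h
  have e2 : d + 2 + (d - 1) = 2 * d + 1 := by omega
  rw [e2, Finset.card_univ] at h
  refine h.trans (le_of_eq ?_)
  congr 1
  ring

/-- The exponents above the critical one. -/
theorem sup_top (hd : 1 ≤ d) {σ K κ q : ℝ} (hσ : 0 < σ) (hσ1 : σ ≤ 1) (hK : 1 ≤ K) (hκ : 0 < κ)
    {μ : ℕ → ℝ} (hμ : ∀ r, 1 ≤ μ r) (hq : 1 + 1 / (d : ℝ) < q) : ∃ C : ℝ, 1 ≤ C ∧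
    ∀ (ι : Type) [Fintype ι] (N : ℝ) (ω : ι → Vec d) (f : ι → Fin d → Space d) (a : ι → Space d),
    Sep N σ ω f → κ * N ^ d ≤ (Fintype.card ι : ℝ) → ∀ e : Fin 0 → Space d,
    Org (K * N) (fun r => μ r * N) (fun i => box N (nor (ω i)) (f i) (a i)) 0 e Finset.univ →
    ∀ p : ℝ≥0∞, ENNReal.ofReal q ≤ p →
    eLpNorm (fun y : Space d => ∑ i, (box N (nor (ω i)) (f i) (a i)).indicator (fun _ => (1 : ℝ)) y) p volume
      ≤ ENNReal.ofReal C *
        eLpNorm (fun y : Space d => ∑ i,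
          (box N (nor (ω i)) (f i) 0).indicator (fun _ => (1 : ℝ)) y) p volume := by
  have hd0 : (0 : ℝ) < d := by exact_mod_cast hd
  have e1 : (((d - 1 : ℕ) : ℝ) + 1) = d := by
    have : ((d - 1 : ℕ) : ℝ) + 1 = ((d - 1 + 1 : ℕ) : ℝ) := by push_cast; ring
    rw [this]
    congr 1
    omega
  have hinv : 0 < 1 / (d : ℝ) := by positivity
  obtain ⟨A, hA0, hA⟩ := sup_int d hσ hσ1 hK hμ (d - 1) q (by rw [e1]; exact hq)
  have hw0 := wv_pos d
  set w := wv d with hw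
  have hq0 : 0 < q := by linarith
  set C0 : ℝ := max 1 (A * 2 ^ (d + 1) / (κ ^ q * w)) with hC0
  have hC1 : 1 ≤ C0 := le_max_left _ _
  have hC2 : A * 2 ^ (d + 1) / (κ ^ q * w) ≤ C0 := le_max_right _ _
  have hC00 : 0 < C0 := by linarith
  refine ⟨C0 ^ (1 / q), Real.one_le_rpow hC1 (by positivity), ?_⟩
  intro ι _ N ω f a hS hcard e hO p hp
  have hN := hS.hN
  have hN0 : 0 < N := by linarith
  have hc0 : (0 : ℝ) < (Fintype.card ι : ℝ) := lt_of_lt_of_le (by positivity) hcard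
  have hne : Nonempty ι := by
    rw [← Fintype.card_pos_iff]
    exact_mod_cast hc0
  have h := hA ι N ω f hS a 0 (by omega) e Finset.univ ⟨fun i => i.elim0, fun i => i.elim0⟩
    (fun i _ l => l.elim0) hO
  rw [e1] at h
  refine Pool.Agent.R134.Kak.compare_large d hN (by linarith) (Real.one_le_rpow hC1 (by positivity))
    ω f hS.hf a h ?_ p hp
  rw [← Real.rpow_mul hC00.le, one_div_mul_cancel hq0.ne', Real.rpow_one, ← hw]
  have e2 : (κ * N ^ d) ^ q = κ ^ q * N ^ ((d : ℝ) * q) := by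
    rw [Real.mul_rpow hκ.le (by positivity), ← Real.rpow_natCast N d, ← Real.rpow_mul hN0.le]
  have hκq : 0 < κ ^ q := Real.rpow_pos_of_pos hκ _
  have e3 : N ^ ((d : ℝ) + 1 + (d : ℝ) * q) = N ^ ((d : ℝ) * q) * N ^ (d + 1) := by
    rw [← Real.rpow_natCast N (d + 1), ← Real.rpow_add hN0]
    congr 1
    push_cast
    ring
  calc A * N ^ ((d : ℝ) + 1 + (d : ℝ) * q)
      = (A * 2 ^ (d + 1) / (κ ^ q * w)) * ((κ ^ q * N ^ ((d : ℝ) * q)) * ((N / 2) ^ (d + 1) * w)) := by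
        rw [e3, div_pow]
        field_simp
    _ ≤ C0 * ((Fintype.card ι : ℝ) ^ q * ((N / 2) ^ (d + 1) * w)) := by
        have h3 : (κ * N ^ d) ^ q ≤ (Fintype.card ι : ℝ) ^ q := Real.rpow_le_rpow (by positivity) hcard hq0.le
        rw [e2] at h3
        gcongr

end Pool.Agent.J4.H87.Hyp
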