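import Pool.Agent.J4.H87.HypH
import Mathlib.Analysis.SpecialFunctions.Trigonometric.Bounds

set_option autoImplicit false

/-! Families of boxes in hyperplanes: the boxes which meet few lines. -/

open MeasureTheory Set Filter Topology ENNReal NNReal Metric

namespace Pool.Agent.J4.H87.Hyp

open Pool.Agent.H810R3.Tub (Space box nor dir norm_dir radial frame frame_coe norm_sq_frame norm_e
  finrank_space box_closed vol_box box_perp norm_space_sq)
open Pool.Agent.R251.End (pc vol_pc)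

variable {d : ℕ} {ι : Type}

/-- A net of directions in a plane. -/
theorem net {M : ℕ} (hM : 0 < M) {α β : ℝ} (h : α ^ 2 + β ^ 2 ≤ 1) :
    ∃ j : Fin M, |Real.cos (2 * Real.pi * (j : ℕ) / M) * α + Real.sin (2 * Real.pi * (j : ℕ) / M) * β| ≤
      2 * Real.pi / M := by
  have hM0 : (0 : ℝ) < M := by exact_mod_cast hM
  have hMz : (0 : ℤ) < (M : ℤ) := by exact_mod_cast hM
  have hpi := Real.pi_pos
  set z : ℂ := ⟨α, β⟩ with hz
  set φ : ℝ := Complex.arg z with hφ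
  have h1 : ‖z‖ * Real.cos φ = α := Complex.norm_mul_cos_arg z
  have h2 : ‖z‖ * Real.sin φ = β := Complex.norm_mul_sin_arg z
  have h3 : ‖z‖ ≤ 1 := by
    have h4 : ‖z‖ ^ 2 ≤ 1 := by
      have : ‖z‖ ^ 2 = α ^ 2 + β ^ 2 := by
        rw [← h1, ← h2]
        have := Real.sin_sq_add_cos_sq φ
        calc ‖z‖ ^ 2 = ‖z‖ ^ 2 * (Real.sin φ ^ 2 + Real.cos φ ^ 2) := by rw [this, mul_one]
          _ = _ := by ring
      rw [this]
      exact h
    have h5 : 0 ≤ ‖z‖ := norm_nonneg z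
    nlinarith
  set u : ℝ := (φ + Real.pi / 2) * M / (2 * Real.pi) with hu
  set J : ℤ := ⌊u⌋ with hJ
  have hJ0 : 0 ≤ J % (M : ℤ) := Int.emod_nonneg _ hMz.ne'
  have hJ1 : J % (M : ℤ) < M := Int.emod_lt_of_pos _ hMz
  have hj : ((J % (M : ℤ)).toNat : ℤ) = J % (M : ℤ) := Int.toNat_of_nonneg hJ0
  refine ⟨⟨(J % (M : ℤ)).toNat, by
    have : ((J % (M : ℤ)).toNat : ℤ) < (M : ℤ) := by rw [hj]; exact hJ1
    exact_mod_cast this⟩, ?_⟩
  have hjr : (((J % (M : ℤ)).toNat : ℕ) : ℝ) = (J : ℝ) - M * ((J / (M : ℤ) : ℤ) : ℝ) := by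
    have e1 : J % (M : ℤ) = J - M * (J / (M : ℤ)) := by
      have := Int.emod_add_mul_ediv J (M : ℤ)
      linarith
    have e2 : (((J % (M : ℤ)).toNat : ℕ) : ℝ) = ((((J % (M : ℤ)).toNat : ℕ) : ℤ) : ℝ) := by push_cast; rfl
    rw [e2, hj, e1]
    push_cast
    ring
  have hth : 2 * Real.pi * (((J % (M : ℤ)).toNat : ℕ) : ℝ) / M =
      2 * Real.pi * J / M - ((J / (M : ℤ) : ℤ) : ℝ) * (2 * Real.pi) := by
    rw [hjr]
    field_simp
  show |Real.cos (2 * Real.pi * (((J % (M : ℤ)).toNat : ℕ) : ℝ) / M) * α +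
    Real.sin (2 * Real.pi * (((J % (M : ℤ)).toNat : ℕ) : ℝ) / M) * β| ≤ 2 * Real.pi / M
  rw [hth, Real.cos_sub_int_mul_two_pi, Real.sin_sub_int_mul_two_pi, ← h1, ← h2]
  have e3 : Real.cos (2 * Real.pi * J / M) * (‖z‖ * Real.cos φ) +
      Real.sin (2 * Real.pi * J / M) * (‖z‖ * Real.sin φ) =
      ‖z‖ * Real.cos (2 * Real.pi * J / M - φ) := by
    rw [Real.cos_sub]
    ring
  have e4 : Real.cos (2 * Real.pi * J / M - φ) = - Real.sin (2 * Real.pi * J / M - φ - Real.pi / 2) := by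
    rw [Real.sin_sub_pi_div_two, neg_neg]
  have e5 : 2 * Real.pi * J / M - φ - Real.pi / 2 = (2 * Real.pi / M) * ((J : ℝ) - u) := by
    rw [hu]
    field_simp
    ring
  have h6 : |(J : ℝ) - u| ≤ 1 := by
    rw [abs_le]
    constructor
    · have := Int.lt_floor_add_one u
      linarith
    · have := Int.floor_le u
      linarith
  have h7 : 0 < 2 * Real.pi / M := by positivity
  rw [e3, abs_mul, abs_of_nonneg (norm_nonneg z), e4, abs_neg]
  calc ‖z‖ * |Real.sin (2 * Real.pi * J / M - φ - Real.pi / 2)|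
      ≤ 1 * |2 * Real.pi * J / M - φ - Real.pi / 2| :=
        mul_le_mul h3 Real.abs_sin_le_abs (abs_nonneg _) (by norm_num)
    _ = (2 * Real.pi / M) * |(J : ℝ) - u| := by
        rw [one_mul, e5, abs_mul, abs_of_pos h7]
    _ ≤ (2 * Real.pi / M) * 1 := mul_le_mul_of_nonneg_left h6 h7.le
    _ = _ := by rw [mul_one]

/-- The number of the directions. -/
noncomputable def MM (N : ℝ) : ℕ := ⌈2 * Real.pi * N⌉₊

theorem MM_pos {N : ℝ} (hN : 1 ≤ N) : 0 < MM N := by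
  have hpi := Real.pi_pos
  exact Nat.ceil_pos.2 (by positivity)

theorem MM_le {N : ℝ} (hN : 1 ≤ N) : (MM N : ℝ) ≤ 8 * N := by
  have hpi := Real.pi_pos
  have h1 := Real.pi_lt_d2
  have h2 : (MM N : ℝ) < 2 * Real.pi * N + 1 := Nat.ceil_lt_add_one (by positivity)
  nlinarith

theorem MM_ge {N : ℝ} (hN : 1 ≤ N) : 2 * Real.pi / (MM N : ℝ) ≤ 1 / N := by
  have hpi := Real.pi_pos
  have h0 : (0 : ℝ) < MM N := by exact_mod_cast MM_pos hN
  have h1 : 2 * Real.pi * N ≤ (MM N : ℝ) := Nat.le_ceil _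
  rw [div_le_div_iff₀ h0 (by linarith)]
  linarith

/-- The members of the net. -/
noncomputable def nu (N : ℝ) (x y : Space d) (j : Fin (MM N)) : Space d :=
  Real.cos (2 * Real.pi * (j : ℕ) / MM N) • x + Real.sin (2 * Real.pi * (j : ℕ) / MM N) • y

theorem nu_norm {N : ℝ} {x y : Space d} (hx : ‖x‖ = 1) (hy : ‖y‖ = 1) (hxy : (inner ℝ x y : ℝ) = 0)
    (j : Fin (MM N)) : ‖nu N x y j‖ = 1 := by
  have h : ‖nu N x y j‖ ^ 2 = 1 := by
    unfold nu
    rw [norm_add_sq_real, norm_smul, norm_smul, inner_smul_left, inner_smul_right, hxy, hx, hy,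
      Real.norm_eq_abs, Real.norm_eq_abs, mul_one, mul_one, sq_abs, sq_abs]
    simp
  have h0 : 0 ≤ ‖nu N x y j‖ := norm_nonneg _
  nlinarith

theorem nu_inner {N : ℝ} {x y w : Space d} (hx : (inner ℝ w x : ℝ) = 0) (hy : (inner ℝ w y : ℝ) = 0)
    (j : Fin (MM N)) : (inner ℝ w (nu N x y j) : ℝ) = 0 := by
  unfold nu
  rw [inner_add_right, inner_smul_right, inner_smul_right, hx, hy]
  ring

theorem two_bessel {x y e : Space d} (hx : ‖x‖ = 1) (hy : ‖y‖ = 1) (hxy : (inner ℝ x y : ℝ) = 0)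
    (he : ‖e‖ = 1) : (inner ℝ x e : ℝ) ^ 2 + (inner ℝ y e : ℝ) ^ 2 ≤ 1 := by
  have h : 0 ≤ ‖e - ((inner ℝ x e : ℝ) • x + (inner ℝ y e : ℝ) • y)‖ ^ 2 := sq_nonneg _
  rw [norm_sub_sq_real, norm_add_sq_real, norm_smul, norm_smul, inner_smul_left, inner_smul_right,
    hxy, hx, hy, he, inner_add_right, inner_smul_right, inner_smul_right, real_inner_comm x e,
    real_inner_comm y e, Real.norm_eq_abs, Real.norm_eq_abs, mul_one, mul_one, sq_abs, sq_abs] at h
  simp only [mul_zero] at h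
  nlinarith

/-- The slab around a box which meets a line. -/
theorem box_line {N K : ℝ} (hN : 1 ≤ N) {e ν q v : Space d} {f : Fin d → Space d} (hν : ‖ν‖ = 1)
    (h : Orthonormal ℝ (Fin.cons e f : Fin (d + 1) → Space d)) (a : Space d)
    (h0 : |(inner ℝ ν e : ℝ)| ≤ 1 / N) (hv : (inner ℝ ν v : ℝ) = 0)
    (hm : ∃ y ∈ box N e f a, ∃ t : ℝ, ‖y - (q + t • v)‖ ≤ K * N) :
    box N e f a ⊆ Slab ((K + d + 1) * N) ν (inner ℝ ν q) := by
  intro y hy
  obtain ⟨y₀, hy₀, t, ht⟩ := hm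
  have hN0 : 0 < N := by linarith
  have hd0 : (0 : ℝ) ≤ d := Nat.cast_nonneg d
  have key : ∀ z ∈ box N e f a, |(inner ℝ ν (z - a) : ℝ)| ≤ N / 2 + d * N / 2 := by
    intro z hz
    have hp := box_perp hN h hz
    have h1 := abs_real_inner_le_norm ν (z - a - (inner ℝ e (z - a) : ℝ) • e)
    rw [hν, one_mul, inner_sub_right, inner_smul_right] at h1
    have h2 : |(inner ℝ e (z - a) : ℝ)| ≤ N ^ 2 / 2 := hz.1
    have h3 : |(inner ℝ e (z - a) : ℝ) * inner ℝ ν e| ≤ N / 2 := by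
      rw [abs_mul]
      calc |(inner ℝ e (z - a) : ℝ)| * |(inner ℝ ν e : ℝ)| ≤ (N ^ 2 / 2) * (1 / N) :=
            mul_le_mul h2 h0 (abs_nonneg _) (by positivity)
        _ = N / 2 := by field_simp
    have h4 := h1.trans hp
    rw [abs_le] at h3 h4 ⊢
    constructor <;> linarith [h3.1, h3.2, h4.1, h4.2]
  have h1 := key y hy
  have h2 := key y₀ hy₀
  have h3 : |(inner ℝ ν (y₀ - (q + t • v)) : ℝ)| ≤ K * N := by
    refine (abs_real_inner_le_norm _ _).trans ?_
    rw [hν, one_mul]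
    exact ht
  rw [inner_sub_right] at h1 h2
  rw [inner_sub_right, inner_add_right, inner_smul_right, hv, mul_zero, add_zero] at h3
  show |(inner ℝ ν y : ℝ) - inner ℝ ν q| ≤ (K + d + 1) * N
  rw [abs_le] at h1 h2 h3 ⊢
  have e1 : (K + d + 1) * N = K * N + (N / 2 + d * N / 2) + (N / 2 + d * N / 2) := by ring
  rw [e1]
  constructor <;> linarith [h1.1, h1.2, h2.1, h2.2, h3.1, h3.2]

/-- Two directions orthogonal to the line and to the previous normals. -/
theorem exists_pair {r : ℕ} (hr : r + 1 < d) (e : Fin r → Space d) (v : Space d) :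
    ∃ x y : Space d, ‖x‖ = 1 ∧ ‖y‖ = 1 ∧ (inner ℝ x y : ℝ) = 0 ∧ (inner ℝ v x : ℝ) = 0 ∧
      (inner ℝ v y : ℝ) = 0 ∧ (∀ l, (inner ℝ (e l) x : ℝ) = 0) ∧ ∀ l, (inner ℝ (e l) y : ℝ) = 0 := by
  obtain ⟨x, hx, hx0⟩ := exists_normal (d := d) (by omega : r + 1 < d + 1) (Fin.cons v e : Fin (r + 1) → Space d)
  obtain ⟨y, hy, hy0⟩ := exists_normal (d := d) (by omega : r + 1 + 1 < d + 1)
    (Fin.cons x (Fin.cons v e : Fin (r + 1) → Space d) : Fin (r + 1 + 1) → Space d)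
  refine ⟨x, y, hx, hy, ?_, ?_, ?_, ?_, ?_⟩
  · exact hy0 0
  · exact hx0 0
  · exact hy0 (Fin.succ 0)
  · intro l
    exact hx0 l.succ
  · intro l
    exact hy0 l.succ.succ

/-- The boxes which meet one line. -/
theorem org_line {N K : ℝ} (hN : 1 ≤ N) {ω : ι → Vec d} {f : ι → Fin d → Space d}
    (hf : ∀ i, Orthonormal ℝ (Fin.cons (nor (ω i)) (f i) : Fin (d + 1) → Space d)) (a : ι → Space d)
    (q v : Space d) {Q : ℕ → ℝ} (hQ : ∀ r, 8 * N ≤ Q r) : ∀ k r : ℕ, r + k + 1 = d →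
    ∀ (e : Fin r → Space d) (J : Finset ι), Orthonormal ℝ e → (∀ l, (inner ℝ (e l) v : ℝ) = 0) →
    (∀ i ∈ J, ∃ y ∈ box N (nor (ω i)) (f i) (a i), ∃ t : ℝ, ‖y - (q + t • v)‖ ≤ K * N) →
    Org ((K + d + 1) * N) Q (fun i => box N (nor (ω i)) (f i) (a i)) r e J := by
  classical
  intro k
  induction k with
  | zero =>
    intro r hr e J _ _ _
    exact Org.planar r e J (by omega)
  | succ k ih =>
    intro r hr e J he hev hm
    obtain ⟨x, y, hx, hy, hxy, hvx, hvy, hex, hey⟩ := exists_pair (by omega : r + 1 < d) e v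
    have hO : ∀ j, Orthonormal ℝ (Fin.snoc e (nu N x y j) : Fin (r + 1) → Space d) := fun j =>
      orthonormal_snoc he (nu_norm hx hy hxy j) (fun l => nu_inner (hex l) (hey l) j)
    have hvn : ∀ j, (inner ℝ (nu N x y j) v : ℝ) = 0 := by
      intro j
      rw [real_inner_comm]
      exact nu_inner hvx hvy j
    refine Org.split r e J (MM N)
      (fun j => J.filter (fun i => |(inner ℝ (nu N x y j) (nor (ω i)) : ℝ)| ≤ 1 / N))
      (fun j => nu N x y j) (fun j => inner ℝ (nu N x y j) q) ((MM_le hN).trans (hQ r)) ?_ hO ?_ ?_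
    · intro i hi
      obtain ⟨j, hj⟩ := net (MM_pos hN) (two_bessel hx hy hxy (norm_e (hf i)))
      refine ⟨j, Finset.mem_filter.2 ⟨hi, ?_⟩⟩
      unfold nu
      rw [inner_add_left, inner_smul_left, inner_smul_left]
      exact hj.trans (MM_ge hN)
    · intro j i hi
      obtain ⟨h1, h2⟩ := Finset.mem_filter.1 hi
      exact box_line hN (nu_norm hx hy hxy j) (hf i) (a i) h2 (hvn j) (hm i h1)
    · intro j
      apply ih (r + 1) (by omega) _ _ (hO j)
      · intro l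
        refine Fin.lastCases ?_ (fun l' => ?_) l
        · rw [Fin.snoc_last]
          exact hvn j
        · rw [Fin.snoc_castSucc]
          exact hev l'
      · intro i hi
        exact hm i (Finset.mem_filter.1 hi).1

/-- The boxes which meet few lines. -/
theorem org_lines [Fintype ι] {N K : ℝ} (hN : 1 ≤ N) {ω : ι → Vec d} {f : ι → Fin d → Space d}
    (hf : ∀ i, Orthonormal ℝ (Fin.cons (nor (ω i)) (f i) : Fin (d + 1) → Space d)) (a : ι → Space d)
    {n : ℕ} (hn : 1 ≤ n) (q v : Fin n → Space d)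
    (hm : ∀ i, ∃ j, ∃ y ∈ box N (nor (ω i)) (f i) (a i), ∃ t : ℝ, ‖y - (q j + t • v j)‖ ≤ K * N)
    (e : Fin 0 → Space d) :
    Org ((K + d + 1) * N) (fun r => (if r = 0 then 8 * (n : ℝ) else 8) * N)
      (fun i => box N (nor (ω i)) (f i) (a i)) 0 e Finset.univ := by
  classical
  have hN0 : 0 < N := by linarith
  have hn0 : (1 : ℝ) ≤ n := by exact_mod_cast hn
  have hQ : ∀ r : ℕ, 8 * N ≤ (fun r => (if r = 0 then 8 * (n : ℝ) else 8) * N) r := by
    intro r
    show 8 * N ≤ (if r = 0 then 8 * (n : ℝ) else 8) * N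
    split_ifs
    · nlinarith
    · exact le_refl _
  by_cases hd : d ≤ 1
  · exact Org.planar 0 e _ (by omega)
  have hd2 : 0 + 1 < d := by omega
  have he : Orthonormal ℝ e := ⟨fun i => i.elim0, fun i => i.elim0⟩
  have hex := fun l : Fin n => exists_pair hd2 e (v l)
  choose x y hx hy hxy hvx hvy _ _ using hex
  set g : Fin n × Fin (MM N) ≃ Fin (n * MM N) := finProdFinEquiv with hg
  set P : Fin n × Fin (MM N) → Finset ι := fun lj => Finset.univ.filter (fun i =>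
    (∃ y ∈ box N (nor (ω i)) (f i) (a i), ∃ t : ℝ, ‖y - (q lj.1 + t • v lj.1)‖ ≤ K * N) ∧
    |(inner ℝ (nu N (x lj.1) (y lj.1) lj.2) (nor (ω i)) : ℝ)| ≤ 1 / N) with hP
  have hO : ∀ lj : Fin n × Fin (MM N),
      Orthonormal ℝ (Fin.snoc e (nu N (x lj.1) (y lj.1) lj.2) : Fin (0 + 1) → Space d) := fun lj =>
    orthonormal_snoc he (nu_norm (hx lj.1) (hy lj.1) (hxy lj.1) lj.2) (fun l => l.elim0)
  have hvn : ∀ lj : Fin n × Fin (MM N), (inner ℝ (nu N (x lj.1) (y lj.1) lj.2) (v lj.1) : ℝ) = 0 := by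
    intro lj
    rw [real_inner_comm]
    exact nu_inner (hvx lj.1) (hvy lj.1) lj.2
  refine Org.split 0 e Finset.univ (n * MM N) (fun k => P (g.symm k))
    (fun k => nu N (x (g.symm k).1) (y (g.symm k).1) (g.symm k).2)
    (fun k => inner ℝ (nu N (x (g.symm k).1) (y (g.symm k).1) (g.symm k).2) (q (g.symm k).1)) ?_ ?_
    (fun k => hO _) ?_ ?_
  · simp only [if_true]
    push_cast
    have := MM_le hN
    nlinarith
  · intro i _
    obtain ⟨l, hl⟩ := hm i
    obtain ⟨j, hj⟩ := net (MM_pos hN) (two_bessel (hx l) (hy l) (hxy l) (norm_e (hf i)))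
    refine ⟨g (l, j), ?_⟩
    rw [Equiv.symm_apply_apply]
    refine Finset.mem_filter.2 ⟨Finset.mem_univ _, hl, ?_⟩
    unfold nu
    rw [inner_add_left, inner_smul_left, inner_smul_left]
    exact hj.trans (MM_ge hN)
  · intro k i hi
    obtain ⟨-, h1, h2⟩ := Finset.mem_filter.1 hi
    exact box_line hN (nu_norm (hx _) (hy _) (hxy _) _) (hf i) (a i) h2 (hvn _) h1
  · intro k
    apply org_line hN hf a (q (g.symm k).1) (v (g.symm k).1) hQ (d - 2) (0 + 1) (by omega) _ _ (hO _)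
    · intro l
      refine Fin.lastCases ?_ (fun l' => ?_) l
      · rw [Fin.snoc_last]
        exact hvn _
      · exact l'.elim0
    · intro i hi
      exact (Finset.mem_filter.1 hi).2.1

theorem W_congr {μ μ' : ℕ → ℝ} : ∀ (k r : ℕ), (∀ s, r ≤ s → μ s = μ' s) → W μ r k = W μ' r k
  | 0, _, _ => rfl
  | k + 1, r, h => by
    unfold W
    rw [W_congr k (r + 1) (fun s hs => h s (by omega)), h r (le_refl r)]

theorem W_lines (n : ℕ) : ∀ k : ℕ, W (fun r => if r = 0 then 8 * (n : ℝ) else 8) 0 k =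
    W (fun _ => 8) 0 k * (n : ℝ) ^ k
  | 0 => by simp [W]
  | k + 1 => by
    unfold W
    rw [W_congr (μ := fun r => if r = 0 then 8 * (n : ℝ) else 8) (μ' := fun _ => 8) k (0 + 1) (by
      intro s hs
      rw [if_neg (by omega)])]
    simp only [if_true]
    rw [mul_pow]
    ring

theorem W_prod (μ : ℕ → ℝ) : ∀ k r : ℕ, W μ r k = ∏ i ∈ Finset.range k, μ (r + i) ^ (k - i)
  | 0, _ => by simp [W]
  | k + 1, r => by
    unfold W
    rw [W_prod μ k (r + 1), Finset.prod_range_succ']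
    congr 1
    apply Finset.prod_congr rfl
    intro i _
    have e1 : r + 1 + i = r + (i + 1) := by omega
    have e2 : k + 1 - (i + 1) = k - i := by omega
    rw [e1, e2]

end Pool.Agent.J4.H87.Hyp
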