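import Mathlib
import Pool.Agent.J4.H87.RayR
set_option autoImplicit false

/-! Rays: the estimate on an annulus. -/

namespace Pool.Agent.J4.H87.Ray

open MeasureTheory Complex Set Filter Topology
open scoped ENNReal ComplexConjugate

theorem Ann.int_le {c : ℝ} {V : ℝ → ℝ≥0∞} {h : ℝ → ℝ → ℂ} (hA : Ann c V h) :
    ∫⁻ θ, ∫⁻ r, ‖h θ r‖ₑ ≤ ∫⁻ θ in Icc c (c + 1), V θ := by
  rw [← lintegral_indicator measurableSet_Icc]
  refine lintegral_mono fun θ => ?_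
  by_cases hθ : θ ∈ Icc c (c + 1)
  · rw [indicator_of_mem hθ]
    have := ind_bound (A := Icc (1 / 2 : ℝ) 1) measurableSet_Icc (V θ) (fun r => ‖h θ r‖ₑ)
      (fun r hr => by rw [hA.s θ r hr, enorm_zero]) (fun r => hA.b θ r)
    refine this.trans ?_
    rw [Real.volume_Icc]
    have h1 : ENNReal.ofReal (1 - 1 / 2) ≤ 1 := by
      rw [← ENNReal.ofReal_one]
      exact ENNReal.ofReal_le_ofReal (by norm_num)
    calc V θ * ENNReal.ofReal (1 - 1 / 2) ≤ V θ * 1 := by gcongr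
      _ = V θ := mul_one _
  · rw [indicator_of_notMem hθ]
    simp [hA.sθ θ _ hθ]

theorem V_le {V : ℝ≥0∞} {q : ℝ} (hq : 1 ≤ q) : V ≤ 1 + V ^ q := by
  rcases le_or_gt V 1 with h | h
  · exact h.trans le_self_add
  · calc V = V ^ (1 : ℝ) := (ENNReal.rpow_one V).symm
      _ ≤ V ^ q := ENNReal.rpow_le_rpow_of_exponent_le h.le hq
      _ ≤ _ := le_add_self

theorem V_fin {q : ℝ} (hq : 1 ≤ q) {c : ℝ} {V : ℝ → ℝ≥0∞}
    (hN : ∫⁻ θ in Icc c (c + 1), V θ ^ q ≠ ∞) : ∫⁻ θ in Icc c (c + 1), V θ ≠ ∞ := by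
  refine ne_top_of_le_ne_top ?_ (lintegral_mono fun θ => V_le (V := V θ) hq)
  rw [lintegral_add_left measurable_const, setLIntegral_const, one_mul, Real.volume_Icc]
  exact ENNReal.add_ne_top.2 ⟨ENNReal.ofReal_ne_top, hN⟩

theorem Ann.integrable {c : ℝ} {V : ℝ → ℝ≥0∞} {h : ℝ → ℝ → ℂ} (hA : Ann c V h)
    (hV : ∫⁻ θ in Icc c (c + 1), V θ ≠ ∞) (t : ℝ) (z : ℂ) :
    Integrable (fun p : ℝ × ℝ => h p.1 p.2 * gr t (uf p.1 z) p.2) (volume.prod volume) := by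
  have h1 : Integrable (fun p : ℝ × ℝ => h p.1 p.2) (volume.prod volume) := by
    refine ⟨hA.m.aestronglyMeasurable, ?_⟩
    unfold HasFiniteIntegral
    rw [lintegral_prod (fun p : ℝ × ℝ => ‖h p.1 p.2‖ₑ) hA.m.enorm.aemeasurable]
    exact hA.int_le.trans_lt hV.lt_top
  refine h1.mul_bdd (c := 1) ?_ (Filter.Eventually.of_forall fun p => (gr_norm _ _ _).le)
  have : Measurable fun p : ℝ × ℝ => gr t (uf p.1 z) p.2 := by
    show Measurable ((fun q : (ℝ × ℂ) × (ℝ × ℝ) => gr q.1.1 (uf q.2.1 q.1.2) q.2.2) ∘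
      fun p : ℝ × ℝ => ((t, z), p))
    exact gr_meas.comp (by fun_prop)
  exact this.aestronglyMeasurable

theorem piece_eq {c : ℝ} {V : ℝ → ℝ≥0∞} (hV : Measurable V) (h : ℝ → ℝ → ℂ) {Λ : ℝ}
    (hΛ : 0 < Λ) (j : ℕ) (t : ℝ) (z : ℂ) :
    ∫ θ in Lv c V Λ j, ∫ r, h θ r * gr t (uf θ z) r =
      ((Λ * 2 ^ j : ℝ) : ℂ) * EP (pc c V Λ h j) t z := by
  have hp : ((Λ * 2 ^ j : ℝ) : ℂ) ≠ 0 := by
    have : (0 : ℝ) < Λ * 2 ^ j := by positivity
    exact_mod_cast this.ne'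
  unfold EP
  rw [← integral_indicator (Lv_meas c hV Λ j), ← integral_const_mul]
  refine integral_congr_ae (Filter.Eventually.of_forall fun θ => ?_)
  simp only
  by_cases hθ : θ ∈ Lv c V Λ j
  · rw [indicator_of_mem hθ, ← integral_const_mul]
    refine integral_congr_ae (Filter.Eventually.of_forall fun r => ?_)
    simp only [pc, indicator_of_mem hθ]
    field_simp
  · rw [indicator_of_notMem hθ]
    simp only [pc, indicator_of_notMem hθ, zero_mul, integral_zero, mul_zero]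

theorem EP_pieces {c : ℝ} {V : ℝ → ℝ≥0∞} {h : ℝ → ℝ → ℂ} (hA : Ann c V h)
    (hV : ∫⁻ θ in Icc c (c + 1), V θ ≠ ∞) {Λ : ℝ} (hΛ : 0 < Λ) (t : ℝ) (z : ℂ) :
    ‖EP h t z‖ₑ ≤ ∑' j : ℕ, ENNReal.ofReal (Λ * 2 ^ j) * ‖EP (pc c V Λ h j) t z‖ₑ := by
  set I : ℝ → ℂ := fun θ => ∫ r, h θ r * gr t (uf θ z) r with hI
  have hIi : Integrable I := (hA.integrable hV t z).integral_prod_left
  have hfin : ∀ᵐ θ : ℝ, θ ∈ Icc c (c + 1) → V θ < ∞ := by
    have := ae_lt_top hA.mV hV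
    rwa [ae_restrict_iff' measurableSet_Icc] at this
  have e1 : ∫ θ, I θ = ∫ θ in ⋃ j, Lv c V Λ j, I θ := by
    rw [setIntegral_eq_integral_of_ae_compl_eq_zero]
    filter_upwards [hfin] with θ hθ hnot
    by_cases h1 : θ ∈ Icc c (c + 1)
    · obtain ⟨j, hj⟩ := Lv_cover c V hΛ h1 (hθ h1).ne
      exact absurd (mem_iUnion.2 ⟨j, hj⟩) hnot
    · simp only [hI, hA.sθ θ _ h1, zero_mul, integral_zero]
  have e2 : EP h t z = ∑' j : ℕ, ∫ θ in Lv c V Λ j, I θ := by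
    unfold EP
    rw [e1, integral_iUnion (Lv_meas c hA.mV Λ) (Lv_disj c V Λ) hIi.integrableOn]
  rw [e2]
  refine enorm_tsum_le_tsum_enorm.trans (le_of_eq (tsum_congr fun j => ?_))
  rw [piece_eq hA.mV h hΛ j t z, enorm_mul]
  congr 1
  have hp : (0 : ℝ) < Λ * 2 ^ j := by positivity
  rw [← ofReal_norm, Complex.norm_real, Real.norm_of_nonneg hp.le]

/-- the geometric series -/
noncomputable def Gs (σ : ℝ) : ℝ≥0∞ := ∑' j : ℕ, ENNReal.ofReal ((2 : ℝ) ^ (-((j : ℝ) * σ)))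

theorem Gs_fin (σ : ℝ) (hσ : 0 < σ) : Gs σ ≠ ∞ := by
  unfold Gs
  have h0 : (0 : ℝ) ≤ (2 : ℝ) ^ (-σ) := by positivity
  have h1 : (2 : ℝ) ^ (-σ) < 1 := Real.rpow_lt_one_of_one_lt_of_neg (by norm_num) (by linarith)
  have h2 : ∀ j : ℕ, (2 : ℝ) ^ (-((j : ℝ) * σ)) = ((2 : ℝ) ^ (-σ)) ^ j := by
    intro j
    rw [← Real.rpow_natCast, ← Real.rpow_mul (by norm_num)]
    congr 1
    ring
  simp_rw [h2]
  rw [← ENNReal.ofReal_tsum_of_nonneg (fun j => by positivity) (summable_geometric_of_lt_one h0 h1)]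
  exact ENNReal.ofReal_ne_top

theorem lvl_aux {q σ : ℝ} (hq : 1 < q) (hσ : 0 < σ) {K : ℝ≥0∞}
    (hK : ∀ (c : ℝ) (A : Set ℝ) (h : ℝ → ℝ → ℂ), Blk c A h →
      ∫⁻ t, ∫⁻ z, ‖EP h t z‖ₑ ^ q ≤ K * volume A ^ (1 + σ))
    {c : ℝ} {V : ℝ → ℝ≥0∞} {h : ℝ → ℝ → ℂ} (hA : Ann c V h) {Λ : ℝ} (hΛ : 0 < Λ)
    (hN : ∫⁻ θ in Icc c (c + 1), V θ ^ q ≤ ENNReal.ofReal (Λ ^ q)) :
    ∫⁻ t, ∫⁻ z, ‖EP h t z‖ₑ ^ q ≤
      (Gs σ ^ (q - 1) * (K * ENNReal.ofReal (2 ^ (q * (1 + σ))) * Gs σ)) *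
        ENNReal.ofReal (Λ ^ q) := by
  have hq0 : 0 < q := by linarith
  have hV : ∫⁻ θ in Icc c (c + 1), V θ ≠ ∞ :=
    V_fin hq.le (ne_top_of_le_ne_top ENNReal.ofReal_ne_top hN)
  set cc : ℕ → ℝ≥0∞ := fun j => ENNReal.ofReal ((2 : ℝ) ^ (-((j : ℝ) * σ))) with hcc
  have hc0 : ∀ j, cc j ≠ 0 := fun j => by
    simp only [hcc, ne_eq, ENNReal.ofReal_eq_zero, not_le]
    positivity
  have hc1 : ∀ j, cc j ≠ ∞ := fun j => ENNReal.ofReal_ne_top
  set b : ℕ → ℝ → ℂ → ℝ≥0∞ := fun j t z =>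
    ENNReal.ofReal (Λ * 2 ^ j) * ‖EP (pc c V Λ h j) t z‖ₑ with hb
  have hbm : ∀ j, Measurable fun p : ℝ × ℂ => b j p.1 p.2 := fun j =>
    (EP_meas (pc_blk hA hΛ j).rt).enorm.const_mul _
  have hbm2 : ∀ j t, Measurable fun z : ℂ => b j t z := fun j t =>
    (EPm (pc_blk hA hΛ j).rt t).const_mul _
  have hpt : ∀ t z, ‖EP h t z‖ₑ ^ q ≤ Gs σ ^ (q - 1) * ∑' j, cc j ^ (1 - q) * b j t z ^ q := by
    intro t z
    refine (ENNReal.rpow_le_rpow (EP_pieces hA hV hΛ t z) hq0.le).trans ?_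
    exact jensen q hq (fun j => b j t z) cc hc0 hc1
  have hbq : ∀ j, ∫⁻ t, ∫⁻ z, b j t z ^ q ≤
      K * ENNReal.ofReal (Λ ^ q) * ENNReal.ofReal (2 ^ (q * (1 + σ))) *
        ENNReal.ofReal ((2 : ℝ) ^ (-((j : ℝ) * (q * σ)))) := by
    intro j
    have hB := pc_blk hA hΛ j
    have m1 : Measurable fun p : ℝ × ℂ => ‖EP (pc c V Λ h j) p.1 p.2‖ₑ ^ q :=
      (EP_meas hB.rt).enorm.pow_const q
    have m2 : ∀ t, Measurable fun z : ℂ => ‖EP (pc c V Λ h j) t z‖ₑ ^ q := fun t =>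
      (EPm hB.rt t).pow_const q
    have e1 : ∫⁻ t, ∫⁻ z, b j t z ^ q =
        ENNReal.ofReal (Λ * 2 ^ j) ^ q * ∫⁻ t, ∫⁻ z, ‖EP (pc c V Λ h j) t z‖ₑ ^ q := by
      rw [← lintegral_const_mul _ m1.lintegral_prod_right']
      refine lintegral_congr fun t => ?_
      rw [← lintegral_const_mul _ (m2 t)]
      refine lintegral_congr fun z => ?_
      simp only [hb]
      rw [ENNReal.mul_rpow_of_nonneg _ _ hq0.le]
    rw [e1]
    calc ENNReal.ofReal (Λ * 2 ^ j) ^ q * ∫⁻ t, ∫⁻ z, ‖EP (pc c V Λ h j) t z‖ₑ ^ q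
        ≤ ENNReal.ofReal (Λ * 2 ^ j) ^ q * (K *
          ENNReal.ofReal (2 ^ q * (2 : ℝ) ^ (-((j : ℝ) * q))) ^ (1 + σ)) := by
          gcongr
          refine (hK c _ _ hB).trans ?_
          gcongr
          exact Lv_vol hq0 c hA.mV hΛ hN j
      _ = _ := by
          rw [ENNReal.ofReal_rpow_of_nonneg (by positivity) hq0.le,
            ENNReal.ofReal_rpow_of_nonneg (by positivity) (by linarith)]
          have e2 : (Λ * 2 ^ j) ^ q = Λ ^ q * (2 : ℝ) ^ ((j : ℝ) * q) := by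
            rw [Real.mul_rpow hΛ.le (by positivity), ← Real.rpow_natCast,
              ← Real.rpow_mul (by norm_num)]
          have e3 : (2 ^ q * (2 : ℝ) ^ (-((j : ℝ) * q))) ^ (1 + σ) =
              (2 : ℝ) ^ (q * (1 + σ)) * (2 : ℝ) ^ (-((j : ℝ) * q) * (1 + σ)) := by
            rw [Real.mul_rpow (by positivity) (by positivity), ← Real.rpow_mul (by norm_num),
              ← Real.rpow_mul (by norm_num)]
          have e4 : (2 : ℝ) ^ ((j : ℝ) * q) * (2 : ℝ) ^ (-((j : ℝ) * q) * (1 + σ)) =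
              (2 : ℝ) ^ (-((j : ℝ) * (q * σ))) := by
            rw [← Real.rpow_add (by norm_num)]
            congr 1
            ring
          rw [e2, e3, ← e4, ENNReal.ofReal_mul (by positivity), ENNReal.ofReal_mul (by positivity),
            ENNReal.ofReal_mul (p := (2 : ℝ) ^ ((j : ℝ) * q)) (by positivity)]
          ring
  have hcb : ∀ j, cc j ^ (1 - q) * ENNReal.ofReal ((2 : ℝ) ^ (-((j : ℝ) * (q * σ)))) = cc j := by
    intro j
    simp only [hcc]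
    rw [ENNReal.ofReal_rpow_of_pos (by positivity), ← Real.rpow_mul (by norm_num),
      ← ENNReal.ofReal_mul (by positivity), ← Real.rpow_add (by norm_num)]
    congr 2
    ring
  calc ∫⁻ t, ∫⁻ z, ‖EP h t z‖ₑ ^ q
      ≤ ∫⁻ t, ∫⁻ z, Gs σ ^ (q - 1) * ∑' j, cc j ^ (1 - q) * b j t z ^ q :=
        lintegral_mono fun t => lintegral_mono fun z => hpt t z
    _ = Gs σ ^ (q - 1) * ∑' j, cc j ^ (1 - q) * ∫⁻ t, ∫⁻ z, b j t z ^ q := by
        have m1 : ∀ j, Measurable fun p : ℝ × ℂ => cc j ^ (1 - q) * b j p.1 p.2 ^ q := fun j =>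
          ((hbm j).pow_const q).const_mul _
        have m2 : Measurable fun p : ℝ × ℂ => ∑' j, cc j ^ (1 - q) * b j p.1 p.2 ^ q :=
          Measurable.tsum m1
        have m3 : ∀ t, Measurable fun z : ℂ => ∑' j, cc j ^ (1 - q) * b j t z ^ q := fun t =>
          Measurable.tsum fun j => ((hbm2 j t).pow_const q).const_mul _
        have e1 : ∀ t, ∫⁻ z, Gs σ ^ (q - 1) * ∑' j, cc j ^ (1 - q) * b j t z ^ q =
            Gs σ ^ (q - 1) * ∫⁻ z, ∑' j, cc j ^ (1 - q) * b j t z ^ q := fun t =>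
          lintegral_const_mul _ (m3 t)
        simp_rw [e1]
        rw [lintegral_const_mul _ m2.lintegral_prod_right']
        congr 1
        have e2 : ∀ t, ∫⁻ z, ∑' j, cc j ^ (1 - q) * b j t z ^ q =
            ∑' j, cc j ^ (1 - q) * ∫⁻ z, b j t z ^ q := by
          intro t
          rw [lintegral_tsum fun j => (((hbm2 j t).pow_const q).const_mul _).aemeasurable]
          exact tsum_congr fun j => lintegral_const_mul _ ((hbm2 j t).pow_const q)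
        simp_rw [e2]
        have m4 : ∀ j, Measurable fun t => ∫⁻ z, b j t z ^ q := fun j =>
          ((hbm j).pow_const q).lintegral_prod_right'
        rw [lintegral_tsum fun j => ((m4 j).const_mul _).aemeasurable]
        exact tsum_congr fun j => lintegral_const_mul _ (m4 j)
    _ ≤ Gs σ ^ (q - 1) * ∑' j, (K * ENNReal.ofReal (Λ ^ q) * ENNReal.ofReal (2 ^ (q * (1 + σ)))) *
          cc j := by
        refine mul_le_mul_right (ENNReal.tsum_le_tsum fun j => ?_) _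
        calc cc j ^ (1 - q) * ∫⁻ t, ∫⁻ z, b j t z ^ q
            ≤ cc j ^ (1 - q) * (K * ENNReal.ofReal (Λ ^ q) * ENNReal.ofReal (2 ^ (q * (1 + σ))) *
              ENNReal.ofReal ((2 : ℝ) ^ (-((j : ℝ) * (q * σ))))) := by
              gcongr
              exact hbq j
          _ = (K * ENNReal.ofReal (Λ ^ q) * ENNReal.ofReal (2 ^ (q * (1 + σ)))) *
              (cc j ^ (1 - q) * ENNReal.ofReal ((2 : ℝ) ^ (-((j : ℝ) * (q * σ))))) := by ring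
          _ = _ := by rw [hcb]
    _ = _ := by
        rw [ENNReal.tsum_mul_left]
        show Gs σ ^ (q - 1) * (K * ENNReal.ofReal (Λ ^ q) * ENNReal.ofReal (2 ^ (q * (1 + σ))) * Gs σ) = _
        ring

/-- **The estimate on an annulus.** -/
theorem lvl {q : ℝ} (hq3 : 3 < q) :
    ∃ C : ℝ≥0∞, C ≠ ∞ ∧ ∀ (c : ℝ) (V : ℝ → ℝ≥0∞) (h : ℝ → ℝ → ℂ), Ann c V h →
      ∫⁻ t, ∫⁻ z, ‖EP h t z‖ₑ ^ q ≤ C * ∫⁻ θ in Icc c (c + 1), V θ ^ q := by
  obtain ⟨σ, hσ, K, hK, hB⟩ := block_all hq3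
  have hq0 : 0 < q := by linarith
  set C0 : ℝ≥0∞ := Gs σ ^ (q - 1) * (K * ENNReal.ofReal (2 ^ (q * (1 + σ))) * Gs σ) with hC0
  have hC0t : C0 ≠ ∞ := ENNReal.mul_ne_top
    (ENNReal.rpow_ne_top_of_nonneg (by linarith) (Gs_fin σ hσ))
    (ENNReal.mul_ne_top (ENNReal.mul_ne_top hK ENNReal.ofReal_ne_top) (Gs_fin σ hσ))
  refine ⟨C0 + 1, ENNReal.add_ne_top.2 ⟨hC0t, ENNReal.one_ne_top⟩, fun c V h hA => ?_⟩
  set N : ℝ≥0∞ := ∫⁻ θ in Icc c (c + 1), V θ ^ q with hN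
  rcases eq_or_ne N ∞ with hNt | hNt
  · rw [hNt, ENNReal.mul_top (by simp)]
    exact le_top
  have key : ∀ n : ℕ, ∫⁻ t, ∫⁻ z, ‖EP h t z‖ₑ ^ q ≤
      C0 * ENNReal.ofReal (N.toReal + 1 / ((n : ℝ) + 1)) := by
    intro n
    have hp : 0 < N.toReal + 1 / ((n : ℝ) + 1) := by positivity
    have h1 : ((N.toReal + 1 / ((n : ℝ) + 1)) ^ (1 / q)) ^ q = N.toReal + 1 / ((n : ℝ) + 1) := by
      rw [← Real.rpow_mul hp.le, one_div_mul_cancel hq0.ne', Real.rpow_one]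
    have h2 := lvl_aux (by linarith) hσ hB hA (Λ := (N.toReal + 1 / ((n : ℝ) + 1)) ^ (1 / q))
      (Real.rpow_pos_of_pos hp _) (by
        rw [h1, ← hN]
        nth_rewrite 1 [← ENNReal.ofReal_toReal hNt]
        exact ENNReal.ofReal_le_ofReal (by
          have : (0 : ℝ) < 1 / ((n : ℝ) + 1) := by positivity
          linarith))
    rwa [h1] at h2
  have hlim : Tendsto (fun n : ℕ => C0 * ENNReal.ofReal (N.toReal + 1 / ((n : ℝ) + 1))) atTop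
      (𝓝 (C0 * N)) := by
    have h1 : Tendsto (fun n : ℕ => N.toReal + 1 / ((n : ℝ) + 1)) atTop (𝓝 N.toReal) := by
      have := tendsto_one_div_add_atTop_nhds_zero_nat (𝕜 := ℝ)
      have h2 := this.const_add N.toReal
      rwa [add_zero] at h2
    have h2 := ENNReal.tendsto_ofReal h1
    rw [ENNReal.ofReal_toReal hNt] at h2
    exact ENNReal.Tendsto.const_mul h2 (Or.inr hC0t)
  have h3 : ∫⁻ t, ∫⁻ z, ‖EP h t z‖ₑ ^ q ≤ C0 * N := ge_of_tendsto' hlim key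
  refine h3.trans ?_
  gcongr
  exact le_self_add

end Pool.Agent.J4.H87.Ray
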