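import Mathlib
import Pool.Agent.J4.H87.RayS
set_option autoImplicit false

/-! Rays: from the total variation to the integral modulus of continuity. -/

namespace Pool.Agent.J4.H87.Ray

open MeasureTheory Complex Set Filter Topology
open scoped ENNReal ComplexConjugate

theorem chunk (F : ℝ → ℂ) (hF : Measurable F) {τ : ℝ} (hτ : 0 < τ) :
    ∫⁻ r in Ioi (0 : ℝ), ‖F (r + τ) - F r‖ₑ ≤ ENNReal.ofReal τ * eVariationOn F (Ioi 0) := by
  set G : ℝ → ℝ≥0∞ := fun r => ‖F (r + τ) - F r‖ₑ with hG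
  have hGm : Measurable G := ((hF.comp (measurable_id.add_const τ)).sub hF).enorm
  have hcov : Ioi (0 : ℝ) ⊆ ⋃ n : ℕ, Ioc ((n : ℝ) * τ) (((n : ℝ) + 1) * τ) := by
    intro r hr
    have hr0 : (0 : ℝ) < r := hr
    rw [mem_iUnion]
    have h1 : 0 < r / τ := by positivity
    have hc : 0 < ⌈r / τ⌉₊ := Nat.ceil_pos.2 h1
    refine ⟨⌈r / τ⌉₊ - 1, ?_, ?_⟩
    · rw [← lt_div_iff₀ hτ]
      have := Nat.ceil_lt_add_one h1.le
      rw [Nat.cast_sub hc, Nat.cast_one]
      linarith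
    · rw [← div_le_iff₀ hτ, Nat.cast_sub hc, Nat.cast_one, sub_add_cancel]
      exact Nat.le_ceil _
  have hshift : ∀ n : ℕ, ∫⁻ r in Ioc ((n : ℝ) * τ) (((n : ℝ) + 1) * τ), G r =
      ∫⁻ r in Ioc 0 τ, G (r + (n : ℝ) * τ) := by
    intro n
    have h1 := (measurePreserving_add_right (volume : Measure ℝ) ((n : ℝ) * τ)).setLIntegral_comp_preimage
      (measurableSet_Ioc (a := (n : ℝ) * τ) (b := ((n : ℝ) + 1) * τ)) hGm
    rw [← h1]
    congr 2
    ext r
    simp only [mem_preimage, mem_Ioc]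
    constructor
    · rintro ⟨a, b⟩
      constructor <;> linarith
    · rintro ⟨a, b⟩
      constructor <;> linarith
  have hsum : ∀ r ∈ Ioc (0 : ℝ) τ, ∑' n : ℕ, G (r + (n : ℝ) * τ) ≤ eVariationOn F (Ioi 0) := by
    intro r hr
    refine ENNReal.tsum_le_of_sum_range_le fun N => ?_
    have h1 := eVariationOn.sum_le (f := F) (s := Ioi (0 : ℝ)) (n := N)
      (u := fun n : ℕ => r + (n : ℝ) * τ) (by
        intro a b hab
        have : (a : ℝ) ≤ (b : ℝ) := by exact_mod_cast hab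
        simp only
        nlinarith) (fun n => by
        show (0 : ℝ) < r + (n : ℝ) * τ
        have h2 : (0 : ℝ) ≤ (n : ℝ) * τ := by positivity
        linarith [hr.1])
    refine le_trans (le_of_eq ?_) h1
    refine Finset.sum_congr rfl fun n _ => ?_
    simp only [hG]
    rw [edist_eq_enorm_sub]
    congr 3
    push_cast
    ring_nf
  calc ∫⁻ r in Ioi (0 : ℝ), G r
      ≤ ∫⁻ r in ⋃ n : ℕ, Ioc ((n : ℝ) * τ) (((n : ℝ) + 1) * τ), G r := lintegral_mono_set hcov
    _ ≤ ∑' n : ℕ, ∫⁻ r in Ioc ((n : ℝ) * τ) (((n : ℝ) + 1) * τ), G r := lintegral_iUnion_le _ _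
    _ = ∑' n : ℕ, ∫⁻ r in Ioc 0 τ, G (r + (n : ℝ) * τ) := tsum_congr hshift
    _ = ∫⁻ r in Ioc 0 τ, ∑' n : ℕ, G (r + (n : ℝ) * τ) := by
        rw [lintegral_tsum]
        intro n
        exact (hGm.comp (measurable_id.add_const _)).aemeasurable
    _ ≤ ∫⁻ r in Ioc 0 τ, eVariationOn F (Ioi 0) := setLIntegral_mono' measurableSet_Ioc hsum
    _ = ENNReal.ofReal τ * eVariationOn F (Ioi 0) := by
        rw [setLIntegral_const, Real.volume_Ioc, sub_zero, mul_comm]

/-- the weight of the polar coordinates on the annulus -/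
noncomputable def wt (r : ℝ) : ℝ := (Ioc (1 / 2 : ℝ) 1).indicator (fun r => r) r

theorem wt_meas : Measurable wt := measurable_id.indicator measurableSet_Ioc

theorem wt_nonneg (r : ℝ) : 0 ≤ wt r := by
  unfold wt
  refine indicator_nonneg (fun r hr => ?_) r
  linarith [hr.1]

theorem wt_le (r : ℝ) : wt r ≤ 1 := by
  unfold wt
  by_cases h : r ∈ Ioc (1 / 2 : ℝ) 1
  · rw [indicator_of_mem h]; exact h.2
  · rw [indicator_of_notMem h]; norm_num

theorem wt_diff {τ : ℝ} (h0 : 0 < τ) (_h1 : τ < 1 / 4) (r : ℝ) :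
    ENNReal.ofReal |wt (r + τ) - wt r| ≤ (Ioc (1 / 2 - τ) (1 / 2)).indicator 1 r +
      ENNReal.ofReal τ * (Ioc (1 / 2 : ℝ) 1).indicator 1 r + (Ioc (1 - τ) 1).indicator 1 r := by
  have hle : |wt (r + τ) - wt r| ≤ 1 := by
    rw [abs_le]
    constructor
    · linarith [wt_nonneg (r + τ), wt_le r]
    · linarith [wt_nonneg r, wt_le (r + τ)]
  have hle' : ENNReal.ofReal |wt (r + τ) - wt r| ≤ 1 := by
    rw [← ENNReal.ofReal_one]; exact ENNReal.ofReal_le_ofReal hle
  by_cases a : r ∈ Ioc (1 / 2 - τ) (1 / 2)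
  · rw [indicator_of_mem a]
    exact hle'.trans (by rw [Pi.one_apply, add_assoc]; exact le_self_add)
  by_cases b : r ∈ Ioc (1 - τ) 1
  · rw [indicator_of_mem b]
    exact hle'.trans (by rw [Pi.one_apply]; exact le_add_self)
  by_cases d : r ∈ Ioc (1 / 2 : ℝ) 1
  · have e : r + τ ∈ Ioc (1 / 2 : ℝ) 1 := by
      refine ⟨by linarith [d.1], ?_⟩
      by_contra hne
      exact b ⟨by linarith, d.2⟩
    have e1 : |wt (r + τ) - wt r| = τ := by
      unfold wt
      rw [indicator_of_mem e, indicator_of_mem d, add_sub_cancel_left, abs_of_pos h0]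
    rw [e1, indicator_of_mem d, Pi.one_apply, mul_one, indicator_of_notMem a, zero_add]
    exact le_self_add
  · have e : r + τ ∉ Ioc (1 / 2 : ℝ) 1 := by
      rintro ⟨h2, h3⟩
      rcases le_or_gt r (1 / 2) with h4 | h4
      · exact a ⟨by linarith, h4⟩
      · exact d ⟨h4, by linarith⟩
    have e1 : |wt (r + τ) - wt r| = 0 := by
      unfold wt
      rw [indicator_of_notMem e, indicator_of_notMem d]
      simp
    rw [e1, ENNReal.ofReal_zero]
    exact zero_le

theorem wt_tv {τ : ℝ} (h0 : 0 < τ) (h1 : τ < 1 / 4) :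
    ∫⁻ r, ENNReal.ofReal |wt (r + τ) - wt r| ≤ 3 * ENNReal.ofReal τ := by
  have m1 : Measurable ((Ioc (1 / 2 - τ) (1 / 2)).indicator (1 : ℝ → ℝ≥0∞)) :=
    measurable_one.indicator measurableSet_Ioc
  have m2 : Measurable ((Ioc (1 / 2 : ℝ) 1).indicator (1 : ℝ → ℝ≥0∞)) :=
    measurable_one.indicator measurableSet_Ioc
  have m3 : Measurable ((Ioc (1 - τ) 1).indicator (1 : ℝ → ℝ≥0∞)) :=
    measurable_one.indicator measurableSet_Ioc
  have m12 : Measurable fun r => (Ioc (1 / 2 - τ) (1 / 2)).indicator (1 : ℝ → ℝ≥0∞) r +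
      ENNReal.ofReal τ * (Ioc (1 / 2 : ℝ) 1).indicator 1 r := m1.add (m2.const_mul _)
  refine (lintegral_mono fun r => wt_diff h0 h1 r).trans ?_
  rw [lintegral_add_left m12, lintegral_add_left m1, lintegral_const_mul _ m2,
    lintegral_indicator_one measurableSet_Ioc, lintegral_indicator_one measurableSet_Ioc,
    lintegral_indicator_one measurableSet_Ioc, Real.volume_Ioc, Real.volume_Ioc, Real.volume_Ioc]
  have e1 : (1 / 2 : ℝ) - (1 / 2 - τ) = τ := by ring
  have e2 : (1 : ℝ) - (1 - τ) = τ := by ring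
  rw [e1, e2]
  have e3 : ENNReal.ofReal τ * ENNReal.ofReal (1 - 1 / 2) ≤ ENNReal.ofReal τ := by
    calc ENNReal.ofReal τ * ENNReal.ofReal (1 - 1 / 2) ≤ ENNReal.ofReal τ * 1 := by
          gcongr
          rw [← ENNReal.ofReal_one]
          exact ENNReal.ofReal_le_ofReal (by norm_num)
      _ = _ := mul_one _
  calc _ ≤ ENNReal.ofReal τ + ENNReal.ofReal τ + ENNReal.ofReal τ := by gcongr
    _ = _ := by ring

/-- functions of `r > 0` with variation at most `V`, in the integral sense -/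
structure VF (V : ℝ≥0∞) (F : ℝ → ℂ) : Prop where
  m : Measurable F
  b : ∀ r, 0 < r → ‖F r‖ₑ ≤ V
  v : ∀ τ, 0 < τ → ∫⁻ r in Ioi (0 : ℝ), ‖F (r + τ) - F r‖ₑ ≤ ENNReal.ofReal τ * V

theorem VF.of_var {V : ℝ≥0∞} {F : ℝ → ℂ} (hF : Measurable F) {L : ℝ} (hL : ∀ r, L < r → F r = 0)
    (hV : eVariationOn F (Ioi 0) ≤ V) : VF V F where
  m := hF
  b r hr := by
    have h1 : 0 < max r L + 1 := by
      have := le_max_left r L
      linarith
    have h2 := eVariationOn.edist_le F (s := Ioi 0) (x := r) (y := max r L + 1) hr h1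
    rw [hL (max r L + 1) (by have := le_max_right r L; linarith), edist_zero_right] at h2
    exact h2.trans hV
  v τ hτ := (chunk F hF hτ).trans (by gcongr)

theorem VF.scale {V : ℝ≥0∞} {F : ℝ → ℂ} (hF : Measurable F) {L : ℝ} (hL : ∀ r, L < r → F r = 0)
    (hV : eVariationOn F (Ioi 0) ≤ V) {ρ : ℝ} (hρ : 0 < ρ) : VF V fun r => F (ρ * r) := by
  refine VF.of_var (L := L / ρ) (hF.comp (measurable_const_mul ρ)) (fun r hr => hL _ ?_) ?_
  · rw [div_lt_iff₀ hρ] at hr
    linarith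
  · refine le_trans ?_ hV
    refine eVariationOn.comp_le_of_monotoneOn F (φ := fun r => ρ * r) (t := Ioi 0) (s := Ioi 0) ?_ ?_
    · intro a _ b _ hab
      exact mul_le_mul_of_nonneg_left hab hρ.le
    · intro r hr
      have hr0 : (0 : ℝ) < r := hr
      show (0 : ℝ) < ρ * r
      positivity

theorem VF.prod {V : ℝ≥0∞} {F : ℝ → ℂ} (hF : VF V F) :
    (∀ r, ‖(wt r : ℂ) * F r‖ₑ ≤ V) ∧ ∀ τ, ∫⁻ r, ‖(wt (r + τ) : ℂ) * F (r + τ) - (wt r : ℂ) * F r‖ₑ ≤
      ENNReal.ofReal |τ| * (4 * V) := by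
  have hwm : Measurable fun r => (wt r : ℂ) := Complex.measurable_ofReal.comp wt_meas
  have hwe : ∀ r, ‖(wt r : ℂ)‖ₑ = ENNReal.ofReal (wt r) := by
    intro r
    rw [← ofReal_norm, Complex.norm_real, Real.norm_of_nonneg (wt_nonneg r)]
  have hw0 : ∀ r, r ∉ Ioc (1 / 2 : ℝ) 1 → (wt r : ℂ) = 0 := by
    intro r hr
    unfold wt
    rw [indicator_of_notMem hr, Complex.ofReal_zero]
  have hgm : Measurable fun r => (wt r : ℂ) * F r := hwm.mul hF.m
  have hb : ∀ r, ‖(wt r : ℂ) * F r‖ₑ ≤ V := by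
    intro r
    by_cases hr : r ∈ Ioc (1 / 2 : ℝ) 1
    · rw [enorm_mul, hwe]
      calc ENNReal.ofReal (wt r) * ‖F r‖ₑ ≤ 1 * V := by
            gcongr
            · rw [← ENNReal.ofReal_one]; exact ENNReal.ofReal_le_ofReal (wt_le r)
            · exact hF.b r (by linarith [hr.1])
        _ = V := one_mul _
    · rw [hw0 r hr, zero_mul, enorm_zero]; exact zero_le
  have hint : ∫⁻ r, ‖(wt r : ℂ) * F r‖ₑ ≤ ENNReal.ofReal (1 / 2) * V := by
    have := ind_bound (A := Ioc (1 / 2 : ℝ) 1) measurableSet_Ioc V (fun r => ‖(wt r : ℂ) * F r‖ₑ)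
      (fun r hr => by rw [hw0 r hr, zero_mul, enorm_zero]) hb
    rw [Real.volume_Ioc, show (1 : ℝ) - 1 / 2 = 1 / 2 by norm_num, mul_comm] at this
    exact this
  have pos : ∀ τ, 0 < τ → ∫⁻ r, ‖(wt (r + τ) : ℂ) * F (r + τ) - (wt r : ℂ) * F r‖ₑ ≤
      ENNReal.ofReal τ * (4 * V) := by
    intro τ hτ
    rcases lt_or_ge τ (1 / 4) with h4 | h4
    · have hpt : ∀ r, ‖(wt (r + τ) : ℂ) * F (r + τ) - (wt r : ℂ) * F r‖ₑ ≤
          (Ioi (0 : ℝ)).indicator (fun r => ‖F (r + τ) - F r‖ₑ) r +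
            ENNReal.ofReal |wt (r + τ) - wt r| * V := by
        intro r
        by_cases hr : r ∈ Ioi (0 : ℝ)
        · rw [indicator_of_mem hr]
          have e1 : (wt (r + τ) : ℂ) * F (r + τ) - (wt r : ℂ) * F r =
              (wt (r + τ) : ℂ) * (F (r + τ) - F r) + ((wt (r + τ) - wt r : ℝ) : ℂ) * F r := by
            push_cast
            ring
          rw [e1]
          refine (enorm_add_le _ _).trans (add_le_add ?_ ?_)
          · rw [enorm_mul, hwe]
            calc ENNReal.ofReal (wt (r + τ)) * ‖F (r + τ) - F r‖ₑ ≤ 1 * ‖F (r + τ) - F r‖ₑ := by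
                  gcongr
                  rw [← ENNReal.ofReal_one]; exact ENNReal.ofReal_le_ofReal (wt_le _)
              _ = _ := one_mul _
          · rw [enorm_mul, ← ofReal_norm (((wt (r + τ) - wt r : ℝ)) : ℂ), Complex.norm_real,
              Real.norm_eq_abs]
            gcongr
            exact hF.b r hr
        · have hr0 : r ≤ 0 := not_lt.1 hr
          rw [hw0 (r + τ) (fun h => by linarith [h.1]), hw0 r (fun h => by linarith [h.1])]
          simp
      have m1 : Measurable ((Ioi (0 : ℝ)).indicator (fun r => ‖F (r + τ) - F r‖ₑ)) :=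
        ((hF.m.comp (measurable_id.add_const τ)).sub hF.m).enorm.indicator measurableSet_Ioi
      have m2 : Measurable fun r => ENNReal.ofReal |wt (r + τ) - wt r| := by
        have : Measurable fun r => wt (r + τ) - wt r :=
          (wt_meas.comp (measurable_id.add_const τ)).sub wt_meas
        exact (measurable_abs.comp this).ennreal_ofReal
      calc ∫⁻ r, ‖(wt (r + τ) : ℂ) * F (r + τ) - (wt r : ℂ) * F r‖ₑ
          ≤ ∫⁻ r, ((Ioi (0 : ℝ)).indicator (fun r => ‖F (r + τ) - F r‖ₑ) r +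
            ENNReal.ofReal |wt (r + τ) - wt r| * V) := lintegral_mono hpt
        _ = (∫⁻ r in Ioi (0 : ℝ), ‖F (r + τ) - F r‖ₑ) +
            (∫⁻ r, ENNReal.ofReal |wt (r + τ) - wt r|) * V := by
            rw [lintegral_add_left m1, lintegral_indicator measurableSet_Ioi,
              lintegral_mul_const _ m2]
        _ ≤ ENNReal.ofReal τ * V + 3 * ENNReal.ofReal τ * V := by
            gcongr
            · exact hF.v τ hτ
            · exact wt_tv hτ h4
        _ = _ := by ring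
    · have m1 : Measurable fun r => ‖(wt (r + τ) : ℂ) * F (r + τ)‖ₑ :=
        (hgm.comp (measurable_id.add_const τ)).enorm
      calc ∫⁻ r, ‖(wt (r + τ) : ℂ) * F (r + τ) - (wt r : ℂ) * F r‖ₑ
          ≤ ∫⁻ r, (‖(wt (r + τ) : ℂ) * F (r + τ)‖ₑ + ‖(wt r : ℂ) * F r‖ₑ) :=
            lintegral_mono fun r => enorm_sub_le
        _ = (∫⁻ r, ‖(wt r : ℂ) * F r‖ₑ) + ∫⁻ r, ‖(wt r : ℂ) * F r‖ₑ := by
            rw [lintegral_add_left m1, lintegral_add_right_eq_self (fun r => ‖(wt r : ℂ) * F r‖ₑ) τ]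
        _ ≤ ENNReal.ofReal (1 / 2) * V + ENNReal.ofReal (1 / 2) * V := by gcongr
        _ = V := by
            rw [← add_mul, ← ENNReal.ofReal_add (by norm_num) (by norm_num)]
            norm_num
        _ ≤ ENNReal.ofReal τ * (4 * V) := by
            rw [← mul_assoc]
            have : (1 : ℝ≥0∞) ≤ ENNReal.ofReal τ * 4 := by
              rw [show (4 : ℝ≥0∞) = ENNReal.ofReal 4 by norm_num, ← ENNReal.ofReal_mul hτ.le,
                ← ENNReal.ofReal_one]
              exact ENNReal.ofReal_le_ofReal (by linarith)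
            calc V = 1 * V := (one_mul V).symm
              _ ≤ _ := by gcongr
  refine ⟨hb, fun τ => ?_⟩
  rcases lt_trichotomy τ 0 with h | h | h
  · have h1 := pos (-τ) (by linarith)
    rw [abs_of_neg h]
    have h2 := lintegral_add_right_eq_self (μ := (volume : Measure ℝ))
      (fun r => ‖(wt (r + -τ) : ℂ) * F (r + -τ) - (wt r : ℂ) * F r‖ₑ) τ
    rw [← h2] at h1
    refine le_trans (le_of_eq ?_) h1
    refine lintegral_congr fun r => ?_
    rw [add_neg_cancel_right, ← enorm_neg, neg_sub]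
  · rw [h]
    simp
  · rw [abs_of_pos h]
    exact pos τ h

/-- the projection to `[1/2, 1]` -/
noncomputable def clp (r : ℝ) : ℝ := max (1 / 2) (min r 1)

theorem clp_mono : Monotone clp := fun _ _ h => max_le_max le_rfl (min_le_min h le_rfl)

theorem clp_mem (r : ℝ) : clp r ∈ Icc (1 / 2 : ℝ) 1 :=
  ⟨le_max_left _ _, max_le (by norm_num) (min_le_right _ _)⟩

theorem clp_meas : Measurable clp := clp_mono.measurable

theorem clp_eq {r : ℝ} (hr : r ∈ Ioc (1 / 2 : ℝ) 1) : clp r = r := by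
  unfold clp
  rw [min_eq_left hr.2, max_eq_right hr.1.le]

theorem VF.clamp {V : ℝ≥0∞} {F : ℝ → ℂ} (hF : Measurable F)
    (hb : ∀ r ∈ Icc (1 / 2 : ℝ) 1, ‖F r‖ₑ ≤ V) (hv : eVariationOn F (Icc (1 / 2 : ℝ) 1) ≤ V) :
    VF V fun r => F (clp r) where
  m := hF.comp clp_meas
  b r _ := hb _ (clp_mem r)
  v τ hτ := by
    refine (chunk (fun r => F (clp r)) (hF.comp clp_meas) hτ).trans ?_
    gcongr
    refine le_trans ?_ hv
    exact eVariationOn.comp_le_of_monotoneOn F (φ := clp) (t := Ioi 0) (s := Icc (1 / 2) 1)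
      (clp_mono.monotoneOn _) (fun r _ => clp_mem r)

theorem wt_clp (F : ℝ → ℂ) (r : ℝ) : (wt r : ℂ) * F (clp r) = (wt r : ℂ) * F r := by
  by_cases hr : r ∈ Ioc (1 / 2 : ℝ) 1
  · rw [clp_eq hr]
  · unfold wt
    rw [indicator_of_notMem hr]
    simp

theorem prod_clamp {V : ℝ≥0∞} {F : ℝ → ℂ} (hF : Measurable F)
    (hb : ∀ r ∈ Icc (1 / 2 : ℝ) 1, ‖F r‖ₑ ≤ V) (hv : eVariationOn F (Icc (1 / 2 : ℝ) 1) ≤ V) :
    (∀ r, ‖(wt r : ℂ) * F r‖ₑ ≤ V) ∧ ∀ τ, ∫⁻ r, ‖(wt (r + τ) : ℂ) * F (r + τ) - (wt r : ℂ) * F r‖ₑ ≤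
      ENNReal.ofReal |τ| * (4 * V) := by
  have h := (VF.clamp hF hb hv).prod
  simp only [wt_clp] at h
  exact h

end Pool.Agent.J4.H87.Ray
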