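import Mathlib
import Pool.Agent.J4.H87.RayT
set_option autoImplicit false

/-! Rays: polar coordinates and the dyadic annuli. -/

namespace Pool.Agent.J4.H87.Ray

open MeasureTheory Complex Set Filter Topology
open scoped ENNReal ComplexConjugate

/-- the radii -/
noncomputable def lam (L : ℝ) (k : ℕ) : ℝ := L / 2 ^ k

/-- a function on the plane whose restrictions to the dyadic pieces of the rays from `y` have
absolute value and variation at most `V k` -/
structure Dat (L : ℝ) (y : ℂ) (f : ℂ → ℂ) (V : ℕ → ℝ → ℝ≥0∞) : Prop where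
  L0 : 0 < L
  m : Measurable f
  i : Integrable f
  mV : ∀ k, Measurable (V k)
  s : ∀ w, L < ‖w‖ → f (y + w) = 0
  b : ∀ k, ∀ θ ∈ Ioo (-Real.pi) Real.pi, ∀ r ∈ Icc (lam L k / 2) (lam L k),
    ‖f (y + (r : ℂ) * ec θ)‖ₑ ≤ V k θ
  v : ∀ k, ∀ θ ∈ Ioo (-Real.pi) Real.pi,
    eVariationOn (fun r : ℝ => f (y + (r : ℂ) * ec θ)) (Icc (lam L k / 2) (lam L k)) ≤ V k θ

theorem lam_pos {L : ℝ} (hL : 0 < L) (k : ℕ) : 0 < lam L k := by unfold lam; positivity

/-- the arcs -/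
def Arc (m : Fin 7) : Set ℝ :=
  Ico (-Real.pi + (m : ℕ)) (-Real.pi + (m : ℕ) + 1) ∩ Ioo (-Real.pi) Real.pi

theorem Arc_meas (m : Fin 7) : MeasurableSet (Arc m) := measurableSet_Ico.inter measurableSet_Ioo

theorem Arc_disj : Pairwise (Function.onFun Disjoint Arc) := by
  intro i j hij
  rw [Function.onFun, Set.disjoint_left]
  rintro θ ⟨⟨h1, h2⟩, -⟩ ⟨⟨h3, h4⟩, -⟩
  rcases lt_or_gt_of_ne hij with h | h
  · have : ((i : ℕ) : ℝ) + 1 ≤ ((j : ℕ) : ℝ) := by exact_mod_cast h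
    linarith
  · have : ((j : ℕ) : ℝ) + 1 ≤ ((i : ℕ) : ℝ) := by exact_mod_cast h
    linarith

theorem Arc_cover {θ : ℝ} (hθ : θ ∈ Ioo (-Real.pi) Real.pi) : ∃ m, θ ∈ Arc m := by
  have h1 : 0 ≤ θ + Real.pi := by linarith [hθ.1]
  have h2 : θ + Real.pi < 7 := by
    have := Real.pi_lt_d2
    linarith [hθ.2]
  have h3 : ⌊θ + Real.pi⌋₊ < 7 := by
    rw [Nat.floor_lt h1]
    exact_mod_cast h2
  refine ⟨⟨⌊θ + Real.pi⌋₊, h3⟩, ⟨?_, ?_⟩, hθ⟩
  · have := Nat.floor_le h1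
    simp only
    linarith
  · have := Nat.lt_floor_add_one (θ + Real.pi)
    simp only
    linarith

/-- the majorant -/
noncomputable def V4f (V : ℝ → ℝ≥0∞) (θ : ℝ) : ℝ≥0∞ :=
  (Ioo (-Real.pi) Real.pi).indicator (fun θ => 4 * V θ) θ

/-- the rescaled piece -/
noncomputable def hpc (L : ℝ) (y : ℂ) (f : ℂ → ℂ) (k : ℕ) (m : Fin 7) (θ r : ℝ) : ℂ :=
  (Arc m).indicator (fun θ => (wt r : ℂ) * f (y + ((lam L k * r : ℝ) : ℂ) * ec θ)) θ

theorem ec_meas : Measurable ec := by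
  unfold ec
  fun_prop

theorem hpc_meas (L : ℝ) (y : ℂ) {f : ℂ → ℂ} (hf : Measurable f) (k : ℕ) (m : Fin 7) :
    Measurable (Function.uncurry (hpc L y f k m)) := by
  have h1 : Function.uncurry (hpc L y f k m) = ((Arc m) ×ˢ univ).indicator
      (fun p : ℝ × ℝ => (wt p.2 : ℂ) * f (y + ((lam L k * p.2 : ℝ) : ℂ) * ec p.1)) := by
    ext p
    by_cases hp1 : p.1 ∈ Arc m
    · rw [indicator_of_mem (show p ∈ (Arc m) ×ˢ univ from ⟨hp1, mem_univ _⟩)]
      simp only [Function.uncurry, hpc, indicator_of_mem hp1]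
    · rw [indicator_of_notMem (fun h : p ∈ (Arc m) ×ˢ univ => hp1 h.1)]
      simp only [Function.uncurry, hpc, indicator_of_notMem hp1]
  rw [h1]
  refine Measurable.indicator ?_ ((Arc_meas m).prod MeasurableSet.univ)
  refine (Complex.measurable_ofReal.comp (wt_meas.comp measurable_snd)).mul (hf.comp ?_)
  have h2 : Measurable fun p : ℝ × ℝ => ((lam L k * p.2 : ℝ) : ℂ) :=
    Complex.measurable_ofReal.comp (measurable_snd.const_mul _)
  exact measurable_const.add (h2.mul (ec_meas.comp measurable_fst))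

theorem Dat.vf {L : ℝ} {y : ℂ} {f : ℂ → ℂ} {V : ℕ → ℝ → ℝ≥0∞} (hD : Dat L y f V) (k : ℕ) {θ : ℝ}
    (hθ : θ ∈ Ioo (-Real.pi) Real.pi) :
    (∀ r, ‖(wt r : ℂ) * f (y + ((lam L k * r : ℝ) : ℂ) * ec θ)‖ₑ ≤ V k θ) ∧
      ∀ τ, ∫⁻ r, ‖(wt (r + τ) : ℂ) * f (y + ((lam L k * (r + τ) : ℝ) : ℂ) * ec θ) -
        (wt r : ℂ) * f (y + ((lam L k * r : ℝ) : ℂ) * ec θ)‖ₑ ≤
          ENNReal.ofReal |τ| * (4 * V k θ) := by
  have hl := lam_pos hD.L0 k
  have hFm : Measurable fun r : ℝ => f (y + ((lam L k * r : ℝ) : ℂ) * ec θ) :=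
    hD.m.comp (measurable_const.add ((Complex.measurable_ofReal.comp
      (measurable_const_mul (lam L k))).mul_const _))
  have hmem : ∀ r ∈ Icc (1 / 2 : ℝ) 1, lam L k * r ∈ Icc (lam L k / 2) (lam L k) := by
    intro r hr
    constructor
    · have := mul_le_mul_of_nonneg_left hr.1 hl.le
      linarith
    · exact mul_le_of_le_one_right hl.le hr.2
  refine prod_clamp (F := fun r : ℝ => f (y + ((lam L k * r : ℝ) : ℂ) * ec θ)) hFm
    (fun r hr => hD.b k θ hθ _ (hmem r hr)) ?_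
  refine le_trans ?_ (hD.v k θ hθ)
  refine eVariationOn.comp_le_of_monotoneOn (fun r : ℝ => f (y + (r : ℂ) * ec θ))
    (φ := fun r => lam L k * r) (t := Icc (1 / 2) 1) ?_ hmem
  intro a _ b _ hab
  exact mul_le_mul_of_nonneg_left hab hl.le

theorem hpc_ann {L : ℝ} {y : ℂ} {f : ℂ → ℂ} {V : ℕ → ℝ → ℝ≥0∞} (hD : Dat L y f V) (k : ℕ)
    (m : Fin 7) : Ann (-Real.pi + (m : ℕ)) (V4f (V k)) (hpc L y f k m) where
  m := hpc_meas L y hD.m k m
  mV := ((hD.mV k).const_mul 4).indicator measurableSet_Ioo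
  sθ θ r hθ := by
    have : θ ∉ Arc m := fun h => hθ ⟨h.1.1, h.1.2.le⟩
    simp only [hpc, indicator_of_notMem this]
  s θ r hr := by
    by_cases hθ : θ ∈ Arc m
    · simp only [hpc, indicator_of_mem hθ]
      have : wt r = 0 := by
        unfold wt
        rw [indicator_of_notMem]
        exact fun h => hr ⟨h.1.le, h.2⟩
      rw [this, Complex.ofReal_zero, zero_mul]
    · simp only [hpc, indicator_of_notMem hθ]
  b θ r := by
    by_cases hθ : θ ∈ Arc m
    · simp only [hpc, indicator_of_mem hθ, V4f, indicator_of_mem hθ.2]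
      refine ((hD.vf k hθ.2).1 r).trans ?_
      calc V k θ = 1 * V k θ := (one_mul _).symm
        _ ≤ 4 * V k θ := by gcongr; norm_num
    · simp only [hpc, indicator_of_notMem hθ, enorm_zero]
      exact zero_le
  v θ τ := by
    by_cases hθ : θ ∈ Arc m
    · simp only [hpc, indicator_of_mem hθ, V4f, indicator_of_mem hθ.2]
      exact (hD.vf k hθ.2).2 τ
    · simp only [hpc, indicator_of_notMem hθ, sub_zero, enorm_zero, lintegral_zero]
      exact zero_le

/-- the extension operator on the complex plane -/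
noncomputable def FT (f : ℂ → ℂ) (t : ℝ) (z : ℂ) : ℂ :=
  ∫ w, f w * ex (-((w * conj z).re + t * ‖w‖ ^ 2))

theorem norm_add_sq' (y w : ℂ) : ‖y + w‖ ^ 2 = ‖y‖ ^ 2 + 2 * (w * conj y).re + ‖w‖ ^ 2 := by
  rw [← Complex.normSq_eq_norm_sq, ← Complex.normSq_eq_norm_sq, ← Complex.normSq_eq_norm_sq,
    Complex.normSq_apply, Complex.normSq_apply, Complex.normSq_apply]
  simp only [Complex.add_re, Complex.add_im, Complex.mul_re, Complex.conj_re, Complex.conj_im]
  ring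

theorem FT_center (f : ℂ → ℂ) (y : ℂ) (t : ℝ) (z : ℂ) :
    FT f t z = ex (-((y * conj z).re + t * ‖y‖ ^ 2)) *
      FT (fun w => f (y + w)) t (z + (2 * t : ℝ) * y) := by
  unfold FT
  rw [← integral_const_mul, ← integral_add_left_eq_self (μ := (volume : Measure ℂ)) _ y]
  refine integral_congr_ae (Filter.Eventually.of_forall fun w => ?_)
  simp only
  have h1 : -(((y + w) * conj z).re + t * ‖y + w‖ ^ 2) = -((y * conj z).re + t * ‖y‖ ^ 2) +
      -((w * conj (z + (2 * t : ℝ) * y)).re + t * ‖w‖ ^ 2) := by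
    rw [norm_add_sq']
    have e1 : (w * conj (z + (2 * t : ℝ) * y)).re = (w * conj z).re + 2 * t * (w * conj y).re := by
      simp only [map_add, map_mul, Complex.conj_ofReal, Complex.mul_re, Complex.add_re,
        Complex.add_im, Complex.mul_im, Complex.conj_re, Complex.conj_im, Complex.ofReal_re,
        Complex.ofReal_im]
      ring
    rw [e1, add_mul, Complex.add_re]
    ring
  rw [h1, ex_add]
  ring

theorem FT_shift (f : ℂ → ℂ) (y : ℂ) (t q : ℝ) :
    ∫⁻ z, ‖FT f t z‖ₑ ^ q = ∫⁻ z, ‖FT (fun w => f (y + w)) t z‖ₑ ^ q := by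
  rw [← lintegral_add_right_eq_self (μ := (volume : Measure ℂ))
    (fun z => ‖FT (fun w => f (y + w)) t z‖ₑ ^ q) ((2 * t : ℝ) * y)]
  refine lintegral_congr fun z => ?_
  rw [FT_center f y t z, enorm_mul, ex_enorm, one_mul]

/-- the integrand in polar coordinates -/
noncomputable def Kp (y : ℂ) (f : ℂ → ℂ) (t : ℝ) (z : ℂ) (p : ℝ × ℝ) : ℂ :=
  (p.1 : ℂ) * f (y + (p.1 : ℂ) * ec p.2) * gr t (uf p.2 z) p.1

theorem FT_polar (y : ℂ) (f : ℂ → ℂ) (t : ℝ) (z : ℂ) :
    FT (fun w => f (y + w)) t z = ∫ p in Ioi (0 : ℝ) ×ˢ Ioo (-Real.pi) Real.pi, Kp y f t z p := by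
  unfold FT
  rw [← Complex.integral_comp_polarCoord_symm]
  have ht : polarCoord.target = Ioi (0 : ℝ) ×ˢ Ioo (-Real.pi) Real.pi := rfl
  rw [ht]
  refine setIntegral_congr_fun (measurableSet_Ioi.prod measurableSet_Ioo) fun p hp => ?_
  simp only
  have h1 : Complex.polarCoord.symm p = (p.1 : ℂ) * ec p.2 := by
    rw [Complex.polarCoord_symm_apply]
    congr 1
    unfold ec
    rw [Complex.exp_mul_I, Complex.ofReal_cos, Complex.ofReal_sin]
  rw [h1]
  have h2 : ((p.1 : ℂ) * ec p.2 * conj z).re = p.1 * uf p.2 z := by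
    unfold uf
    simp only [Complex.mul_re, Complex.conj_re, Complex.conj_im, Complex.ofReal_re,
      Complex.ofReal_im, Complex.mul_im]
    ring
  have h3 : ‖(p.1 : ℂ) * ec p.2‖ ^ 2 = p.1 ^ 2 := by
    rw [norm_mul, ec_norm, mul_one, Complex.norm_real, Real.norm_eq_abs, sq_abs]
  rw [h2, h3, Complex.real_smul]
  unfold Kp gr
  ring

end Pool.Agent.J4.H87.Ray
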