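import Mathlib
import Pool.Agent.J4.H87.RayU
set_option autoImplicit false

/-! Rays: the decomposition into dyadic annuli. -/

namespace Pool.Agent.J4.H87.Ray

open MeasureTheory Complex Set Filter Topology
open scoped ENNReal ComplexConjugate

theorem lam_succ (L : ℝ) (k : ℕ) : lam L (k + 1) = lam L k / 2 := by
  unfold lam
  rw [pow_succ]
  field_simp

theorem lam_anti {L : ℝ} (hL : 0 < L) {i j : ℕ} (h : i ≤ j) : lam L j ≤ lam L i := by
  unfold lam
  exact div_le_div_of_nonneg_left hL.le (by positivity) (pow_le_pow_right₀ (by norm_num) h)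

/-- the dyadic pieces -/
def Ps (L : ℝ) (i : ℕ × Fin 7) : Set (ℝ × ℝ) := Ioc (lam L (i.1 + 1)) (lam L i.1) ×ˢ Arc i.2

theorem Ps_meas (L : ℝ) (i : ℕ × Fin 7) : MeasurableSet (Ps L i) :=
  measurableSet_Ioc.prod (Arc_meas _)

theorem Ps_disj {L : ℝ} (hL : 0 < L) : Pairwise (Function.onFun Disjoint (Ps L)) := by
  rintro ⟨k, m⟩ ⟨k', m'⟩ hij
  rw [Function.onFun, Set.disjoint_left]
  rintro ⟨r, θ⟩ ⟨hr, hθ⟩ ⟨hr', hθ'⟩
  simp only at hr hθ hr' hθ'
  rcases eq_or_ne m m' with h | h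
  · rcases lt_trichotomy k k' with h2 | h2 | h2
    · have := lam_anti hL (Nat.succ_le_of_lt h2)
      exact absurd (hr.1.trans_le (hr'.2.trans this)) (lt_irrefl _)
    · exact hij (by rw [h, h2])
    · have := lam_anti hL (Nat.succ_le_of_lt h2)
      exact absurd (hr'.1.trans_le (hr.2.trans this)) (lt_irrefl _)
  · exact Set.disjoint_left.1 (Arc_disj h) hθ hθ'

theorem Ps_union {L : ℝ} (hL : 0 < L) :
    ⋃ i, Ps L i = Ioc (0 : ℝ) L ×ˢ Ioo (-Real.pi) Real.pi := by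
  ext ⟨r, θ⟩
  rw [mem_iUnion]
  constructor
  · rintro ⟨⟨k, m⟩, hr, hθ⟩
    simp only at hr hθ
    refine ⟨⟨lt_trans (lam_pos hL _) hr.1, hr.2.trans ?_⟩, hθ.2⟩
    have := lam_anti hL (Nat.zero_le k)
    unfold lam at this ⊢
    simpa using this
  · rintro ⟨⟨hr0, hrL⟩, hθ⟩
    obtain ⟨m, hm⟩ := Arc_cover hθ
    have h1 : 1 ≤ L / r := by rwa [le_div_iff₀ hr0, one_mul]
    obtain ⟨k, hk1, hk2⟩ := exists_nat_pow_near h1 (by norm_num : (1 : ℝ) < 2)
    refine ⟨(k, m), ⟨?_, ?_⟩, hm⟩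
    · show lam L (k + 1) < r
      unfold lam
      rw [div_lt_iff₀ (by positivity)]
      rw [div_lt_iff₀ hr0] at hk2
      linarith
    · show r ≤ lam L k
      unfold lam
      rw [le_div_iff₀ (by positivity)]
      rw [le_div_iff₀ hr0] at hk1
      linarith

theorem Kp_meas (y : ℂ) {f : ℂ → ℂ} (hf : Measurable f) (t : ℝ) (z : ℂ) : Measurable (Kp y f t z) := by
  unfold Kp
  have h1 : Measurable fun p : ℝ × ℝ => (p.1 : ℂ) := Complex.measurable_ofReal.comp measurable_fst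
  have h2 : Measurable fun p : ℝ × ℝ => f (y + (p.1 : ℂ) * ec p.2) :=
    hf.comp (measurable_const.add (h1.mul (ec_meas.comp measurable_snd)))
  have h3 : Measurable fun p : ℝ × ℝ => gr t (uf p.2 z) p.1 := by
    show Measurable ((fun q : (ℝ × ℂ) × (ℝ × ℝ) => gr q.1.1 (uf q.2.1 q.1.2) q.2.2) ∘
      fun p : ℝ × ℝ => ((t, z), (p.2, p.1)))
    exact gr_meas.comp (by fun_prop)
  exact (h1.mul h2).mul h3

theorem polar_symm (p : ℝ × ℝ) : Complex.polarCoord.symm p = (p.1 : ℂ) * ec p.2 := by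
  rw [Complex.polarCoord_symm_apply]
  congr 1
  unfold ec
  rw [Complex.exp_mul_I, Complex.ofReal_cos, Complex.ofReal_sin]

theorem Kp_int {L : ℝ} {y : ℂ} {f : ℂ → ℂ} {V : ℕ → ℝ → ℝ≥0∞} (hD : Dat L y f V) (t : ℝ) (z : ℂ) :
    IntegrableOn (Kp y f t z) (Ioc (0 : ℝ) L ×ˢ Ioo (-Real.pi) Real.pi) (volume.prod volume) := by
  have hmain : IntegrableOn (Kp y f t z) (Ioi (0 : ℝ) ×ˢ Ioo (-Real.pi) Real.pi)
      (volume.prod volume) := by
    refine ⟨(Kp_meas y hD.m t z).aestronglyMeasurable, ?_⟩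
    unfold HasFiniteIntegral
    have hi : Integrable fun w => f (y + w) := hD.i.comp_add_left y
    have h1 := Complex.lintegral_comp_polarCoord_symm (fun w => ‖f (y + w)‖ₑ)
    have ht : polarCoord.target = Ioi (0 : ℝ) ×ˢ Ioo (-Real.pi) Real.pi := rfl
    rw [ht] at h1
    calc ∫⁻ p in Ioi (0 : ℝ) ×ˢ Ioo (-Real.pi) Real.pi, ‖Kp y f t z p‖ₑ ∂(volume.prod volume)
        ≤ ∫⁻ p in Ioi (0 : ℝ) ×ˢ Ioo (-Real.pi) Real.pi,
            ENNReal.ofReal p.1 • ‖f (y + Complex.polarCoord.symm p)‖ₑ ∂(volume.prod volume) := by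
          refine setLIntegral_mono' (measurableSet_Ioi.prod measurableSet_Ioo) fun p hp => ?_
          unfold Kp
          have hp1 : (0 : ℝ) < p.1 := hp.1
          have h1 : ‖gr t (uf p.2 z) p.1‖ₑ = 1 := ex_enorm _
          rw [enorm_mul, enorm_mul, h1, mul_one, polar_symm, smul_eq_mul,
            ← ofReal_norm (p.1 : ℂ), Complex.norm_real, Real.norm_of_nonneg hp1.le]
      _ = ∫⁻ w, ‖f (y + w)‖ₑ := h1
      _ < ∞ := hi.2
  exact hmain.mono_set fun p hp => ⟨hp.1.1, hp.2⟩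

theorem uf_smul (θ a : ℝ) (z : ℂ) : uf θ ((a : ℂ) * z) = a * uf θ z := by
  rw [uf_eq, uf_eq]
  simp only [Complex.mul_re, Complex.mul_im, Complex.ofReal_re, Complex.ofReal_im]
  ring

theorem gr_scale (t u a r : ℝ) : gr t u (a * r) = gr (a ^ 2 * t) (a * u) r := by
  unfold gr
  congr 1
  ring

theorem radial {a : ℝ} (ha : 0 < a) (F : ℝ → ℂ) (t u : ℝ) :
    ∫ r in Ioc (a / 2) a, (r : ℂ) * F r * gr t u r =
      ((a ^ 2 : ℝ) : ℂ) * ∫ r, (wt r : ℂ) * F (a * r) * gr (a ^ 2 * t) (a * u) r := by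
  rw [← integral_indicator measurableSet_Ioc]
  set J : ℝ → ℂ := (Ioc (a / 2) a).indicator (fun r => (r : ℂ) * F r * gr t u r) with hJ
  have h1 : ∫ r, J r = a * ∫ r, J (a * r) := by
    rw [Measure.integral_comp_mul_left J a, abs_of_pos (by positivity), Complex.real_smul,
      ← mul_assoc, ← Complex.ofReal_mul, mul_inv_cancel₀ ha.ne', Complex.ofReal_one, one_mul]
  rw [h1]
  have h2 : ∀ r, J (a * r) = a * ((wt r : ℂ) * F (a * r) * gr (a ^ 2 * t) (a * u) r) := by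
    intro r
    simp only [hJ]
    by_cases hr : r ∈ Ioc (1 / 2 : ℝ) 1
    · have h3 : a * r ∈ Ioc (a / 2) a := by
        constructor
        · have := mul_lt_mul_of_pos_left hr.1 ha
          linarith
        · exact mul_le_of_le_one_right ha.le hr.2
      rw [indicator_of_mem h3]
      unfold wt
      rw [indicator_of_mem hr, gr_scale]
      push_cast
      ring
    · have h3 : a * r ∉ Ioc (a / 2) a := by
        rintro ⟨h4, h5⟩
        apply hr
        constructor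
        · by_contra hne
          have := mul_le_mul_of_nonneg_left (not_lt.1 hne) ha.le
          linarith
        · by_contra hne
          have := mul_lt_mul_of_pos_left (not_le.1 hne) ha
          linarith
      rw [indicator_of_notMem h3]
      unfold wt
      rw [indicator_of_notMem hr]
      simp
  rw [integral_congr_ae (Filter.Eventually.of_forall h2), integral_const_mul, ← mul_assoc]
  congr 1
  push_cast
  ring

theorem piece_int {L : ℝ} {y : ℂ} {f : ℂ → ℂ} {V : ℕ → ℝ → ℝ≥0∞} (hD : Dat L y f V)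
    (t : ℝ) (z : ℂ) (i : ℕ × Fin 7) :
    ∫ p in Ps L i, Kp y f t z p = ((lam L i.1 ^ 2 : ℝ) : ℂ) *
      EP (hpc L y f i.1 i.2) (lam L i.1 ^ 2 * t) ((lam L i.1 : ℂ) * z) := by
  obtain ⟨k, m⟩ := i
  have hl := lam_pos hD.L0 k
  have hsub : Ps L (k, m) ⊆ Ioc (0 : ℝ) L ×ˢ Ioo (-Real.pi) Real.pi := by
    rw [← Ps_union hD.L0]
    exact subset_iUnion _ _
  have hint : IntegrableOn (Kp y f t z) (Ps L (k, m)) (volume.prod volume) :=
    (Kp_int hD t z).mono_set hsub
  have hS : Ps L (k, m) = Ioc (lam L k / 2) (lam L k) ×ˢ Arc m := by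
    unfold Ps
    rw [lam_succ]
  rw [hS] at hint ⊢
  have hint2 : IntegrableOn (fun q : ℝ × ℝ => Kp y f t z q.swap)
      (Arc m ×ˢ Ioc (lam L k / 2) (lam L k)) (volume.prod volume) := by
    unfold IntegrableOn at hint ⊢
    rw [← Measure.prod_restrict] at hint ⊢
    exact hint.swap
  have h1 := setIntegral_prod_swap (μ := (volume : Measure ℝ)) (ν := (volume : Measure ℝ))
    (Ioc (lam L k / 2) (lam L k)) (Arc m) (Kp y f t z)
  rw [Measure.volume_eq_prod, ← h1, setIntegral_prod _ hint2, ← integral_indicator (Arc_meas m)]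
  unfold EP
  rw [← integral_const_mul]
  refine integral_congr_ae (Filter.Eventually.of_forall fun θ => ?_)
  simp only
  by_cases hθ : θ ∈ Arc m
  · rw [indicator_of_mem hθ]
    have h2 := radial hl (fun r : ℝ => f (y + (r : ℂ) * ec θ)) t (uf θ z)
    have h3 : ∫ r in Ioc (lam L k / 2) (lam L k), Kp y f t z (Prod.swap (θ, r)) =
        ∫ r in Ioc (lam L k / 2) (lam L k), (r : ℂ) * f (y + (r : ℂ) * ec θ) * gr t (uf θ z) r := rfl
    rw [h3, h2]
    congr 1
    refine integral_congr_ae (Filter.Eventually.of_forall fun r => ?_)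
    simp only [hpc, indicator_of_mem hθ]
    rw [uf_smul]
  · rw [indicator_of_notMem hθ]
    simp only [hpc, indicator_of_notMem hθ, zero_mul, integral_zero, mul_zero]

theorem FT_pieces {L : ℝ} {y : ℂ} {f : ℂ → ℂ} {V : ℕ → ℝ → ℝ≥0∞} (hD : Dat L y f V)
    (t : ℝ) (z : ℂ) :
    ‖FT (fun w => f (y + w)) t z‖ₑ ≤ ∑' i : ℕ × Fin 7, ENNReal.ofReal (lam L i.1 ^ 2) *
      ‖EP (hpc L y f i.1 i.2) (lam L i.1 ^ 2 * t) ((lam L i.1 : ℂ) * z)‖ₑ := by
  have h1 : FT (fun w => f (y + w)) t z = ∫ p in Ioc (0 : ℝ) L ×ˢ Ioo (-Real.pi) Real.pi,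
      Kp y f t z p := by
    rw [FT_polar]
    refine setIntegral_eq_of_subset_of_forall_sdiff_eq_zero
      (measurableSet_Ioi.prod measurableSet_Ioo) ?_ ?_
    · rintro p ⟨hp1, hp2⟩
      exact ⟨hp1.1, hp2⟩
    · rintro ⟨r, θ⟩ ⟨⟨hr, hθ⟩, hn⟩
      have hr0 : (0 : ℝ) < r := hr
      have hrL : L < r := by
        by_contra hne
        exact hn ⟨⟨hr0, not_lt.1 hne⟩, hθ⟩
      unfold Kp
      simp only
      rw [hD.s, mul_zero, zero_mul]
      rw [norm_mul, ec_norm, mul_one, Complex.norm_real, Real.norm_of_nonneg hr0.le]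
      exact hrL
  have h2 : ∫ p in Ioc (0 : ℝ) L ×ˢ Ioo (-Real.pi) Real.pi, Kp y f t z p =
      ∑' i : ℕ × Fin 7, ∫ p in Ps L i, Kp y f t z p := by
    have hint := Kp_int hD t z
    rw [← Ps_union hD.L0] at hint ⊢
    exact integral_iUnion (Ps_meas L) (Ps_disj hD.L0) hint
  rw [h1, h2]
  refine enorm_tsum_le_tsum_enorm.trans (le_of_eq (tsum_congr fun i => ?_))
  rw [piece_int hD t z i, enorm_mul]
  congr 1
  rw [← ofReal_norm, Complex.norm_real, Real.norm_of_nonneg (sq_nonneg _)]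

theorem scale_int {a : ℝ} (ha : 0 < a) (G : ℝ → ℂ → ℝ≥0∞) (hG : Measurable (Function.uncurry G)) :
    ∫⁻ t, ∫⁻ z, G (a ^ 2 * t) ((a : ℂ) * z) = ENNReal.ofReal ((a ^ 4)⁻¹) * ∫⁻ t, ∫⁻ z, G t z := by
  have hG1 : ∀ t, Measurable (G t) := fun t => hG.comp (measurable_const.prodMk measurable_id)
  have hG2 : Measurable fun t => ∫⁻ z, G t z := hG.lintegral_prod_right'
  have e1 : ∀ s, ∫⁻ z, G s ((a : ℂ) * z) = ENNReal.ofReal ((a ^ 2)⁻¹) * ∫⁻ z, G s z := by
    intro s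
    have h1 := Measure.map_addHaar_smul (volume : Measure ℂ) ha.ne'
    have h2 : ∫⁻ z, G s z ∂(Measure.map (a • ·) (volume : Measure ℂ)) =
        ∫⁻ z : ℂ, G s (a • z) := lintegral_map (hG1 s) (measurable_const_smul a)
    rw [h1, lintegral_smul_measure, Complex.finrank_real_complex, abs_of_pos (by positivity),
      smul_eq_mul] at h2
    rw [h2]
    exact lintegral_congr fun z => by rw [Complex.real_smul]
  simp_rw [e1]
  have hb : (0 : ℝ) < a ^ 2 := by positivity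
  have e2 : ∫⁻ t, ∫⁻ z, G (a ^ 2 * t) z = ENNReal.ofReal ((a ^ 2)⁻¹) * ∫⁻ t, ∫⁻ z, G t z := by
    have h1 := Measure.map_addHaar_smul (volume : Measure ℝ) hb.ne'
    have h2 : ∫⁻ t, (∫⁻ z, G t z) ∂(Measure.map (a ^ 2 • ·) (volume : Measure ℝ)) =
        ∫⁻ t : ℝ, (fun t => ∫⁻ z, G t z) (a ^ 2 • t) := lintegral_map hG2 (measurable_const_smul _)
    rw [h1, lintegral_smul_measure, Module.finrank_self, pow_one, abs_of_pos (by positivity),
      smul_eq_mul] at h2
    rw [h2]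
    rfl
  have hG3 : Measurable fun t => ∫⁻ z, G (a ^ 2 * t) z := hG2.comp (measurable_const_mul _)
  rw [lintegral_const_mul _ hG3, e2, ← mul_assoc, ← ENNReal.ofReal_mul (by positivity)]
  congr 2
  field_simp

end Pool.Agent.J4.H87.Ray
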