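import Mathlib
import Pool.Agent.J4.H87.RayV
set_option autoImplicit false

/-! Rays: the theorem on the complex plane. -/

namespace Pool.Agent.J4.H87.Ray

open MeasureTheory Complex Set Filter Topology
open scoped ENNReal ComplexConjugate

theorem tsum_pair (F : ℕ → ℝ≥0∞) : ∑' i : ℕ × Fin 7, F i.1 = 7 * ∑' k : ℕ, F k := by
  rw [ENNReal.tsum_prod (f := fun (k : ℕ) (_ : Fin 7) => F k), ← ENNReal.tsum_mul_left]
  refine tsum_congr fun k => ?_
  rw [tsum_fintype, Finset.sum_const, Finset.card_univ, Fintype.card_fin, nsmul_eq_mul]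
  norm_num

theorem V4f_int {q : ℝ} (hq : 0 < q) {V : ℝ → ℝ≥0∞} (hV : Measurable V) (c : ℝ) :
    ∫⁻ θ in Icc c (c + 1), V4f V θ ^ q ≤ 4 ^ q * ∫⁻ θ in Ioo (-Real.pi) Real.pi, V θ ^ q := by
  calc ∫⁻ θ in Icc c (c + 1), V4f V θ ^ q ≤ ∫⁻ θ, V4f V θ ^ q := setLIntegral_le_lintegral _ _
    _ = ∫⁻ θ, (Ioo (-Real.pi) Real.pi).indicator (fun θ => 4 ^ q * V θ ^ q) θ := by
        refine lintegral_congr fun θ => ?_
        unfold V4f
        by_cases h : θ ∈ Ioo (-Real.pi) Real.pi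
        · rw [indicator_of_mem h, indicator_of_mem h, ENNReal.mul_rpow_of_nonneg _ _ hq.le]
        · rw [indicator_of_notMem h, indicator_of_notMem h, ENNReal.zero_rpow_of_pos hq]
    _ = _ := by
        rw [lintegral_indicator measurableSet_Ioo, lintegral_const_mul _ (hV.pow_const q)]

theorem V_fin' {q : ℝ} (hq : 1 ≤ q) {V : ℝ → ℝ≥0∞}
    (hN : ∫⁻ θ in Ioo (-Real.pi) Real.pi, V θ ^ q ≠ ∞) :
    ∫⁻ θ in Ioo (-Real.pi) Real.pi, V θ ≠ ∞ := by
  refine ne_top_of_le_ne_top ?_ (lintegral_mono fun θ => V_le (V := V θ) hq)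
  rw [lintegral_add_left measurable_const, setLIntegral_const, one_mul, Real.volume_Ioo]
  exact ENNReal.add_ne_top.2 ⟨ENNReal.ofReal_ne_top, hN⟩

/-- **The theorem on the complex plane.** -/
theorem ray_C {q : ℝ} (hq3 : 3 < q) :
    ∃ C : ℝ≥0∞, C ≠ ∞ ∧ C ≠ 0 ∧ ∀ (L : ℝ) (y : ℂ) (f : ℂ → ℂ) (V : ℕ → ℝ → ℝ≥0∞), Dat L y f V →
      ∫⁻ t, ∫⁻ z, ‖FT f t z‖ₑ ^ q ≤ C * ∑' k : ℕ,
        ENNReal.ofReal (L ^ (2 * q - 4) * (2 : ℝ) ^ (-((k : ℝ) * (q - 1)))) *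
          ∫⁻ θ in Ioo (-Real.pi) Real.pi, V k θ ^ q := by
  obtain ⟨C0, hC0, hlvl⟩ := lvl hq3
  have hq0 : 0 < q := by linarith
  have hq1 : 1 < q := by linarith
  obtain ⟨s0, hs0⟩ : ∃ s0 : ℝ, s0 = (q - 3) / (q - 1) := ⟨_, rfl⟩
  have hs0p : 0 < s0 := by rw [hs0]; exact div_pos (by linarith) (by linarith)
  have hs0e : s0 * (q - 1) = q - 3 := by
    rw [hs0]
    have : q - 1 ≠ 0 := by linarith
    field_simp
  set C1 : ℝ≥0∞ := (7 * Gs s0) ^ (q - 1) * (C0 * 4 ^ q * 7) with hC1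
  have hC1t : C1 ≠ ∞ := by
    refine ENNReal.mul_ne_top (ENNReal.rpow_ne_top_of_nonneg (by linarith)
      (ENNReal.mul_ne_top (by norm_num) (Gs_fin s0 hs0p))) ?_
    exact ENNReal.mul_ne_top (ENNReal.mul_ne_top hC0
      (ENNReal.rpow_ne_top_of_nonneg hq0.le (by norm_num))) (by norm_num)
  refine ⟨C1 + 1, ENNReal.add_ne_top.2 ⟨hC1t, ENNReal.one_ne_top⟩, by simp, fun L y f V hD => ?_⟩
  have hL0 := hD.L0
  set N : ℕ → ℝ≥0∞ := fun k => ∫⁻ θ in Ioo (-Real.pi) Real.pi, V k θ ^ q with hN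
  set cc : ℕ × Fin 7 → ℝ≥0∞ := fun i => ENNReal.ofReal ((2 : ℝ) ^ (-((i.1 : ℝ) * s0))) with hcc
  have hc0 : ∀ i, cc i ≠ 0 := fun i => by
    simp only [hcc, ne_eq, ENNReal.ofReal_eq_zero, not_le]
    positivity
  have hc1 : ∀ i, cc i ≠ ∞ := fun i => ENNReal.ofReal_ne_top
  have hcs : ∑' i, cc i = 7 * Gs s0 :=
    tsum_pair fun k => ENNReal.ofReal ((2 : ℝ) ^ (-((k : ℝ) * s0)))
  set b : ℕ × Fin 7 → ℝ → ℂ → ℝ≥0∞ := fun i t z => ENNReal.ofReal (lam L i.1 ^ 2) *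
      ‖EP (hpc L y f i.1 i.2) (lam L i.1 ^ 2 * t) ((lam L i.1 : ℂ) * z)‖ₑ with hb
  have hEm : ∀ i : ℕ × Fin 7, Measurable fun p : ℝ × ℂ => ‖EP (hpc L y f i.1 i.2) p.1 p.2‖ₑ := by
    intro i
    have h2 : StronglyMeasurable fun r : (ℝ × ℂ) × ℝ =>
        ∫ ρ, hpc L y f i.1 i.2 r.2 ρ * gr r.1.1 (uf r.2 r.1.2) ρ := by
      have h3 : StronglyMeasurable fun s : ((ℝ × ℂ) × ℝ) × ℝ =>
          hpc L y f i.1 i.2 s.1.2 s.2 * gr s.1.1.1 (uf s.1.2 s.1.1.2) s.2 := by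
        refine Measurable.stronglyMeasurable (Measurable.mul ?_ ?_)
        · show Measurable ((Function.uncurry (hpc L y f i.1 i.2)) ∘
            fun s : ((ℝ × ℂ) × ℝ) × ℝ => (s.1.2, s.2))
          exact (hpc_meas L y hD.m i.1 i.2).comp (by fun_prop)
        · show Measurable ((fun q : (ℝ × ℂ) × (ℝ × ℝ) => gr q.1.1 (uf q.2.1 q.1.2) q.2.2) ∘
            fun s : ((ℝ × ℂ) × ℝ) × ℝ => (s.1.1, (s.1.2, s.2)))
          exact gr_meas.comp (by fun_prop)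
      exact h3.integral_prod_right'
    exact h2.integral_prod_right'.measurable.enorm
  have hbm : ∀ i, Measurable fun p : ℝ × ℂ => b i p.1 p.2 := by
    intro i
    refine Measurable.const_mul ?_ _
    show Measurable ((fun p : ℝ × ℂ => ‖EP (hpc L y f i.1 i.2) p.1 p.2‖ₑ) ∘
      fun p : ℝ × ℂ => (lam L i.1 ^ 2 * p.1, (lam L i.1 : ℂ) * p.2))
    exact (hEm i).comp (by fun_prop)
  have hbm2 : ∀ i t, Measurable fun z : ℂ => b i t z := fun i t => by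
    show Measurable ((fun p : ℝ × ℂ => b i p.1 p.2) ∘ fun z : ℂ => (t, z))
    exact (hbm i).comp (by fun_prop)
  have hpt : ∀ t z, ‖FT (fun w => f (y + w)) t z‖ₑ ^ q ≤
      (7 * Gs s0) ^ (q - 1) * ∑' i, cc i ^ (1 - q) * b i t z ^ q := by
    intro t z
    refine (ENNReal.rpow_le_rpow (FT_pieces hD t z) hq0.le).trans ?_
    have := jensen q hq1 (fun i => b i t z) cc hc0 hc1
    rwa [hcs] at this
  have hbq : ∀ i, ∫⁻ t, ∫⁻ z, b i t z ^ q ≤
      ENNReal.ofReal (lam L i.1 ^ (2 * q - 4)) * (C0 * (4 ^ q * N i.1)) := by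
    intro i
    have hl := lam_pos hL0 i.1
    have hG : Measurable (Function.uncurry fun (t : ℝ) (z : ℂ) =>
        (ENNReal.ofReal (lam L i.1 ^ 2) * ‖EP (hpc L y f i.1 i.2) t z‖ₑ) ^ q) :=
      ((hEm i).const_mul _).pow_const q
    have hG1 : Measurable fun p : ℝ × ℂ => ‖EP (hpc L y f i.1 i.2) p.1 p.2‖ₑ ^ q :=
      (hEm i).pow_const q
    have hG2 : ∀ t, Measurable fun z : ℂ => ‖EP (hpc L y f i.1 i.2) t z‖ₑ ^ q := fun t => by
      show Measurable ((fun p : ℝ × ℂ => ‖EP (hpc L y f i.1 i.2) p.1 p.2‖ₑ ^ q) ∘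
        fun z : ℂ => (t, z))
      exact hG1.comp (by fun_prop)
    have e1 := scale_int hl (fun t z =>
      (ENNReal.ofReal (lam L i.1 ^ 2) * ‖EP (hpc L y f i.1 i.2) t z‖ₑ) ^ q) hG
    have e2 : ∫⁻ t, ∫⁻ z, (ENNReal.ofReal (lam L i.1 ^ 2) *
        ‖EP (hpc L y f i.1 i.2) t z‖ₑ) ^ q = ENNReal.ofReal (lam L i.1 ^ 2) ^ q *
        ∫⁻ t, ∫⁻ z, ‖EP (hpc L y f i.1 i.2) t z‖ₑ ^ q := by
      rw [← lintegral_const_mul _ hG1.lintegral_prod_right']
      refine lintegral_congr fun t => ?_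
      rw [← lintegral_const_mul _ (hG2 t)]
      exact lintegral_congr fun z => ENNReal.mul_rpow_of_nonneg _ _ hq0.le
    have e3 : ENNReal.ofReal ((lam L i.1 ^ 4)⁻¹) * ENNReal.ofReal (lam L i.1 ^ 2) ^ q =
        ENNReal.ofReal (lam L i.1 ^ (2 * q - 4)) := by
      rw [ENNReal.ofReal_rpow_of_nonneg (by positivity) hq0.le, ← ENNReal.ofReal_mul (by positivity)]
      congr 1
      rw [← Real.rpow_natCast, ← Real.rpow_natCast, ← Real.rpow_mul hl.le, ← Real.rpow_neg hl.le,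
        ← Real.rpow_add hl]
      congr 1
      push_cast
      ring
    show ∫⁻ t, ∫⁻ z, (ENNReal.ofReal (lam L i.1 ^ 2) *
      ‖EP (hpc L y f i.1 i.2) (lam L i.1 ^ 2 * t) ((lam L i.1 : ℂ) * z)‖ₑ) ^ q ≤ _
    rw [e1, e2, ← mul_assoc, e3]
    gcongr
    refine (hlvl _ _ _ (hpc_ann hD i.1 i.2)).trans ?_
    gcongr
    exact V4f_int hq0 (hD.mV _) _
  have hcb : ∀ i : ℕ × Fin 7, cc i ^ (1 - q) * ENNReal.ofReal (lam L i.1 ^ (2 * q - 4)) =
      ENNReal.ofReal (L ^ (2 * q - 4) * (2 : ℝ) ^ (-((i.1 : ℝ) * (q - 1)))) := by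
    intro i
    simp only [hcc]
    rw [ENNReal.ofReal_rpow_of_pos (by positivity), ← Real.rpow_mul (by norm_num),
      ← ENNReal.ofReal_mul (by positivity)]
    congr 1
    unfold lam
    rw [Real.div_rpow hL0.le (by positivity), ← Real.rpow_natCast, ← Real.rpow_mul (by norm_num),
      div_eq_mul_inv, ← Real.rpow_neg (by norm_num), mul_left_comm, ← Real.rpow_add (by norm_num)]
    congr 2
    linear_combination (i.1 : ℝ) * hs0e
  have m1 : ∀ i, Measurable fun p : ℝ × ℂ => cc i ^ (1 - q) * b i p.1 p.2 ^ q := fun i =>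
    ((hbm i).pow_const q).const_mul _
  have m2 : Measurable fun p : ℝ × ℂ => ∑' i, cc i ^ (1 - q) * b i p.1 p.2 ^ q :=
    Measurable.tsum m1
  have m3 : ∀ t, Measurable fun z : ℂ => ∑' i, cc i ^ (1 - q) * b i t z ^ q := fun t =>
    Measurable.tsum fun i => ((hbm2 i t).pow_const q).const_mul _
  have m4 : ∀ i, Measurable fun t => ∫⁻ z, b i t z ^ q := fun i =>
    ((hbm i).pow_const q).lintegral_prod_right'
  calc ∫⁻ t, ∫⁻ z, ‖FT f t z‖ₑ ^ q
      = ∫⁻ t, ∫⁻ z, ‖FT (fun w => f (y + w)) t z‖ₑ ^ q :=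
        lintegral_congr fun t => FT_shift f y t q
    _ ≤ ∫⁻ t, ∫⁻ z, (7 * Gs s0) ^ (q - 1) * ∑' i, cc i ^ (1 - q) * b i t z ^ q :=
        lintegral_mono fun t => lintegral_mono fun z => hpt t z
    _ = (7 * Gs s0) ^ (q - 1) * ∑' i, cc i ^ (1 - q) * ∫⁻ t, ∫⁻ z, b i t z ^ q := by
        have e1 : ∀ t, ∫⁻ z, (7 * Gs s0) ^ (q - 1) * ∑' i, cc i ^ (1 - q) * b i t z ^ q =
            (7 * Gs s0) ^ (q - 1) * ∫⁻ z, ∑' i, cc i ^ (1 - q) * b i t z ^ q := fun t =>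
          lintegral_const_mul _ (m3 t)
        simp_rw [e1]
        rw [lintegral_const_mul _ m2.lintegral_prod_right']
        congr 1
        have e2 : ∀ t, ∫⁻ z, ∑' i, cc i ^ (1 - q) * b i t z ^ q =
            ∑' i, cc i ^ (1 - q) * ∫⁻ z, b i t z ^ q := by
          intro t
          rw [lintegral_tsum fun i => (((hbm2 i t).pow_const q).const_mul _).aemeasurable]
          exact tsum_congr fun i => lintegral_const_mul _ ((hbm2 i t).pow_const q)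
        simp_rw [e2]
        rw [lintegral_tsum fun i => ((m4 i).const_mul _).aemeasurable]
        exact tsum_congr fun i => lintegral_const_mul _ (m4 i)
    _ ≤ (7 * Gs s0) ^ (q - 1) * ∑' i : ℕ × Fin 7, (C0 * 4 ^ q) *
          (ENNReal.ofReal (L ^ (2 * q - 4) * (2 : ℝ) ^ (-((i.1 : ℝ) * (q - 1)))) * N i.1) := by
        refine mul_le_mul_right (ENNReal.tsum_le_tsum fun i => ?_) _
        calc cc i ^ (1 - q) * ∫⁻ t, ∫⁻ z, b i t z ^ q
            ≤ cc i ^ (1 - q) * (ENNReal.ofReal (lam L i.1 ^ (2 * q - 4)) *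
                (C0 * (4 ^ q * N i.1))) := by
              gcongr
              exact hbq i
          _ = (cc i ^ (1 - q) * ENNReal.ofReal (lam L i.1 ^ (2 * q - 4))) *
                (C0 * (4 ^ q * N i.1)) := by ring
          _ = _ := by rw [hcb]; ring
    _ = C1 * ∑' k : ℕ, ENNReal.ofReal (L ^ (2 * q - 4) * (2 : ℝ) ^ (-((k : ℝ) * (q - 1)))) *
          N k := by
        rw [ENNReal.tsum_mul_left, tsum_pair fun k =>
          ENNReal.ofReal (L ^ (2 * q - 4) * (2 : ℝ) ^ (-((k : ℝ) * (q - 1)))) * N k]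
        rw [hC1]
        ring
    _ ≤ _ := by
        gcongr
        exact le_self_add

end Pool.Agent.J4.H87.Ray
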