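import Mathlib
import Pool.Agent.J4.H87.RayW
set_option autoImplicit false

/-! Rays: functions with a majorant of the variation, and functions of relatively bounded variation. -/

namespace Pool.Agent.J4.H87.Ray

open MeasureTheory Complex Set Filter Topology
open scoped ENNReal ComplexConjugate

/-- the theorem with hypotheses for almost all directions -/
theorem ray_ae {q : ℝ} (hq3 : 3 < q) :
    ∃ C : ℝ≥0∞, C ≠ ∞ ∧ C ≠ 0 ∧ ∀ (L : ℝ) (y : ℂ) (f : ℂ → ℂ) (V : ℕ → ℝ → ℝ≥0∞), 0 < L →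
      Measurable f → Integrable f → (∀ k, Measurable (V k)) → (∀ w, L < ‖w‖ → f (y + w) = 0) →
      (∀ᵐ θ ∂(volume.restrict (Ioo (-Real.pi) Real.pi)), ∀ k,
        (∀ r ∈ Icc (lam L k / 2) (lam L k), ‖f (y + (r : ℂ) * ec θ)‖ₑ ≤ V k θ) ∧
        eVariationOn (fun r : ℝ => f (y + (r : ℂ) * ec θ)) (Icc (lam L k / 2) (lam L k)) ≤ V k θ) →
      ∫⁻ t, ∫⁻ z, ‖FT f t z‖ₑ ^ q ≤ C * ∑' k : ℕ,
        ENNReal.ofReal (L ^ (2 * q - 4) * (2 : ℝ) ^ (-((k : ℝ) * (q - 1)))) *
          ∫⁻ θ in Ioo (-Real.pi) Real.pi, V k θ ^ q := by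
  obtain ⟨C, hC, hC0, h⟩ := ray_C hq3
  refine ⟨C, hC, hC0, fun L y f V hL hf hfi hV hs hae => ?_⟩
  rw [ae_iff] at hae
  set N0 : Set ℝ := {θ | ¬ ∀ k,
        (∀ r ∈ Icc (lam L k / 2) (lam L k), ‖f (y + (r : ℂ) * ec θ)‖ₑ ≤ V k θ) ∧
        eVariationOn (fun r : ℝ => f (y + (r : ℂ) * ec θ)) (Icc (lam L k / 2) (lam L k)) ≤ V k θ}
    with hN0
  set N : Set ℝ := toMeasurable (volume.restrict (Ioo (-Real.pi) Real.pi)) N0 with hN
  have hNm : MeasurableSet N := measurableSet_toMeasurable _ _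
  have hNz : volume.restrict (Ioo (-Real.pi) Real.pi) N = 0 := by
    rw [hN, measure_toMeasurable]; exact hae
  set V' : ℕ → ℝ → ℝ≥0∞ := fun k θ => N.indicator (fun _ => ∞) θ + V k θ with hV'
  have hD : Dat L y f V' := by
    refine ⟨hL, hf, hfi, fun k => (measurable_const.indicator hNm).add (hV k), hs, ?_, ?_⟩
    · intro k θ _ r hr
      by_cases hθN : θ ∈ N
      · simp only [hV', indicator_of_mem hθN, top_add]; exact le_top
      · have : θ ∉ N0 := fun h => hθN (subset_toMeasurable _ _ h)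
        have h1 := (not_not.1 this k).1 r hr
        simp only [hV', indicator_of_notMem hθN, zero_add]
        exact h1
    · intro k θ _
      by_cases hθN : θ ∈ N
      · simp only [hV', indicator_of_mem hθN, top_add]; exact le_top
      · have : θ ∉ N0 := fun h => hθN (subset_toMeasurable _ _ h)
        have h1 := (not_not.1 this k).2
        simp only [hV', indicator_of_notMem hθN, zero_add]
        exact h1
  refine (h L y f V' hD).trans (le_of_eq ?_)
  congr 1
  refine tsum_congr fun k => ?_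
  congr 1
  refine lintegral_congr_ae ?_
  have h2 : ∀ᵐ θ ∂(volume.restrict (Ioo (-Real.pi) Real.pi)), θ ∉ N := by
    rw [ae_iff]
    simpa using hNz
  filter_upwards [h2] with θ hθ
  simp only [hV', indicator_of_notMem hθ, zero_add]

theorem geo_q {q : ℝ} (L : ℝ) (hL : 0 < L) (N : ℝ≥0∞) :
    ∑' k : ℕ, ENNReal.ofReal (L ^ (2 * q - 4) * (2 : ℝ) ^ (-((k : ℝ) * (q - 1)))) * N =
      Gs (q - 1) * ENNReal.ofReal (L ^ (2 * q - 4)) * N := by
  rw [ENNReal.tsum_mul_right]
  congr 1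
  have : ∀ k : ℕ, ENNReal.ofReal (L ^ (2 * q - 4) * (2 : ℝ) ^ (-((k : ℝ) * (q - 1)))) =
      ENNReal.ofReal (L ^ (2 * q - 4)) * ENNReal.ofReal ((2 : ℝ) ^ (-((k : ℝ) * (q - 1)))) :=
    fun k => ENNReal.ofReal_mul (by positivity)
  simp_rw [this]
  rw [ENNReal.tsum_mul_left, mul_comm]
  rfl

theorem polar_lint (y : ℂ) (F : ℂ → ℝ≥0∞) (hF : Measurable F) :
    ∫⁻ θ in Ioo (-Real.pi) Real.pi, ∫⁻ r in Ioi (0 : ℝ), ENNReal.ofReal r * F (y + (r : ℂ) * ec θ) =
      ∫⁻ w, F w := by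
  have h1 := Complex.lintegral_comp_polarCoord_symm (fun w => F (y + w))
  have ht : polarCoord.target = Ioi (0 : ℝ) ×ˢ Ioo (-Real.pi) Real.pi := rfl
  rw [ht] at h1
  rw [← lintegral_add_left_eq_self (μ := (volume : Measure ℂ)) F y, ← h1]
  have hm : Measurable fun p : ℝ × ℝ => ENNReal.ofReal p.1 * F (y + (p.1 : ℂ) * ec p.2) := by
    refine measurable_fst.ennreal_ofReal.mul (hF.comp (measurable_const.add ?_))
    exact (Complex.measurable_ofReal.comp measurable_fst).mul (ec_meas.comp measurable_snd)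
  have e1 : ∫⁻ p in Ioi (0 : ℝ) ×ˢ Ioo (-Real.pi) Real.pi,
      ENNReal.ofReal p.1 • F (y + Complex.polarCoord.symm p) =
      ∫⁻ p in Ioi (0 : ℝ) ×ˢ Ioo (-Real.pi) Real.pi,
        ENNReal.ofReal p.1 * F (y + (p.1 : ℂ) * ec p.2) := by
    refine lintegral_congr fun p => ?_
    rw [polar_symm, smul_eq_mul]
  rw [e1, Measure.volume_eq_prod, ← Measure.prod_restrict,
    lintegral_prod_symm _ hm.aemeasurable]

/-- functions with a majorant of the variation along the rays -/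
theorem partA {q : ℝ} (hq3 : 3 < q) :
    ∃ C : ℝ≥0∞, C ≠ ∞ ∧ C ≠ 0 ∧ ∀ (L : ℝ) (y : ℂ) (f : ℂ → ℂ) (V : ℝ → ℝ≥0∞), 0 < L →
      Measurable f → Measurable V → (∀ w, L < ‖w‖ → f (y + w) = 0) →
      (∀ᵐ θ ∂(volume.restrict (Ioo (-Real.pi) Real.pi)),
        eVariationOn (fun r : ℝ => f (y + (r : ℂ) * ec θ)) (Ioi 0) ≤ V θ) →
      ∫⁻ t, ∫⁻ z, ‖FT f t z‖ₑ ^ q ≤
        C * ENNReal.ofReal (L ^ (2 * q - 4)) * ∫⁻ θ in Ioo (-Real.pi) Real.pi, V θ ^ q := by
  obtain ⟨C, hC, hC0, h⟩ := ray_ae hq3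
  have hG0 : Gs (q - 1) ≠ 0 := by
    intro h0
    unfold Gs at h0
    rw [ENNReal.tsum_eq_zero] at h0
    have := h0 0
    simp at this
  refine ⟨C * Gs (q - 1), ENNReal.mul_ne_top hC (Gs_fin _ (by linarith)), mul_ne_zero hC0 hG0,
    fun L y f V hL hf hV hs hae => ?_⟩
  rcases eq_or_ne (∫⁻ θ in Ioo (-Real.pi) Real.pi, V θ ^ q) ∞ with hNt | hNt
  · have h1 : ENNReal.ofReal (L ^ (2 * q - 4)) ≠ 0 := by
      simp only [ne_eq, ENNReal.ofReal_eq_zero, not_le]
      positivity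
    rw [hNt, ENNReal.mul_top (mul_ne_zero (mul_ne_zero hC0 hG0) h1)]
    exact le_top
  have hVf := V_fin' (by linarith : 1 ≤ q) hNt
  -- the function is bounded by `V` along the rays
  have hbd : ∀ θ, eVariationOn (fun r : ℝ => f (y + (r : ℂ) * ec θ)) (Ioi 0) ≤ V θ →
      ∀ r : ℝ, 0 < r → ‖f (y + (r : ℂ) * ec θ)‖ₑ ≤ V θ := by
    intro θ hθ
    have hFm : Measurable fun r : ℝ => f (y + (r : ℂ) * ec θ) :=
      hf.comp (measurable_const.add (Complex.measurable_ofReal.mul_const _))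
    exact (VF.of_var (F := fun r : ℝ => f (y + (r : ℂ) * ec θ)) hFm (L := L) (fun r hr => hs _ (by
      rw [norm_mul, ec_norm, mul_one, Complex.norm_real, Real.norm_eq_abs]
      exact lt_of_lt_of_le hr (le_abs_self r))) hθ).b
  have hfi : Integrable f := by
    refine ⟨hf.aestronglyMeasurable, ?_⟩
    unfold HasFiniteIntegral
    rw [← polar_lint y (fun w => ‖f w‖ₑ) hf.enorm]
    refine lt_of_le_of_lt (lintegral_mono_ae (g := fun θ => ENNReal.ofReal L * V θ *
      ENNReal.ofReal L) ?_) ?_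
    · filter_upwards [hae] with θ hθ
      calc ∫⁻ r in Ioi (0 : ℝ), ENNReal.ofReal r * ‖f (y + (r : ℂ) * ec θ)‖ₑ
          ≤ ∫⁻ r, (Ioc (0 : ℝ) L).indicator (fun _ => ENNReal.ofReal L * V θ) r := by
            rw [← lintegral_indicator measurableSet_Ioi]
            refine lintegral_mono fun r => ?_
            by_cases hr : r ∈ Ioi (0 : ℝ)
            · rw [indicator_of_mem hr]
              by_cases hrL : r ≤ L
              · rw [indicator_of_mem (show r ∈ Ioc (0 : ℝ) L from ⟨hr, hrL⟩)]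
                exact mul_le_mul' (ENNReal.ofReal_le_ofReal hrL) (hbd θ hθ r hr)
              · rw [hs _ (by
                  rw [norm_mul, ec_norm, mul_one, Complex.norm_real, Real.norm_eq_abs]
                  exact lt_of_lt_of_le (not_le.1 hrL) (le_abs_self r))]
                simp
            · rw [indicator_of_notMem hr]; exact zero_le
        _ = ENNReal.ofReal L * V θ * ENNReal.ofReal L := by
            rw [lintegral_indicator measurableSet_Ioc, setLIntegral_const, Real.volume_Ioc, sub_zero]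
    · rw [lintegral_mul_const _ (hV.const_mul _), lintegral_const_mul _ hV]
      exact (ENNReal.mul_ne_top (ENNReal.mul_ne_top ENNReal.ofReal_ne_top hVf)
        ENNReal.ofReal_ne_top).lt_top
  have h1 := h L y f (fun _ => V) hL hf hfi (fun _ => hV) hs (by
    filter_upwards [hae] with θ hθ
    intro k
    have hl := lam_pos hL k
    refine ⟨fun r hr => hbd θ hθ r (by linarith [hr.1]), ?_⟩
    refine (eVariationOn.mono _ fun r hr => ?_).trans hθ
    show (0 : ℝ) < r
    linarith [hr.1])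
  rw [geo_q L hL] at h1
  refine h1.trans (le_of_eq ?_)
  ring

end Pool.Agent.J4.H87.Ray
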