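import Mathlib
import Pool.Agent.J4.H87.RayX
set_option autoImplicit false

/-! Rays: functions of relatively bounded variation along the rays. -/

namespace Pool.Agent.J4.H87.Ray

open MeasureTheory Complex Set Filter Topology
open scoped ENNReal ComplexConjugate

/-- On every dyadic piece of the half line the variation of `F` is at most `K` times its mean over
the enlarged piece. -/
def RelBV (K : ℝ) (F : ℝ → ℂ) : Prop :=
  ∀ l : ℝ, 0 < l → eVariationOn F (Icc (l / 2) l) ≤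
    ENNReal.ofReal (K / l) * ∫⁻ r in Ioc (l / 8) (8 * l), ‖F r‖ₑ

theorem RelBV.sup {K : ℝ} (hK : 0 ≤ K) {F : ℝ → ℂ} (hF : Measurable F) (h : RelBV K F) {l : ℝ}
    (hl : 0 < l) {r : ℝ} (hr : r ∈ Icc (l / 2) l) :
    ‖F r‖ₑ ≤ ENNReal.ofReal ((K + 2) / l) * ∫⁻ r in Ioc (l / 8) (8 * l), ‖F r‖ₑ := by
  set J : ℝ≥0∞ := ∫⁻ r in Ioc (l / 8) (8 * l), ‖F r‖ₑ with hJ
  have h1 : ∀ s ∈ Ioc (l / 2) l, ‖F r‖ₑ ≤ ‖F s‖ₑ + ENNReal.ofReal (K / l) * J := by
    intro s hs
    have h2 := eVariationOn.edist_le F (s := Icc (l / 2) l) hr ⟨hs.1.le, hs.2⟩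
    have h3 : ‖F r‖ₑ ≤ ‖F s‖ₑ + edist (F r) (F s) := by
      rw [edist_eq_enorm_sub]
      calc ‖F r‖ₑ = ‖F s + (F r - F s)‖ₑ := by rw [add_sub_cancel]
        _ ≤ _ := enorm_add_le _ _
    exact h3.trans (by gcongr; exact h2.trans (h l hl))
  have h2 : ENNReal.ofReal (l / 2) * ‖F r‖ₑ ≤ J + ENNReal.ofReal (l / 2) *
      (ENNReal.ofReal (K / l) * J) := by
    calc ENNReal.ofReal (l / 2) * ‖F r‖ₑ = ∫⁻ s in Ioc (l / 2) l, ‖F r‖ₑ := by
          rw [setLIntegral_const, Real.volume_Ioc, mul_comm]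
          congr 2
          ring
      _ ≤ ∫⁻ s in Ioc (l / 2) l, (‖F s‖ₑ + ENNReal.ofReal (K / l) * J) :=
          setLIntegral_mono' measurableSet_Ioc h1
      _ = (∫⁻ s in Ioc (l / 2) l, ‖F s‖ₑ) + ENNReal.ofReal (l / 2) *
          (ENNReal.ofReal (K / l) * J) := by
          rw [lintegral_add_left hF.enorm, setLIntegral_const, Real.volume_Ioc,
            mul_comm (ENNReal.ofReal (K / l) * J)]
          congr 3
          ring
      _ ≤ _ := by
          gcongr
          refine lintegral_mono_set fun s hs => ⟨by linarith [hs.1], by linarith [hs.2]⟩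
  have hl2 : ENNReal.ofReal (l / 2) ≠ 0 := by
    simp only [ne_eq, ENNReal.ofReal_eq_zero, not_le]; positivity
  calc ‖F r‖ₑ = ENNReal.ofReal (2 / l) * (ENNReal.ofReal (l / 2) * ‖F r‖ₑ) := by
        rw [← mul_assoc, ← ENNReal.ofReal_mul (by positivity)]
        have : 2 / l * (l / 2) = 1 := by field_simp
        rw [this, ENNReal.ofReal_one, one_mul]
    _ ≤ ENNReal.ofReal (2 / l) * (J + ENNReal.ofReal (l / 2) * (ENNReal.ofReal (K / l) * J)) := by
        gcongr
    _ = ENNReal.ofReal (2 / l) * J + ENNReal.ofReal (K / l) * J := by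
        rw [mul_add, ← mul_assoc (ENNReal.ofReal (2 / l)) (ENNReal.ofReal (l / 2)),
          ← ENNReal.ofReal_mul (by positivity)]
        have : 2 / l * (l / 2) = 1 := by field_simp
        rw [this, ENNReal.ofReal_one, one_mul]
    _ = _ := by
        rw [← add_mul, ← ENNReal.ofReal_add (by positivity) (by positivity)]
        congr 2
        ring

theorem mean_q {q : ℝ} (hq : 1 < q) (g : ℝ → ℝ≥0∞) (hg : Measurable g) (S : Set ℝ) :
    (∫⁻ r in S, g r) ^ q ≤ volume S ^ (q - 1) * ∫⁻ r in S, g r ^ q := by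
  have hq0 : 0 < q := by linarith
  have hq1 : 0 < q - 1 := by linarith
  have hpq : Real.HolderConjugate q (q / (q - 1)) := by
    rw [Real.holderConjugate_iff]
    refine ⟨hq, ?_⟩
    field_simp
    ring
  have h := ENNReal.lintegral_mul_le_Lp_mul_Lq (volume.restrict S) hpq (f := g)
    (g := fun _ => 1) hg.aemeasurable measurable_const.aemeasurable
  simp only [Pi.mul_apply, mul_one, ENNReal.one_rpow, lintegral_one, Measure.restrict_apply_univ]
    at h
  calc (∫⁻ r in S, g r) ^ q ≤ ((∫⁻ r in S, g r ^ q) ^ (1 / q) *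
        volume S ^ (1 / (q / (q - 1)))) ^ q := by gcongr
    _ = _ := by
        rw [ENNReal.mul_rpow_of_nonneg _ _ hq0.le, ← ENNReal.rpow_mul, ← ENNReal.rpow_mul, mul_comm]
        congr 1
        · congr 1
          field_simp
        · rw [one_div_mul_cancel hq0.ne', ENNReal.rpow_one]

/-- the mean of `g` over the enlarged dyadic piece -/
noncomputable def VG (L : ℝ) (y : ℂ) (c : ℝ) (g : ℂ → ℝ≥0∞) (k : ℕ) (θ : ℝ) : ℝ≥0∞ :=
  ENNReal.ofReal (c / lam L k) *
    ∫⁻ r in Ioc (lam L k / 8) (8 * lam L k), g (y + (r : ℂ) * ec θ)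

theorem ray_measG (y : ℂ) {g : ℂ → ℝ≥0∞} (hg : Measurable g) :
    Measurable fun p : ℝ × ℝ => g (y + (p.2 : ℂ) * ec p.1) :=
  hg.comp (measurable_const.add ((Complex.measurable_ofReal.comp measurable_snd).mul
    (ec_meas.comp measurable_fst)))

theorem VG_meas (L : ℝ) (y : ℂ) (c : ℝ) {g : ℂ → ℝ≥0∞} (hg : Measurable g) (k : ℕ) :
    Measurable (VG L y c g k) := by
  unfold VG
  exact (Measurable.lintegral_prod_right' (ray_measG y hg)).const_mul _

theorem VG_int {q : ℝ} (hq : 1 < q) {L : ℝ} (hL : 0 < L) (y : ℂ) {c : ℝ} (hc : 0 < c)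
    {g : ℂ → ℝ≥0∞} (hg : Measurable g) (k : ℕ) :
    ∫⁻ θ in Ioo (-Real.pi) Real.pi, VG L y c g k θ ^ q ≤
      ENNReal.ofReal ((8 * c) ^ q * (lam L k ^ 2)⁻¹) * ∫⁻ w, g w ^ q := by
  have hq0 : 0 < q := by linarith
  have hl := lam_pos hL k
  set l : ℝ := lam L k with hldef
  have hpt : ∀ θ, VG L y c g k θ ^ q ≤ ENNReal.ofReal ((8 * c) ^ q * (l ^ 2)⁻¹) *
      ∫⁻ r in Ioi (0 : ℝ), ENNReal.ofReal r * g (y + (r : ℂ) * ec θ) ^ q := by
    intro θ
    have hgr : Measurable fun r : ℝ => g (y + (r : ℂ) * ec θ) :=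
      hg.comp (measurable_const.add (Complex.measurable_ofReal.mul_const _))
    have h1 := mean_q hq _ hgr (Ioc (l / 8) (8 * l))
    unfold VG
    rw [ENNReal.mul_rpow_of_nonneg _ _ hq0.le, ENNReal.ofReal_rpow_of_nonneg (by positivity) hq0.le]
    have h2 : volume (Ioc (l / 8) (8 * l)) ≤ ENNReal.ofReal (8 * l) := by
      rw [Real.volume_Ioc]
      exact ENNReal.ofReal_le_ofReal (by linarith)
    have h3 : ∫⁻ r in Ioc (l / 8) (8 * l), g (y + (r : ℂ) * ec θ) ^ q ≤
        ENNReal.ofReal (8 / l) * ∫⁻ r in Ioi (0 : ℝ),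
          ENNReal.ofReal r * g (y + (r : ℂ) * ec θ) ^ q := by
      have hgm : Measurable fun r : ℝ => ENNReal.ofReal r * g (y + (r : ℂ) * ec θ) ^ q :=
        ENNReal.measurable_ofReal.mul (hgr.pow_const q)
      rw [← lintegral_const_mul _ hgm]
      refine le_trans ?_ (lintegral_mono_set (s := Ioc (l / 8) (8 * l)) fun r hr => ?_)
      · refine setLIntegral_mono' measurableSet_Ioc fun r hr => ?_
        rw [← mul_assoc, ← ENNReal.ofReal_mul (by positivity)]
        have h4 : (1 : ℝ) ≤ 8 / l * r := by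
          have := hr.1
          rw [div_mul_eq_mul_div, le_div_iff₀ hl]
          linarith
        calc g (y + (r : ℂ) * ec θ) ^ q = 1 * g (y + (r : ℂ) * ec θ) ^ q := (one_mul _).symm
          _ ≤ _ := by
              gcongr
              rw [← ENNReal.ofReal_one]
              exact ENNReal.ofReal_le_ofReal h4
      · show (0 : ℝ) < r
        linarith [hr.1]
    calc ENNReal.ofReal ((c / l) ^ q) *
          (∫⁻ r in Ioc (l / 8) (8 * l), g (y + (r : ℂ) * ec θ)) ^ q
        ≤ ENNReal.ofReal ((c / l) ^ q) * (ENNReal.ofReal (8 * l) ^ (q - 1) *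
          (ENNReal.ofReal (8 / l) * ∫⁻ r in Ioi (0 : ℝ),
            ENNReal.ofReal r * g (y + (r : ℂ) * ec θ) ^ q)) := by
          gcongr
          refine h1.trans ?_
          gcongr
      _ = _ := by
          rw [ENNReal.ofReal_rpow_of_nonneg (by positivity) (by linarith), ← mul_assoc, ← mul_assoc,
            ← ENNReal.ofReal_mul (by positivity), ← ENNReal.ofReal_mul (by positivity)]
          congr 2
          rw [Real.div_rpow (by positivity) hl.le, Real.mul_rpow (by norm_num) hl.le,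
            Real.mul_rpow (by norm_num) (by positivity), Real.rpow_sub_one (by norm_num),
            Real.rpow_sub_one hl.ne']
          field_simp
  calc ∫⁻ θ in Ioo (-Real.pi) Real.pi, VG L y c g k θ ^ q
      ≤ ∫⁻ θ in Ioo (-Real.pi) Real.pi, ENNReal.ofReal ((8 * c) ^ q * (l ^ 2)⁻¹) *
          ∫⁻ r in Ioi (0 : ℝ), ENNReal.ofReal r * g (y + (r : ℂ) * ec θ) ^ q :=
        lintegral_mono fun θ => hpt θ
    _ = ENNReal.ofReal ((8 * c) ^ q * (l ^ 2)⁻¹) * ∫⁻ θ in Ioo (-Real.pi) Real.pi,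
          ∫⁻ r in Ioi (0 : ℝ), ENNReal.ofReal r * g (y + (r : ℂ) * ec θ) ^ q := by
        rw [lintegral_const_mul]
        refine Measurable.lintegral_prod_right' (f := fun p : ℝ × ℝ =>
          ENNReal.ofReal p.2 * g (y + (p.2 : ℂ) * ec p.1) ^ q) ?_
        exact measurable_snd.ennreal_ofReal.mul ((ray_measG y hg).pow_const q)
    _ = _ := by rw [polar_lint y (fun w => g w ^ q) (hg.pow_const q)]

/-- the common form: absolute value and variation on the dyadic pieces are bounded by means -/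
theorem core {q : ℝ} (hq3 : 3 < q) :
    ∃ C : ℝ≥0∞, C ≠ ∞ ∧ C ≠ 0 ∧ ∀ (L : ℝ) (y : ℂ) (c : ℝ) (f : ℂ → ℂ) (g : ℂ → ℝ≥0∞), 0 < L →
      0 < c → Measurable f → Measurable g → (∀ w, ‖f w‖ₑ ≤ g w) →
      (∀ w, L < ‖w‖ → f (y + w) = 0) →
      (∀ᵐ θ ∂(volume.restrict (Ioo (-Real.pi) Real.pi)), ∀ k,
        (∀ r ∈ Icc (lam L k / 2) (lam L k), ‖f (y + (r : ℂ) * ec θ)‖ₑ ≤ VG L y c g k θ) ∧
        eVariationOn (fun r : ℝ => f (y + (r : ℂ) * ec θ)) (Icc (lam L k / 2) (lam L k)) ≤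
          VG L y c g k θ) →
      ∫⁻ t, ∫⁻ z, ‖FT f t z‖ₑ ^ q ≤
        C * ENNReal.ofReal (c ^ q * L ^ (2 * q - 6)) * ∫⁻ w, g w ^ q := by
  obtain ⟨C, hC, hC0, h⟩ := ray_ae hq3
  have hG0 : Gs (q - 3) ≠ 0 := by
    intro h0
    unfold Gs at h0
    rw [ENNReal.tsum_eq_zero] at h0
    have := h0 0
    simp at this
  have h80 : ENNReal.ofReal (8 ^ q) ≠ 0 := by
    simp only [ne_eq, ENNReal.ofReal_eq_zero, not_le]; positivity
  refine ⟨C * Gs (q - 3) * ENNReal.ofReal (8 ^ q), ENNReal.mul_ne_top (ENNReal.mul_ne_top hC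
    (Gs_fin _ (by linarith))) ENNReal.ofReal_ne_top, mul_ne_zero (mul_ne_zero hC0 hG0) h80,
    fun L y c f g hL hc hf hg hfg hs hae => ?_⟩
  rcases eq_or_ne (∫⁻ w, g w ^ q) ∞ with hNt | hNt
  · have h1 : ENNReal.ofReal (c ^ q * L ^ (2 * q - 6)) ≠ 0 := by
      simp only [ne_eq, ENNReal.ofReal_eq_zero, not_le]
      positivity
    rw [hNt, ENNReal.mul_top (mul_ne_zero (mul_ne_zero (mul_ne_zero hC0 hG0) h80) h1)]
    exact le_top
  have hfi : Integrable f := by
    refine ⟨hf.aestronglyMeasurable, ?_⟩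
    unfold HasFiniteIntegral
    calc ∫⁻ w, ‖f w‖ₑ ≤ ∫⁻ w, ((Metric.closedBall y L).indicator (fun _ => 1) w + g w ^ q) := by
          refine lintegral_mono fun w => ?_
          by_cases hw : w ∈ Metric.closedBall y L
          · rw [indicator_of_mem hw]
            exact (hfg w).trans (V_le (by linarith))
          · have : f w = 0 := by
              have h1 := hs (w - y) (by
                rw [Metric.mem_closedBall, dist_eq_norm] at hw
                exact not_le.1 hw)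
              rwa [add_sub_cancel] at h1
            rw [this]
            simp
      _ < ∞ := by
          rw [lintegral_add_left (measurable_const.indicator Metric.isClosed_closedBall.measurableSet),
            lintegral_indicator Metric.isClosed_closedBall.measurableSet, setLIntegral_const, one_mul]
          exact ENNReal.add_lt_top.2 ⟨measure_closedBall_lt_top, hNt.lt_top⟩
  have h1 := h L y f (VG L y c g) hL hf hfi (VG_meas L y c hg) hs hae
  refine h1.trans ?_
  set N : ℝ≥0∞ := ∫⁻ w, g w ^ q with hN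
  calc C * ∑' k : ℕ, ENNReal.ofReal (L ^ (2 * q - 4) * (2 : ℝ) ^ (-((k : ℝ) * (q - 1)))) *
        ∫⁻ θ in Ioo (-Real.pi) Real.pi, VG L y c g k θ ^ q
      ≤ C * ∑' k : ℕ, (ENNReal.ofReal (8 ^ q) * ENNReal.ofReal (c ^ q * L ^ (2 * q - 6)) * N) *
          ENNReal.ofReal ((2 : ℝ) ^ (-((k : ℝ) * (q - 3)))) := by
        refine mul_le_mul_right (ENNReal.tsum_le_tsum fun k => ?_) _
        calc ENNReal.ofReal (L ^ (2 * q - 4) * (2 : ℝ) ^ (-((k : ℝ) * (q - 1)))) *
              ∫⁻ θ in Ioo (-Real.pi) Real.pi, VG L y c g k θ ^ q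
            ≤ ENNReal.ofReal (L ^ (2 * q - 4) * (2 : ℝ) ^ (-((k : ℝ) * (q - 1)))) *
              (ENNReal.ofReal ((8 * c) ^ q * (lam L k ^ 2)⁻¹) * N) := by
              gcongr
              exact VG_int (by linarith) hL y hc hg k
          _ = _ := by
              have e1 : L ^ (2 * q - 4) * (2 : ℝ) ^ (-((k : ℝ) * (q - 1))) *
                  ((8 * c) ^ q * (lam L k ^ 2)⁻¹) =
                  8 ^ q * (c ^ q * L ^ (2 * q - 6)) * (2 : ℝ) ^ (-((k : ℝ) * (q - 3))) := by
                have e2 : L ^ (2 * q - 6) = L ^ (2 * q - 4) * (L ^ 2)⁻¹ := by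
                  rw [← Real.rpow_natCast L 2, ← Real.rpow_neg hL.le, ← Real.rpow_add hL]
                  congr 1
                  push_cast
                  ring
                have e3 : (2 : ℝ) ^ (-((k : ℝ) * (q - 3))) =
                    (2 : ℝ) ^ (-((k : ℝ) * (q - 1))) * ((2 : ℝ) ^ k) ^ 2 := by
                  rw [← pow_mul, ← Real.rpow_natCast 2 (k * 2), ← Real.rpow_add (by norm_num)]
                  congr 1
                  push_cast
                  ring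
                rw [e2, e3, Real.mul_rpow (by norm_num) (by positivity)]
                unfold lam
                field_simp
              rw [← mul_assoc, ← ENNReal.ofReal_mul (by positivity), e1,
                ENNReal.ofReal_mul (by positivity), ENNReal.ofReal_mul (by positivity)]
              ring
    _ = _ := by
        rw [ENNReal.tsum_mul_left]
        show C * (ENNReal.ofReal (8 ^ q) * ENNReal.ofReal (c ^ q * L ^ (2 * q - 6)) * N *
          Gs (q - 3)) = _
        ring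

/-- functions of relatively bounded variation along the rays -/
theorem partB {q : ℝ} (hq3 : 3 < q) :
    ∃ C : ℝ≥0∞, C ≠ ∞ ∧ ∀ (L : ℝ) (y : ℂ) (K : ℝ) (f : ℂ → ℂ), 0 < L → 0 ≤ K →
      Measurable f → (∀ w, L < ‖w‖ → f (y + w) = 0) →
      (∀ᵐ θ ∂(volume.restrict (Ioo (-Real.pi) Real.pi)),
        RelBV K fun r : ℝ => f (y + (r : ℂ) * ec θ)) →
      ∫⁻ t, ∫⁻ z, ‖FT f t z‖ₑ ^ q ≤
        C * ENNReal.ofReal ((K + 2) ^ q * L ^ (2 * q - 6)) * ∫⁻ w, ‖f w‖ₑ ^ q := by
  obtain ⟨C, hC, -, h⟩ := core hq3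
  refine ⟨C, hC, fun L y K f hL hK hf hs hae => ?_⟩
  refine h L y (K + 2) f (fun w => ‖f w‖ₑ) hL (by linarith) hf hf.enorm (fun _ => le_rfl) hs ?_
  filter_upwards [hae] with θ hθ
  intro k
  have hl := lam_pos hL k
  have hFm : Measurable fun r : ℝ => f (y + (r : ℂ) * ec θ) :=
    hf.comp (measurable_const.add (Complex.measurable_ofReal.mul_const _))
  refine ⟨fun r hr => hθ.sup hK hFm hl hr, (hθ _ hl).trans ?_⟩
  unfold VG
  gcongr
  linarith

/-- all functions, with a majorant of the variation on the right hand side -/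
theorem partU {q : ℝ} (hq3 : 3 < q) :
    ∃ C : ℝ≥0∞, C ≠ ∞ ∧ ∀ (L : ℝ) (y : ℂ) (f : ℂ → ℂ) (v : ℂ → ℝ≥0∞), 0 < L →
      Measurable f → Measurable v → (∀ w, L < ‖w‖ → f (y + w) = 0) →
      (∀ᵐ θ ∂(volume.restrict (Ioo (-Real.pi) Real.pi)), ∀ r : ℝ, 0 < r →
        eVariationOn (fun r : ℝ => f (y + (r : ℂ) * ec θ)) (Icc (r / 2) (2 * r)) ≤
          v (y + (r : ℂ) * ec θ)) →
      ∫⁻ t, ∫⁻ z, ‖FT f t z‖ₑ ^ q ≤
        C * ENNReal.ofReal (2 ^ q * L ^ (2 * q - 6)) * ∫⁻ w, (‖f w‖ₑ + v w) ^ q := by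
  obtain ⟨C, hC, -, h⟩ := core hq3
  refine ⟨C, hC, fun L y f v hL hf hv hs hae => ?_⟩
  refine h L y 2 f (fun w => ‖f w‖ₑ + v w) hL (by norm_num) hf (hf.enorm.add hv)
    (fun _ => le_self_add) hs ?_
  filter_upwards [hae] with θ hθ
  intro k
  have hl := lam_pos hL k
  set l : ℝ := lam L k with hldef
  set F : ℝ → ℂ := fun r : ℝ => f (y + (r : ℂ) * ec θ) with hF
  have hvar : ∀ s ∈ Ioc (l / 2) l, eVariationOn F (Icc (l / 2) l) ≤ v (y + (s : ℂ) * ec θ) := by
    intro s hs1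
    refine le_trans (eVariationOn.mono _ ?_) (hθ s (by linarith [hs1.1]))
    exact Icc_subset_Icc (by linarith [hs1.2]) (by linarith [hs1.1])
  have hmean : ∀ x : ℝ≥0∞, (∀ s ∈ Ioc (l / 2) l, x ≤ ‖F s‖ₑ + v (y + (s : ℂ) * ec θ)) →
      x ≤ VG L y 2 (fun w => ‖f w‖ₑ + v w) k θ := by
    intro x hx
    have h2 : x * ENNReal.ofReal (l / 2) ≤
        ∫⁻ r in Ioc (l / 8) (8 * l), (‖F r‖ₑ + v (y + (r : ℂ) * ec θ)) := by
      calc x * ENNReal.ofReal (l / 2) = ∫⁻ s in Ioc (l / 2) l, x := by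
            rw [setLIntegral_const, Real.volume_Ioc]
            congr 2
            ring
        _ ≤ ∫⁻ s in Ioc (l / 2) l, (‖F s‖ₑ + v (y + (s : ℂ) * ec θ)) :=
            setLIntegral_mono' measurableSet_Ioc hx
        _ ≤ _ := lintegral_mono_set (Ioc_subset_Ioc (by linarith) (by linarith))
    calc x = ENNReal.ofReal (2 / l) * (x * ENNReal.ofReal (l / 2)) := by
          rw [mul_comm x, ← mul_assoc, ← ENNReal.ofReal_mul (by positivity)]
          have : 2 / l * (l / 2) = 1 := by field_simp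
          rw [this, ENNReal.ofReal_one, one_mul]
      _ ≤ _ := by
          unfold VG
          gcongr
  refine ⟨fun r hr => hmean _ fun s hs1 => ?_, hmean _ fun s hs1 => (hvar s hs1).trans le_add_self⟩
  have h2 := eVariationOn.edist_le F (s := Icc (l / 2) l) hr ⟨hs1.1.le, hs1.2⟩
  have h3 : ‖F r‖ₑ ≤ ‖F s‖ₑ + edist (F r) (F s) := by
    rw [edist_eq_enorm_sub]
    calc ‖F r‖ₑ = ‖F s + (F r - F s)‖ₑ := by rw [add_sub_cancel]
      _ ≤ _ := enorm_add_le _ _
  exact h3.trans (by gcongr; exact h2.trans (hvar s hs1))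

end Pool.Agent.J4.H87.Ray
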