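import Mathlib
import Pool.Agent.J4.H87.RayY
set_option autoImplicit false

/-! Rays: classes of functions of relatively bounded variation. -/

namespace Pool.Agent.J4.H87.Ray

open MeasureTheory Complex Set Filter Topology
open scoped ENNReal NNReal ComplexConjugate

theorem var_lin {n : ℕ} (a : Fin n → ℂ) (u : Fin n → ℝ → ℝ) (S : Set ℝ) :
    eVariationOn (fun r => ∑ j, a j * (u j r : ℂ)) S ≤ ∑ j, ‖a j‖ₑ * eVariationOn (u j) S := by
  refine iSup_le ?_
  rintro ⟨N, ⟨x, hx, xs⟩⟩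
  simp only
  calc ∑ i ∈ Finset.range N, edist (∑ j, a j * (u j (x (i + 1)) : ℂ)) (∑ j, a j * (u j (x i) : ℂ))
      ≤ ∑ i ∈ Finset.range N, ∑ j, ‖a j‖ₑ * edist (u j (x (i + 1))) (u j (x i)) := by
        refine Finset.sum_le_sum fun i _ => ?_
        rw [edist_eq_enorm_sub, ← Finset.sum_sub_distrib]
        refine (enorm_sum_le _ _).trans (Finset.sum_le_sum fun j _ => ?_)
        rw [← mul_sub, enorm_mul, edist_eq_enorm_sub, ← Complex.ofReal_sub]
        refine le_of_eq ?_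
        congr 1
        rw [← ofReal_norm, Complex.norm_real, ofReal_norm]
    _ = ∑ j, ‖a j‖ₑ * ∑ i ∈ Finset.range N, edist (u j (x (i + 1))) (u j (x i)) := by
        rw [Finset.sum_comm]
        exact Finset.sum_congr rfl fun j _ => (Finset.mul_sum _ _ _).symm
    _ ≤ _ := by
        refine Finset.sum_le_sum fun j _ => ?_
        gcongr
        exact eVariationOn.sum_le hx xs

theorem var_sub (p₁ p₂ : ℝ → ℝ) (S : Set ℝ) :
    eVariationOn (fun r => p₁ r - p₂ r) S ≤ eVariationOn p₁ S + eVariationOn p₂ S := by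
  refine iSup_le ?_
  rintro ⟨N, ⟨x, hx, xs⟩⟩
  simp only
  calc ∑ i ∈ Finset.range N, edist (p₁ (x (i + 1)) - p₂ (x (i + 1))) (p₁ (x i) - p₂ (x i))
      ≤ ∑ i ∈ Finset.range N, (edist (p₁ (x (i + 1))) (p₁ (x i)) +
          edist (p₂ (x (i + 1))) (p₂ (x i))) := by
        refine Finset.sum_le_sum fun i _ => ?_
        rw [edist_eq_enorm_sub, edist_eq_enorm_sub, edist_eq_enorm_sub]
        have : p₁ (x (i + 1)) - p₂ (x (i + 1)) - (p₁ (x i) - p₂ (x i)) =
            (p₁ (x (i + 1)) - p₁ (x i)) - (p₂ (x (i + 1)) - p₂ (x i)) := by ring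
        rw [this]
        exact enorm_sub_le
    _ = _ := Finset.sum_add_distrib
    _ ≤ _ := add_le_add (eVariationOn.sum_le hx xs) (eVariationOn.sum_le hx xs)

theorem var_mono {p : ℝ → ℝ} {l : ℝ} (hl : 0 < l) (hp : MonotoneOn p (Icc (l / 2) l)) :
    eVariationOn p (Icc (l / 2) l) ≤ ENNReal.ofReal (p l - p (l / 2)) := by
  have h1 : l / 2 ∈ Icc (l / 2) l := ⟨le_rfl, by linarith⟩
  have h2 : l ∈ Icc (l / 2) l := ⟨by linarith, le_rfl⟩
  have := (hp.eVariationOn_eq h1 h2).le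
  rwa [inter_self] at this

theorem var_anti {p : ℝ → ℝ} {l : ℝ} (hl : 0 < l) (hp : AntitoneOn p (Icc (l / 2) l)) :
    eVariationOn p (Icc (l / 2) l) ≤ ENNReal.ofReal (p (l / 2) - p l) := by
  have h1 := var_mono hl (p := fun r => -p r) hp.neg
  have h2 := var_sub (fun _ => 0) (fun r => -p r) (Icc (l / 2) l)
  have h3 : eVariationOn (fun _ : ℝ => (0 : ℝ)) (Icc (l / 2) l) = 0 :=
    eVariationOn.constant_on (by
      rintro _ ⟨a, _, rfl⟩ _ ⟨b, _, rfl⟩
      rfl)
  rw [h3, zero_add] at h2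
  have h4 : (fun r => 0 - -p r) = p := by ext r; ring
  rw [h4] at h2
  refine h2.trans (h1.trans (ENNReal.ofReal_le_ofReal ?_))
  linarith

/-- nonincreasing absolute value and constant argument -/
theorem relBV_anti {F : ℝ → ℂ} {a : ℂ} {g : ℝ → ℝ} (hg : AntitoneOn g (Ioi 0))
    (hg0 : ∀ r, 0 < r → 0 ≤ g r) (hF : ∀ r, 0 < r → F r = a * (g r : ℂ)) : RelBV 3 F := by
  intro l hl
  have hsub : Icc (l / 2) l ⊆ Ioi (0 : ℝ) := fun r hr => by
    show (0 : ℝ) < r
    linarith [hr.1]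
  have e1 : eVariationOn F (Icc (l / 2) l) =
      eVariationOn (fun r => ∑ j : Fin 1, (fun _ => a) j * (((fun _ => g) j) r : ℂ))
        (Icc (l / 2) l) := by
    refine eVariationOn.congr fun r hr => ?_
    rw [hF r (hsub hr)]
    simp
  rw [e1]
  refine (var_lin (n := 1) (fun _ => a) (fun _ => g) _).trans ?_
  rw [Finset.univ_unique, Finset.sum_singleton]
  have h1 : eVariationOn g (Icc (l / 2) l) ≤ ENNReal.ofReal (g (l / 2)) := by
    refine (var_anti hl (hg.mono hsub)).trans (ENNReal.ofReal_le_ofReal ?_)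
    linarith [hg0 l hl]
  have h2 : ‖a‖ₑ * ENNReal.ofReal (g (l / 2)) * ENNReal.ofReal (3 * l / 8) ≤
      ∫⁻ r in Ioc (l / 8) (8 * l), ‖F r‖ₑ := by
    calc ‖a‖ₑ * ENNReal.ofReal (g (l / 2)) * ENNReal.ofReal (3 * l / 8)
        = ∫⁻ r in Ioc (l / 8) (l / 2), ‖a‖ₑ * ENNReal.ofReal (g (l / 2)) := by
          rw [setLIntegral_const, Real.volume_Ioc]
          congr 2
          ring
      _ ≤ ∫⁻ r in Ioc (l / 8) (l / 2), ‖F r‖ₑ := by
          refine setLIntegral_mono' measurableSet_Ioc fun r hr => ?_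
          have hr0 : 0 < r := by linarith [hr.1]
          rw [hF r hr0, enorm_mul]
          gcongr
          rw [← ofReal_norm (g r : ℂ), Complex.norm_real, Real.norm_of_nonneg (hg0 r hr0)]
          exact ENNReal.ofReal_le_ofReal (hg hr0 (show (0 : ℝ) < l / 2 by positivity) hr.2)
      _ ≤ _ := lintegral_mono_set (Ioc_subset_Ioc_right (by linarith))
  calc ‖a‖ₑ * eVariationOn g (Icc (l / 2) l) ≤ ‖a‖ₑ * ENNReal.ofReal (g (l / 2)) := by gcongr
    _ ≤ ENNReal.ofReal (3 / l) * (‖a‖ₑ * ENNReal.ofReal (g (l / 2)) * ENNReal.ofReal (3 * l / 8)) := by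
        have h3 : (1 : ℝ≥0∞) ≤ ENNReal.ofReal (3 / l) * ENNReal.ofReal (3 * l / 8) := by
          rw [← ENNReal.ofReal_mul (by positivity), ← ENNReal.ofReal_one]
          refine ENNReal.ofReal_le_ofReal ?_
          have : 3 / l * (3 * l / 8) = 9 / 8 := by field_simp; norm_num
          rw [this]
          norm_num
        calc ‖a‖ₑ * ENNReal.ofReal (g (l / 2)) = 1 * (‖a‖ₑ * ENNReal.ofReal (g (l / 2))) :=
              (one_mul _).symm
          _ ≤ (ENNReal.ofReal (3 / l) * ENNReal.ofReal (3 * l / 8)) *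
              (‖a‖ₑ * ENNReal.ofReal (g (l / 2))) := by gcongr
          _ = _ := by ring
    _ ≤ _ := by gcongr

/-- the polynomial with the coefficients `a` -/
noncomputable def pl {d : ℕ} (a : Fin (d + 1) → ℂ) (r : ℝ) : ℂ := ∑ j, a j * (r : ℂ) ^ (j : ℕ)

theorem pl_cont {d : ℕ} : Continuous fun p : (Fin (d + 1) → ℂ) × ℝ => pl p.1 p.2 := by
  unfold pl
  fun_prop

theorem pl_smul {d : ℕ} (c : ℂ) (a : Fin (d + 1) → ℂ) (r : ℝ) : pl (c • a) r = c * pl a r := by
  unfold pl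
  rw [Finset.mul_sum]
  refine Finset.sum_congr rfl fun j _ => ?_
  rw [Pi.smul_apply, smul_eq_mul]
  ring

theorem pl_zero {d : ℕ} (a : Fin (d + 1) → ℂ)
    (h : ∀ r ∈ Icc (1 / 8 : ℝ) (1 / 2), pl a r = 0) : a = 0 := by
  set P : Polynomial ℂ := ∑ j : Fin (d + 1), Polynomial.C (a j) * Polynomial.X ^ (j : ℕ) with hP
  have he : ∀ r : ℝ, P.eval (r : ℂ) = pl a r := by
    intro r
    rw [hP, Polynomial.eval_finsetSum]
    unfold pl
    refine Finset.sum_congr rfl fun j _ => ?_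
    simp
  have hP0 : P = 0 := by
    refine Polynomial.eq_zero_of_infinite_isRoot P ?_
    have h1 : (Icc (1 / 8 : ℝ) (1 / 2)).Infinite := Icc_infinite (by norm_num)
    have h2 : ((fun r : ℝ => (r : ℂ)) '' Icc (1 / 8 : ℝ) (1 / 2)).Infinite :=
      h1.image Complex.ofReal_injective.injOn
    refine h2.mono ?_
    rintro _ ⟨r, hr, rfl⟩
    show P.IsRoot (r : ℂ)
    rw [Polynomial.IsRoot, he, h r hr]
  ext j
  have h3 : P.coeff (j : ℕ) = a j := by
    rw [hP, Polynomial.finsetSum_coeff]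
    simp only [Polynomial.coeff_C_mul, Polynomial.coeff_X_pow]
    rw [Finset.sum_eq_single j]
    · simp
    · intro i _ hi
      rw [if_neg, mul_zero]
      intro h4
      exact hi (Fin.ext h4.symm)
    · intro h4
      exact absurd (Finset.mem_univ j) h4
  rw [← h3, hP0, Polynomial.coeff_zero, Pi.zero_apply]

theorem exists_K (d : ℕ) : ∃ K : ℝ, 0 ≤ K ∧ ∀ a : Fin (d + 1) → ℂ,
    ∑ j, ‖a j‖ ≤ K * ∫ r in (1 / 8 : ℝ)..(1 / 2), ‖pl a r‖ := by
  set N : (Fin (d + 1) → ℂ) → ℝ := fun a => ∫ r in (1 / 8 : ℝ)..(1 / 2), ‖pl a r‖ with hN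
  have hNc : Continuous N :=
    intervalIntegral.continuous_parametric_intervalIntegral_of_continuous'
      (f := fun (a : Fin (d + 1) → ℂ) (r : ℝ) => ‖pl a r‖) (by
        exact pl_cont.norm) (1 / 8) (1 / 2)
  have hNs : ∀ (c : ℝ) (a : Fin (d + 1) → ℂ), 0 ≤ c → N ((c : ℂ) • a) = c * N a := by
    intro c a hc
    simp only [hN]
    rw [← intervalIntegral.integral_const_mul]
    congr 1
    ext r
    rw [pl_smul, norm_mul, Complex.norm_real, Real.norm_of_nonneg hc]
  have hNp : ∀ a, a ≠ 0 → 0 < N a := by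
    intro a ha
    have h1 : ∃ r ∈ Icc (1 / 8 : ℝ) (1 / 2), pl a r ≠ 0 := by
      by_contra hne
      push Not at hne
      exact ha (pl_zero a hne)
    obtain ⟨r, hr, hne⟩ := h1
    refine intervalIntegral.integral_pos (by norm_num) ?_ (fun x _ => norm_nonneg _)
      ⟨r, hr, norm_pos_iff.2 hne⟩
    have h2 : Continuous fun r : ℝ => ‖pl a r‖ := by
      unfold pl
      fun_prop
    exact h2.continuousOn
  have hcomp : IsCompact (Metric.sphere (0 : Fin (d + 1) → ℂ) 1) := isCompact_sphere _ _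
  have hne : (Metric.sphere (0 : Fin (d + 1) → ℂ) 1).Nonempty := by
    refine ⟨fun _ => 1, ?_⟩
    rw [mem_sphere_zero_iff_norm, pi_norm_const, norm_one]
  obtain ⟨a0, ha0, hmin⟩ := hcomp.exists_isMinOn hne hNc.continuousOn
  have ha0ne : a0 ≠ 0 := by
    rintro rfl
    rw [mem_sphere_zero_iff_norm, norm_zero] at ha0
    norm_num at ha0
  have hm := hNp a0 ha0ne
  refine ⟨(d + 1) / N a0, by positivity, fun a => ?_⟩
  rcases eq_or_ne a 0 with rfl | ha
  · have h0 : N 0 = 0 := by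
      have := hNs 0 0 le_rfl
      simpa using this
    show ∑ j, ‖(0 : Fin (d + 1) → ℂ) j‖ ≤ (d + 1) / N a0 * N 0
    rw [h0]
    simp
  · have hna : 0 < ‖a‖ := norm_pos_iff.2 ha
    have h1 : N a0 ≤ N (((‖a‖⁻¹ : ℝ) : ℂ) • a) := by
      refine hmin ?_
      rw [mem_sphere_zero_iff_norm, norm_smul, Complex.norm_real,
        Real.norm_of_nonneg (by positivity), inv_mul_cancel₀ hna.ne']
    rw [hNs _ _ (by positivity), inv_mul_eq_div, le_div_iff₀ hna] at h1
    have h2 : ∑ j, ‖a j‖ ≤ (d + 1) * ‖a‖ := by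
      calc ∑ j, ‖a j‖ ≤ ∑ _j : Fin (d + 1), ‖a‖ := Finset.sum_le_sum fun j _ => norm_le_pi_norm a j
        _ = _ := by
            rw [Finset.sum_const, Finset.card_univ, Fintype.card_fin, nsmul_eq_mul]
            push_cast
            ring
    show ∑ j, ‖a j‖ ≤ (d + 1) / N a0 * N a
    calc ∑ j, ‖a j‖ ≤ (d + 1) * ‖a‖ := h2
      _ ≤ (d + 1) * (N a / N a0) := by
          gcongr
          rw [le_div_iff₀ hm]
          linarith
      _ = _ := by ring

end Pool.Agent.J4.H87.Ray
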