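import Mathlib
import Pool.Agent.J4.H87.RayZ1
set_option autoImplicit false

/-! Rays: polynomials on the rays; transfer to the paraboloid. -/

namespace Pool.Agent.J4.H87.Ray

open MeasureTheory Complex Set Filter Topology
open scoped ENNReal NNReal ComplexConjugate RealInnerProductSpace

theorem relBV_poly (d : ℕ) : ∃ K : ℝ, 0 ≤ K ∧ ∀ (F : ℝ → ℂ) (a : Fin (d + 1) → ℂ) (S : Set ℝ),
    (∀ r ∈ S, ∀ r', 0 < r' → r' ≤ r → r' ∈ S) →
    (∀ r, 0 < r → F r = S.indicator (pl a) r) → RelBV K F := by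
  obtain ⟨K0, hK0, hK⟩ := exists_K d
  refine ⟨2 * K0, by positivity, fun F a S hS hF l hl => ?_⟩
  have hsub : ∀ r ∈ Icc (l / 2) l, 0 < r := fun r hr => by linarith [hr.1]
  by_cases hlS : l / 2 ∈ S
  swap
  · have h0 : eVariationOn F (Icc (l / 2) l) = 0 := by
      refine eVariationOn.constant_on ?_
      have : ∀ r ∈ Icc (l / 2) l, F r = 0 := by
        intro r hr
        rw [hF r (hsub r hr), indicator_of_notMem]
        exact fun h => hlS (hS r h (l / 2) (by positivity) hr.1)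
      rintro _ ⟨x, hx, rfl⟩ _ ⟨y, hy, rfl⟩
      rw [this x hx, this y hy]
    rw [h0]
    exact zero_le
  classical
  set u : Fin (d + 1) → ℝ → ℝ := fun j r => if r ∈ S then r ^ (j : ℕ) else 0 with hu
  set p₁ : Fin (d + 1) → ℝ → ℝ := fun j r => if r ∈ S then r ^ (j : ℕ) else l ^ (j : ℕ) with hp₁
  set p₂ : Fin (d + 1) → ℝ → ℝ := fun j r => if r ∈ S then 0 else l ^ (j : ℕ) with hp₂
  have hup : ∀ j, u j = fun r => p₁ j r - p₂ j r := by
    intro j
    ext r
    simp only [hu, hp₁, hp₂]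
    by_cases hr : r ∈ S
    · simp [hr]
    · simp [hr]
  have hm₁ : ∀ j, MonotoneOn (p₁ j) (Icc (l / 2) l) := by
    intro j x hx y hy hxy
    simp only [hp₁]
    by_cases hyS : y ∈ S
    · have hxS : x ∈ S := hS y hyS x (hsub x hx) hxy
      rw [if_pos hxS, if_pos hyS]
      exact pow_le_pow_left₀ (hsub x hx).le hxy _
    · rw [if_neg hyS]
      by_cases hxS : x ∈ S
      · rw [if_pos hxS]
        exact pow_le_pow_left₀ (hsub x hx).le hx.2 _
      · rw [if_neg hxS]
  have hm₂ : ∀ j, MonotoneOn (p₂ j) (Icc (l / 2) l) := by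
    intro j x hx y hy hxy
    simp only [hp₂]
    by_cases hyS : y ∈ S
    · have hxS : x ∈ S := hS y hyS x (hsub x hx) hxy
      rw [if_pos hxS, if_pos hyS]
    · rw [if_neg hyS]
      by_cases hxS : x ∈ S
      · rw [if_pos hxS]; positivity
      · rw [if_neg hxS]
  have hv : ∀ j, eVariationOn (u j) (Icc (l / 2) l) ≤ ENNReal.ofReal (2 * l ^ (j : ℕ)) := by
    intro j
    rw [hup j]
    refine (var_sub _ _ _).trans ?_
    have h1 := var_mono hl (hm₁ j)
    have h2 := var_mono hl (hm₂ j)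
    have h3 : p₁ j l - p₁ j (l / 2) ≤ l ^ (j : ℕ) := by
      have a1 : p₁ j l = l ^ (j : ℕ) := by simp only [hp₁]; split_ifs <;> rfl
      have a2 : 0 ≤ p₁ j (l / 2) := by simp only [hp₁]; split_ifs <;> positivity
      linarith
    have h4 : p₂ j l - p₂ j (l / 2) ≤ l ^ (j : ℕ) := by
      have a1 : p₂ j l ≤ l ^ (j : ℕ) := by
        simp only [hp₂]
        split_ifs
        · positivity
        · exact le_rfl
      have a2 : 0 ≤ p₂ j (l / 2) := by simp only [hp₂]; split_ifs <;> positivity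
      linarith
    calc _ ≤ ENNReal.ofReal (l ^ (j : ℕ)) + ENNReal.ofReal (l ^ (j : ℕ)) :=
          add_le_add (h1.trans (ENNReal.ofReal_le_ofReal h3)) (h2.trans (ENNReal.ofReal_le_ofReal h4))
      _ = _ := by
          rw [← ENNReal.ofReal_add (by positivity) (by positivity)]
          congr 1
          ring
  have e1 : eVariationOn F (Icc (l / 2) l) =
      eVariationOn (fun r => ∑ j, a j * (u j r : ℂ)) (Icc (l / 2) l) := by
    refine eVariationOn.congr fun r hr => ?_
    rw [hF r (hsub r hr)]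
    by_cases hrS : r ∈ S
    · rw [indicator_of_mem hrS]
      unfold pl
      refine Finset.sum_congr rfl fun j _ => ?_
      simp only [hu, if_pos hrS]
      push_cast
      rfl
    · rw [indicator_of_notMem hrS]
      simp only [hu, if_neg hrS, Complex.ofReal_zero, mul_zero, Finset.sum_const_zero]
  rw [e1]
  refine (var_lin a u _).trans ?_
  set b : Fin (d + 1) → ℂ := fun j => a j * (l : ℂ) ^ (j : ℕ) with hb
  have hbn : ∀ j, ‖b j‖ = ‖a j‖ * l ^ (j : ℕ) := by
    intro j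
    simp only [hb]
    rw [norm_mul, norm_pow, Complex.norm_real, Real.norm_of_nonneg hl.le]
  have hpb : ∀ s : ℝ, pl b s = pl a (l * s) := by
    intro s
    unfold pl
    refine Finset.sum_congr rfl fun j _ => ?_
    simp only [hb]
    push_cast
    ring
  set I0 : ℝ := ∫ r in (1 / 8 : ℝ)..(1 / 2), ‖pl b r‖ with hI0
  have hI0n : 0 ≤ I0 := intervalIntegral.integral_nonneg (by norm_num) fun _ _ => norm_nonneg _
  have h5 : ∑ j, ‖a j‖ₑ * eVariationOn (u j) (Icc (l / 2) l) ≤ ENNReal.ofReal (2 * K0 * I0) := by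
    calc ∑ j, ‖a j‖ₑ * eVariationOn (u j) (Icc (l / 2) l)
        ≤ ∑ j, ENNReal.ofReal (2 * ‖b j‖) := by
          refine Finset.sum_le_sum fun j _ => ?_
          calc ‖a j‖ₑ * eVariationOn (u j) (Icc (l / 2) l)
              ≤ ENNReal.ofReal ‖a j‖ * ENNReal.ofReal (2 * l ^ (j : ℕ)) := by
                rw [ofReal_norm]
                gcongr
                exact hv j
            _ = _ := by
                rw [← ENNReal.ofReal_mul (norm_nonneg _), hbn]
                congr 1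
                ring
      _ = ENNReal.ofReal (2 * ∑ j, ‖b j‖) := by
          rw [← ENNReal.ofReal_sum_of_nonneg fun j _ => by positivity, ← Finset.mul_sum]
      _ ≤ _ := by
          refine ENNReal.ofReal_le_ofReal ?_
          have := hK b
          calc 2 * ∑ j, ‖b j‖ ≤ 2 * (K0 * I0) := by gcongr
            _ = _ := by ring
  refine h5.trans ?_
  have hplc : Continuous fun r : ℝ => ‖pl a r‖ := by
    unfold pl
    fun_prop
  have h6 : l * I0 = ∫ r in (l / 8)..(l / 2), ‖pl a r‖ := by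
    have := intervalIntegral.mul_integral_comp_mul_left (a := (1 / 8 : ℝ)) (b := 1 / 2)
      (f := fun r => ‖pl a r‖) (c := l)
    rw [show l * (1 / 8) = l / 8 by ring, show l * (1 / 2) = l / 2 by ring] at this
    rw [← this, hI0]
    simp only [hpb]
  have h7 : ENNReal.ofReal (l * I0) ≤ ∫⁻ r in Ioc (l / 8) (8 * l), ‖F r‖ₑ := by
    rw [h6, intervalIntegral.integral_of_le (by linarith),
      ofReal_integral_eq_lintegral_ofReal (hplc.integrableOn_Ioc)
        (Filter.Eventually.of_forall fun r => norm_nonneg _)]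
    calc ∫⁻ r in Ioc (l / 8) (l / 2), ENNReal.ofReal ‖pl a r‖
        ≤ ∫⁻ r in Ioc (l / 8) (l / 2), ‖F r‖ₑ := by
          refine setLIntegral_mono' measurableSet_Ioc fun r hr => ?_
          have hr0 : 0 < r := by linarith [hr.1]
          rw [hF r hr0, indicator_of_mem (hS _ hlS r hr0 hr.2), ofReal_norm]
      _ ≤ _ := lintegral_mono_set (Ioc_subset_Ioc_right (by linarith))
  calc ENNReal.ofReal (2 * K0 * I0) = ENNReal.ofReal (2 * K0 / l) * ENNReal.ofReal (l * I0) := by
        rw [← ENNReal.ofReal_mul (by positivity)]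
        congr 1
        field_simp
    _ ≤ _ := by gcongr

abbrev E' (n : ℕ) := EuclideanSpace ℝ (Fin n)

/-- the paraboloid `x ↦ (x_1, x_2, x_1^2 + x_2^2)` -/
noncomputable def Phi (x : E' 2) : E' 3 := !₂[x 0, x 1, x 0 ^ 2 + x 1 ^ 2]

/-- the Fourier extension operator of the paraboloid over `U` -/
noncomputable def ext (U : Set (E' 2)) (f : E' 2 → ℂ) (ξ : E' 3) : ℂ :=
  ∫ x in U, Complex.exp (-((⟪Phi x, ξ⟫ : ℝ) : ℂ) * I) * f x

/-- the direction with the angle `θ` -/
noncomputable def dir (θ : ℝ) : E' 2 := !₂[Real.cos θ, Real.sin θ]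

/-- the function on the complex plane -/
noncomputable def fc (f : E' 2 → ℂ) (w : ℂ) : ℂ := f (ce w)

/-- the point of the complex plane -/
noncomputable def yc (y : E' 2) : ℂ := ⟨y 0, y 1⟩

theorem ce_add (y : E' 2) (w : ℂ) : ce (yc y + w) = y + ce w := by
  ext i
  fin_cases i
  · show (yc y + w).re = y 0 + w.re
    rw [Complex.add_re]
    rfl
  · show (yc y + w).im = y 1 + w.im
    rw [Complex.add_im]
    rfl

theorem ce_ec (r θ : ℝ) : ce ((r : ℂ) * ec θ) = r • dir θ := by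
  ext i
  fin_cases i
  · show ((r : ℂ) * ec θ).re = r * Real.cos θ
    rw [Complex.re_ofReal_mul, ec_re]
  · show ((r : ℂ) * ec θ).im = r * Real.sin θ
    rw [Complex.im_ofReal_mul, ec_im]

theorem fc_ray (f : E' 2 → ℂ) (y : E' 2) (r θ : ℝ) :
    fc f (yc y + (r : ℂ) * ec θ) = f (y + r • dir θ) := by
  unfold fc
  rw [ce_add, ce_ec]

theorem ce_norm (w : ℂ) : ‖ce w‖ = ‖w‖ := by
  rw [← sq_eq_sq₀ (norm_nonneg _) (norm_nonneg _), EuclideanSpace.norm_sq_eq, Fin.sum_univ_two,
    ce_zero, ce_one, ← Complex.normSq_eq_norm_sq, Complex.normSq_apply, Real.norm_eq_abs,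
    Real.norm_eq_abs, sq_abs, sq_abs]
  ring

theorem ext_eq {U : Set (E' 2)} {f : E' 2 → ℂ} (hfU : ∀ x, x ∉ U → f x = 0) (ξ : E' 3) :
    ext U f ξ = FT (fc f) (ξ 2) ⟨ξ 0, ξ 1⟩ := by
  unfold ext FT fc
  have h1 : ∫ x in U, Complex.exp (-((⟪Phi x, ξ⟫ : ℝ) : ℂ) * I) * f x =
      ∫ x, Complex.exp (-((⟪Phi x, ξ⟫ : ℝ) : ℂ) * I) * f x := by
    refine setIntegral_eq_integral_of_forall_compl_eq_zero fun x hx => ?_
    rw [hfU x hx, mul_zero]
  rw [h1, ← ce_mp.integral_comp ce.measurableEmbedding]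
  refine integral_congr_ae (Filter.Eventually.of_forall fun w => ?_)
  simp only
  rw [mul_comm]
  congr 1
  unfold ex
  congr 1
  rw [← Complex.ofReal_neg]
  congr 2
  have h2 : (⟪Phi (ce w), ξ⟫ : ℝ) = w.re * ξ 0 + w.im * ξ 1 + (w.re ^ 2 + w.im ^ 2) * ξ 2 := by
    rw [PiLp.inner_apply, Fin.sum_univ_three]
    simp only [RCLike.inner_apply, conj_trivial]
    have a0 : Phi (ce w) 0 = w.re := rfl
    have a1 : Phi (ce w) 1 = w.im := rfl
    have a2 : Phi (ce w) 2 = w.re ^ 2 + w.im ^ 2 := rfl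
    rw [a0, a1, a2]
    ring
  rw [h2, ← Complex.normSq_eq_norm_sq, Complex.normSq_apply, Complex.mul_re, Complex.conj_re,
    Complex.conj_im]
  ring

/-- the identification of `ℝ × ℂ` and the space -/
noncomputable def te : E' 3 ≃ᵐ ℝ × ℂ :=
  ((MeasurableEquiv.toLp 2 (Fin 3 → ℝ)).symm.trans
    (MeasurableEquiv.piFinSuccAbove (fun _ : Fin 3 => ℝ) 2)).trans
    (MeasurableEquiv.prodCongr (MeasurableEquiv.refl ℝ)
      ((MeasurableEquiv.finTwoArrow (α := ℝ)).trans Complex.measurableEquivRealProd.symm))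

theorem te_mp : MeasurePreserving te volume volume := by
  have h1 : MeasurePreserving (MeasurableEquiv.toLp 2 (Fin 3 → ℝ)).symm volume volume :=
    (PiLp.volume_preserving_toLp (Fin 3)).symm
  have h2 := volume_preserving_piFinSuccAbove (fun _ : Fin 3 => ℝ) 2
  have h3 : MeasurePreserving ((MeasurableEquiv.finTwoArrow (α := ℝ)).trans
      Complex.measurableEquivRealProd.symm) volume volume :=
    (Complex.volume_preserving_equiv_real_prod.symm).comp (volume_preserving_finTwoArrow ℝ)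
  have h4 : MeasurePreserving (Prod.map (id : ℝ → ℝ) ((MeasurableEquiv.finTwoArrow (α := ℝ)).trans
      Complex.measurableEquivRealProd.symm)) (volume.prod volume) (volume.prod volume) :=
    (MeasurePreserving.id volume).prod h3
  exact h4.comp (h2.comp h1)

theorem te_apply (ξ : E' 3) : te ξ = (ξ 2, ⟨ξ 0, ξ 1⟩) := rfl

theorem FT_meas {f : ℂ → ℂ} (hf : Measurable f) : Measurable fun p : ℝ × ℂ => FT f p.1 p.2 := by
  have h1 : StronglyMeasurable fun s : (ℝ × ℂ) × ℂ =>
      f s.2 * ex (-((s.2 * conj s.1.2).re + s.1.1 * ‖s.2‖ ^ 2)) := by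
    refine Measurable.stronglyMeasurable ((hf.comp measurable_snd).mul (ex_meas.comp ?_))
    have h2 : Measurable fun s : (ℝ × ℂ) × ℂ => (s.2 * conj s.1.2).re :=
      Complex.measurable_re.comp (measurable_snd.mul
        (Complex.continuous_conj.measurable.comp measurable_fst.snd))
    have h3 : Measurable fun s : (ℝ × ℂ) × ℂ => s.1.1 * ‖s.2‖ ^ 2 :=
      measurable_fst.fst.mul (measurable_snd.norm.pow_const 2)
    exact (h2.add h3).neg
  exact h1.integral_prod_right'.measurable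

theorem ext_lint {U : Set (E' 2)} {f : E' 2 → ℂ} (hf : Measurable f)
    (hfU : ∀ x, x ∉ U → f x = 0) (q : ℝ) :
    ∫⁻ ξ, ‖ext U f ξ‖ₑ ^ q = ∫⁻ t, ∫⁻ z, ‖FT (fc f) t z‖ₑ ^ q := by
  have hfc : Measurable (fc f) := hf.comp ce.measurable
  have h1 : Measurable fun p : ℝ × ℂ => ‖FT (fc f) p.1 p.2‖ₑ ^ q := (FT_meas hfc).enorm.pow_const q
  rw [← lintegral_prod (fun p : ℝ × ℂ => ‖FT (fc f) p.1 p.2‖ₑ ^ q) h1.aemeasurable,
    ← Measure.volume_eq_prod, ← te_mp.lintegral_comp_emb te.measurableEmbedding]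
  refine lintegral_congr fun ξ => ?_
  rw [ext_eq hfU, te_apply]

theorem fc_lint {f : E' 2 → ℂ} (q : ℝ) {U : Set (E' 2)} (hU : MeasurableSet U) (hq : 0 < q)
    (hfU : ∀ x, x ∉ U → f x = 0) : ∫⁻ w, ‖fc f w‖ₑ ^ q = ∫⁻ x in U, ‖f x‖ₑ ^ q := by
  have h1 : ∫⁻ w, ‖fc f w‖ₑ ^ q = ∫⁻ x, ‖f x‖ₑ ^ q := by
    rw [← ce_mp.lintegral_comp_emb ce.measurableEmbedding]
    rfl
  rw [h1, ← lintegral_indicator hU]
  refine lintegral_congr fun x => ?_
  by_cases hx : x ∈ U
  · rw [indicator_of_mem hx]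
  · rw [indicator_of_notMem hx, hfU x hx, enorm_zero, ENNReal.zero_rpow_of_pos hq]

end Pool.Agent.J4.H87.Ray
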