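import Mathlib
import Pool.Agent.J4.H87.RayZ2
set_option autoImplicit false

/-! Rays: the theorems for the paraboloid. -/

namespace Pool.Agent.J4.H87.Ray

open MeasureTheory Complex Set Filter Topology
open scoped ENNReal NNReal ComplexConjugate RealInnerProductSpace

theorem eLp_lint {X : Type} [MeasurableSpace X] (μ : Measure X) (g : X → ℂ) {q : ℝ} (hq : 0 < q) :
    eLpNorm g (ENNReal.ofReal q) μ = (∫⁻ x, ‖g x‖ₑ ^ q ∂μ) ^ (1 / q) := by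
  have h0 : ENNReal.ofReal q ≠ 0 := by
    simp only [ne_eq, ENNReal.ofReal_eq_zero, not_le]
    exact hq
  rw [eLpNorm_eq_lintegral_rpow_enorm_toReal h0 ENNReal.ofReal_ne_top, ENNReal.toReal_ofReal hq.le]

theorem fc_zero {U : Set (E' 2)} {f : E' 2 → ℂ} {y : E' 2} {ρ : ℝ} (hU : U ⊆ Metric.ball 0 (1 / 2))
    (hy : ‖y‖ ≤ ρ) (hfU : ∀ x, x ∉ U → f x = 0) (w : ℂ) (hw : ρ + 1 / 2 < ‖w‖) :
    fc f (yc y + w) = 0 := by
  unfold fc
  rw [ce_add]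
  refine hfU _ fun hmem => ?_
  have h1 := hU hmem
  rw [Metric.mem_ball, dist_zero_right] at h1
  have h2 : ‖ce w‖ ≤ ‖y + ce w‖ + ‖y‖ := by
    calc ‖ce w‖ = ‖(y + ce w) - y‖ := by rw [add_sub_cancel_left]
      _ ≤ _ := norm_sub_le _ _
  rw [ce_norm] at h2
  linarith

theorem finA {q : ℝ} (hq : 3 < q) {ρ : ℝ} (hρ : 0 ≤ ρ) :
    ∃ C : ℝ≥0, ∀ (U : Set (E' 2)) (f : E' 2 → ℂ) (y : E' 2) (V : ℝ → ℝ≥0∞),
      MeasurableSet U → U ⊆ Metric.ball 0 (1 / 2) → Measurable f → (∀ x, x ∉ U → f x = 0) →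
      ‖y‖ ≤ ρ → Measurable V →
      (∀ᵐ θ ∂(volume.restrict (Ioo (-Real.pi) Real.pi)),
        eVariationOn (fun r : ℝ => f (y + r • dir θ)) (Ioi 0) ≤ V θ) →
      eLpNorm (ext U f) (ENNReal.ofReal q) volume ≤
        C * (∫⁻ θ in Ioo (-Real.pi) Real.pi, V θ ^ q) ^ (1 / q) := by
  obtain ⟨C, hC, -, h⟩ := partA hq
  have hq0 : 0 < q := by linarith
  have hq1 : 0 ≤ 1 / q := by positivity
  set C1 : ℝ≥0∞ := (C * ENNReal.ofReal ((ρ + 1 / 2) ^ (2 * q - 4))) ^ (1 / q) with hC1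
  have hC1t : C1 ≠ ∞ :=
    ENNReal.rpow_ne_top_of_nonneg hq1 (ENNReal.mul_ne_top hC ENNReal.ofReal_ne_top)
  refine ⟨C1.toNNReal, fun U f y V hU hUb hf hfU hy hV hae => ?_⟩
  rw [ENNReal.coe_toNNReal hC1t, eLp_lint _ _ hq0, ext_lint hf hfU, hC1,
    ← ENNReal.mul_rpow_of_nonneg _ _ hq1]
  refine ENNReal.rpow_le_rpow ?_ hq1
  exact h (ρ + 1 / 2) (yc y) (fc f) V (by linarith) (hf.comp ce.measurable) hV
    (fc_zero hUb hy hfU) (by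
      filter_upwards [hae] with θ hθ
      simp only [fc_ray]
      exact hθ)

theorem finB {q : ℝ} (hq : 3 < q) {ρ : ℝ} (hρ : 0 ≤ ρ) {K : ℝ} (hK : 0 ≤ K) :
    ∃ C : ℝ≥0, ∀ (U : Set (E' 2)) (f : E' 2 → ℂ) (y : E' 2),
      MeasurableSet U → U ⊆ Metric.ball 0 (1 / 2) → Measurable f → (∀ x, x ∉ U → f x = 0) →
      ‖y‖ ≤ ρ →
      (∀ᵐ θ ∂(volume.restrict (Ioo (-Real.pi) Real.pi)), RelBV K fun r : ℝ => f (y + r • dir θ)) →
      eLpNorm (ext U f) (ENNReal.ofReal q) volume ≤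
        C * eLpNorm f (ENNReal.ofReal q) (volume.restrict U) := by
  obtain ⟨C, hC, h⟩ := partB hq
  have hq0 : 0 < q := by linarith
  have hq1 : 0 ≤ 1 / q := by positivity
  set C1 : ℝ≥0∞ := (C * ENNReal.ofReal ((K + 2) ^ q * (ρ + 1 / 2) ^ (2 * q - 6))) ^ (1 / q) with hC1
  have hC1t : C1 ≠ ∞ :=
    ENNReal.rpow_ne_top_of_nonneg hq1 (ENNReal.mul_ne_top hC ENNReal.ofReal_ne_top)
  refine ⟨C1.toNNReal, fun U f y hU hUb hf hfU hy hae => ?_⟩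
  rw [ENNReal.coe_toNNReal hC1t, eLp_lint _ _ hq0, eLp_lint _ _ hq0, ext_lint hf hfU, hC1,
    ← ENNReal.mul_rpow_of_nonneg _ _ hq1, ← fc_lint q hU hq0 hfU]
  refine ENNReal.rpow_le_rpow ?_ hq1
  exact h (ρ + 1 / 2) (yc y) K (fc f) (by linarith) hK (hf.comp ce.measurable)
    (fc_zero hUb hy hfU) (by
      filter_upwards [hae] with θ hθ
      simp only [fc_ray]
      exact hθ)

theorem finU {q : ℝ} (hq : 3 < q) {ρ : ℝ} (hρ : 0 ≤ ρ) :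
    ∃ C : ℝ≥0, ∀ (U : Set (E' 2)) (f : E' 2 → ℂ) (y : E' 2) (v : E' 2 → ℝ≥0∞),
      MeasurableSet U → U ⊆ Metric.ball 0 (1 / 2) → Measurable f → (∀ x, x ∉ U → f x = 0) →
      ‖y‖ ≤ ρ → Measurable v →
      (∀ᵐ θ ∂(volume.restrict (Ioo (-Real.pi) Real.pi)), ∀ r : ℝ, 0 < r →
        eVariationOn (fun r : ℝ => f (y + r • dir θ)) (Icc (r / 2) (2 * r)) ≤
          v (y + r • dir θ)) →
      eLpNorm (ext U f) (ENNReal.ofReal q) volume ≤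
        C * (eLpNorm f (ENNReal.ofReal q) (volume.restrict U) + (∫⁻ x, v x ^ q) ^ (1 / q)) := by
  obtain ⟨C, hC, h⟩ := partU hq
  have hq0 : 0 < q := by linarith
  have hq1 : 0 ≤ 1 / q := by positivity
  set C1 : ℝ≥0∞ := (C * ENNReal.ofReal (2 ^ q * (ρ + 1 / 2) ^ (2 * q - 6))) ^ (1 / q) with hC1
  have hC1t : C1 ≠ ∞ :=
    ENNReal.rpow_ne_top_of_nonneg hq1 (ENNReal.mul_ne_top hC ENNReal.ofReal_ne_top)
  refine ⟨C1.toNNReal, fun U f y v hU hUb hf hfU hy hv hae => ?_⟩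
  have hvc : Measurable fun w : ℂ => v (ce w) := hv.comp ce.measurable
  have hvint : ∫⁻ w : ℂ, v (ce w) ^ q = ∫⁻ x, v x ^ q := by
    rw [← ce_mp.lintegral_comp_emb ce.measurableEmbedding]
  rw [ENNReal.coe_toNNReal hC1t, eLp_lint _ _ hq0, eLp_lint _ _ hq0, ext_lint hf hfU,
    ← fc_lint q hU hq0 hfU, ← hvint]
  calc (∫⁻ t, ∫⁻ z, ‖FT (fc f) t z‖ₑ ^ q) ^ (1 / q)
      ≤ (C * ENNReal.ofReal (2 ^ q * (ρ + 1 / 2) ^ (2 * q - 6)) *
        ∫⁻ w, (‖fc f w‖ₑ + v (ce w)) ^ q) ^ (1 / q) := by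
        refine ENNReal.rpow_le_rpow ?_ hq1
        refine h (ρ + 1 / 2) (yc y) (fc f) (fun w => v (ce w)) (by linarith)
          (hf.comp ce.measurable) hvc (fc_zero hUb hy hfU) ?_
        filter_upwards [hae] with θ hθ
        simp only [fc_ray, ce_add, ce_ec]
        exact hθ
    _ = C1 * (∫⁻ w, (‖fc f w‖ₑ + v (ce w)) ^ q) ^ (1 / q) := by
        rw [hC1, ENNReal.mul_rpow_of_nonneg _ _ hq1]
    _ ≤ _ := by
        gcongr
        exact ENNReal.lintegral_Lp_add_le (hf.comp ce.measurable).enorm.aemeasurable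
          hvc.aemeasurable (by linarith)

end Pool.Agent.J4.H87.Ray
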